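import Pool.Agent.X255.RH.Hyp

/-!
# Logarithms of multiplicatively independent rational functions
-/

set_option autoImplicit false
set_option linter.unusedSectionVars false

open Polynomial Filter Topology

namespace Pool.Agent.X255.RH

open Pool.Agent.Y890.SP

/-- linear forms of independent functions -/
theorem indep_lin {I J : Type} [Fintype I] [Fintype J] [DecidableEq J] {W : Set ℂ} {L : I → ℂ → ℂ} (h : Indep W L)
    (n : J → I → ℂ) (s : I → J → ℂ) (hs : ∀ j j', ∑ i, n j i * s i j' = if j = j' then 1 else 0) (κ : J → ℂ)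
    {l : J → ℂ → ℂ} (hl : ∀ j, ∀ x ∈ W, l j x = ∑ i, n j i * L i x + κ j) : Indep W l := by
  classical
  intro p hp
  let φ : MvPolynomial J ℂ[X] →+* MvPolynomial I ℂ[X] := MvPolynomial.eval₂Hom MvPolynomial.C fun j =>
    ∑ i, MvPolynomial.C (C (n j i)) * MvPolynomial.X i + MvPolynomial.C (C (κ j))
  let ψ : MvPolynomial I ℂ[X] →+* MvPolynomial J ℂ[X] := MvPolynomial.eval₂Hom MvPolynomial.C fun i =>
    ∑ j, MvPolynomial.C (C (s i j)) * (MvPolynomial.X j - MvPolynomial.C (C (κ j)))
  have h1 : ∀ x ∈ W, evH L x (φ p) = evH l x p := by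
    intro x hx
    have h2 : (evH L x).comp φ = evH l x := by
      refine MvPolynomial.ringHom_ext (fun r => ?_) fun j => ?_
      · simp [φ, evH]
      · simp [φ, evH, hl j x hx]
    exact RingHom.congr_fun h2 p
  have h2 : φ p = 0 := h (φ p) fun x hx => by
    rw [← evH_apply, h1 x hx, evH_apply]
    exact hp x hx
  have h3 : ψ.comp φ = RingHom.id _ := by
    refine MvPolynomial.ringHom_ext (fun r => ?_) fun j => ?_
    · simp [φ, ψ]
    · simp only [φ, ψ, RingHom.comp_apply, MvPolynomial.eval₂Hom_X', map_add, map_sum, map_mul, MvPolynomial.eval₂Hom_C,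
        RingHom.id_apply]
      have h4 : ∀ i, (MvPolynomial.C (C (n j i)) : MvPolynomial J ℂ[X]) *
          ∑ j', MvPolynomial.C (C (s i j')) * (MvPolynomial.X j' - MvPolynomial.C (C (κ j'))) =
          ∑ j', MvPolynomial.C (C (n j i * s i j')) * (MvPolynomial.X j' - MvPolynomial.C (C (κ j'))) := by
        intro i
        rw [Finset.mul_sum]
        refine Finset.sum_congr rfl fun j' _ => ?_
        rw [C_mul, MvPolynomial.C_mul]
        ring
      simp only [h4]
      rw [Finset.sum_comm]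
      have h5 : ∀ j', ∑ i, (MvPolynomial.C (C (n j i * s i j')) : MvPolynomial J ℂ[X]) *
          (MvPolynomial.X j' - MvPolynomial.C (C (κ j'))) =
          if j = j' then MvPolynomial.X j' - MvPolynomial.C (C (κ j')) else 0 := by
        intro j'
        rw [← Finset.sum_mul, ← map_sum, ← map_sum, hs j j']
        split_ifs <;> simp
      simp only [h5]
      rw [Finset.sum_ite_eq, if_pos (Finset.mem_univ _)]
      ring
  have h4 := RingHom.congr_fun h3 p
  rw [RingHom.comp_apply, h2, map_zero, RingHom.id_apply] at h4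
  exact h4.symm

theorem split_eq {p : ℂ[X]} (hp : p ≠ 0) (Z : Finset ℂ) (hZ : ∀ c, p.eval c = 0 → c ∈ Z) :
    p = C p.leadingCoeff * ∏ c ∈ Z, (X - C c) ^ p.rootMultiplicity c := by
  classical
  have h1 := (IsAlgClosed.splits p).eq_prod_roots
  have h2 := prod_multiset_root_eq_finset_root (p := p)
  rw [h2] at h1
  conv_lhs => rw [h1]
  congr 1
  refine Finset.prod_subset (fun c hc => ?_) fun c _ hc => ?_
  · rw [Multiset.mem_toFinset, mem_roots hp] at hc
    exact hZ c hc
  · rw [Multiset.mem_toFinset] at hc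
    have h3 : p.rootMultiplicity c = 0 := by
      rw [← count_roots]
      exact Multiset.count_eq_zero.2 hc
    rw [h3, pow_zero]

/-- the logarithms of `x - c`, `c` in a finite set, near a point -/
theorem local_logs (Z : Finset ℂ) (x0 : ℂ) (hx0 : x0 ∉ Z) (V : Set ℂ) (hVo : IsOpen V) (hx0V : x0 ∈ V) :
    ∃ (r : ℝ) (L : {c // c ∈ Z} → ℂ → ℂ), 0 < r ∧ Metric.ball x0 r ⊆ V ∧
      (∀ c, AnalyticOnNhd ℂ (L c) (Metric.ball x0 r)) ∧
      (∀ c : {c // c ∈ Z}, ∀ x ∈ Metric.ball x0 r, x ≠ c ∧ Complex.exp (L c x) * (x0 - c) = x - c) ∧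
      Indep (Metric.ball x0 r) L := by
  classical
  obtain ⟨r1, hr1, hr1V⟩ := Metric.isOpen_iff.1 hVo x0 hx0V
  obtain ⟨r2, hr2, hr2Z⟩ : ∃ r2 : ℝ, 0 < r2 ∧ ∀ c ∈ Z, r2 ≤ ‖x0 - c‖ := by
    have h1 : IsOpen ((Z : Set ℂ)ᶜ) := (Z.finite_toSet.isClosed).isOpen_compl
    obtain ⟨r2, hr2, hr2Z⟩ := Metric.isOpen_iff.1 h1 x0 (by simpa using hx0)
    refine ⟨r2, hr2, fun c hc => ?_⟩
    by_contra hlt
    push Not at hlt
    exact hr2Z (show c ∈ Metric.ball x0 r2 by rw [Metric.mem_ball, dist_comm, dist_eq_norm]; exact hlt) (by simpa using hc)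
  set r := min r1 r2 with hr
  have hrp : 0 < r := lt_min hr1 hr2
  have hlt : ∀ c ∈ Z, ∀ x ∈ Metric.ball x0 r, ‖x - x0‖ < ‖x0 - c‖ := by
    intro c hc x hx
    rw [Metric.mem_ball, dist_eq_norm] at hx
    exact hx.trans_le ((min_le_right _ _).trans (hr2Z c hc))
  have hne : ∀ c ∈ Z, x0 - c ≠ 0 := fun c hc => sub_ne_zero.2 fun h => hx0 (h ▸ hc)
  have hslit : ∀ c ∈ Z, ∀ x ∈ Metric.ball x0 r, (x - c) / (x0 - c) ∈ Complex.slitPlane := by
    intro c hc x hx
    have h1 : (x - c) / (x0 - c) = 1 + (x - x0) / (x0 - c) := by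
      have := hne c hc
      field_simp
      ring
    rw [h1]
    apply Complex.mem_slitPlane_of_norm_lt_one
    rw [norm_div, div_lt_one (norm_pos_iff.2 (hne c hc))]
    exact hlt c hc x hx
  have hxc : ∀ c ∈ Z, ∀ x ∈ Metric.ball x0 r, x - c ≠ 0 := by
    intro c hc x hx h0
    have h1 := hslit c hc x hx
    rw [h0, zero_div] at h1
    exact Complex.zero_notMem_slitPlane h1
  have hder : ∀ c ∈ Z, ∀ x ∈ Metric.ball x0 r, HasDerivAt (fun x => Complex.log ((x - c) / (x0 - c))) (1 / (x - c)) x := by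
    intro c hc x hx
    have h1 : HasDerivAt (fun x : ℂ => (x - c) / (x0 - c)) (1 / (x0 - c)) x := ((hasDerivAt_id x).sub_const c).div_const _
    have h2 := h1.clog (hslit c hc x hx)
    convert h2 using 1
    have h3 := hne c hc
    have h4 := hxc c hc x hx
    field_simp
  have hab : Metric.ball x0 r ⊆ V := (Metric.ball_subset_ball (min_le_left _ _)).trans hr1V
  have han : ∀ c : {c // c ∈ Z}, AnalyticOnNhd ℂ (fun x => Complex.log ((x - c) / (x0 - c))) (Metric.ball x0 r) := by
    intro c
    refine DifferentiableOn.analyticOnNhd (fun x hx => ?_) Metric.isOpen_ball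
    exact (hder c c.2 x hx).differentiableAt.differentiableWithinAt
  refine ⟨r, fun c x => Complex.log ((x - c) / (x0 - c)), hrp, hab, han, fun c x hx => ⟨?_, ?_⟩, ?_⟩
  · exact sub_ne_zero.1 (hxc c c.2 x hx)
  · rw [Complex.exp_log (Complex.slitPlane_ne_zero (hslit c c.2 x hx))]
    exact div_mul_cancel₀ _ (hne c c.2)
  · -- the square root of a linear polynomial
    set c0 : ℂ := x0 - (r : ℂ) with hc0
    have hpos : ∀ x ∈ Metric.ball x0 r, x - c0 ∈ Complex.slitPlane := by
      intro x hx
      rw [Metric.mem_ball, dist_eq_norm] at hx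
      left
      have h1 := Complex.abs_re_le_norm (x - x0)
      have h2 := (abs_lt.1 (h1.trans_lt hx)).1
      rw [hc0]
      simp only [Complex.sub_re, Complex.ofReal_re] at h2 ⊢
      linarith
    have hSan : AnalyticOnNhd ℂ (fun x => Complex.exp (Complex.log (x - c0) / 2)) (Metric.ball x0 r) := by
      intro x hx
      have h1 : AnalyticAt ℂ (fun x : ℂ => x - c0) x := analyticAt_id.sub analyticAt_const
      exact ((h1.clog (hpos x hx)).div analyticAt_const two_ne_zero).cexp
    have e := Fintype.equivFin {c // c ∈ Z}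
    have hmain := hy_indep (convex_ball x0 r).isPreconnected Metric.isOpen_ball ⟨x0, Metric.mem_ball_self hrp⟩
      (X - C c0) (prime_X_sub_C c0).squarefree (fun x => Complex.exp (Complex.log (x - c0) / 2)) hSan
      (fun x hx => by
        rw [← Complex.exp_nat_mul]
        have h1 : ((2 : ℕ) : ℂ) * (Complex.log (x - c0) / 2) = Complex.log (x - c0) := by
          push_cast
          ring
        rw [h1, Complex.exp_log (Complex.slitPlane_ne_zero (hpos x hx))]
        simp) (k := 0) (r := Fintype.card {c // c ∈ Z}) (by rw [natDegree_X_sub_C])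
      (fun i => (e.symm i : ℂ)) (fun i j hij => e.symm.injective (Subtype.ext hij))
      (Sum.elim (fun i : Fin 0 => i.elim0) fun i x => Complex.log ((x - (e.symm i : ℂ)) / (x0 - (e.symm i : ℂ))))
      (by
        rintro (i | i)
        · exact i.elim0
        · exact han (e.symm i)) (fun i => i.elim0) (fun i x hx => by
        simp only [Sum.elim_inr]
        rw [(hder _ (e.symm i).2 x hx).deriv]
        exact one_div_mul_cancel (hxc _ (e.symm i).2 x hx))
    -- reindex
    intro p hp
    let em : {c // c ∈ Z} → Fin 0 ⊕ Fin (Fintype.card {c // c ∈ Z}) := fun c => Sum.inr (e c)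
    have hφ : Function.Injective (MvPolynomial.rename em : MvPolynomial {c // c ∈ Z} ℂ[X] → _) :=
      MvPolynomial.rename_injective _ fun a b hab => e.injective (Sum.inr_injective hab)
    apply hφ
    rw [map_zero]
    refine hmain _ fun x hx => ?_
    rw [← hp x hx]
    change MvPolynomial.eval₂ _ _ (MvPolynomial.rename _ p) = _
    rw [MvPolynomial.eval₂_rename]
    unfold evF
    congr 1
    funext c
    simp [em]

/-- **Logarithms of multiplicatively independent rational functions.** -/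
theorem logR_indep {V : Set ℂ} (hV : IsPreconnected V) (hVo : IsOpen V) (hne : V.Nonempty) {J : Type} [Fintype J]
    [DecidableEq J] (P Q : J → ℂ[X]) (hP : ∀ j, P j ≠ 0) (hQ : ∀ j, Q j ≠ 0)
    (hind : ∀ (m n : J → ℕ) (c : ℂ), ∏ j, P j ^ m j * Q j ^ n j = C c * ∏ j, P j ^ n j * Q j ^ m j → m = n)
    (l : J → ℂ → ℂ) (hl : ∀ j, AnalyticOnNhd ℂ (l j) V)
    (hexp : ∀ j, ∀ x ∈ V, Complex.exp (l j x) * (Q j).eval x = (P j).eval x) : Indep V l := by
  classical
  set Z : Finset ℂ := (∏ j, P j * Q j).roots.toFinset with hZ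
  have hprod : ∏ j, P j * Q j ≠ 0 := Finset.prod_ne_zero_iff.2 fun j _ => mul_ne_zero (hP j) (hQ j)
  have hZP : ∀ j c, (P j).eval c = 0 → c ∈ Z := by
    intro j c hc
    rw [hZ, Multiset.mem_toFinset, mem_roots hprod, IsRoot.def, eval_prod]
    exact Finset.prod_eq_zero (Finset.mem_univ j) (by rw [eval_mul, hc, zero_mul])
  have hZQ : ∀ j c, (Q j).eval c = 0 → c ∈ Z := by
    intro j c hc
    rw [hZ, Multiset.mem_toFinset, mem_roots hprod, IsRoot.def, eval_prod]
    exact Finset.prod_eq_zero (Finset.mem_univ j) (by rw [eval_mul, hc, mul_zero])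
  -- a point outside `Z`
  obtain ⟨x0, hx0V, hx0Z⟩ : ∃ x0 ∈ V, x0 ∉ Z := by
    have h1 : V.Infinite := Pool.Agent.X255.NP.open_infinite hVo hne
    obtain ⟨x0, hx0, hx0'⟩ := h1.exists_notMem_finset Z
    exact ⟨x0, hx0, hx0'⟩
  obtain ⟨r, L, hr, hrV, hLan, hLe, hLi⟩ := local_logs Z x0 hx0Z V hVo hx0V
  set n : J → {c // c ∈ Z} → ℤ := fun j c => ((P j).rootMultiplicity (c : ℂ) : ℤ) - ((Q j).rootMultiplicity (c : ℂ) : ℤ) with hn
  -- linear independence of the rows over the integers
  have hint : ∀ m : J → ℤ, (∀ c, ∑ j, m j * n j c = 0) → m = 0 := by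
    intro m hm
    set a : J → ℕ := fun j => (m j).toNat with ha
    set b : J → ℕ := fun j => (-m j).toNat with hb
    have hab : ∀ j, (a j : ℤ) - b j = m j := by
      intro j
      simp only [ha, hb]
      omega
    set lc : (J → ℕ) → (J → ℕ) → ℂ := fun a b => ∏ j, (P j).leadingCoeff ^ a j * (Q j).leadingCoeff ^ b j with hlc
    have hform : ∀ a b : J → ℕ, ∏ j, P j ^ a j * Q j ^ b j =
        C (lc a b) * ∏ c ∈ Z.attach, (X - C (c : ℂ)) ^ (∑ j, ((P j).rootMultiplicity (c : ℂ) * a j +
          (Q j).rootMultiplicity (c : ℂ) * b j)) := by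
      intro a b
      have h1 : ∀ j, P j ^ a j * Q j ^ b j = C ((P j).leadingCoeff ^ a j * (Q j).leadingCoeff ^ b j) *
          ∏ c ∈ Z.attach, (X - C (c : ℂ)) ^ ((P j).rootMultiplicity (c : ℂ) * a j + (Q j).rootMultiplicity (c : ℂ) * b j) := by
        intro j
        conv_lhs => rw [split_eq (hP j) Z (hZP j), split_eq (hQ j) Z (hZQ j)]
        rw [mul_pow, mul_pow, ← Finset.prod_pow, ← Finset.prod_pow, C_mul, C_pow, C_pow, ← Finset.prod_attach Z,
          ← Finset.prod_attach Z]
        have h2 : ∀ u v w z : ℂ[X], u * v * (w * z) = (u * w) * (v * z) := fun u v w z => by ring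
        rw [h2, ← Finset.prod_mul_distrib]
        congr 1
        refine Finset.prod_congr rfl fun c _ => ?_
        rw [← pow_mul, ← pow_mul, pow_add]
      rw [Finset.prod_congr rfl fun j _ => h1 j, Finset.prod_mul_distrib, Finset.prod_comm, hlc, map_prod]
      congr 1
      exact Finset.prod_congr rfl fun c _ => Finset.prod_pow_eq_pow_sum _ _ _
    have hlc0 : ∀ a b, lc a b ≠ 0 := fun a b => Finset.prod_ne_zero_iff.2 fun j _ =>
      mul_ne_zero (pow_ne_zero _ (leadingCoeff_ne_zero.2 (hP j))) (pow_ne_zero _ (leadingCoeff_ne_zero.2 (hQ j)))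
    have heq := hind a b (lc a b / lc b a) (by
      rw [hform a b, hform b a, ← mul_assoc, ← C_mul, div_mul_cancel₀ _ (hlc0 b a)]
      congr 1
      refine Finset.prod_congr rfl fun c _ => ?_
      congr 1
      have h1 := hm c
      have h2 : (∑ j, (((P j).rootMultiplicity (c : ℂ) * a j + (Q j).rootMultiplicity (c : ℂ) * b j : ℕ) : ℤ)) -
          ∑ j, (((P j).rootMultiplicity (c : ℂ) * b j + (Q j).rootMultiplicity (c : ℂ) * a j : ℕ) : ℤ) = 0 := by
        rw [← h1, ← Finset.sum_sub_distrib]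
        refine Finset.sum_congr rfl fun j _ => ?_
        rw [← hab j]
        push_cast
        ring
      rw [sub_eq_zero] at h2
      exact_mod_cast h2)
    funext j
    have h1 := hab j
    rw [heq] at h1
    simp only [Pi.zero_apply]
    omega
  -- over the complex numbers
  have hcom : ∀ m : J → ℂ, (∀ c, ∑ j, m j * (n j c : ℂ) = 0) → m = 0 := by
    intro m hm
    by_contra hne0
    obtain ⟨j0, hj0⟩ := Function.ne_iff.1 hne0
    set bs := Module.Basis.ofVectorSpace ℚ ℂ with hbs
    have hrep : bs.repr (m j0) ≠ 0 := by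
      rw [Ne, LinearEquiv.map_eq_zero_iff]
      exact hj0
    obtain ⟨b, hb⟩ := Finsupp.ne_iff.1 hrep
    rw [Finsupp.zero_apply] at hb
    let φ : ℂ →ₗ[ℚ] ℚ := bs.coord b
    have hφ : ∀ z, φ z = bs.repr z b := fun z => rfl
    have hq : ∀ c, ∑ j, φ (m j) * (n j c : ℚ) = 0 := by
      intro c
      have h1 := congrArg φ (hm c)
      rw [map_zero, map_sum] at h1
      rw [← h1]
      refine Finset.sum_congr rfl fun j _ => ?_
      have h2 : m j * (n j c : ℂ) = (n j c) • m j := by rw [zsmul_eq_mul, mul_comm]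
      rw [h2, map_zsmul, zsmul_eq_mul, mul_comm]
    set z : J → ℤ := fun j => (φ (m j)).num * ∏ i ∈ Finset.univ.erase j, ((φ (m i)).den : ℤ) with hz
    set D : ℤ := ∏ i, ((φ (m i)).den : ℤ) with hD
    have hD0 : (D : ℚ) ≠ 0 := by
      rw [hD]
      push_cast
      exact Finset.prod_ne_zero_iff.2 fun i _ => by exact_mod_cast (φ (m i)).den_ne_zero
    have hzq : ∀ j, (z j : ℚ) = φ (m j) * D := by
      intro j
      rw [hz, hD, ← Finset.mul_prod_erase _ _ (Finset.mem_univ j)]
      push_cast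
      rw [← mul_assoc, Rat.mul_den_eq_num]
    have hz0 : z = 0 := by
      apply hint
      intro c
      have h1 : ((∑ j, z j * n j c : ℤ) : ℚ) = D * ∑ j, φ (m j) * (n j c : ℚ) := by
        push_cast
        rw [Finset.mul_sum]
        refine Finset.sum_congr rfl fun j _ => ?_
        rw [hzq j]
        ring
      rw [hq c, mul_zero] at h1
      exact_mod_cast h1
    have h1 := hzq j0
    rw [hz0] at h1
    simp only [Pi.zero_apply, Int.cast_zero] at h1
    rcases mul_eq_zero.1 h1.symm with h2 | h2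
    · exact hb h2
    · exact hD0 h2
  -- the section
  let N : (J → ℂ) →ₗ[ℂ] ({c // c ∈ Z} → ℂ) :=
    { toFun := fun m c => ∑ j, m j * (n j c : ℂ)
      map_add' := fun m m' => by
        funext c
        simp only [Pi.add_apply, add_mul, Finset.sum_add_distrib]
      map_smul' := fun a m => by
        funext c
        simp only [Pi.smul_apply, smul_eq_mul, RingHom.id_apply, Finset.mul_sum, mul_assoc] }
  have hNker : LinearMap.ker N = ⊥ := by
    rw [LinearMap.ker_eq_bot']
    intro m hm
    exact hcom m fun c => congrFun hm c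
  obtain ⟨G, hG⟩ := N.exists_leftInverse_of_injective hNker
  let s : {c // c ∈ Z} → J → ℂ := fun i => G (Pi.single i 1)
  have hs : ∀ j j', ∑ i, (n j i : ℂ) * s i j' = if j = j' then 1 else 0 := by
    intro j j'
    have h1 := LinearMap.congr_fun hG (Pi.single j 1)
    have h2 : N (Pi.single j 1) = ∑ i, (n j i : ℂ) • (Pi.single i 1 : {c // c ∈ Z} → ℂ) := by
      funext c
      rw [Finset.sum_apply, Finset.sum_eq_single c]
      · simp only [N, LinearMap.coe_mk, AddHom.coe_mk, Pi.smul_apply, Pi.single_eq_same, smul_eq_mul, mul_one]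
        rw [Finset.sum_eq_single j]
        · rw [Pi.single_eq_same, one_mul]
        · intro j2 _ hj2
          rw [Pi.single_eq_of_ne hj2, zero_mul]
        · intro h
          exact absurd (Finset.mem_univ _) h
      · intro i _ hi
        rw [Pi.smul_apply, Pi.single_eq_of_ne hi.symm, smul_zero]
      · intro h
        exact absurd (Finset.mem_univ _) h
    rw [LinearMap.comp_apply, h2, map_sum, LinearMap.id_apply] at h1
    have h3 := congrFun h1 j'
    rw [Finset.sum_apply] at h3
    simp only [map_smul, Pi.smul_apply, smul_eq_mul] at h3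
    rw [Pi.single_apply] at h3
    simp only [s]
    rw [h3]
    simp only [eq_comm]
  -- the functions `l j` are linear forms near `x0`
  have hlin : ∀ j, ∃ κ : ℂ, ∀ x ∈ Metric.ball x0 r, l j x = ∑ i, (n j i : ℂ) * L i x + κ := by
    intro j
    set G : ℂ → ℂ := fun x => l j x - ∑ i, (n j i : ℂ) * L i x with hG
    have hGan : AnalyticOnNhd ℂ G (Metric.ball x0 r) := by
      intro x hx
      refine ((hl j) x (hrV hx)).sub ?_
      exact Finset.analyticAt_fun_sum _ fun i _ => analyticAt_const.mul (hLan i x hx)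
    -- the exponential is constant
    have hexpc : ∃ w : ℂ, ∀ x ∈ Metric.ball x0 r, Complex.exp (G x) = w := by
      refine ⟨(P j).leadingCoeff / (Q j).leadingCoeff * ∏ i : {c // c ∈ Z}, (x0 - (i : ℂ)) ^ (n j i), fun x hx => ?_⟩
      have hxc : ∀ i : {c // c ∈ Z}, x - (i : ℂ) ≠ 0 := fun i => sub_ne_zero.2 (hLe i x hx).1
      have hx0c : ∀ i : {c // c ∈ Z}, x0 - (i : ℂ) ≠ 0 := fun i => sub_ne_zero.2
        (hLe i x0 (Metric.mem_ball_self hr)).1
      have hev : ∀ p : ℂ[X], p ≠ 0 → (∀ c, p.eval c = 0 → c ∈ Z) →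
          p.eval x = p.leadingCoeff * ∏ i : {c // c ∈ Z}, (x - (i : ℂ)) ^ (p.rootMultiplicity (i : ℂ)) := by
        intro p hp hpZ
        conv_lhs => rw [split_eq hp Z hpZ]
        rw [eval_mul, eval_C, eval_prod, ← Finset.prod_attach Z, Finset.univ_eq_attach]
        congr 1
        refine Finset.prod_congr rfl fun c _ => ?_
        rw [eval_pow, eval_sub, eval_X, eval_C]
      have h1 := hexp j x (hrV hx)
      rw [hev _ (hP j) (hZP j), hev _ (hQ j) (hZQ j)] at h1
      have hQl : (Q j).leadingCoeff ≠ 0 := leadingCoeff_ne_zero.2 (hQ j)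
      have hQp : ∏ i : {c // c ∈ Z}, (x - (i : ℂ)) ^ ((Q j).rootMultiplicity (i : ℂ)) ≠ 0 :=
        Finset.prod_ne_zero_iff.2 fun i _ => pow_ne_zero _ (hxc i)
      have h2 : Complex.exp (l j x) = (P j).leadingCoeff / (Q j).leadingCoeff *
          ∏ i : {c // c ∈ Z}, (x - (i : ℂ)) ^ (n j i) := by
        have h3 : ∏ i : {c // c ∈ Z}, (x - (i : ℂ)) ^ (n j i) =
            (∏ i : {c // c ∈ Z}, (x - (i : ℂ)) ^ ((P j).rootMultiplicity (i : ℂ))) /
              ∏ i : {c // c ∈ Z}, (x - (i : ℂ)) ^ ((Q j).rootMultiplicity (i : ℂ)) := by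
          rw [← Finset.prod_div_distrib]
          refine Finset.prod_congr rfl fun i _ => ?_
          rw [hn, zpow_sub₀ (hxc i), zpow_natCast, zpow_natCast]
        rw [h3]
        field_simp
        linear_combination h1
      have h4 : Complex.exp (∑ i, (n j i : ℂ) * L i x) = ∏ i : {c // c ∈ Z}, ((x - (i : ℂ)) / (x0 - (i : ℂ))) ^ (n j i) := by
        rw [Complex.exp_sum]
        refine Finset.prod_congr rfl fun i _ => ?_
        rw [Complex.exp_int_mul]
        congr 1
        rw [eq_div_iff (hx0c i)]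
        exact (hLe i x hx).2
      have h5 : ∏ i : {c // c ∈ Z}, ((x - (i : ℂ)) / (x0 - (i : ℂ))) ^ (n j i) =
          (∏ i : {c // c ∈ Z}, (x - (i : ℂ)) ^ (n j i)) / ∏ i : {c // c ∈ Z}, (x0 - (i : ℂ)) ^ (n j i) := by
        rw [← Finset.prod_div_distrib]
        exact Finset.prod_congr rfl fun i _ => div_zpow _ _ _
      have h6 : ∏ i : {c // c ∈ Z}, (x - (i : ℂ)) ^ (n j i) ≠ 0 :=
        Finset.prod_ne_zero_iff.2 fun i _ => zpow_ne_zero _ (hxc i)
      have h7 : ∏ i : {c // c ∈ Z}, (x0 - (i : ℂ)) ^ (n j i) ≠ 0 :=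
        Finset.prod_ne_zero_iff.2 fun i _ => zpow_ne_zero _ (hx0c i)
      rw [hG]
      simp only
      rw [Complex.exp_sub, h2, h4, h5]
      field_simp
    obtain ⟨w, hw⟩ := hexpc
    have hder : ∀ x ∈ Metric.ball x0 r, deriv G x = 0 := by
      intro x hx
      have h1 : HasDerivAt G (deriv G x) x := (hGan x hx).differentiableAt.hasDerivAt
      have h2 := h1.cexp
      have h3 : HasDerivAt (fun x => Complex.exp (G x)) 0 x := by
        refine (hasDerivAt_const x w).congr_of_eventuallyEq ?_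
        filter_upwards [Metric.isOpen_ball.mem_nhds hx] with y hy using hw y hy
      have h4 := h2.unique h3
      exact (mul_eq_zero.1 h4).resolve_left (Complex.exp_ne_zero _)
    have hconst : ∀ x ∈ Metric.ball x0 r, G x = G x0 := fun x hx0' =>
      (convex_ball x0 r).is_const_of_fderivWithin_eq_zero (𝕜 := ℂ) (f := G)
      (fun x hx => (hGan x hx).differentiableAt.differentiableWithinAt) (fun x hx => by
        rw [fderivWithin_of_isOpen Metric.isOpen_ball hx]
        ext
        have h1 : (fderiv ℂ G x) 1 = deriv G x := rfl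
        rw [h1, hder x hx]
        simp) hx0' (Metric.mem_ball_self hr)
    refine ⟨G x0, fun x hx => ?_⟩
    have h1 := hconst x hx
    rw [hG] at h1 ⊢
    simp only at h1 ⊢
    linear_combination h1
  choose κ hκ using hlin
  have hball : Indep (Metric.ball x0 r) l := indep_lin hLi (fun j i => (n j i : ℂ)) s hs κ hκ
  intro p hp
  exact hball p fun x hx => hp x (hrV hx)

end Pool.Agent.X255.RH
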