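import Pool.Agent.Y890.SP.Ana

/-!
# Algebraically independent functions are a regular family
-/

set_option autoImplicit false
set_option linter.unusedSectionVars false

open Polynomial

namespace Pool.Agent.X255.RH

open Pool.Agent.Y890.SP

variable {σ : Type} {V : Set ℂ} {f : σ → ℂ → ℂ}

/-- the functions `f` are algebraically independent over `ℂ(x)` on `V` -/
def Indep (V : Set ℂ) (f : σ → ℂ → ℂ) : Prop :=
  ∀ p : MvPolynomial σ ℂ[X], (∀ x ∈ V, evF f x p = 0) → p = 0

/-- `evF` as a ring homomorphism -/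
noncomputable def evH (f : σ → ℂ → ℂ) (x : ℂ) : MvPolynomial σ ℂ[X] →+* ℂ :=
  MvPolynomial.eval₂Hom (Polynomial.evalRingHom x) fun i => f i x

theorem evH_apply (f : σ → ℂ → ℂ) (x : ℂ) (p : MvPolynomial σ ℂ[X]) : evH f x p = evF f x p := rfl

theorem indep_open (hV : IsPreconnected V) (hf : ∀ i, AnalyticOnNhd ℂ (f i) V) (h : Indep V f) {W : Set ℂ}
    (hWo : IsOpen W) (hWn : W.Nonempty) (hWV : W ⊆ V) : Indep W f := by
  obtain ⟨x0, hx0⟩ := hWn
  intro p hp
  refine h p fun x hx => ?_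
  have h1 := (evF_an hf p).eqOn_zero_of_preconnected_of_eventuallyEq_zero hV (hWV hx0) (by
    filter_upwards [hWo.mem_nhds hx0] with x hx using hp x hx)
  exact h1 hx

theorem regular_of_indep (hV : IsPreconnected V) (hf : ∀ i, AnalyticOnNhd ℂ (f i) V) (h : Indep V f) :
    Regular V f := by
  classical
  intro W g P Q R hWo hWn hWV hg hR hQ hPQ hRg
  have key := indep_open hV hf h hWo hWn hWV
  obtain ⟨x0, hx0⟩ := hWn
  have hQ0 : Q ≠ 0 := by
    rintro rfl
    exact hQ x0 hx0 (MvPolynomial.eval₂_zero _ _)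
  obtain ⟨Q', P', D, hrel, hQ', hP'⟩ := UniqueFactorizationMonoid.exists_reduced_factors Q hQ0 P
  have hDne : ∀ x ∈ W, evF f x D ≠ 0 := by
    intro x hx h0
    apply hQ x hx
    rw [← hQ', evF_mul, h0, zero_mul]
  have hQ'ne : ∀ x ∈ W, evF f x Q' ≠ 0 := by
    intro x hx h0
    apply hQ x hx
    rw [← hQ', evF_mul, h0, mul_zero]
  have hg' : ∀ x ∈ W, evF f x Q' * g x = evF f x P' := by
    intro x hx
    have h1 := hPQ x hx
    rw [← hQ', ← hP', evF_mul, evF_mul, mul_assoc] at h1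
    exact mul_left_cancel₀ (hDne x hx) h1
  have hQ'0 : Q' ≠ 0 := by
    rintro rfl
    exact hQ'ne x0 hx0 (MvPolynomial.eval₂_zero _ _)
  set d := R.natDegree with hd
  let tm : ℕ → MvPolynomial σ ℂ[X] := fun i => MvPolynomial.C (R.coeff i) * P' ^ i * Q' ^ (d - i)
  have hsum : ∑ i ∈ Finset.range (d + 1), tm i = 0 := by
    apply key
    intro x hx
    have h1 := hRg x hx
    rw [eval_map, eval₂_eq_sum_range] at h1
    rw [← evH_apply, map_sum]
    have h2 : ∀ i ∈ Finset.range (d + 1), evH f x (tm i) =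
        evF f x Q' ^ d * (Polynomial.evalRingHom x (R.coeff i) * g x ^ i) := by
      intro i hi
      have hi' : i ≤ d := Nat.lt_succ_iff.1 (Finset.mem_range.1 hi)
      simp only [tm, map_mul, map_pow, evH_apply]
      rw [← hg' x hx]
      have h3 : evF f x (MvPolynomial.C (R.coeff i)) = Polynomial.evalRingHom x (R.coeff i) :=
        MvPolynomial.eval₂_C _ _ _
      rw [h3]
      have h4 : evF f x Q' ^ d = evF f x Q' ^ i * evF f x Q' ^ (d - i) := by
        rw [← pow_add, Nat.add_sub_cancel' hi']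
      rw [h4]
      ring
    rw [Finset.sum_congr rfl h2, ← Finset.mul_sum, h1, mul_zero]
  have hdvd : ∀ (j : ℕ) (a : MvPolynomial σ ℂ[X]), j ∈ Finset.range (d + 1) →
      (∀ i ∈ Finset.range (d + 1), i ≠ j → a ∣ tm i) → a ∣ tm j := by
    intro j a hj ha
    have h1 : tm j = -∑ i ∈ (Finset.range (d + 1)).erase j, tm i := by
      rw [eq_neg_iff_add_eq_zero, Finset.add_sum_erase _ _ hj]
      exact hsum
    obtain ⟨c, hc⟩ : a ∣ ∑ i ∈ (Finset.range (d + 1)).erase j, tm i :=
      Finset.dvd_sum fun i hi => ha i (Finset.mem_of_mem_erase hi) (Finset.ne_of_mem_erase hi)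
    refine ⟨-c, ?_⟩
    rw [h1, hc]
    ring
  have hconst : ∀ (a : MvPolynomial σ ℂ[X]) (r : ℂ[X]), r ≠ 0 → a ∣ MvPolynomial.C r → ∃ b : ℂ[X], a = MvPolynomial.C b := by
    intro a r hr ha
    have h1 := MvPolynomial.totalDegree_le_of_dvd_of_isDomain ha (by simpa using hr)
    rw [MvPolynomial.totalDegree_C, Nat.le_zero] at h1
    exact ⟨_, MvPolynomial.totalDegree_eq_zero_iff_eq_C.1 h1⟩
  have hlead : R.coeff d ≠ 0 := by
    rw [hd]
    exact leadingCoeff_ne_zero.2 hR
  -- `Q'` is constant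
  obtain ⟨q, hq⟩ : ∃ q : ℂ[X], Q' = MvPolynomial.C q := by
    refine hconst Q' (R.coeff d) hlead ?_
    have h1 := hdvd d Q' (Finset.mem_range.2 (Nat.lt_succ_self d)) (by
      intro i hi hne
      have h2 : i < d := lt_of_le_of_ne (Nat.lt_succ_iff.1 (Finset.mem_range.1 hi)) hne
      exact Dvd.dvd.mul_left (dvd_pow_self _ (by omega)) _)
    simp only [tm, Nat.sub_self, pow_zero, mul_one] at h1
    exact (hrel.pow_right).dvd_of_dvd_mul_right h1
  have hq0 : q ≠ 0 := by
    rintro rfl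
    apply hQ'0
    rw [hq, map_zero]
  rcases eq_or_ne P' 0 with hP0 | hP0
  · refine ⟨0, q, hq0, fun x hx => ?_⟩
    have h1 := hg' x hx
    rw [hP0, hq] at h1
    have h3 : evF f x (MvPolynomial.C q) = q.eval x := MvPolynomial.eval₂_C _ _ _
    have h4 : evF f x (0 : MvPolynomial σ ℂ[X]) = 0 := MvPolynomial.eval₂_zero _ _
    rw [h3, h4] at h1
    rw [h1, eval_zero]
  obtain ⟨p, hp⟩ : ∃ p : ℂ[X], P' = MvPolynomial.C p := by
    set j := R.natTrailingDegree with hj
    have hjc : R.coeff j ≠ 0 := by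
      rw [hj]
      exact trailingCoeff_nonzero_iff_nonzero.2 hR
    have hjd : j ≤ d := natTrailingDegree_le_natDegree R
    refine hconst P' (R.coeff j) hjc ?_
    have h1 := hdvd j (P' ^ (j + 1)) (Finset.mem_range.2 (by omega)) (by
      intro i hi hne
      rcases lt_or_gt_of_ne hne with h2 | h2
      · have h3 : R.coeff i = 0 := coeff_eq_zero_of_lt_natTrailingDegree h2
        simp only [tm, h3, map_zero, zero_mul]
        exact dvd_zero _
      · exact Dvd.dvd.mul_right (Dvd.dvd.mul_left (pow_dvd_pow _ (by omega)) _) _)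
    have h2 : P' ^ j * P' ∣ P' ^ j * (MvPolynomial.C (R.coeff j) * Q' ^ (d - j)) := by
      have h3 : tm j = P' ^ j * (MvPolynomial.C (R.coeff j) * Q' ^ (d - j)) := by
        simp only [tm]
        ring
      rw [← pow_succ, ← h3]
      exact h1
    have h3 := (mul_dvd_mul_iff_left (pow_ne_zero j hP0)).1 h2
    exact (hrel.symm.pow_right).dvd_of_dvd_mul_right h3
  refine ⟨p, q, hq0, fun x hx => ?_⟩
  have h1 := hg' x hx
  rw [hp, hq] at h1
  have h3 : ∀ r : ℂ[X], evF f x (MvPolynomial.C r) = r.eval x := fun r => MvPolynomial.eval₂_C _ _ _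
  rw [h3, h3] at h1
  exact h1

end Pool.Agent.X255.RH
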