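import Pool.Agent.X255.RH.Loc
import Pool.Agent.Y776.Cv.Pad

/-!
# Curves in split semi-abelian varieties with algebraic functions among the coordinates
-/

set_option autoImplicit false

open Polynomial Filter Topology

namespace Pool.Agent.X255.RH

open Pool.Agent.Y776.Cv Pool.Agent.Y890.SP

theorem evH_toMv {σ : Type} (f : σ → ℂ → ℂ) (x : ℂ) (w : σ) (Q : ℂ[X][X]) :
    evF f x (Polynomial.toMvPolynomial w Q) = Q.evalEval x (f w x) := by
  rw [← evH_apply]
  have h : (evH f x).comp (Polynomial.toMvPolynomial (R := ℂ[X]) w : ℂ[X][X] →+* MvPolynomial σ ℂ[X]) =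
      Polynomial.evalEvalRingHom x (f w x) := by
    refine Polynomial.ringHom_ext' ?_ ?_
    · refine Polynomial.ringHom_ext' ?_ ?_
      · refine RingHom.ext fun c => ?_
        simp [evH]
      · simp [evH]
    · simp [evH]
  exact RingHom.congr_fun h Q

/-- an independent family contains no algebraic function -/
theorem Indep.not_alg {σ : Type} {V : Set ℂ} {f : σ → ℂ → ℂ} (h : Indep V f) (w : σ) (Q : ℂ[X][X])
    (hQ : ∀ z ∈ V, Q.evalEval z (f w z) = 0) : Q = 0 := by
  have h1 := h (Polynomial.toMvPolynomial w Q) fun x hx => by rw [evH_toMv]; exact hQ x hx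
  exact Polynomial.toMvPolynomial_injective w (by rw [h1, map_zero])

variable {U : Set ℂ} {n s q : ℕ} {Λ : Fin q → PeriodPair} {ty : Fin n → Fin q}
  {u : Fin n → ℂ → ℂ} {l : Fin s → ℂ → ℂ}

/-- if `s + n` of the functions are algebraic, then the others are independent -/
theorem fx_full (h : FxM U Λ ty u l) (hns : 0 < s + n) (hne : U.Nonempty) (A : Finset (Nf n s)) (hcard : A.card = s + n)
    (hA : ∀ i ∈ A, ∃ Q : ℂ[X][X], Q ≠ 0 ∧ ∀ z ∈ U, Q.evalEval z (yf Λ ty u l i z) = 0)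
    {ι : Type} (j : ι → Nf n s) (hj : Function.Injective j) (hjA : ∀ i, j i ∉ A) :
    Indep U fun i => yf Λ ty u l (j i) := by
  classical
  obtain ⟨e, he, hloc⟩ := fix_sub h hns hne
  have hind := indep_of_loc h.isOpen hne hloc
  have heA : ∀ w, e w ∉ A := by
    intro w hw
    obtain ⟨Q, hQ0, hQ⟩ := hA _ hw
    exact hQ0 (hind.not_alg w Q hQ)
  have hcA : Fintype.card {i : Nf n s // i ∉ A} = s + 2 * n := by
    rw [Fintype.card_subtype_compl, Fintype.card_coe, hcard]
    simp only [Nf, Fintype.card_sum, Fintype.card_fin]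
    omega
  let e' : Fin (s + 2 * n) → {i : Nf n s // i ∉ A} := fun w => ⟨e w, heA w⟩
  have he' : Function.Bijective e' := by
    rw [Fintype.bijective_iff_injective_and_card]
    refine ⟨fun w w' hw => he (Subtype.mk.inj hw), ?_⟩
    rw [hcA, Fintype.card_fin]
  let E := Equiv.ofBijective e' he'
  refine indep_of_loc h.isOpen hne fun t ht => ?_
  have h1 := Pool.Agent.Y776.Cv.LocInd.comp_inj (hloc t ht) (e := fun i => E.symm ⟨j i, hjA i⟩) (by
    intro i i' hi
    exact hj (Subtype.mk.inj (E.symm.injective hi)))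
  have h2 : (fun i => yf Λ ty u l (e (E.symm ⟨j i, hjA i⟩))) = fun i => yf Λ ty u l (j i) := by
    funext i
    have h3 : e' (E.symm ⟨j i, hjA i⟩) = ⟨j i, hjA i⟩ := E.apply_symm_apply _
    have h4 : e (E.symm ⟨j i, hjA i⟩) = j i := congrArg Subtype.val h3
    rw [h4]
  rw [← h2]
  exact h1

/-- the names of the algebraic functions -/
def gA (n m s : ℕ) : Fin m ⊕ (Fin s ⊕ Fin n) → Nf n (m + s)
  | Sum.inl j => Sum.inl (Fin.castAdd s j)
  | Sum.inr (Sum.inl k) => Sum.inr (Sum.inl (Fin.natAdd m k))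
  | Sum.inr (Sum.inr i) => Sum.inr (Sum.inr (Sum.inr (Sum.inr i)))

/-- the names of the other functions -/
def gB (n m s : ℕ) : Fin m ⊕ (Fin s ⊕ (Fin n ⊕ Fin n)) → Nf n (m + s)
  | Sum.inl j => Sum.inr (Sum.inl (Fin.castAdd s j))
  | Sum.inr (Sum.inl k) => Sum.inl (Fin.natAdd m k)
  | Sum.inr (Sum.inr (Sum.inl i)) => Sum.inr (Sum.inr (Sum.inl i))
  | Sum.inr (Sum.inr (Sum.inr i)) => Sum.inr (Sum.inr (Sum.inr (Sum.inl i)))

theorem ca_ne_na {m s : ℕ} (j : Fin m) (k : Fin s) : Fin.castAdd s j ≠ Fin.natAdd m k := by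
  intro h
  have h1 := congrArg Fin.val h
  simp only [Fin.val_castAdd, Fin.val_natAdd] at h1
  have := j.isLt
  omega

theorem gA_inj (n m s : ℕ) : Function.Injective (gA n m s) := by
  rintro (j | j | j) (j' | j' | j') h <;> simp [gA] at h <;> simp_all

theorem gB_inj (n m s : ℕ) : Function.Injective (gB n m s) := by
  rintro (j | j | j | j) (j' | j' | j' | j') h <;> simp [gB] at h <;> simp_all

theorem gB_ne (n m s : ℕ) (x) (y) : gB n m s x ≠ gA n m s y := by
  rcases x with (j | j | j | j) <;> rcases y with (j' | j' | j') <;> intro h <;> simp only [gA, gB] at h <;>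
    first
    | exact ca_ne_na _ _ (Sum.inl_injective (Sum.inr_injective h))
    | exact ca_ne_na _ _ (Sum.inl_injective h).symm
    | exact absurd h (by simp)

/-- exponentials of algebraic functions, logarithms of algebraic functions, elliptic integrals of the first and
second kind -/
theorem fx_mix {m : ℕ} {p : Fin m → ℂ → ℂ} (h : FxM U Λ ty u (Fin.append p l)) (hns : 0 < m + s + n) (hne : U.Nonempty)
    (hp : ∀ j, ∃ Q : ℂ[X][X], Q ≠ 0 ∧ ∀ z ∈ U, Q.evalEval z (p j z) = 0)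
    (hl : ∀ k, ∃ Q : ℂ[X][X], Q ≠ 0 ∧ ∀ z ∈ U, Q.evalEval z (Complex.exp (l k z)) = 0)
    (hu : ∀ i, ∃ Q : ℂ[X][X], Q ≠ 0 ∧ ∀ z ∈ U, Q.evalEval z ((Λ (ty i)).weierstrassP (u i z)) = 0) :
    Indep U fun i => yf Λ ty u (Fin.append p l) (gB n m s i) := by
  classical
  refine fx_full h hns hne (Finset.univ.map ⟨gA n m s, gA_inj n m s⟩) ?_ ?_ _ (gB_inj n m s) ?_
  · rw [Finset.card_map, Finset.card_univ]
    simp only [Fintype.card_sum, Fintype.card_fin]
    omega
  · intro i hi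
    rw [Finset.mem_map] at hi
    obtain ⟨x, -, rfl⟩ := hi
    rcases x with j | k | i
    · obtain ⟨Q, hQ0, hQ⟩ := hp j
      refine ⟨Q, hQ0, fun z hz => ?_⟩
      rw [← hQ z hz]
      simp [gA, yf]
    · obtain ⟨Q, hQ0, hQ⟩ := hl k
      refine ⟨Q, hQ0, fun z hz => ?_⟩
      rw [← hQ z hz]
      simp [gA, yf]
    · obtain ⟨Q, hQ0, hQ⟩ := hu i
      exact ⟨Q, hQ0, fun z hz => hQ z hz⟩
  · intro i hi
    rw [Finset.mem_map] at hi
    obtain ⟨x, -, hx⟩ := hi
    exact gB_ne n m s i x hx.symm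

end Pool.Agent.X255.RH
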