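import Pool.Agent.X255.RH.Main
import Pool.Agent.Y124.StdC

/-!
# Local independence
-/

set_option autoImplicit false

open Polynomial Filter Topology

namespace Pool.Agent.X255.RH

theorem indep_of_loc {κ : Type} {V : Set ℂ} (hVo : IsOpen V) (hne : V.Nonempty) {y : κ → ℂ → ℂ}
    (h : ∀ t ∈ V, Pool.Agent.Y124.LocInd y t) : Indep V y := by
  obtain ⟨t0, ht0⟩ := hne
  refine indep_of_aindepS fun P hP => h t0 ht0 P ?_
  filter_upwards [hVo.mem_nhds ht0] with t ht using hP t ht

/-- the points whose distance to the complement of `V` is at least `1 / (k + 1)` -/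
def deep (V : Set ℂ) (k : ℕ) : Set ℂ := {z | Metric.ball z (1 / ((k : ℝ) + 1)) ⊆ V}

theorem tame_deep (V : Set ℂ) (k : ℕ) : Tame (deep V k) V := by
  have hpos : (0 : ℝ) < 1 / ((k : ℝ) + 1) := by positivity
  refine ⟨∅, 1 / ((k : ℝ) + 1), hpos, fun R => by simp, fun z hz w hw => Or.inr (Or.inr ?_)⟩
  by_contra hlt
  rw [not_le] at hlt
  apply hw
  apply hz
  rw [Metric.mem_ball, dist_comm, dist_eq_norm]
  exact hlt

end Pool.Agent.X255.RH
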