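import Pool.Agent.X255.RH.Mea2

/-!
# Integral polynomials
-/

set_option autoImplicit false
set_option linter.unusedSectionVars false

open Polynomial Filter Topology NumberField

namespace Pool.Agent.X255.RH

open Pool.Agent.Y124 (eval_eq_box sV sV_inj exists_sV')

/-- the lower bound for integral polynomials of height at most `T ^ k` -/
theorem Mea.int {Q : Type} [Fintype Q] [DecidableEq Q] {k : ℕ} (hk : 1 ≤ k) {B T : ℝ} {x : Q → ℂ}
    (h : Mea (fun b => if b = 0 then 1 else 0) k B T x) (P : MvPolynomial Q ℤ) (hP : P ≠ 0)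
    (hd : ∀ i, P.degreeOf i ≤ k) (hc : ∀ m, |((P.coeff m : ℤ) : ℝ)| ≤ T ^ k) : T ^ (-B) ≤ ‖MvPolynomial.aeval x P‖ := by
  classical
  obtain ⟨s, hs⟩ := MvPolynomial.support_nonempty.2 hP
  obtain ⟨l₀, hl₀⟩ := exists_sV' P hd s hs
  have key := h (fun l b => if (b : ℕ) = 0 then P.coeff (sV l) else 0) (fun l b => by
    split_ifs
    · exact hc _
    · simp only [Int.cast_zero, abs_zero]
      exact (abs_nonneg _).trans (hc 0)) l₀
  have hsum : ∀ n : ℤ, (∑ b : Fin k, (if (b : ℕ) = 0 then (1 : ℂ) else 0) * ((if (b : ℕ) = 0 then n else 0 : ℤ) : ℂ)) = n := by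
    intro n
    rw [Finset.sum_eq_single (⟨0, hk⟩ : Fin k)]
    · simp
    · intro b _ hb
      have h1 : (b : ℕ) ≠ 0 := fun h0 => hb (Fin.ext h0)
      rw [if_neg h1, zero_mul]
    · intro h0
      exact absurd (Finset.mem_univ _) h0
  simp only [hsum] at key
  have h1 : (1 : ℝ) ≤ ‖((P.coeff (sV l₀) : ℤ) : ℂ)‖ := by
    rw [hl₀, Complex.norm_intCast]
    have h2 : P.coeff s ≠ 0 := MvPolynomial.mem_support_iff.1 hs
    exact_mod_cast Int.one_le_abs h2
  have h2 : MvPolynomial.aeval x P = ∑ l : Q → Fin (k + 1), ((P.coeff (sV l) : ℤ) : ℂ) * ∏ q, x q ^ (l q : ℕ) := by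
    have h3 := eval_eq_box (d := k) x (MvPolynomial.map (Int.castRingHom ℂ) P)
      (fun i => (degreeOf_map_le' _ _ _).trans (hd i))
    simp only [MvPolynomial.coeff_map, eq_intCast] at h3
    rw [← h3, MvPolynomial.aeval_def, MvPolynomial.aeval_def, MvPolynomial.eval₂_map]
    congr 1
  rw [h2]
  rcases le_or_gt (0 : ℝ) (T ^ (-B)) with h0 | h0
  · calc T ^ (-B) = T ^ (-B) * 1 := (mul_one _).symm
      _ ≤ T ^ (-B) * ‖((P.coeff (sV l₀) : ℤ) : ℂ)‖ := mul_le_mul_of_nonneg_left h1 h0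
      _ ≤ _ := key
  · exact h0.le.trans (norm_nonneg _)

/-- the lower bound in terms of the height `H`, `T ^ (1 / k) ≤ H ≤ T ^ k` -/
theorem Mea.height {Q : Type} [Fintype Q] [DecidableEq Q] {k : ℕ} (hk : 1 ≤ k) {B T : ℝ} (hT : 1 ≤ T) {x : Q → ℂ}
    (h : Mea (fun b => if b = 0 then 1 else 0) k B T x) {H : ℝ} (h1 : T ^ ((1 : ℝ) / k) ≤ H) (h2 : H ≤ T ^ k)
    (P : MvPolynomial Q ℤ) (hP : P ≠ 0) (hd : P.totalDegree ≤ k) (hc : ∀ m, |((P.coeff m : ℤ) : ℝ)| ≤ H) :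
    H ^ (-(k * max B 0)) ≤ ‖MvPolynomial.aeval x P‖ := by
  have hk0 : (0 : ℝ) < k := by exact_mod_cast hk
  have h3 : T ^ (-B) ≤ ‖MvPolynomial.aeval x P‖ := h.int hk P hP
    (fun i => (MvPolynomial.degreeOf_le_totalDegree P i).trans hd) fun m => (hc m).trans h2
  refine le_trans ?_ h3
  have h4 : 0 < T ^ ((1 : ℝ) / k) := Real.rpow_pos_of_pos (by linarith) _
  calc H ^ (-(k * max B 0)) ≤ (T ^ ((1 : ℝ) / k)) ^ (-(k * max B 0)) :=
        Real.rpow_le_rpow_of_nonpos h4 h1 (by have := le_max_right B 0; nlinarith)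
    _ = T ^ (-(max B 0)) := by
        rw [← Real.rpow_mul (by linarith)]
        congr 1
        field_simp
    _ ≤ T ^ (-B) := Real.rpow_le_rpow_of_exponent_le hT (neg_le_neg (le_max_left _ _))

end Pool.Agent.X255.RH
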