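import Pool.Agent.X255.RH.Disc
import Pool.Agent.Y771.KF.MSP

/-!
# Nomes: the functions `log x`, `j, j', j'' (z)`, `x ^ s, j, j', j'' (s z)`, `z = i log x / 2π`
-/

set_option autoImplicit false

open Polynomial Filter Topology

namespace Pool.Agent.X255.RH

open Pool.Agent.Y890.SP Pool.Agent.Y771.KF Pool.Agent.TH21.MS

/-- the exterior of the unit disc, slit along the negative real axis -/
def ext1 : Set ℂ := Complex.slitPlane ∩ {x | 1 < ‖x‖}

theorem tame_ext {r R : ℝ} (h : r < R) : Tame {x : ℂ | R ≤ ‖x‖} {x : ℂ | r < ‖x‖} := by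
  refine ⟨∅, R - r, by linarith, fun R => by simp, fun z hz w hw => Or.inr (Or.inr ?_)⟩
  have hz' : R ≤ ‖z‖ := hz
  have hw' : ‖w‖ ≤ r := not_lt.1 hw
  have h1 := norm_sub_norm_le z w
  linarith

theorem ext1_open : IsOpen ext1 :=
  Complex.isOpen_slitPlane.inter (isOpen_lt continuous_const continuous_norm)

/-- the point of the upper half-plane with nome `x⁻¹` -/
noncomputable def zN (x : ℂ) : ℂ := Complex.I * Complex.log x / (2 * (Real.pi : ℂ))

theorem zN_im (x : ℂ) : (zN x).im = Real.log ‖x‖ / (2 * Real.pi) := by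
  unfold zN
  have h2 : Complex.I * Complex.log x / (2 * (Real.pi : ℂ)) = (Complex.I * Complex.log x) / ((2 * Real.pi : ℝ) : ℂ) := by
    push_cast
    ring
  rw [h2, Complex.div_ofReal_im]
  simp [Complex.mul_im, Complex.log_re]

theorem zN_im_pos {x : ℂ} (hx : 1 < ‖x‖) : 0 < (zN x).im := by
  rw [zN_im]
  have := Real.log_pos hx
  have := Real.pi_pos
  positivity

theorem exp_mem_ext1 {w : ℂ} (h0 : 0 < w.re) (h1 : |w.im| < Real.pi) : Complex.exp w ∈ ext1 := by
  have h1' := abs_lt.1 h1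
  constructor
  · rw [Complex.mem_slitPlane_iff_arg]
    refine ⟨?_, Complex.exp_ne_zero _⟩
    have h2 : (Complex.log (Complex.exp w)).im = w.im := by
      rw [Complex.log_exp (by linarith) (by linarith)]
    rw [Complex.log_im] at h2
    rw [h2]
    exact ne_of_lt h1'.2
  · show 1 < ‖Complex.exp w‖
    rw [Complex.norm_exp]
    exact Real.one_lt_exp_iff.2 h0

theorem ext1_pre : IsPreconnected ext1 := by
  have h1 : ext1 = Complex.exp '' {w : ℂ | 0 < w.re ∧ |w.im| < Real.pi} := by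
    ext x
    constructor
    · rintro ⟨hx1, hx2⟩
      refine ⟨Complex.log x, ⟨?_, ?_⟩, Complex.exp_log (Complex.slitPlane_ne_zero hx1)⟩
      · rw [Complex.log_re]
        exact Real.log_pos hx2
      · rw [Complex.log_im, abs_lt]
        exact ⟨Complex.neg_pi_lt_arg x, lt_of_le_of_ne (Complex.arg_le_pi x) (Complex.mem_slitPlane_iff_arg.1 hx1).1⟩
    · rintro ⟨w, ⟨h0, h1⟩, rfl⟩
      exact exp_mem_ext1 h0 h1
  rw [h1]
  refine IsPreconnected.image (Convex.isPreconnected ?_) _ Complex.continuous_exp.continuousOn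
  have h2 : {w : ℂ | 0 < w.re ∧ |w.im| < Real.pi} =
      {w : ℂ | 0 < w.re} ∩ ({w : ℂ | w.im < Real.pi} ∩ {w : ℂ | -Real.pi < w.im}) := by
    ext w
    simp only [Set.mem_setOf_eq, Set.mem_inter_iff, abs_lt]
    tauto
  rw [h2]
  exact (convex_halfSpace_re_gt 0).inter ((convex_halfSpace_im_lt _).inter (convex_halfSpace_im_gt _))

variable {p : ℕ}

/-- the functions: `log x`; `j, j', j''` at `z`; `e^(-2πi s z), j, j', j''` at `s z` -/
noncomputable def fN (s : Fin p → ℝ) : Option (Fin 3) ⊕ (Fin p × Fin 4) → ℂ → ℂ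
  | Sum.inl none, x => Complex.log x
  | Sum.inl (some i), x => jet4 (zN x) i.succ
  | Sum.inr (k, i), x => jet4 ((s k : ℂ) * zN x) i

theorem fN_an (s : Fin p → ℝ) (hs : ∀ k, 0 < s k) (w : Option (Fin 3) ⊕ (Fin p × Fin 4)) : AnalyticOnNhd ℂ (fN s w) ext1 := by
  intro x hx
  have hlog : AnalyticAt ℂ Complex.log x := analyticAt_clog hx.1
  have hz : AnalyticAt ℂ zN x := by
    unfold zN
    exact (analyticAt_const.mul hlog).div analyticAt_const (by simp [Real.pi_ne_zero])
  have hpos := zN_im_pos hx.2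
  rcases w with (_ | i) | ⟨k, i⟩
  · exact hlog
  · exact AnalyticAt.fun_comp (g := fun z => jet4 z i.succ) (f := zN) (jet4_an i.succ _ hpos) hz
  · have h2 : 0 < ((s k : ℂ) * zN x).im := by
      have : ((s k : ℂ) * zN x).im = s k * (zN x).im := by simp [Complex.mul_im]
      rw [this]
      exact mul_pos (hs _) hpos
    exact AnalyticAt.fun_comp (g := fun z => jet4 z i) (f := fun x => (s k : ℂ) * zN x) (jet4_an i _ h2)
      (analyticAt_const.mul hz)

/-- the weights `1, s_1, …, s_p` -/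
def sN (s : Fin p → ℝ) : Fin (p + 1) → ℝ := Fin.cons 1 s

/-- change of the base variable -/
noncomputable def swp : MvPolynomial (Option (Fin 3) ⊕ (Fin p × Fin 4)) ℂ[X] →+* MvPolynomial (Fin (p + 1) × Fin 4) ℂ[X] :=
  MvPolynomial.eval₂Hom (Polynomial.eval₂RingHom (MvPolynomial.C.comp C) (MvPolynomial.X (0, 0)))
    (Sum.elim (fun o => o.elim (MvPolynomial.C (C (-(2 * (Real.pi : ℂ) * Complex.I)) * X))
      fun i => MvPolynomial.X (0, i.succ)) fun q => MvPolynomial.X (q.1.succ, q.2))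

/-- its inverse -/
noncomputable def swm : MvPolynomial (Fin (p + 1) × Fin 4) ℂ[X] →+* MvPolynomial (Option (Fin 3) ⊕ (Fin p × Fin 4)) ℂ[X] :=
  MvPolynomial.eval₂Hom (Polynomial.eval₂RingHom (MvPolynomial.C.comp C)
      (MvPolynomial.C (C (-(2 * (Real.pi : ℂ) * Complex.I))⁻¹) * MvPolynomial.X (Sum.inl none)))
    fun q => Fin.cases (Fin.cases (MvPolynomial.C X) (fun i => MvPolynomial.X (Sum.inl (some i))) q.2)
      (fun k => MvPolynomial.X (Sum.inr (k, q.2))) q.1

theorem swm_swp : (swm (p := p)).comp swp = RingHom.id _ := by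
  refine MvPolynomial.ringHom_ext' (Polynomial.ringHom_ext' ?_ ?_) ?_
  · ext a
    simp [swp, swm]
  · simp [swp, swm]
  · rintro ((_ | i) | ⟨k, i⟩)
    · simp only [swp, swm, RingHom.comp_apply, RingHom.id_apply, MvPolynomial.eval₂Hom_X', Sum.elim_inl, Option.elim_none,
        MvPolynomial.eval₂Hom_C, map_mul, coe_eval₂RingHom, eval₂_C, eval₂_X, RingHom.coe_comp, Function.comp_apply]
      rw [← mul_assoc, ← MvPolynomial.C_mul, ← C_mul, mul_inv_cancel₀ (by simp [Real.pi_ne_zero]), C_1, MvPolynomial.C_1, one_mul]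
    · simp [swp, swm]
    · simp [swp, swm]

theorem im_two (z : ℂ) : (-(2 * (Real.pi : ℂ) * Complex.I) * z).im = -(2 * Real.pi) * z.re := by
  simp [Complex.mul_im, Complex.mul_re]

theorem re_two (z : ℂ) : (-(2 * (Real.pi : ℂ) * Complex.I) * z).re = 2 * Real.pi * z.im := by
  simp [Complex.mul_im, Complex.mul_re]

theorem abs_im_two {z : ℂ} (hz : |z.re| < 1 / 2) : |(-(2 * (Real.pi : ℂ) * Complex.I) * z).im| < Real.pi := by
  rw [im_two, abs_mul, abs_neg, abs_of_pos Real.two_pi_pos]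
  have := Real.pi_pos
  nlinarith

theorem log_two {z : ℂ} (hz : |z.re| < 1 / 2) :
    Complex.log (Complex.exp (-(2 * (Real.pi : ℂ) * Complex.I) * z)) = -(2 * (Real.pi : ℂ) * Complex.I) * z := by
  have h1 := abs_lt.1 (abs_im_two hz)
  exact Complex.log_exp h1.1 h1.2.le

theorem zN_two {z : ℂ} (hz : |z.re| < 1 / 2) : zN (Complex.exp (-(2 * (Real.pi : ℂ) * Complex.I) * z)) = z := by
  unfold zN
  rw [log_two hz]
  have hpi : (Real.pi : ℂ) ≠ 0 := by exact_mod_cast Real.pi_ne_zero
  field_simp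
  rw [Complex.I_sq]
  ring

theorem ev_swp (s : Fin p → ℝ) {z : ℂ} (hz : |z.re| < 1 / 2) :
    (evH (fP (sN s)) z).comp swp = evH (fN s) (Complex.exp (-(2 * (Real.pi : ℂ) * Complex.I) * z)) := by
  refine MvPolynomial.ringHom_ext' (Polynomial.ringHom_ext' ?_ ?_) ?_
  · ext a
    simp [swp, evH]
  · simp only [swp, evH, RingHom.comp_apply, MvPolynomial.eval₂Hom_C, coe_eval₂RingHom, eval₂_X, RingHom.coe_comp,
      Function.comp_apply, MvPolynomial.eval₂Hom_X', fP, sN, Fin.cons_zero, Complex.ofReal_one, one_mul, coe_evalRingHom,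
      eval_X, jet4, Matrix.cons_val_zero, neg_mul]
  · rintro ((_ | i) | ⟨k, i⟩)
    · simp only [swp, evH, RingHom.comp_apply, MvPolynomial.eval₂Hom_X', Sum.elim_inl, Option.elim_none,
        MvPolynomial.eval₂Hom_C, map_mul, coe_evalRingHom, eval_C, eval_X, fN, map_neg, neg_mul, eval_neg, eval_mul]
      have h1 := log_two hz
      simp only [neg_mul] at h1
      exact h1.symm
    · simp only [swp, evH, RingHom.comp_apply, MvPolynomial.eval₂Hom_X', Sum.elim_inl, Option.elim_some, fN, zN_two hz, fP,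
        sN, Fin.cons_zero, Complex.ofReal_one, one_mul]
    · simp only [swp, evH, RingHom.comp_apply, MvPolynomial.eval₂Hom_X', Sum.elim_inr, fN, zN_two hz, fP,
        sN, Fin.cons_succ]

theorem fN_indep (s : Fin p → ℝ) (hs0 : ∀ i, 0 < s i)
    (hs : ∀ (c0 : ℤ) (c : Fin p → ℤ), (c0 : ℝ) + ∑ k, (c k : ℝ) * s k = 0 → c0 = 0 ∧ c = 0) : Indep ext1 (fN s) := by
  have hs0' : ∀ i, 0 < sN s i := by
    intro i
    refine Fin.cases one_pos (fun i => hs0 i) i
  have hs' : ∀ c : Fin (p + 1) → ℤ, ∑ k, (c k : ℝ) * sN s k = 0 → c = 0 := by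
    intro c hc
    rw [Fin.sum_univ_succ] at hc
    simp only [sN, Fin.cons_zero, Fin.cons_succ, mul_one] at hc
    obtain ⟨h1, h2⟩ := hs (c 0) (fun k => c k.succ) hc
    funext k
    refine Fin.cases h1 (fun k => congrFun h2 k) k
  have hind := indep_of_aindepS (fP_ind (sN s) hs0' hs')
  set W : Set ℂ := {z | 0 < z.im ∧ |z.re| < 1 / 2} with hW
  have hWo : IsOpen W := (isOpen_lt continuous_const Complex.continuous_im).inter
    (isOpen_lt (continuous_abs.comp Complex.continuous_re) continuous_const)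
  have hWn : W.Nonempty := ⟨Complex.I, by simp [hW]⟩
  have hind' := indep_open preconn_H (fP_an (sN s) hs0') hind hWo hWn fun z hz => hz.1
  intro P hP
  have h1 : swp P = 0 := by
    refine hind' _ fun z hz => ?_
    have h2 := RingHom.congr_fun (ev_swp s hz.2) P
    rw [RingHom.comp_apply, evH_apply, evH_apply] at h2
    rw [h2]
    refine hP _ (exp_mem_ext1 ?_ (abs_im_two hz.2))
    rw [re_two]
    exact mul_pos Real.two_pi_pos hz.1
  have h3 := RingHom.congr_fun (swm_swp (p := p)) P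
  rw [RingHom.comp_apply, h1, map_zero, RingHom.id_apply] at h3
  exact h3.symm

end Pool.Agent.X255.RH
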