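import Pool.Agent.X255.RH.Prim
import Pool.Agent.X255.HY.Fld2

/-!
# Hyperelliptic integrals and logarithms
-/

set_option autoImplicit false

open Polynomial Filter Topology

namespace Pool.Agent.X255.RH

open Pool.Agent.Y890.SP

/-- germs at `x0` -/
theorem germ_at (x0 : ℂ) : ∃ (E : Type) (_ : Field E) (_ : Algebra ℂ E) (D : Derivation ℂ E E) (T : (ℂ → ℂ) → E),
    (∀ x : E, D x = 0 → ∃ c : ℂ, algebraMap ℂ E c = x) ∧ (∀ c : ℂ, T (fun _ => c) = algebraMap ℂ E c) ∧
    (∀ f g : ℂ → ℂ, AnalyticAt ℂ f x0 → AnalyticAt ℂ g x0 → T (fun s => f s + g s) = T f + T g) ∧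
    (∀ f g : ℂ → ℂ, AnalyticAt ℂ f x0 → AnalyticAt ℂ g x0 → T (fun s => f s * g s) = T f * T g) ∧
    (∀ f : ℂ → ℂ, AnalyticAt ℂ f x0 → T (deriv f) = D (T f)) ∧
    (∀ f : ℂ → ℂ, AnalyticAt ℂ f x0 → T f = 0 → ∀ᶠ s in 𝓝 x0, f s = 0) ∧
    (∀ f g : ℂ → ℂ, (∀ᶠ s in 𝓝 x0, f s = g s) → T f = T g) := by
  obtain ⟨E, iF, iA, D, T, hconst, hTc, hTa, hTm, hTd, hTz, hTe⟩ := Pool.Agent.W924.LF.t_GERM ℂ
  have hsh : ∀ g : ℂ → ℂ, AnalyticAt ℂ g x0 → AnalyticAt ℂ (fun s => g (x0 + s)) 0 := by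
    intro g hg
    have h1 : AnalyticAt ℂ (fun s : ℂ => x0 + s) 0 := analyticAt_const.add analyticAt_id
    refine AnalyticAt.comp' ?_ h1
    rw [add_zero]
    exact hg
  refine ⟨E, iF, iA, D, fun g => T fun s => g (x0 + s), hconst, hTc, fun f g hf hg => ?_, fun f g hf hg => ?_,
    fun f hf => ?_, fun f hf h => ?_, fun f g h => ?_⟩
  · exact hTa _ _ (hsh f hf) (hsh g hg)
  · exact hTm _ _ (hsh f hf) (hsh g hg)
  · show T _ = D (T _)
    rw [← hTd _ (hsh f hf)]
    congr 1
    funext s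
    exact (deriv_comp_const_add f x0 s).symm
  · have h1 := hTz _ (hsh f hf) h
    have h3 : Tendsto (fun x => x - x0) (𝓝 x0) (𝓝 0) := by
      have : Tendsto (fun x => x - x0) (𝓝 x0) (𝓝 (x0 - x0)) := tendsto_id.sub tendsto_const_nhds
      rwa [sub_self] at this
    filter_upwards [h3.eventually h1] with x hx
    rwa [add_sub_cancel] at hx
  · refine hTe _ _ ?_
    have h4 : Tendsto (fun s => x0 + s) (𝓝 (0 : ℂ)) (𝓝 x0) := by
      have : Tendsto (fun s => x0 + s) (𝓝 (0 : ℂ)) (𝓝 (x0 + 0)) := tendsto_const_nhds.add tendsto_id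
      rwa [add_zero] at this
    exact h4.eventually h

theorem hy_indep {V : Set ℂ} (hV : IsPreconnected V) (hVo : IsOpen V) (hne : V.Nonempty) (f : ℂ[X]) (hf : Squarefree f)
    (S : ℂ → ℂ) (hS : AnalyticOnNhd ℂ S V) (hSS : ∀ x ∈ V, S x ^ 2 = f.eval x) {k r : ℕ} (hk : k + 1 ≤ f.natDegree)
    (c : Fin r → ℂ) (hc : Function.Injective c) (Φ : Fin k ⊕ Fin r → ℂ → ℂ) (hΦ : ∀ i, AnalyticOnNhd ℂ (Φ i) V)
    (hd1 : ∀ i, ∀ x ∈ V, deriv (Φ (Sum.inl i)) x * S x = x ^ (i : ℕ))
    (hd2 : ∀ i, ∀ x ∈ V, deriv (Φ (Sum.inr i)) x * (x - c i) = 1) : Indep V Φ := by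
  classical
  obtain ⟨x0, hx0⟩ := hne
  obtain ⟨E, _, _, D, T, hconst, hTc, hTa, hTm, hTd, hTz, hTe⟩ := germ_at x0
  haveI : CharZero E := charZero_of_injective_algebraMap (algebraMap ℂ E).injective
  have hVn : ∀ᶠ x in 𝓝 x0, x ∈ V := hVo.mem_nhds hx0
  set τ : E := T (fun s => s) with hτ
  have hid : AnalyticAt ℂ (fun s : ℂ => s) x0 := analyticAt_id
  have hpow : ∀ n : ℕ, T (fun s => s ^ n) = τ ^ n := by
    intro n
    induction n with
    | zero =>
      simp only [pow_zero]
      rw [hTc 1, map_one]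
    | succ n ih =>
      simp only [pow_succ]
      rw [hTm (fun s => s ^ n) (fun s => s) (hid.pow n) hid, ih]
  have halg : ∀ p : ℂ[X], aeval τ p = T (fun s => p.eval s) := by
    intro p
    induction p using Polynomial.induction_on' with
    | add p q hp hq =>
      simp only [eval_add]
      rw [hTa _ _ (p.differentiable.analyticAt x0) (q.differentiable.analyticAt x0), map_add, hp, hq]
    | monomial n a =>
      simp only [eval_monomial]
      rw [hTm (fun _ => a) (fun s => s ^ n) analyticAt_const (hid.pow n), hTc, hpow, aeval_monomial]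
  have hinj : ∀ p : ℂ[X], aeval τ p = 0 → p = 0 := by
    intro p hp
    rw [halg] at hp
    have h2 := hTz _ (p.differentiable.analyticAt x0) hp
    have h4 := (show AnalyticOnNhd ℂ (fun x => p.eval x) Set.univ from fun x _ => p.differentiable.analyticAt x).eqOn_zero_of_preconnected_of_eventuallyEq_zero
      isPreconnected_univ (Set.mem_univ x0) h2
    exact Polynomial.funext fun x => by rw [eval_zero]; exact h4 (Set.mem_univ x)
  have hdat : Pool.Agent.X255.HY.Data f D τ (T S) := by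
    refine ⟨hinj, ?_, ?_, hf, by omega⟩
    · rw [hτ, ← hTd _ hid]
      have h1 : deriv (fun s : ℂ => s) = fun _ => 1 := by
        funext s
        simp
      rw [h1, hTc, map_one]
    · rw [← hTm _ _ (hS x0 hx0) (hS x0 hx0), halg]
      refine hTe _ _ ?_
      filter_upwards [hVn] with x hx
      rw [← hSS x hx, sq]
  have hind := Pool.Agent.X255.HY.indepL hdat hconst k r hk (fun i => -c i) (fun i j h => hc (neg_injective h))
    (fun i => T (Φ i)) (fun i => ?_) (fun i => ?_)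
  · intro P hP
    have hev : ∀ P : MvPolynomial (Fin k ⊕ Fin r) ℂ[X],
        MvPolynomial.eval₂ (aeval τ : ℂ[X] →ₐ[ℂ] E).toRingHom (fun i => T (Φ i)) P = T (fun s => evF Φ s P) := by
      intro P
      induction P using MvPolynomial.induction_on with
      | C a =>
        rw [MvPolynomial.eval₂_C]
        show aeval τ a = _
        rw [halg]
        congr 1
        funext s
        simp [evF]
      | add p q hp hq =>
        have h1 : (fun s => evF Φ s (p + q)) = fun s => evF Φ s p + evF Φ s q := by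
          funext s
          simp [evF]
        rw [MvPolynomial.eval₂_add, hp, hq, h1, hTa _ _ (evF_an hΦ p x0 hx0) (evF_an hΦ q x0 hx0)]
      | mul_X p i hp =>
        have h1 : (fun s => evF Φ s (p * MvPolynomial.X i)) = fun s => evF Φ s p * Φ i s := by
          funext s
          simp [evF]
        rw [MvPolynomial.eval₂_mul, MvPolynomial.eval₂_X, hp, h1, hTm _ _ (evF_an hΦ p x0 hx0) (hΦ i x0 hx0)]
    let φ : ℂ[X] →+* Pool.Agent.X255.HY.Fd hdat := (aeval τ : ℂ[X] →ₐ[ℂ] E).toRingHom.codRestrict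
      (Pool.Agent.X255.HY.Fd hdat).toSubfield.toSubring fun q => Pool.Agent.X255.HY.poly_mem hdat q
    have hφ : Function.Injective φ := by
      rw [injective_iff_map_eq_zero]
      intro a ha
      exact hinj a (congrArg Subtype.val ha)
    have h1 : MvPolynomial.aeval (fun i => T (Φ i)) (MvPolynomial.map φ P) = 0 := by
      rw [MvPolynomial.aeval_def, MvPolynomial.eval₂_map]
      have h2 := hev P
      rw [hTe (fun s => evF Φ s P) (fun _ => 0) (by
        filter_upwards [hVn] with x hx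
        exact hP x hx), hTc, map_zero] at h2
      exact h2
    exact MvPolynomial.map_injective φ hφ (by rw [hind.eq_zero_of_aeval_eq_zero _ h1, map_zero])
  · rw [← hTd _ (hΦ _ x0 hx0), ← hTm _ _ (hΦ _ x0 hx0).deriv (hS x0 hx0), map_pow, aeval_X, ← hpow]
    refine hTe _ _ ?_
    filter_upwards [hVn] with x hx
    exact hd1 i x hx
  · rw [← hTd _ (hΦ _ x0 hx0), halg, ← hTm _ _ (hΦ _ x0 hx0).deriv ((X + C (-c i)).differentiable.analyticAt x0),
      ← map_one (algebraMap ℂ E), ← hTc 1]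
    refine hTe _ _ ?_
    filter_upwards [hVn] with x hx
    rw [eval_add, eval_X, eval_C, ← sub_eq_add_neg]
    exact hd2 i x hx

end Pool.Agent.X255.RH
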