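import Pool.Agent.X255.RH.Main
import Pool.Agent.W253.LF.Ost
import Pool.Agent.W924.LF.Germ

/-!
# Primitives of algebraic functions
-/

set_option autoImplicit false

open Polynomial Filter Topology

namespace Pool.Agent.X255.RH

open Pool.Agent.Y890.SP

section
variable {E : Type} [Field E] [Algebra ℂ E] [Algebra ℂ[X] E] [IsScalarTower ℂ ℂ[X] E] [FaithfulSMul ℂ[X] E]

variable (E) in
/-- the elements algebraic over `ℂ[X]` -/
def FA : IntermediateField ℂ E where
  carrier := {x | IsAlgebraic ℂ[X] x}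
  mul_mem' := fun ha hb => IsAlgebraic.mul ha hb
  add_mem' := fun ha hb => IsAlgebraic.add ha hb
  algebraMap_mem' := fun c => by
    show IsAlgebraic ℂ[X] (algebraMap ℂ E c)
    rw [IsScalarTower.algebraMap_apply ℂ ℂ[X] E]
    exact isAlgebraic_algebraMap _
  inv_mem' := fun x hx => IsAlgebraic.inv hx

theorem mem_FA (x : E) : x ∈ FA E ↔ IsAlgebraic ℂ[X] x := Iff.rfl

theorem D_algebraMap (D : Derivation ℂ E E) (hX : D (algebraMap ℂ[X] E X) = 1) (p : ℂ[X]) :
    D (algebraMap ℂ[X] E p) = algebraMap ℂ[X] E (derivative p) := by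
  have hC : ∀ c : ℂ, D (algebraMap ℂ[X] E (C c)) = 0 := by
    intro c
    have : algebraMap ℂ[X] E (C c) = algebraMap ℂ E c := (IsScalarTower.algebraMap_apply ℂ ℂ[X] E c).symm
    rw [this, Derivation.map_algebraMap]
  induction p using Polynomial.induction_on' with
  | add p q hp hq => rw [map_add, map_add, hp, hq, derivative_add, map_add]
  | monomial n a =>
    rw [← C_mul_X_pow_eq_monomial, map_mul, map_pow, Derivation.leibniz, hC, Derivation.leibniz_pow, hX, derivative_C_mul_X_pow]
    simp
    ring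

theorem D_mem (D : Derivation ℂ E E) (hX : D (algebraMap ℂ[X] E X) = 1) {a : E} (ha : IsAlgebraic ℂ[X] a) :
    IsAlgebraic ℂ[X] (D a) := by
  classical
  have hex : ∃ n, ∃ p : ℂ[X][X], p ≠ 0 ∧ aeval a p = 0 ∧ p.natDegree = n := by
    obtain ⟨p, hp, hpa⟩ := ha
    exact ⟨_, p, hp, hpa, rfl⟩
  obtain ⟨p, hp, hpa, hn⟩ := Nat.find_spec hex
  have hmin : ∀ q : ℂ[X][X], q.natDegree < p.natDegree → aeval a q = 0 → q = 0 := by
    intro q hq hqa
    by_contra h0
    rw [hn] at hq
    exact Nat.find_min hex hq ⟨q, h0, hqa, rfl⟩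
  have hinj : Function.Injective (algebraMap ℂ[X] E) := FaithfulSMul.algebraMap_injective ℂ[X] E
  have hdeg : 0 < p.natDegree := by
    rw [Nat.pos_iff_ne_zero]
    intro h0
    obtain ⟨c, hc⟩ := natDegree_eq_zero.1 h0
    rw [← hc, aeval_C] at hpa
    rw [map_eq_zero_iff _ hinj] at hpa
    rw [hpa, C_0] at hc
    exact hp hc.symm
  have hp' : aeval a (derivative p) ≠ 0 := by
    intro h0
    have h1 := hmin _ (natDegree_derivative_lt hdeg.ne') h0
    have h2 := natDegree_eq_zero_of_derivative_eq_zero h1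
    omega
  -- the derivative of the relation
  have hg : ∀ q : ℂ[X][X], D (aeval a q) = (q.sum fun i c => D (algebraMap ℂ[X] E c) * a ^ i) +
      aeval a (derivative q) * D a := by
    intro q
    induction q using Polynomial.induction_on' with
    | add p q hp hq =>
      rw [map_add, map_add, hp, hq, derivative_add, map_add, Polynomial.sum_add_index]
      · ring
      · intro i
        rw [map_zero, map_zero, zero_mul]
      · intro i b c
        rw [map_add, map_add, add_mul]
    | monomial n c =>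
      rw [aeval_monomial, Derivation.leibniz, Derivation.leibniz_pow, Polynomial.sum_monomial_index, derivative_monomial,
        aeval_monomial, map_mul, map_natCast]
      · simp only [smul_eq_mul, nsmul_eq_mul]
        ring
      · rw [map_zero, map_zero, zero_mul]
  have key := hg p
  rw [hpa, map_zero] at key
  have h3 : D a = -(p.sum fun i c => D (algebraMap ℂ[X] E c) * a ^ i) * (aeval a (derivative p))⁻¹ := by
    rw [eq_mul_inv_iff_mul_eq₀ hp']
    linear_combination -key
  have ha' : a ∈ FA E := ha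
  have hmap : ∀ q : ℂ[X], algebraMap ℂ[X] E q ∈ FA E := fun q => isAlgebraic_algebraMap q
  have h4 : D a ∈ FA E := by
    rw [h3]
    refine mul_mem (neg_mem (sum_mem fun i _ => ?_)) (inv_mem ?_)
    · show D (algebraMap ℂ[X] E (p.coeff i)) * a ^ i ∈ FA E
      rw [D_algebraMap D hX]
      exact mul_mem (hmap _) (pow_mem ha' _)
    · rw [aeval_eq_sum_range]
      refine sum_mem fun i _ => ?_
      rw [Algebra.smul_def]
      exact mul_mem (hmap _) (pow_mem ha' _)
  exact h4

/-- the derivation of the field of algebraic elements -/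
noncomputable def DFA (D : Derivation ℂ E E) (hX : D (algebraMap ℂ[X] E X) = 1) : Derivation ℂ (FA E) (FA E) :=
  Derivation.mk' { toFun := fun x => ⟨D x, D_mem D hX x.2⟩
                   map_add' := fun a b => Subtype.ext (by simp)
                   map_smul' := fun c x => Subtype.ext (by simp) }
    (fun a b => Subtype.ext (by simp [Derivation.leibniz]))

theorem ost [CharZero E] (D : Derivation ℂ E E) (hX : D (algebraMap ℂ[X] E X) = 1)
    (hconst : ∀ x : E, D x = 0 → ∃ c : ℂ, algebraMap ℂ E c = x) {ι : Type} [Fintype ι] (y : ι → E)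
    (hw : ∀ i, IsAlgebraic ℂ[X] (D (y i)))
    (hlin : ∀ c : ι → ℂ, IsAlgebraic ℂ[X] (∑ i, algebraMap ℂ E (c i) * y i) → c = 0) (P : MvPolynomial ι ℂ[X])
    (hP : MvPolynomial.eval₂ (algebraMap ℂ[X] E) y P = 0) : P = 0 := by
  classical
  have hind : AlgebraicIndependent (FA E) y := by
    refine Pool.Agent.W253.LF.t_OST ℂ (FA E) E (DFA D hX) D (fun x => rfl) hconst ι y
      (fun i => ⟨D (y i), hw i⟩) (fun i => rfl) ?_
    intro c g hg
    refine hlin c ?_
    rw [hg]
    exact g.2
  let φ : ℂ[X] →+* FA E := (algebraMap ℂ[X] E).codRestrict (FA E).toSubfield.toSubring fun q => isAlgebraic_algebraMap q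
  have hφ : Function.Injective φ := by
    intro a b hab
    exact FaithfulSMul.algebraMap_injective ℂ[X] E (congrArg Subtype.val hab)
  have h1 : MvPolynomial.aeval y (MvPolynomial.map φ P) = 0 := by
    rw [MvPolynomial.aeval_def, MvPolynomial.eval₂_map]
    exact hP
  exact MvPolynomial.map_injective φ hφ (by rw [hind.eq_zero_of_aeval_eq_zero _ h1, map_zero])

end

/-- `g` is algebraic over `ℂ(x)` on `V` -/
def AlgOn (V : Set ℂ) (g : ℂ → ℂ) : Prop :=
  ∃ Q : ℂ[X][X], Q ≠ 0 ∧ ∀ x ∈ V, Q.eval₂ (evalRingHom x) (g x) = 0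

theorem ev2_an {V : Set ℂ} {g : ℂ → ℂ} (hg : AnalyticOnNhd ℂ g V) (Q : ℂ[X][X]) :
    AnalyticOnNhd ℂ (fun x => Q.eval₂ (evalRingHom x) (g x)) V := by
  intro x hx
  induction Q using Polynomial.induction_on' with
  | add p q hp hq =>
    have h1 : (fun x => (p + q).eval₂ (evalRingHom x) (g x)) =
        fun x => p.eval₂ (evalRingHom x) (g x) + q.eval₂ (evalRingHom x) (g x) := funext fun x => eval₂_add _ _
    rw [h1]
    exact hp.add hq
  | monomial n a =>
    have h1 : (fun x => (monomial n a).eval₂ (evalRingHom x) (g x)) = fun x => a.eval x * g x ^ n := by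
      funext x
      rw [eval₂_monomial, coe_evalRingHom]
    rw [h1]
    exact (a.differentiable.analyticAt x).mul ((hg x hx).pow n)

theorem prim_indep {V : Set ℂ} (hV : IsPreconnected V) (hVo : IsOpen V) (hne : V.Nonempty) {ι : Type} [Fintype ι]
    {f : ι → ℂ → ℂ} (hf : ∀ i, AnalyticOnNhd ℂ (f i) V) (hd : ∀ i, AlgOn V (deriv (f i)))
    (hlin : ∀ c : ι → ℂ, AlgOn V (fun x => ∑ i, c i * f i x) → c = 0) : Indep V f := by
  classical
  obtain ⟨x0, hx0⟩ := hne
  obtain ⟨E, _, _, D, T, hconst, hTc, hTa, hTm, hTd, hTz, hTe⟩ := Pool.Agent.W924.LF.t_GERM ℂ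
  haveI : CharZero E := charZero_of_injective_algebraMap (algebraMap ℂ E).injective
  -- shifted functions
  have hsh : ∀ g : ℂ → ℂ, AnalyticAt ℂ g x0 → AnalyticAt ℂ (fun s => g (x0 + s)) 0 := by
    intro g hg
    have h1 : AnalyticAt ℂ (fun s : ℂ => x0 + s) 0 := analyticAt_const.add analyticAt_id
    refine AnalyticAt.comp' ?_ h1
    rw [add_zero]
    exact hg
  set τ : E := T (fun s => x0 + s) with hτ
  have hpow : ∀ (g : ℂ → ℂ), AnalyticAt ℂ g 0 → ∀ n : ℕ, T (fun s => g s ^ n) = T g ^ n := by
    intro g hg n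
    induction n with
    | zero =>
      simp only [pow_zero]
      rw [hTc 1, map_one]
    | succ n ih =>
      simp only [pow_succ]
      rw [hTm (fun s => g s ^ n) g (hg.pow n) hg, ih]
  have hid : AnalyticAt ℂ (fun s : ℂ => x0 + s) 0 := analyticAt_const.add analyticAt_id
  have halg0 : ∀ p : ℂ[X], aeval τ p = T (fun s => p.eval (x0 + s)) := by
    intro p
    induction p using Polynomial.induction_on' with
    | add p q hp hq =>
      simp only [eval_add]
      rw [hTa _ _ (hsh _ (p.differentiable.analyticAt x0)) (hsh _ (q.differentiable.analyticAt x0)), map_add, hp, hq]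
    | monomial n a =>
      simp only [eval_monomial]
      rw [hTm (fun _ => a) (fun s => (x0 + s) ^ n) analyticAt_const (hid.pow n), hTc, hpow _ hid, aeval_monomial]
  letI : Algebra ℂ[X] E := (aeval τ : ℂ[X] →ₐ[ℂ] E).toRingHom.toAlgebra
  have halg : ∀ p : ℂ[X], algebraMap ℂ[X] E p = T (fun s => p.eval (x0 + s)) := halg0
  haveI : IsScalarTower ℂ ℂ[X] E := IsScalarTower.of_algebraMap_eq fun c => by
    show _ = aeval τ (C c)
    rw [aeval_C]
  haveI : FaithfulSMul ℂ[X] E := by
    refine (faithfulSMul_iff_algebraMap_injective ℂ[X] E).2 ?_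
    rw [injective_iff_map_eq_zero]
    intro p hp
    rw [halg] at hp
    have h1 := hTz _ (hsh _ (p.differentiable.analyticAt x0)) hp
    have h2 : ∀ᶠ x in 𝓝 x0, p.eval x = 0 := by
      have h3 : Tendsto (fun x => x - x0) (𝓝 x0) (𝓝 0) := by
        have : Tendsto (fun x => x - x0) (𝓝 x0) (𝓝 (x0 - x0)) := tendsto_id.sub tendsto_const_nhds
        rwa [sub_self] at this
      filter_upwards [h3.eventually h1] with x hx
      rwa [add_sub_cancel] at hx
    have h4 := (show AnalyticOnNhd ℂ (fun x => p.eval x) Set.univ from fun x _ => p.differentiable.analyticAt x).eqOn_zero_of_preconnected_of_eventuallyEq_zero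
      isPreconnected_univ (Set.mem_univ x0) h2
    exact Polynomial.funext fun x => by rw [eval_zero]; exact h4 (Set.mem_univ x)
  have hX : D (algebraMap ℂ[X] E X) = 1 := by
    rw [halg]
    simp only [eval_X]
    rw [← hTd _ hid]
    have h1 : deriv (fun s : ℂ => x0 + s) = fun _ => 1 := by
      funext s
      simp
    rw [h1, hTc, map_one]
  set y : ι → E := fun i => T (fun s => f i (x0 + s)) with hy
  have hev : ∀ P : MvPolynomial ι ℂ[X], MvPolynomial.eval₂ (algebraMap ℂ[X] E) y P = T (fun s => evF f (x0 + s) P) := by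
    intro P
    induction P using MvPolynomial.induction_on with
    | C a =>
      rw [MvPolynomial.eval₂_C, halg]
      congr 1
      funext s
      simp [evF]
    | add p q hp hq =>
      have h1 : (fun s => evF f (x0 + s) (p + q)) = fun s => evF f (x0 + s) p + evF f (x0 + s) q := by
        funext s
        simp [evF]
      rw [MvPolynomial.eval₂_add, hp, hq, h1, hTa _ _ (hsh _ (evF_an hf p x0 hx0)) (hsh _ (evF_an hf q x0 hx0))]
    | mul_X p i hp =>
      have h1 : (fun s => evF f (x0 + s) (p * MvPolynomial.X i)) = fun s => evF f (x0 + s) p * f i (x0 + s) := by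
        funext s
        simp [evF]
      rw [MvPolynomial.eval₂_mul, MvPolynomial.eval₂_X, hp, h1, hTm _ _ (hsh _ (evF_an hf p x0 hx0)) (hsh _ (hf i x0 hx0))]
  have hev1 : ∀ (g : ℂ → ℂ), AnalyticAt ℂ g x0 → ∀ Q : ℂ[X][X],
      aeval (T fun s => g (x0 + s)) Q = T (fun s => Q.eval₂ (evalRingHom (x0 + s)) (g (x0 + s))) := by
    intro g hg Q
    have hQ : ∀ Q : ℂ[X][X], AnalyticAt ℂ (fun x => Q.eval₂ (evalRingHom x) (g x)) x0 := by
      intro Q
      have h1 : AnalyticOnNhd ℂ g {x0} := fun x hx => by rw [Set.mem_singleton_iff.1 hx]; exact hg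
      exact ev2_an h1 Q x0 rfl
    induction Q using Polynomial.induction_on' with
    | add p q hp hq =>
      simp only [eval₂_add]
      rw [hTa _ _ (hsh _ (hQ p)) (hsh _ (hQ q)), map_add, hp, hq]
    | monomial n a =>
      simp only [eval₂_monomial, coe_evalRingHom]
      rw [hTm (fun s => a.eval (x0 + s)) (fun s => g (x0 + s) ^ n) (hsh _ (a.differentiable.analyticAt x0)) ((hsh _ hg).pow n),
        ← halg, hpow _ (hsh _ hg), aeval_monomial]
  intro P hP
  refine ost D hX hconst y (fun i => ?_) (fun c hc => ?_) P ?_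
  · obtain ⟨Q, hQ, hQx⟩ := hd i
    refine ⟨Q, hQ, ?_⟩
    have h1 : D (y i) = T (fun s => deriv (f i) (x0 + s)) := by
      rw [hy, ← hTd _ (hsh _ (hf i x0 hx0))]
      congr 1
      funext s
      exact deriv_comp_const_add (f i) x0 s
    rw [h1, hev1 _ (hf i x0 hx0).deriv Q]
    have h2 : T (fun s => Q.eval₂ (evalRingHom (x0 + s)) (deriv (f i) (x0 + s))) = T (fun _ => 0) := by
      refine hTe _ _ ?_
      have h3 : ∀ᶠ s in 𝓝 (0 : ℂ), x0 + s ∈ V := by
        have h4 : Tendsto (fun s => x0 + s) (𝓝 (0 : ℂ)) (𝓝 x0) := by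
          have : Tendsto (fun s => x0 + s) (𝓝 (0 : ℂ)) (𝓝 (x0 + 0)) := tendsto_const_nhds.add tendsto_id
          rwa [add_zero] at this
        exact h4.eventually (hVo.mem_nhds hx0)
      filter_upwards [h3] with s hs
      exact hQx _ hs
    rw [h2, hTc, map_zero]
  · refine hlin c ?_
    have han : ∀ c : ι → ℂ, AnalyticOnNhd ℂ (fun x => ∑ i, c i * f i x) V := by
      intro c x hx
      have h1 : (fun x => ∑ i, c i * f i x) = ∑ i, fun x => c i * f i x := by
        funext x
        simp
      rw [h1]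
      exact Finset.analyticAt_sum _ fun i _ => analyticAt_const.mul (hf i x hx)
    have hsum : ∑ i, algebraMap ℂ E (c i) * y i = T (fun s => ∑ i, c i * f i (x0 + s)) := by
      have h1 : ∀ S : Finset ι, ∑ i ∈ S, algebraMap ℂ E (c i) * y i = T (fun s => ∑ i ∈ S, c i * f i (x0 + s)) := by
        intro S
        induction S using Finset.induction_on with
        | empty =>
          simp only [Finset.sum_empty]
          rw [hTc, map_zero]
        | insert i S hi ih =>
          simp only [Finset.sum_insert hi]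
          have h2 : AnalyticAt ℂ (fun x => ∑ i ∈ S, c i * f i x) x0 := by
            have h3 : (fun x => ∑ i ∈ S, c i * f i x) = ∑ i ∈ S, fun x => c i * f i x := by
              funext x
              simp
            rw [h3]
            exact Finset.analyticAt_sum _ fun i _ => analyticAt_const.mul (hf i x0 hx0)
          rw [hTa (fun s => c i * f i (x0 + s)) _ (analyticAt_const.mul (hsh _ (hf i x0 hx0))) (hsh _ h2),
            hTm (fun _ => c i) _ analyticAt_const (hsh _ (hf i x0 hx0)), hTc, ih]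
      exact h1 Finset.univ
    rw [hsum] at hc
    obtain ⟨Q, hQ, hQ0⟩ := hc
    rw [hev1 _ (han c x0 hx0)] at hQ0
    have h1 := hTz _ (hsh _ (ev2_an (han c) Q x0 hx0)) hQ0
    have h2 : ∀ᶠ x in 𝓝 x0, Q.eval₂ (evalRingHom x) (∑ i, c i * f i x) = 0 := by
      have h3 : Tendsto (fun x => x - x0) (𝓝 x0) (𝓝 0) := by
        have : Tendsto (fun x => x - x0) (𝓝 x0) (𝓝 (x0 - x0)) := tendsto_id.sub tendsto_const_nhds
        rwa [sub_self] at this
      filter_upwards [h3.eventually h1] with x hx
      rwa [add_sub_cancel] at hx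
    exact ⟨Q, hQ, fun x hx => (ev2_an (han c) Q).eqOn_zero_of_preconnected_of_eventuallyEq_zero hV hx0 h2 hx⟩
  · rw [hev]
    have h2 : T (fun s => evF f (x0 + s) P) = T (fun _ => 0) := by
      refine hTe _ _ ?_
      have h3 : ∀ᶠ s in 𝓝 (0 : ℂ), x0 + s ∈ V := by
        have h4 : Tendsto (fun s => x0 + s) (𝓝 (0 : ℂ)) (𝓝 x0) := by
          have : Tendsto (fun s => x0 + s) (𝓝 (0 : ℂ)) (𝓝 (x0 + 0)) := tendsto_const_nhds.add tendsto_id
          rwa [add_zero] at this
        exact h4.eventually (hVo.mem_nhds hx0)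
      filter_upwards [h3] with s hs
      exact hP _ hs
    rw [h2, hTc, map_zero]

end Pool.Agent.X255.RH
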