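import Pool.Agent.X255.RH.Tow5

/-!
# Exponentials of polynomials in `x, log x` and in `x, exp x`: functions
-/

set_option autoImplicit false
set_option linter.unusedSectionVars false

open Polynomial Filter Topology

namespace Pool.Agent.X255.RH.Tow

open Pool.Agent.Y890.SP

theorem evalEval_an {V : Set ℂ} {u : ℂ → ℂ} (hu : AnalyticOnNhd ℂ u V) (S : ℂ[X][X]) :
    AnalyticOnNhd ℂ (fun x => S.evalEval x (u x)) V := by
  induction S using Polynomial.induction_on' with
  | add p q hp hq =>
    simp only [evalEval_add]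
    exact fun x hx => (hp x hx).add (hq x hx)
  | monomial n a =>
    intro x hx
    have h1 : (fun x => (monomial n a : ℂ[X][X]).evalEval x (u x)) = fun x => a.eval x * u x ^ n := by
      funext x
      rw [evalEval, eval_monomial, eval_mul, ← C_pow, eval_C]
    rw [h1]
    exact (a.differentiable.analyticAt x).mul ((hu x hx).pow n)

theorem Germ.ev2 {x0 : ℂ} {E : Type} [Field E] [Algebra ℂ E] [CharZero E] {D : Derivation ℂ E E} {T : (ℂ → ℂ) → E}
    (G : Germ x0 D T) {u : ℂ → ℂ} (hu : AnalyticAt ℂ u x0) (S : ℂ[X][X]) :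
    T (fun x => S.evalEval x (u x)) = Tow.ev2 (T fun s => s) (T u) S := by
  have hpow : ∀ n : ℕ, T (fun s => u s ^ n) = T u ^ n := by
    intro n
    induction n with
    | zero =>
      simp only [pow_zero]
      rw [G.cst 1, map_one]
    | succ n ih =>
      simp only [pow_succ]
      rw [G.mul (fun s => u s ^ n) u (hu.pow n) hu, ih]
  have h0 : ∀ (n : ℕ) (a : ℂ[X]), (fun x => (monomial n a : ℂ[X][X]).evalEval x (u x)) = fun x => a.eval x * u x ^ n := by
    intro n a
    funext x
    rw [evalEval, eval_monomial, eval_mul, ← C_pow, eval_C]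
  have han : ∀ S : ℂ[X][X], AnalyticAt ℂ (fun x => S.evalEval x (u x)) x0 := by
    intro S
    induction S using Polynomial.induction_on' with
    | add p q hp hq =>
      simp only [evalEval_add]
      exact hp.add hq
    | monomial n a =>
      rw [h0]
      exact (a.differentiable.analyticAt x0).mul (hu.pow n)
  induction S using Polynomial.induction_on' with
  | add p q hp hq =>
    simp only [evalEval_add]
    rw [G.add _ _ (han p) (han q), hp, hq, Tow.ev2, Tow.ev2, Tow.ev2, eval₂_add]
  | monomial n a =>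
    have h1 : AnalyticAt ℂ (fun s => u s ^ n) x0 := hu.pow n
    rw [h0, G.mul _ _ (a.differentiable.analyticAt x0) h1, hpow, ← G.aev, Tow.ev2, eval₂_monomial]
    rfl

section

variable {E : Type} [Field E] [Algebra ℂ E] [CharZero E] {D : Derivation ℂ E E}

theorem ev2_mem {τ t : E} {K : IntermediateField ℂ E} (h : τ ∈ K) (ht : t ∈ K) (S : ℂ[X][X]) : ev2 τ t S ∈ K := by
  induction S using Polynomial.induction_on' with
  | add p q hp hq =>
    rw [ev2, eval₂_add]
    exact add_mem hp hq
  | monomial n a =>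
    rw [ev2, eval₂_monomial]
    exact mul_mem (aeval_mem h a) (pow_mem ht n)

theorem ev2_sum {τ t : E} {J : Type} [Fintype J] (n : J → ℤ) (S : J → ℂ[X][X]) :
    ev2 τ t (∑ j, C (C (n j : ℂ)) * S j) = ∑ j, (n j : E) * ev2 τ t (S j) := by
  rw [ev2, eval₂_finsetSum]
  refine Finset.sum_congr rfl fun j _ => ?_
  rw [eval₂_mul, eval₂_C, ev2]
  congr 1
  change aeval τ (C (n j : ℂ)) = _
  rw [aeval_C, map_intCast]

theorem D_intCast_mul (n : ℤ) (x : E) : D ((n : E) * x) = n * D x := by
  rw [Derivation.leibniz, Derivation.map_intCast, smul_zero, add_zero, smul_eq_mul]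

theorem two_indep {v : ℕ → E} (htr0 : Tr (F v 0) (v 0)) (htr1 : Tr (F v 1) (v 1)) {J : Type} {w : J → E}
    (hexp : AlgebraicIndependent (F v 2) w) :
    AlgebraicIndependent ℂ (fun o : Option (Option J) => o.elim (v 0) fun o => o.elim (v 1) w) := by
  have hch := chain v 2 fun n hn => by
    interval_cases n
    · exact htr0
    · exact htr1
  have h5 : AlgebraicIndependent ℂ (Sum.elim w fun i : Set.Iio 2 => v i) := by
    refine AlgebraicIndependent.sumElim_of_tower (S := F v 2) hch ?_ hexp
    rintro _ ⟨i, rfl⟩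
    exact ⟨⟨v i, mem_F v i.2⟩, rfl⟩
  let em : Option (Option J) → J ⊕ Set.Iio 2 := fun o => match o with
    | none => Sum.inr ⟨0, Nat.zero_lt_two⟩
    | some none => Sum.inr ⟨1, Nat.one_lt_two⟩
    | some (some j) => Sum.inl j
  have h6 := h5.comp em (by
    rintro (_ | _ | i) (_ | _ | j) hij
    · rfl
    · exact absurd (congrArg Subtype.val (Sum.inr_injective hij)) (by norm_num)
    · exact absurd hij (by simp [em])
    · exact absurd (congrArg Subtype.val (Sum.inr_injective hij)) (by norm_num)
    · rfl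
    · exact absurd hij (by simp [em])
    · exact absurd hij (by simp [em])
    · exact absurd hij (by simp [em])
    · simpa [em] using hij)
  convert h6 using 1
  funext o
  rcases o with _ | _ | j
  · rfl
  · rfl
  · rfl

end

/-- **`log x` and exponentials of polynomials in `x`, `log x`.** -/
theorem plog_indep {V : Set ℂ} (hVo : IsOpen V) (hne : V.Nonempty) {L : ℂ → ℂ} (hL : AnalyticOnNhd ℂ L V)
    (hexp : ∀ x ∈ V, Complex.exp (L x) = x) {J : Type} [Fintype J] (S : J → ℂ[X][X])
    (hind : ∀ n : J → ℤ, n ≠ 0 → ∀ (c : ℂ) (k : ℤ), ∑ j, C (C (n j : ℂ)) * S j ≠ C (C c) + C (C (k : ℂ)) * X) :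
    Indep V (fun (o : Option J) => o.elim L fun j x => Complex.exp ((S j).evalEval x (L x))) := by
  obtain ⟨x0, hx0⟩ := hne
  obtain ⟨E, _, _, D, T, G⟩ := germ x0
  haveI : CharZero E := charZero_of_injective_algebraMap (algebraMap ℂ E).injective
  have hid : AnalyticAt ℂ (fun s : ℂ => s) x0 := analyticAt_id
  have hτ0 : (T fun s => s) ≠ 0 := by
    intro h2
    have h3 := G.tr X (by rw [aeval_X, h2])
    exact X_ne_zero h3
  have hDL : D (T L) = (T fun s => s)⁻¹ := by
    apply mul_right_cancel₀ hτ0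
    rw [inv_mul_cancel₀ hτ0, ← G.der _ (hL x0 hx0), ← G.mul _ _ (hL x0 hx0).deriv hid, ← map_one (algebraMap ℂ E), ← G.cst 1]
    refine G.congr _ _ ?_
    filter_upwards [hVo.mem_nhds hx0] with x hx
    have h1 : HasDerivAt L (deriv L x) x := (hL x hx).differentiableAt.hasDerivAt
    have h2 : HasDerivAt (fun x => Complex.exp (L x)) 1 x := by
      refine (hasDerivAt_id x).congr_of_eventuallyEq ?_
      filter_upwards [hVo.mem_nhds hx] with y hy using hexp y hy
    have h3 := h1.cexp.unique h2
    rw [hexp x hx] at h3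
    rw [mul_comm]
    exact h3
  set v : ℕ → E := fun n => if n = 0 then (T fun s => s) else T L with hv
  have hv0 : v 0 = T fun s => s := rfl
  have hv1 : v 1 = T L := rfl
  have htr0 : Tr (F v 0) (v 0) := F_zero_tr G.tr
  have htr1 : Tr (F v 1) (v 1) := log_tr G.const G.tr G.D1 hDL
  have hst1 : Stab D (F v 1) := by
    refine stab_adjoin ?_
    rintro _ ⟨i, hi, rfl⟩
    have : i = 0 := Nat.lt_one_iff.1 hi
    rw [this, hv0, G.D1]
    exact one_mem _
  have hτm : v 0 ∈ F v 1 := mem_F v Nat.zero_lt_one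
  have hst2 : Stab D (F v 2) := by
    refine stab_adjoin ?_
    rintro _ ⟨i, hi, rfl⟩
    have hi' : i < 2 := hi
    interval_cases i
    · rw [hv0, G.D1]
      exact one_mem _
    · rw [hv1, hDL]
      exact inv_mem (F_mono v one_le_two hτm)
  have hean : ∀ j, AnalyticAt ℂ (fun x => (S j).evalEval x (L x)) x0 := fun j => evalEval_an hL (S j) x0 hx0
  refine G.indep hVo hx0 (fun o => ?_) ?_
  · rcases o with _ | j
    · exact hL
    · exact fun x hx => (evalEval_an hL (S j) x hx).cexp
  · have hexp' : AlgebraicIndependent (F v 2) (fun j => T fun x => Complex.exp ((S j).evalEval x (L x))) := by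
      refine expI hst2 _ (fun j => D (ev2 (v 0) (v 1) (S j))) (fun j => G.ne (hean j).cexp (Complex.exp_ne_zero _))
        (fun j => hst2 _ (ev2_mem (F_mono v one_le_two hτm) (mem_F v one_lt_two) _)) (fun j => ?_) ?_
      · rw [G.dexp (hean j), G.ev2 (hL x0 hx0)]
        rfl
      · intro n hn c hc hc0 hDc
        have hsum : ∑ j, (n j : E) * D (ev2 (v 0) (v 1) (S j)) = D (ev2 (v 0) (v 1) (∑ j, C (C (n j : ℂ)) * S j)) := by
          rw [ev2_sum, map_sum]
          exact Finset.sum_congr rfl fun j _ => (D_intCast_mul _ _).symm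
        rw [hsum] at hDc
        obtain ⟨p, q, hpq, hq⟩ := F_succ v 1 hc
        obtain ⟨c₀, k, hk⟩ := plog G.tr G.D1 (F_one v) hst1 hτm htr1 hDL _ hc0 hpq hq hDc
        exact hind n hn c₀ k hk
    have key := two_indep htr0 htr1 hexp'
    convert key using 1
    funext o
    rcases o with _ | _ | j
    · rfl
    · rfl
    · rfl

/-- **`exp x` and exponentials of polynomials in `x`, `exp x`.** -/
theorem pexp_indep {V : Set ℂ} (hVo : IsOpen V) (hne : V.Nonempty) {J : Type} [Fintype J] (S : J → ℂ[X][X])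
    (hind : ∀ n : J → ℤ, n ≠ 0 → ∀ (c : ℂ) (k : ℤ), ∑ j, C (C (n j : ℂ)) * S j ≠ C (C c + C (k : ℂ) * X)) :
    Indep V (fun (o : Option J) => o.elim Complex.exp fun j x => Complex.exp ((S j).evalEval x (Complex.exp x))) := by
  obtain ⟨x0, hx0⟩ := hne
  obtain ⟨E, _, _, D, T, G⟩ := germ x0
  haveI : CharZero E := charZero_of_injective_algebraMap (algebraMap ℂ E).injective
  have hid : AnalyticAt ℂ (fun s : ℂ => s) x0 := analyticAt_id
  have hean0 : AnalyticAt ℂ Complex.exp x0 := analyticAt_cexp
  have hDt : D (T Complex.exp) = T Complex.exp := by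
    have h1 := G.dexp hid
    rw [G.D1, one_mul] at h1
    exact h1
  set v : ℕ → E := fun n => if n = 0 then (T fun s => s) else T Complex.exp with hv
  have hv0 : v 0 = T fun s => s := rfl
  have hv1 : v 1 = T Complex.exp := rfl
  have htr0 : Tr (F v 0) (v 0) := F_zero_tr G.tr
  have hst1 : Stab D (F v 1) := by
    refine stab_adjoin ?_
    rintro _ ⟨i, hi, rfl⟩
    have : i = 0 := Nat.lt_one_iff.1 hi
    rw [this, hv0, G.D1]
    exact one_mem _
  have htr1 : Tr (F v 1) (v 1) := by
    refine exp_tr hst1 (G.ne hean0 (Complex.exp_ne_zero _)) (one_mem _) (by rw [hv1, hDt, one_mul]) fun c hc hc0 m hm hDc => ?_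
    rw [F_one] at hc
    obtain ⟨j, hj⟩ := rat1 G.tr G.D1 hc hc0 (C (m : ℂ) * X) (by
      rw [hDc, map_mul, aeval_X, aeval_C, map_natCast]
      ring)
    have hm0 : (m : ℂ) ≠ 0 := by exact_mod_cast hm.ne'
    have h1 := congrArg natDegree hj
    rw [natDegree_C, natDegree_C_mul hm0, natDegree_X] at h1
    omega
  have hτm : v 0 ∈ F v 1 := mem_F v Nat.zero_lt_one
  have hst2 : Stab D (F v 2) := by
    refine stab_adjoin ?_
    rintro _ ⟨i, hi, rfl⟩
    have hi' : i < 2 := hi
    interval_cases i
    · rw [hv0, G.D1]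
      exact one_mem _
    · rw [hv1, hDt]
      exact mem_F v one_lt_two
  have hexpan : AnalyticOnNhd ℂ Complex.exp V := fun x _ => analyticAt_cexp
  have hean : ∀ j, AnalyticAt ℂ (fun x => (S j).evalEval x (Complex.exp x)) x0 := fun j => evalEval_an hexpan (S j) x0 hx0
  refine G.indep hVo hx0 (fun o => ?_) ?_
  · rcases o with _ | j
    · exact hexpan
    · exact fun x hx => (evalEval_an hexpan (S j) x hx).cexp
  · have hexp' : AlgebraicIndependent (F v 2) (fun j => T fun x => Complex.exp ((S j).evalEval x (Complex.exp x))) := by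
      refine expI hst2 _ (fun j => D (ev2 (v 0) (v 1) (S j))) (fun j => G.ne (hean j).cexp (Complex.exp_ne_zero _))
        (fun j => hst2 _ (ev2_mem (F_mono v one_le_two hτm) (mem_F v one_lt_two) _)) (fun j => ?_) ?_
      · rw [G.dexp (hean j), G.ev2 hean0]
        rfl
      · intro n hn c hc hc0 hDc
        have hsum : ∑ j, (n j : E) * D (ev2 (v 0) (v 1) (S j)) = D (ev2 (v 0) (v 1) (∑ j, C (C (n j : ℂ)) * S j)) := by
          rw [ev2_sum, map_sum]
          exact Finset.sum_congr rfl fun j _ => (D_intCast_mul _ _).symm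
        rw [hsum] at hDc
        obtain ⟨p, q, hpq, hq⟩ := F_succ v 1 hc
        obtain ⟨c₀, k, hk⟩ := pexp G.tr G.D1 (F_one v) hst1 hτm htr1 hDt _ hc0 hpq hq hDc
        exact hind n hn c₀ k hk
    have key := two_indep htr0 htr1 hexp'
    convert key using 1
    funext o
    rcases o with _ | _ | j
    · rfl
    · rfl
    · rfl

end Pool.Agent.X255.RH.Tow
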