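import Pool.Agent.X255.RH.Tow3

/-!
# Towers of exponentials: functions
-/

set_option autoImplicit false
set_option linter.unusedSectionVars false

open Polynomial Filter Topology

namespace Pool.Agent.X255.RH.Tow

open Pool.Agent.Y890.SP

/-- `x`, `x ^ x`, `x ^ (x ^ x)`, … -/
noncomputable def pw (L : ℂ → ℂ) : ℕ → ℂ → ℂ
  | 0 => fun x => x
  | n + 1 => fun x => Complex.exp (pw L n x * L x)

theorem pw_an {V : Set ℂ} {L : ℂ → ℂ} (hL : AnalyticOnNhd ℂ L V) (n : ℕ) : AnalyticOnNhd ℂ (pw L n) V := by
  induction n with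
  | zero => exact fun x _ => analyticAt_id
  | succ n ih => exact fun x hx => ((ih x hx).mul (hL x hx)).cexp

/-- **`log x`, `x ^ x`, `x ^ (x ^ x)`, …** -/
theorem pw_indep {V : Set ℂ} (hVo : IsOpen V) (hne : V.Nonempty) {L : ℂ → ℂ} (hL : AnalyticOnNhd ℂ L V)
    (hexp : ∀ x ∈ V, Complex.exp (L x) = x) (h : ℕ) :
    Indep V (fun (o : Option (Fin h)) => o.elim L fun i => pw L (i + 1)) := by
  obtain ⟨x0, hx0⟩ := hne
  obtain ⟨E, _, _, D, T, G⟩ := germ x0
  haveI : CharZero E := charZero_of_injective_algebraMap (algebraMap ℂ E).injective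
  have hid : AnalyticAt ℂ (fun s : ℂ => s) x0 := analyticAt_id
  set τ : E := T fun s => s with hτ
  have hτ0 : τ ≠ 0 := by
    intro h2
    have h3 := G.tr X (by rw [aeval_X]; exact h2)
    exact X_ne_zero h3
  have hDL : D (T L) = τ⁻¹ := by
    apply mul_right_cancel₀ hτ0
    rw [inv_mul_cancel₀ hτ0, ← G.der _ (hL x0 hx0), hτ, ← G.mul _ _ (hL x0 hx0).deriv hid, ← map_one (algebraMap ℂ E), ← G.cst 1]
    refine G.congr _ _ ?_
    filter_upwards [hVo.mem_nhds hx0] with x hx
    have h1 : HasDerivAt L (deriv L x) x := (hL x hx).differentiableAt.hasDerivAt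
    have h2 : HasDerivAt (fun x => Complex.exp (L x)) 1 x := by
      refine (hasDerivAt_id x).congr_of_eventuallyEq ?_
      filter_upwards [hVo.mem_nhds hx] with y hy using hexp y hy
    have h3 := h1.cexp.unique h2
    rw [hexp x hx] at h3
    rw [mul_comm]
    exact h3
  let φ : ℕ → ℂ → ℂ := fun n => match n with
    | 0 => fun x => x
    | 1 => L
    | n + 2 => pw L (n + 1)
  set v : ℕ → E := fun n => T (φ n) with hv
  have hv0 : v 0 = τ := rfl
  have hv1 : v 1 = T L := rfl
  have hprod : ∀ n, T (fun x => pw L n x * L x) = T (pw L n) * T L := fun n =>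
    G.mul _ _ (pw_an hL n x0 hx0) (hL x0 hx0)
  have hDv : ∀ n, D (v (n + 2)) = D (T (pw L n) * T L) * v (n + 2) := by
    intro n
    rw [← hprod]
    exact G.dexp ((pw_an hL n x0 hx0).mul (hL x0 hx0))
  -- the logarithmic derivatives
  let a : ℕ → E := fun n => match n with
    | 0 => 0
    | 1 => 0
    | n + 2 => D (T (pw L n) * T L)
  let a' : ℕ → E := fun n => match n with
    | 0 => 1
    | 1 => τ⁻¹
    | _ + 2 => 0
  have hD : ∀ n, D (v n) = a n * v n + a' n := by
    intro n
    match n with
    | 0 =>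
      change D τ = 0 * v 0 + 1
      rw [zero_mul, zero_add]
      exact G.D1
    | 1 =>
      change D (T L) = 0 * v 1 + τ⁻¹
      rw [zero_mul, zero_add, hDL]
    | n + 2 =>
      change D (v (n + 2)) = _ * v (n + 2) + 0
      rw [add_zero]
      exact hDv n
  have ha2 : a 2 = 1 * v 1 + 1 := by
    change D (τ * T L) = 1 * T L + 1
    rw [Derivation.leibniz, smul_eq_mul, smul_eq_mul, hDL, mul_inv_cancel₀ hτ0, show D τ = 1 from G.D1]
    ring
  have ha3 : ∀ n, a (n + 3) = (a (n + 2) * v 1 + τ⁻¹) * v (n + 2) + 0 := by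
    intro n
    change D (v (n + 2) * T L) = (a (n + 2) * T L + τ⁻¹) * v (n + 2) + 0
    rw [Derivation.leibniz, smul_eq_mul, smul_eq_mul, hDL, hD (n + 2)]
    change v (n + 2) * τ⁻¹ + T L * (a (n + 2) * v (n + 2) + 0) = _
    ring
  have ham : ∀ n, a n ∈ F v n := by
    intro n
    induction n using Nat.strong_induction_on with
    | _ n ih =>
      match n with
      | 0 => exact zero_mem _
      | 1 => exact zero_mem _
      | 2 =>
        rw [ha2]
        exact add_mem (mul_mem (one_mem _) (mem_F v one_lt_two)) (one_mem _)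
      | n + 3 =>
        rw [ha3]
        refine add_mem (mul_mem (add_mem (mul_mem (F_mono v (show n + 2 ≤ n + 3 by omega) (ih (n + 2) (by omega)))
          (mem_F v (show 1 < n + 3 by omega))) (inv_mem ?_)) (mem_F v (show n + 2 < n + 3 by omega))) (zero_mem _)
        exact mem_F v (by omega : 0 < n + 3)
  have ham' : ∀ n, a' n ∈ F v n := by
    intro n
    match n with
    | 0 => exact one_mem _
    | 1 =>
      refine inv_mem ?_
      exact mem_F v Nat.zero_lt_one
    | n + 2 => exact zero_mem _
  have htr0 : Tr (F v 0) (v 0) := F_zero_tr G.tr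
  have htr1 : Tr (F v 1) (v 1) := log_tr G.const G.tr G.D1 hDL
  have hv1ne : v 1 ≠ 0 := by
    intro h0
    have h1 := htr1 X (by rw [aeval_X, h0])
    exact X_ne_zero h1
  have hvne : ∀ n, v (n + 2) ≠ 0 := fun n => G.ne (pw_an hL (n + 1) x0 hx0) (Complex.exp_ne_zero _)
  have htower : ∀ n < h + 2, Tr (F v n) (v n) := by
    refine tower v 2 (h + 2) one_le_two (fun n hn => ?_) a a' (fun n _ => ham n) (fun n _ => ham' n) (fun n _ => hD n)
      fun n hn _ ih => ?_
    · interval_cases n
      · exact htr0
      · exact htr1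
    · obtain ⟨n, rfl⟩ : ∃ m, n = m + 2 := ⟨n - 2, by omega⟩
      refine ⟨hvne n, rfl, ?_⟩
      rcases n with _ | n
      · exact ⟨1, 1, one_mem _, one_mem _, one_ne_zero, ha2⟩
      · refine ⟨a (n + 2) * v 1 + τ⁻¹, 0, ?_, zero_mem _, ?_, ha3 n⟩
        · refine add_mem (mul_mem (ham (n + 2)) (mem_F v (show 1 < n + 2 by omega))) (inv_mem ?_)
          exact mem_F v (by omega : 0 < n + 2)
        · intro h0
          have h1 := ha3 n
          rw [h0, zero_mul, add_zero] at h1
          obtain ⟨c, hc⟩ := G.const _ h1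
          change algebraMap ℂ E c = v (n + 2) * T L at hc
          have h2 := ih (n + 2) (by omega)
          have hm1 : v 1 ∈ F v (n + 2) := mem_F v (show 1 < n + 2 by omega)
          have h3 := h2 (C (⟨v 1, hm1⟩ : F v (n + 2)) * X - C (algebraMap ℂ _ c)) (by
            rw [map_sub, map_mul, aeval_C, aeval_C, aeval_X]
            change v 1 * v (n + 2) - algebraMap ℂ E c = 0
            rw [hc]
            change v 1 * v (n + 2) - v (n + 2) * v 1 = 0
            ring)
          have h4 := congrArg (fun P : (F v (n + 2))[X] => P.coeff 1) h3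
          simp only [coeff_sub, coeff_C_mul, coeff_X_one, mul_one, coeff_C_ne_zero one_ne_zero, sub_zero,
            coeff_zero] at h4
          exact hv1ne (congrArg Subtype.val h4)
  have hch := chain v (h + 2) htower
  have hφ : ∀ n, AnalyticOnNhd ℂ (φ n) V := by
    intro n
    match n with
    | 0 => exact fun x _ => analyticAt_id
    | 1 => exact hL
    | n + 2 => exact pw_an hL (n + 1)
  refine G.indep hVo hx0 (fun o => ?_) ?_
  · rcases o with _ | i
    · exact hL
    · exact pw_an hL _
  · let em : Option (Option (Fin h)) → Set.Iio (h + 2) := fun o => match o with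
      | none => ⟨0, (by omega : 0 < h + 2)⟩
      | some none => ⟨1, (by omega : 1 < h + 2)⟩
      | some (some i) => ⟨i + 2, by have := i.2; exact (by omega : (i : ℕ) + 2 < h + 2)⟩
    have h6 := AlgebraicIndependent.comp hch em (by
      intro o o' hij
      have h7 := congrArg Subtype.val hij
      rcases o with _ | _ | i <;> rcases o' with _ | _ | j <;> simp only [em] at h7 <;> try rfl
      all_goals first | omega | skip
      congr 2
      exact Fin.ext (by omega))
    convert h6 using 1
    funext o
    rcases o with _ | _ | i <;> rfl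

/-- `y(x)`, `e ^ y(x)`, `e ^ (e ^ y(x))`, … -/
noncomputable def et (y : ℂ[X]) : ℕ → ℂ → ℂ
  | 0 => fun x => y.eval x
  | n + 1 => fun x => Complex.exp (et y n x)

theorem et_an (y : ℂ[X]) (n : ℕ) (V : Set ℂ) : AnalyticOnNhd ℂ (et y n) V := by
  induction n with
  | zero => exact fun x _ => y.differentiable.analyticAt x
  | succ n ih => exact fun x hx => (ih x hx).cexp

/-- **`e ^ y(x)`, `e ^ (e ^ y(x))`, …** -/
theorem et_indep {V : Set ℂ} (hVo : IsOpen V) (hne : V.Nonempty) (y : ℂ[X]) (hy : 0 < y.natDegree) (h : ℕ) :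
    Indep V (fun (i : Fin h) => et y (i + 1)) := by
  obtain ⟨x0, hx0⟩ := hne
  obtain ⟨E, _, _, D, T, G⟩ := germ x0
  haveI : CharZero E := charZero_of_injective_algebraMap (algebraMap ℂ E).injective
  have hid : AnalyticAt ℂ (fun s : ℂ => s) x0 := analyticAt_id
  set τ : E := T fun s => s with hτ
  let φ : ℕ → ℂ → ℂ := fun n => match n with
    | 0 => fun x => x
    | n + 1 => et y (n + 1)
  set v : ℕ → E := fun n => T (φ n) with hv
  have hv0 : v 0 = τ := rfl
  have hDv : ∀ n, D (v (n + 1)) = D (T (et y n)) * v (n + 1) := fun n => G.dexp (et_an y n V x0 hx0)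
  let a : ℕ → E := fun n => match n with
    | 0 => 0
    | n + 1 => D (T (et y n))
  let a' : ℕ → E := fun n => match n with
    | 0 => 1
    | _ + 1 => 0
  have hD : ∀ n, D (v n) = a n * v n + a' n := by
    intro n
    match n with
    | 0 =>
      change D τ = 0 * v 0 + 1
      rw [zero_mul, zero_add]
      exact G.D1
    | n + 1 =>
      change D (v (n + 1)) = _ * v (n + 1) + 0
      rw [add_zero]
      exact hDv n
  have ha1 : a 1 = aeval τ (derivative y) := by
    change D (T fun x => y.eval x) = _
    rw [← G.aev, Derivation.map_aeval, show D (T fun s => s) = 1 from G.D1, smul_eq_mul, mul_one]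
  have ha2 : ∀ n, a (n + 2) = a (n + 1) * v (n + 1) + 0 := by
    intro n
    change D (v (n + 1)) = _
    rw [hD (n + 1)]
  have hpoly : ∀ (p : ℂ[X]) (n : ℕ), 0 < n → aeval τ p ∈ F v n := by
    intro p n hn
    have h1 : τ ∈ F v n := mem_F v hn
    have h2 : aeval τ p = ((aeval (⟨τ, h1⟩ : F v n) p : F v n) : E) := by
      have h3 := Polynomial.aeval_algebraMap_apply E (⟨τ, h1⟩ : F v n) p
      exact h3
    rw [h2]
    exact Subtype.property _
  have ham : ∀ n, a n ∈ F v n := by
    intro n
    induction n using Nat.strong_induction_on with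
    | _ n ih =>
      match n with
      | 0 => exact zero_mem _
      | 1 =>
        rw [ha1]
        exact hpoly _ 1 Nat.zero_lt_one
      | n + 2 =>
        rw [ha2]
        exact add_mem (mul_mem (F_mono v (show n + 1 ≤ n + 2 by omega) (ih (n + 1) (by omega)))
          (mem_F v (show n + 1 < n + 2 by omega))) (zero_mem _)
  have ham' : ∀ n, a' n ∈ F v n := by
    intro n
    match n with
    | 0 => exact one_mem _
    | n + 1 => exact zero_mem _
  have hvne : ∀ n, v (n + 1) ≠ 0 := fun n => G.ne (et_an y (n + 1) V x0 hx0) (Complex.exp_ne_zero _)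
  have hy' : derivative y ≠ 0 := by
    intro h0
    have h1 := natDegree_eq_zero_of_derivative_eq_zero h0
    omega
  have htr0 : Tr (F v 0) (v 0) := F_zero_tr G.tr
  have hst : Stab D (F v 1) := by
    refine stab_adjoin ?_
    rintro _ ⟨i, hi, rfl⟩
    have : i = 0 := Nat.lt_one_iff.1 hi
    rw [this]
    have h1 : D (v 0) = 1 := G.D1
    rw [h1]
    exact one_mem _
  have htr1 : Tr (F v 1) (v 1) := by
    refine exp_tr hst (hvne 0) (ham 1) (by rw [hD 1]; exact add_zero _) fun c hc hc0 m hm hDc => ?_
    rw [F_one] at hc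
    obtain ⟨j, hj⟩ := rat1 G.tr G.D1 hc hc0 (C (m : ℂ) * (derivative y * X)) (by
      rw [hDc, ha1, map_mul, map_mul, aeval_X, aeval_C, map_natCast]
      change τ * _ = (m * (_ * τ)) * c
      ring)
    have hm0 : (m : ℂ) ≠ 0 := by exact_mod_cast hm.ne'
    have h1 := congrArg natDegree hj
    rw [natDegree_C, natDegree_C_mul hm0, natDegree_mul_X hy'] at h1
    omega
  have htower : ∀ n < h + 1, Tr (F v n) (v n) := by
    refine tower v 2 (h + 1) one_le_two (fun n hn => ?_) a a' (fun n _ => ham n) (fun n _ => ham' n) (fun n _ => hD n)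
      fun n hn _ ih => ?_
    · interval_cases n
      · exact htr0
      · exact htr1
    · obtain ⟨n, rfl⟩ : ∃ m, n = m + 2 := ⟨n - 2, by omega⟩
      refine ⟨hvne (n + 1), rfl, a (n + 1), 0, ham (n + 1), zero_mem _, fun h0 => ?_, ha2 n⟩
      have h1 := hD (n + 1)
      rw [h0, zero_mul] at h1
      change D (v (n + 1)) = 0 + 0 at h1
      rw [add_zero] at h1
      obtain ⟨c, hc⟩ := G.const _ h1
      have h3 := ih (n + 1) (by omega) (X - C (algebraMap ℂ _ c)) (by
        rw [map_sub, aeval_C, aeval_X]
        change v (n + 1) - algebraMap ℂ E c = 0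
        rw [hc, sub_self])
      exact X_sub_C_ne_zero _ h3
  have hch := chain v (h + 1) htower
  refine G.indep hVo hx0 (fun i => et_an y _ V) ?_
  · let em : Option (Fin h) → Set.Iio (h + 1) := fun o => match o with
      | none => ⟨0, (by omega : 0 < h + 1)⟩
      | some i => ⟨i + 1, by have := i.2; exact (by omega : (i : ℕ) + 1 < h + 1)⟩
    have h6 := AlgebraicIndependent.comp hch em (by
      intro o o' hij
      have h7 := congrArg Subtype.val hij
      rcases o with _ | i <;> rcases o' with _ | j <;> simp only [em] at h7 <;> try rfl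
      all_goals first | omega | skip
      congr 1
      exact Fin.ext (by omega))
    convert h6 using 1
    funext o
    rcases o with _ | i <;> rfl

end Pool.Agent.X255.RH.Tow
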