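import Pool.Agent.X255.RH.Hyp
import Pool.Agent.Y627.KW.EllC

/-!
# Elliptic logarithms, quasi-logarithms and logarithms
-/

set_option autoImplicit false

open Polynomial Filter Topology
open scoped PeriodPair

namespace Pool.Agent.X255.RH

open Pool.Agent.Y890.SP H667R3

/-- the cubic polynomial of a lattice -/
noncomputable def cubic (L : PeriodPair) : ℂ[X] := C 4 * X ^ 3 - C L.g₂ * X - C L.g₃

theorem cubic_eval (L : PeriodPair) (x : ℂ) : (cubic L).eval x = 4 * x ^ 3 - L.g₂ * x - L.g₃ := by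
  simp [cubic]

theorem cubic_degree (L : PeriodPair) : (cubic L).natDegree = 3 := by
  unfold cubic
  compute_degree!

theorem sum_half (L : PeriodPair) : (L.ω₁ + L.ω₂) / 2 ∉ L.lattice := by
  intro h
  apply half_add_half_notMem L
  have : L.ω₁ / 2 + L.ω₂ / 2 = (L.ω₁ + L.ω₂) / 2 := by ring
  rw [this]
  exact h

theorem cubic_sf (L : PeriodPair) : Squarefree (cubic L) := by
  have hω₁ : L.ω₁ / 2 ∉ L.lattice := L.ω₁_div_two_notMem_lattice
  have hω₂ : L.ω₂ / 2 ∉ L.lattice := L.ω₂_div_two_notMem_lattice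
  have hω₃ := sum_half L
  have hroot : ∀ w ∈ L.lattice, w / 2 ∉ L.lattice → (cubic L).eval (℘[L] (w / 2)) = 0 := by
    intro w hw hw2
    rw [cubic_eval, ← L.derivWeierstrassP_sq _ hw2, wp'_half_eq_zero L hw]
    ring
  have h12 : ℘[L] (L.ω₁ / 2) ≠ ℘[L] (L.ω₂ / 2) := by
    intro h
    rcases (wp_eq_iff L hω₁ hω₂).1 h with h | h
    · exact half_add_half_notMem L h
    · exact half_sub_half_notMem L h
  have h13 : ℘[L] (L.ω₁ / 2) ≠ ℘[L] ((L.ω₁ + L.ω₂) / 2) := by
    intro h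
    rcases (wp_eq_iff L hω₁ hω₃).1 h with h | h
    · apply hω₂
      have h2 := sub_mem h L.ω₁_mem_lattice
      have : L.ω₁ / 2 + (L.ω₁ + L.ω₂) / 2 - L.ω₁ = L.ω₂ / 2 := by ring
      rwa [this] at h2
    · apply hω₂
      have h2 := neg_mem h
      have : -(L.ω₁ / 2 - (L.ω₁ + L.ω₂) / 2) = L.ω₂ / 2 := by ring
      rwa [this] at h2
  have h23 : ℘[L] (L.ω₂ / 2) ≠ ℘[L] ((L.ω₁ + L.ω₂) / 2) := by
    intro h
    rcases (wp_eq_iff L hω₂ hω₃).1 h with h | h
    · apply hω₁
      have h2 := sub_mem h L.ω₂_mem_lattice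
      have : L.ω₂ / 2 + (L.ω₁ + L.ω₂) / 2 - L.ω₂ = L.ω₁ / 2 := by ring
      rwa [this] at h2
    · apply hω₁
      have h2 := neg_mem h
      have : -(L.ω₂ / 2 - (L.ω₁ + L.ω₂) / 2) = L.ω₁ / 2 := by ring
      rwa [this] at h2
  have hne : cubic L ≠ 0 := by
    intro h
    have := cubic_degree L
    rw [h, natDegree_zero] at this
    omega
  -- three distinct roots
  have hroots : (cubic L).roots.Nodup := by
    have hsub : ({℘[L] (L.ω₁ / 2), ℘[L] (L.ω₂ / 2), ℘[L] ((L.ω₁ + L.ω₂) / 2)} : Finset ℂ).val ≤ (cubic L).roots := by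
      rw [Finset.val_le_iff_val_subset]
      intro x hx
      rw [mem_roots hne]
      have hx' : x ∈ ({℘[L] (L.ω₁ / 2), ℘[L] (L.ω₂ / 2), ℘[L] ((L.ω₁ + L.ω₂) / 2)} : Finset ℂ) := hx
      simp only [Finset.mem_insert, Finset.mem_singleton] at hx'
      rcases hx' with rfl | rfl | rfl
      · exact hroot _ L.ω₁_mem_lattice hω₁
      · exact hroot _ L.ω₂_mem_lattice hω₂
      · exact hroot _ (add_mem L.ω₁_mem_lattice L.ω₂_mem_lattice) hω₃
    have hcard : ({℘[L] (L.ω₁ / 2), ℘[L] (L.ω₂ / 2), ℘[L] ((L.ω₁ + L.ω₂) / 2)} : Finset ℂ).card = 3 := by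
      rw [Finset.card_insert_of_notMem (by simp [h12, h13]), Finset.card_pair h23]
    have heq := Multiset.eq_of_le_of_card_le hsub (by
      rw [Finset.card_val, hcard, ← cubic_degree L]
      exact (cubic L).card_roots')
    rw [← heq]
    exact Finset.nodup _
  have hsp : (cubic L).Splits := IsAlgClosed.splits _
  exact ((nodup_roots_iff_of_splits hne hsp).1 hroots).squarefree

/-- the functions: `p`, `ζ (p)`, the logarithms -/
noncomputable def fW {r : ℕ} (L : PeriodPair) (p : ℂ → ℂ) (l : Fin r → ℂ → ℂ) : Fin 2 ⊕ Fin r → ℂ → ℂ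
  | Sum.inl i => ![p, fun x => zeta L (p x)] i
  | Sum.inr i => l i

theorem fW_an {V : Set ℂ} {r : ℕ} (L : PeriodPair) (p : ℂ → ℂ) (l : Fin r → ℂ → ℂ) (hp : AnalyticOnNhd ℂ p V)
    (hpL : ∀ x ∈ V, p x ∉ L.lattice) (hl : ∀ i, AnalyticOnNhd ℂ (l i) V) (w : Fin 2 ⊕ Fin r) :
    AnalyticOnNhd ℂ (fW L p l w) V := by
  rcases w with i | i
  · fin_cases i
    · exact hp
    · intro u hu
      show AnalyticAt ℂ (fun x => zeta L (p x)) u
      exact AnalyticAt.comp (((differentiableOn_zeta L).analyticOnNhd (isOpen_compl L)) (p u) (hpL u hu)) (hp u hu)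
  · exact hl i

/-- independence is not changed by constant factors -/
theorem indep_scale {σ : Type} {V : Set ℂ} {f : σ → ℂ → ℂ} (h : Indep V f) (u : σ → ℂ) (hu : ∀ w, u w ≠ 0) :
    Indep V (fun w x => u w * f w x) := by
  intro P hP
  let φ : MvPolynomial σ ℂ[X] →+* MvPolynomial σ ℂ[X] :=
    MvPolynomial.eval₂Hom MvPolynomial.C fun w => MvPolynomial.C (C (u w)) * MvPolynomial.X w
  let ψ : MvPolynomial σ ℂ[X] →+* MvPolynomial σ ℂ[X] :=
    MvPolynomial.eval₂Hom MvPolynomial.C fun w => MvPolynomial.C (C (u w)⁻¹) * MvPolynomial.X w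
  have hψφ : ψ.comp φ = RingHom.id _ := by
    refine MvPolynomial.ringHom_ext (fun a => ?_) fun w => ?_
    · simp [φ, ψ]
    · simp only [φ, ψ, RingHom.comp_apply, MvPolynomial.eval₂Hom_X', map_mul, MvPolynomial.eval₂Hom_C, RingHom.id_apply]
      rw [← mul_assoc, ← MvPolynomial.C_mul, ← C_mul, mul_inv_cancel₀ (hu w), C_1, MvPolynomial.C_1, one_mul]
  have hev : ∀ x, (evH f x).comp φ = evH (fun w x => u w * f w x) x := by
    intro x
    refine MvPolynomial.ringHom_ext (fun a => ?_) fun w => ?_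
    · simp [φ, evH]
    · simp [φ, evH]
  have h1 : φ P = 0 := by
    refine h _ fun x hx => ?_
    have h2 := RingHom.congr_fun (hev x) P
    rw [RingHom.comp_apply, evH_apply, evH_apply] at h2
    rw [h2]
    exact hP x hx
  have h3 := RingHom.congr_fun hψφ P
  rw [RingHom.comp_apply, h1, map_zero, RingHom.id_apply] at h3
  exact h3.symm

theorem fW_indep {V : Set ℂ} (hV : IsPreconnected V) (hVo : IsOpen V) (hne : V.Nonempty) {r : ℕ} (L : PeriodPair)
    (p : ℂ → ℂ) (l : Fin r → ℂ → ℂ) (c : Fin r → ℂ) (hc : Function.Injective c) (hp : AnalyticOnNhd ℂ p V)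
    (hpL : ∀ x ∈ V, p x ∉ L.lattice) (hpx : ∀ x ∈ V, ℘[L] (p x) = x) (hl : ∀ i, AnalyticOnNhd ℂ (l i) V)
    (hlx : ∀ i, ∀ x ∈ V, Complex.exp (l i x) = x - c i) : Indep V (fW L p l) := by
  classical
  have hderiv : ∀ x ∈ V, HasDerivAt p (deriv p x) x := fun x hx => (hp x hx).differentiableAt.hasDerivAt
  have hS : AnalyticOnNhd ℂ (fun x => ℘'[L] (p x)) V := by
    intro u hu
    have h1 : AnalyticOnNhd ℂ ℘'[L] (L.lattice : Set ℂ)ᶜ :=
      L.differentiableOn_derivWeierstrassP.analyticOnNhd (isOpen_compl L)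
    have h2 : AnalyticAt ℂ (℘'[L] ∘ p) u := AnalyticAt.comp (h1 (p u) (hpL u hu)) (hp u hu)
    exact h2
  have hp1 : ∀ x ∈ V, deriv p x * ℘'[L] (p x) = 1 := by
    intro x hx
    have h1 := (hasDerivAt_weierstrassP L (hpL x hx)).comp x (hderiv x hx)
    have h2 : HasDerivAt (℘[L] ∘ p) 1 x := by
      refine (hasDerivAt_id x).congr_of_eventuallyEq ?_
      filter_upwards [hVo.mem_nhds hx] with y hy
      exact hpx y hy
    rw [mul_comm]
    exact h1.unique h2
  have hmain := hy_indep hV hVo hne (cubic L) (cubic_sf L) (fun x => ℘'[L] (p x)) hS (fun x hx => by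
      rw [L.derivWeierstrassP_sq _ (hpL x hx), hpx x hx, cubic_eval]) (k := 2) (r := r) (by rw [cubic_degree]) c hc
    (fun w x => (Sum.elim ![1, -1] (fun _ => 1) w : ℂ) * fW L p l w x) ?_ ?_ ?_
  · have h1 := indep_scale hmain (Sum.elim ![1, -1] fun _ => 1) (by
      rintro (i | i)
      · fin_cases i
        · exact one_ne_zero
        · exact neg_ne_zero.2 one_ne_zero
      · exact one_ne_zero)
    have h2 : (fun w x => (Sum.elim ![1, -1] (fun _ => 1) w : ℂ) * ((Sum.elim ![1, -1] (fun _ => 1) w : ℂ) * fW L p l w x)) =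
        fW L p l := by
      funext w x
      rcases w with i | i
      · fin_cases i
        · simp
        · simp
      · simp
    rwa [h2] at h1
  · intro w
    exact fun x hx => analyticAt_const.mul (fW_an L p l hp hpL hl w x hx)
  · intro i x hx
    fin_cases i
    · have h1 : (fun x => (Sum.elim ![1, -1] (fun _ => 1) (Sum.inl (0 : Fin 2) : Fin 2 ⊕ Fin r) : ℂ) *
          fW L p l (Sum.inl 0) x) = p := by
        funext y
        simp [fW]
      show deriv (fun x => (Sum.elim ![1, -1] (fun _ => 1) (Sum.inl (0 : Fin 2) : Fin 2 ⊕ Fin r) : ℂ) *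
          fW L p l (Sum.inl 0) x) x * _ = _
      rw [h1, hp1 x hx]
      simp
    · have h1 : (fun x => (Sum.elim ![1, -1] (fun _ => 1) (Sum.inl (1 : Fin 2) : Fin 2 ⊕ Fin r) : ℂ) *
          fW L p l (Sum.inl 1) x) = fun x => -zeta L (p x) := by
        funext y
        simp [fW]
      show deriv (fun x => (Sum.elim ![1, -1] (fun _ => 1) (Sum.inl (1 : Fin 2) : Fin 2 ⊕ Fin r) : ℂ) *
          fW L p l (Sum.inl 1) x) x * _ = _
      have h2 : HasDerivAt (fun x => -zeta L (p x)) (-(-℘[L] (p x) * deriv p x)) x :=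
        ((hasDerivAt_zeta L (hpL x hx)).comp x (hderiv x hx)).neg
      rw [h1, h2.deriv, hpx x hx]
      have h3 := hp1 x hx
      simp only [Fin.mk_one, Fin.isValue, Fin.val_one, pow_one]
      linear_combination x * h3
  · intro i x hx
    have h1 : (fun x => (Sum.elim ![1, -1] (fun _ => 1) (Sum.inr i : Fin 2 ⊕ Fin r) : ℂ) * fW L p l (Sum.inr i) x) = l i := by
      funext y
      simp [fW]
    rw [h1]
    have h2 := ((hl i x hx).differentiableAt.hasDerivAt).cexp
    have h3 : HasDerivAt (fun y => Complex.exp (l i y)) 1 x := by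
      have h4 : HasDerivAt (fun y : ℂ => y - c i) 1 x := (hasDerivAt_id x).sub_const _
      refine h4.congr_of_eventuallyEq ?_
      filter_upwards [hVo.mem_nhds hx] with y hy
      exact hlx i y hy
    have h4 := h2.unique h3
    rw [hlx i x hx] at h4
    rw [mul_comm]
    exact h4

end Pool.Agent.X255.RH
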