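import Pool.Agent.X255.RH.Tow7

/-!
# Exponentials of polynomials in logarithms: functions
-/

set_option autoImplicit false
set_option linter.unusedSectionVars false

open Polynomial Filter Topology

namespace Pool.Agent.X255.RH.Tow

open Pool.Agent.Y890.SP

namespace Germ

variable {x0 : ℂ} {E : Type} [Field E] [Algebra ℂ E] {D : Derivation ℂ E E} {T : (ℂ → ℂ) → E} (G : Germ x0 D T)
include G

theorem hev {V : Set ℂ} (hx0 : x0 ∈ V) {κ : Type} {f : κ → ℂ → ℂ} (hf : ∀ i, AnalyticOnNhd ℂ (f i) V)
    (Q : MvPolynomial (Option κ) ℂ) :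
    MvPolynomial.aeval (fun o : Option κ => o.elim (T fun s => s) fun i => T (f i)) Q =
      T (fun s => evF f s (MvPolynomial.optionEquivRight ℂ κ Q)) := by
  have hid : AnalyticAt ℂ (fun s : ℂ => s) x0 := analyticAt_id
  induction Q using MvPolynomial.induction_on with
  | C a =>
    rw [MvPolynomial.algHom_C, MvPolynomial.optionEquivRight_C, ← G.cst]
    congr 1
    funext s
    simp [evF]
  | add p q hp hq =>
    have h1 : (fun s => evF f s (MvPolynomial.optionEquivRight ℂ κ (p + q))) =
        fun s => evF f s (MvPolynomial.optionEquivRight ℂ κ p) + evF f s (MvPolynomial.optionEquivRight ℂ κ q) := by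
      funext s
      simp [evF]
    rw [map_add, hp, hq, h1, G.add _ _ (evF_an hf _ x0 hx0) (evF_an hf _ x0 hx0)]
  | mul_X p i hp =>
    rcases i with _ | i
    · have h1 : (fun s => evF f s (MvPolynomial.optionEquivRight ℂ κ (p * MvPolynomial.X none))) =
          fun s => evF f s (MvPolynomial.optionEquivRight ℂ κ p) * s := by
        funext s
        rw [map_mul, MvPolynomial.optionEquivRight_X_none]
        simp [evF]
      rw [map_mul, hp, h1, G.mul _ _ (evF_an hf _ x0 hx0) hid, MvPolynomial.aeval_X]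
      rfl
    · have h1 : (fun s => evF f s (MvPolynomial.optionEquivRight ℂ κ (p * MvPolynomial.X (some i)))) =
          fun s => evF f s (MvPolynomial.optionEquivRight ℂ κ p) * f i s := by
        funext s
        rw [map_mul, MvPolynomial.optionEquivRight_X_some]
        simp [evF]
      rw [map_mul, hp, h1, G.mul _ _ (evF_an hf _ x0 hx0) (hf i x0 hx0), MvPolynomial.aeval_X]
      rfl

theorem of_indep {V : Set ℂ} (hVc : IsPreconnected V) (hx0 : x0 ∈ V) {κ : Type} {f : κ → ℂ → ℂ}
    (hf : ∀ i, AnalyticOnNhd ℂ (f i) V) (h : Indep V f) :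
    AlgebraicIndependent ℂ (fun o : Option κ => o.elim (T fun s => s) fun i => T (f i)) := by
  rw [algebraicIndependent_iff]
  intro Q hQ
  rw [G.hev hx0 hf] at hQ
  have h1 := G.zero _ (evF_an hf _ x0 hx0) hQ
  have h2 := (evF_an hf (MvPolynomial.optionEquivRight ℂ κ Q)).eqOn_zero_of_preconnected_of_eventuallyEq_zero hVc hx0 h1
  have h3 := h _ fun x hx => h2 hx
  exact (EmbeddingLike.map_eq_zero_iff).1 h3

theorem mv {ι : Type} {f : ι → ℂ → ℂ} (hf : ∀ i, AnalyticAt ℂ (f i) x0) (Q : MvPolynomial ι ℂ) :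
    AnalyticAt ℂ (fun x => MvPolynomial.eval (fun i => f i x) Q) x0 ∧
      T (fun x => MvPolynomial.eval (fun i => f i x) Q) = MvPolynomial.aeval (fun i => T (f i)) Q := by
  induction Q using MvPolynomial.induction_on with
  | C a =>
    simp only [MvPolynomial.eval_C]
    exact ⟨analyticAt_const, by rw [G.cst, MvPolynomial.algHom_C]⟩
  | add p q hp hq =>
    simp only [map_add]
    exact ⟨hp.1.add hq.1, by rw [G.add _ _ hp.1 hq.1, hp.2, hq.2]⟩
  | mul_X p i hp =>
    simp only [map_mul, MvPolynomial.eval_X, MvPolynomial.aeval_X]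
    exact ⟨hp.1.mul (hf i), by rw [G.mul _ _ hp.1 (hf i), hp.2]⟩

end Germ

theorem mv_an {V : Set ℂ} {ι : Type} {f : ι → ℂ → ℂ} (hf : ∀ i, AnalyticOnNhd ℂ (f i) V) (Q : MvPolynomial ι ℂ) :
    AnalyticOnNhd ℂ (fun x => MvPolynomial.eval (fun i => f i x) Q) V := by
  intro x hx
  obtain ⟨E, _, _, D, T, G⟩ := germ x
  exact (G.mv (fun i => hf i x hx) Q).1

theorem lin_indep {r : ℕ} (c : Fin r → ℂ) (hc : Function.Injective c) (m n : Fin r → ℕ) (κ : ℂ)
    (h : ∏ j, (X - C (c j)) ^ m j * (1 : ℂ[X]) ^ n j = C κ * ∏ j, (X - C (c j)) ^ n j * (1 : ℂ[X]) ^ m j) : m = n := by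
  classical
  simp only [one_pow, mul_one] at h
  have hne : ∀ m : Fin r → ℕ, ∏ j, (X - C (c j)) ^ m j ≠ 0 := fun m =>
    Finset.prod_ne_zero_iff.2 fun j _ => pow_ne_zero _ (X_sub_C_ne_zero _)
  have hκ : κ ≠ 0 := by
    rintro rfl
    rw [map_zero, zero_mul] at h
    exact hne m h
  have hcount : ∀ (m : Fin r → ℕ) (i : Fin r), (∏ j, (X - C (c j)) ^ m j).roots.count (c i) = m i := by
    intro m i
    rw [roots_prod _ _ (hne m)]
    simp only [roots_pow, roots_X_sub_C]
    rw [Multiset.count_bind]
    simp only [Multiset.count_nsmul, Multiset.count_singleton]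
    have h1 : ∀ j, m j * (if c i = c j then 1 else 0) = if i = j then m j else 0 := by
      intro j
      by_cases hij : i = j
      · rw [if_pos (by rw [hij]), if_pos hij, mul_one]
      · rw [if_neg fun h => hij (hc h), if_neg hij, mul_zero]
    simp only [h1]
    change ∑ j, (if i = j then m j else 0) = m i
    rw [Finset.sum_ite_eq, if_pos (Finset.mem_univ _)]
  funext i
  rw [← hcount m i, h, roots_C_mul _ hκ, hcount n i]

/-- **Logarithms and exponentials of polynomials in logarithms.** -/
theorem loge_indep {V : Set ℂ} (hVc : IsPreconnected V) (hVo : IsOpen V) (hne : V.Nonempty) {r : ℕ} (c : Fin r → ℂ)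
    (hc : Function.Injective c) (l : Fin r → ℂ → ℂ) (hl : ∀ j, AnalyticOnNhd ℂ (l j) V)
    (hexp : ∀ j, ∀ x ∈ V, Complex.exp (l j x) = x - c j) {J : Type} [Fintype J]
    (S : J → MvPolynomial (Option (Fin r)) ℂ)
    (hind : ∀ n : J → ℤ, n ≠ 0 → ∀ (c0 : ℂ) (k : Fin r → ℤ), ∑ i, MvPolynomial.C (n i : ℂ) * S i ≠
      MvPolynomial.C c0 + ∑ j, MvPolynomial.C (k j : ℂ) * MvPolynomial.X (some j)) :
    Indep V (fun (o : Fin r ⊕ J) x => Sum.elim (fun j => l j x)
      (fun i => Complex.exp (MvPolynomial.eval (fun o : Option (Fin r) => o.elim x fun j => l j x) (S i))) o) := by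
  classical
  obtain ⟨x0, hx0⟩ := hne
  obtain ⟨E, _, _, D, T, G⟩ := germ x0
  haveI : CharZero E := charZero_of_injective_algebraMap (algebraMap ℂ E).injective
  have hid : AnalyticAt ℂ (fun s : ℂ => s) x0 := analyticAt_id
  have hli : Indep V l := by
    refine logR_indep hVc hVo ⟨x0, hx0⟩ (fun j => X - C (c j)) (fun _ => 1) (fun j => X_sub_C_ne_zero _)
      (fun _ => one_ne_zero) (fun m n κ h => lin_indep c hc m n κ h) l hl fun j x hx => ?_
    rw [hexp j x hx]
    simp
  have hAI := G.of_indep hVc hx0 hl hli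
  set v : ℕ → E := fun n => match n with
    | 0 => T fun s => s
    | n + 1 => if h : n < r then T (l ⟨n, h⟩) else 0 with hv
  have hv0 : v 0 = T fun s => s := rfl
  have hvj : ∀ (n : ℕ) (h : n < r), v (n + 1) = T (l ⟨n, h⟩) := fun n h => dif_pos h
  have hfun : ∀ o : Option (Fin r), (o.elim (T fun s => s) fun i => T (l i)) = v (o.elim 0 fun i => (i : ℕ) + 1) := by
    rintro (_ | i)
    · rfl
    · exact (hvj i i.2).symm
  have hchain : AlgebraicIndepOn ℂ v (Set.Iio (r + 1)) := by
    let em : Set.Iio (r + 1) → Option (Fin r) := fun i => if h : 0 < (i : ℕ) then some ⟨(i : ℕ) - 1, by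
      have := i.2
      have h1 : (i : ℕ) < r + 1 := this
      omega⟩ else none
    have hem : ∀ i : Set.Iio (r + 1), ((em i).elim 0 fun i => (i : ℕ) + 1) = (i : ℕ) := by
      intro i
      by_cases h : 0 < (i : ℕ)
      · simp only [em, dif_pos h, Option.elim]
        omega
      · simp only [em, dif_neg h, Option.elim]
        omega
    have h1 := hAI.comp em (fun i j hij => Subtype.ext (by rw [← hem i, ← hem j, hij]))
    change AlgebraicIndependent ℂ fun i : Set.Iio (r + 1) => v i
    convert h1 using 1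
    funext i
    rw [Function.comp_apply, hfun, hem i]
  have htr : ∀ n ≤ r, Tr (F v n) (v n) := fun n hn => tr_of_indep hchain (Nat.lt_succ_of_le hn)
  let cN : ℕ → ℂ := fun n => if h : n < r then c ⟨n, h⟩ else 0
  have hcN : ∀ (n : ℕ) (h : n < r), cN n = c ⟨n, h⟩ := fun n h => dif_pos h
  have hDl : ∀ j < r, D (v (j + 1)) = (v 0 - algebraMap ℂ E (cN j))⁻¹ := by
    intro j hj
    have hne0 : v 0 - algebraMap ℂ E (cN j) ≠ 0 := by
      intro h1
      have h2 := G.tr (X - C (cN j)) (by rw [map_sub, aeval_X, aeval_C]; exact h1)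
      exact X_sub_C_ne_zero _ h2
    apply mul_right_cancel₀ hne0
    have hlj := hl ⟨j, hj⟩
    have hsub : T (fun s => s + -(c ⟨j, hj⟩)) = v 0 - algebraMap ℂ E (cN j) := by
      rw [G.add (fun s => s) (fun _ => -(c ⟨j, hj⟩)) hid analyticAt_const, G.cst, map_neg, ← sub_eq_add_neg, hcN j hj]
    have hidc : AnalyticAt ℂ (fun s : ℂ => s + -(c ⟨j, hj⟩)) x0 := hid.add analyticAt_const
    rw [inv_mul_cancel₀ hne0, hvj j hj, ← G.der _ (hlj x0 hx0), ← hsub, ← G.mul _ _ (hlj x0 hx0).deriv hidc,
      ← map_one (algebraMap ℂ E), ← G.cst 1]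
    refine G.congr _ _ ?_
    filter_upwards [hVo.mem_nhds hx0] with x hx
    have h1 : HasDerivAt (l ⟨j, hj⟩) (deriv (l ⟨j, hj⟩) x) x := (hlj x hx).differentiableAt.hasDerivAt
    have h2 : HasDerivAt (fun x => Complex.exp (l ⟨j, hj⟩ x)) 1 x := by
      refine ((hasDerivAt_id x).sub_const (c ⟨j, hj⟩)).congr_of_eventuallyEq ?_
      filter_upwards [hVo.mem_nhds hx] with y hy using hexp _ y hy
    have h3 := h1.cexp.unique h2
    rw [hexp _ x hx] at h3
    rw [mul_comm, ← sub_eq_add_neg]
    exact h3
  have hst : Stab D (F v (r + 1)) := by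
    refine stab_adjoin ?_
    rintro _ ⟨i, hi, rfl⟩
    have hi' : i < r + 1 := hi
    rcases i with _ | i
    · rw [hv0, G.D1]
      exact one_mem _
    · rw [hDl i (by omega)]
      exact inv_mem (sub_mem (mem_F v (Nat.succ_pos r)) (IntermediateField.algebraMap_mem _ _))
  -- the exponents
  let g : Option (Fin r) → ℂ → ℂ := fun o => o.elim (fun s => s) l
  have hg : ∀ o, AnalyticOnNhd ℂ (g o) V := by
    rintro (_ | j)
    · exact fun x _ => analyticAt_id
    · exact hl j
  have hgT : (fun o => T (g o)) = fun o : Option (Fin r) => o.elim (T fun s => s) fun i => T (l i) := by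
    funext o
    rcases o with _ | j <;> rfl
  have hfg : ∀ (i : J), (fun x => MvPolynomial.eval (fun o : Option (Fin r) => o.elim x fun j => l j x) (S i)) =
      fun x => MvPolynomial.eval (fun o => g o x) (S i) := by
    intro i
    funext x
    congr 2
    funext o
    rcases o with _ | j <;> rfl
  have hsan : ∀ i, AnalyticOnNhd ℂ (fun x => MvPolynomial.eval (fun o : Option (Fin r) => o.elim x fun j => l j x) (S i)) V := by
    intro i
    rw [hfg]
    exact mv_an hg (S i)
  set σ : MvPolynomial (Option (Fin r)) ℂ → E := fun Q =>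
    MvPolynomial.aeval (fun o : Option (Fin r) => o.elim (T fun s => s) fun i => T (l i)) Q with hσ
  have hsT : ∀ i, T (fun x => MvPolynomial.eval (fun o : Option (Fin r) => o.elim x fun j => l j x) (S i)) = σ (S i) := by
    intro i
    rw [hfg, (G.mv (fun o => hg o x0 hx0) (S i)).2, hσ, hgT]
  have hσB : ∀ Q, σ Q ∈ Bn v (r + 1) := by
    intro Q
    have h1 : ∀ o : Option (Fin r), (o.elim (T fun s => s) fun i => T (l i)) ∈ Bn v (r + 1) := by
      intro o
      rw [hfun]
      refine Algebra.subset_adjoin ⟨_, ?_, rfl⟩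
      rcases o with _ | i
      · exact Nat.succ_pos r
      · exact Nat.succ_lt_succ i.2
    induction Q using MvPolynomial.induction_on with
    | C a =>
      simp only [σ, MvPolynomial.algHom_C]
      exact Subalgebra.algebraMap_mem _ _
    | add p q hp hq =>
      simp only [σ, map_add]
      exact add_mem hp hq
    | mul_X p i hp =>
      simp only [σ, map_mul, MvPolynomial.aeval_X]
      exact mul_mem hp (h1 i)
  have hexpI : AlgebraicIndependent (F v (r + 1)) (fun i : J => T fun x => Complex.exp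
      (MvPolynomial.eval (fun o : Option (Fin r) => o.elim x fun j => l j x) (S i))) := by
    refine expI hst _ (fun i => D (σ (S i))) (fun i => G.ne (hsan i x0 hx0).cexp (Complex.exp_ne_zero _))
      (fun i => hst _ (Bn_le v _ (hσB _))) (fun i => ?_) ?_
    · rw [G.dexp (hsan i x0 hx0), hsT]
    · intro n hn z hz hz0 hDz
      have hsum : ∑ i, (n i : E) * D (σ (S i)) = D (σ (∑ i, MvPolynomial.C (n i : ℂ) * S i)) := by
        simp only [σ]
        rw [map_sum, map_sum]
        refine Finset.sum_congr rfl fun i _ => ?_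
        rw [map_mul, MvPolynomial.algHom_C, map_intCast, D_intCast_mul]
      rw [hsum] at hDz
      obtain ⟨c0, k, hk, _⟩ := logtower G.const (r := r) cN (fun i hi j hj hij => by
        rw [hcN i hi, hcN j hj] at hij
        exact congrArg Fin.val (hc hij)) G.tr G.D1 hDl htr r le_rfl _ (hσB _) (fun _ => 0) z hz hz0 (by
        rw [Finset.Ico_self, Finset.sum_empty, add_zero]
        exact hDz)
      have h1 : σ (∑ i, MvPolynomial.C (n i : ℂ) * S i) =
          σ (MvPolynomial.C c0 + ∑ j : Fin r, MvPolynomial.C (k j : ℂ) * MvPolynomial.X (some j)) := by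
        rw [hk]
        simp only [σ]
        rw [map_add, map_sum, MvPolynomial.algHom_C, Finset.sum_range]
        congr 1
        refine Finset.sum_congr rfl fun j _ => ?_
        rw [map_mul, MvPolynomial.algHom_C, map_intCast, MvPolynomial.aeval_X, hvj j j.2]
        rfl
      have h2 : σ (∑ i, MvPolynomial.C (n i : ℂ) * S i -
          (MvPolynomial.C c0 + ∑ j : Fin r, MvPolynomial.C (k j : ℂ) * MvPolynomial.X (some j))) = 0 := by
        simp only [σ] at h1 ⊢
        rw [map_sub, h1, sub_self]
      exact hind n hn c0 (fun j => k j) (sub_eq_zero.1 (hAI.eq_zero_of_aeval_eq_zero _ h2))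
  refine G.indep hVo hx0 (fun o => ?_) ?_
  · rcases o with j | i
    · exact hl j
    · exact fun x hx => (hsan i x hx).cexp
  · have h5 : AlgebraicIndependent ℂ (Sum.elim (fun i : J => T fun x => Complex.exp
        (MvPolynomial.eval (fun o : Option (Fin r) => o.elim x fun j => l j x) (S i))) fun i : Set.Iio (r + 1) => v i) := by
      refine AlgebraicIndependent.sumElim_of_tower (S := F v (r + 1)) hchain ?_ hexpI
      rintro _ ⟨i, rfl⟩
      exact ⟨⟨v i, mem_F v i.2⟩, rfl⟩
    let em : Option (Fin r ⊕ J) → J ⊕ Set.Iio (r + 1) := fun o => match o with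
      | none => Sum.inr ⟨0, Nat.succ_pos r⟩
      | some (Sum.inl j) => Sum.inr ⟨j + 1, Nat.succ_lt_succ j.2⟩
      | some (Sum.inr i) => Sum.inl i
    have h6 := h5.comp em (by
      rintro (_ | j | i) (_ | j' | i') hij
      · rfl
      · exact absurd (congrArg Subtype.val (Sum.inr_injective hij)) (by simp)
      · exact absurd hij (by simp [em])
      · exact absurd (congrArg Subtype.val (Sum.inr_injective hij)) (by simp)
      · have h7 := congrArg Subtype.val (Sum.inr_injective hij)
        simp only [Nat.add_right_cancel_iff] at h7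
        rw [Fin.ext h7]
      · exact absurd hij (by simp [em])
      · exact absurd hij (by simp [em])
      · exact absurd hij (by simp [em])
      · rw [Sum.inl_injective hij])
    convert h6 using 1
    funext o
    rcases o with _ | j | i
    · rfl
    · exact (hvj j j.2).symm
    · rfl

end Pool.Agent.X255.RH.Tow
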