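import Pool.Agent.X255.RH.Cone
import Pool.Agent.X255.RH.LogR

/-!
# Polynomials in the values at all roots
-/

set_option autoImplicit false
set_option linter.unusedSectionVars false

open Polynomial Filter Topology NumberField

namespace Pool.Agent.X255.RH

open Pool.Agent.Y890.SP Pool.Agent.X255.NP
open Pool.Agent.Y124 (Cov eval_eq_box sV sV_inj exists_sV')

variable {σ : Type} [Fintype σ] [DecidableEq σ] {V : Set ℂ} {f : σ → ℂ → ℂ} {g : ℕ}

open scoped Classical in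
theorem mea_of_inn (hg : 0 < g) (hV : IsPreconnected V) (hVo : IsOpen V) {K : Set ℂ}
    (hinn' : ∀ δ : ℝ, 0 < δ → ∃ (R η : ℝ) (T₀ : ℕ), 0 < η ∧ ∀ T, T₀ ≤ T →
      (((bx g T).filter fun a => ¬ Inn K V R η a).card : ℝ) ≤ δ * (bx g T).card)
    (hf : ∀ v, AnalyticOnNhd ℂ (f v) V) (h : Indep V f) (k : ℕ) (hk : 1 ≤ k) :
    ∃ (B : ℝ) (T₀ : ℕ), ∀ T, T₀ ≤ T → ∀ ξ : ℕ → ℂ,
      (k : ℝ) * ((bx g T).filter fun a => ¬ GoodM K f ξ k B T a).card ≤ (bx g T).card := by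
  have hk' : (1 : ℝ) ≤ k := by exact_mod_cast hk
  obtain ⟨R, η, T₁, hη, hinn⟩ := hinn' (1 / (2 * k)) (by positivity)
  obtain ⟨D, B, C, T₂, hC, hT₂, HH⟩ := excMR_cov hg hV hVo hf h K R η hη k (1 / 2) (by norm_num)
  refine ⟨B, max (max 1 T₁) (max ⌈T₂⌉₊ ⌈(2 * k * (C * D * 3 ^ g)) ^ 2⌉₊), fun T hT ξ => ?_⟩
  simp only [max_le_iff] at hT
  obtain ⟨⟨hT1, hTa⟩, hTb, hTc⟩ := hT
  have hTr : (1 : ℝ) ≤ T := by exact_mod_cast hT1
  have hTp : (0 : ℝ) < T := by linarith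
  have hTb' : T₂ ≤ T := Nat.ceil_le.1 hTb
  have hTc' : (2 * k * (C * D * 3 ^ g)) ^ 2 ≤ (T : ℝ) := Nat.ceil_le.1 hTc
  obtain ⟨h7, h8⟩ := count_of_cov hg (ExcMR (g := g) K V f R η ξ k B T) hTr (by
    rintro a ⟨ha, hi, _⟩
    exact ⟨ha, hi.lead⟩) (HH T hTb' ξ)
  have hsub : ((bx g T).filter fun a => ¬ GoodM K f ξ k B T a) ⊆ ((bx g T).filter fun a => ¬ Inn K V R η a) ∪ h7.toFinset := by
    intro a ha
    rw [Finset.mem_filter] at ha
    rw [Finset.mem_union, Finset.mem_filter, Set.Finite.mem_toFinset]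
    by_cases hi : Inn K V R η a
    · right
      refine ⟨fun i => by exact_mod_cast mem_bx.1 ha.1 i, hi, fun hno => ha.2 ⟨hi.lead, hi.sep hη, hno⟩⟩
    · exact Or.inl ⟨ha.1, hi⟩
  have h1 := (Finset.card_le_card hsub).trans (Finset.card_union_le _ _)
  rw [← Set.ncard_eq_toFinset_card _ h7] at h1
  have h2 : (((bx g T).filter fun a => ¬ GoodM K f ξ k B T a).card : ℝ) ≤
      ((bx g T).filter fun a => ¬ Inn K V R η a).card + (ExcMR (g := g) K V f R η ξ k B T).ncard := by exact_mod_cast h1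
  have h3 := hinn T hTa
  set Bx : ℝ := ((bx g T).card : ℝ) with hBx
  have hBx0 : 0 ≤ Bx := Nat.cast_nonneg _
  -- the second part
  have h4 : 2 * k * ((ExcMR (g := g) K V f R η ξ k B T).ncard : ℝ) ≤ Bx := by
    have hsq : ((T : ℝ)) ^ (1 / 2 : ℝ) = √T := by rw [Real.sqrt_eq_rpow]
    rw [hsq] at h8
    have hs : 2 * k * (C * D * 3 ^ g) ≤ √(T : ℝ) := Real.le_sqrt_of_sq_le hTc'
    have hfl : ((⌊C * √(T : ℝ)⌋₊ : ℕ) : ℝ) ≤ C * √T := Nat.floor_le (by positivity)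
    have hTT : √(T : ℝ) * √T = T := Real.mul_self_sqrt (by positivity)
    calc 2 * k * ((ExcMR (g := g) K V f R η ξ k B T).ncard : ℝ)
        ≤ 2 * k * ((⌊C * √(T : ℝ)⌋₊ : ℝ) * D * (3 * T) ^ g) := mul_le_mul_of_nonneg_left h8 (by positivity)
      _ ≤ 2 * k * ((C * √T) * D * (3 * T) ^ g) := by gcongr
      _ = (2 * k * (C * D * 3 ^ g)) * (√T * T ^ g) := by rw [mul_pow]; ring
      _ ≤ √T * (√T * T ^ g) := mul_le_mul_of_nonneg_right hs (by positivity)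
      _ = T ^ (g + 1) := by rw [← mul_assoc, hTT, pow_succ]; ring
      _ ≤ (2 * (T : ℝ) + 1) ^ (g + 1) := pow_le_pow_left₀ (by positivity) (by linarith) _
      _ = Bx := by rw [hBx, bx_card]
  have h5 : (k : ℝ) * (1 / (2 * k) * Bx) = Bx / 2 := by
    field_simp
  nlinarith


open scoped Classical in
theorem mea_cut (hg : 0 < g) {S : Finset ℂ} {δ : ℝ} (hδ : 0 < δ) {d : ℂ} (hd : ‖d‖ = 1)
    (hf : ∀ v, AnalyticOnNhd ℂ (f v) (Cut S d)) (h : Indep (Cut S d) f) (k : ℕ) (hk : 1 ≤ k) :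
    ∃ (B : ℝ) (T₀ : ℕ), ∀ T, T₀ ≤ T → ∀ ξ : ℕ → ℂ,
      (k : ℝ) * ((bx g T).filter fun a => ¬ GoodM (Adm S δ d) f ξ k B T a).card ≤ (bx g T).card := by
  have hd0 : d ≠ 0 := by
    intro h0
    rw [h0, norm_zero] at hd
    exact zero_ne_one hd
  refine mea_of_inn hg (cut_pc S hd0) (cut_open S d) (fun ε hε => ?_) hf h k hk
  obtain ⟨R, η, T₀, hη, H⟩ := inn_count hg (tame_univ_compl S) hε
  refine ⟨R, min η (δ / 2 * η), T₀, lt_min hη (by positivity), fun T hT => le_trans ?_ (H T hT)⟩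
  refine Nat.cast_le.2 (Finset.card_le_card fun a ha => ?_)
  rw [Finset.mem_filter] at ha ⊢
  exact ⟨ha.1, fun hi => ha.2 (inn_cut hδ hd hi)⟩

/-- all roots are in the cut plane and the values of the functions at the roots satisfy the lower bounds -/
def AllGood (S : Finset ℂ) (f : ℕ → σ → ℂ → ℂ) (m : ℕ) (ξ : ℕ → ℂ) (K : ℕ) (T : ℝ) (a : Fin (g + 1) → ℤ) : Prop :=
  ∃ (z : Fin g → ℂ) (B : ℝ), IsRoots a z ∧ Function.Injective z ∧ (∀ i, z i ∈ Cut S (dir m)) ∧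
    Mea ξ K B T fun q : Fin g × σ => f m q.2 (z q.1)

theorem adm_cut {S : Finset ℂ} {δ : ℝ} (hδ : 0 < δ) {d : ℂ} (hd : ‖d‖ = 1) {z : ℂ} (hz : z ∈ Adm S δ d) (hzS : z ∉ S) :
    z ∈ Cut S d := by
  have hd0 : d ≠ 0 := by
    intro h0
    rw [h0, norm_zero] at hd
    exact zero_ne_one hd
  by_contra hcon
  obtain ⟨c, hc, t, ht, h1⟩ := of_not_cut hd0 hcon
  have h2 := out_dist hd (hz c hc) ht
  rw [← h1, sub_self, norm_zero] at h2
  have h3 : 0 < ‖z - c‖ := norm_pos_iff.2 (sub_ne_zero.2 fun h => hzS (h ▸ hc))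
  have : 0 < δ / 2 * ‖z - c‖ := by positivity
  linarith

open scoped Classical in
/-- **Almost all polynomials, all roots.** -/
theorem all_cut (hg : 0 < g) (S : Finset ℂ) (f : ℕ → σ → ℂ → ℂ)
    (hf : ∀ m v, AnalyticOnNhd ℂ (f m v) (Cut S (dir m))) (h : ∀ m, Indep (Cut S (dir m)) (f m)) (k : ℕ) :
    ∃ K : ℕ, k ≤ K ∧ 1 ≤ K ∧ ∃ T₀ : ℕ, ∀ T : ℕ, T₀ ≤ T → ∀ ξ : ℕ → ℂ,
      (k : ℝ) * ((bx g T).filter fun a => ¬ ∃ m < g * S.card + 1, AllGood S f m ξ K T a).card ≤ (bx g T).card := by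
  set M : ℕ := g * S.card + 1 with hM
  obtain ⟨δ, hδ, hsep⟩ := exists_sep M
  set K : ℕ := (k + 1) * (M + 1) with hK
  have hK1 : 1 ≤ K := Nat.mul_pos (Nat.succ_pos _) (Nat.succ_pos _)
  have hkK : k ≤ K := by nlinarith [Nat.zero_le k, Nat.zero_le M]
  have hKr : (0 : ℝ) < K := by exact_mod_cast hK1
  have hm : ∀ m, ∃ (B : ℝ) (T₀ : ℕ), ∀ T, T₀ ≤ T → ∀ ξ : ℕ → ℂ,
      (K : ℝ) * ((bx g T).filter fun a => ¬ GoodM (Adm S δ (dir m)) (f m) ξ K B T a).card ≤ (bx g T).card :=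
    fun m => mea_cut hg hδ (dir_norm m) (hf m) (h m) K hK1
  choose B T₁ hB using hm
  obtain ⟨R, η, T₂, hη, hinn⟩ := inn_count (g := g) hg (tame_univ_compl S) (δ := 1 / (K : ℝ)) (by positivity)
  refine ⟨K, hkK, hK1, max T₂ ((Finset.range M).sup T₁), fun T hT ξ => ?_⟩
  have hT2 : T₂ ≤ T := (le_max_left _ _).trans hT
  have hT1 : ∀ m < M, T₁ m ≤ T := fun m hm =>
    (Finset.le_sup (f := T₁) (Finset.mem_range.2 hm)).trans ((le_max_right _ _).trans hT)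
  have hsub : ((bx g T).filter fun a => ¬ ∃ m < M, AllGood S f m ξ K T a) ⊆
      ((bx g T).filter fun a => ¬ Inn Set.univ ((S : Set ℂ)ᶜ) R η a) ∪
      (Finset.range M).biUnion fun m => (bx g T).filter fun a => ¬ GoodM (Adm S δ (dir m)) (f m) ξ K (B m) T a := by
    intro a ha
    rw [Finset.mem_filter] at ha
    rw [Finset.mem_union]
    by_cases hi : Inn Set.univ ((S : Set ℂ)ᶜ) R η a
    swap
    · exact Or.inl (Finset.mem_filter.2 ⟨ha.1, hi⟩)
    right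
    obtain ⟨z, hz, h1, h2, h3⟩ := hi
    have hinj : Function.Injective z := by
      intro i j hij
      by_contra hne
      have h4 := h2 i j hne
      rw [hij, sub_self, norm_zero] at h4
      linarith
    have hzS : ∀ i, z i ∉ S := fun i hi => h3 i (Set.mem_univ _) (Metric.mem_ball_self hη) hi
    obtain ⟨m, hmM, hadm⟩ := exists_dir S (δ := δ) hsep z hzS
    rw [Finset.mem_biUnion]
    refine ⟨m, Finset.mem_range.2 hmM, Finset.mem_filter.2 ⟨ha.1, fun hgood => ha.2 ⟨m, hmM, z, B m, hz, hinj, fun i =>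
      adm_cut hδ (dir_norm m) (hadm i) (hzS i), ?_⟩⟩⟩
    have h1 : Function.Bijective (fun i : Fin g => (⟨z i, (mem_rts hz.1).2 ⟨hz.root i, hadm i⟩⟩ :
        {x // x ∈ rts (Adm S δ (dir m)) a})) := by
      constructor
      · intro i j hij
        exact hinj (Subtype.mk.inj hij)
      · rintro ⟨x, hx⟩
        obtain ⟨hx1, hx2⟩ := (mem_rts hz.1).1 hx
        obtain ⟨i, rfl⟩ := (IsRoots.root_iff hz).1 hx1
        exact ⟨i, rfl⟩
    let e : Fin g ≃ {x // x ∈ rts (Adm S δ (dir m)) a} := Equiv.ofBijective _ h1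
    refine Mea.of_equiv (e.symm.prodCongr (Equiv.refl σ)) ?_
    have h5 := hgood.2.2
    convert h5 using 1
    funext q
    obtain ⟨q1, q2⟩ := q
    show f m q2 (z (e.symm q1)) = f m q2 q1
    have h6 : ((e (e.symm q1) : {x // x ∈ rts (Adm S δ (dir m)) a}) : ℂ) = z (e.symm q1) := rfl
    rw [← h6, Equiv.apply_symm_apply]
  have h1 := (Finset.card_le_card hsub).trans (Finset.card_union_le _ _)
  have h2 : ((((bx g T).filter fun a => ¬ ∃ m < M, AllGood S f m ξ K T a).card : ℕ) : ℝ) ≤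
      (((bx g T).filter fun a => ¬ Inn Set.univ ((S : Set ℂ)ᶜ) R η a).card : ℝ) +
      ∑ m ∈ Finset.range M, (((bx g T).filter fun a => ¬ GoodM (Adm S δ (dir m)) (f m) ξ K (B m) T a).card : ℝ) := by
    refine (Nat.cast_le.2 (h1.trans (Nat.add_le_add_left Finset.card_biUnion_le _))).trans ?_
    push_cast
    exact le_rfl
  have h3 := hinn T hT2
  set Bx : ℝ := ((bx g T).card : ℝ) with hBx
  have hBx0 : 0 ≤ Bx := Nat.cast_nonneg _
  have h4 : ∑ m ∈ Finset.range M, (((bx g T).filter fun a => ¬ GoodM (Adm S δ (dir m)) (f m) ξ K (B m) T a).card : ℝ) ≤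
      ∑ _m ∈ Finset.range M, Bx / K := by
    refine Finset.sum_le_sum fun m hm => ?_
    rw [le_div_iff₀ hKr, mul_comm]
    exact hB m T (hT1 m (Finset.mem_range.1 hm)) ξ
  rw [Finset.sum_const, Finset.card_range, nsmul_eq_mul] at h4
  have h5 : ((((bx g T).filter fun a => ¬ ∃ m < M, AllGood S f m ξ K T a).card : ℕ) : ℝ) ≤ ((M : ℝ) + 1) * (Bx / K) := by
    have h6 : 1 / (K : ℝ) * Bx = Bx / K := by ring
    rw [h6] at h3
    linarith
  have h7 : (K : ℝ) = (k + 1) * (M + 1) := by rw [hK]; push_cast; ring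
  have hM1 : (0 : ℝ) < (M : ℝ) + 1 := by positivity
  have hk1 : (0 : ℝ) < (k : ℝ) + 1 := by positivity
  have h8 : ((M : ℝ) + 1) * (Bx / K) = Bx / (k + 1) := by
    rw [h7]
    field_simp
  rw [h8] at h5
  calc (k : ℝ) * _ ≤ k * (Bx / (k + 1)) := mul_le_mul_of_nonneg_left h5 (Nat.cast_nonneg k)
    _ = Bx * (k / (k + 1)) := by ring
    _ ≤ Bx * 1 := mul_le_mul_of_nonneg_left (by rw [div_le_one hk1]; linarith) hBx0
    _ = Bx := mul_one _

/-- polynomials with coefficients among the `ξ b` -/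
theorem Mea.ne_zero {Q : Type} [Fintype Q] [DecidableEq Q] {ξ : ℕ → ℂ} {K : ℕ} {B T : ℝ} {x : Q → ℂ} (hT : 1 ≤ T)
    (h : Mea ξ K B T x) (P : MvPolynomial Q ℂ) (hP : P ≠ 0) (hd : ∀ i, P.degreeOf i ≤ K)
    (hc : ∀ s ∈ P.support, ∃ b < K, ξ b = P.coeff s) : MvPolynomial.aeval x P ≠ 0 := by
  classical
  obtain ⟨s, hs⟩ := MvPolynomial.support_nonempty.2 hP
  obtain ⟨l₀, hl₀⟩ := exists_sV' P hd s hs
  choose! b hb hbc using hc
  have key := h (fun l j => if sV l ∈ P.support ∧ b (sV l) = (j : ℕ) then 1 else 0) (fun l j => by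
    have h1 : (1 : ℝ) ≤ T ^ K := one_le_pow₀ hT
    split_ifs
    · rw [Int.cast_one, abs_one]
      exact h1
    · rw [Int.cast_zero, abs_zero]
      linarith) l₀
  have hsum : ∀ l : Q → Fin (K + 1), (∑ j : Fin K, ξ j * ((if sV l ∈ P.support ∧ b (sV l) = (j : ℕ) then 1 else 0 : ℤ) : ℂ)) =
      P.coeff (sV l) := by
    intro l
    by_cases hl : sV l ∈ P.support
    · rw [Finset.sum_eq_single (⟨b (sV l), hb _ hl⟩ : Fin K)]
      · rw [if_pos ⟨hl, rfl⟩, Int.cast_one, mul_one]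
        exact hbc _ hl
      · intro j _ hj
        rw [if_neg, Int.cast_zero, mul_zero]
        rintro ⟨_, h2⟩
        exact hj (Fin.ext h2.symm)
      · intro h0
        exact absurd (Finset.mem_univ _) h0
    · rw [MvPolynomial.notMem_support_iff.1 hl]
      refine Finset.sum_eq_zero fun j _ => ?_
      rw [if_neg (fun h2 => hl h2.1), Int.cast_zero, mul_zero]
  simp only [hsum] at key
  rw [eval_eq_box x P hd]
  intro h0
  rw [h0, norm_zero] at key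
  have h1 : 0 < T ^ (-B) := Real.rpow_pos_of_pos (by linarith) _
  have h2 : 0 < ‖P.coeff (sV l₀)‖ := by
    rw [hl₀]
    exact norm_pos_iff.2 (MvPolynomial.mem_support_iff.1 hs)
  have := mul_pos h1 h2
  linarith

/-- every finite set of polynomials -/
theorem exists_xi {Q : Type} [Fintype Q] (W : Finset (MvPolynomial Q ℂ)) : ∃ (ξ : ℕ → ℂ) (k : ℕ), ∀ P ∈ W,
    (∀ i, P.degreeOf i ≤ k) ∧ ∀ s ∈ P.support, ∃ b < k, ξ b = P.coeff s := by
  classical
  set C : Finset ℂ := W.biUnion fun P => P.support.image fun s => P.coeff s with hC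
  refine ⟨fun b => if h : b < C.card then (C.equivFin.symm ⟨b, h⟩ : ℂ) else 0,
    C.card + ∑ P ∈ W, P.totalDegree, fun P hP => ⟨fun i => ?_, fun s hs => ?_⟩⟩
  · refine (MvPolynomial.degreeOf_le_totalDegree _ _).trans ?_
    have := Finset.single_le_sum (f := fun P : MvPolynomial Q ℂ => P.totalDegree) (fun _ _ => Nat.zero_le _) hP
    exact this.trans (Nat.le_add_left _ _)
  · have hmem : P.coeff s ∈ C := Finset.mem_biUnion.2 ⟨P, hP, Finset.mem_image_of_mem _ hs⟩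
    refine ⟨C.equivFin ⟨_, hmem⟩, (C.equivFin ⟨_, hmem⟩).isLt.trans_le (Nat.le_add_right _ _), ?_⟩
    simp only [Fin.is_lt, dif_pos, Fin.eta, Equiv.symm_apply_apply]

end Pool.Agent.X255.RH
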