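import Pool.Agent.X255.RH.Avd

/-!
# Determinants of logarithms of absolute values at the roots of almost all polynomials
-/

set_option autoImplicit false
set_option linter.unusedSectionVars false

open Polynomial Filter Topology NumberField

namespace Pool.Agent.X255.RH

open Pool.Agent.Y890.SP Pool.Agent.X255.NP

/-- a logarithm of the polynomial `p` on the cut plane -/
noncomputable def brl (d : ℂ) (p : ℂ[X]) (z : ℂ) : ℂ :=
  (p.roots.map fun c => Complex.log (-(z - c) / d)).sum + Complex.log (p.leadingCoeff * (-d) ^ p.roots.card)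

theorem brl_an {S : Finset ℂ} {d : ℂ} {p : ℂ[X]} (hS : ∀ c ∈ p.roots, c ∈ S) : AnalyticOnNhd ℂ (brl d p) (Cut S d) := by
  intro z hz
  unfold brl
  refine AnalyticAt.add ?_ analyticAt_const
  have h : ∀ s : Multiset ℂ, (∀ c ∈ s, c ∈ S) →
      AnalyticAt ℂ (fun z => (s.map fun c => Complex.log (-(z - c) / d)).sum) z := by
    intro s
    induction s using Multiset.induction_on with
    | empty =>
      intro _
      simp only [Multiset.map_zero, Multiset.sum_zero]
      exact analyticAt_const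
    | cons c s ih =>
      intro hs
      simp only [Multiset.map_cons, Multiset.sum_cons]
      refine AnalyticAt.add ?_ (ih fun c hc => hs c (Multiset.mem_cons_of_mem hc))
      have h1 : AnalyticAt ℂ (fun z : ℂ => -(z - c) / d) z := by
        have h2 : AnalyticAt ℂ (fun z : ℂ => -(z - c) * d⁻¹) z :=
          ((analyticAt_id.sub analyticAt_const).neg).mul analyticAt_const
        exact h2.congr (Eventually.of_forall fun w => (div_eq_mul_inv _ _).symm)
      exact h1.clog (hz c (hs c (Multiset.mem_cons_self c s)))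
  exact h _ hS

theorem brl_exp {S : Finset ℂ} {d : ℂ} (hd : d ≠ 0) {p : ℂ[X]} (hp : p ≠ 0) (hS : ∀ c ∈ p.roots, c ∈ S) {z : ℂ}
    (hz : z ∈ Cut S d) : Complex.exp (brl d p z) = p.eval z := by
  unfold brl
  rw [Complex.exp_add, Complex.exp_multiset_sum, Multiset.map_map, Complex.exp_log (mul_ne_zero (leadingCoeff_ne_zero.2 hp)
    (pow_ne_zero _ (neg_ne_zero.2 hd))), (IsAlgClosed.splits p).eval_eq_prod_roots]
  have h : ∀ s : Multiset ℂ, (∀ c ∈ s, c ∈ S) →
      (s.map (Complex.exp ∘ fun c => Complex.log (-(z - c) / d))).prod * (-d) ^ s.card = (s.map fun c => z - c).prod := by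
    intro s
    induction s using Multiset.induction_on with
    | empty =>
      intro _
      simp
    | cons c s ih =>
      intro hs
      rw [Multiset.map_cons, Multiset.prod_cons, Multiset.card_cons, Multiset.map_cons, Multiset.prod_cons,
        ← ih fun c hc => hs c (Multiset.mem_cons_of_mem hc), pow_succ, Function.comp_apply, Complex.exp_log
        (Complex.slitPlane_ne_zero (hz c (hs c (Multiset.mem_cons_self c s))))]
      field_simp
  rw [← h _ hS]
  ring

theorem brl_im (d : ℂ) (p : ℂ[X]) (z : ℂ) : |(brl d p z).im| ≤ (p.roots.card + 1) * Real.pi := by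
  unfold brl
  rw [Complex.add_im]
  have h : ∀ s : Multiset ℂ, |((s.map fun c => Complex.log (-(z - c) / d)).sum).im| ≤ s.card * Real.pi := by
    intro s
    induction s using Multiset.induction_on with
    | empty => simp
    | cons c s ih =>
      rw [Multiset.map_cons, Multiset.sum_cons, Complex.add_im, Multiset.card_cons]
      have h1 : |(Complex.log (-(z - c) / d)).im| ≤ Real.pi := by
        rw [Complex.log_im]
        exact Complex.abs_arg_le_pi _
      push_cast
      refine (abs_add_le _ _).trans ?_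
      linarith
  have h1 := h p.roots
  have h2 : |(Complex.log (p.leadingCoeff * (-d) ^ p.roots.card)).im| ≤ Real.pi := by
    rw [Complex.log_im]
    exact Complex.abs_arg_le_pi _
  refine (abs_add_le _ _).trans ?_
  linarith

/-- a logarithm of `p / q` -/
noncomputable def lR (d : ℂ) (p q : ℂ[X]) (z : ℂ) : ℂ := brl d p z - brl d q z

theorem lR_an {S : Finset ℂ} {d : ℂ} {p q : ℂ[X]} (hp : ∀ c ∈ p.roots, c ∈ S) (hq : ∀ c ∈ q.roots, c ∈ S) :
    AnalyticOnNhd ℂ (lR d p q) (Cut S d) := fun z hz => (brl_an hp z hz).sub (brl_an hq z hz)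

theorem lR_exp {S : Finset ℂ} {d : ℂ} (hd : d ≠ 0) {p q : ℂ[X]} (hp : p ≠ 0) (hq : q ≠ 0) (hpS : ∀ c ∈ p.roots, c ∈ S)
    (hqS : ∀ c ∈ q.roots, c ∈ S) {z : ℂ} (hz : z ∈ Cut S d) : Complex.exp (lR d p q z) * q.eval z = p.eval z := by
  unfold lR
  rw [Complex.exp_sub, brl_exp hd hp hpS hz, brl_exp hd hq hqS hz]
  have hq0 : q.eval z ≠ 0 := by
    rw [← brl_exp hd hq hqS hz]
    exact Complex.exp_ne_zero _
  exact div_mul_cancel₀ _ hq0

theorem lR_im (d : ℂ) (p q : ℂ[X]) (z : ℂ) : |(lR d p q z).im| ≤ (p.roots.card + q.roots.card + 2) * Real.pi := by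
  unfold lR
  rw [Complex.sub_im]
  refine (abs_sub _ _).trans ?_
  have h1 := brl_im d p z
  have h2 := brl_im d q z
  linarith

theorem eval_conj (P : ℤ[X]) (z : ℂ) : (P.map (Int.castRingHom ℂ)).eval ((starRingEnd ℂ) z) =
    (starRingEnd ℂ) ((P.map (Int.castRingHom ℂ)).eval z) := by
  rw [eval_map, eval_map, eval₂_eq_sum_range, eval₂_eq_sum_range, map_sum]
  refine Finset.sum_congr rfl fun i _ => ?_
  rw [map_mul, map_pow, eq_intCast, map_intCast]

/-- the real part -/
theorem lR_re {S : Finset ℂ} {d : ℂ} (hd : d ≠ 0) {P Q : ℤ[X]} (hp : P.map (Int.castRingHom ℂ) ≠ 0)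
    (hq : Q.map (Int.castRingHom ℂ) ≠ 0) (hpS : ∀ c ∈ (P.map (Int.castRingHom ℂ)).roots, c ∈ S)
    (hqS : ∀ c ∈ (Q.map (Int.castRingHom ℂ)).roots, c ∈ S) {z : ℂ} (hz : z ∈ Cut S d)
    (hz' : (starRingEnd ℂ) z ∈ Cut S d) :
    ∃ n : ℤ, |(n : ℝ)| ≤ (P.map (Int.castRingHom ℂ)).roots.card + (Q.map (Int.castRingHom ℂ)).roots.card + 2 ∧
      ((Real.log ‖(P.map (Int.castRingHom ℂ)).eval z / (Q.map (Int.castRingHom ℂ)).eval z‖ : ℝ) : ℂ) =
        1 / 2 * (lR d (P.map (Int.castRingHom ℂ)) (Q.map (Int.castRingHom ℂ)) z +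
          lR d (P.map (Int.castRingHom ℂ)) (Q.map (Int.castRingHom ℂ)) ((starRingEnd ℂ) z)) +
          Real.pi * Complex.I * n := by
  set p := P.map (Int.castRingHom ℂ) with hpd
  set q := Q.map (Int.castRingHom ℂ) with hqd
  have e1 := lR_exp hd hp hq hpS hqS hz
  have e2 := lR_exp hd hp hq hpS hqS hz'
  have hq0 : q.eval z ≠ 0 := by
    rw [← brl_exp hd hq hqS hz]
    exact Complex.exp_ne_zero _
  have hq0' : q.eval ((starRingEnd ℂ) z) ≠ 0 := by
    rw [← brl_exp hd hq hqS hz']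
    exact Complex.exp_ne_zero _
  have e3 : Complex.exp ((starRingEnd ℂ) (lR d p q z)) * q.eval ((starRingEnd ℂ) z) = p.eval ((starRingEnd ℂ) z) := by
    rw [hpd, hqd, eval_conj, eval_conj, ← hpd, ← hqd, Complex.exp_conj, ← map_mul, e1]
  have e4 : Complex.exp ((starRingEnd ℂ) (lR d p q z)) = Complex.exp (lR d p q ((starRingEnd ℂ) z)) :=
    mul_right_cancel₀ hq0' (e3.trans e2.symm)
  obtain ⟨n, hn⟩ := Complex.exp_eq_exp_iff_exists_int.1 e4
  refine ⟨n, ?_, ?_⟩
  · have h1 := congrArg Complex.im hn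
    rw [Complex.conj_im, Complex.add_im] at h1
    have h2 : ((n : ℂ) * (2 * Real.pi * Complex.I)).im = n * (2 * Real.pi) := by
      have : (n : ℂ) * (2 * Real.pi * Complex.I) = ((n * (2 * Real.pi) : ℝ) : ℂ) * Complex.I := by push_cast; ring
      rw [this, Complex.im_ofReal_mul, Complex.I_im, mul_one]
    rw [h2] at h1
    have h3 := lR_im d p q z
    have h4 := lR_im d p q ((starRingEnd ℂ) z)
    have h5 : |(n : ℝ) * (2 * Real.pi)| ≤ 2 * ((p.roots.card + q.roots.card + 2) * Real.pi) := by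
      have h6 : (n : ℝ) * (2 * Real.pi) = -(lR d p q z).im - (lR d p q ((starRingEnd ℂ) z)).im := by linarith
      rw [h6]
      refine (abs_sub _ _).trans ?_
      rw [abs_neg]
      linarith
    rw [abs_mul, abs_of_pos (by positivity : 0 < 2 * Real.pi)] at h5
    have h7 : 0 < 2 * Real.pi := by positivity
    refine le_of_mul_le_mul_right (h5.trans (le_of_eq (by ring))) h7
  · have h1 : ‖p.eval z / q.eval z‖ = Real.exp (lR d p q z).re := by
      rw [← e1, mul_div_cancel_right₀ _ hq0, Complex.norm_exp]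
    rw [h1, Real.log_exp]
    have h2 : (((lR d p q z).re : ℝ) : ℂ) = (lR d p q z + (starRingEnd ℂ) (lR d p q z)) / 2 := by
      rw [Complex.add_conj]
      push_cast
      ring
    rw [h2, hn]
    ring

/-- the matrix of polynomials -/
noncomputable def DM {g r : ℕ} (D : (Fin r → Fin g) × (Fin r → Fin g) × (Fin r → Fin r → ℤ)) :
    Matrix (Fin r) (Fin r) (MvPolynomial (Fin g × Fin r) ℂ) :=
  fun t j => MvPolynomial.C (1 / 2) * (MvPolynomial.X (D.1 t, j) + MvPolynomial.X (D.2.1 t, j)) +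
    MvPolynomial.C (Real.pi * Complex.I * D.2.2 t j)

theorem DM_ne {g r : ℕ} (i i' : Fin r → Fin g) (n : Fin r → Fin r → ℤ)
    (h : ∀ s t, s ≠ t → i s ≠ i t ∧ i s ≠ i' t ∧ i' s ≠ i' t) : (DM (i, i', n)).det ≠ 0 := by
  classical
  intro h0
  let x : Fin g × Fin r → ℂ := fun u =>
    if hu : ∃ t, u.1 = i t ∨ u.1 = i' t then (if hu.choose = u.2 then 1 else 0) - Real.pi * Complex.I * n hu.choose u.2 else 0
  have h1 := congrArg (MvPolynomial.eval x) h0
  rw [map_zero, RingHom.map_det] at h1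
  have h2 : (MvPolynomial.eval x).mapMatrix (DM (i, i', n)) = 1 := by
    ext t j
    have hch : ∀ v : Fin g, (hv : ∃ t, v = i t ∨ v = i' t) → (v = i t ∨ v = i' t) → hv.choose = t := by
      intro v hv hvt
      by_contra hne
      rcases hv.choose_spec with h3 | h3 <;> rcases hvt with h4 | h4
      · exact (h _ _ hne).1 (h3.symm.trans h4)
      · exact (h _ _ hne).2.1 (h3.symm.trans h4)
      · exact (h _ _ (Ne.symm hne)).2.1 (h4.symm.trans h3)
      · exact (h _ _ hne).2.2 (h3.symm.trans h4)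
    have hx : ∀ v : Fin g, (v = i t ∨ v = i' t) → x (v, j) = (if t = j then 1 else 0) - Real.pi * Complex.I * n t j := by
      intro v hvt
      have hv : ∃ t, v = i t ∨ v = i' t := ⟨t, hvt⟩
      have h5 := hch v hv hvt
      show (if hu : ∃ t, v = i t ∨ v = i' t then (if hu.choose = j then 1 else 0) - Real.pi * Complex.I * n hu.choose j
        else 0) = _
      rw [dif_pos hv, h5]
    rw [RingHom.mapMatrix_apply, Matrix.map_apply]
    simp only [DM, map_add, map_mul, MvPolynomial.eval_C, MvPolynomial.eval_X]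
    rw [hx _ (Or.inl rfl), hx _ (Or.inr rfl), Matrix.one_apply]
    ring
  rw [h2, Matrix.det_one] at h1
  exact one_ne_zero h1

/-- the roots are no zeros of the polynomials, and the determinants of the logarithms of the absolute values do not
vanish -/
def OKd {g r : ℕ} (P Q : Fin r → ℤ[X]) (a : Fin (g + 1) → ℤ) : Prop :=
  a (Fin.last g) ≠ 0 ∧
  (∀ z, (pol a).eval z = 0 → ∀ j, ((P j).map (Int.castRingHom ℂ)).eval z ≠ 0 ∧ ((Q j).map (Int.castRingHom ℂ)).eval z ≠ 0) ∧
  ∀ p : Fin r → ℂ, Function.Injective p → (∀ t, (pol a).eval (p t) = 0 ∧ 0 ≤ (p t).im) →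
    (Matrix.of fun t j => Real.log ‖((P j).map (Int.castRingHom ℂ)).eval (p t) /
      ((Q j).map (Int.castRingHom ℂ)).eval (p t)‖).det ≠ 0

open scoped Classical in
theorem det_all {g r : ℕ} (hg : 0 < g) (P Q : Fin r → ℤ[X]) (hP : ∀ j, P j ≠ 0) (hQ : ∀ j, Q j ≠ 0)
    (hind : ∀ (m n : Fin r → ℕ) (c : ℂ), ∏ j, ((P j).map (Int.castRingHom ℂ)) ^ m j * ((Q j).map (Int.castRingHom ℂ)) ^ n j =
      C c * ∏ j, ((P j).map (Int.castRingHom ℂ)) ^ n j * ((Q j).map (Int.castRingHom ℂ)) ^ m j → m = n) (k : ℕ) :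
    ∃ T₀ : ℕ, ∀ T : ℕ, T₀ ≤ T → (k : ℝ) * ((bx g T).filter fun a => ¬ OKd P Q a).card ≤ (bx g T).card := by
  have hinjZ : Function.Injective (Int.castRingHom ℂ) := Int.cast_injective
  have hP' : ∀ j, (P j).map (Int.castRingHom ℂ) ≠ 0 := fun j h =>
    hP j ((Polynomial.map_eq_zero_iff hinjZ).1 h)
  have hQ' : ∀ j, (Q j).map (Int.castRingHom ℂ) ≠ 0 := fun j h =>
    hQ j ((Polynomial.map_eq_zero_iff hinjZ).1 h)
  set S : Finset ℂ := (∏ j, (P j).map (Int.castRingHom ℂ) * (Q j).map (Int.castRingHom ℂ)).roots.toFinset with hS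
  have hprod : ∏ j, (P j).map (Int.castRingHom ℂ) * (Q j).map (Int.castRingHom ℂ) ≠ 0 :=
    Finset.prod_ne_zero_iff.2 fun j _ => mul_ne_zero (hP' j) (hQ' j)
  have hSP' : ∀ j c, ((P j).map (Int.castRingHom ℂ)).eval c = 0 → c ∈ S := by
    intro j c hc
    rw [hS, Multiset.mem_toFinset, mem_roots hprod, IsRoot.def, eval_prod]
    exact Finset.prod_eq_zero (Finset.mem_univ j) (by rw [eval_mul, hc, zero_mul])
  have hSQ' : ∀ j c, ((Q j).map (Int.castRingHom ℂ)).eval c = 0 → c ∈ S := by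
    intro j c hc
    rw [hS, Multiset.mem_toFinset, mem_roots hprod, IsRoot.def, eval_prod]
    exact Finset.prod_eq_zero (Finset.mem_univ j) (by rw [eval_mul, hc, mul_zero])
  have hSP : ∀ j, ∀ c ∈ ((P j).map (Int.castRingHom ℂ)).roots, c ∈ S := fun j c hc =>
    hSP' j c ((mem_roots (hP' j)).1 hc)
  have hSQ : ∀ j, ∀ c ∈ ((Q j).map (Int.castRingHom ℂ)).roots, c ∈ S := fun j c hc =>
    hSQ' j c ((mem_roots (hQ' j)).1 hc)
  set f : ℕ → Fin r → ℂ → ℂ := fun m j => lR (dir m) ((P j).map (Int.castRingHom ℂ)) ((Q j).map (Int.castRingHom ℂ)) with hf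
  have hfan : ∀ m j, AnalyticOnNhd ℂ (f m j) (Cut S (dir m)) := fun m j => lR_an (hSP j) (hSQ j)
  have hfind : ∀ m, Indep (Cut S (dir m)) (f m) := fun m =>
    logR_indep (cut_pc S (dir_ne m)) (cut_open S _) (cut_nonempty S (dir_ne m)) _ _ hP' hQ' hind (f m) (hfan m)
      fun j x hx => lR_exp (dir_ne m) (hP' j) (hQ' j) (hSP j) (hSQ j) hx
  -- the bound for the integers
  set N : ℕ := ∑ j, (((P j).map (Int.castRingHom ℂ)).roots.card + ((Q j).map (Int.castRingHom ℂ)).roots.card + 2) with hN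
  have hNj : ∀ j, ((P j).map (Int.castRingHom ℂ)).roots.card + ((Q j).map (Int.castRingHom ℂ)).roots.card + 2 ≤ N :=
    fun j => Finset.single_le_sum (f := fun j => ((P j).map (Int.castRingHom ℂ)).roots.card +
      ((Q j).map (Int.castRingHom ℂ)).roots.card + 2) (fun _ _ => Nat.zero_le _) (Finset.mem_univ j)
  set W : Finset (MvPolynomial (Fin g × Fin r) ℂ) :=
    ((Finset.univ : Finset ((Fin r → Fin g) × (Fin r → Fin g) × (Fin r → Fin r → Fin (2 * N + 1)))).image
      fun D => (DM (D.1, D.2.1, fun t j => ((D.2.2 t j : ℕ) : ℤ) - N)).det) with hW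
  obtain ⟨ξ, k1, hξ⟩ := exists_xi W
  obtain ⟨K, hkK, hK1, T₀, H⟩ := all_cut hg S f hfan hfind (max k k1)
  refine ⟨max 1 T₀, fun T hT => ?_⟩
  have hT1 : 1 ≤ T := (le_max_left _ _).trans hT
  have hT1' : (1 : ℝ) ≤ T := by exact_mod_cast hT1
  have h1 := H T ((le_max_right _ _).trans hT) ξ
  refine le_trans ?_ h1
  refine mul_le_mul (by exact_mod_cast le_max_left k k1) ?_ (Nat.cast_nonneg _) (Nat.cast_nonneg _)
  refine Nat.cast_le.2 (Finset.card_le_card fun a ha => ?_)
  rw [Finset.mem_filter] at ha ⊢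
  refine ⟨ha.1, fun hgood => ha.2 ?_⟩
  obtain ⟨m, -, z, B, hz, hinj, hcut, hmea⟩ := hgood
  have hroot : ∀ x, (pol a).eval x = 0 → x ∈ Cut S (dir m) := by
    intro x hx
    obtain ⟨i, rfl⟩ := (IsRoots.root_iff hz).1 hx
    exact hcut i
  refine ⟨hz.1, fun x hx j => ⟨?_, ?_⟩, fun p hpinj hp => ?_⟩
  · rw [← brl_exp (dir_ne m) (hP' j) (hSP j) (hroot x hx)]
    exact Complex.exp_ne_zero _
  · rw [← brl_exp (dir_ne m) (hQ' j) (hSQ j) (hroot x hx)]
    exact Complex.exp_ne_zero _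
  have hi : ∀ t, ∃ i, z i = p t := fun t => (IsRoots.root_iff hz).1 (hp t).1
  have hi' : ∀ t, ∃ i, z i = (starRingEnd ℂ) (p t) := fun t => (IsRoots.root_iff hz).1 (pol_conj a _ (hp t).1)
  choose i hi using hi
  choose i' hi' using hi'
  have hn : ∀ t j, ∃ n : ℤ, |(n : ℝ)| ≤ N ∧
      ((Real.log ‖((P j).map (Int.castRingHom ℂ)).eval (p t) / ((Q j).map (Int.castRingHom ℂ)).eval (p t)‖ : ℝ) : ℂ) =
        1 / 2 * (f m j (p t) + f m j ((starRingEnd ℂ) (p t))) + Real.pi * Complex.I * n := by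
    intro t j
    obtain ⟨n, hn1, hn2⟩ := lR_re (dir_ne m) (hP' j) (hQ' j) (hSP j) (hSQ j) (hroot _ (hp t).1)
      (hroot _ (pol_conj a _ (hp t).1))
    refine ⟨n, hn1.trans ?_, hn2⟩
    exact_mod_cast hNj j
  choose n hn1 hn2 using hn
  have hnN : ∀ t j, ∃ u : Fin (2 * N + 1), n t j = ((u : ℕ) : ℤ) - N := by
    intro t j
    have h2 := abs_le.1 (hn1 t j)
    have h3 : -(N : ℤ) ≤ n t j := by exact_mod_cast h2.1
    have h4 : n t j ≤ (N : ℤ) := by exact_mod_cast h2.2
    refine ⟨⟨(n t j + N).toNat, by omega⟩, ?_⟩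
    simp only
    omega
  choose u hu using hnN
  have hne : (DM (i, i', n)).det ≠ 0 := by
    refine DM_ne i i' n fun s t hst => ⟨fun h => hst (hpinj ?_), fun h => hst (hpinj ?_), fun h => hst (hpinj ?_)⟩
    · rw [← hi s, ← hi t, h]
    · have h2 : p s = (starRingEnd ℂ) (p t) := by rw [← hi s, ← hi' t, h]
      have h3 := congrArg Complex.im h2
      rw [Complex.conj_im] at h3
      have h4 := (hp s).2
      have h5 := (hp t).2
      have h6 : (p t).im = 0 := by linarith
      rw [h2]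
      exact Complex.conj_eq_iff_im.2 h6
    · have h2 : (starRingEnd ℂ) (p s) = (starRingEnd ℂ) (p t) := by rw [← hi' s, ← hi' t, h]
      exact (starRingEnd ℂ).injective h2
  have hmem : (DM (i, i', n)).det ∈ W := by
    rw [hW, Finset.mem_image]
    refine ⟨(i, i', u), Finset.mem_univ _, ?_⟩
    congr 2
    simp only [Prod.mk.injEq, true_and]
    funext t j
    exact (hu t j).symm
  have hkk : k1 ≤ K := (le_max_right _ _).trans hkK
  have key := hmea.ne_zero hT1' _ hne (fun v => ((hξ _ hmem).1 v).trans hkk) (fun s hs => by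
    obtain ⟨b, hb, hb'⟩ := (hξ _ hmem).2 s hs
    exact ⟨b, hb.trans_le hkk, hb'⟩)
  intro h0
  apply key
  rw [MvPolynomial.aeval_eq_eval, RingHom.map_det]
  have h2 : (MvPolynomial.eval fun q : Fin g × Fin r => f m q.2 (z q.1)).mapMatrix (DM (i, i', n)) =
      (Complex.ofRealHom).mapMatrix (Matrix.of fun t j => Real.log ‖((P j).map (Int.castRingHom ℂ)).eval (p t) /
      ((Q j).map (Int.castRingHom ℂ)).eval (p t)‖) := by
    ext t j
    rw [RingHom.mapMatrix_apply, Matrix.map_apply, RingHom.mapMatrix_apply, Matrix.map_apply, Matrix.of_apply]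
    simp only [DM, map_add, map_mul, MvPolynomial.eval_C, MvPolynomial.eval_X]
    rw [hi, hi']
    exact (hn2 t j).symm
  rw [h2, ← RingHom.map_det, h0, map_zero]

end Pool.Agent.X255.RH
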