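import Pool.Agent.X255.RH.Disc

/-!
# Determinants with a column of ones; norm one tori
-/

set_option autoImplicit false
set_option linter.unusedSectionVars false

open Polynomial Filter Topology NumberField

namespace Pool.Agent.X255.RH

open Pool.Agent.Y890.SP Pool.Agent.X255.NP

/-- the matrix of polynomials, with a column of ones -/
noncomputable def DN {g r : ℕ} (D : (Fin (r + 1) → Fin g) × (Fin (r + 1) → Fin g) × (Fin (r + 1) → Fin r → ℤ)) :
    Matrix (Fin (r + 1)) (Fin (r + 1)) (MvPolynomial (Fin g × Fin r) ℂ) :=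
  fun t => Fin.lastCases 1 fun j => MvPolynomial.C (1 / 2) * (MvPolynomial.X (D.1 t, j) + MvPolynomial.X (D.2.1 t, j)) +
    MvPolynomial.C (Real.pi * Complex.I * D.2.2 t j)

theorem DN_ne {g r : ℕ} (i i' : Fin (r + 1) → Fin g) (n : Fin (r + 1) → Fin r → ℤ)
    (h : ∀ s t, s ≠ t → i s ≠ i t ∧ i s ≠ i' t ∧ i' s ≠ i' t) : (DN (i, i', n)).det ≠ 0 := by
  classical
  intro h0
  let x : Fin g × Fin r → ℂ := fun u =>
    if hu : ∃ t, u.1 = i t ∨ u.1 = i' t then (if hu.choose = u.2.castSucc then 1 else 0) -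
      Real.pi * Complex.I * n hu.choose u.2 else 0
  have h1 := congrArg (MvPolynomial.eval x) h0
  rw [map_zero, RingHom.map_det] at h1
  have hch : ∀ t, ∀ v : Fin g, (hv : ∃ t, v = i t ∨ v = i' t) → (v = i t ∨ v = i' t) → hv.choose = t := by
    intro t v hv hvt
    by_contra hne
    rcases hv.choose_spec with h3 | h3 <;> rcases hvt with h4 | h4
    · exact (h _ _ hne).1 (h3.symm.trans h4)
    · exact (h _ _ hne).2.1 (h3.symm.trans h4)
    · exact (h _ _ (Ne.symm hne)).2.1 (h4.symm.trans h3)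
    · exact (h _ _ hne).2.2 (h3.symm.trans h4)
  have hx : ∀ t j, ∀ v : Fin g, (v = i t ∨ v = i' t) →
      x (v, j) = (if t = j.castSucc then 1 else 0) - Real.pi * Complex.I * n t j := by
    intro t j v hvt
    have hv : ∃ t, v = i t ∨ v = i' t := ⟨t, hvt⟩
    have h5 := hch t v hv hvt
    show (if hu : ∃ t, v = i t ∨ v = i' t then (if hu.choose = j.castSucc then 1 else 0) -
      Real.pi * Complex.I * n hu.choose j else 0) = _
    rw [dif_pos hv, h5]
  have hE : ∀ t (j : Fin r), (MvPolynomial.eval x).mapMatrix (DN (i, i', n)) t j.castSucc =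
      if t = j.castSucc then 1 else 0 := by
    intro t j
    rw [RingHom.mapMatrix_apply, Matrix.map_apply]
    simp only [DN, Fin.lastCases_castSucc, map_add, map_mul, MvPolynomial.eval_C, MvPolynomial.eval_X]
    rw [hx _ _ _ (Or.inl rfl), hx _ _ _ (Or.inr rfl)]
    ring
  have hL : ∀ t, (MvPolynomial.eval x).mapMatrix (DN (i, i', n)) t (Fin.last r) = 1 := by
    intro t
    rw [RingHom.mapMatrix_apply, Matrix.map_apply]
    simp only [DN, Fin.lastCases_last, map_one]
  rw [Matrix.det_of_upperTriangular] at h1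
  · rw [Finset.prod_eq_one] at h1
    · exact one_ne_zero h1
    · intro t _
      induction t using Fin.lastCases with
      | last => exact hL _
      | cast j => rw [hE, if_pos rfl]
  · intro t j htj
    have htj' : j < t := htj
    induction j using Fin.lastCases with
    | last => exact absurd htj' (not_lt.2 (Fin.le_last t))
    | cast j => rw [hE, if_neg (ne_of_gt htj')]

/-- the roots are no zeros of the polynomials, and the determinants with a column of ones do not vanish -/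
def OKn {g r : ℕ} (P Q : Fin r → ℤ[X]) (a : Fin (g + 1) → ℤ) : Prop :=
  a (Fin.last g) ≠ 0 ∧
  (∀ z, (pol a).eval z = 0 → ∀ j, ((P j).map (Int.castRingHom ℂ)).eval z ≠ 0 ∧ ((Q j).map (Int.castRingHom ℂ)).eval z ≠ 0) ∧
  ∀ p : Fin (r + 1) → ℂ, Function.Injective p → (∀ t, (pol a).eval (p t) = 0 ∧ 0 ≤ (p t).im) →
    (Matrix.of fun t : Fin (r + 1) => (Fin.lastCases 1 fun j : Fin r => Real.log ‖((P j).map (Int.castRingHom ℂ)).eval (p t) /
      ((Q j).map (Int.castRingHom ℂ)).eval (p t)‖ : Fin (r + 1) → ℝ)).det ≠ 0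

open scoped Classical in
theorem det_all1 {g r : ℕ} (hg : 0 < g) (P Q : Fin r → ℤ[X]) (hP : ∀ j, P j ≠ 0) (hQ : ∀ j, Q j ≠ 0)
    (hind : ∀ (m n : Fin r → ℕ) (c : ℂ), ∏ j, ((P j).map (Int.castRingHom ℂ)) ^ m j * ((Q j).map (Int.castRingHom ℂ)) ^ n j =
      C c * ∏ j, ((P j).map (Int.castRingHom ℂ)) ^ n j * ((Q j).map (Int.castRingHom ℂ)) ^ m j → m = n) (k : ℕ) :
    ∃ T₀ : ℕ, ∀ T : ℕ, T₀ ≤ T → (k : ℝ) * ((bx g T).filter fun a => ¬ OKn P Q a).card ≤ (bx g T).card := by
  have hinjZ : Function.Injective (Int.castRingHom ℂ) := Int.cast_injective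
  have hP' : ∀ j, (P j).map (Int.castRingHom ℂ) ≠ 0 := fun j h =>
    hP j ((Polynomial.map_eq_zero_iff hinjZ).1 h)
  have hQ' : ∀ j, (Q j).map (Int.castRingHom ℂ) ≠ 0 := fun j h =>
    hQ j ((Polynomial.map_eq_zero_iff hinjZ).1 h)
  set S : Finset ℂ := (∏ j, (P j).map (Int.castRingHom ℂ) * (Q j).map (Int.castRingHom ℂ)).roots.toFinset with hS
  have hprod : ∏ j, (P j).map (Int.castRingHom ℂ) * (Q j).map (Int.castRingHom ℂ) ≠ 0 :=
    Finset.prod_ne_zero_iff.2 fun j _ => mul_ne_zero (hP' j) (hQ' j)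
  have hSP' : ∀ j c, ((P j).map (Int.castRingHom ℂ)).eval c = 0 → c ∈ S := by
    intro j c hc
    rw [hS, Multiset.mem_toFinset, mem_roots hprod, IsRoot.def, eval_prod]
    exact Finset.prod_eq_zero (Finset.mem_univ j) (by rw [eval_mul, hc, zero_mul])
  have hSQ' : ∀ j c, ((Q j).map (Int.castRingHom ℂ)).eval c = 0 → c ∈ S := by
    intro j c hc
    rw [hS, Multiset.mem_toFinset, mem_roots hprod, IsRoot.def, eval_prod]
    exact Finset.prod_eq_zero (Finset.mem_univ j) (by rw [eval_mul, hc, mul_zero])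
  have hSP : ∀ j, ∀ c ∈ ((P j).map (Int.castRingHom ℂ)).roots, c ∈ S := fun j c hc =>
    hSP' j c ((mem_roots (hP' j)).1 hc)
  have hSQ : ∀ j, ∀ c ∈ ((Q j).map (Int.castRingHom ℂ)).roots, c ∈ S := fun j c hc =>
    hSQ' j c ((mem_roots (hQ' j)).1 hc)
  set f : ℕ → Fin r → ℂ → ℂ := fun m j => lR (dir m) ((P j).map (Int.castRingHom ℂ)) ((Q j).map (Int.castRingHom ℂ)) with hf
  have hfan : ∀ m j, AnalyticOnNhd ℂ (f m j) (Cut S (dir m)) := fun m j => lR_an (hSP j) (hSQ j)
  have hfind : ∀ m, Indep (Cut S (dir m)) (f m) := fun m =>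
    logR_indep (cut_pc S (dir_ne m)) (cut_open S _) (cut_nonempty S (dir_ne m)) _ _ hP' hQ' hind (f m) (hfan m)
      fun j x hx => lR_exp (dir_ne m) (hP' j) (hQ' j) (hSP j) (hSQ j) hx
  -- the bound for the integers
  set N : ℕ := ∑ j, (((P j).map (Int.castRingHom ℂ)).roots.card + ((Q j).map (Int.castRingHom ℂ)).roots.card + 2) with hN
  have hNj : ∀ j, ((P j).map (Int.castRingHom ℂ)).roots.card + ((Q j).map (Int.castRingHom ℂ)).roots.card + 2 ≤ N :=
    fun j => Finset.single_le_sum (f := fun j => ((P j).map (Int.castRingHom ℂ)).roots.card +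
      ((Q j).map (Int.castRingHom ℂ)).roots.card + 2) (fun _ _ => Nat.zero_le _) (Finset.mem_univ j)
  set W : Finset (MvPolynomial (Fin g × Fin r) ℂ) :=
    ((Finset.univ : Finset ((Fin (r + 1) → Fin g) × (Fin (r + 1) → Fin g) × (Fin (r + 1) → Fin r → Fin (2 * N + 1)))).image
      fun D => (DN (D.1, D.2.1, fun t j => ((D.2.2 t j : ℕ) : ℤ) - N)).det) with hW
  obtain ⟨ξ, k1, hξ⟩ := exists_xi W
  obtain ⟨K, hkK, hK1, T₀, H⟩ := all_cut hg S f hfan hfind (max k k1)
  refine ⟨max 1 T₀, fun T hT => ?_⟩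
  have hT1 : 1 ≤ T := (le_max_left _ _).trans hT
  have hT1' : (1 : ℝ) ≤ T := by exact_mod_cast hT1
  have h1 := H T ((le_max_right _ _).trans hT) ξ
  refine le_trans ?_ h1
  refine mul_le_mul (by exact_mod_cast le_max_left k k1) ?_ (Nat.cast_nonneg _) (Nat.cast_nonneg _)
  refine Nat.cast_le.2 (Finset.card_le_card fun a ha => ?_)
  rw [Finset.mem_filter] at ha ⊢
  refine ⟨ha.1, fun hgood => ha.2 ?_⟩
  obtain ⟨m, -, z, B, hz, hinj, hcut, hmea⟩ := hgood
  have hroot : ∀ x, (pol a).eval x = 0 → x ∈ Cut S (dir m) := by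
    intro x hx
    obtain ⟨i, rfl⟩ := (IsRoots.root_iff hz).1 hx
    exact hcut i
  refine ⟨hz.1, fun x hx j => ⟨?_, ?_⟩, fun p hpinj hp => ?_⟩
  · rw [← brl_exp (dir_ne m) (hP' j) (hSP j) (hroot x hx)]
    exact Complex.exp_ne_zero _
  · rw [← brl_exp (dir_ne m) (hQ' j) (hSQ j) (hroot x hx)]
    exact Complex.exp_ne_zero _
  have hi : ∀ t, ∃ i, z i = p t := fun t => (IsRoots.root_iff hz).1 (hp t).1
  have hi' : ∀ t, ∃ i, z i = (starRingEnd ℂ) (p t) := fun t => (IsRoots.root_iff hz).1 (pol_conj a _ (hp t).1)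
  choose i hi using hi
  choose i' hi' using hi'
  have hn : ∀ t j, ∃ n : ℤ, |(n : ℝ)| ≤ N ∧
      ((Real.log ‖((P j).map (Int.castRingHom ℂ)).eval (p t) / ((Q j).map (Int.castRingHom ℂ)).eval (p t)‖ : ℝ) : ℂ) =
        1 / 2 * (f m j (p t) + f m j ((starRingEnd ℂ) (p t))) + Real.pi * Complex.I * n := by
    intro t j
    obtain ⟨n, hn1, hn2⟩ := lR_re (dir_ne m) (hP' j) (hQ' j) (hSP j) (hSQ j) (hroot _ (hp t).1)
      (hroot _ (pol_conj a _ (hp t).1))
    refine ⟨n, hn1.trans ?_, hn2⟩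
    exact_mod_cast hNj j
  choose n hn1 hn2 using hn
  have hnN : ∀ t j, ∃ u : Fin (2 * N + 1), n t j = ((u : ℕ) : ℤ) - N := by
    intro t j
    have h2 := abs_le.1 (hn1 t j)
    have h3 : -(N : ℤ) ≤ n t j := by exact_mod_cast h2.1
    have h4 : n t j ≤ (N : ℤ) := by exact_mod_cast h2.2
    refine ⟨⟨(n t j + N).toNat, by omega⟩, ?_⟩
    simp only
    omega
  choose u hu using hnN
  have hne : (DN (i, i', n)).det ≠ 0 := by
    refine DN_ne i i' n fun s t hst => ⟨fun h => hst (hpinj ?_), fun h => hst (hpinj ?_), fun h => hst (hpinj ?_)⟩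
    · rw [← hi s, ← hi t, h]
    · have h2 : p s = (starRingEnd ℂ) (p t) := by rw [← hi s, ← hi' t, h]
      have h3 := congrArg Complex.im h2
      rw [Complex.conj_im] at h3
      have h4 := (hp s).2
      have h5 := (hp t).2
      have h6 : (p t).im = 0 := by linarith
      rw [h2]
      exact Complex.conj_eq_iff_im.2 h6
    · have h2 : (starRingEnd ℂ) (p s) = (starRingEnd ℂ) (p t) := by rw [← hi' s, ← hi' t, h]
      exact (starRingEnd ℂ).injective h2
  have hmem : (DN (i, i', n)).det ∈ W := by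
    rw [hW, Finset.mem_image]
    refine ⟨(i, i', u), Finset.mem_univ _, ?_⟩
    congr 2
    simp only [Prod.mk.injEq, true_and]
    funext t j
    exact (hu t j).symm
  have hkk : k1 ≤ K := (le_max_right _ _).trans hkK
  have key := hmea.ne_zero hT1' _ hne (fun v => ((hξ _ hmem).1 v).trans hkk) (fun s hs => by
    obtain ⟨b, hb, hb'⟩ := (hξ _ hmem).2 s hs
    exact ⟨b, hb.trans_le hkk, hb'⟩)
  intro h0
  apply key
  rw [MvPolynomial.aeval_eq_eval, RingHom.map_det]
  have h2 : (MvPolynomial.eval fun q : Fin g × Fin r => f m q.2 (z q.1)).mapMatrix (DN (i, i', n)) =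
      (Complex.ofRealHom).mapMatrix (Matrix.of fun t : Fin (r + 1) => (Fin.lastCases 1 fun j : Fin r =>
      Real.log ‖((P j).map (Int.castRingHom ℂ)).eval (p t) /
      ((Q j).map (Int.castRingHom ℂ)).eval (p t)‖ : Fin (r + 1) → ℝ)) := by
    ext t j
    rw [RingHom.mapMatrix_apply, Matrix.map_apply, RingHom.mapMatrix_apply, Matrix.map_apply, Matrix.of_apply]
    induction j using Fin.lastCases with
    | last => simp only [DN, Fin.lastCases_last, map_one]
    | cast j =>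
      simp only [DN, Fin.lastCases_castSucc, map_add, map_mul, MvPolynomial.eval_C, MvPolynomial.eval_X]
      rw [hi, hi']
      exact (hn2 t j).symm
  rw [h2, ← RingHom.map_det, h0, map_zero]

section
variable {K : Type} [Field K] [NumberField K]

/-- real vectors with small images under an invertible real matrix -/
theorem small_real {s : ℕ} (A : Matrix (Fin s) (Fin s) ℝ) (hA : A.det ≠ 0) :
    ∃ ε : ℝ, 0 < ε ∧ ∀ b : Fin s → ℝ, (∀ t, |∑ j, A t j * b j| < ε) → ∀ i, |b i| < 1 := by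
  classical
  set C : ℝ := 1 + ∑ i, ∑ j, |A⁻¹ i j| with hC
  have hC1 : 0 ≤ ∑ i, ∑ j, |A⁻¹ i j| := Finset.sum_nonneg fun _ _ => Finset.sum_nonneg fun _ _ => abs_nonneg _
  have hCp : 0 < C := by linarith
  refine ⟨1 / C, by positivity, fun b hb i => ?_⟩
  have h1 : A⁻¹.mulVec (A.mulVec b) = b := by
    rw [Matrix.mulVec_mulVec, Matrix.nonsing_inv_mul A (isUnit_iff_ne_zero.2 hA), Matrix.one_mulVec]
  have h2 := congrFun h1 i
  rw [← h2]
  show |∑ t, A⁻¹ i t * (A.mulVec b) t| < 1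
  have h4 : ∀ t, |(A.mulVec b) t| ≤ 1 / C := fun t => (hb t).le
  calc |∑ t, A⁻¹ i t * (A.mulVec b) t| ≤ ∑ t, |A⁻¹ i t * (A.mulVec b) t| := Finset.abs_sum_le_sum_abs _ _
    _ ≤ ∑ t, |A⁻¹ i t| * (1 / C) := Finset.sum_le_sum fun t _ => by
        rw [abs_mul]
        exact mul_le_mul_of_nonneg_left (h4 t) (abs_nonneg _)
    _ = (∑ t, |A⁻¹ i t|) * (1 / C) := by rw [Finset.sum_mul]
    _ ≤ (∑ i, ∑ j, |A⁻¹ i j|) * (1 / C) := mul_le_mul_of_nonneg_right
        (Finset.single_le_sum (f := fun i => ∑ j, |A⁻¹ i j|) (fun _ _ => Finset.sum_nonneg fun _ _ => abs_nonneg _)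
          (Finset.mem_univ i)) (by positivity)
    _ < C * (1 / C) := mul_lt_mul_of_pos_right (by linarith) (by positivity)
    _ = 1 := by field_simp

/-- elements modulo rational numbers with absolute values near `1` -/
theorem disc1 {α : K} (hα : IntermediateField.adjoin ℚ {α} = ⊤) {g s : ℕ} {a : Fin (g + 1) → ℤ}
    (hroot : aeval α (polZ a) = 0) (P Q : Fin s → ℤ[X]) (h : OKn P Q a) (hs : s + 1 ≤ Fintype.card (InfinitePlace K))
    (N : ℕ) (hN : 1 ≤ N) (c : Fin s → ℚ) (hc : ∀ j, c j ≠ 0) :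
    (∀ j, aeval α (P j) ≠ 0 ∧ aeval α (Q j) ≠ 0) ∧
    ∃ ε : ℝ, 0 < ε ∧ ∀ n : Fin s → ℤ,
      (∀ w : InfinitePlace K, |Real.log (w (∏ j, ((aeval α (P j) / aeval α (Q j)) ^ N / (c j : K)) ^ n j))| < ε) →
        n = 0 := by
  classical
  have hw0 : Nonempty (InfinitePlace K) := inferInstance
  have hne : ∀ j, aeval α (P j) ≠ 0 ∧ aeval α (Q j) ≠ 0 := by
    intro j
    obtain ⟨w⟩ := hw0
    have h1 := h.2.1 _ (hom_root hroot w.embedding) j
    rw [← hom_aeval, ← hom_aeval] at h1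
    exact ⟨fun h0 => h1.1 (by rw [h0, map_zero]), fun h0 => h1.2 (by rw [h0, map_zero])⟩
  refine ⟨hne, ?_⟩
  obtain ⟨e⟩ : Nonempty (Fin (s + 1) ↪ InfinitePlace K) := by
    refine Function.Embedding.nonempty_of_card_le ?_
    rw [Fintype.card_fin]
    exact hs
  have hdet := h.2.2 (fun t => up α (e t)) ((up_inj hα).comp e.injective) fun t => ⟨up_root hroot _, up_im _ _⟩
  obtain ⟨ε, hε, H⟩ := small_real _ hdet
  refine ⟨ε, hε, fun n hn => ?_⟩
  have hc' : ∀ j, (c j : K) ≠ 0 := fun j => by exact_mod_cast hc j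
  set b : Fin (s + 1) → ℝ := Fin.lastCases (-∑ j, (n j : ℝ) * Real.log |(c j : ℝ)|) fun j => (N : ℝ) * n j with hb
  have key := H b fun t => by
    have h1 := hn (e t)
    have h2 : Real.log ((e t) (∏ j, ((aeval α (P j) / aeval α (Q j)) ^ N / (c j : K)) ^ n j)) =
        ∑ j, (Matrix.of fun t : Fin (s + 1) => (Fin.lastCases 1 fun j : Fin s =>
          Real.log ‖((P j).map (Int.castRingHom ℂ)).eval (up α (e t)) /
          ((Q j).map (Int.castRingHom ℂ)).eval (up α (e t))‖ : Fin (s + 1) → ℝ)) t j * b j := by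
      rw [Fin.sum_univ_castSucc, map_prod, Real.log_prod]
      · simp only [Matrix.of_apply, Fin.lastCases_castSucc, Fin.lastCases_last, hb, one_mul]
        rw [← sub_eq_add_neg, ← Finset.sum_sub_distrib]
        refine Finset.sum_congr rfl fun j _ => ?_
        have h3 : (e t) (c j : K) = |(c j : ℝ)| := by
          rw [← InfinitePlace.norm_embedding_eq, map_ratCast]
          rw [show ((c j : ℚ) : ℂ) = (((c j : ℚ) : ℝ) : ℂ) by push_cast; rfl, Complex.norm_real, Real.norm_eq_abs]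
        have h4 : (e t) (aeval α (P j)) ≠ 0 := (_root_.map_ne_zero _).2 (hne j).1
        have h5 : (e t) (aeval α (Q j)) ≠ 0 := (_root_.map_ne_zero _).2 (hne j).2
        have h6 : |(c j : ℝ)| ≠ 0 := abs_ne_zero.2 (by exact_mod_cast hc j)
        rw [map_zpow₀, Real.log_zpow, map_div₀, map_pow, map_div₀, norm_div, up_norm, up_norm, h3,
          Real.log_div (pow_ne_zero _ (div_ne_zero h4 h5)) h6, Real.log_pow]
        ring
      · intro j _
        rw [map_zpow₀]
        exact zpow_ne_zero _ ((_root_.map_ne_zero _).2 (div_ne_zero (pow_ne_zero _ (div_ne_zero (hne j).1 (hne j).2)) (hc' j)))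
    rw [h2] at h1
    exact h1
  funext j
  have h1 := key j.castSucc
  simp only [hb, Fin.lastCases_castSucc] at h1
  have h2 : |(N : ℤ) * n j| < 1 := by exact_mod_cast h1
  have h3 := Int.abs_lt_one_iff.1 h2
  rcases mul_eq_zero.1 h3 with h4 | h4
  · omega
  · exact h4

end

open scoped Classical in
/-- all subfamilies -/
theorem det_sub1 {g r : ℕ} (hg : 0 < g) (P Q : Fin r → ℤ[X]) (hP : ∀ j, P j ≠ 0) (hQ : ∀ j, Q j ≠ 0)
    (hind : ∀ (m n : Fin r → ℕ) (c : ℂ), ∏ j, ((P j).map (Int.castRingHom ℂ)) ^ m j * ((Q j).map (Int.castRingHom ℂ)) ^ n j =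
      C c * ∏ j, ((P j).map (Int.castRingHom ℂ)) ^ n j * ((Q j).map (Int.castRingHom ℂ)) ^ m j → m = n) (k : ℕ) :
    ∃ T₀ : ℕ, ∀ T : ℕ, T₀ ≤ T → (k : ℝ) * ((bx g T).filter fun a => ¬ ∀ J : Finset (Fin r),
      OKn (fun t : Fin J.card => P (J.orderEmbOfFin rfl t)) (fun t => Q (J.orderEmbOfFin rfl t)) a).card ≤ (bx g T).card := by
  have h1 : ∀ J : Finset (Fin r), ∃ T₀ : ℕ, ∀ T : ℕ, T₀ ≤ T → ((k * 2 ^ r : ℕ) : ℝ) * ((bx g T).filter fun a =>
      ¬ OKn (fun t : Fin J.card => P (J.orderEmbOfFin rfl t)) (fun t => Q (J.orderEmbOfFin rfl t)) a).card ≤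
      (bx g T).card := by
    intro J
    refine det_all1 hg _ _ (fun t => hP _) (fun t => hQ _) (fun m n c hmn => ?_) (k * 2 ^ r)
    -- extend by zero
    let e := J.orderEmbOfFin (rfl : J.card = J.card)
    have hei : Function.Injective e := e.injective
    let ext : (Fin J.card → ℕ) → Fin r → ℕ := fun m => Function.extend e m fun _ => 0
    have hext : ∀ (m : Fin J.card → ℕ) t, ext m (e t) = m t := fun m t => hei.extend_apply _ _ _
    have hext0 : ∀ (m : Fin J.card → ℕ) j, j ∉ Set.range e → ext m j = 0 := fun m j hj =>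
      Function.extend_apply' _ _ _ (fun ⟨t, ht⟩ => hj ⟨t, ht⟩)
    have hprod : ∀ m n : Fin J.card → ℕ, ∏ j, ((P j).map (Int.castRingHom ℂ)) ^ ext m j *
        ((Q j).map (Int.castRingHom ℂ)) ^ ext n j = ∏ t, ((P (e t)).map (Int.castRingHom ℂ)) ^ m t *
        ((Q (e t)).map (Int.castRingHom ℂ)) ^ n t := by
      intro m n
      symm
      have h2 : ∏ t, ((P (e t)).map (Int.castRingHom ℂ)) ^ m t * ((Q (e t)).map (Int.castRingHom ℂ)) ^ n t =
          ∏ j ∈ Finset.univ.map e.toEmbedding, ((P j).map (Int.castRingHom ℂ)) ^ ext m j *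
            ((Q j).map (Int.castRingHom ℂ)) ^ ext n j := by
        rw [Finset.prod_map]
        refine Finset.prod_congr rfl fun t _ => ?_
        show _ = ((P (e t)).map (Int.castRingHom ℂ)) ^ ext m (e t) * ((Q (e t)).map (Int.castRingHom ℂ)) ^ ext n (e t)
        rw [hext, hext]
      rw [h2]
      refine Finset.prod_subset (Finset.subset_univ _) fun j _ hj => ?_
      have hj' : j ∉ Set.range e := by
        rintro ⟨t, rfl⟩
        exact hj (Finset.mem_map.2 ⟨t, Finset.mem_univ _, rfl⟩)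
      rw [hext0 _ _ hj', hext0 _ _ hj', pow_zero, pow_zero, mul_one]
    have key := hind (ext m) (ext n) c (by rw [hprod, hprod]; exact hmn)
    funext t
    rw [← hext m t, ← hext n t, key]
  choose T₁ hT₁ using h1
  refine ⟨(Finset.univ : Finset (Finset (Fin r))).sup T₁, fun T hT => ?_⟩
  have hsub : ((bx g T).filter fun a => ¬ ∀ J : Finset (Fin r),
      OKn (fun t : Fin J.card => P (J.orderEmbOfFin rfl t)) (fun t => Q (J.orderEmbOfFin rfl t)) a) ⊆
      (Finset.univ : Finset (Finset (Fin r))).biUnion fun J => (bx g T).filter fun a =>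
      ¬ OKn (fun t : Fin J.card => P (J.orderEmbOfFin rfl t)) (fun t => Q (J.orderEmbOfFin rfl t)) a := by
    intro a ha
    rw [Finset.mem_filter, not_forall] at ha
    obtain ⟨ha1, J, hJ⟩ := ha
    exact Finset.mem_biUnion.2 ⟨J, Finset.mem_univ _, Finset.mem_filter.2 ⟨ha1, hJ⟩⟩
  have h2 := (Finset.card_le_card hsub).trans Finset.card_biUnion_le
  have h3 : (((bx g T).filter fun a => ¬ ∀ J : Finset (Fin r),
      OKn (fun t : Fin J.card => P (J.orderEmbOfFin rfl t)) (fun t => Q (J.orderEmbOfFin rfl t)) a).card : ℝ) ≤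
      ∑ J : Finset (Fin r), (((bx g T).filter fun a =>
      ¬ OKn (fun t : Fin J.card => P (J.orderEmbOfFin rfl t)) (fun t => Q (J.orderEmbOfFin rfl t)) a).card : ℝ) := by
    exact_mod_cast h2
  set Bx : ℝ := ((bx g T).card : ℝ) with hBx
  have hcard : Fintype.card (Finset (Fin r)) = 2 ^ r := by rw [Fintype.card_finset, Fintype.card_fin]
  have h4 : (k : ℝ) * 2 ^ r * ∑ J : Finset (Fin r), (((bx g T).filter fun a =>
      ¬ OKn (fun t : Fin J.card => P (J.orderEmbOfFin rfl t)) (fun t => Q (J.orderEmbOfFin rfl t)) a).card : ℝ) ≤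
      2 ^ r * Bx := by
    rw [Finset.mul_sum]
    refine (Finset.sum_le_sum (g := fun _ => Bx) fun J _ => ?_).trans ?_
    · have h5 := hT₁ J T ((Finset.le_sup (Finset.mem_univ J)).trans hT)
      push_cast at h5
      exact h5
    · rw [Finset.sum_const, Finset.card_univ, hcard, nsmul_eq_mul]
      push_cast
      exact le_rfl
  have h2r : (0 : ℝ) < 2 ^ r := by positivity
  have h6 : (2 : ℝ) ^ r * ((k : ℝ) * (((bx g T).filter fun a => ¬ ∀ J : Finset (Fin r),
      OKn (fun t : Fin J.card => P (J.orderEmbOfFin rfl t)) (fun t => Q (J.orderEmbOfFin rfl t)) a).card : ℝ)) ≤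
      2 ^ r * Bx := by
    refine le_trans ?_ h4
    have h7 : 0 ≤ (k : ℝ) * 2 ^ r := by positivity
    calc _ = (k : ℝ) * 2 ^ r * (((bx g T).filter fun a => ¬ ∀ J : Finset (Fin r),
      OKn (fun t : Fin J.card => P (J.orderEmbOfFin rfl t)) (fun t => Q (J.orderEmbOfFin rfl t)) a).card : ℝ) := by ring
      _ ≤ _ := mul_le_mul_of_nonneg_left h3 h7
  exact le_of_mul_le_mul_left h6 h2r

end Pool.Agent.X255.RH
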