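import Mathlib

/-!
# A quantitative form of Kronecker's theorem
-/

set_option autoImplicit false

open Filter Topology Finset

namespace Pool.Agent.X255.RH.Kron

/-- `exp (2 π i t)` -/
noncomputable def e (t : ℝ) : ℂ := Complex.exp (Complex.I * ((2 * Real.pi * t : ℝ) : ℂ))

theorem e_norm (t : ℝ) : ‖e t‖ = 1 := by
  unfold e
  rw [mul_comm]
  exact Complex.norm_exp_ofReal_mul_I _

theorem e_ne (t : ℝ) : e t ≠ 0 := Complex.exp_ne_zero _

theorem e_add (s t : ℝ) : e (s + t) = e s * e t := by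
  unfold e
  rw [← Complex.exp_add]
  congr 1
  push_cast
  ring

theorem e_nat (m : ℕ) (t : ℝ) : e (m * t) = e t ^ m := by
  unfold e
  rw [← Complex.exp_nat_mul]
  congr 1
  push_cast
  ring

theorem e_zero : e 0 = 1 := by
  unfold e
  simp

theorem e_eq_one {t : ℝ} (h : e t = 1) : ∃ n : ℤ, t = n := by
  unfold e at h
  rw [Complex.exp_eq_one_iff] at h
  obtain ⟨n, hn⟩ := h
  refine ⟨n, ?_⟩
  have h1 : (2 * Real.pi * Complex.I) * (t : ℂ) = (2 * Real.pi * Complex.I) * n := by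
    push_cast at hn
    linear_combination hn
  have h2 : (2 * Real.pi * Complex.I : ℂ) ≠ 0 := Complex.two_pi_I_ne_zero
  have h3 := mul_left_cancel₀ h2 h1
  exact_mod_cast h3

theorem e_int (n : ℤ) : e n = 1 := by
  unfold e
  rw [Complex.exp_eq_one_iff]
  exact ⟨n, by push_cast; ring⟩

theorem e_sub_int (t : ℝ) (n : ℤ) : e (t - n) = e t := by
  have h := e_add (t - n) n
  rw [sub_add_cancel, e_int, mul_one] at h
  exact h.symm

theorem e_sum {ι : Type} (s : Finset ι) (f : ι → ℝ) : e (∑ i ∈ s, f i) = ∏ i ∈ s, e (f i) := by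
  classical
  induction s using Finset.induction_on with
  | empty => rw [Finset.sum_empty, Finset.prod_empty, e_zero]
  | insert a s ha ih => rw [Finset.sum_insert ha, Finset.prod_insert ha, e_add, ih]

theorem e_sub_one {t ε : ℝ} (hε : 0 ≤ ε) (h : ∀ p : ℤ, ε ≤ |t - p|) : 4 * ε ≤ ‖e t - 1‖ := by
  set u : ℝ := t - round t with hu
  have h1 : |u| ≤ 1 / 2 := abs_sub_round t
  have h2 : ε ≤ |u| := h _
  have h3 : e t = e u := (e_sub_int t _).symm
  rw [h3]
  unfold e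
  rw [Complex.norm_exp_I_mul_ofReal_sub_one, Real.norm_eq_abs, abs_mul, abs_two,
    show 2 * Real.pi * u / 2 = Real.pi * u by ring]
  have h4 : 2 / Real.pi * |Real.pi * u| ≤ |Real.sin (Real.pi * u)| := by
    refine Real.mul_abs_le_abs_sin ?_
    rw [abs_mul, abs_of_pos Real.pi_pos]
    have := mul_le_mul_of_nonneg_left h1 Real.pi_pos.le
    linarith
  rw [abs_mul, abs_of_pos Real.pi_pos] at h4
  have h5 : 2 / Real.pi * (Real.pi * |u|) = 2 * |u| := by
    field_simp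
  linarith

/-- the Dirichlet sum -/
noncomputable def D (N : ℕ) (t : ℝ) : ℂ := ∑ a : Fin N, e ((a : ℕ) * t)

theorem D_le (N : ℕ) (t : ℝ) : ‖D N t‖ ≤ N := by
  unfold D
  refine (norm_sum_le _ _).trans ?_
  simp only [e_norm, Finset.sum_const, Finset.card_univ, Fintype.card_fin, nsmul_eq_mul, mul_one]
  exact le_rfl

theorem D_far {N : ℕ} {t ε : ℝ} (hε : 0 < ε) (h : ∀ p : ℤ, ε ≤ |t - p|) : ‖D N t‖ ≤ 1 / (2 * ε) := by
  have h1 := e_sub_one hε.le h
  have h2 : e t - 1 ≠ 0 := by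
    intro h0
    rw [h0, norm_zero] at h1
    linarith
  have h3 : D N t * (e t - 1) = e t ^ N - 1 := by
    unfold D
    simp only [e_nat]
    rw [Fin.sum_univ_eq_sum_range (fun a => e t ^ a) N]
    exact geom_sum_mul _ _
  have h4 : ‖D N t‖ * ‖e t - 1‖ ≤ 2 := by
    rw [← norm_mul, h3]
    refine (norm_sub_le _ _).trans ?_
    rw [norm_pow, e_norm, one_pow, norm_one]
    norm_num
  rw [le_div_iff₀ (by positivity)]
  have h5 : ‖D N t‖ * (4 * ε) ≤ ‖D N t‖ * ‖e t - 1‖ := mul_le_mul_of_nonneg_left h1 (norm_nonneg _)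
  linarith

theorem mean_pow {z : ℂ} (hz : ‖z‖ = 1) (h1 : z ≠ 1) :
    Tendsto (fun M : ℕ => (∑ m ∈ range M, z ^ m) / (M : ℂ)) atTop (𝓝 0) := by
  have h2 : 0 < ‖z - 1‖ := norm_pos_iff.2 (sub_ne_zero.2 h1)
  refine squeeze_zero_norm (a := fun M : ℕ => (2 / ‖z - 1‖) / (M : ℝ)) (fun M => ?_) ?_
  · rw [norm_div, Complex.norm_natCast]
    refine div_le_div_of_nonneg_right ?_ (Nat.cast_nonneg M)
    rw [le_div_iff₀ h2, ← norm_mul, geom_sum_mul]
    refine (norm_sub_le _ _).trans ?_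
    rw [norm_pow, hz, one_pow, norm_one]
    norm_num
  · exact tendsto_const_div_atTop_nhds_zero_nat _

/-- mean squares of exponential sums -/
theorem mean_sq {ι : Type} [Fintype ι] [DecidableEq ℂ] (b ζ : ι → ℂ) (hζ : ∀ i, ‖ζ i‖ = 1) (c : ℝ)
    (hc : ∀ m : ℕ, ‖∑ i, b i * ζ i ^ m‖ ^ 2 ≤ c) :
    (∑ i, ∑ j, if ζ i = ζ j then b i * (starRingEnd ℂ) (b j) else 0).re ≤ c := by
  have h1 : Tendsto (fun M : ℕ => ∑ i, ∑ j, b i * (starRingEnd ℂ) (b j) *
      ((∑ m ∈ range M, (ζ i * (starRingEnd ℂ) (ζ j)) ^ m) / (M : ℂ))) atTop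
      (𝓝 (∑ i, ∑ j, if ζ i = ζ j then b i * (starRingEnd ℂ) (b j) else 0)) := by
    refine tendsto_finsetSum _ fun i _ => tendsto_finsetSum _ fun j _ => ?_
    have hj : ζ j * (starRingEnd ℂ) (ζ j) = 1 := by
      rw [Complex.mul_conj, Complex.normSq_eq_norm_sq, hζ]
      norm_num
    by_cases hij : ζ i = ζ j
    · rw [if_pos hij, hij, hj]
      have h2 : Tendsto (fun M : ℕ => b i * (starRingEnd ℂ) (b j) * ((∑ m ∈ range M, (1 : ℂ) ^ m) / (M : ℂ))) atTop
          (𝓝 (b i * (starRingEnd ℂ) (b j) * 1)) := by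
        refine Tendsto.const_mul _ ?_
        refine tendsto_const_nhds.congr' ?_
        filter_upwards [eventually_gt_atTop 0] with M hM
        have : (M : ℂ) ≠ 0 := by exact_mod_cast hM.ne'
        simp only [one_pow, Finset.sum_const, Finset.card_range, nsmul_eq_mul, mul_one]
        rw [div_self this]
      rwa [mul_one] at h2
    · rw [if_neg hij]
      have h2 : ζ i * (starRingEnd ℂ) (ζ j) ≠ 1 := by
        intro h
        apply hij
        have h3 : (starRingEnd ℂ) (ζ j) ≠ 0 := fun h0 => by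
          rw [h0, mul_zero] at h
          exact zero_ne_one h
        exact mul_right_cancel₀ h3 (h.trans hj.symm)
      have h3 := (mean_pow (z := ζ i * (starRingEnd ℂ) (ζ j)) (by
        rw [norm_mul, Complex.norm_conj, hζ, hζ, one_mul]) h2).const_mul (b i * (starRingEnd ℂ) (b j))
      rwa [mul_zero] at h3
  have h2 := (Complex.continuous_re.tendsto _).comp h1
  refine le_of_tendsto h2 ?_
  filter_upwards [eventually_gt_atTop 0] with M hM
  have hMp : (0 : ℝ) < M := by exact_mod_cast hM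
  have h3 : (∑ i, ∑ j, b i * (starRingEnd ℂ) (b j) * ((∑ m ∈ range M, (ζ i * (starRingEnd ℂ) (ζ j)) ^ m) / (M : ℂ))) =
      (((∑ m ∈ range M, ‖∑ i, b i * ζ i ^ m‖ ^ 2) / M : ℝ) : ℂ) := by
    push_cast
    have h4 : ∀ m : ℕ, ((‖∑ i, b i * ζ i ^ m‖ : ℂ)) ^ 2 =
        ∑ i, ∑ j, b i * (starRingEnd ℂ) (b j) * (ζ i * (starRingEnd ℂ) (ζ j)) ^ m := by
      intro m
      rw [← Complex.ofReal_pow, ← Complex.normSq_eq_norm_sq, ← Complex.mul_conj, map_sum, Finset.sum_mul_sum]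
      refine Finset.sum_congr rfl fun i _ => Finset.sum_congr rfl fun j _ => ?_
      rw [map_mul, map_pow]
      ring
    simp only [h4, Finset.sum_div, Finset.mul_sum]
    symm
    rw [Finset.sum_comm]
    refine Finset.sum_congr rfl fun i _ => ?_
    rw [Finset.sum_comm]
    refine Finset.sum_congr rfl fun j _ => Finset.sum_congr rfl fun m _ => ?_
    ring
  show (∑ i, ∑ j, b i * (starRingEnd ℂ) (b j) * ((∑ m ∈ range M, (ζ i * (starRingEnd ℂ) (ζ j)) ^ m) / (M : ℂ))).re ≤ c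
  rw [h3, Complex.ofReal_re, div_le_iff₀ hMp]
  calc ∑ m ∈ range M, ‖∑ i, b i * ζ i ^ m‖ ^ 2 ≤ ∑ _m ∈ range M, c := Finset.sum_le_sum fun m _ => hc m
    _ = c * M := by rw [Finset.sum_const, Finset.card_range, nsmul_eq_mul, mul_comm]

/-- pairs with equal values -/
theorem pairs {J V : Type} [Fintype J] [DecidableEq V] (ν : J → V) (t : Finset V) (ht : ∀ a, ν a ∈ t) :
    ((Fintype.card J : ℝ)) ^ 2 ≤ t.card * ∑ a : J, ∑ b : J, if ν a = ν b then (1 : ℝ) else 0 := by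
  classical
  have h1 : (Fintype.card J : ℝ) = ∑ v ∈ t, ((univ.filter fun a => ν a = v).card : ℝ) := by
    rw [← Finset.card_univ, Finset.card_eq_sum_card_fiberwise (f := ν) (t := t) (fun a _ => ht a)]
    push_cast
    rfl
  have h2 : ∑ a : J, ∑ b : J, (if ν a = ν b then (1 : ℝ) else 0) = ∑ v ∈ t, ((univ.filter fun a => ν a = v).card : ℝ) ^ 2 := by
    have h3 : ∀ a : J, ∑ b : J, (if ν a = ν b then (1 : ℝ) else 0) = ((univ.filter fun b => ν b = ν a).card : ℝ) := by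
      intro a
      rw [Finset.sum_boole]
      congr 2
      ext b
      simp only [Finset.mem_filter, Finset.mem_univ, true_and]
      exact eq_comm
    rw [Finset.sum_congr rfl fun a _ => h3 a]
    rw [← Finset.sum_fiberwise_of_maps_to (g := ν) (t := t) (fun a _ => ht a)]
    refine Finset.sum_congr rfl fun v _ => ?_
    calc ∑ a ∈ univ.filter (fun a => ν a = v), ((univ.filter fun b => ν b = ν a).card : ℝ) =
        ∑ _a ∈ univ.filter (fun a => ν a = v), ((univ.filter fun b => ν b = v).card : ℝ) :=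
          Finset.sum_congr rfl fun a ha => by rw [(Finset.mem_filter.1 ha).2]
      _ = _ := by rw [Finset.sum_const, nsmul_eq_mul, sq]
  rw [h1, h2]
  exact sq_sum_le_card_mul_sum_sq

/-- **Kronecker's theorem, quantitative.** -/
theorem kron {q N : ℕ} (hq : 1 ≤ q) (hN : 1 ≤ N) (x y : Fin q → ℝ) {ε : ℝ} (hε : 0 < ε) (hεN : (q : ℝ) < 4 * ε ^ 2 * N)
    (hx : ∀ n : Fin q → ℤ, n ≠ 0 → (∀ i, |n i| ≤ q * N) → ∀ n0 : ℤ, ∑ i, (n i : ℝ) * x i ≠ n0) :
    ∃ (m : ℕ) (p : Fin q → ℤ), ∀ i, |m * x i - y i - p i| < ε := by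
  classical
  by_contra hcon
  push Not at hcon
  -- for every `m` some coordinate is far from all integers
  have hfar : ∀ m : ℕ, ∃ i, ∀ p : ℤ, ε ≤ |m * x i - y i - p| := by
    intro m
    by_contra h
    push Not at h
    choose p hp using h
    obtain ⟨i, hi⟩ := hcon m p
    linarith [hp i]
  let J := Fin q × Fin q → Fin N
  let b : J → ℂ := fun a => ∏ j : Fin q × Fin q, e (-((a j : ℕ) * y j.1))
  let ζ : J → ℂ := fun a => ∏ j : Fin q × Fin q, e ((a j : ℕ) * x j.1)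
  have hζ : ∀ a, ‖ζ a‖ = 1 := fun a => by
    show ‖∏ j : Fin q × Fin q, e ((a j : ℕ) * x j.1)‖ = 1
    rw [norm_prod, Finset.prod_eq_one fun j _ => e_norm _]
  have hb : ∀ a, ‖b a‖ = 1 := fun a => by
    show ‖∏ j : Fin q × Fin q, e (-((a j : ℕ) * y j.1))‖ = 1
    rw [norm_prod, Finset.prod_eq_one fun j _ => e_norm _]
  have hF : ∀ m : ℕ, ∑ a, b a * ζ a ^ m = ∏ j : Fin q × Fin q, D N (m * x j.1 - y j.1) := by
    intro m
    unfold D
    rw [Finset.prod_univ_sum, Fintype.piFinset_univ]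
    refine Finset.sum_congr rfl fun a _ => ?_
    show (∏ j : Fin q × Fin q, e (-((a j : ℕ) * y j.1))) * (∏ j : Fin q × Fin q, e ((a j : ℕ) * x j.1)) ^ m = _
    rw [← Finset.prod_pow, ← Finset.prod_mul_distrib]
    refine Finset.prod_congr rfl fun j _ => ?_
    rw [← e_nat, ← e_add]
    congr 1
    ring
  have hNr : (1 : ℝ) ≤ N := by exact_mod_cast hN
  have hbound : ∀ m : ℕ, ‖∑ a, b a * ζ a ^ m‖ ^ 2 ≤ ((N : ℝ) ^ (q * (q - 1)) * (1 / (2 * ε)) ^ q) ^ 2 := by
    intro m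
    obtain ⟨i, hi⟩ := hfar m
    refine pow_le_pow_left₀ (norm_nonneg _) ?_ 2
    rw [hF, norm_prod, Fintype.prod_prod_type]
    simp only [Finset.prod_const, Finset.card_univ, Fintype.card_fin]
    rw [← Finset.mul_prod_erase _ _ (Finset.mem_univ i)]
    rw [mul_comm ((N : ℝ) ^ (q * (q - 1)))]
    refine mul_le_mul (pow_le_pow_left₀ (norm_nonneg _) (D_far hε hi) q) ?_ (Finset.prod_nonneg fun _ _ => by positivity)
      (by positivity)
    calc ∏ i' ∈ univ.erase i, ‖D N (m * x i' - y i')‖ ^ q ≤ ∏ _i' ∈ univ.erase i, (N : ℝ) ^ q :=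
          Finset.prod_le_prod (fun _ _ => by positivity) fun i' _ => pow_le_pow_left₀ (norm_nonneg _) (D_le _ _) q
      _ = (N : ℝ) ^ (q * (q - 1)) := by
          rw [Finset.prod_const, Finset.card_erase_of_mem (Finset.mem_univ i), Finset.card_univ, Fintype.card_fin,
            ← pow_mul]
  have h1 := mean_sq b ζ hζ _ hbound
  -- equal values
  let ν : J → Fin q → ℕ := fun a i => ∑ k : Fin q, (a (i, k) : ℕ)
  have hνx : ∀ a, ζ a = e (∑ i, (ν a i : ℝ) * x i) := by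
    intro a
    show ∏ j : Fin q × Fin q, e ((a j : ℕ) * x j.1) = _
    rw [← e_sum, Fintype.sum_prod_type]
    congr 1
    refine Finset.sum_congr rfl fun i _ => ?_
    show ∑ k : Fin q, ((a (i, k) : ℕ) : ℝ) * x i = ((∑ k : Fin q, (a (i, k) : ℕ) : ℕ) : ℝ) * x i
    push_cast
    rw [Finset.sum_mul]
  have hνy : ∀ a, b a = e (-∑ i, (ν a i : ℝ) * y i) := by
    intro a
    show ∏ j : Fin q × Fin q, e (-((a j : ℕ) * y j.1)) = _
    rw [← e_sum, Fintype.sum_prod_type, ← Finset.sum_neg_distrib]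
    congr 1
    refine Finset.sum_congr rfl fun i _ => ?_
    show ∑ k : Fin q, -(((a (i, k) : ℕ) : ℝ) * y i) = -(((∑ k : Fin q, (a (i, k) : ℕ) : ℕ) : ℝ) * y i)
    push_cast
    rw [Finset.sum_mul, Finset.sum_neg_distrib]
  have hνle : ∀ a i, ν a i < q * N := by
    intro a i
    have h2 : ν a i ≤ ∑ _k : Fin q, (N - 1) := Finset.sum_le_sum fun k _ => by have := (a (i, k)).isLt; omega
    rw [Finset.sum_const, Finset.card_univ, Fintype.card_fin, smul_eq_mul] at h2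
    have h3 : q * (N - 1) < q * N := Nat.mul_lt_mul_of_pos_left (by omega) (by omega)
    omega
  have heq : ∀ a a', ζ a = ζ a' → ν a = ν a' := by
    intro a a' h
    by_contra hne
    rw [hνx, hνx] at h
    have h2 : e (∑ i, (ν a i : ℝ) * x i - ∑ i, (ν a' i : ℝ) * x i) = 1 := by
      have h3 := e_add (∑ i, (ν a i : ℝ) * x i - ∑ i, (ν a' i : ℝ) * x i) (∑ i, (ν a' i : ℝ) * x i)
      rw [sub_add_cancel, h] at h3
      exact mul_right_cancel₀ (e_ne _) ((one_mul _).trans h3).symm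
    obtain ⟨n0, hn0⟩ := e_eq_one h2
    refine hx (fun i => (ν a i : ℤ) - ν a' i) (fun h3 => hne ?_) (fun i => ?_) n0 ?_
    · funext i
      have := congrFun h3 i
      simp only [Pi.zero_apply] at this
      omega
    · have h3 := hνle a i
      have h4 := hνle a' i
      have h5 : ((q * N : ℕ) : ℤ) = (q : ℤ) * N := by push_cast; ring
      rw [abs_le]
      constructor <;> omega
    · rw [← hn0, ← Finset.sum_sub_distrib]
      refine Finset.sum_congr rfl fun i _ => ?_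
      push_cast
      ring
  have h2 : (∑ a, ∑ a', if ζ a = ζ a' then b a * (starRingEnd ℂ) (b a') else 0) =
      ((∑ a : J, ∑ a' : J, if ν a = ν a' then (1 : ℝ) else 0 : ℝ) : ℂ) := by
    push_cast
    refine Finset.sum_congr rfl fun a _ => Finset.sum_congr rfl fun a' _ => ?_
    by_cases h3 : ν a = ν a'
    · have h4 : ζ a = ζ a' := by rw [hνx, hνx, h3]
      have h5 : b a = b a' := by rw [hνy, hνy, h3]
      rw [if_pos h4, if_pos h3, h5, Complex.mul_conj, Complex.normSq_eq_norm_sq, hb]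
      norm_num
    · rw [if_neg (fun h4 => h3 (heq a a' h4)), if_neg h3]
      norm_num
  rw [h2, Complex.ofReal_re] at h1
  have h3 := pairs ν (Fintype.piFinset fun _ : Fin q => range (q * N)) (fun a => Fintype.mem_piFinset.2 fun i =>
    Finset.mem_range.2 (hνle a i))
  have hJ : (Fintype.card J : ℝ) = (N : ℝ) ^ (q * q) := by
    show ((Fintype.card (Fin q × Fin q → Fin N) : ℕ) : ℝ) = _
    rw [Fintype.card_fun, Fintype.card_fin, Fintype.card_prod, Fintype.card_fin]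
    push_cast
    rfl
  have hV : ((Fintype.piFinset fun _ : Fin q => range (q * N)).card : ℝ) = ((q : ℝ) * N) ^ q := by
    rw [Fintype.card_piFinset, Finset.prod_const, Finset.card_range, Finset.card_univ, Fintype.card_fin]
    push_cast
    rfl
  rw [hJ, hV] at h3
  have hqN : 0 < ((q : ℝ) * N) ^ q := by
    have : (0 : ℝ) < q := by exact_mod_cast hq
    positivity
  have h4 : ((N : ℝ) ^ (q * q)) ^ 2 ≤ ((q : ℝ) * N) ^ q * ((N : ℝ) ^ (q * (q - 1)) * (1 / (2 * ε)) ^ q) ^ 2 :=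
    h3.trans (mul_le_mul_of_nonneg_left h1 hqN.le)
  have hNp : (0 : ℝ) < N := by linarith
  have h5 : (N : ℝ) ^ (q * q) = (N : ℝ) ^ (q * (q - 1)) * (N : ℝ) ^ q := by
    rw [← pow_add]
    congr 1
    obtain ⟨q', rfl⟩ : ∃ q', q = q' + 1 := ⟨q - 1, by omega⟩
    rw [Nat.add_sub_cancel]
    ring
  rw [h5] at h4
  have h6 : ((N : ℝ) ^ q) ^ 2 ≤ ((q : ℝ) * N) ^ q * ((1 / (2 * ε)) ^ q) ^ 2 := by
    have h7 : 0 < ((N : ℝ) ^ (q * (q - 1))) ^ 2 := by positivity
    refine le_of_mul_le_mul_left ?_ h7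
    calc ((N : ℝ) ^ (q * (q - 1))) ^ 2 * ((N : ℝ) ^ q) ^ 2 = ((N : ℝ) ^ (q * (q - 1)) * (N : ℝ) ^ q) ^ 2 := by ring
      _ ≤ _ := h4
      _ = _ := by ring
  have h7 : (4 * ε ^ 2 * N) ^ q ≤ (q : ℝ) ^ q := by
    have h8 : ((2 * ε) ^ q) ^ 2 * ((1 / (2 * ε)) ^ q) ^ 2 = 1 := by
      rw [← mul_pow, ← mul_pow, mul_one_div_cancel (by positivity), one_pow, one_pow]
    have h9 : (N : ℝ) ^ q * (4 * ε ^ 2 * N) ^ q ≤ (N : ℝ) ^ q * (q : ℝ) ^ q := by
      calc (N : ℝ) ^ q * (4 * ε ^ 2 * N) ^ q = ((2 * ε) ^ q) ^ 2 * ((N : ℝ) ^ q) ^ 2 := by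
            rw [← pow_mul, ← pow_mul, mul_comm q 2, pow_mul, pow_mul, ← mul_pow, ← mul_pow]
            congr 1
            ring
        _ ≤ ((2 * ε) ^ q) ^ 2 * (((q : ℝ) * N) ^ q * ((1 / (2 * ε)) ^ q) ^ 2) :=
            mul_le_mul_of_nonneg_left h6 (by positivity)
        _ = (((2 * ε) ^ q) ^ 2 * ((1 / (2 * ε)) ^ q) ^ 2) * ((q : ℝ) * N) ^ q := by ring
        _ = (N : ℝ) ^ q * (q : ℝ) ^ q := by rw [h8, one_mul, mul_pow]; ring
    exact le_of_mul_le_mul_left h9 (by positivity)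
  have h8 : (q : ℝ) ^ q < (4 * ε ^ 2 * N) ^ q := pow_lt_pow_left₀ hεN (Nat.cast_nonneg q) (by omega)
  linarith

end Pool.Agent.X255.RH.Kron
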