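import Pool.Agent.X255.RH.Avd3
import Pool.Agent.X255.RH.Kron

/-!
# Density: polynomials with integral parameters
-/

set_option autoImplicit false
set_option linter.unusedSectionVars false

open Polynomial Filter Topology NumberField

namespace Pool.Agent.X255.RH

open Pool.Agent.Y890.SP Pool.Agent.X255.NP
open Pool.Agent.Y124 (Cov eval_eq_box sV sV_inj exists_sV')

variable {σ : Type} [Fintype σ] [DecidableEq σ] {V : Set ℂ} {f : σ → ℂ → ℂ} {g : ℕ}

theorem Mea.monoB {Q : Type} [Fintype Q] [DecidableEq Q] {ξ : ℕ → ℂ} {k : ℕ} {B B' T : ℝ} (hB : B ≤ B') (hT : 1 ≤ T)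
    {x : Q → ℂ} (h : Mea ξ k B T x) : Mea ξ k B' T x := fun c hc l₀ =>
  (mul_le_mul_of_nonneg_right (Real.rpow_le_rpow_of_exponent_le hT (neg_le_neg hB)) (norm_nonneg _)).trans (h c hc l₀)

/-- all roots in the cut plane, in a compact position, and the lower bounds for the values -/
def AllB (S : Finset ℂ) (f : ℕ → σ → ℂ → ℂ) (m : ℕ) (ξ : ℕ → ℂ) (K : ℕ) (B R η T : ℝ) (a : Fin (g + 1) → ℤ) : Prop :=
  ∃ z : Fin g → ℂ, IsRoots a z ∧ Function.Injective z ∧ (∀ i, z i ∈ Cut S (dir m)) ∧ (∀ i, ‖z i‖ ≤ R) ∧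
    (∀ i, ∀ c ∈ S, η ≤ ‖z i - c‖) ∧ Mea ξ K B T fun q : Fin g × σ => f m q.2 (z q.1)

open scoped Classical in
/-- **Almost all polynomials, all roots.** -/
theorem all_cutB (hg : 0 < g) (S : Finset ℂ) (f : ℕ → σ → ℂ → ℂ)
    (hf : ∀ m v, AnalyticOnNhd ℂ (f m v) (Cut S (dir m))) (h : ∀ m, Indep (Cut S (dir m)) (f m)) (k : ℕ) :
    ∃ (K : ℕ) (B R η : ℝ), k ≤ K ∧ 1 ≤ K ∧ 0 < η ∧ ∃ T₀ : ℕ, ∀ T : ℕ, T₀ ≤ T → ∀ ξ : ℕ → ℂ,
      (k : ℝ) * ((bx g T).filter fun a => ¬ ∃ m < g * S.card + 1, AllB S f m ξ K B R η T a).card ≤ (bx g T).card := by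
  set M : ℕ := g * S.card + 1 with hM
  obtain ⟨δ, hδ, hsep⟩ := exists_sep M
  set K : ℕ := (k + 1) * (M + 1) with hK
  have hK1 : 1 ≤ K := Nat.mul_pos (Nat.succ_pos _) (Nat.succ_pos _)
  have hkK : k ≤ K := by nlinarith [Nat.zero_le k, Nat.zero_le M]
  have hKr : (0 : ℝ) < K := by exact_mod_cast hK1
  have hm : ∀ m, ∃ (B : ℝ) (T₀ : ℕ), ∀ T, T₀ ≤ T → ∀ ξ : ℕ → ℂ,
      (K : ℝ) * ((bx g T).filter fun a => ¬ GoodM (Adm S δ (dir m)) (f m) ξ K B T a).card ≤ (bx g T).card :=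
    fun m => mea_cut hg hδ (dir_norm m) (hf m) (h m) K hK1
  choose B T₁ hB using hm
  obtain ⟨R, η, T₂, hη, hinn⟩ := inn_count (g := g) hg (tame_univ_compl S) (δ := 1 / (K : ℝ)) (by positivity)
  set B' : ℝ := ∑ m ∈ Finset.range M, |B m| with hB'
  have hBm : ∀ m < M, B m ≤ B' := fun m hm => (le_abs_self _).trans
    (Finset.single_le_sum (f := fun m => |B m|) (fun _ _ => abs_nonneg _) (Finset.mem_range.2 hm))
  refine ⟨K, B', R, η, hkK, hK1, hη, max (max 1 T₂) ((Finset.range M).sup T₁), fun T hT ξ => ?_⟩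
  have hTone : 1 ≤ T := ((le_max_left _ _).trans (le_max_left _ _)).trans hT
  have hTone' : (1 : ℝ) ≤ T := by exact_mod_cast hTone
  have hT2 : T₂ ≤ T := ((le_max_right _ _).trans (le_max_left _ _)).trans hT
  have hT1 : ∀ m < M, T₁ m ≤ T := fun m hm =>
    (Finset.le_sup (f := T₁) (Finset.mem_range.2 hm)).trans ((le_max_right _ _).trans hT)
  have hsub : ((bx g T).filter fun a => ¬ ∃ m < M, AllB S f m ξ K B' R η T a) ⊆
      ((bx g T).filter fun a => ¬ Inn Set.univ ((S : Set ℂ)ᶜ) R η a) ∪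
      (Finset.range M).biUnion fun m => (bx g T).filter fun a => ¬ GoodM (Adm S δ (dir m)) (f m) ξ K (B m) T a := by
    intro a ha
    rw [Finset.mem_filter] at ha
    rw [Finset.mem_union]
    by_cases hi : Inn Set.univ ((S : Set ℂ)ᶜ) R η a
    swap
    · exact Or.inl (Finset.mem_filter.2 ⟨ha.1, hi⟩)
    right
    obtain ⟨z, hz, h1, h2, h3⟩ := hi
    have hinj : Function.Injective z := by
      intro i j hij
      by_contra hne
      have h4 := h2 i j hne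
      rw [hij, sub_self, norm_zero] at h4
      linarith
    have hzS : ∀ i, z i ∉ S := fun i hi => h3 i (Set.mem_univ _) (Metric.mem_ball_self hη) hi
    obtain ⟨m, hmM, hadm⟩ := exists_dir S (δ := δ) hsep z hzS
    rw [Finset.mem_biUnion]
    refine ⟨m, Finset.mem_range.2 hmM, Finset.mem_filter.2 ⟨ha.1, fun hgood => ha.2 ⟨m, hmM, z, hz, hinj, fun i =>
      adm_cut hδ (dir_norm m) (hadm i) (hzS i), h1, fun i c hc => ?_, Mea.monoB (hBm m hmM) hTone' ?_⟩⟩⟩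
    · by_contra hlt
      rw [not_le] at hlt
      exact h3 i (Set.mem_univ _) (show c ∈ Metric.ball (z i) η by
        rw [Metric.mem_ball, dist_eq_norm, norm_sub_rev]
        exact hlt) hc
    have h1 : Function.Bijective (fun i : Fin g => (⟨z i, (mem_rts hz.1).2 ⟨hz.root i, hadm i⟩⟩ :
        {x // x ∈ rts (Adm S δ (dir m)) a})) := by
      constructor
      · intro i j hij
        exact hinj (Subtype.mk.inj hij)
      · rintro ⟨x, hx⟩
        obtain ⟨hx1, hx2⟩ := (mem_rts hz.1).1 hx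
        obtain ⟨i, rfl⟩ := (IsRoots.root_iff hz).1 hx1
        exact ⟨i, rfl⟩
    let e : Fin g ≃ {x // x ∈ rts (Adm S δ (dir m)) a} := Equiv.ofBijective _ h1
    refine Mea.of_equiv (e.symm.prodCongr (Equiv.refl σ)) ?_
    have h5 := hgood.2.2
    convert h5 using 1
    funext q
    obtain ⟨q1, q2⟩ := q
    show f m q2 (z (e.symm q1)) = f m q2 q1
    have h6 : ((e (e.symm q1) : {x // x ∈ rts (Adm S δ (dir m)) a}) : ℂ) = z (e.symm q1) := rfl
    rw [← h6, Equiv.apply_symm_apply]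
  have h1 := (Finset.card_le_card hsub).trans (Finset.card_union_le _ _)
  have h2 : ((((bx g T).filter fun a => ¬ ∃ m < M, AllB S f m ξ K B' R η T a).card : ℕ) : ℝ) ≤
      (((bx g T).filter fun a => ¬ Inn Set.univ ((S : Set ℂ)ᶜ) R η a).card : ℝ) +
      ∑ m ∈ Finset.range M, (((bx g T).filter fun a => ¬ GoodM (Adm S δ (dir m)) (f m) ξ K (B m) T a).card : ℝ) := by
    refine (Nat.cast_le.2 (h1.trans (Nat.add_le_add_left Finset.card_biUnion_le _))).trans ?_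
    push_cast
    exact le_rfl
  have h3 := hinn T hT2
  set Bx : ℝ := ((bx g T).card : ℝ) with hBx
  have hBx0 : 0 ≤ Bx := Nat.cast_nonneg _
  have h4 : ∑ m ∈ Finset.range M, (((bx g T).filter fun a => ¬ GoodM (Adm S δ (dir m)) (f m) ξ K (B m) T a).card : ℝ) ≤
      ∑ _m ∈ Finset.range M, Bx / K := by
    refine Finset.sum_le_sum fun m hm => ?_
    rw [le_div_iff₀ hKr, mul_comm]
    exact hB m T (hT1 m (Finset.mem_range.1 hm)) ξ
  rw [Finset.sum_const, Finset.card_range, nsmul_eq_mul] at h4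
  have h5 : ((((bx g T).filter fun a => ¬ ∃ m < M, AllB S f m ξ K B' R η T a).card : ℕ) : ℝ) ≤ ((M : ℝ) + 1) * (Bx / K) := by
    have h6 : 1 / (K : ℝ) * Bx = Bx / K := by ring
    rw [h6] at h3
    linarith
  have h7 : (K : ℝ) = (k + 1) * (M + 1) := by rw [hK]; push_cast; ring
  have hM1 : (0 : ℝ) < (M : ℝ) + 1 := by positivity
  have hk1 : (0 : ℝ) < (k : ℝ) + 1 := by positivity
  have h8 : ((M : ℝ) + 1) * (Bx / K) = Bx / (k + 1) := by
    rw [h7]
    field_simp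
  rw [h8] at h5
  calc (k : ℝ) * _ ≤ k * (Bx / (k + 1)) := mul_le_mul_of_nonneg_left h5 (Nat.cast_nonneg k)
    _ = Bx * (k / (k + 1)) := by ring
    _ ≤ Bx * 1 := mul_le_mul_of_nonneg_left (by rw [div_le_one hk1]; linarith) hBx0
    _ = Bx := mul_one _


/-- linear combinations of fixed polynomials with integral coefficients -/
theorem Mea.lin {Q ι : Type} [Fintype Q] [DecidableEq Q] [Fintype ι] {ξ : ℕ → ℂ} {K K' : ℕ} {B T : ℝ} {x : Q → ℂ}
    (hT : 1 ≤ T) (hι : (Fintype.card ι : ℝ) ≤ T) (hK : K' + 1 ≤ K) (h : Mea ξ K B T x) (F : ι → MvPolynomial Q ℂ)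
    (hd : ∀ e i, (F e).degreeOf i ≤ K) (hc : ∀ e, ∀ s ∈ (F e).support, ∃ b < K, ξ b = (F e).coeff s) (n : ι → ℤ)
    (hn : ∀ e, |(n e : ℝ)| ≤ T ^ K') (s : Q →₀ ℕ) :
    T ^ (-B) * ‖∑ e, (n e : ℂ) * (F e).coeff s‖ ≤ ‖∑ e, (n e : ℂ) * MvPolynomial.aeval x (F e)‖ := by
  classical
  choose! b hb hbc using hc
  by_cases hs : ∃ e, s ∈ (F e).support
  swap
  · push Not at hs
    have h1 : ∑ e, (n e : ℂ) * (F e).coeff s = 0 := Finset.sum_eq_zero fun e _ => by
      rw [MvPolynomial.notMem_support_iff.1 (hs e), mul_zero]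
    rw [h1, norm_zero, mul_zero]
    exact norm_nonneg _
  obtain ⟨e0, he0⟩ := hs
  obtain ⟨l₀, hl₀⟩ := exists_sV' (F e0) (hd e0) s he0
  have key := h (fun l j => ∑ e, if sV l ∈ (F e).support ∧ b e (sV l) = (j : ℕ) then n e else 0) (fun l j => by
    have h1 : |((∑ e, if sV l ∈ (F e).support ∧ b e (sV l) = (j : ℕ) then n e else 0 : ℤ) : ℝ)| ≤ ∑ _e : ι, T ^ K' := by
      push_cast
      refine (Finset.abs_sum_le_sum_abs _ _).trans (Finset.sum_le_sum fun e _ => ?_)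
      split_ifs
      · exact hn e
      · rw [abs_zero]
        positivity
    rw [Finset.sum_const, Finset.card_univ, nsmul_eq_mul] at h1
    calc _ ≤ (Fintype.card ι : ℝ) * T ^ K' := h1
      _ ≤ T * T ^ K' := mul_le_mul_of_nonneg_right hι (by positivity)
      _ = T ^ (K' + 1) := by ring
      _ ≤ T ^ K := pow_le_pow_right₀ hT hK) l₀
  have hsum : ∀ l : Q → Fin (K + 1), (∑ j : Fin K, ξ j * ((∑ e, if sV l ∈ (F e).support ∧ b e (sV l) = (j : ℕ) then n e
      else 0 : ℤ) : ℂ)) = ∑ e, (n e : ℂ) * (F e).coeff (sV l) := by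
    intro l
    have h1 : ∀ j : Fin K, ξ j * ((∑ e, if sV l ∈ (F e).support ∧ b e (sV l) = (j : ℕ) then n e else 0 : ℤ) : ℂ) =
        ∑ e, ξ j * (if sV l ∈ (F e).support ∧ b e (sV l) = (j : ℕ) then (n e : ℂ) else 0) := by
      intro j
      push_cast
      rw [Finset.mul_sum]
    rw [Finset.sum_congr rfl fun j _ => h1 j, Finset.sum_comm]
    refine Finset.sum_congr rfl fun e _ => ?_
    by_cases hl : sV l ∈ (F e).support
    · rw [Finset.sum_eq_single (⟨b e (sV l), hb _ _ hl⟩ : Fin K)]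
      · rw [if_pos ⟨hl, rfl⟩, mul_comm]
        show (n e : ℂ) * ξ (b e (sV l)) = _
        rw [hbc _ _ hl]
      · intro j _ hj
        rw [if_neg, mul_zero]
        rintro ⟨_, h2⟩
        exact hj (Fin.ext h2.symm)
      · intro h0
        exact absurd (Finset.mem_univ _) h0
    · rw [MvPolynomial.notMem_support_iff.1 hl, mul_zero]
      refine Finset.sum_eq_zero fun j _ => ?_
      rw [if_neg (fun h2 => hl h2.1), mul_zero]
  simp only [hsum] at key
  rw [hl₀] at key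
  refine key.trans (le_of_eq ?_)
  congr 1
  have h2 : ∀ e, MvPolynomial.aeval x (F e) = ∑ l : Q → Fin (K + 1), (F e).coeff (sV l) * ∏ i, x i ^ (l i : ℕ) :=
    fun e => eval_eq_box x (F e) (hd e)
  simp only [h2, Finset.mul_sum, Finset.sum_mul]
  rw [Finset.sum_comm]
  refine Finset.sum_congr rfl fun e _ => Finset.sum_congr rfl fun l _ => ?_
  ring

/-- bounded branches -/
theorem brl_bd (d : ℂ) (hd : ‖d‖ = 1) (p : ℂ[X]) {S : Finset ℂ} (hS : ∀ c ∈ p.roots, c ∈ S) (R η : ℝ) (hη : 0 < η) :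
    ∃ C : ℝ, ∀ z : ℂ, ‖z‖ ≤ R → (∀ c ∈ S, η ≤ ‖z - c‖) → ‖brl d p z‖ ≤ C := by
  have h : ∀ s : Multiset ℂ, (∀ c ∈ s, c ∈ S) → ∃ C : ℝ, ∀ z : ℂ, ‖z‖ ≤ R → (∀ c ∈ S, η ≤ ‖z - c‖) →
      ‖(s.map fun c => Complex.log (-(z - c) / d)).sum‖ ≤ C := by
    intro s
    induction s using Multiset.induction_on with
    | empty =>
      intro _
      exact ⟨0, fun z _ _ => by simp⟩
    | cons c s ih =>
      intro hs
      obtain ⟨C, hC⟩ := ih fun c hc => hs c (Multiset.mem_cons_of_mem hc)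
      refine ⟨(|Real.log η| + (R + ‖c‖) + Real.pi) + C, fun z hz1 hz2 => ?_⟩
      rw [Multiset.map_cons, Multiset.sum_cons]
      refine (norm_add_le _ _).trans (add_le_add ?_ (hC z hz1 hz2))
      refine (Complex.norm_le_abs_re_add_abs_im _).trans (add_le_add ?_ ?_)
      · rw [Complex.log_re, norm_div, norm_neg, hd, div_one]
        have h1 : η ≤ ‖z - c‖ := hz2 c (hs c (Multiset.mem_cons_self c s))
        have h2 : ‖z - c‖ ≤ R + ‖c‖ := (norm_sub_le _ _).trans (add_le_add hz1 le_rfl)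
        have h3 : Real.log η ≤ Real.log ‖z - c‖ := Real.log_le_log hη h1
        have h4 : Real.log ‖z - c‖ ≤ ‖z - c‖ := (Real.log_le_sub_one_of_pos (lt_of_lt_of_le hη h1)).trans (by linarith)
        have h5 := neg_abs_le (Real.log η)
        have h6 := abs_nonneg (Real.log η)
        rw [abs_le]
        constructor
        · have := norm_nonneg (z - c)
          linarith
        · linarith
      · rw [Complex.log_im]
        exact Complex.abs_arg_le_pi _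
  obtain ⟨C, hC⟩ := h _ hS
  refine ⟨C + ‖Complex.log (p.leadingCoeff * (-d) ^ p.roots.card)‖, fun z hz1 hz2 => ?_⟩
  unfold brl
  exact (norm_add_le _ _).trans (add_le_add (hC z hz1 hz2) le_rfl)

theorem lR_bd (d : ℂ) (hd : ‖d‖ = 1) (p q : ℂ[X]) {S : Finset ℂ} (hp : ∀ c ∈ p.roots, c ∈ S) (hq : ∀ c ∈ q.roots, c ∈ S)
    (R η : ℝ) (hη : 0 < η) : ∃ C : ℝ, ∀ z : ℂ, ‖z‖ ≤ R → (∀ c ∈ S, η ≤ ‖z - c‖) → ‖lR d p q z‖ ≤ C := by
  obtain ⟨C, hC⟩ := brl_bd d hd p hp R η hη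
  obtain ⟨C', hC'⟩ := brl_bd d hd q hq R η hη
  exact ⟨C + C', fun z h1 h2 => (norm_sub_le _ _).trans (add_le_add (hC z h1 h2) (hC' z h1 h2))⟩

/-- polynomials are bounded on bounded sets -/
theorem poly_bd {Q : Type} [Fintype Q] (W : Finset (MvPolynomial Q ℂ)) (C : ℝ) : ∃ C' : ℝ, 0 ≤ C' ∧ ∀ P ∈ W, ∀ x : Q → ℂ,
    (∀ q, ‖x q‖ ≤ C) → ‖MvPolynomial.eval x P‖ ≤ C' := by
  classical
  have h1 : ∀ P : MvPolynomial Q ℂ, ∃ C' : ℝ, 0 ≤ C' ∧ ∀ x : Q → ℂ, (∀ q, ‖x q‖ ≤ C) → ‖MvPolynomial.eval x P‖ ≤ C' := by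
    intro P
    have hcomp : IsCompact (Set.univ.pi fun _ : Q => Metric.closedBall (0 : ℂ) C) :=
      isCompact_univ_pi fun _ => isCompact_closedBall _ _
    obtain ⟨C', hC'⟩ := hcomp.exists_bound_of_continuousOn (f := fun x => MvPolynomial.eval x P)
      (MvPolynomial.continuous_eval P).continuousOn
    refine ⟨max C' 0, le_max_right _ _, fun x hx => (hC' x ?_).trans (le_max_left _ _)⟩
    exact fun q _ => mem_closedBall_zero_iff.2 (hx q)
  choose C' hC0 hC' using h1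
  refine ⟨∑ P ∈ W, C' P, Finset.sum_nonneg fun P _ => hC0 P, fun P hP x hx => (hC' P x hx).trans ?_⟩
  exact Finset.single_le_sum (f := C') (fun P _ => hC0 P) hP

end Pool.Agent.X255.RH
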