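import Pool.Agent.X255.RH.Fam
import Pool.Agent.X255.NH.Box

/-!
# The position of the roots of almost all polynomials
-/

set_option autoImplicit false
set_option linter.unusedSectionVars false

open Polynomial Filter Topology NumberField

namespace Pool.Agent.X255.RH

open Pool.Agent.X255.NP Pool.Agent.X255.NH

theorem root_le {M : ℝ} (hM : 1 ≤ M) {d : ℕ} (a : Fin d → ℂ) (ha : ∀ i, ‖a i‖ ≤ M) (x : ℂ) (hx : (mp a).eval x = 0) :
    ‖x‖ ≤ M + 1 := by
  by_contra hcon
  push Not at hcon
  have h1 : x ^ d = -∑ i : Fin d, a i * x ^ (i : ℕ) := by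
    have h2 : (mp a).eval x = x ^ d + ∑ i : Fin d, a i * x ^ (i : ℕ) := by simp [mp, eval_finsetSum]
    rw [h2] at hx
    linear_combination hx
  have h2 : ‖x‖ ^ d ≤ M * ∑ i : Fin d, ‖x‖ ^ (i : ℕ) := by
    rw [← norm_pow, h1, norm_neg, Finset.mul_sum]
    refine (norm_sum_le _ _).trans (Finset.sum_le_sum fun i _ => ?_)
    rw [norm_mul, norm_pow]
    exact mul_le_mul_of_nonneg_right (ha i) (by positivity)
  have h3 : ∀ k : ℕ, M * ∑ i : Fin k, ‖x‖ ^ (i : ℕ) ≤ ‖x‖ ^ k - 1 := by
    intro k
    induction k with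
    | zero => simp
    | succ k ih =>
      rw [Fin.sum_univ_castSucc]
      simp only [Fin.val_castSucc, Fin.val_last]
      have h4 : 0 < ‖x‖ ^ k := by
        have : 0 < ‖x‖ := by linarith
        positivity
      rw [pow_succ]
      nlinarith
  have h4 := h3 d
  linarith

/-- close roots give small critical values -/
theorem exists_critM (d : ℕ) {M : ℝ} (hM : 1 ≤ M) {κ : ℝ} (hκ : 0 < κ) : ∃ η : ℝ, 0 < η ∧ ∀ z : Fin d → ℂ,
    (∀ i, ‖co z i‖ ≤ M) → ∀ r s, r ≠ s → ‖z r - z s‖ < η → ∃ w, (mp (co z)).derivative.eval w = 0 ∧ ‖(mp (co z)).eval w‖ ≤ κ := by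
  set K : Set ((Fin d → ℂ) × ℂ) := Metric.closedBall 0 M ×ˢ Metric.closedBall 0 (M + 2) with hK
  have hKc : IsCompact K := (isCompact_closedBall _ _).prod (isCompact_closedBall _ _)
  have huc := hKc.uniformContinuousOn_of_continuous (FF_contDiff (g := d)).continuous.continuousOn
  rw [Metric.uniformContinuousOn_iff] at huc
  obtain ⟨ρ₀, hρ₀, huc⟩ := huc κ hκ
  set ρ := min ρ₀ 1 with hρ
  have hρp : 0 < ρ := lt_min hρ₀ one_pos
  set L : ℝ := 2 * (M + 1) with hL
  have hL1 : 1 ≤ L := by linarith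
  refine ⟨ρ ^ (d - 1) / L ^ d, by positivity, fun z hz r s hrs hlt => ?_⟩
  have hd : 0 < d := by have := r.2; omega
  have hroot : ∀ j, (mp (co z)).eval (z j) = 0 := by
    intro j
    rw [mp_co, eval_prod, Finset.prod_eq_zero (Finset.mem_univ j) (by simp)]
  have h2 : ∀ j, ‖z j‖ ≤ M + 1 := fun j => root_le hM _ hz _ (hroot j)
  -- the derivative is small
  have h3 : ‖(mp (co z)).derivative.eval (z r)‖ < ρ ^ (d - 1) := by
    rw [der_root, ← Finset.mul_prod_erase _ _ (Finset.mem_erase.2 ⟨hrs.symm, Finset.mem_univ s⟩), norm_mul, norm_prod]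
    have h4 : ∏ j ∈ (Finset.univ.erase r).erase s, ‖z r - z j‖ ≤ L ^ d := by
      calc ∏ j ∈ (Finset.univ.erase r).erase s, ‖z r - z j‖ ≤ ∏ _j ∈ (Finset.univ.erase r).erase s, L := by
            refine Finset.prod_le_prod (fun _ _ => norm_nonneg _) fun j _ => ?_
            have h5 := norm_sub_le (z r) (z j)
            have h6 := h2 r
            have h7 := h2 j
            linarith
        _ = L ^ ((Finset.univ.erase r).erase s).card := Finset.prod_const _
        _ ≤ L ^ d := by
            refine pow_le_pow_right₀ hL1 ?_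
            have h5 := Finset.card_le_univ ((Finset.univ.erase r).erase s)
            rwa [Fintype.card_fin] at h5
    have h5 : 0 ≤ ∏ j ∈ (Finset.univ.erase r).erase s, ‖z r - z j‖ := Finset.prod_nonneg fun _ _ => norm_nonneg _
    rcases h5.eq_or_lt with h6 | h6
    · rw [← h6, mul_zero]
      positivity
    · calc ‖z r - z s‖ * ∏ j ∈ (Finset.univ.erase r).erase s, ‖z r - z j‖
          < ρ ^ (d - 1) / L ^ d * ∏ j ∈ (Finset.univ.erase r).erase s, ‖z r - z j‖ := by nlinarith
        _ ≤ ρ ^ (d - 1) / L ^ d * L ^ d := mul_le_mul_of_nonneg_left h4 (by positivity)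
        _ = ρ ^ (d - 1) := by
            have hLp : (0 : ℝ) < L ^ d := by positivity
            rw [div_mul_cancel₀ _ hLp.ne']
  obtain ⟨hnd, hlc⟩ := der_lead hd (co z)
  obtain ⟨w, hw, hwr⟩ : ∃ w ∈ (mp (co z)).derivative.roots, ‖z r - w‖ < ρ := by
    by_contra hcon
    push Not at hcon
    have h4 := prod_lower (z r) hρp.le _ hcon
    have hsp := IsAlgClosed.splits (mp (co z)).derivative
    have h5 := hsp.eq_prod_roots
    have h6 := hsp.natDegree_eq_card_roots
    have h7 := congrArg (fun p => ‖Polynomial.eval (z r) p‖) h5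
    simp only [eval_mul, eval_C, norm_mul] at h7
    rw [hlc, eval_multiset_prod, Multiset.map_map] at h7
    have h8 : (Multiset.map (Polynomial.eval (z r) ∘ fun a => X - C a) (mp (co z)).derivative.roots).prod =
        ((mp (co z)).derivative.roots.map fun w => z r - w).prod := by
      congr 1
      refine Multiset.map_congr rfl fun w _ => ?_
      simp
    rw [h8, Complex.norm_natCast] at h7
    rw [← h6, hnd] at h4
    have h9 : (1 : ℝ) ≤ d := by exact_mod_cast hd
    have h10 : ρ ^ (d - 1) ≤ ‖(mp (co z)).derivative.eval (z r)‖ := by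
      rw [h7]
      nlinarith [norm_nonneg ((mp (co z)).derivative.roots.map fun w => z r - w).prod]
    linarith
  refine ⟨w, (mem_roots'.1 hw).2, ?_⟩
  have h4 : ‖w‖ ≤ M + 2 := by
    have h5 := norm_sub_norm_le w (z r)
    rw [norm_sub_rev] at h5
    have h6 := h2 r
    have h7 : ρ ≤ 1 := min_le_right _ _
    linarith
  have hmem : ∀ x : ℂ, ‖x‖ ≤ M + 2 → (co z, x) ∈ K := by
    intro x hx
    refine ⟨?_, ?_⟩
    · rw [Metric.mem_closedBall, dist_zero_right, pi_norm_le_iff_of_nonneg (by linarith)]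
      exact hz
    · rw [Metric.mem_closedBall, dist_zero_right]
      exact hx
  have h5 := huc (co z, w) (hmem w h4) (co z, z r) (hmem _ (by have := h2 r; linarith)) (by
    rw [Prod.dist_eq, dist_self, max_lt_iff, dist_eq_norm, norm_sub_rev]
    exact ⟨hρ₀, hwr.trans_le (min_le_left _ _)⟩)
  rw [dist_eq_norm] at h5
  have h6 : FF (co z, z r) = 0 := hroot r
  rw [h6, sub_zero] at h5
  exact h5.le

/-- the integral polynomials of degree at most `g` with coefficients of absolute value at most `T` -/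
noncomputable def bx (g T : ℕ) : Finset (Fin (g + 1) → ℤ) := Fintype.piFinset fun _ => Finset.Icc (-(T : ℤ)) (T : ℤ)

theorem mem_bx {g T : ℕ} {a : Fin (g + 1) → ℤ} : a ∈ bx g T ↔ ∀ i, |a i| ≤ (T : ℤ) := by
  rw [bx, Fintype.mem_piFinset]
  simp only [Finset.mem_Icc, abs_le]

theorem one_coord {g T : ℕ} (hT : 1 ≤ T) (x0 : Fin (g + 1)) {κ : ℝ} (hκ : 0 ≤ κ) (N : ℕ) (E : Finset (Fin (g + 1) → ℤ))
    (hE : E ⊆ bx g T) (u : (Fin (g + 1) → ℤ) → Finset ℝ) (hu : ∀ c, (u c).card ≤ N)
    (h : ∀ (c : Fin (g + 1) → ℤ) (t : ℤ), Function.update c x0 t ∈ E → ∃ v ∈ u c, |v + (t : ℝ) / T| ≤ κ) :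
    (E.card : ℝ) ≤ N * (κ + 1 / T) * (bx g T).card := by
  classical
  have hTr : (1 : ℝ) ≤ T := by exact_mod_cast hT
  have hfib := fiber_count (fun _ : Fin (g + 1) => Finset.Icc (-(T : ℤ)) (T : ℤ)) E hE x0 ((N : ℝ) * (2 * κ * T + 1)) (by
    intro c hc
    have hsub : ({t ∈ Finset.Icc (-(T : ℤ)) (T : ℤ) | Function.update c x0 t ∈ E}) ⊆
        (u c).biUnion fun v => (Finset.Icc (-(T : ℤ)) (T : ℤ)).filter fun t : ℤ => |v + (t : ℝ) / T| ≤ κ := by
      intro t ht
      rw [Finset.mem_filter] at ht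
      obtain ⟨v, hv, hv'⟩ := h c t ht.2
      exact Finset.mem_biUnion.2 ⟨v, hv, Finset.mem_filter.2 ⟨ht.1, hv'⟩⟩
    have h1 := (Finset.card_le_card hsub).trans Finset.card_biUnion_le
    have h2 : ((({t ∈ Finset.Icc (-(T : ℤ)) (T : ℤ) | Function.update c x0 t ∈ E}).card : ℕ) : ℝ) ≤
        ∑ v ∈ u c, ((((Finset.Icc (-(T : ℤ)) (T : ℤ)).filter fun t : ℤ => |v + (t : ℝ) / T| ≤ κ).card : ℕ) : ℝ) := by
      exact_mod_cast h1
    refine h2.trans ?_
    refine (Finset.sum_le_sum fun v _ => int_interval T v κ hκ _ (fun t ht => (Finset.mem_filter.1 ht).2) hT).trans ?_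
    rw [Finset.sum_const, nsmul_eq_mul]
    refine mul_le_mul_of_nonneg_right ?_ (by positivity)
    exact_mod_cast hu c)
  have hcard : ((Finset.Icc (-(T : ℤ)) (T : ℤ)).card : ℝ) = 2 * T + 1 := by
    rw [Int.card_Icc]
    have h1 : ((T : ℤ) + 1 - -(T : ℤ)).toNat = 2 * T + 1 := by omega
    rw [h1]
    push_cast
    ring
  rw [hcard] at hfib
  have h1 : (2 * κ * T + 1) ≤ (κ + 1 / T) * (2 * T + 1) := by
    have h2 : 1 ≤ 1 / (T : ℝ) * (2 * T + 1) := by
      rw [div_mul_eq_mul_div, one_mul, le_div_iff₀ (by linarith)]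
      linarith
    nlinarith
  have h2 : (0 : ℝ) < 2 * T + 1 := by positivity
  have h3 : (2 * (T : ℝ) + 1) * E.card ≤ (2 * T + 1) * (N * (κ + 1 / T) * (bx g T).card) := by
    calc (2 * (T : ℝ) + 1) * E.card ≤ (N : ℝ) * (2 * κ * T + 1) * (bx g T).card := hfib
      _ ≤ (N : ℝ) * ((κ + 1 / T) * (2 * T + 1)) * (bx g T).card := by gcongr
      _ = _ := by ring
  exact le_of_mul_le_mul_left h3 h2

theorem pol_update {g : ℕ} (c : Fin (g + 1) → ℤ) (t : ℤ) : pol (Function.update c 0 t) = pol (Function.update c 0 0) + C (t : ℂ) := by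
  unfold pol
  rw [Fin.sum_univ_succ, Fin.sum_univ_succ]
  simp only [Function.update_self, Fin.val_zero, pow_zero, mul_one, Int.cast_zero, C_0, zero_mul, zero_add]
  have h1 : ∀ (v : ℤ) (j : Fin g), Function.update c 0 v j.succ = c j.succ := fun v j =>
    Function.update_of_ne (Fin.succ_ne_zero j) _ _
  simp only [h1]
  ring

theorem pol_degree_le {g : ℕ} (c : Fin (g + 1) → ℤ) : (pol c).natDegree ≤ g := by
  unfold pol
  refine natDegree_sum_le_of_forall_le _ _ fun i _ => ?_
  refine (natDegree_C_mul_X_pow_le _ _).trans ?_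
  have := i.2
  omega

open scoped Classical in
theorem small_count {g T : ℕ} (hg : 0 < g) (hT : 1 ≤ T) {κ : ℝ} (hκ : 0 ≤ κ) (S : Finset ℂ) :
    (((bx g T).filter fun a => a (Fin.last g) ≠ 0 ∧ ∃ w, ((pol a).derivative.eval w = 0 ∨ w ∈ S) ∧
      ‖(pol a).eval w‖ ≤ κ * T).card : ℝ) ≤ (g + S.card : ℕ) * (κ + 1 / T) * (bx g T).card := by
  have hTr : (1 : ℝ) ≤ T := by exact_mod_cast hT
  refine one_coord hT 0 hκ (g + S.card) _ (Finset.filter_subset _ _)
    (fun c => ((pol c).derivative.roots.toFinset ∪ S).image fun w => ((pol (Function.update c 0 0)).eval w).re / T)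
    (fun c => ?_) fun c t ht => ?_
  · refine Finset.card_image_le.trans ((Finset.card_union_le _ _).trans (Nat.add_le_add_right ?_ _))
    refine (Multiset.toFinset_card_le _).trans ((card_roots' _).trans ?_)
    have h1 := natDegree_derivative_le (pol c)
    have h2 := pol_degree_le c
    omega
  · rw [Finset.mem_filter] at ht
    obtain ⟨_, hne, w, hw, hsm⟩ := ht
    have hder : (pol (Function.update c 0 t)).derivative = (pol c).derivative := by
      have h1 : pol c = pol (Function.update c 0 0) + C ((c 0 : ℤ) : ℂ) := by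
        rw [← pol_update, Function.update_eq_self]
      rw [pol_update, h1, derivative_add, derivative_add, derivative_C, derivative_C]
    have hd0 : (pol c).derivative ≠ 0 := by
      intro h0
      rw [← hder] at h0
      have h1 := congrArg (fun p => p.coeff (g - 1)) h0
      simp only [coeff_derivative, coeff_zero] at h1
      have h2 : g - 1 + 1 = ((Fin.last g : Fin (g + 1)) : ℕ) := by
        rw [Fin.val_last]
        omega
      rw [h2, pol_coeff, mul_eq_zero] at h1
      rcases h1 with h1 | h1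
      · exact hne (by exact_mod_cast h1)
      · have h3 : ((g - 1 : ℕ) : ℂ) + 1 = ((g - 1 + 1 : ℕ) : ℂ) := by push_cast; ring
        rw [h3] at h1
        exact absurd h1 (by exact_mod_cast Nat.succ_ne_zero (g - 1))
    refine ⟨_, Finset.mem_image_of_mem _ (?_ : w ∈ _), ?_⟩
    · rw [Finset.mem_union, Multiset.mem_toFinset, mem_roots hd0]
      rcases hw with hw | hw
      · rw [hder] at hw
        exact Or.inl hw
      · exact Or.inr hw
    · have h1 : ((pol (Function.update c 0 t)).eval w).re = ((pol (Function.update c 0 0)).eval w).re + t := by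
        rw [pol_update, eval_add, eval_C, Complex.add_re, Complex.intCast_re]
      have h2 := (Complex.abs_re_le_norm ((pol (Function.update c 0 t)).eval w)).trans hsm
      rw [h1] at h2
      rw [← add_div, abs_div, abs_of_pos (show (0 : ℝ) < T by linarith), div_le_iff₀ (by linarith)]
      exact h2

open scoped Classical in
theorem lead_count {g T : ℕ} (hT : 1 ≤ T) {κ : ℝ} (hκ : 0 ≤ κ) :
    (((bx g T).filter fun a => |(a (Fin.last g) : ℝ)| ≤ κ * T).card : ℝ) ≤ (κ + 1 / T) * (bx g T).card := by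
  have hTr : (1 : ℝ) ≤ T := by exact_mod_cast hT
  have h1 := one_coord hT (Fin.last g) hκ 1 ((bx g T).filter fun a => |(a (Fin.last g) : ℝ)| ≤ κ * T)
    (Finset.filter_subset _ _) (fun _ => {0}) (fun _ => by simp) (by
      intro c t ht
      rw [Finset.mem_filter, Function.update_self] at ht
      refine ⟨0, by simp, ?_⟩
      rw [zero_add, abs_div, abs_of_pos (show (0 : ℝ) < T by linarith), div_le_iff₀ (by linarith)]
      exact ht.2)
  simpa using h1

/-- The part of the boundary of `V` near `K` is thin: there are a locally finite set `S` and `c > 0` such that the distance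
from `z ∈ K` to a point outside `V` is at least the distance from `z` to `S`, or at least `c`, or `z` is not real and it
is at least `|im z|`. -/
def Tame (K V : Set ℂ) : Prop :=
  ∃ (S : Set ℂ) (c : ℝ), 0 < c ∧ (∀ R : ℝ, (S ∩ Metric.closedBall 0 R).Finite) ∧
    ∀ z ∈ K, ∀ w, w ∉ V → (∃ p ∈ S, ‖z - p‖ ≤ ‖z - w‖) ∨ (z.im ≠ 0 ∧ |z.im| ≤ ‖z - w‖) ∨ c ≤ ‖z - w‖

theorem tame_of_discrete {S : Set ℂ} (hS : ∀ R : ℝ, (S ∩ Metric.closedBall 0 R).Finite) : Tame Sᶜ Sᶜ :=
  ⟨S, 1, one_pos, hS, fun z _ w hw => Or.inl ⟨w, by simpa using hw, le_rfl⟩⟩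

theorem tame_univ : Tame Set.univ Set.univ :=
  ⟨∅, 1, one_pos, fun R => by simp, fun z _ w hw => absurd (Set.mem_univ w) hw⟩

theorem tame_upper : Tame {z : ℂ | 0 < z.im} {z : ℂ | 0 < z.im} := by
  refine ⟨∅, 1, one_pos, fun R => by simp, fun z hz w hw => Or.inr (Or.inl ⟨?_, ?_⟩)⟩
  · exact (ne_of_gt hz)
  · have hz' : 0 < z.im := hz
    have hw' : w.im ≤ 0 := not_lt.1 hw
    have h1 := Complex.abs_im_le_norm (z - w)
    rw [Complex.sub_im] at h1
    rw [abs_of_pos hz']
    rw [abs_of_nonneg (by linarith)] at h1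
    linarith

theorem tame_slit : Tame Complex.slitPlane Complex.slitPlane := by
  refine ⟨{0}, 1, one_pos, fun R => (Set.finite_singleton _).subset Set.inter_subset_left, fun z hz w hw => ?_⟩
  have hw' : w.re ≤ 0 ∧ w.im = 0 := by
    rw [Complex.mem_slitPlane_iff, not_or, not_lt, not_not] at hw
    exact hw
  by_cases hzi : z.im = 0
  · left
    refine ⟨0, rfl, ?_⟩
    have hzr : 0 < z.re := by
      rcases Complex.mem_slitPlane_iff.1 hz with h | h
      · exact h
      · exact absurd hzi h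
    rw [sub_zero]
    have h1 : ‖z‖ = z.re := by
      have h2 : z = (z.re : ℂ) := by
        apply Complex.ext
        · simp
        · simp [hzi]
      rw [h2, Complex.norm_real, Real.norm_eq_abs, abs_of_pos hzr, Complex.ofReal_re]
    have h3 := Complex.re_le_norm (z - w)
    rw [Complex.sub_re] at h3
    rw [h1]
    linarith [hw'.1]
  · right
    left
    refine ⟨hzi, ?_⟩
    have h1 := Complex.abs_im_le_norm (z - w)
    rw [Complex.sub_im, hw'.2, sub_zero] at h1
    exact h1

/-- intersections -/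
theorem Tame.inter {K V K' V' : Set ℂ} (h : Tame K V) (h' : Tame K' V') : Tame (K ∩ K') (V ∩ V') := by
  obtain ⟨S, c, hc, hS, H⟩ := h
  obtain ⟨S', c', hc', hS', H'⟩ := h'
  refine ⟨S ∪ S', min c c', lt_min hc hc', fun R => ?_, fun z hz w hw => ?_⟩
  · rw [Set.union_inter_distrib_right]
    exact (hS R).union (hS' R)
  · by_cases hwV : w ∈ V
    · have hwV' : w ∉ V' := fun h => hw ⟨hwV, h⟩
      rcases H' z hz.2 w hwV' with ⟨p, hp, h1⟩ | h1 | h1
      · exact Or.inl ⟨p, Or.inr hp, h1⟩
      · exact Or.inr (Or.inl h1)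
      · exact Or.inr (Or.inr ((min_le_right _ _).trans h1))
    · rcases H z hz.1 w hwV with ⟨p, hp, h1⟩ | h1 | h1
      · exact Or.inl ⟨p, Or.inl hp, h1⟩
      · exact Or.inr (Or.inl h1)
      · exact Or.inr (Or.inr ((min_le_left _ _).trans h1))

/-- discs -/
theorem tame_ball {r R : ℝ} (h : r < R) : Tame (Metric.closedBall 0 r) (Metric.ball 0 R) := by
  refine ⟨∅, R - r, by linarith, fun R => by simp, fun z hz w hw => Or.inr (Or.inr ?_)⟩
  rw [Metric.mem_closedBall, dist_zero_right] at hz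
  rw [Metric.mem_ball, dist_zero_right, not_lt] at hw
  have h1 := norm_sub_norm_le w z
  rw [norm_sub_rev] at h1
  linarith

theorem Tame.mono {K V K' : Set ℂ} (h : Tame K V) (hK : K' ⊆ K) : Tame K' V := by
  obtain ⟨S, c, hc, hS, H⟩ := h
  exact ⟨S, c, hc, hS, fun z hz w hw => H z (hK hz) w hw⟩

theorem pol_conj {g : ℕ} (a : Fin (g + 1) → ℤ) (z : ℂ) (hz : (pol a).eval z = 0) :
    (pol a).eval ((starRingEnd ℂ) z) = 0 := by
  have h1 : (pol a).eval ((starRingEnd ℂ) z) = (starRingEnd ℂ) ((pol a).eval z) := by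
    unfold pol
    rw [eval_finsetSum, eval_finsetSum, map_sum]
    refine Finset.sum_congr rfl fun i _ => ?_
    have h2 : (starRingEnd ℂ) ((a i : ℤ) : ℂ) = ((a i : ℤ) : ℂ) := map_intCast _ _
    rw [eval_mul, eval_mul, eval_C, eval_C, eval_pow, eval_X, eval_pow, eval_X, map_mul, map_pow, h2]
  rw [h1, hz, map_zero]

open scoped Classical in
/-- **The position of the roots of almost all polynomials.** -/
theorem inn_count {g : ℕ} (hg : 0 < g) {K V : Set ℂ} (hV : Tame K V) {δ : ℝ} (hδ : 0 < δ) :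
    ∃ (R η : ℝ) (T₀ : ℕ), 0 < η ∧ ∀ T, T₀ ≤ T →
      (((bx g T).filter fun a => ¬ Inn K V R η a).card : ℝ) ≤ δ * (bx g T).card := by
  obtain ⟨S, c₀, hc₀, hS1, hS2⟩ := hV
  set δ₁ : ℝ := δ / 4 with hδ₁
  have hδ₁p : 0 < δ₁ := by positivity
  set M : ℝ := max 1 (1 / δ₁) with hM
  have hM1 : 1 ≤ M := le_max_left _ _
  set R : ℝ := M + 1 with hR
  set S' : Finset ℂ := (hS1 (R + 1)).toFinset with hS'
  set N : ℕ := g + S'.card with hN
  have hN1 : 1 ≤ N := by omega
  have hNr : (1 : ℝ) ≤ N := by exact_mod_cast hN1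
  set κ : ℝ := δ / (4 * N) with hκ
  have hκp : 0 < κ := by positivity
  obtain ⟨η₁, hη₁, hcrit⟩ := exists_critM g hM1 hκp
  set L : ℝ := 2 * R + 2 with hL
  have hL1 : 1 ≤ L := by linarith
  set η₂ : ℝ := κ / L ^ g with hη₂
  have hη₂p : 0 < η₂ := by positivity
  set η : ℝ := min (min (η₁ / 2) c₀) (min η₂ 1) with hη
  have hηp : 0 < η := lt_min (lt_min (by linarith) hc₀) (lt_min hη₂p one_pos)
  have hηa : η ≤ η₁ / 2 := (min_le_left _ _).trans (min_le_left _ _)
  have hηc0 : η ≤ c₀ := (min_le_left _ _).trans (min_le_right _ _)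
  have hηb : η ≤ η₂ := (min_le_right _ _).trans (min_le_left _ _)
  have hηc : η ≤ 1 := (min_le_right _ _).trans (min_le_right _ _)
  refine ⟨R, η, 1 + ⌈2 * (N + 1) / δ⌉₊, hηp, fun T hT => ?_⟩
  have hT1 : 1 ≤ T := by omega
  have hTr : (1 : ℝ) ≤ T := by exact_mod_cast hT1
  have hTp : (0 : ℝ) < T := by linarith
  have hTN : 2 * (N + 1) / δ ≤ T := Nat.ceil_le.1 (by omega)
  have hsub : ((bx g T).filter fun a => ¬ Inn K V R η a) ⊆
      ((bx g T).filter fun a => |(a (Fin.last g) : ℝ)| ≤ δ₁ * T) ∪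
      ((bx g T).filter fun a => a (Fin.last g) ≠ 0 ∧ ∃ w, ((pol a).derivative.eval w = 0 ∨ w ∈ S') ∧
        ‖(pol a).eval w‖ ≤ κ * T) := by
    intro a ha
    rw [Finset.mem_filter] at ha
    obtain ⟨hab, hna⟩ := ha
    rw [Finset.mem_union, Finset.mem_filter, Finset.mem_filter]
    by_contra hcon
    rw [not_or, not_and, not_and] at hcon
    have hlead : δ₁ * T < |(a (Fin.last g) : ℝ)| := not_le.1 (hcon.1 hab)
    have ha0 : a (Fin.last g) ≠ 0 := by
      intro h0
      rw [h0, Int.cast_zero, abs_zero] at hlead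
      have : 0 < δ₁ * T := by positivity
      linarith
    have hsm : ∀ w, ((pol a).derivative.eval w = 0 ∨ w ∈ S') → κ * T < ‖(pol a).eval w‖ := by
      intro w hw
      by_contra hle
      exact hcon.2 hab ⟨ha0, w, hw, not_lt.1 hle⟩
    apply hna
    have haT : ∀ i, |(a i : ℝ)| ≤ T := fun i => by exact_mod_cast mem_bx.1 hab i
    have ha0c : ((a (Fin.last g) : ℤ) : ℂ) ≠ 0 := by exact_mod_cast ha0
    obtain ⟨z, hz⟩ := exists_co (quoC a)
    have hroots : IsRoots a z := by
      refine ⟨ha0, ?_⟩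
      rw [← mp_co, hz]
      ext n
      rw [coeff_C_mul]
      rcases lt_trichotomy n g with hn | hn | hn
      · have h1 := pol_coeff a (Fin.castSucc ⟨n, hn⟩)
        have h2 := mp_coeff (quoC a) ⟨n, hn⟩
        simp only [Fin.val_castSucc] at h1
        rw [h1, h2]
        simp only [quoC, quo]
        rw [map_div₀]
        simp only [eq_intCast, map_intCast]
        rw [mul_div_cancel₀ _ ha0c]
      · subst hn
        have h1 := pol_coeff a (Fin.last n)
        rw [Fin.val_last] at h1
        rw [h1]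
        have h2 := (mp_monic (quoC a)).coeff_natDegree
        rw [mp_degree] at h2
        rw [h2, mul_one]
      · rw [coeff_eq_zero_of_natDegree_lt ((pol_degree_le a).trans_lt hn),
          coeff_eq_zero_of_natDegree_lt (by rw [mp_degree]; exact hn), mul_zero]
    have hq : ∀ i, ‖co z i‖ ≤ M := by
      intro i
      rw [hz, quoC, quo, map_div₀, norm_div]
      simp only [map_intCast, Complex.norm_intCast]
      rw [div_le_iff₀ (by linarith [show 0 < δ₁ * T by positivity])]
      have h2 : 1 / δ₁ ≤ M := le_max_right _ _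
      have h3 : (T : ℝ) ≤ 1 / δ₁ * |(a (Fin.last g) : ℝ)| := by
        rw [div_mul_eq_mul_div, one_mul, le_div_iff₀ hδ₁p]
        linarith
      calc |(a i.castSucc : ℝ)| ≤ T := haT _
        _ ≤ 1 / δ₁ * |(a (Fin.last g) : ℝ)| := h3
        _ ≤ M * |(a (Fin.last g) : ℝ)| := mul_le_mul_of_nonneg_right h2 (abs_nonneg _)
    have hzR : ∀ i, ‖z i‖ ≤ R := by
      intro i
      refine root_le hM1 _ hq _ ?_
      rw [mp_co, eval_prod, Finset.prod_eq_zero (Finset.mem_univ i) (by simp)]
    have hpm : ∀ w, ‖(pol a).eval w‖ ≤ T * ‖(mp (co z)).eval w‖ := by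
      intro w
      rw [hroots.2, mp_co, eval_mul, eval_C, norm_mul, Complex.norm_intCast]
      exact mul_le_mul_of_nonneg_right (haT _) (norm_nonneg _)
    have hdm : ∀ w, (mp (co z)).derivative.eval w = 0 → (pol a).derivative.eval w = 0 := by
      intro w hw
      rw [hroots.2, ← mp_co, derivative_mul, derivative_C, zero_mul, zero_add, eval_mul, hw, mul_zero]
    have hsep : ∀ i j, i ≠ j → η₁ ≤ ‖z i - z j‖ := by
      intro i j hij
      by_contra hlt
      obtain ⟨w, hw1, hw2⟩ := hcrit z hq i j hij (not_le.1 hlt)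
      have h1 := hsm w (Or.inl (hdm w hw1))
      have h2 := hpm w
      have h3 : (T : ℝ) * ‖(mp (co z)).eval w‖ ≤ T * κ := mul_le_mul_of_nonneg_left hw2 hTp.le
      linarith [mul_comm κ (T : ℝ)]
    refine ⟨z, hroots, hzR, fun i j hij => ?_, fun i hi y hy => ?_⟩
    · have := hsep i j hij
      linarith
    · by_contra hyV
      rw [Metric.mem_ball, dist_eq_norm, norm_sub_rev] at hy
      rcases hS2 (z i) hi y hyV with ⟨p, hp, hpz⟩ | ⟨him, him2⟩ | hc1
      · have hpη : ‖z i - p‖ < η := hpz.trans_lt hy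
        have hpR : ‖p‖ ≤ R + 1 := by
          have h1 := norm_sub_norm_le p (z i)
          rw [norm_sub_rev] at h1
          have h2 := hzR i
          linarith
        have hpS : p ∈ S' := by
          rw [hS', Set.Finite.mem_toFinset]
          refine ⟨hp, ?_⟩
          rw [Metric.mem_closedBall, dist_zero_right]
          exact hpR
        have h1 := hsm p (Or.inr hpS)
        have h2 := hpm p
        have h3 : ‖(mp (co z)).eval p‖ ≤ κ := by
          rw [mp_co, eval_prod, norm_prod, ← Finset.mul_prod_erase _ _ (Finset.mem_univ i)]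
          simp only [eval_sub, eval_X, eval_C]
          have h4 : ∏ j ∈ Finset.univ.erase i, ‖p - z j‖ ≤ L ^ g := by
            calc ∏ j ∈ Finset.univ.erase i, ‖p - z j‖ ≤ ∏ _j ∈ Finset.univ.erase i, L := by
                  refine Finset.prod_le_prod (fun _ _ => norm_nonneg _) fun j _ => ?_
                  have h5 := norm_sub_le p (z j)
                  have h6 := hzR j
                  linarith
              _ = L ^ (Finset.univ.erase i).card := Finset.prod_const _
              _ ≤ L ^ g := by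
                  refine pow_le_pow_right₀ hL1 ?_
                  have h5 := Finset.card_le_univ (Finset.univ.erase i)
                  rwa [Fintype.card_fin] at h5
          have h5 : ‖p - z i‖ ≤ η₂ := by
            rw [norm_sub_rev]
            linarith
          calc ‖p - z i‖ * ∏ j ∈ Finset.univ.erase i, ‖p - z j‖ ≤ η₂ * L ^ g :=
                mul_le_mul h5 h4 (Finset.prod_nonneg fun _ _ => norm_nonneg _) hη₂p.le
            _ = κ := by
                have hLp : (0 : ℝ) < L ^ g := by positivity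
                rw [hη₂, div_mul_cancel₀ _ hLp.ne']
        have h4 : (T : ℝ) * ‖(mp (co z)).eval p‖ ≤ T * κ := mul_le_mul_of_nonneg_left h3 hTp.le
        linarith [mul_comm κ (T : ℝ)]
      · obtain ⟨j, hj⟩ := (IsRoots.root_iff hroots).1 (pol_conj a (z i) (hroots.root i))
        have hij : i ≠ j := by
          rintro rfl
          apply him
          have h1 := congrArg Complex.im hj
          rw [Complex.conj_im] at h1
          linarith
        have h1 := hsep i j hij
        rw [hj] at h1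
        have h2 : ‖z i - (starRingEnd ℂ) (z i)‖ = 2 * |(z i).im| := by
          rw [Complex.sub_conj, norm_mul, Complex.norm_I, mul_one, Complex.norm_real, Real.norm_eq_abs, abs_mul,
            abs_of_pos (by norm_num : (0 : ℝ) < 2)]
        rw [h2] at h1
        linarith
      · linarith
  have h1 := (Finset.card_le_card hsub).trans (Finset.card_union_le _ _)
  have h2 := lead_count (g := g) hT1 hδ₁p.le
  have h3 := small_count hg hT1 hκp.le S'
  have h4 : (((bx g T).filter fun a => ¬ Inn K V R η a).card : ℝ) ≤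
      (δ₁ + 1 / T) * (bx g T).card + (N : ℝ) * (κ + 1 / T) * (bx g T).card := by
    refine le_trans ?_ (add_le_add h2 h3)
    exact_mod_cast h1
  refine h4.trans ?_
  rw [← add_mul]
  refine mul_le_mul_of_nonneg_right ?_ (Nat.cast_nonneg _)
  have h5 : (N : ℝ) * κ = δ / 4 := by
    rw [hκ]
    field_simp
  have h6 : ((N : ℝ) + 1) * (1 / T) ≤ δ / 2 := by
    rw [mul_one_div, div_le_iff₀ hTp]
    rw [div_le_iff₀ hδ] at hTN
    linarith
  have h7 : δ₁ + 1 / T + N * (κ + 1 / T) = δ / 4 + N * κ + (N + 1) * (1 / T) := by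
    rw [hδ₁]
    ring
  rw [h7, h5]
  linarith

end Pool.Agent.X255.RH
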