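import Pool.Agent.X255.RH.Mea3

/-!
# Plane cut along parallel rays, with all roots in some admissible position
-/

set_option autoImplicit false
set_option linter.unusedSectionVars false

open Polynomial Filter Topology NumberField

namespace Pool.Agent.X255.RH

open Pool.Agent.Y890.SP

/-- unit vectors -/
noncomputable def dir (m : ℕ) : ℂ := (1 + m * Complex.I) / (1 - m * Complex.I)

theorem den_ne (m : ℕ) : (1 - m * Complex.I : ℂ) ≠ 0 := by
  intro h
  have h1 := congrArg Complex.re h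
  simp at h1

theorem dir_norm (m : ℕ) : ‖dir m‖ = 1 := by
  have h1 : (1 + m * Complex.I : ℂ) = (starRingEnd ℂ) (1 - m * Complex.I) := by
    rw [map_sub, map_mul, map_one, Complex.conj_natCast, Complex.conj_I]
    ring
  rw [dir, norm_div, h1, Complex.norm_conj, div_self]
  exact norm_ne_zero_iff.2 (den_ne m)

theorem dir_ne (m : ℕ) : dir m ≠ 0 := by
  intro h
  have := dir_norm m
  rw [h, norm_zero] at this
  exact zero_ne_one this

theorem dir_inj : Function.Injective dir := by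
  intro m n h
  unfold dir at h
  rw [div_eq_div_iff (den_ne m) (den_ne n)] at h
  have h1 : 2 * Complex.I * ((m : ℂ) - n) = 0 := by
    linear_combination h
  rw [mul_eq_zero] at h1
  rcases h1 with h1 | h1
  · exfalso
    have : (Complex.I : ℂ) ≠ 0 := Complex.I_ne_zero
    rcases mul_eq_zero.1 h1 with h2 | h2
    · exact two_ne_zero h2
    · exact this h2
  · have h2 : (m : ℂ) = n := sub_eq_zero.1 h1
    exact_mod_cast h2

/-- `z` is outside of a cone with vertex `c` around the direction `d` -/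
def Out (δ : ℝ) (d c z : ℂ) : Prop := δ * ‖z - c‖ ≤ ‖(z - c) - ‖z - c‖ * d‖

theorem out_dist {δ : ℝ} {d c z : ℂ} (hd : ‖d‖ = 1) (h : Out δ d c z) {t : ℝ} (ht : 0 ≤ t) :
    δ / 2 * ‖z - c‖ ≤ ‖z - (c + t * d)‖ := by
  unfold Out at h
  set u := z - c with hu
  have h1 : z - (c + t * d) = u - t * d := by rw [hu]; ring
  rw [h1]
  have h2 : ‖u - ‖u‖ * d‖ ≤ ‖u - t * d‖ + ‖((t : ℂ) - ‖u‖) * d‖ := by
    have h3 : u - ‖u‖ * d = (u - t * d) + ((t : ℂ) - ‖u‖) * d := by ring
    rw [h3]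
    exact norm_add_le _ _
  have h4 : ‖((t : ℂ) - ‖u‖) * d‖ = |t - ‖u‖| := by
    rw [norm_mul, hd, mul_one, ← Complex.ofReal_sub, Complex.norm_real, Real.norm_eq_abs]
  have h5 : |t - ‖u‖| ≤ ‖u - t * d‖ := by
    have h6 : ‖(t : ℂ) * d‖ = t := by rw [norm_mul, hd, mul_one, Complex.norm_real, Real.norm_eq_abs, abs_of_nonneg ht]
    have h7 := abs_norm_sub_norm_le ((t : ℂ) * d) u
    rw [h6, norm_sub_rev ((t : ℂ) * d) u] at h7
    exact h7
  rw [h4] at h2
  linarith

theorem out_or {δ : ℝ} {d d' c z : ℂ} (hsep : 2 * δ < ‖d - d'‖) (hz : z ≠ c) : Out δ d c z ∨ Out δ d' c z := by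
  by_contra hcon
  rw [not_or] at hcon
  unfold Out at hcon
  obtain ⟨h1, h2⟩ := hcon
  rw [not_le] at h1 h2
  set u := z - c with hu
  have hu0 : 0 < ‖u‖ := norm_pos_iff.2 (sub_ne_zero.2 hz)
  have h3 : ‖(‖u‖ : ℂ) * (d - d')‖ ≤ ‖u - ‖u‖ * d'‖ + ‖u - ‖u‖ * d‖ := by
    have h4 : (‖u‖ : ℂ) * (d - d') = (u - ‖u‖ * d') - (u - ‖u‖ * d) := by ring
    rw [h4]
    exact norm_sub_le _ _
  rw [norm_mul, Complex.norm_real, norm_norm] at h3
  have h5 : ‖u‖ * (2 * δ) < ‖u‖ * ‖d - d'‖ := mul_lt_mul_of_pos_left hsep hu0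
  linarith

theorem exists_lt {X : Type} (s : Finset X) (F : X → ℝ) (h : ∀ x ∈ s, 0 < F x) : ∃ δ : ℝ, 0 < δ ∧ ∀ x ∈ s, 2 * δ < F x := by
  classical
  induction s using Finset.induction_on with
  | empty => exact ⟨1, one_pos, fun x hx => absurd hx (Finset.notMem_empty x)⟩
  | insert a s ha ih =>
    obtain ⟨δ, hδ, h1⟩ := ih fun x hx => h x (Finset.mem_insert_of_mem hx)
    have h2 := h a (Finset.mem_insert_self a s)
    refine ⟨min δ (F a / 4), lt_min hδ (by linarith), fun x hx => ?_⟩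
    rcases Finset.mem_insert.1 hx with rfl | hx
    · have := min_le_right δ (F x / 4)
      linarith
    · have := min_le_left δ (F a / 4)
      linarith [h1 x hx]

theorem exists_sep (M : ℕ) : ∃ δ : ℝ, 0 < δ ∧ ∀ m < M, ∀ n < M, m ≠ n → 2 * δ < ‖dir m - dir n‖ := by
  obtain ⟨δ, hδ, h⟩ := exists_lt (((Finset.range M) ×ˢ (Finset.range M)).filter fun p => p.1 ≠ p.2)
    (fun p => ‖dir p.1 - dir p.2‖) (fun p hp => by
      rw [Finset.mem_filter] at hp
      exact norm_pos_iff.2 (sub_ne_zero.2 fun h => hp.2 (dir_inj h)))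
  refine ⟨δ, hδ, fun m hm n hn hmn => h (m, n) ?_⟩
  rw [Finset.mem_filter, Finset.mem_product, Finset.mem_range, Finset.mem_range]
  exact ⟨⟨hm, hn⟩, hmn⟩

/-- one of `g |S| + 1` directions is good for `g` points -/
theorem exists_dir {g : ℕ} (S : Finset ℂ) {δ : ℝ}
    (hδ : ∀ m < g * S.card + 1, ∀ n < g * S.card + 1, m ≠ n → 2 * δ < ‖dir m - dir n‖) (z : Fin g → ℂ)
    (hz : ∀ i, z i ∉ S) : ∃ m < g * S.card + 1, ∀ i, ∀ c ∈ S, Out δ (dir m) c (z i) := by
  classical
  by_contra hcon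
  push Not at hcon
  obtain ⟨i0, -⟩ := hcon 0 (Nat.succ_pos _)
  haveI : Nonempty (Fin g) := ⟨i0⟩
  choose! I C hC hO using hcon
  have h1 : (Finset.range (g * S.card + 1)).card ≤ ((Finset.univ : Finset (Fin g)) ×ˢ S).card := by
    refine Finset.card_le_card_of_injOn (fun m => (I m, C m)) (fun m hm => ?_) ?_
    · rw [Finset.mem_coe, Finset.mem_range] at hm
      rw [Finset.mem_coe, Finset.mem_product]
      exact ⟨Finset.mem_univ _, hC m hm⟩
    · intro m hm n hn hmn
      rw [Finset.mem_coe, Finset.mem_range] at hm hn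
      simp only [Prod.mk.injEq] at hmn
      by_contra hne
      have hne2 : z (I m) ≠ C m := fun h => hz (I m) (h ▸ hC m hm)
      rcases out_or (hδ m hm n hn hne) hne2 with h | h
      · exact hO m hm h
      · refine hO n hn ?_
        rw [← hmn.1, ← hmn.2]
        exact h
  rw [Finset.card_range, Finset.card_product, Finset.card_univ, Fintype.card_fin] at h1
  omega

/-- the plane without the rays `c + t d`, `c ∈ S`, `t ≥ 0` -/
def Cut (S : Finset ℂ) (d : ℂ) : Set ℂ := {z | ∀ c ∈ S, -(z - c) / d ∈ Complex.slitPlane}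

theorem cut_open (S : Finset ℂ) (d : ℂ) : IsOpen (Cut S d) := by
  have h1 : Cut S d = ⋂ c ∈ S, (fun z => -(z - c) / d) ⁻¹' Complex.slitPlane := by
    ext z
    simp [Cut]
  rw [h1]
  refine isOpen_biInter_finset fun c _ => Complex.isOpen_slitPlane.preimage ?_
  fun_prop

theorem slit_add {w : ℂ} (hw : w ∈ Complex.slitPlane) {t : ℝ} (ht : 0 ≤ t) : w + t ∈ Complex.slitPlane := by
  rw [Complex.mem_slitPlane_iff] at hw ⊢
  rcases hw with h | h
  · left
    rw [Complex.add_re, Complex.ofReal_re]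
    linarith
  · right
    rw [Complex.add_im, Complex.ofReal_im, add_zero]
    exact h

theorem cut_shift {S : Finset ℂ} {d : ℂ} (hd : d ≠ 0) {z : ℂ} (hz : z ∈ Cut S d) {t : ℝ} (ht : 0 ≤ t) :
    z - t * d ∈ Cut S d := by
  intro c hc
  have h1 : -(z - t * d - c) / d = -(z - c) / d + t := by
    field_simp
    ring
  rw [h1]
  exact slit_add (hz c hc) ht

/-- a convex part -/
def Half (S : Finset ℂ) (d : ℂ) : Set ℂ := {z | ∀ c ∈ S, 0 < (-(z - c) / d).re}

theorem half_cut (S : Finset ℂ) (d : ℂ) : Half S d ⊆ Cut S d := fun z hz c hc =>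
  Complex.mem_slitPlane_iff.2 (Or.inl (hz c hc))

theorem half_convex (S : Finset ℂ) (d : ℂ) : Convex ℝ (Half S d) := by
  intro z hz w hw a b ha hb hab c hc
  have h1 : -(a • z + b • w - c) / d = a • (-(z - c) / d) + b • (-(w - c) / d) := by
    have h2 : (c : ℂ) = (a : ℂ) * c + (b : ℂ) * c := by
      rw [← add_mul, ← Complex.ofReal_add, hab, Complex.ofReal_one, one_mul]
    rw [Complex.real_smul, Complex.real_smul, Complex.real_smul, Complex.real_smul]
    conv_lhs => rw [h2]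
    ring
  rw [h1, Complex.add_re, Complex.real_smul, Complex.real_smul, Complex.re_ofReal_mul, Complex.re_ofReal_mul]
  rcases ha.eq_or_lt with h0 | h0
  · have hb1 : b = 1 := by linarith
    rw [← h0, hb1, zero_mul, zero_add, one_mul]
    exact hw c hc
  · have h3 := mul_pos h0 (hz c hc)
    have h4 := mul_nonneg hb (hw c hc).le
    linarith

theorem half_big (S : Finset ℂ) {d : ℂ} (hd : d ≠ 0) (z : ℂ) {t : ℝ} (ht : ∑ c ∈ S, ‖(z - c) / d‖ < t) :
    z - t * d ∈ Half S d := by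
  intro c hc
  have h1 : -(z - t * d - c) / d = -((z - c) / d) + t := by
    field_simp
    ring
  rw [h1, Complex.add_re, Complex.ofReal_re, Complex.neg_re]
  have h2 := Finset.single_le_sum (f := fun c => ‖(z - c) / d‖) (fun _ _ => norm_nonneg _) hc
  have h3 := Complex.re_le_norm ((z - c) / d)
  linarith

theorem cut_pc (S : Finset ℂ) {d : ℂ} (hd : d ≠ 0) : IsPreconnected (Cut S d) := by
  have hseg : ∀ z ∈ Cut S d, ∀ t : ℝ, 0 ≤ t → JoinedIn (Cut S d) z (z - t * d) := by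
    intro z hz t ht
    refine JoinedIn.of_segment_subset ?_
    intro y hy
    rw [segment_eq_image'] at hy
    obtain ⟨s, hs, rfl⟩ := hy
    have h1 : z + s • (z - t * d - z) = z - ((s * t : ℝ) : ℂ) * d := by
      rw [Complex.real_smul]
      push_cast
      ring
    show z + s • (z - t * d - z) ∈ _
    rw [h1]
    exact cut_shift hd hz (mul_nonneg hs.1 ht)
  rcases (Cut S d).eq_empty_or_nonempty with h0 | ⟨z0, hz0⟩
  · rw [h0]
    exact isPreconnected_empty
  have hpc : IsPathConnected (Cut S d) := by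
    refine ⟨z0, hz0, fun {w} hw => ?_⟩
    set t : ℝ := ∑ c ∈ S, ‖(z0 - c) / d‖ + ∑ c ∈ S, ‖(w - c) / d‖ + 1 with ht
    have h0 : 0 ≤ ∑ c ∈ S, ‖(z0 - c) / d‖ := Finset.sum_nonneg fun _ _ => norm_nonneg _
    have h1 : 0 ≤ ∑ c ∈ S, ‖(w - c) / d‖ := Finset.sum_nonneg fun _ _ => norm_nonneg _
    have ht0 : 0 ≤ t := by linarith
    have h2 : z0 - t * d ∈ Half S d := half_big S hd z0 (by linarith)
    have h3 : w - t * d ∈ Half S d := half_big S hd w (by linarith)
    have h4 : JoinedIn (Cut S d) (z0 - t * d) (w - t * d) :=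
      JoinedIn.of_segment_subset ((half_convex S d).segment_subset h2 h3 |>.trans (half_cut S d))
    exact (hseg z0 hz0 t ht0).trans (h4.trans (hseg w hw t ht0).symm)
  exact hpc.isConnected.isPreconnected

theorem cut_nonempty (S : Finset ℂ) {d : ℂ} (hd : d ≠ 0) : (Cut S d).Nonempty :=
  ⟨_, half_cut S d (half_big S hd 0 (t := ∑ c ∈ S, ‖(0 - c) / d‖ + 1) (by linarith))⟩

theorem of_not_cut {S : Finset ℂ} {d : ℂ} (hd : d ≠ 0) {y : ℂ} (hy : y ∉ Cut S d) : ∃ c ∈ S, ∃ t : ℝ, 0 ≤ t ∧ y = c + t * d := by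
  have h1 : ¬ ∀ c ∈ S, -(y - c) / d ∈ Complex.slitPlane := hy
  push Not at h1
  obtain ⟨c, hc, h2⟩ := h1
  rw [Complex.mem_slitPlane_iff, not_or, not_lt, not_not] at h2
  refine ⟨c, hc, -(-(y - c) / d).re, by linarith [h2.1], ?_⟩
  have h3 : -(y - c) / d = ((-(y - c) / d).re : ℂ) := by
    apply Complex.ext
    · rw [Complex.ofReal_re]
    · rw [Complex.ofReal_im, h2.2]
  push_cast
  rw [← h3]
  field_simp
  ring

/-- the points which are outside of the cones -/
def Adm (S : Finset ℂ) (δ : ℝ) (d : ℂ) : Set ℂ := {z | ∀ c ∈ S, Out δ d c z}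

theorem inn_cut {g : ℕ} {S : Finset ℂ} {δ : ℝ} (hδ : 0 < δ) {d : ℂ} (hd : ‖d‖ = 1) {R η : ℝ} {a : Fin (g + 1) → ℤ}
    (h : Inn Set.univ ((S : Set ℂ)ᶜ) R η a) : Inn (Adm S δ d) (Cut S d) R (min η (δ / 2 * η)) a := by
  have hd0 : d ≠ 0 := by
    intro h0
    rw [h0, norm_zero] at hd
    exact zero_ne_one hd
  obtain ⟨z, hz, h1, h2, h3⟩ := h
  refine ⟨z, hz, h1, fun i j hij => (min_le_left _ _).trans (h2 i j hij), fun i hi y hy => ?_⟩
  by_contra hcon
  obtain ⟨c, hc, t, ht, rfl⟩ := of_not_cut hd0 hcon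
  have h4 := out_dist hd (hi c hc) ht
  rw [Metric.mem_ball, dist_eq_norm, norm_sub_rev] at hy
  have h5 : ‖z i - (c + t * d)‖ < δ / 2 * η := hy.trans_le (min_le_right _ _)
  have h6 : ‖z i - c‖ < η := by
    by_contra h7
    rw [not_lt] at h7
    have h8 : δ / 2 * η ≤ δ / 2 * ‖z i - c‖ := mul_le_mul_of_nonneg_left h7 (by linarith)
    linarith
  have h7 : c ∈ Metric.ball (z i) η := by
    rw [Metric.mem_ball, dist_eq_norm, norm_sub_rev]
    exact h6
  exact h3 i (Set.mem_univ _) h7 hc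

theorem tame_univ_compl (S : Finset ℂ) : Tame Set.univ ((S : Set ℂ)ᶜ) :=
  ⟨S, 1, one_pos, fun R => S.finite_toSet.inter_of_left _, fun z _ w hw => Or.inl ⟨w, by simpa using hw, le_rfl⟩⟩

end Pool.Agent.X255.RH
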