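import Pool.Agent.X255.RH.Cnt
import Pool.Agent.Y771.KF.Std

/-!
# Values of functions at the roots of almost all polynomials: the main theorems
-/

set_option autoImplicit false
set_option linter.unusedSectionVars false

open Polynomial Filter Topology NumberField

namespace Pool.Agent.X255.RH

open Pool.Agent.Y890.SP Pool.Agent.X255.NP
open Pool.Agent.Y124 (Cov)

variable {σ : Type} [Fintype σ] [DecidableEq σ] {V : Set ℂ} {f : σ → ℂ → ℂ} {g : ℕ}

theorem Inn.lead {K : Set ℂ} {R η : ℝ} {a : Fin (g + 1) → ℤ} (h : Inn K V R η a) : a (Fin.last g) ≠ 0 := by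
  obtain ⟨z, hz, _⟩ := h
  exact hz.1

theorem Inn.sep {K : Set ℂ} {R η : ℝ} (hη : 0 < η) {a : Fin (g + 1) → ℤ} (h : Inn K V R η a) : (pol a).Separable := by
  obtain ⟨z, hz, _, h2, _⟩ := h
  have hinj : Function.Injective z := by
    intro i j hij
    by_contra hne
    have h1 := h2 i j hne
    rw [hij, sub_self, norm_zero] at h1
    linarith
  rw [hz.2]
  have h0 : ((a (Fin.last g) : ℤ) : ℂ) ≠ 0 := by exact_mod_cast hz.1
  exact Separable.unit_mul (Polynomial.isUnit_C.2 (isUnit_iff_ne_zero.2 h0)) (separable_prod_X_sub_C_iff.2 hinj)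

/-- **Few exceptions among the polynomials with roots in a compact position.** -/
theorem main_pow (hg : 0 < g) (hV : IsPreconnected V) (hVo : IsOpen V) (hf : ∀ v, AnalyticOnNhd ℂ (f v) V)
    (h : Indep V f) (K : ℕ → Set ℂ) (ξ : ℕ → ℂ) :
    ∃ (ω : ℝ → ℕ) (T₀ : ℝ), Tendsto ω atTop atTop ∧ Monotone ω ∧ ∀ T, T₀ ≤ T → 0 < ω T ∧
      (ExcR (g := g) (K (ω T)) V f (ω T) (ω T : ℝ)⁻¹ ξ (ω T) T).Finite ∧
      ((ExcR (g := g) (K (ω T)) V f (ω T) (ω T : ℝ)⁻¹ ξ (ω T) T).ncard : ℝ) ≤ T ^ ((g : ℝ) + (ω T : ℝ)⁻¹) := by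
  classical
  let S : ℕ → ℝ → Prop := fun k T => (ExcR (g := g) (K k) V f k (k : ℝ)⁻¹ ξ k T).Finite ∧
      ((ExcR (g := g) (K k) V f k (k : ℝ)⁻¹ ξ k T).ncard : ℝ) ≤ T ^ ((g : ℝ) + (k : ℝ)⁻¹)
  refine exists_omega S fun k => ?_
  set κ : ℝ := ((k + 1 : ℕ) : ℝ)⁻¹ with hκ
  have hκ0 : 0 < κ := by positivity
  obtain ⟨D, C, T₀, hC, hT₀, HH⟩ := excR_cov hg hV hVo hf h (K (k + 1)) ((k + 1 : ℕ) : ℝ) κ hκ0 ξ (k + 1) (κ / 4) (by positivity)
  have hpow : ∀ C : ℝ, 0 ≤ C → ∃ T₁ : ℝ, ∀ T, 1 ≤ T → T₁ ≤ T → C ≤ T ^ (κ / 4) := by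
    intro C hC
    refine ⟨C ^ (4 * (k + 1)), fun T hT hT1 => ?_⟩
    have h4 : C = (C ^ (4 * (k + 1))) ^ (κ / 4) := by
      rw [← Real.rpow_natCast, ← Real.rpow_mul hC]
      have : ((4 * (k + 1) : ℕ) : ℝ) * (κ / 4) = 1 := by
        rw [hκ]
        push_cast
        have : ((k : ℝ) + 1) ≠ 0 := by positivity
        field_simp
      rw [this, Real.rpow_one]
    rw [h4]
    exact Real.rpow_le_rpow (by positivity) hT1 (by positivity)
  obtain ⟨T₁, hT₁⟩ := hpow C hC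
  obtain ⟨T₂, hT₂⟩ := hpow D (Nat.cast_nonneg _)
  obtain ⟨T₃, hT₃⟩ := hpow (3 ^ g) (by positivity)
  refine ⟨max T₀ (max T₁ (max T₂ T₃)), fun T hT => ?_⟩
  simp only [max_le_iff] at hT
  obtain ⟨h0, h1, h2, h2'⟩ := hT
  have hT1 : 1 ≤ T := by linarith
  have hTp : 0 < T := by linarith
  have h3 := hT₁ T hT1 h1
  have h4 := hT₂ T hT1 h2
  have h4' := hT₃ T hT1 h2'
  have hcov := HH T h0
  have h6 : T ^ (κ / 4) ≤ T ^ κ := Real.rpow_le_rpow_of_exponent_le hT1 (by linarith)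
  have hm : C * T ^ (κ / 4) ≤ T ^ (κ / 4) * T ^ (κ / 4) := mul_le_mul_of_nonneg_right h3 (by positivity)
  obtain ⟨h7, h8⟩ := count_of_cov hg (ExcR (g := g) (K (k + 1)) V f ((k + 1 : ℕ) : ℝ) κ ξ (k + 1) T) hT1 (by
    rintro a ⟨ha, hi, _⟩
    exact ⟨ha, hi.lead⟩) hcov
  refine ⟨h7, ?_⟩
  have h9 : ((⌊C * T ^ (κ / 4)⌋₊ : ℕ) : ℝ) ≤ T ^ (κ / 4) * T ^ (κ / 4) :=
    (Nat.floor_le (by positivity)).trans hm
  refine h8.trans ?_
  rw [mul_pow, Real.rpow_add hTp, Real.rpow_natCast]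
  have h10 : (⌊C * T ^ (κ / 4)⌋₊ : ℝ) * (D : ℝ) * (3 : ℝ) ^ g ≤ T ^ κ := by
    calc (⌊C * T ^ (κ / 4)⌋₊ : ℝ) * (D : ℝ) * (3 : ℝ) ^ g
        ≤ (T ^ (κ / 4) * T ^ (κ / 4)) * T ^ (κ / 4) * T ^ (κ / 4) := by
          refine mul_le_mul (mul_le_mul h9 h4 (Nat.cast_nonneg _) (by positivity)) h4' (by positivity) (by positivity)
      _ = T ^ κ := by
          rw [← Real.rpow_add hTp, ← Real.rpow_add hTp, ← Real.rpow_add hTp]
          congr 1
          ring
  calc (⌊C * T ^ (κ / 4)⌋₊ : ℝ) * (D : ℝ) * ((3 : ℝ) ^ g * T ^ g)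
      = ((⌊C * T ^ (κ / 4)⌋₊ : ℝ) * (D : ℝ) * (3 : ℝ) ^ g) * T ^ g := by ring
    _ ≤ T ^ κ * T ^ g := mul_le_mul_of_nonneg_right h10 (by positivity)
    _ = T ^ g * T ^ κ := mul_comm _ _

/-- `a` is of degree `g`, has simple roots, and the values of the functions at its roots in `K` are unrelated -/
def Good (K : Set ℂ) (f : σ → ℂ → ℂ) (ξ : ℕ → ℂ) (k : ℕ) (T : ℝ) (a : Fin (g + 1) → ℤ) : Prop :=
  a (Fin.last g) ≠ 0 ∧ (pol a).Separable ∧ NoRel ξ k T (vals K f a)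

theorem bx_card (g T : ℕ) : ((bx g T).card : ℝ) = (2 * (T : ℝ) + 1) ^ (g + 1) := by
  rw [bx, Fintype.card_piFinset, Finset.prod_const, Finset.card_univ, Fintype.card_fin, Int.card_Icc]
  have h1 : ((T : ℤ) + 1 - -(T : ℤ)).toNat = 2 * T + 1 := by omega
  rw [h1]
  push_cast
  ring

open scoped Classical in
theorem count_k (hg : 0 < g) (hV : IsPreconnected V) (hVo : IsOpen V) {K : Set ℂ} (hVt : Tame K V)
    (hf : ∀ v, AnalyticOnNhd ℂ (f v) V)
    (h : Indep V f) (ξ : ℕ → ℂ) (k : ℕ) (hk : 1 ≤ k) :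
    ∃ T₀ : ℕ, ∀ T, T₀ ≤ T → (k : ℝ) * ((bx g T).filter fun a => ¬ Good K f ξ k T a).card ≤ (bx g T).card := by
  have hk' : (1 : ℝ) ≤ k := by exact_mod_cast hk
  obtain ⟨R, η, T₁, hη, hinn⟩ := inn_count hg hVt (δ := 1 / (2 * k)) (by positivity)
  obtain ⟨D, C, T₂, hC, hT₂, HH⟩ := excR_cov hg hV hVo hf h K R η hη ξ k (1 / 2) (by norm_num)
  refine ⟨max (max 1 T₁) (max ⌈T₂⌉₊ ⌈(2 * k * (C * D * 3 ^ g)) ^ 2⌉₊), fun T hT => ?_⟩
  simp only [max_le_iff] at hT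
  obtain ⟨⟨hT1, hTa⟩, hTb, hTc⟩ := hT
  have hTr : (1 : ℝ) ≤ T := by exact_mod_cast hT1
  have hTp : (0 : ℝ) < T := by linarith
  have hTb' : T₂ ≤ T := Nat.ceil_le.1 hTb
  have hTc' : (2 * k * (C * D * 3 ^ g)) ^ 2 ≤ (T : ℝ) := Nat.ceil_le.1 hTc
  obtain ⟨h7, h8⟩ := count_of_cov hg (ExcR (g := g) K V f R η ξ k T) hTr (by
    rintro a ⟨ha, hi, _⟩
    exact ⟨ha, hi.lead⟩) (HH T hTb')
  have hsub : ((bx g T).filter fun a => ¬ Good K f ξ k T a) ⊆ ((bx g T).filter fun a => ¬ Inn K V R η a) ∪ h7.toFinset := by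
    intro a ha
    rw [Finset.mem_filter] at ha
    rw [Finset.mem_union, Finset.mem_filter, Set.Finite.mem_toFinset]
    by_cases hi : Inn K V R η a
    · right
      refine ⟨fun i => by exact_mod_cast mem_bx.1 ha.1 i, hi, fun hno => ha.2 ⟨hi.lead, hi.sep hη, hno⟩⟩
    · exact Or.inl ⟨ha.1, hi⟩
  have h1 := (Finset.card_le_card hsub).trans (Finset.card_union_le _ _)
  rw [← Set.ncard_eq_toFinset_card _ h7] at h1
  have h2 : (((bx g T).filter fun a => ¬ Good K f ξ k T a).card : ℝ) ≤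
      ((bx g T).filter fun a => ¬ Inn K V R η a).card + (ExcR (g := g) K V f R η ξ k T).ncard := by exact_mod_cast h1
  have h3 := hinn T hTa
  set Bx : ℝ := ((bx g T).card : ℝ) with hBx
  have hBx0 : 0 ≤ Bx := Nat.cast_nonneg _
  -- the second part
  have h4 : 2 * k * ((ExcR (g := g) K V f R η ξ k T).ncard : ℝ) ≤ Bx := by
    have hsq : ((T : ℝ)) ^ (1 / 2 : ℝ) = √T := by rw [Real.sqrt_eq_rpow]
    rw [hsq] at h8
    have hs : 2 * k * (C * D * 3 ^ g) ≤ √(T : ℝ) := Real.le_sqrt_of_sq_le hTc'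
    have hfl : ((⌊C * √(T : ℝ)⌋₊ : ℕ) : ℝ) ≤ C * √T := Nat.floor_le (by positivity)
    have hTT : √(T : ℝ) * √T = T := Real.mul_self_sqrt (by positivity)
    calc 2 * k * ((ExcR (g := g) K V f R η ξ k T).ncard : ℝ)
        ≤ 2 * k * ((⌊C * √(T : ℝ)⌋₊ : ℝ) * D * (3 * T) ^ g) := mul_le_mul_of_nonneg_left h8 (by positivity)
      _ ≤ 2 * k * ((C * √T) * D * (3 * T) ^ g) := by gcongr
      _ = (2 * k * (C * D * 3 ^ g)) * (√T * T ^ g) := by rw [mul_pow]; ring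
      _ ≤ √T * (√T * T ^ g) := mul_le_mul_of_nonneg_right hs (by positivity)
      _ = T ^ (g + 1) := by rw [← mul_assoc, hTT, pow_succ]; ring
      _ ≤ (2 * (T : ℝ) + 1) ^ (g + 1) := pow_le_pow_left₀ (by positivity) (by linarith) _
      _ = Bx := by rw [hBx, bx_card]
  have h5 : (k : ℝ) * (1 / (2 * k) * Bx) = Bx / 2 := by
    field_simp
  nlinarith

open scoped Classical in
/-- **Almost all polynomials.** -/
theorem main_all (hg : 0 < g) (hV : IsPreconnected V) (hVo : IsOpen V) (K : ℕ → Set ℂ) (hVt : ∀ k, Tame (K k) V)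
    (hf : ∀ v, AnalyticOnNhd ℂ (f v) V) (h : Indep V f) (ξ : ℕ → ℂ) :
    ∃ ω : ℕ → ℕ, Tendsto ω atTop atTop ∧ Monotone ω ∧ ∀ T,
      ω T * ((bx g T).filter fun a => ¬ Good (K (ω T)) f ξ (ω T) T a).card ≤ (bx g T).card := by
  obtain ⟨ω, T₀, h1, h2, h3⟩ := exists_omega
    (fun k T => (k : ℝ) * ((bx g ⌊T⌋₊).filter fun a => ¬ Good (K k) f ξ k (⌊T⌋₊ : ℕ) a).card ≤ (bx g ⌊T⌋₊).card) (by
      intro k
      obtain ⟨B₀, hB₀⟩ := count_k hg hV hVo (hVt (k + 1)) hf h ξ (k + 1) (Nat.succ_pos k)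
      exact ⟨B₀, fun T hT => hB₀ _ (Nat.le_floor hT)⟩)
  refine ⟨fun B => if T₀ ≤ B then ω B else 0, ?_, ?_, ?_⟩
  · have h4 : (fun B : ℕ => if T₀ ≤ B then ω B else 0) =ᶠ[atTop] fun B : ℕ => ω B := by
      filter_upwards [eventually_ge_atTop ⌈T₀⌉₊] with B hB
      rw [if_pos (Nat.ceil_le.1 hB)]
    exact Tendsto.congr' h4.symm (h1.comp tendsto_natCast_atTop_atTop)
  · intro B B' hBB
    have hc : (B : ℝ) ≤ B' := by exact_mod_cast hBB
    by_cases h4 : T₀ ≤ (B : ℝ)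
    · simp only [if_pos h4, if_pos (h4.trans hc)]
      exact h2 hc
    · simp only [if_neg h4]
      exact Nat.zero_le _
  · intro B
    by_cases h4 : T₀ ≤ (B : ℝ)
    · simp only [if_pos h4]
      have h5 := (h3 B h4).2
      simp only [Nat.floor_natCast] at h5
      exact_mod_cast h5
    · simp only [if_neg h4, zero_mul]
      exact Nat.zero_le _

/-- the roots are simple, of absolute value at most `R`, at distance at least `η` from each other, and the roots in `K` at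
distance at least `η` from the complement of `V` -/
def Pos (K V : Set ℂ) (R η : ℝ) (a : Fin (g + 1) → ℤ) : Prop :=
  a (Fin.last g) ≠ 0 ∧ (pol a).Separable ∧ ∀ z, (pol a).eval z = 0 → ‖z‖ ≤ R ∧
    (∀ w, (pol a).eval w = 0 → w ≠ z → η ≤ ‖z - w‖) ∧ (z ∈ K → Metric.ball z η ⊆ V)

theorem exists_roots {a : Fin (g + 1) → ℤ} (ha0 : a (Fin.last g) ≠ 0) : ∃ z : Fin g → ℂ, IsRoots a z := by
  have ha0c : ((a (Fin.last g) : ℤ) : ℂ) ≠ 0 := by exact_mod_cast ha0
  obtain ⟨z, hz⟩ := Pool.Agent.X255.NH.exists_co (quoC a)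
  refine ⟨z, ha0, ?_⟩
  rw [← mp_co, hz]
  ext n
  rw [coeff_C_mul]
  rcases lt_trichotomy n g with hn | hn | hn
  · have h1 := pol_coeff a (Fin.castSucc ⟨n, hn⟩)
    have h2 := mp_coeff (quoC a) ⟨n, hn⟩
    simp only [Fin.val_castSucc] at h1
    rw [h1, h2]
    simp only [quoC, quo]
    rw [map_div₀]
    simp only [eq_intCast, map_intCast]
    rw [mul_div_cancel₀ _ ha0c]
  · subst hn
    have h1 := pol_coeff a (Fin.last n)
    rw [Fin.val_last] at h1
    rw [h1]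
    have h2 := (mp_monic (quoC a)).coeff_natDegree
    rw [mp_degree] at h2
    rw [h2, mul_one]
  · rw [coeff_eq_zero_of_natDegree_lt ((pol_degree_le a).trans_lt hn),
      coeff_eq_zero_of_natDegree_lt (by rw [mp_degree]; exact hn), mul_zero]

theorem Pos.inn {K : Set ℂ} {R η : ℝ} {a : Fin (g + 1) → ℤ} (h : Pos K V R η a) : Inn K V R η a := by
  obtain ⟨ha0, hsep, h⟩ := h
  obtain ⟨z, hz⟩ := exists_roots ha0
  have hinj : Function.Injective z := by
    have h0 : ((a (Fin.last g) : ℤ) : ℂ) ≠ 0 := by exact_mod_cast ha0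
    have h1 : (∏ j, (X - C (z j))).Separable := by
      have h2 := hsep
      rw [hz.2] at h2
      exact h2.of_mul_right
    exact separable_prod_X_sub_C_iff.1 h1
  exact ⟨z, hz, fun i => (h _ (hz.root i)).1, fun i j hij => (h _ (hz.root i)).2.1 _ (hz.root j) fun h2 =>
    hij (hinj h2.symm), fun i hi => (h _ (hz.root i)).2.2 hi⟩

open scoped Classical in
/-- **A power saving for polynomials with roots in a compact position.** -/
theorem main_eps (hg : 0 < g) (hV : IsPreconnected V) (hVo : IsOpen V) (hf : ∀ v, AnalyticOnNhd ℂ (f v) V)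
    (h : Indep V f) (K : Set ℂ) (ξ : ℕ → ℂ) (k : ℕ) (R η ε : ℝ) (hη : 0 < η) (hε : 0 < ε) :
    ∃ C : ℝ, ∀ T : ℕ, 1 ≤ T →
      (((bx g T).filter fun a => Pos K V R η a ∧ ¬ NoRel ξ k T (vals K f a)).card : ℝ) ≤ C * (T : ℝ) ^ ((g : ℝ) + ε) := by
  obtain ⟨D, C, T₀, hC, hT₀, HH⟩ := excR_cov hg hV hVo hf h K R η hη ξ k ε hε
  refine ⟨max (C * D * 3 ^ g) ((2 * T₀ + 1) ^ (g + 1)), fun T hT => ?_⟩
  have hTr : (1 : ℝ) ≤ T := by exact_mod_cast hT
  have hTp : (0 : ℝ) < T := by linarith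
  rcases le_or_gt T₀ (T : ℝ) with hTT | hTT
  · obtain ⟨h7, h8⟩ := count_of_cov hg (ExcR (g := g) K V f R η ξ k T) hTr (by
      rintro a ⟨ha, hi, _⟩
      exact ⟨ha, hi.lead⟩) (HH T hTT)
    have hsub : (((bx g T).filter fun a => Pos K V R η a ∧ ¬ NoRel ξ k T (vals K f a)) : Finset _) ⊆ h7.toFinset := by
      intro a ha
      rw [Finset.mem_filter] at ha
      rw [Set.Finite.mem_toFinset]
      exact ⟨fun i => by exact_mod_cast mem_bx.1 ha.1 i, ha.2.1.inn, ha.2.2⟩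
    have h1 := Finset.card_le_card hsub
    rw [← Set.ncard_eq_toFinset_card _ h7] at h1
    have h2 : (((bx g T).filter fun a => Pos K V R η a ∧ ¬ NoRel ξ k T (vals K f a)).card : ℝ) ≤
        (ExcR (g := g) K V f R η ξ k T).ncard := by exact_mod_cast h1
    refine h2.trans (h8.trans ?_)
    have hfl : ((⌊C * (T : ℝ) ^ ε⌋₊ : ℕ) : ℝ) ≤ C * (T : ℝ) ^ ε := Nat.floor_le (by positivity)
    calc (⌊C * (T : ℝ) ^ ε⌋₊ : ℝ) * D * (3 * T) ^ g ≤ (C * (T : ℝ) ^ ε) * D * (3 * T) ^ g := by gcongr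
      _ = (C * D * 3 ^ g) * (T : ℝ) ^ ((g : ℝ) + ε) := by
          rw [Real.rpow_add hTp, Real.rpow_natCast, mul_pow]
          ring
      _ ≤ _ := mul_le_mul_of_nonneg_right (le_max_left _ _) (by positivity)
  · have h1 : (((bx g T).filter fun a => Pos K V R η a ∧ ¬ NoRel ξ k T (vals K f a)).card : ℝ) ≤ (bx g T).card := by
      exact_mod_cast Finset.card_le_card (Finset.filter_subset _ _)
    refine h1.trans ?_
    rw [bx_card]
    have h2 : (2 * (T : ℝ) + 1) ^ (g + 1) ≤ (2 * T₀ + 1) ^ (g + 1) := pow_le_pow_left₀ (by positivity) (by linarith) _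
    refine (h2.trans (le_max_right (C * D * 3 ^ g) _)).trans ?_
    refine le_mul_of_one_le_right (le_trans (by positivity) (le_max_right _ ((2 * T₀ + 1) ^ (g + 1)))) ?_
    exact Real.one_le_rpow hTr (by positivity)

/-- independence in the form of the library -/
theorem indep_of_aindepS {κ : Type} {S : Set ℂ} {u : κ → ℂ → ℂ} (h : Pool.Agent.Y771.KF.AIndepS u S) : Indep S u := by
  classical
  intro p hp
  let φ : MvPolynomial κ ℂ[X] →+* MvPolynomial (Option κ) ℂ :=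
    MvPolynomial.eval₂Hom (Polynomial.eval₂RingHom MvPolynomial.C (MvPolynomial.X none)) fun i => MvPolynomial.X (some i)
  have hev : ∀ t, MvPolynomial.eval (fun o : Option κ => o.elim t fun y => u y t) (φ p) = evF u t p := by
    intro t
    have h1 : (MvPolynomial.eval (fun o : Option κ => o.elim t fun y => u y t)).comp φ = evH u t := by
      refine MvPolynomial.ringHom_ext (fun a => ?_) fun i => ?_
      · simp only [φ, RingHom.comp_apply, MvPolynomial.eval₂Hom_C, evH]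
        have h2 : (MvPolynomial.eval fun o : Option κ => o.elim t fun y => u y t).comp MvPolynomial.C = RingHom.id ℂ := by
          ext x
          simp
        rw [coe_eval₂RingHom, Polynomial.hom_eval₂, h2, MvPolynomial.eval_X, Option.elim_none, eval₂_id]
        rfl
      · simp only [φ, RingHom.comp_apply, MvPolynomial.eval₂Hom_X', evH, MvPolynomial.eval_X, Option.elim_some]
    exact RingHom.congr_fun h1 p
  have h0 : φ p = 0 := h (φ p) fun t ht => by rw [hev]; exact hp t ht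
  have hφ : Function.Injective φ := by
    have h1 : φ = ((MvPolynomial.optionEquivRight ℂ κ).symm : MvPolynomial κ ℂ[X] →+* MvPolynomial (Option κ) ℂ) := by
      refine MvPolynomial.ringHom_ext (fun a => ?_) fun i => ?_
      · simp [φ, MvPolynomial.optionEquivRight, Polynomial.aeval_def]
      · simp [φ, MvPolynomial.optionEquivRight]
    rw [h1]
    exact (MvPolynomial.optionEquivRight ℂ κ).symm.injective
  exact hφ (by rw [h0, map_zero])

end Pool.Agent.X255.RH
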