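import Pool.Agent.X255.RH.Avd2
import Pool.Agent.X255.RH.Main

/-!
# Complements of locally finite sets, and discrete groups of elements of number fields
-/

section Complements

set_option autoImplicit false

open Polynomial Filter Topology

namespace Pool.Agent.X255.RH

theorem open_of_discrete {S : Set ℂ} (hS : ∀ R : ℝ, (S ∩ Metric.closedBall 0 R).Finite) : IsOpen Sᶜ := by
  rw [isOpen_iff_mem_nhds]
  intro x hx
  have h1 : (S ∩ Metric.closedBall 0 (‖x‖ + 1))ᶜ ∈ 𝓝 x := by
    refine (hS _).isClosed.isOpen_compl.mem_nhds ?_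
    intro h
    exact hx h.1
  have h2 : Metric.ball (0 : ℂ) (‖x‖ + 1) ∈ 𝓝 x := by
    refine Metric.isOpen_ball.mem_nhds ?_
    rw [Metric.mem_ball, dist_zero_right]
    linarith
  filter_upwards [h1, h2] with y hy1 hy2 hy
  exact hy1 ⟨hy, Metric.ball_subset_closedBall hy2⟩

theorem countable_of_discrete {S : Set ℂ} (hS : ∀ R : ℝ, (S ∩ Metric.closedBall 0 R).Finite) : S.Countable := by
  have h1 : S ⊆ ⋃ n : ℕ, S ∩ Metric.closedBall 0 (n : ℝ) := by
    intro x hx
    obtain ⟨n, hn⟩ := exists_nat_ge ‖x‖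
    exact Set.mem_iUnion.2 ⟨n, hx, by rw [Metric.mem_closedBall, dist_zero_right]; exact hn⟩
  exact (Set.countable_iUnion fun n : ℕ => (hS n).countable).mono h1

theorem preconnected_of_discrete {S : Set ℂ} (hS : ∀ R : ℝ, (S ∩ Metric.closedBall 0 R).Finite) : IsPreconnected Sᶜ := by
  have h1 : 1 < Module.rank ℝ ℂ := by
    rw [Complex.rank_real_complex]
    norm_num
  exact ((countable_of_discrete hS).isPathConnected_compl_of_one_lt_rank h1).isConnected.isPreconnected

/-- the preimages of a locally finite set under finitely many nonconstant linear functions -/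
theorem discrete_lin {n : ℕ} (α γ : Fin n → ℂ) (hα : ∀ i, α i ≠ 0) {S : Set ℂ}
    (hS : ∀ R : ℝ, (S ∩ Metric.closedBall 0 R).Finite) (R : ℝ) :
    ({z | ∃ i, α i * z + γ i ∈ S} ∩ Metric.closedBall 0 R).Finite := by
  have h1 : {z | ∃ i, α i * z + γ i ∈ S} ∩ Metric.closedBall 0 R ⊆
      ⋃ i, (fun w => (w - γ i) / α i) '' (S ∩ Metric.closedBall 0 (‖α i‖ * R + ‖γ i‖)) := by
    rintro z ⟨⟨i, hi⟩, hz⟩
    rw [Metric.mem_closedBall, dist_zero_right] at hz
    refine Set.mem_iUnion.2 ⟨i, α i * z + γ i, ⟨hi, ?_⟩, ?_⟩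
    · rw [Metric.mem_closedBall, dist_zero_right]
      refine (norm_add_le _ _).trans (add_le_add ?_ le_rfl)
      rw [norm_mul]
      exact mul_le_mul_of_nonneg_left hz (norm_nonneg _)
    · have := hα i
      field_simp
      ring
  exact (Set.finite_iUnion fun i => (hS _).image _).subset h1

theorem discrete_neg_nat (R : ℝ) : ({z : ℂ | ∃ m : ℕ, z = -m} ∩ Metric.closedBall 0 R).Finite := by
  refine ((Finset.range (⌊R⌋₊ + 1)).finite_toSet.image fun m : ℕ => -(m : ℂ)).subset ?_
  rintro z ⟨⟨m, rfl⟩, hz⟩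
  rw [Metric.mem_closedBall, dist_zero_right, norm_neg, Complex.norm_natCast] at hz
  refine ⟨m, ?_, rfl⟩
  rw [Finset.mem_coe, Finset.mem_range]
  exact Nat.lt_succ_of_le (Nat.le_floor hz)

end Pool.Agent.X255.RH

end Complements

set_option autoImplicit false
set_option linter.unusedSectionVars false

open Polynomial Filter Topology NumberField

namespace Pool.Agent.X255.RH

open Pool.Agent.Y890.SP Pool.Agent.X255.NP

section
variable {K : Type} [Field K] [NumberField K]

theorem hom_ext {α : K} (hα : IntermediateField.adjoin ℚ {α} = ⊤) {φ ψ : K →+* ℂ} (h : φ α = ψ α) : φ = ψ := by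
  refine RingHom.ext fun x => ?_
  have hx : x ∈ IntermediateField.adjoin ℚ {α} := by rw [hα]; exact IntermediateField.mem_top
  induction hx using IntermediateField.adjoin_induction with
  | mem x hx => rw [Set.mem_singleton_iff.1 hx, h]
  | algebraMap x => rw [eq_ratCast, map_ratCast, map_ratCast]
  | add x y _ _ hx hy => rw [map_add, map_add, hx, hy]
  | inv x _ hx => rw [map_inv₀, map_inv₀, hx]
  | mul x y _ _ hx hy => rw [map_mul, map_mul, hx, hy]

theorem hom_aeval (φ : K →+* ℂ) (α : K) (P : ℤ[X]) : φ (aeval α P) = (P.map (Int.castRingHom ℂ)).eval (φ α) := by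
  rw [eval_map, aeval_def, hom_eval₂]
  congr 1
  exact RingHom.ext_int _ _

theorem hom_root {g : ℕ} {a : Fin (g + 1) → ℤ} {α : K} (hroot : aeval α (polZ a) = 0) (φ : K →+* ℂ) :
    (pol a).eval (φ α) = 0 := by
  have h1 := hom_aeval φ α (polZ a)
  rw [hroot, map_zero] at h1
  have h2 : (polZ a).map (Int.castRingHom ℂ) = pol a := by
    unfold polZ pol
    rw [Polynomial.map_sum]
    refine Finset.sum_congr rfl fun i _ => ?_
    rw [Polynomial.map_mul, Polynomial.map_pow, map_X, map_C, eq_intCast]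
  rw [← h2]
  exact h1.symm

/-- the root in the closed upper half plane which belongs to an archimedean place -/
noncomputable def up (α : K) (w : InfinitePlace K) : ℂ :=
  if 0 ≤ (w.embedding α).im then w.embedding α else (starRingEnd ℂ) (w.embedding α)

theorem up_im (α : K) (w : InfinitePlace K) : 0 ≤ (up α w).im := by
  unfold up
  split_ifs with h
  · exact h
  · rw [Complex.conj_im]
    linarith [not_le.1 h]

theorem up_root {g : ℕ} {a : Fin (g + 1) → ℤ} {α : K} (hroot : aeval α (polZ a) = 0) (w : InfinitePlace K) :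
    (pol a).eval (up α w) = 0 := by
  unfold up
  split_ifs
  · exact hom_root hroot _
  · exact pol_conj a _ (hom_root hroot _)

theorem up_norm (α : K) (w : InfinitePlace K) (P : ℤ[X]) :
    ‖(P.map (Int.castRingHom ℂ)).eval (up α w)‖ = w (aeval α P) := by
  rw [← InfinitePlace.norm_embedding_eq, hom_aeval]
  unfold up
  split_ifs
  · rfl
  · rw [eval_conj, Complex.norm_conj]

theorem up_inj {α : K} (hα : IntermediateField.adjoin ℚ {α} = ⊤) : Function.Injective (up α) := by
  intro w w' h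
  have h1 : w.embedding α = w'.embedding α ∨ (starRingEnd ℂ) (w.embedding α) = w'.embedding α := by
    unfold up at h
    split_ifs at h with h2 h3 h3
    · exact Or.inl h
    · right
      rw [h, Complex.conj_conj]
    · exact Or.inr h
    · exact Or.inl ((starRingEnd ℂ).injective h)
  rcases h1 with h1 | h1
  · have h2 := hom_ext hα h1
    rw [← InfinitePlace.mk_embedding w, ← InfinitePlace.mk_embedding w', h2]
  · have h2 : ComplexEmbedding.conjugate w.embedding = w'.embedding := by
      refine hom_ext hα ?_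
      rw [ComplexEmbedding.conjugate_coe_eq]
      exact h1
    rw [← InfinitePlace.mk_embedding w, ← InfinitePlace.mk_embedding w', ← h2, InfinitePlace.mk_conjugate_eq]

/-- integral vectors with small images under an invertible real matrix -/
theorem small_zero {s : ℕ} (A : Matrix (Fin s) (Fin s) ℝ) (hA : A.det ≠ 0) :
    ∃ ε : ℝ, 0 < ε ∧ ∀ n : Fin s → ℤ, (∀ t, |∑ j, A t j * n j| < ε) → n = 0 := by
  classical
  set C : ℝ := 1 + ∑ i, ∑ j, |A⁻¹ i j| with hC
  have hC1 : 0 ≤ ∑ i, ∑ j, |A⁻¹ i j| := Finset.sum_nonneg fun _ _ => Finset.sum_nonneg fun _ _ => abs_nonneg _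
  have hCp : 0 < C := by linarith
  refine ⟨1 / C, by positivity, fun n hn => ?_⟩
  have h1 : A⁻¹.mulVec (A.mulVec fun j => (n j : ℝ)) = fun j => (n j : ℝ) := by
    rw [Matrix.mulVec_mulVec, Matrix.nonsing_inv_mul A (isUnit_iff_ne_zero.2 hA), Matrix.one_mulVec]
  funext i
  have h2 := congrFun h1 i
  have h3 : |(n i : ℝ)| < 1 := by
    rw [← h2]
    show |∑ t, A⁻¹ i t * (A.mulVec fun j => (n j : ℝ)) t| < 1
    have h4 : ∀ t, |(A.mulVec fun j => (n j : ℝ)) t| ≤ 1 / C := fun t => (hn t).le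
    calc |∑ t, A⁻¹ i t * (A.mulVec fun j => (n j : ℝ)) t| ≤ ∑ t, |A⁻¹ i t * (A.mulVec fun j => (n j : ℝ)) t| :=
          Finset.abs_sum_le_sum_abs _ _
      _ ≤ ∑ t, |A⁻¹ i t| * (1 / C) := Finset.sum_le_sum fun t _ => by
          rw [abs_mul]
          exact mul_le_mul_of_nonneg_left (h4 t) (abs_nonneg _)
      _ = (∑ t, |A⁻¹ i t|) * (1 / C) := by rw [Finset.sum_mul]
      _ ≤ (∑ i, ∑ j, |A⁻¹ i j|) * (1 / C) := mul_le_mul_of_nonneg_right
          (Finset.single_le_sum (f := fun i => ∑ j, |A⁻¹ i j|) (fun _ _ => Finset.sum_nonneg fun _ _ => abs_nonneg _)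
            (Finset.mem_univ i)) (by positivity)
      _ < C * (1 / C) := mul_lt_mul_of_pos_right (by linarith) (by positivity)
      _ = 1 := by field_simp
  have h5 : |n i| < 1 := by exact_mod_cast h3
  exact Int.abs_lt_one_iff.1 h5

/-- elements with absolute values near `1` -/
theorem disc {α : K} (hα : IntermediateField.adjoin ℚ {α} = ⊤) {g s : ℕ} {a : Fin (g + 1) → ℤ}
    (hroot : aeval α (polZ a) = 0) (P Q : Fin s → ℤ[X]) (h : OKd P Q a) (hs : s ≤ Fintype.card (InfinitePlace K)) :
    (∀ j, aeval α (P j) ≠ 0 ∧ aeval α (Q j) ≠ 0) ∧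
    ∃ ε : ℝ, 0 < ε ∧ ∀ n : Fin s → ℤ,
      (∀ w : InfinitePlace K, |Real.log (w (∏ j, (aeval α (P j) / aeval α (Q j)) ^ n j))| < ε) → n = 0 := by
  classical
  have hw0 : Nonempty (InfinitePlace K) := inferInstance
  have hne : ∀ j, aeval α (P j) ≠ 0 ∧ aeval α (Q j) ≠ 0 := by
    intro j
    obtain ⟨w⟩ := hw0
    have h1 := h.2.1 _ (hom_root hroot w.embedding) j
    rw [← hom_aeval, ← hom_aeval] at h1
    exact ⟨fun h0 => h1.1 (by rw [h0, map_zero]), fun h0 => h1.2 (by rw [h0, map_zero])⟩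
  refine ⟨hne, ?_⟩
  obtain ⟨e⟩ : Nonempty (Fin s ↪ InfinitePlace K) := by
    refine Function.Embedding.nonempty_of_card_le ?_
    rw [Fintype.card_fin]
    exact hs
  have hdet := h.2.2 (fun t => up α (e t)) ((up_inj hα).comp e.injective) fun t => ⟨up_root hroot _, up_im _ _⟩
  obtain ⟨ε, hε, H⟩ := small_zero _ hdet
  refine ⟨ε, hε, fun n hn => H n fun t => ?_⟩
  have h1 := hn (e t)
  have h2 : Real.log ((e t) (∏ j, (aeval α (P j) / aeval α (Q j)) ^ n j)) =
      ∑ j, Real.log ‖((P j).map (Int.castRingHom ℂ)).eval (up α (e t)) /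
      ((Q j).map (Int.castRingHom ℂ)).eval (up α (e t))‖ * n j := by
    rw [map_prod, Real.log_prod]
    · refine Finset.sum_congr rfl fun j _ => ?_
      rw [map_zpow₀, Real.log_zpow, map_div₀, norm_div, up_norm, up_norm, mul_comm]
    · intro j _
      rw [map_zpow₀]
      exact zpow_ne_zero _ ((_root_.map_ne_zero _).2 (div_ne_zero (hne j).1 (hne j).2))
  rw [h2] at h1
  exact h1

/-- discreteness in the group of units of `K ⊗ ℝ` -/
theorem discrete_of {ι : Type} [Fintype ι] (u : ι → Kˣ) {ε : ℝ} (hε : 0 < ε)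
    (h : ∀ n : ι → ℤ, (∀ w : InfinitePlace K, |Real.log (w (∏ j, (u j : K) ^ n j))| < ε) → n = 0) :
    DiscreteTopology ((Subgroup.closure (Set.range u)).map (Units.map (mixedEmbedding K).toMonoidHom)) := by
  classical
  set G := (Subgroup.closure (Set.range u)).map (Units.map (mixedEmbedding K).toMonoidHom) with hG
  let U : Set (mixedEmbedding.mixedSpace K)ˣ :=
    {x | ∀ w : InfinitePlace K, Real.exp (-ε) < mixedEmbedding.normAtPlace w (x : mixedEmbedding.mixedSpace K) ∧
      mixedEmbedding.normAtPlace w (x : mixedEmbedding.mixedSpace K) < Real.exp ε}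
  have hcont : ∀ w : InfinitePlace K, Continuous fun x : (mixedEmbedding.mixedSpace K)ˣ =>
      mixedEmbedding.normAtPlace w (x : mixedEmbedding.mixedSpace K) := by
    intro w
    rcases w.isReal_or_isComplex with hw | hw
    · have h1 : (fun x : (mixedEmbedding.mixedSpace K)ˣ => mixedEmbedding.normAtPlace w (x : mixedEmbedding.mixedSpace K)) =
          fun x : (mixedEmbedding.mixedSpace K)ˣ => ‖(x : mixedEmbedding.mixedSpace K).1 ⟨w, hw⟩‖ := by
        funext x
        exact mixedEmbedding.normAtPlace_apply_of_isReal hw _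
      rw [h1]
      exact ((continuous_apply _).comp (continuous_fst.comp Units.continuous_val)).norm
    · have h1 : (fun x : (mixedEmbedding.mixedSpace K)ˣ => mixedEmbedding.normAtPlace w (x : mixedEmbedding.mixedSpace K)) =
          fun x : (mixedEmbedding.mixedSpace K)ˣ => ‖(x : mixedEmbedding.mixedSpace K).2 ⟨w, hw⟩‖ := by
        funext x
        exact mixedEmbedding.normAtPlace_apply_of_isComplex hw _
      rw [h1]
      exact ((continuous_apply _).comp (continuous_snd.comp Units.continuous_val)).norm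
  have hUo : IsOpen U := by
    have h1 : U = ⋂ w : InfinitePlace K, (fun x : (mixedEmbedding.mixedSpace K)ˣ =>
        mixedEmbedding.normAtPlace w (x : mixedEmbedding.mixedSpace K)) ⁻¹' Set.Ioo (Real.exp (-ε)) (Real.exp ε) := by
      ext x
      simp [U]
    rw [h1]
    exact isOpen_iInter_of_finite fun w => isOpen_Ioo.preimage (hcont w)
  have h1U : (1 : (mixedEmbedding.mixedSpace K)ˣ) ∈ U := by
    intro w
    rw [Units.val_one, map_one]
    exact ⟨by rw [Real.exp_lt_one_iff] ; linarith, by rw [Real.one_lt_exp_iff]; exact hε⟩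
  have hGU : ∀ x ∈ G, x ∈ U → x = 1 := by
    intro x hx hxU
    rw [hG, Subgroup.mem_map] at hx
    obtain ⟨y, hy, rfl⟩ := hx
    obtain ⟨n, hn⟩ := Subgroup.exists_of_mem_closure_range _ _ hy
    have h2 : n = 0 := by
      refine h n fun w => ?_
      have h3 := hxU w
      have h4 : ((Units.map (mixedEmbedding K).toMonoidHom y : (mixedEmbedding.mixedSpace K)ˣ) :
          mixedEmbedding.mixedSpace K) = mixedEmbedding K (y : K) := rfl
      rw [h4, mixedEmbedding.normAtPlace_apply] at h3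
      have h5 : (∏ j, (u j : K) ^ n j) = (y : K) := by
        rw [hn]
        push_cast
        rfl
      rw [h5]
      have h6 : 0 < w (y : K) := lt_trans (Real.exp_pos _) h3.1
      rw [abs_lt]
      exact ⟨(Real.lt_log_iff_exp_lt h6).2 h3.1, (Real.log_lt_iff_lt_exp h6).2 h3.2⟩
    rw [hn, h2]
    simp
  have hopen : IsOpen ({1} : Set G) := by
    rw [isOpen_induced_iff]
    refine ⟨U, hUo, ?_⟩
    ext x
    rw [Set.mem_preimage, Set.mem_singleton_iff]
    constructor
    · intro hx
      exact Subtype.ext (hGU _ x.2 hx)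
    · rintro rfl
      exact h1U
  exact discreteTopology_of_isOpen_singleton_one hopen

end

open scoped Classical in
/-- all subfamilies -/
theorem det_sub {g r : ℕ} (hg : 0 < g) (P Q : Fin r → ℤ[X]) (hP : ∀ j, P j ≠ 0) (hQ : ∀ j, Q j ≠ 0)
    (hind : ∀ (m n : Fin r → ℕ) (c : ℂ), ∏ j, ((P j).map (Int.castRingHom ℂ)) ^ m j * ((Q j).map (Int.castRingHom ℂ)) ^ n j =
      C c * ∏ j, ((P j).map (Int.castRingHom ℂ)) ^ n j * ((Q j).map (Int.castRingHom ℂ)) ^ m j → m = n) (k : ℕ) :
    ∃ T₀ : ℕ, ∀ T : ℕ, T₀ ≤ T → (k : ℝ) * ((bx g T).filter fun a => ¬ ∀ J : Finset (Fin r),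
      OKd (fun t : Fin J.card => P (J.orderEmbOfFin rfl t)) (fun t => Q (J.orderEmbOfFin rfl t)) a).card ≤ (bx g T).card := by
  have h1 : ∀ J : Finset (Fin r), ∃ T₀ : ℕ, ∀ T : ℕ, T₀ ≤ T → ((k * 2 ^ r : ℕ) : ℝ) * ((bx g T).filter fun a =>
      ¬ OKd (fun t : Fin J.card => P (J.orderEmbOfFin rfl t)) (fun t => Q (J.orderEmbOfFin rfl t)) a).card ≤
      (bx g T).card := by
    intro J
    refine det_all hg _ _ (fun t => hP _) (fun t => hQ _) (fun m n c hmn => ?_) (k * 2 ^ r)
    -- extend by zero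
    let e := J.orderEmbOfFin (rfl : J.card = J.card)
    have hei : Function.Injective e := e.injective
    let ext : (Fin J.card → ℕ) → Fin r → ℕ := fun m => Function.extend e m fun _ => 0
    have hext : ∀ (m : Fin J.card → ℕ) t, ext m (e t) = m t := fun m t => hei.extend_apply _ _ _
    have hext0 : ∀ (m : Fin J.card → ℕ) j, j ∉ Set.range e → ext m j = 0 := fun m j hj =>
      Function.extend_apply' _ _ _ (fun ⟨t, ht⟩ => hj ⟨t, ht⟩)
    have hprod : ∀ m n : Fin J.card → ℕ, ∏ j, ((P j).map (Int.castRingHom ℂ)) ^ ext m j *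
        ((Q j).map (Int.castRingHom ℂ)) ^ ext n j = ∏ t, ((P (e t)).map (Int.castRingHom ℂ)) ^ m t *
        ((Q (e t)).map (Int.castRingHom ℂ)) ^ n t := by
      intro m n
      symm
      have h2 : ∏ t, ((P (e t)).map (Int.castRingHom ℂ)) ^ m t * ((Q (e t)).map (Int.castRingHom ℂ)) ^ n t =
          ∏ j ∈ Finset.univ.map e.toEmbedding, ((P j).map (Int.castRingHom ℂ)) ^ ext m j *
            ((Q j).map (Int.castRingHom ℂ)) ^ ext n j := by
        rw [Finset.prod_map]
        refine Finset.prod_congr rfl fun t _ => ?_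
        show _ = ((P (e t)).map (Int.castRingHom ℂ)) ^ ext m (e t) * ((Q (e t)).map (Int.castRingHom ℂ)) ^ ext n (e t)
        rw [hext, hext]
      rw [h2]
      refine Finset.prod_subset (Finset.subset_univ _) fun j _ hj => ?_
      have hj' : j ∉ Set.range e := by
        rintro ⟨t, rfl⟩
        exact hj (Finset.mem_map.2 ⟨t, Finset.mem_univ _, rfl⟩)
      rw [hext0 _ _ hj', hext0 _ _ hj', pow_zero, pow_zero, mul_one]
    have key := hind (ext m) (ext n) c (by rw [hprod, hprod]; exact hmn)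
    funext t
    rw [← hext m t, ← hext n t, key]
  choose T₁ hT₁ using h1
  refine ⟨(Finset.univ : Finset (Finset (Fin r))).sup T₁, fun T hT => ?_⟩
  have hsub : ((bx g T).filter fun a => ¬ ∀ J : Finset (Fin r),
      OKd (fun t : Fin J.card => P (J.orderEmbOfFin rfl t)) (fun t => Q (J.orderEmbOfFin rfl t)) a) ⊆
      (Finset.univ : Finset (Finset (Fin r))).biUnion fun J => (bx g T).filter fun a =>
      ¬ OKd (fun t : Fin J.card => P (J.orderEmbOfFin rfl t)) (fun t => Q (J.orderEmbOfFin rfl t)) a := by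
    intro a ha
    rw [Finset.mem_filter, not_forall] at ha
    obtain ⟨ha1, J, hJ⟩ := ha
    exact Finset.mem_biUnion.2 ⟨J, Finset.mem_univ _, Finset.mem_filter.2 ⟨ha1, hJ⟩⟩
  have h2 := (Finset.card_le_card hsub).trans Finset.card_biUnion_le
  have h3 : (((bx g T).filter fun a => ¬ ∀ J : Finset (Fin r),
      OKd (fun t : Fin J.card => P (J.orderEmbOfFin rfl t)) (fun t => Q (J.orderEmbOfFin rfl t)) a).card : ℝ) ≤
      ∑ J : Finset (Fin r), (((bx g T).filter fun a =>
      ¬ OKd (fun t : Fin J.card => P (J.orderEmbOfFin rfl t)) (fun t => Q (J.orderEmbOfFin rfl t)) a).card : ℝ) := by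
    exact_mod_cast h2
  set Bx : ℝ := ((bx g T).card : ℝ) with hBx
  have hcard : Fintype.card (Finset (Fin r)) = 2 ^ r := by rw [Fintype.card_finset, Fintype.card_fin]
  have h4 : (k : ℝ) * 2 ^ r * ∑ J : Finset (Fin r), (((bx g T).filter fun a =>
      ¬ OKd (fun t : Fin J.card => P (J.orderEmbOfFin rfl t)) (fun t => Q (J.orderEmbOfFin rfl t)) a).card : ℝ) ≤
      2 ^ r * Bx := by
    rw [Finset.mul_sum]
    refine (Finset.sum_le_sum (g := fun _ => Bx) fun J _ => ?_).trans ?_
    · have h5 := hT₁ J T ((Finset.le_sup (Finset.mem_univ J)).trans hT)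
      push_cast at h5
      exact h5
    · rw [Finset.sum_const, Finset.card_univ, hcard, nsmul_eq_mul]
      push_cast
      exact le_rfl
  have h2r : (0 : ℝ) < 2 ^ r := by positivity
  have h6 : (2 : ℝ) ^ r * ((k : ℝ) * (((bx g T).filter fun a => ¬ ∀ J : Finset (Fin r),
      OKd (fun t : Fin J.card => P (J.orderEmbOfFin rfl t)) (fun t => Q (J.orderEmbOfFin rfl t)) a).card : ℝ)) ≤
      2 ^ r * Bx := by
    refine le_trans ?_ h4
    have h7 : 0 ≤ (k : ℝ) * 2 ^ r := by positivity
    calc _ = (k : ℝ) * 2 ^ r * (((bx g T).filter fun a => ¬ ∀ J : Finset (Fin r),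
      OKd (fun t : Fin J.card => P (J.orderEmbOfFin rfl t)) (fun t => Q (J.orderEmbOfFin rfl t)) a).card : ℝ) := by ring
      _ ≤ _ := mul_le_mul_of_nonneg_left h3 h7
  exact le_of_mul_le_mul_left h6 h2r

end Pool.Agent.X255.RH
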