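import Pool.Agent.X255.RH.Avd4
import Pool.Agent.X255.RH.Disc

/-!
# Approximation by integral combinations of logarithms
-/

set_option autoImplicit false
set_option linter.unusedSectionVars false

open Polynomial Filter Topology NumberField

namespace Pool.Agent.X255.RH

open Pool.Agent.Y890.SP Pool.Agent.X255.NP

theorem kron' {ι : Type} [Fintype ι] (hι : 1 ≤ Fintype.card ι) {N : ℕ} (hN : 1 ≤ N) (x y : ι → ℝ) {ε : ℝ}
    (hε : 0 < ε) (hεN : (Fintype.card ι : ℝ) < 4 * ε ^ 2 * N)
    (hx : ∀ n : ι → ℤ, n ≠ 0 → (∀ i, |n i| ≤ Fintype.card ι * N) → ∀ n0 : ℤ, ∑ i, (n i : ℝ) * x i ≠ n0) :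
    ∃ (m : ℕ) (p : ι → ℤ), ∀ i, |m * x i - y i - p i| < ε := by
  classical
  let e := Fintype.equivFin ι
  obtain ⟨m, p, h⟩ := Kron.kron hι hN (fun k => x (e.symm k)) (fun k => y (e.symm k)) hε hεN (fun n hn hb n0 h => by
    refine hx (fun i => n (e i)) (fun h0 => hn ?_) (fun i => hb _) n0 ?_
    · funext k
      have := congrFun h0 (e.symm k)
      simpa using this
    · rw [← h, ← Equiv.sum_comp e.symm]
      simp)
  exact ⟨m, fun i => p (e i), fun i => by simpa using h (e i)⟩

/-- the numerators in Cramer's rule -/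
def FF {R : Type} [CommRing R] {s : ℕ} (E Θ : Fin s → Fin (s + 1) → R) : Unit ⊕ (Fin s ⊕ Fin s) → R
  | Sum.inl _ => -(Matrix.of fun t j : Fin s => E t j.castSucc).det
  | Sum.inr (Sum.inl j) => -((Matrix.of fun t j : Fin s => E t j.castSucc).adjugate.mulVec fun t => E t (Fin.last s)) j
  | Sum.inr (Sum.inr t) => (Matrix.of fun t j : Fin s => E t j.castSucc).det * Θ t (Fin.last s) -
      ∑ j : Fin s, Θ t j.castSucc *
        ((Matrix.of fun t j : Fin s => E t j.castSucc).adjugate.mulVec fun t => E t (Fin.last s)) j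

theorem FF_map {R R' : Type} [CommRing R] [CommRing R'] (φ : R →+* R') {s : ℕ} (E Θ : Fin s → Fin (s + 1) → R)
    (e : Unit ⊕ (Fin s ⊕ Fin s)) : φ (FF E Θ e) = FF (fun t j => φ (E t j)) (fun t j => φ (Θ t j)) e := by
  have h1 : φ.mapMatrix (Matrix.of fun t j : Fin s => E t j.castSucc) = Matrix.of fun t j : Fin s => φ (E t j.castSucc) := by
    ext t j
    rfl
  have h2 : φ (Matrix.of fun t j : Fin s => E t j.castSucc).det = (Matrix.of fun t j : Fin s => φ (E t j.castSucc)).det := by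
    rw [RingHom.map_det, h1]
  have h3 : ∀ j, φ (((Matrix.of fun t j : Fin s => E t j.castSucc).adjugate.mulVec fun t => E t (Fin.last s)) j) =
      ((Matrix.of fun t j : Fin s => φ (E t j.castSucc)).adjugate.mulVec fun t => φ (E t (Fin.last s))) j := by
    intro j
    rw [← h1, ← RingHom.map_adjugate]
    simp only [Matrix.mulVec, dotProduct, map_sum, map_mul]
    rfl
  rcases e with e | e | e
  · simp only [FF, map_neg, h2]
  · simp only [FF, map_neg, h3]
  · simp only [FF, map_sub, map_mul, map_sum, h2, h3]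

theorem dens_core {s : ℕ} (hs : 1 ≤ s) (J : Fin s → Prop) (ℓ θ : Fin s → Fin (s + 1) → ℝ) {C ε : ℝ}
    (hC : ∀ t j, |ℓ t j| ≤ C) (hC' : ∀ t j, |θ t j| ≤ C) (hε : 0 < ε) {N : ℕ} (hN : 1 ≤ N)
    (hεN : (2 * s : ℝ) < 4 * ε ^ 2 * N) (hdet : (Matrix.of fun t j : Fin s => ℓ t j.castSucc).det ≠ 0)
    (h : ∀ n : Unit ⊕ (Fin s ⊕ Fin s) → ℤ, (∃ v, n (Sum.inr v) ≠ 0) → (∀ v, |n (Sum.inr v)| ≤ 2 * s * N) →
      (∀ t, ¬ J t → n (Sum.inr (Sum.inr t)) = 0) → ∑ e, (n e : ℝ) * FF ℓ θ e ≠ 0) (L φ : Fin s → ℝ) :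
    ∃ m : Fin (s + 1) → ℤ, (∀ t, |∑ j, m j * ℓ t j - L t| ≤ s * C * ε) ∧
      ∀ t, J t → ∃ k : ℤ, |∑ j, m j * θ t j - φ t - k| ≤ (1 + s * C) * ε := by
  classical
  set A : Matrix (Fin s) (Fin s) ℝ := Matrix.of fun t j : Fin s => ℓ t j.castSucc with hA
  set b : Fin s → ℝ := fun t => ℓ t (Fin.last s) with hb
  set D : ℝ := A.det with hD
  have hcard : Fintype.card (Fin s ⊕ {t // J t}) ≤ 2 * s := by
    rw [Fintype.card_sum, Fintype.card_fin]
    have h1 := Fintype.card_subtype_le J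
    rw [Fintype.card_fin] at h1
    omega
  have hcard1 : 1 ≤ Fintype.card (Fin s ⊕ {t // J t}) := by
    rw [Fintype.card_sum, Fintype.card_fin]
    omega
  set x : Fin s → ℝ := fun j => FF ℓ θ (Sum.inr (Sum.inl j)) / D with hx
  set x' : Fin s → ℝ := fun t => FF ℓ θ (Sum.inr (Sum.inr t)) / D with hx'
  set c : Fin s → ℝ := A⁻¹.mulVec L with hc
  have hAx : ∀ t, ∑ j, A t j * x j = - b t := by
    intro t
    have h1 : A.mulVec (A.adjugate.mulVec b) = D • b := by
      rw [Matrix.mulVec_mulVec, Matrix.mul_adjugate, Matrix.smul_mulVec, Matrix.one_mulVec]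
    have h2 := congrFun h1 t
    have h3 : (A.mulVec (A.adjugate.mulVec b)) t = ∑ j, A t j * (A.adjugate.mulVec b) j := rfl
    rw [h3, Pi.smul_apply, smul_eq_mul] at h2
    have h4 : ∀ j, A t j * x j = -(A t j * (A.adjugate.mulVec b) j) / D := by
      intro j
      show A t j * (-(A.adjugate.mulVec b) j / D) = _
      ring
    rw [Finset.sum_congr rfl fun j _ => h4 j, ← Finset.sum_div, Finset.sum_neg_distrib, h2]
    field_simp
  have hAc : ∀ t, ∑ j, A t j * c j = L t := by
    intro t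
    have h1 : A.mulVec (A⁻¹.mulVec L) = L := by
      rw [Matrix.mulVec_mulVec, Matrix.mul_nonsing_inv A (isUnit_iff_ne_zero.2 hdet), Matrix.one_mulVec]
    exact congrFun h1 t
  have hx't : ∀ t, x' t = θ t (Fin.last s) + ∑ j : Fin s, θ t j.castSucc * x j := by
    intro t
    show (D * θ t (Fin.last s) - ∑ j : Fin s, θ t j.castSucc * (A.adjugate.mulVec b) j) / D = _
    rw [sub_div, mul_div_cancel_left₀ _ hdet, sub_eq_add_neg, Finset.sum_div, ← Finset.sum_neg_distrib]
    congr 1
    refine Finset.sum_congr rfl fun j _ => ?_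
    show _ = θ t j.castSucc * (-(A.adjugate.mulVec b) j / D)
    ring
  obtain ⟨m, p, hp⟩ := kron' hcard1 hN (Sum.elim x fun t : {t // J t} => x' t)
    (Sum.elim (fun j => - c j) fun t : {t // J t} => φ t - ∑ j : Fin s, θ t j.castSucc * c j) hε
    (lt_of_le_of_lt (by exact_mod_cast hcard) hεN) (fun n hn hb' n0 h0 => by
      refine h (Sum.elim (fun _ => n0) (Sum.elim (fun j => n (Sum.inl j)) fun t => if ht : J t then n (Sum.inr ⟨t, ht⟩)
        else 0)) ?_ ?_ ?_ ?_
      · by_contra hcon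
        push Not at hcon
        apply hn
        funext v
        rcases v with j | ⟨t, ht⟩
        · exact hcon (Sum.inl j)
        · have h1 := hcon (Sum.inr t)
          simp only [Sum.elim_inr, dif_pos ht] at h1
          exact h1
      · have h2 : ((Fintype.card (Fin s ⊕ {t // J t}) : ℕ) : ℤ) * N ≤ 2 * s * N := by
          have h3 : ((Fintype.card (Fin s ⊕ {t // J t}) : ℕ) : ℤ) ≤ 2 * s := by exact_mod_cast hcard
          exact mul_le_mul_of_nonneg_right h3 (by positivity)
        rintro (j | t)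
        · exact (hb' _).trans h2
        · simp only [Sum.elim_inr]
          split_ifs with ht
          · exact (hb' _).trans h2
          · rw [abs_zero]
            positivity
      · intro t ht
        simp only [Sum.elim_inr, dif_neg ht]
      · rw [Fintype.sum_sum_type, Fintype.sum_sum_type]
        rw [Fintype.sum_sum_type] at h0
        simp only [Sum.elim_inl, Sum.elim_inr, Finset.univ_unique, Finset.sum_singleton] at h0 ⊢
        have h1 : ∑ j, (n (Sum.inl j) : ℝ) * FF ℓ θ (Sum.inr (Sum.inl j)) = D * ∑ j, (n (Sum.inl j) : ℝ) * x j := by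
          rw [Finset.mul_sum]
          refine Finset.sum_congr rfl fun j _ => ?_
          simp only [hx]
          field_simp
        have h2 : ∑ t, (((if ht : J t then n (Sum.inr ⟨t, ht⟩) else 0 : ℤ)) : ℝ) * FF ℓ θ (Sum.inr (Sum.inr t)) =
            D * ∑ t : {t // J t}, (n (Sum.inr t) : ℝ) * x' t := by
          rw [Finset.mul_sum, ← Finset.sum_filter_of_ne (p := J) (fun t _ ht => by
            by_contra hJ
            apply ht
            rw [dif_neg hJ, Int.cast_zero, zero_mul]),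
            Finset.sum_subtype (p := J) (Finset.univ.filter J) (fun t => by simp)]
          refine Finset.sum_congr rfl fun t _ => ?_
          rw [dif_pos t.2]
          simp only [hx']
          field_simp
        rw [h1, h2]
        have h3 : FF ℓ θ (Sum.inl default) = - D := rfl
        rw [h3, ← h0]
        ring)
  set δ : Fin s → ℝ := fun j => m * x j + c j - p (Sum.inl j) with hδ
  have hδb : ∀ j, |δ j| ≤ ε := by
    intro j
    have h1 := hp (Sum.inl j)
    simp only [Sum.elim_inl] at h1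
    have h2 : δ j = m * x j - -c j - p (Sum.inl j) := by simp only [hδ]; ring
    rw [h2]
    exact h1.le
  have hsum : ∀ f : Fin s → ℝ, (∀ j, |f j| ≤ C) → |∑ j, f j * δ j| ≤ s * C * ε := by
    intro f hf
    refine (Finset.abs_sum_le_sum_abs _ _).trans ?_
    calc ∑ j, |f j * δ j| ≤ ∑ _j : Fin s, C * ε := Finset.sum_le_sum fun j _ => by
          rw [abs_mul]
          exact mul_le_mul (hf j) (hδb j) (abs_nonneg _) ((abs_nonneg _).trans (hf j))
      _ = s * C * ε := by rw [Finset.sum_const, Finset.card_univ, Fintype.card_fin, nsmul_eq_mul]; ring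
  refine ⟨Fin.snoc (fun j => p (Sum.inl j)) m, fun t => ?_, fun t ht => ⟨p (Sum.inr ⟨t, ht⟩), ?_⟩⟩
  · rw [Fin.sum_univ_castSucc]
    simp only [Fin.snoc_castSucc, Fin.snoc_last]
    have h1 : ∑ j : Fin s, (p (Sum.inl j) : ℝ) * ℓ t j.castSucc = m * ∑ j, A t j * x j + ∑ j, A t j * c j -
        ∑ j, A t j * δ j := by
      rw [Finset.mul_sum, ← Finset.sum_add_distrib, ← Finset.sum_sub_distrib]
      refine Finset.sum_congr rfl fun j _ => ?_
      show _ = m * (A t j * x j) + A t j * c j - A t j * (m * x j + c j - p (Sum.inl j))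
      show (p (Sum.inl j) : ℝ) * A t j = _
      ring
    rw [h1, hAx, hAc]
    have h2 : (m : ℝ) * -b t + L t - ∑ j, A t j * δ j + ((m : ℤ) : ℝ) * ℓ t (Fin.last s) - L t = -∑ j, A t j * δ j := by
      simp only [hb, Int.cast_natCast]
      ring
    rw [h2, abs_neg]
    exact hsum _ fun j => hC t j.castSucc
  · have h3 := hp (Sum.inr ⟨t, ht⟩)
    simp only [Sum.elim_inr] at h3
    rw [Fin.sum_univ_castSucc]
    simp only [Fin.snoc_castSucc, Fin.snoc_last]
    have h1 : ∑ j : Fin s, (p (Sum.inl j) : ℝ) * θ t j.castSucc = m * ∑ j : Fin s, θ t j.castSucc * x j +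
        ∑ j : Fin s, θ t j.castSucc * c j - ∑ j : Fin s, θ t j.castSucc * δ j := by
      rw [Finset.mul_sum, ← Finset.sum_add_distrib, ← Finset.sum_sub_distrib]
      refine Finset.sum_congr rfl fun j _ => ?_
      show _ = m * (θ t j.castSucc * x j) + θ t j.castSucc * c j - θ t j.castSucc * (m * x j + c j - p (Sum.inl j))
      ring
    have h2 : ∑ j : Fin s, (p (Sum.inl j) : ℝ) * θ t j.castSucc + ((m : ℤ) : ℝ) * θ t (Fin.last s) - φ t -
        p (Sum.inr ⟨t, ht⟩) = (m * x' t - (φ t - ∑ j : Fin s, θ t j.castSucc * c j) - p (Sum.inr ⟨t, ht⟩)) -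
        ∑ j : Fin s, θ t j.castSucc * δ j := by
      rw [h1, hx't, Int.cast_natCast]
      ring
    rw [h2]
    refine (abs_sub _ _).trans ?_
    have h4 := hsum (fun j => θ t j.castSucc) fun j => hC' t j.castSucc
    linarith

/-- the logarithms of the absolute values -/
noncomputable def EM {g s : ℕ} (i i' : Fin s → Fin g) (n : Fin s → Fin (s + 1) → ℤ) (t : Fin s) (j : Fin (s + 1)) :
    MvPolynomial (Fin g × Fin (s + 1)) ℂ :=
  MvPolynomial.C (1 / 2) * (MvPolynomial.X (i t, j) + MvPolynomial.X (i' t, j)) + MvPolynomial.C (Real.pi * Complex.I * n t j)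

/-- the angles -/
noncomputable def TM {g s : ℕ} (i i' : Fin s → Fin g) (n : Fin s → Fin (s + 1) → ℤ) (t : Fin s) (j : Fin (s + 1)) :
    MvPolynomial (Fin g × Fin (s + 1)) ℂ :=
  MvPolynomial.C (1 / (2 * Real.pi * Complex.I)) * (MvPolynomial.X (i t, j) - EM i i' n t j)

theorem exists_point {g s : ℕ} (i i' : Fin s → Fin g) (n : Fin s → Fin (s + 1) → ℤ)
    (h : ∀ s t, s ≠ t → i s ≠ i t ∧ i s ≠ i' t ∧ i' s ≠ i' t) (E Θ : Fin s → Fin (s + 1) → ℂ) :
    ∃ x : Fin g × Fin (s + 1) → ℂ, ∀ t j, MvPolynomial.eval x (EM i i' n t j) = E t j ∧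
      (i t ≠ i' t → MvPolynomial.eval x (TM i i' n t j) = Θ t j) := by
  classical
  have hpi : (2 * Real.pi * Complex.I : ℂ) ≠ 0 := Complex.two_pi_I_ne_zero
  let x : Fin g × Fin (s + 1) → ℂ := fun u =>
    if hu : ∃ t, u.1 = i t then (if i hu.choose = i' hu.choose then E hu.choose u.2 - Real.pi * Complex.I * n hu.choose u.2
      else E hu.choose u.2 + 2 * Real.pi * Complex.I * Θ hu.choose u.2)
    else if hu : ∃ t, u.1 = i' t then 2 * (E hu.choose u.2 - Real.pi * Complex.I * n hu.choose u.2) -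
      (E hu.choose u.2 + 2 * Real.pi * Complex.I * Θ hu.choose u.2) else 0
  have hx1 : ∀ t j, x (i t, j) = if i t = i' t then E t j - Real.pi * Complex.I * n t j
      else E t j + 2 * Real.pi * Complex.I * Θ t j := by
    intro t j
    have hu : ∃ t', i t = i t' := ⟨t, rfl⟩
    have h1 : hu.choose = t := by
      by_contra hne
      exact (h _ _ hne).1 hu.choose_spec.symm
    show (if hu : ∃ t', i t = i t' then (if i hu.choose = i' hu.choose then E hu.choose j - Real.pi * Complex.I * n hu.choose j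
      else E hu.choose j + 2 * Real.pi * Complex.I * Θ hu.choose j) else _) = _
    rw [dif_pos hu, h1]
  have hx2 : ∀ t j, i t ≠ i' t → x (i' t, j) = 2 * (E t j - Real.pi * Complex.I * n t j) -
      (E t j + 2 * Real.pi * Complex.I * Θ t j) := by
    intro t j hne
    have hu0 : ¬ ∃ t', i' t = i t' := by
      rintro ⟨t', ht'⟩
      by_cases h1 : t' = t
      · subst h1
        exact hne ht'.symm
      · exact (h _ _ h1).2.1 ht'.symm
    have hu : ∃ t', i' t = i' t' := ⟨t, rfl⟩
    have h1 : hu.choose = t := by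
      by_contra hne
      exact (h _ _ hne).2.2 hu.choose_spec.symm
    show (if hu : ∃ t', i' t = i t' then _ else if hu : ∃ t', i' t = i' t' then 2 * (E hu.choose j -
      Real.pi * Complex.I * n hu.choose j) - (E hu.choose j + 2 * Real.pi * Complex.I * Θ hu.choose j) else 0) = _
    rw [dif_neg hu0, dif_pos hu, h1]
  have hE : ∀ t j, MvPolynomial.eval x (EM i i' n t j) = E t j := by
    intro t j
    simp only [EM, map_add, map_mul, MvPolynomial.eval_C, MvPolynomial.eval_X]
    by_cases hne : i t = i' t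
    · rw [← hne, hx1, if_pos hne]
      ring
    · rw [hx1, if_neg hne, hx2 t j hne]
      ring
  refine ⟨x, fun t j => ⟨hE t j, fun hne => ?_⟩⟩
  simp only [TM, map_sub, map_mul, MvPolynomial.eval_C, MvPolynomial.eval_X]
  rw [hE, hx1, if_neg hne]
  field_simp
  ring

theorem PN_ne {g s : ℕ} (i i' : Fin s → Fin g) (n : Fin s → Fin (s + 1) → ℤ)
    (h : ∀ s t, s ≠ t → i s ≠ i t ∧ i s ≠ i' t ∧ i' s ≠ i' t) (c : Unit ⊕ (Fin s ⊕ Fin s) → ℤ)
    (hc : ∃ v, c (Sum.inr v) ≠ 0) (hc0 : ∀ t, i t = i' t → c (Sum.inr (Sum.inr t)) = 0) :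
    ∑ e, MvPolynomial.C (c e : ℂ) * FF (EM i i' n) (TM i i' n) e ≠ 0 := by
  classical
  intro h0
  have key : ∀ q : ℝ, -(c (Sum.inl ()) : ℝ) + q * (∑ j, (c (Sum.inr (Sum.inl j)) : ℝ) ^ 2 +
      ∑ t, (c (Sum.inr (Sum.inr t)) : ℝ) ^ 2) = 0 := by
    intro q
    obtain ⟨x, hx⟩ := exists_point i i' n h
      (fun t => Fin.snoc (fun j : Fin s => if t = j then (1 : ℂ) else 0) (-(q * c (Sum.inr (Sum.inl t)))))
      (fun t => Fin.snoc (fun _ : Fin s => (0 : ℂ)) (q * c (Sum.inr (Sum.inr t))))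
    have h1 := congrArg (MvPolynomial.eval x) h0
    rw [map_zero, map_sum, Fintype.sum_sum_type, Fintype.sum_sum_type] at h1
    simp only [map_mul, MvPolynomial.eval_C, FF_map] at h1
    have hA : (Matrix.of fun t j : Fin s => MvPolynomial.eval x (EM i i' n t j.castSucc)) = 1 := by
      ext t j
      rw [Matrix.of_apply, (hx t j.castSucc).1, Fin.snoc_castSucc, Matrix.one_apply]
    have hb : (fun t => MvPolynomial.eval x (EM i i' n t (Fin.last s))) = fun t => -((q : ℂ) * c (Sum.inr (Sum.inl t))) := by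
      funext t
      rw [(hx t (Fin.last s)).1, Fin.snoc_last]
    simp only [FF, hA, hb, Matrix.det_one, Matrix.adjugate_one, Matrix.one_mulVec, Finset.univ_unique,
      Finset.sum_singleton] at h1
    have h2 : ∀ t, (c (Sum.inr (Sum.inr t)) : ℂ) * (1 * MvPolynomial.eval x (TM i i' n t (Fin.last s)) -
        ∑ j : Fin s, MvPolynomial.eval x (TM i i' n t j.castSucc) * -((q : ℂ) * c (Sum.inr (Sum.inl j)))) =
        q * (c (Sum.inr (Sum.inr t)) : ℂ) ^ 2 := by
      intro t
      by_cases hne : i t = i' t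
      · rw [hc0 t hne]
        push_cast
        ring
      · rw [(hx t (Fin.last s)).2 hne, Fin.snoc_last, Finset.sum_eq_zero fun j _ => by
          rw [(hx t j.castSucc).2 hne, Fin.snoc_castSucc, zero_mul]]
        ring
    rw [Finset.sum_congr rfl fun t _ => h2 t, ← Finset.mul_sum] at h1
    have h3 : ∑ j : Fin s, (c (Sum.inr (Sum.inl j)) : ℂ) * -(-((q : ℂ) * c (Sum.inr (Sum.inl j)))) =
        q * ∑ j, (c (Sum.inr (Sum.inl j)) : ℂ) ^ 2 := by
      rw [Finset.mul_sum]
      refine Finset.sum_congr rfl fun j _ => ?_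
      ring
    rw [h3] at h1
    have h4 : ((-(c (Sum.inl ()) : ℝ) + q * (∑ j, (c (Sum.inr (Sum.inl j)) : ℝ) ^ 2 +
      ∑ t, (c (Sum.inr (Sum.inr t)) : ℝ) ^ 2) : ℝ) : ℂ) = 0 := by
      rw [← h1]
      push_cast
      have h5 : (default : Unit) = () := rfl
      rw [h5]
      ring
    exact_mod_cast h4
  have k0 := key 0
  have k1 := key 1
  have h1 : 0 ≤ ∑ j, (c (Sum.inr (Sum.inl j)) : ℝ) ^ 2 := Finset.sum_nonneg fun _ _ => sq_nonneg _
  have h2 : 0 ≤ ∑ t, (c (Sum.inr (Sum.inr t)) : ℝ) ^ 2 := Finset.sum_nonneg fun _ _ => sq_nonneg _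
  obtain ⟨v, hv⟩ := hc
  rcases v with j | t
  · have h3 : 0 < (c (Sum.inr (Sum.inl j)) : ℝ) ^ 2 := by positivity
    have h4 := Finset.single_le_sum (f := fun j => (c (Sum.inr (Sum.inl j)) : ℝ) ^ 2) (fun _ _ => sq_nonneg _)
      (Finset.mem_univ j)
    linarith
  · have h3 : 0 < (c (Sum.inr (Sum.inr t)) : ℝ) ^ 2 := by positivity
    have h4 := Finset.single_le_sum (f := fun j => (c (Sum.inr (Sum.inr j)) : ℝ) ^ 2) (fun _ _ => sq_nonneg _)
      (Finset.mem_univ t)
    linarith

end Pool.Agent.X255.RH
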