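import Pool.Agent.X255.RH.Den

/-!
# Lower bounds for determinants of logarithms
-/

set_option autoImplicit false
set_option linter.unusedSectionVars false

open Polynomial Filter Topology NumberField

namespace Pool.Agent.X255.RH

open Pool.Agent.Y890.SP Pool.Agent.X255.NP

/-- large coefficients -/
theorem exists_coeff {Q : Type} (W : Finset (MvPolynomial Q ℂ)) : ∃ c : ℝ, 0 < c ∧ ∀ P ∈ W, P ≠ 0 →
    ∃ s, c ≤ ‖P.coeff s‖ := by
  classical
  induction W using Finset.induction_on with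
  | empty => exact ⟨1, one_pos, fun P hP => absurd hP (Finset.notMem_empty P)⟩
  | insert P W _ ih =>
    obtain ⟨c, hc, h⟩ := ih
    by_cases hP : P = 0
    · refine ⟨c, hc, fun P' hP' hne => ?_⟩
      rcases Finset.mem_insert.1 hP' with rfl | h1
      · exact absurd hP hne
      · exact h _ h1 hne
    · obtain ⟨s, hs⟩ := MvPolynomial.support_nonempty.2 hP
      refine ⟨min c ‖P.coeff s‖, lt_min hc (norm_pos_iff.2 (MvPolynomial.mem_support_iff.1 hs)), fun P' hP' hne => ?_⟩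
      rcases Finset.mem_insert.1 hP' with rfl | h1
      · exact ⟨s, min_le_right _ _⟩
      · obtain ⟨s', hs'⟩ := h _ h1 hne
        exact ⟨s', (min_le_left _ _).trans hs'⟩

/-- the determinants of the logarithms of the absolute values are not small -/
def OKl {g r : ℕ} (P Q : Fin r → ℤ[X]) (b T : ℕ) (a : Fin (g + 1) → ℤ) : Prop :=
  ∀ p : Fin r → ℂ, Function.Injective p → (∀ t, (pol a).eval (p t) = 0 ∧ 0 ≤ (p t).im) →
    1 ≤ (T : ℝ) ^ b * |(Matrix.of fun t j => Real.log ‖((P j).map (Int.castRingHom ℂ)).eval (p t) /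
      ((Q j).map (Int.castRingHom ℂ)).eval (p t)‖).det|

open scoped Classical in
theorem det_low {g r : ℕ} (hg : 0 < g) (P Q : Fin r → ℤ[X]) (hP : ∀ j, P j ≠ 0) (hQ : ∀ j, Q j ≠ 0)
    (hind : ∀ (m n : Fin r → ℕ) (c : ℂ), ∏ j, ((P j).map (Int.castRingHom ℂ)) ^ m j * ((Q j).map (Int.castRingHom ℂ)) ^ n j =
      C c * ∏ j, ((P j).map (Int.castRingHom ℂ)) ^ n j * ((Q j).map (Int.castRingHom ℂ)) ^ m j → m = n) (k : ℕ) :
    ∃ b T₀ : ℕ, ∀ T : ℕ, T₀ ≤ T → (k : ℝ) * ((bx g T).filter fun a => ¬ OKl P Q b T a).card ≤ (bx g T).card := by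
  have hinjZ : Function.Injective (Int.castRingHom ℂ) := Int.cast_injective
  have hP' : ∀ j, (P j).map (Int.castRingHom ℂ) ≠ 0 := fun j h =>
    hP j ((Polynomial.map_eq_zero_iff hinjZ).1 h)
  have hQ' : ∀ j, (Q j).map (Int.castRingHom ℂ) ≠ 0 := fun j h =>
    hQ j ((Polynomial.map_eq_zero_iff hinjZ).1 h)
  set S : Finset ℂ := (∏ j, (P j).map (Int.castRingHom ℂ) * (Q j).map (Int.castRingHom ℂ)).roots.toFinset with hS
  have hprod : ∏ j, (P j).map (Int.castRingHom ℂ) * (Q j).map (Int.castRingHom ℂ) ≠ 0 :=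
    Finset.prod_ne_zero_iff.2 fun j _ => mul_ne_zero (hP' j) (hQ' j)
  have hSP' : ∀ j c, ((P j).map (Int.castRingHom ℂ)).eval c = 0 → c ∈ S := by
    intro j c hc
    rw [hS, Multiset.mem_toFinset, mem_roots hprod, IsRoot.def, eval_prod]
    exact Finset.prod_eq_zero (Finset.mem_univ j) (by rw [eval_mul, hc, zero_mul])
  have hSQ' : ∀ j c, ((Q j).map (Int.castRingHom ℂ)).eval c = 0 → c ∈ S := by
    intro j c hc
    rw [hS, Multiset.mem_toFinset, mem_roots hprod, IsRoot.def, eval_prod]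
    exact Finset.prod_eq_zero (Finset.mem_univ j) (by rw [eval_mul, hc, mul_zero])
  have hSP : ∀ j, ∀ c ∈ ((P j).map (Int.castRingHom ℂ)).roots, c ∈ S := fun j c hc =>
    hSP' j c ((mem_roots (hP' j)).1 hc)
  have hSQ : ∀ j, ∀ c ∈ ((Q j).map (Int.castRingHom ℂ)).roots, c ∈ S := fun j c hc =>
    hSQ' j c ((mem_roots (hQ' j)).1 hc)
  set f : ℕ → Fin r → ℂ → ℂ := fun m j => lR (dir m) ((P j).map (Int.castRingHom ℂ)) ((Q j).map (Int.castRingHom ℂ)) with hf
  have hfan : ∀ m j, AnalyticOnNhd ℂ (f m j) (Cut S (dir m)) := fun m j => lR_an (hSP j) (hSQ j)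
  have hfind : ∀ m, Indep (Cut S (dir m)) (f m) := fun m =>
    logR_indep (cut_pc S (dir_ne m)) (cut_open S _) (cut_nonempty S (dir_ne m)) _ _ hP' hQ' hind (f m) (hfan m)
      fun j x hx => lR_exp (dir_ne m) (hP' j) (hQ' j) (hSP j) (hSQ j) hx
  -- the bound for the integers
  set N : ℕ := ∑ j, (((P j).map (Int.castRingHom ℂ)).roots.card + ((Q j).map (Int.castRingHom ℂ)).roots.card + 2) with hN
  have hNj : ∀ j, ((P j).map (Int.castRingHom ℂ)).roots.card + ((Q j).map (Int.castRingHom ℂ)).roots.card + 2 ≤ N :=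
    fun j => Finset.single_le_sum (f := fun j => ((P j).map (Int.castRingHom ℂ)).roots.card +
      ((Q j).map (Int.castRingHom ℂ)).roots.card + 2) (fun _ _ => Nat.zero_le _) (Finset.mem_univ j)
  set W : Finset (MvPolynomial (Fin g × Fin r) ℂ) :=
    ((Finset.univ : Finset ((Fin r → Fin g) × (Fin r → Fin g) × (Fin r → Fin r → Fin (2 * N + 1)))).image
      fun D => (DM (D.1, D.2.1, fun t j => ((D.2.2 t j : ℕ) : ℤ) - N)).det) with hW
  obtain ⟨ξ, k1, hξ⟩ := exists_xi W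
  obtain ⟨c0, hc0, hcoeff⟩ := exists_coeff W
  obtain ⟨K, B, R, η, hkK, hK1, hη, T₀, H⟩ := all_cutB hg S f hfan hfind (max k k1)
  obtain ⟨b0, hb0⟩ := exists_nat_ge B
  refine ⟨b0 + 1, max (max 1 T₀) ⌈1 / c0⌉₊, fun T hT => ?_⟩
  have hT1 : 1 ≤ T := ((le_max_left _ _).trans (le_max_left _ _)).trans hT
  have hT1' : (1 : ℝ) ≤ T := by exact_mod_cast hT1
  have hTc : 1 / c0 ≤ T := (Nat.le_ceil _).trans (by exact_mod_cast (le_max_right _ _).trans hT)
  have h1 := H T (((le_max_right _ _).trans (le_max_left _ _)).trans hT) ξ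
  refine le_trans ?_ h1
  refine mul_le_mul (by exact_mod_cast le_max_left k k1) ?_ (Nat.cast_nonneg _) (Nat.cast_nonneg _)
  refine Nat.cast_le.2 (Finset.card_le_card fun a ha => ?_)
  rw [Finset.mem_filter] at ha ⊢
  refine ⟨ha.1, fun hgood => ha.2 ?_⟩
  obtain ⟨m, -, z, hz, hinj, hcut, hR, hηz, hmea⟩ := hgood
  have hroot : ∀ x, (pol a).eval x = 0 → x ∈ Cut S (dir m) := by
    intro x hx
    obtain ⟨i, rfl⟩ := (IsRoots.root_iff hz).1 hx
    exact hcut i
  intro p hpinj hp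
  have hi : ∀ t, ∃ i, z i = p t := fun t => (IsRoots.root_iff hz).1 (hp t).1
  have hi' : ∀ t, ∃ i, z i = (starRingEnd ℂ) (p t) := fun t => (IsRoots.root_iff hz).1 (pol_conj a _ (hp t).1)
  choose i hi using hi
  choose i' hi' using hi'
  have hn : ∀ t j, ∃ n : ℤ, |(n : ℝ)| ≤ N ∧
      ((Real.log ‖((P j).map (Int.castRingHom ℂ)).eval (p t) / ((Q j).map (Int.castRingHom ℂ)).eval (p t)‖ : ℝ) : ℂ) =
        1 / 2 * (f m j (p t) + f m j ((starRingEnd ℂ) (p t))) + Real.pi * Complex.I * n := by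
    intro t j
    obtain ⟨n, hn1, hn2⟩ := lR_re (dir_ne m) (hP' j) (hQ' j) (hSP j) (hSQ j) (hroot _ (hp t).1)
      (hroot _ (pol_conj a _ (hp t).1))
    refine ⟨n, hn1.trans ?_, hn2⟩
    exact_mod_cast hNj j
  choose n hn1 hn2 using hn
  have hnN : ∀ t j, ∃ u : Fin (2 * N + 1), n t j = ((u : ℕ) : ℤ) - N := by
    intro t j
    have h2 := abs_le.1 (hn1 t j)
    have h3 : -(N : ℤ) ≤ n t j := by exact_mod_cast h2.1
    have h4 : n t j ≤ (N : ℤ) := by exact_mod_cast h2.2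
    refine ⟨⟨(n t j + N).toNat, by omega⟩, ?_⟩
    simp only
    omega
  choose u hu using hnN
  have hne : (DM (i, i', n)).det ≠ 0 := by
    refine DM_ne i i' n fun s t hst => ⟨fun h => hst (hpinj ?_), fun h => hst (hpinj ?_), fun h => hst (hpinj ?_)⟩
    · rw [← hi s, ← hi t, h]
    · have h2 : p s = (starRingEnd ℂ) (p t) := by rw [← hi s, ← hi' t, h]
      have h3 := congrArg Complex.im h2
      rw [Complex.conj_im] at h3
      have h4 := (hp s).2
      have h5 := (hp t).2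
      have h6 : (p t).im = 0 := by linarith
      rw [h2]
      exact Complex.conj_eq_iff_im.2 h6
    · have h2 : (starRingEnd ℂ) (p s) = (starRingEnd ℂ) (p t) := by rw [← hi' s, ← hi' t, h]
      exact (starRingEnd ℂ).injective h2
  have hmem : (DM (i, i', n)).det ∈ W := by
    rw [hW, Finset.mem_image]
    refine ⟨(i, i', u), Finset.mem_univ _, ?_⟩
    congr 2
    simp only [Prod.mk.injEq, true_and]
    funext t j
    exact (hu t j).symm
  have hkk : k1 ≤ K := (le_max_right _ _).trans hkK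
  obtain ⟨s0, hs0⟩ := hcoeff _ hmem hne
  have key := hmea.lin (K' := 0) (ι := Unit) hT1' (by simpa using hT1') hK1 (fun _ => (DM (i, i', n)).det)
    (fun _ v => ((hξ _ hmem).1 v).trans hkk) (fun _ s hs => by
    obtain ⟨b, hb, hb'⟩ := (hξ _ hmem).2 s hs
    exact ⟨b, hb.trans_le hkk, hb'⟩) (fun _ => 1) (fun _ => by simp) s0
  simp only [Int.cast_one, one_mul, Finset.univ_unique, Finset.sum_singleton] at key
  rw [MvPolynomial.aeval_eq_eval, RingHom.map_det] at key
  have h2 : (MvPolynomial.eval fun q : Fin g × Fin r => f m q.2 (z q.1)).mapMatrix (DM (i, i', n)) =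
      (Complex.ofRealHom).mapMatrix (Matrix.of fun t j => Real.log ‖((P j).map (Int.castRingHom ℂ)).eval (p t) /
      ((Q j).map (Int.castRingHom ℂ)).eval (p t)‖) := by
    ext t j
    rw [RingHom.mapMatrix_apply, Matrix.map_apply, RingHom.mapMatrix_apply, Matrix.map_apply, Matrix.of_apply]
    simp only [DM, map_add, map_mul, MvPolynomial.eval_C, MvPolynomial.eval_X]
    rw [hi, hi']
    exact (hn2 t j).symm
  rw [h2, ← RingHom.map_det] at key
  have h3 : ‖Complex.ofRealHom (Matrix.of fun t j => Real.log ‖((P j).map (Int.castRingHom ℂ)).eval (p t) /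
      ((Q j).map (Int.castRingHom ℂ)).eval (p t)‖).det‖ = |(Matrix.of fun t j =>
      Real.log ‖((P j).map (Int.castRingHom ℂ)).eval (p t) / ((Q j).map (Int.castRingHom ℂ)).eval (p t)‖).det| :=
    Complex.norm_real _
  rw [h3] at key
  have hT0 : (0 : ℝ) < T := by linarith
  have h4 : (T : ℝ) ^ (-(b0 : ℝ)) * c0 ≤ (T : ℝ) ^ (-B) * ‖(DM (i, i', n)).det.coeff s0‖ :=
    mul_le_mul (Real.rpow_le_rpow_of_exponent_le hT1' (neg_le_neg hb0)) hs0 hc0.le (Real.rpow_nonneg hT0.le _)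
  have h5 := h4.trans key
  rw [Real.rpow_neg hT0.le, Real.rpow_natCast] at h5
  have h6 : 1 ≤ (T : ℝ) * c0 := by
    rw [div_le_iff₀ hc0] at hTc
    exact hTc
  calc (1 : ℝ) ≤ T * c0 := h6
    _ = (T : ℝ) ^ (b0 + 1) * (((T : ℝ) ^ b0)⁻¹ * c0) := by
      rw [pow_succ]
      field_simp
    _ ≤ _ := mul_le_mul_of_nonneg_left h5 (by positivity)

end Pool.Agent.X255.RH
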