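import Pool.Agent.X255.RH.Den2

/-!
# Density at almost all conjugates
-/

set_option autoImplicit false
set_option linter.unusedSectionVars false

open Polynomial Filter Topology NumberField

namespace Pool.Agent.X255.RH

open Pool.Agent.Y890.SP Pool.Agent.X255.NP

/-- every vector of nonzero complex numbers is approximated, absolute values only at real points -/
def OKden {g s : ℕ} (P Q : Fin (s + 1) → ℤ[X]) (κ T : ℕ) (a : Fin (g + 1) → ℤ) : Prop :=
  a (Fin.last g) ≠ 0 ∧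
  (∀ z, (pol a).eval z = 0 → ∀ j, ((P j).map (Int.castRingHom ℂ)).eval z ≠ 0 ∧ ((Q j).map (Int.castRingHom ℂ)).eval z ≠ 0) ∧
  ∀ p : Fin s → ℂ, Function.Injective p → (∀ t, (pol a).eval (p t) = 0 ∧ 0 ≤ (p t).im) →
    ∀ y : Fin s → ℂ, (∀ t, y t ≠ 0) → ∃ m : Fin (s + 1) → ℤ, ∀ t,
      |‖∏ j, (((P j).map (Int.castRingHom ℂ)).eval (p t) / ((Q j).map (Int.castRingHom ℂ)).eval (p t)) ^ m j‖ / ‖y t‖ - 1| ≤
        1 / (T : ℝ) ^ κ ∧
      ((starRingEnd ℂ) (p t) ≠ p t →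
        ‖(∏ j, (((P j).map (Int.castRingHom ℂ)).eval (p t) / ((Q j).map (Int.castRingHom ℂ)).eval (p t)) ^ m j) / y t - 1‖ ≤
        1 / (T : ℝ) ^ κ)

/-- from the logarithms to the numbers -/
theorem exp_close {s : ℕ} (f : Fin (s + 1) → ℂ) (m : Fin (s + 1) → ℤ) (y : ℂ) (hy : y ≠ 0) {ε₁ δ : ℝ} (hδ : δ ≤ 1)
    (h16 : 16 * ε₁ ≤ δ) (h1 : |∑ j, m j * (f j).re - Real.log ‖y‖| ≤ ε₁) :
    |‖∏ j, Complex.exp (f j) ^ m j‖ / ‖y‖ - 1| ≤ δ ∧
      ((∃ k : ℤ, |∑ j, m j * ((f j).im / (2 * Real.pi)) - Complex.arg y / (2 * Real.pi) - k| ≤ ε₁) →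
      ‖(∏ j, Complex.exp (f j) ^ m j) / y - 1‖ ≤ δ) := by
  have hprod : ∏ j, Complex.exp (f j) ^ m j = Complex.exp (∑ j, m j * f j) := by
    rw [Complex.exp_sum]
    refine Finset.prod_congr rfl fun j _ => ?_
    rw [← Complex.exp_int_mul]
  have hre : (∑ j, (m j : ℂ) * f j).re = ∑ j, (m j : ℝ) * (f j).re := by
    rw [Complex.re_sum]
    refine Finset.sum_congr rfl fun j _ => ?_
    rw [← Complex.ofReal_intCast, Complex.re_ofReal_mul]
  have him : (∑ j, (m j : ℂ) * f j).im = ∑ j, (m j : ℝ) * (f j).im := by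
    rw [Complex.im_sum]
    refine Finset.sum_congr rfl fun j _ => ?_
    rw [← Complex.ofReal_intCast, Complex.im_ofReal_mul]
  have hy' : 0 < ‖y‖ := norm_pos_iff.2 hy
  have hε0 : 0 ≤ ε₁ := (abs_nonneg _).trans h1
  constructor
  · rw [hprod, Complex.norm_exp, hre]
    have h2 : Real.exp (∑ j, (m j : ℝ) * (f j).re) / ‖y‖ = Real.exp (∑ j, (m j : ℝ) * (f j).re - Real.log ‖y‖) := by
      rw [Real.exp_sub, Real.exp_log hy']
    rw [h2]
    have h3 : |∑ j, (m j : ℝ) * (f j).re - Real.log ‖y‖| ≤ 1 := h1.trans (by linarith)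
    refine (Real.abs_exp_sub_one_le h3).trans ?_
    linarith
  · rintro ⟨k, hk⟩
    rw [hprod]
    set v : ℂ := ∑ j, (m j : ℂ) * f j - Complex.log y - k * (2 * Real.pi * Complex.I) with hv
    have h2 : Complex.exp (∑ j, (m j : ℂ) * f j) / y = Complex.exp v := by
      rw [hv, Complex.exp_sub, Complex.exp_sub, Complex.exp_log hy, Complex.exp_int_mul_two_pi_mul_I, div_one]
    rw [h2]
    have hvre : v.re = ∑ j, (m j : ℝ) * (f j).re - Real.log ‖y‖ := by
      have h5 : ((k : ℂ) * (2 * Real.pi * Complex.I)).re = 0 := by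
        have : (k : ℂ) * (2 * Real.pi * Complex.I) = ((k * (2 * Real.pi) : ℝ) : ℂ) * Complex.I := by push_cast; ring
        rw [this, Complex.re_ofReal_mul, Complex.I_re, mul_zero]
      rw [hv, Complex.sub_re, Complex.sub_re, hre, Complex.log_re, h5, sub_zero]
    have hvim : v.im = 2 * Real.pi * (∑ j, (m j : ℝ) * ((f j).im / (2 * Real.pi)) - Complex.arg y / (2 * Real.pi) - k) := by
      have h5 : ((k : ℂ) * (2 * Real.pi * Complex.I)).im = k * (2 * Real.pi) := by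
        have : (k : ℂ) * (2 * Real.pi * Complex.I) = ((k * (2 * Real.pi) : ℝ) : ℂ) * Complex.I := by push_cast; ring
        rw [this, Complex.im_ofReal_mul, Complex.I_im, mul_one]
      have h6 : ∑ j, (m j : ℝ) * ((f j).im / (2 * Real.pi)) = (∑ j, (m j : ℝ) * (f j).im) / (2 * Real.pi) := by
        rw [Finset.sum_div]
        refine Finset.sum_congr rfl fun j _ => ?_
        ring
      rw [hv, Complex.sub_im, Complex.sub_im, him, Complex.log_im, h5, h6]
      field_simp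
    have hnorm : ‖v‖ ≤ 8 * ε₁ := by
      refine (Complex.norm_le_abs_re_add_abs_im v).trans ?_
      rw [hvre, hvim, abs_mul, abs_of_pos (by positivity : 0 < 2 * Real.pi)]
      have h7 : 2 * Real.pi ≤ 7 := by linarith [Real.pi_lt_d2]
      have h8 : 2 * Real.pi * |∑ j, (m j : ℝ) * ((f j).im / (2 * Real.pi)) - Complex.arg y / (2 * Real.pi) - k| ≤ 7 * ε₁ :=
        mul_le_mul h7 hk (abs_nonneg _) (by norm_num)
      linarith
    refine (Complex.norm_exp_sub_one_le (hnorm.trans (by linarith))).trans ?_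
    linarith

open scoped Classical in
theorem den_all {g s : ℕ} (hg : 0 < g) (hs : 1 ≤ s) (P Q : Fin (s + 1) → ℤ[X]) (hP : ∀ j, P j ≠ 0) (hQ : ∀ j, Q j ≠ 0)
    (hind : ∀ (m n : Fin (s + 1) → ℕ) (c : ℂ),
      ∏ j, ((P j).map (Int.castRingHom ℂ)) ^ m j * ((Q j).map (Int.castRingHom ℂ)) ^ n j =
      C c * ∏ j, ((P j).map (Int.castRingHom ℂ)) ^ n j * ((Q j).map (Int.castRingHom ℂ)) ^ m j → m = n) (b κ k : ℕ) :
    ∃ T₀ : ℕ, ∀ T : ℕ, T₀ ≤ T → (k : ℝ) * ((bx g T).filter fun a =>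
      OKl (fun j : Fin s => P j.castSucc) (fun j => Q j.castSucc) b T a ∧ ¬ OKden P Q κ T a).card ≤ (bx g T).card := by
  have hinjZ : Function.Injective (Int.castRingHom ℂ) := Int.cast_injective
  have hP' : ∀ j, (P j).map (Int.castRingHom ℂ) ≠ 0 := fun j h =>
    hP j ((Polynomial.map_eq_zero_iff hinjZ).1 h)
  have hQ' : ∀ j, (Q j).map (Int.castRingHom ℂ) ≠ 0 := fun j h =>
    hQ j ((Polynomial.map_eq_zero_iff hinjZ).1 h)
  set S : Finset ℂ := (∏ j, (P j).map (Int.castRingHom ℂ) * (Q j).map (Int.castRingHom ℂ)).roots.toFinset with hS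
  have hprod : ∏ j, (P j).map (Int.castRingHom ℂ) * (Q j).map (Int.castRingHom ℂ) ≠ 0 :=
    Finset.prod_ne_zero_iff.2 fun j _ => mul_ne_zero (hP' j) (hQ' j)
  have hSP' : ∀ j c, ((P j).map (Int.castRingHom ℂ)).eval c = 0 → c ∈ S := by
    intro j c hc
    rw [hS, Multiset.mem_toFinset, mem_roots hprod, IsRoot.def, eval_prod]
    exact Finset.prod_eq_zero (Finset.mem_univ j) (by rw [eval_mul, hc, zero_mul])
  have hSQ' : ∀ j c, ((Q j).map (Int.castRingHom ℂ)).eval c = 0 → c ∈ S := by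
    intro j c hc
    rw [hS, Multiset.mem_toFinset, mem_roots hprod, IsRoot.def, eval_prod]
    exact Finset.prod_eq_zero (Finset.mem_univ j) (by rw [eval_mul, hc, mul_zero])
  have hSP : ∀ j, ∀ c ∈ ((P j).map (Int.castRingHom ℂ)).roots, c ∈ S := fun j c hc =>
    hSP' j c ((mem_roots (hP' j)).1 hc)
  have hSQ : ∀ j, ∀ c ∈ ((Q j).map (Int.castRingHom ℂ)).roots, c ∈ S := fun j c hc =>
    hSQ' j c ((mem_roots (hQ' j)).1 hc)
  set f : ℕ → Fin (s + 1) → ℂ → ℂ := fun m j =>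
    lR (dir m) ((P j).map (Int.castRingHom ℂ)) ((Q j).map (Int.castRingHom ℂ)) with hf
  have hfan : ∀ m j, AnalyticOnNhd ℂ (f m j) (Cut S (dir m)) := fun m j => lR_an (hSP j) (hSQ j)
  have hfind : ∀ m, Indep (Cut S (dir m)) (f m) := fun m =>
    logR_indep (cut_pc S (dir_ne m)) (cut_open S _) (cut_nonempty S (dir_ne m)) _ _ hP' hQ' hind (f m) (hfan m)
      fun j x hx => lR_exp (dir_ne m) (hP' j) (hQ' j) (hSP j) (hSQ j) hx
  -- the bound for the integers
  set N : ℕ := ∑ j, (((P j).map (Int.castRingHom ℂ)).roots.card + ((Q j).map (Int.castRingHom ℂ)).roots.card + 2) with hN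
  have hNj : ∀ j, ((P j).map (Int.castRingHom ℂ)).roots.card + ((Q j).map (Int.castRingHom ℂ)).roots.card + 2 ≤ N :=
    fun j => Finset.single_le_sum (f := fun j => ((P j).map (Int.castRingHom ℂ)).roots.card +
      ((Q j).map (Int.castRingHom ℂ)).roots.card + 2) (fun _ _ => Nat.zero_le _) (Finset.mem_univ j)
  set W : Finset (MvPolynomial (Fin g × Fin (s + 1)) ℂ) :=
    ((Finset.univ : Finset (((Fin s → Fin g) × (Fin s → Fin g) × (Fin s → Fin (s + 1) → Fin (2 * N + 1))) ×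
      (Unit ⊕ (Fin s ⊕ Fin s)))).image
      fun D => FF (EM D.1.1 D.1.2.1 fun t j => ((D.1.2.2 t j : ℕ) : ℤ) - N)
        (TM D.1.1 D.1.2.1 fun t j => ((D.1.2.2 t j : ℕ) : ℤ) - N) D.2) with hW
  obtain ⟨ξ, k1, hξ⟩ := exists_xi W
  set K' : ℕ := 2 * κ + 3 + b with hK'
  obtain ⟨K, B, R, η, hkK, hK1, hη, T₀, H⟩ := all_cutB hg S f hfan hfind (max k (max k1 (K' + 1)))
  -- the bound for the logarithms, independent of the direction
  have hCm : ∀ m j, ∃ C : ℝ, ∀ z : ℂ, ‖z‖ ≤ R → (∀ c ∈ S, η ≤ ‖z - c‖) → ‖f m j z‖ ≤ C := fun m j =>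
    lR_bd (dir m) (dir_norm m) _ _ (hSP j) (hSQ j) R η hη
  choose Cm hCm using hCm
  set C0 : ℝ := ∑ m ∈ Finset.range (g * S.card + 1), ∑ j, |Cm m j| with hC0
  have hC0m : ∀ m < g * S.card + 1, ∀ j, ∀ z : ℂ, ‖z‖ ≤ R → (∀ c ∈ S, η ≤ ‖z - c‖) → ‖f m j z‖ ≤ C0 := by
    intro m hm j z h1 h2
    refine (hCm m j z h1 h2).trans ((le_abs_self _).trans ?_)
    refine (Finset.single_le_sum (f := fun j => |Cm m j|) (fun _ _ => abs_nonneg _) (Finset.mem_univ j)).trans ?_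
    exact Finset.single_le_sum (f := fun m => ∑ j, |Cm m j|) (fun _ _ => Finset.sum_nonneg fun _ _ => abs_nonneg _)
      (Finset.mem_range.2 hm)
  have hC00 : 0 ≤ C0 := Finset.sum_nonneg fun _ _ => Finset.sum_nonneg fun _ _ => abs_nonneg _
  obtain ⟨C1, hC10, hC1⟩ := poly_bd W C0
  obtain ⟨T₁, hT₁⟩ := exists_nat_ge (max (16 * (1 + s * C0)) (max (8 * s ^ 3 * C1) (max (4 * s ^ 2) (1 + 2 * s))))
  refine ⟨max (max 1 T₀) T₁, fun T hT => ?_⟩
  have hT1 : 1 ≤ T := ((le_max_left _ _).trans (le_max_left _ _)).trans hT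
  have hT1' : (1 : ℝ) ≤ T := by exact_mod_cast hT1
  have hTT : max (16 * (1 + s * C0)) (max (8 * s ^ 3 * C1) (max (4 * s ^ 2) (1 + 2 * (s : ℝ)))) ≤ T :=
    hT₁.trans (by exact_mod_cast (le_max_right _ _).trans hT)
  have hTa : 16 * (1 + s * C0) ≤ T := (le_max_left _ _).trans hTT
  have hTb : 8 * s ^ 3 * C1 ≤ T := ((le_max_left _ _).trans (le_max_right _ _)).trans hTT
  have hTc : 4 * (s : ℝ) ^ 2 ≤ T :=
    ((le_max_left _ _).trans ((le_max_right _ _).trans (le_max_right _ _))).trans hTT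
  have hTd : 1 + 2 * (s : ℝ) ≤ T :=
    ((le_max_right _ _).trans ((le_max_right _ _).trans (le_max_right _ _))).trans hTT
  have h1 := H T (((le_max_right _ _).trans (le_max_left _ _)).trans hT) ξ
  refine le_trans ?_ h1
  refine mul_le_mul (by exact_mod_cast le_max_left k _) ?_ (Nat.cast_nonneg _) (Nat.cast_nonneg _)
  refine Nat.cast_le.2 (Finset.card_le_card fun a ha => ?_)
  rw [Finset.mem_filter] at ha ⊢
  refine ⟨ha.1, fun hgood => ha.2.2 ?_⟩
  have hlow := ha.2.1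
  obtain ⟨m, hmM, z, hz, hinj, hcut, hR, hηz, hmea⟩ := hgood
  have hroot : ∀ x, (pol a).eval x = 0 → x ∈ Cut S (dir m) := by
    intro x hx
    obtain ⟨i, rfl⟩ := (IsRoots.root_iff hz).1 hx
    exact hcut i
  refine ⟨hz.1, fun x hx j => ⟨?_, ?_⟩, fun p hpinj hp y hy => ?_⟩
  · rw [← brl_exp (dir_ne m) (hP' j) (hSP j) (hroot x hx)]
    exact Complex.exp_ne_zero _
  · rw [← brl_exp (dir_ne m) (hQ' j) (hSQ j) (hroot x hx)]
    exact Complex.exp_ne_zero _
  have hi : ∀ t, ∃ i, z i = p t := fun t => (IsRoots.root_iff hz).1 (hp t).1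
  have hi' : ∀ t, ∃ i, z i = (starRingEnd ℂ) (p t) := fun t => (IsRoots.root_iff hz).1 (pol_conj a _ (hp t).1)
  choose i hi using hi
  choose i' hi' using hi'
  have hn : ∀ t j, ∃ n : ℤ, |(n : ℝ)| ≤ N ∧
      ((Real.log ‖((P j).map (Int.castRingHom ℂ)).eval (p t) / ((Q j).map (Int.castRingHom ℂ)).eval (p t)‖ : ℝ) : ℂ) =
        1 / 2 * (f m j (p t) + f m j ((starRingEnd ℂ) (p t))) + Real.pi * Complex.I * n := by
    intro t j
    obtain ⟨n, hn1, hn2⟩ := lR_re (dir_ne m) (hP' j) (hQ' j) (hSP j) (hSQ j) (hroot _ (hp t).1)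
      (hroot _ (pol_conj a _ (hp t).1))
    refine ⟨n, hn1.trans ?_, hn2⟩
    exact_mod_cast hNj j
  choose n hn1 hn2 using hn
  have hnN : ∀ t j, ∃ u : Fin (2 * N + 1), n t j = ((u : ℕ) : ℤ) - N := by
    intro t j
    have h2 := abs_le.1 (hn1 t j)
    have h3 : -(N : ℤ) ≤ n t j := by exact_mod_cast h2.1
    have h4 : n t j ≤ (N : ℤ) := by exact_mod_cast h2.2
    refine ⟨⟨(n t j + N).toNat, by omega⟩, ?_⟩
    simp only
    omega
  choose u hu using hnN
  have hsep : ∀ s t, s ≠ t → i s ≠ i t ∧ i s ≠ i' t ∧ i' s ≠ i' t := by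
    refine fun s t hst => ⟨fun h => hst (hpinj ?_), fun h => hst (hpinj ?_), fun h => hst (hpinj ?_)⟩
    · rw [← hi s, ← hi t, h]
    · have h2 : p s = (starRingEnd ℂ) (p t) := by rw [← hi s, ← hi' t, h]
      have h3 := congrArg Complex.im h2
      rw [Complex.conj_im] at h3
      have h4 := (hp s).2
      have h5 := (hp t).2
      have h6 : (p t).im = 0 := by linarith
      rw [h2]
      exact Complex.conj_eq_iff_im.2 h6
    · have h2 : (starRingEnd ℂ) (p s) = (starRingEnd ℂ) (p t) := by rw [← hi' s, ← hi' t, h]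
      exact (starRingEnd ℂ).injective h2
  have hmem : ∀ e, FF (EM i i' n) (TM i i' n) e ∈ W := by
    intro e
    rw [hW, Finset.mem_image]
    refine ⟨((i, i', u), e), Finset.mem_univ _, ?_⟩
    have h2 : (fun t j => ((u t j : ℕ) : ℤ) - N) = n := by
      funext t j
      exact (hu t j).symm
    simp only [h2]
  have hkk : k1 ≤ K := ((le_max_left _ _).trans (le_max_right _ _)).trans hkK
  have hkK' : K' + 1 ≤ K := ((le_max_right _ _).trans (le_max_right _ _)).trans hkK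
  -- the values
  have hfexp : ∀ t j, Complex.exp (f m j (p t)) = ((P j).map (Int.castRingHom ℂ)).eval (p t) /
      ((Q j).map (Int.castRingHom ℂ)).eval (p t) := by
    intro t j
    have h2 := lR_exp (dir_ne m) (hP' j) (hQ' j) (hSP j) (hSQ j) (hroot _ (hp t).1)
    have h3 : ((Q j).map (Int.castRingHom ℂ)).eval (p t) ≠ 0 := by
      rw [← brl_exp (dir_ne m) (hQ' j) (hSQ j) (hroot _ (hp t).1)]
      exact Complex.exp_ne_zero _
    exact (eq_div_iff h3).2 h2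
  set ℓ : Fin s → Fin (s + 1) → ℝ := fun t j => (f m j (p t)).re with hℓ
  set θ : Fin s → Fin (s + 1) → ℝ := fun t j => (f m j (p t)).im / (2 * Real.pi) with hθ
  have hℓlog : ∀ t j, Real.log ‖((P j).map (Int.castRingHom ℂ)).eval (p t) /
      ((Q j).map (Int.castRingHom ℂ)).eval (p t)‖ = ℓ t j := by
    intro t j
    rw [← hfexp, Complex.norm_exp, Real.log_exp]
  set v : Fin g × Fin (s + 1) → ℂ := fun q => f m q.2 (z q.1) with hv
  have hvb : ∀ q, ‖v q‖ ≤ C0 := fun q => hC0m m hmM q.2 _ (hR q.1) (hηz q.1)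
  have hfb : ∀ t j, ‖f m j (p t)‖ ≤ C0 := by
    intro t j
    rw [← hi t]
    exact hvb (i t, j)
  have hℓb : ∀ t j, |ℓ t j| ≤ C0 := fun t j => (Complex.abs_re_le_norm _).trans (hfb t j)
  have hθb : ∀ t j, |θ t j| ≤ C0 := by
    intro t j
    simp only [hθ]
    rw [abs_div, abs_of_pos (by positivity : 0 < 2 * Real.pi)]
    have h2 := (Complex.abs_im_le_norm _).trans (hfb t j)
    refine (div_le_self (abs_nonneg _) ?_).trans h2
    linarith [Real.two_le_pi]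
  have hevE : ∀ t j, MvPolynomial.eval v (EM i i' n t j) = (ℓ t j : ℂ) := by
    intro t j
    simp only [EM, map_add, map_mul, MvPolynomial.eval_C, MvPolynomial.eval_X]
    have h2 : v (i t, j) = f m j (p t) := by rw [← hi t]
    have h3 : v (i' t, j) = f m j ((starRingEnd ℂ) (p t)) := by rw [← hi' t]
    rw [← hℓlog, hn2 t j, h2, h3]
  have hevT : ∀ t j, MvPolynomial.eval v (TM i i' n t j) = (θ t j : ℂ) := by
    intro t j
    simp only [TM, map_sub, map_mul, MvPolynomial.eval_C, MvPolynomial.eval_X, hevE]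
    have h2 : v (i t, j) - (ℓ t j : ℂ) = ((f m j (p t)).im : ℂ) * Complex.I := by
      have h3 : v (i t, j) = f m j (p t) := by rw [← hi t]
      have h4 := Complex.re_add_im (f m j (p t))
      rw [h3]
      linear_combination (-1 : ℂ) * h4
    rw [h2]
    simp only [hθ]
    push_cast
    have h3 : (Real.pi : ℂ) ≠ 0 := Complex.ofReal_ne_zero.2 Real.pi_ne_zero
    field_simp
  have hFF : ∀ e, MvPolynomial.eval v (FF (EM i i' n) (TM i i' n) e) = ((FF ℓ θ e : ℝ) : ℂ) := by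
    intro e
    have h2 : ((FF ℓ θ e : ℝ) : ℂ) = Complex.ofRealHom (FF ℓ θ e) := rfl
    rw [FF_map, h2, FF_map]
    simp only [hevE, hevT]
    rfl
  have hFFb : ∀ e, |FF ℓ θ e| ≤ C1 := by
    intro e
    have h2 := hC1 _ (hmem e) v hvb
    rw [hFF, Complex.norm_real] at h2
    exact h2
  have hdet1 : 1 ≤ (T : ℝ) ^ b * |FF ℓ θ (Sum.inl ())| := by
    have h2 := hlow p hpinj hp
    have h3 : (Matrix.of fun (t : Fin s) (j : Fin s) => Real.log ‖((P j.castSucc).map (Int.castRingHom ℂ)).eval (p t) /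
      ((Q j.castSucc).map (Int.castRingHom ℂ)).eval (p t)‖) = Matrix.of fun t j : Fin s => ℓ t j.castSucc := by
      ext t j
      exact hℓlog t j.castSucc
    rw [h3] at h2
    rw [show FF ℓ θ (Sum.inl ()) = -(Matrix.of fun t j : Fin s => ℓ t j.castSucc).det from rfl, abs_neg]
    exact h2
  have hdet : (Matrix.of fun t j : Fin s => ℓ t j.castSucc).det ≠ 0 := by
    intro h2
    rw [show FF ℓ θ (Sum.inl ()) = -(Matrix.of fun t j : Fin s => ℓ t j.castSucc).det from rfl, h2, neg_zero, abs_zero,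
      mul_zero] at hdet1
    linarith
  have hT0 : (0 : ℝ) < T := by linarith
  have hs1 : (1 : ℝ) ≤ s := by exact_mod_cast hs
  have hcardu : (Finset.univ : Finset (Fin s ⊕ Fin s)).card = 2 * s := by
    rw [Finset.card_univ, Fintype.card_sum, Fintype.card_fin]
    ring
  have hnz : ∀ c : Unit ⊕ (Fin s ⊕ Fin s) → ℤ, (∃ v, c (Sum.inr v) ≠ 0) →
      (∀ v, |c (Sum.inr v)| ≤ 2 * s * ((2 * s * T ^ (2 * κ + 2) : ℕ) : ℤ)) →
      (∀ t, ¬ ((starRingEnd ℂ) (p t) ≠ p t) → c (Sum.inr (Sum.inr t)) = 0) → ∑ e, (c e : ℝ) * FF ℓ θ e ≠ 0 := by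
    intro c hc hcb hc0 h0
    have hcb' : ∀ v, |(c (Sum.inr v) : ℝ)| ≤ 4 * s ^ 2 * (T : ℝ) ^ (2 * κ + 2) := by
      intro v
      have h2 : ((|c (Sum.inr v)| : ℤ) : ℝ) ≤ ((2 * s * ((2 * s * T ^ (2 * κ + 2) : ℕ) : ℤ) : ℤ) : ℝ) := by
        exact_mod_cast hcb v
      rw [Int.cast_abs] at h2
      refine h2.trans (le_of_eq ?_)
      push_cast
      ring
    have h2 : (c (Sum.inl ()) : ℝ) * FF ℓ θ (Sum.inl ()) = -∑ v, (c (Sum.inr v) : ℝ) * FF ℓ θ (Sum.inr v) := by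
      rw [Fintype.sum_sum_type] at h0
      simp only [Finset.univ_unique, Finset.sum_singleton] at h0
      have h5 : (default : Unit) = () := rfl
      rw [h5] at h0
      linarith
    have h3 : |∑ v, (c (Sum.inr v) : ℝ) * FF ℓ θ (Sum.inr v)| ≤ 8 * s ^ 3 * C1 * (T : ℝ) ^ (2 * κ + 2) := by
      refine (Finset.abs_sum_le_sum_abs _ _).trans ?_
      calc ∑ v, |(c (Sum.inr v) : ℝ) * FF ℓ θ (Sum.inr v)| ≤
          ∑ _v : Fin s ⊕ Fin s, 4 * s ^ 2 * (T : ℝ) ^ (2 * κ + 2) * C1 := Finset.sum_le_sum fun v _ => by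
            rw [abs_mul]
            exact mul_le_mul (hcb' v) (hFFb _) (abs_nonneg _) (by positivity)
        _ = _ := by
          rw [Finset.sum_const, hcardu, nsmul_eq_mul]
          push_cast
          ring
    have hb0 : |(c (Sum.inl ()) : ℝ)| ≤ (T : ℝ) ^ K' := by
      calc |(c (Sum.inl ()) : ℝ)| = |(c (Sum.inl ()) : ℝ)| * 1 := (mul_one _).symm
        _ ≤ |(c (Sum.inl ()) : ℝ)| * ((T : ℝ) ^ b * |FF ℓ θ (Sum.inl ())|) :=
          mul_le_mul_of_nonneg_left hdet1 (abs_nonneg _)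
        _ = (T : ℝ) ^ b * |(c (Sum.inl ()) : ℝ) * FF ℓ θ (Sum.inl ())| := by rw [abs_mul]; ring
        _ ≤ (T : ℝ) ^ b * (8 * s ^ 3 * C1 * (T : ℝ) ^ (2 * κ + 2)) := by
          rw [h2, abs_neg]
          exact mul_le_mul_of_nonneg_left h3 (by positivity)
        _ ≤ (T : ℝ) ^ b * (T * (T : ℝ) ^ (2 * κ + 2)) := by
          refine mul_le_mul_of_nonneg_left (mul_le_mul_of_nonneg_right hTb (by positivity)) (by positivity)
        _ = (T : ℝ) ^ K' := by
          rw [hK']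
          ring
    have hball : ∀ e, |(c e : ℝ)| ≤ (T : ℝ) ^ K' := by
      rintro (e | e)
      · exact hb0
      · refine (hcb' e).trans ?_
        calc 4 * s ^ 2 * (T : ℝ) ^ (2 * κ + 2) ≤ T * (T : ℝ) ^ (2 * κ + 2) :=
              mul_le_mul_of_nonneg_right hTc (by positivity)
          _ = (T : ℝ) ^ (2 * κ + 3) := by ring
          _ ≤ (T : ℝ) ^ K' := pow_le_pow_right₀ hT1' (by omega)
    have hc0' : ∀ t, i t = i' t → c (Sum.inr (Sum.inr t)) = 0 := by
      intro t ht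
      refine hc0 t fun hne => hne ?_
      rw [← hi' t, ← hi t, ht]
    obtain ⟨s0, hs0⟩ := MvPolynomial.support_nonempty.2 (PN_ne i i' n hsep c hc hc0')
    rw [MvPolynomial.mem_support_iff, MvPolynomial.coeff_sum] at hs0
    simp only [MvPolynomial.coeff_C_mul] at hs0
    have key := hmea.lin (K' := K') (ι := Unit ⊕ (Fin s ⊕ Fin s)) hT1' (by
      rw [Fintype.card_sum, Fintype.card_sum, Fintype.card_fin, Fintype.card_unit]
      push_cast
      linarith) hkK' (fun e => FF (EM i i' n) (TM i i' n) e)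
      (fun e v => ((hξ _ (hmem e)).1 v).trans hkk) (fun e s hs => by
        obtain ⟨b, hb, hb'⟩ := (hξ _ (hmem e)).2 s hs
        exact ⟨b, hb.trans_le hkk, hb'⟩) c hball s0
    have h4 : ∑ e, (c e : ℂ) * MvPolynomial.aeval v (FF (EM i i' n) (TM i i' n) e) =
        ((∑ e, (c e : ℝ) * FF ℓ θ e : ℝ) : ℂ) := by
      push_cast
      refine Finset.sum_congr rfl fun e _ => ?_
      rw [MvPolynomial.aeval_eq_eval, hFF]
    rw [h4, h0, Complex.ofReal_zero, norm_zero] at key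
    have h5 : 0 < (T : ℝ) ^ (-B) := Real.rpow_pos_of_pos hT0 _
    have h6 := mul_pos h5 (norm_pos_iff.2 hs0)
    linarith
  have hεN : (2 * s : ℝ) < 4 * (1 / (T : ℝ) ^ (κ + 1)) ^ 2 * ((2 * s * T ^ (2 * κ + 2) : ℕ) : ℝ) := by
    push_cast
    have h2 : 4 * (1 / (T : ℝ) ^ (κ + 1)) ^ 2 * (2 * s * (T : ℝ) ^ (2 * κ + 2)) = 8 * s := by
      have h3 : (T : ℝ) ^ (2 * κ + 2) = ((T : ℝ) ^ (κ + 1)) ^ 2 := by ring
      rw [h3]
      field_simp
      ring
    rw [h2]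
    linarith
  obtain ⟨mm, h2, h3⟩ := dens_core hs (fun t => (starRingEnd ℂ) (p t) ≠ p t) ℓ θ hℓb hθb
    (ε := 1 / (T : ℝ) ^ (κ + 1)) (by positivity) (N := 2 * s * T ^ (2 * κ + 2))
    (Nat.mul_pos (by omega) (Nat.pow_pos (by omega))) hεN hdet hnz (fun t => Real.log ‖y t‖)
    (fun t => Complex.arg (y t) / (2 * Real.pi))
  refine ⟨mm, fun t => ?_⟩
  have hδ1 : 1 / (T : ℝ) ^ κ ≤ 1 := by
    rw [div_le_one (by positivity)]
    exact one_le_pow₀ hT1'
  have h16 : 16 * ((1 + s * C0) * (1 / (T : ℝ) ^ (κ + 1))) ≤ 1 / (T : ℝ) ^ κ := by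
    calc 16 * ((1 + s * C0) * (1 / (T : ℝ) ^ (κ + 1))) = (16 * (1 + s * C0)) * (1 / (T : ℝ) ^ (κ + 1)) := by ring
      _ ≤ T * (1 / (T : ℝ) ^ (κ + 1)) := mul_le_mul_of_nonneg_right hTa (by positivity)
      _ = 1 / (T : ℝ) ^ κ := by
        rw [pow_succ]
        field_simp
  have hle : s * C0 * (1 / (T : ℝ) ^ (κ + 1)) ≤ (1 + s * C0) * (1 / (T : ℝ) ^ (κ + 1)) :=
    mul_le_mul_of_nonneg_right (by linarith) (by positivity)
  have h4 := exp_close (fun j => f m j (p t)) mm (y t) (hy t) hδ1 h16 ((h2 t).trans hle)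
  simp only [hfexp] at h4
  exact ⟨h4.1, fun ht => h4.2 (h3 t ht)⟩

end Pool.Agent.X255.RH
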