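import Pool.Agent.X255.RH.Den3

/-!
# Nearly dense groups of elements of number fields
-/

set_option autoImplicit false
set_option linter.unusedSectionVars false

open Polynomial Filter Topology NumberField

namespace Pool.Agent.X255.RH

open Pool.Agent.Y890.SP Pool.Agent.X255.NP

theorem ind_sub {r s : ℕ} {P Q : Fin r → ℤ[X]}
    (hind : ∀ (m n : Fin r → ℕ) (c : ℂ), ∏ j, ((P j).map (Int.castRingHom ℂ)) ^ m j * ((Q j).map (Int.castRingHom ℂ)) ^ n j =
      C c * ∏ j, ((P j).map (Int.castRingHom ℂ)) ^ n j * ((Q j).map (Int.castRingHom ℂ)) ^ m j → m = n)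
    (e : Fin s → Fin r) (hei : Function.Injective e) (m n : Fin s → ℕ) (c : ℂ)
    (hmn : ∏ j, ((P (e j)).map (Int.castRingHom ℂ)) ^ m j * ((Q (e j)).map (Int.castRingHom ℂ)) ^ n j =
      C c * ∏ j, ((P (e j)).map (Int.castRingHom ℂ)) ^ n j * ((Q (e j)).map (Int.castRingHom ℂ)) ^ m j) : m = n := by
  classical
  let ext : (Fin s → ℕ) → Fin r → ℕ := fun m => Function.extend e m fun _ => 0
  have hext : ∀ (m : Fin s → ℕ) t, ext m (e t) = m t := fun m t => hei.extend_apply _ _ _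
  have hext0 : ∀ (m : Fin s → ℕ) j, j ∉ Set.range e → ext m j = 0 := fun m j hj =>
    Function.extend_apply' _ _ _ (fun ⟨t, ht⟩ => hj ⟨t, ht⟩)
  have hprod : ∀ m n : Fin s → ℕ, ∏ j, ((P j).map (Int.castRingHom ℂ)) ^ ext m j *
      ((Q j).map (Int.castRingHom ℂ)) ^ ext n j = ∏ t, ((P (e t)).map (Int.castRingHom ℂ)) ^ m t *
      ((Q (e t)).map (Int.castRingHom ℂ)) ^ n t := by
    intro m n
    symm
    have h2 : ∏ t, ((P (e t)).map (Int.castRingHom ℂ)) ^ m t * ((Q (e t)).map (Int.castRingHom ℂ)) ^ n t =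
        ∏ j ∈ Finset.univ.map ⟨e, hei⟩, ((P j).map (Int.castRingHom ℂ)) ^ ext m j *
          ((Q j).map (Int.castRingHom ℂ)) ^ ext n j := by
      rw [Finset.prod_map]
      refine Finset.prod_congr rfl fun t _ => ?_
      show _ = ((P (e t)).map (Int.castRingHom ℂ)) ^ ext m (e t) * ((Q (e t)).map (Int.castRingHom ℂ)) ^ ext n (e t)
      rw [hext, hext]
    rw [h2]
    refine Finset.prod_subset (Finset.subset_univ _) fun j _ hj => ?_
    have hj' : j ∉ Set.range e := by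
      rintro ⟨t, rfl⟩
      exact hj (Finset.mem_map.2 ⟨t, Finset.mem_univ _, rfl⟩)
    rw [hext0 _ _ hj', hext0 _ _ hj', pow_zero, pow_zero, mul_one]
  have key := hind (ext m) (ext n) c (by rw [hprod, hprod]; exact hmn)
  funext t
  rw [← hext m t, ← hext n t, key]

def AllG {ι : Type} {g : ℕ} (G : ι → ℕ → (Fin (g + 1) → ℤ) → Prop) (T : ℕ) (a : Fin (g + 1) → ℤ) : Prop := ∀ i, G i T a

open scoped Classical in
theorem union_all {ι : Type} [Fintype ι] {g : ℕ} (G : ι → ℕ → (Fin (g + 1) → ℤ) → Prop)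
    (h : ∀ (i : ι) (k : ℕ), ∃ T₀ : ℕ, ∀ T : ℕ, T₀ ≤ T →
      (k : ℝ) * ((bx g T).filter fun a => ¬ G i T a).card ≤ (bx g T).card) (k : ℕ) :
    ∃ T₀ : ℕ, ∀ T : ℕ, T₀ ≤ T → (k : ℝ) * ((bx g T).filter fun a => ¬ AllG G T a).card ≤ (bx g T).card := by
  set M : ℕ := Fintype.card ι + 1 with hM
  choose T₁ hT₁ using fun i => h i (k * M)
  refine ⟨(Finset.univ : Finset ι).sup T₁, fun T hT => ?_⟩
  have hsub : ((bx g T).filter fun a => ¬ AllG G T a) ⊆
      (Finset.univ : Finset ι).biUnion fun i => (bx g T).filter fun a => ¬ G i T a := by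
    intro a ha
    rw [Finset.mem_filter, AllG, not_forall] at ha
    obtain ⟨ha1, i, hi⟩ := ha
    exact Finset.mem_biUnion.2 ⟨i, Finset.mem_univ _, Finset.mem_filter.2 ⟨ha1, hi⟩⟩
  have h2 := (Finset.card_le_card hsub).trans Finset.card_biUnion_le
  have h3 : (((bx g T).filter fun a => ¬ AllG G T a).card : ℝ) ≤
      ∑ i, (((bx g T).filter fun a => ¬ G i T a).card : ℝ) := by
    exact_mod_cast h2
  set Bx : ℝ := ((bx g T).card : ℝ) with hBx
  have hBx0 : 0 ≤ Bx := Nat.cast_nonneg _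
  have hM0 : (0 : ℝ) < M := by rw [hM]; positivity
  have h4 : ((k * M : ℕ) : ℝ) * ∑ i, (((bx g T).filter fun a => ¬ G i T a).card : ℝ) ≤ M * Bx := by
    rw [Finset.mul_sum]
    refine (Finset.sum_le_sum (g := fun _ => Bx) fun i _ => hT₁ i T ((Finset.le_sup (Finset.mem_univ i)).trans hT)).trans ?_
    rw [Finset.sum_const, Finset.card_univ, nsmul_eq_mul]
    refine mul_le_mul_of_nonneg_right ?_ hBx0
    rw [hM]
    push_cast
    linarith
  have h6 : (M : ℝ) * ((k : ℝ) * (((bx g T).filter fun a => ¬ AllG G T a).card : ℝ)) ≤ M * Bx := by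
    refine le_trans ?_ h4
    rw [show (M : ℝ) * ((k : ℝ) * (((bx g T).filter fun a => ¬ AllG G T a).card : ℝ)) =
      ((k * M : ℕ) : ℝ) * (((bx g T).filter fun a => ¬ AllG G T a).card : ℝ) by push_cast; ring]
    exact mul_le_mul_of_nonneg_left h3 (Nat.cast_nonneg _)
  exact le_of_mul_le_mul_left h6 hM0

open scoped Classical in
theorem den_one {g s : ℕ} (hg : 0 < g) (hs : 1 ≤ s) (P Q : Fin (s + 1) → ℤ[X]) (hP : ∀ j, P j ≠ 0) (hQ : ∀ j, Q j ≠ 0)
    (hind : ∀ (m n : Fin (s + 1) → ℕ) (c : ℂ),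
      ∏ j, ((P j).map (Int.castRingHom ℂ)) ^ m j * ((Q j).map (Int.castRingHom ℂ)) ^ n j =
      C c * ∏ j, ((P j).map (Int.castRingHom ℂ)) ^ n j * ((Q j).map (Int.castRingHom ℂ)) ^ m j → m = n) (κ k : ℕ) :
    ∃ T₀ : ℕ, ∀ T : ℕ, T₀ ≤ T → (k : ℝ) * ((bx g T).filter fun a => ¬ OKden P Q κ T a).card ≤ (bx g T).card := by
  obtain ⟨b, T₁, h1⟩ := det_low hg (fun j : Fin s => P j.castSucc) (fun j => Q j.castSucc) (fun _ => hP _) (fun _ => hQ _)
    (ind_sub hind Fin.castSucc (Fin.castSucc_injective s)) (2 * k)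
  obtain ⟨T₂, h2⟩ := den_all hg hs P Q hP hQ hind b κ (2 * k)
  refine ⟨max T₁ T₂, fun T hT => ?_⟩
  have h3 := h1 T ((le_max_left _ _).trans hT)
  have h4 := h2 T ((le_max_right _ _).trans hT)
  have h5 : ((bx g T).filter fun a => ¬ OKden P Q κ T a).card ≤
      ((bx g T).filter fun a => ¬ OKl (fun j : Fin s => P j.castSucc) (fun j => Q j.castSucc) b T a).card +
      ((bx g T).filter fun a => OKl (fun j : Fin s => P j.castSucc) (fun j => Q j.castSucc) b T a ∧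
        ¬ OKden P Q κ T a).card := by
    refine (Finset.card_le_card fun a ha => ?_).trans (Finset.card_union_le _ _)
    rw [Finset.mem_filter] at ha
    rw [Finset.mem_union, Finset.mem_filter, Finset.mem_filter]
    by_cases h6 : OKl (fun j : Fin s => P j.castSucc) (fun j => Q j.castSucc) b T a
    · exact Or.inr ⟨ha.1, h6, ha.2⟩
    · exact Or.inl ⟨ha.1, h6⟩
  have h6 : (((bx g T).filter fun a => ¬ OKden P Q κ T a).card : ℝ) ≤
      (((bx g T).filter fun a => ¬ OKl (fun j : Fin s => P j.castSucc) (fun j => Q j.castSucc) b T a).card : ℝ) +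
      (((bx g T).filter fun a => OKl (fun j : Fin s => P j.castSucc) (fun j => Q j.castSucc) b T a ∧
        ¬ OKden P Q κ T a).card : ℝ) := by
    exact_mod_cast h5
  push_cast at h3 h4
  have h7 : 0 ≤ (k : ℝ) := Nat.cast_nonneg k
  have h8 := mul_le_mul_of_nonneg_left h6 h7
  linarith

/-- injective families -/
def OKe {g r : ℕ} (P Q : Fin r → ℤ[X]) (κ s : ℕ) (e : Fin (s + 1) → Fin r) (T : ℕ) (a : Fin (g + 1) → ℤ) : Prop :=
  Function.Injective e → OKden (fun j => P (e j)) (fun j => Q (e j)) κ T a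

open scoped Classical in
theorem den_s {g r : ℕ} (hg : 0 < g) (P Q : Fin r → ℤ[X]) (hP : ∀ j, P j ≠ 0) (hQ : ∀ j, Q j ≠ 0)
    (hind : ∀ (m n : Fin r → ℕ) (c : ℂ), ∏ j, ((P j).map (Int.castRingHom ℂ)) ^ m j * ((Q j).map (Int.castRingHom ℂ)) ^ n j =
      C c * ∏ j, ((P j).map (Int.castRingHom ℂ)) ^ n j * ((Q j).map (Int.castRingHom ℂ)) ^ m j → m = n) (κ s : ℕ)
    (hs : 1 ≤ s) (k : ℕ) :
    ∃ T₀ : ℕ, ∀ T : ℕ, T₀ ≤ T → (k : ℝ) * ((bx g T).filter fun a => ¬ AllG (OKe P Q κ s) T a).card ≤ (bx g T).card := by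
  refine union_all (OKe P Q κ s) (fun e k => ?_) k
  by_cases he : Function.Injective e
  · obtain ⟨T₀, h⟩ := den_one hg hs (fun j => P (e j)) (fun j => Q (e j)) (fun _ => hP _) (fun _ => hQ _)
      (ind_sub hind e he) κ k
    refine ⟨T₀, fun T hT => le_trans ?_ (h T hT)⟩
    refine mul_le_mul_of_nonneg_left (Nat.cast_le.2 (Finset.card_le_card fun a ha => ?_)) (Nat.cast_nonneg _)
    rw [Finset.mem_filter] at ha ⊢
    exact ⟨ha.1, fun h1 => ha.2 fun _ => h1⟩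
  · refine ⟨0, fun T _ => ?_⟩
    rw [Finset.card_eq_zero.2, Nat.cast_zero, mul_zero]
    · exact Nat.cast_nonneg _
    · rw [Finset.filter_eq_empty_iff]
      intro a _ h1
      exact h1 fun h2 => absurd h2 he

def OKs {g r : ℕ} (P Q : Fin r → ℤ[X]) (κ : ℕ) (s : Fin r) (T : ℕ) (a : Fin (g + 1) → ℤ) : Prop :=
  1 ≤ (s : ℕ) → AllG (OKe P Q κ (s : ℕ)) T a

open scoped Classical in
theorem den_sub {g r : ℕ} (hg : 0 < g) (P Q : Fin r → ℤ[X]) (hP : ∀ j, P j ≠ 0) (hQ : ∀ j, Q j ≠ 0)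
    (hind : ∀ (m n : Fin r → ℕ) (c : ℂ), ∏ j, ((P j).map (Int.castRingHom ℂ)) ^ m j * ((Q j).map (Int.castRingHom ℂ)) ^ n j =
      C c * ∏ j, ((P j).map (Int.castRingHom ℂ)) ^ n j * ((Q j).map (Int.castRingHom ℂ)) ^ m j → m = n) (κ k : ℕ) :
    ∃ T₀ : ℕ, ∀ T : ℕ, T₀ ≤ T → (k : ℝ) * ((bx g T).filter fun a => ¬ AllG (OKs P Q κ) T a).card ≤ (bx g T).card := by
  refine union_all (OKs P Q κ) (fun s k => ?_) k
  by_cases hs : 1 ≤ (s : ℕ)
  · obtain ⟨T₀, h⟩ := den_s hg P Q hP hQ hind κ s hs k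
    refine ⟨T₀, fun T hT => le_trans ?_ (h T hT)⟩
    refine mul_le_mul_of_nonneg_left (Nat.cast_le.2 (Finset.card_le_card fun a ha => ?_)) (Nat.cast_nonneg _)
    rw [Finset.mem_filter] at ha ⊢
    exact ⟨ha.1, fun h1 => ha.2 fun _ => h1⟩
  · refine ⟨0, fun T _ => ?_⟩
    rw [Finset.card_eq_zero.2, Nat.cast_zero, mul_zero]
    · exact Nat.cast_nonneg _
    · rw [Finset.filter_eq_empty_iff]
      intro a _ h1
      exact h1 fun h2 => absurd h2 hs

section
variable {K : Type} [Field K] [NumberField K]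

theorem up_ne_conj {α : K} (hα : IntermediateField.adjoin ℚ {α} = ⊤) {w : InfinitePlace K} (hw : w.IsComplex) :
    (starRingEnd ℂ) (up α w) ≠ up α w := by
  intro h
  have h1 : (starRingEnd ℂ) (w.embedding α) = w.embedding α := by
    unfold up at h
    split_ifs at h
    · exact h
    · rw [Complex.conj_conj] at h
      exact h.symm
  have h2 : ComplexEmbedding.conjugate w.embedding = w.embedding := by
    refine hom_ext hα ?_
    rw [ComplexEmbedding.conjugate_coe_eq]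
    exact h1
  exact (InfinitePlace.isComplex_iff.1 hw) (ComplexEmbedding.isReal_iff.2 h2)

theorem dens_nf {α : K} (hα : IntermediateField.adjoin ℚ {α} = ⊤) {g s : ℕ} {a : Fin (g + 1) → ℤ}
    (hroot : aeval α (polZ a) = 0) (P Q : Fin (s + 1) → ℤ[X]) {κ T : ℕ} (h : OKden P Q κ T a)
    (hs : Fintype.card (InfinitePlace K) = s) :
    (∀ j, aeval α (P j) ≠ 0 ∧ aeval α (Q j) ≠ 0) ∧ ∀ y : InfinitePlace K → ℂ, (∀ w, y w ≠ 0) →
      ∃ m : Fin (s + 1) → ℤ, ∀ w : InfinitePlace K,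
        |w (∏ j, (aeval α (P j) / aeval α (Q j)) ^ m j) / ‖y w‖ - 1| ≤ 1 / (T : ℝ) ^ κ ∧
        (w.IsComplex → ‖w.embedding (∏ j, (aeval α (P j) / aeval α (Q j)) ^ m j) / y w - 1‖ ≤ 1 / (T : ℝ) ^ κ) := by
  classical
  have hw0 : Nonempty (InfinitePlace K) := inferInstance
  have hne : ∀ j, aeval α (P j) ≠ 0 ∧ aeval α (Q j) ≠ 0 := by
    intro j
    obtain ⟨w⟩ := hw0
    have h1 := h.2.1 _ (hom_root hroot w.embedding) j
    rw [← hom_aeval, ← hom_aeval] at h1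
    exact ⟨fun h0 => h1.1 (by rw [h0, map_zero]), fun h0 => h1.2 (by rw [h0, map_zero])⟩
  refine ⟨hne, fun y hy => ?_⟩
  let e : InfinitePlace K ≃ Fin s := Fintype.equivFinOfCardEq hs
  obtain ⟨m, hm⟩ := h.2.2 (fun t => up α (e.symm t)) ((up_inj hα).comp e.symm.injective)
    (fun t => ⟨up_root hroot _, up_im _ _⟩)
    (fun t => if 0 ≤ ((e.symm t).embedding α).im then y (e.symm t) else (starRingEnd ℂ) (y (e.symm t)))
    (fun t => by
      split_ifs
      · exact hy _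
      · exact (_root_.map_ne_zero _).2 (hy _))
  refine ⟨m, fun w => ?_⟩
  have h1 := hm (e w)
  simp only [Equiv.symm_apply_apply] at h1
  set x : K := ∏ j, (aeval α (P j) / aeval α (Q j)) ^ m j with hx
  have h2 : ∏ j, (((P j).map (Int.castRingHom ℂ)).eval (up α w) / ((Q j).map (Int.castRingHom ℂ)).eval (up α w)) ^ m j =
      if 0 ≤ (w.embedding α).im then w.embedding x else (starRingEnd ℂ) (w.embedding x) := by
    unfold up
    split_ifs
    · rw [hx, map_prod]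
      refine Finset.prod_congr rfl fun j _ => ?_
      rw [map_zpow₀, map_div₀, hom_aeval, hom_aeval]
    · rw [hx, map_prod, map_prod]
      refine Finset.prod_congr rfl fun j _ => ?_
      rw [map_zpow₀, map_div₀, hom_aeval, hom_aeval, map_zpow₀, map_div₀, eval_conj, eval_conj]
  rw [h2] at h1
  constructor
  · refine le_of_eq_of_le ?_ h1.1
    split_ifs
    · rw [InfinitePlace.norm_embedding_eq]
    · rw [Complex.norm_conj, Complex.norm_conj, InfinitePlace.norm_embedding_eq]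
  · intro hw
    refine le_of_eq_of_le ?_ (h1.2 (up_ne_conj hα hw))
    split_ifs
    · rfl
    · rw [← map_div₀, ← map_one (starRingEnd ℂ), ← map_sub, Complex.norm_conj, map_one]

open scoped Classical in
/-- the identity component is nearly filled by the group -/
theorem dens_comp {α : K} (hα : IntermediateField.adjoin ℚ {α} = ⊤) {g s : ℕ} {a : Fin (g + 1) → ℤ}
    (hroot : aeval α (polZ a) = 0) (P Q : Fin (s + 1) → ℤ[X]) {κ T : ℕ} (hT : 3 ≤ T) (h : OKden P Q (κ + 1) T a)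
    (hs : Fintype.card (InfinitePlace K) = s) (u : Fin (s + 1) → Kˣ) (hu : ∀ j, (u j : K) = aeval α (P j) / aeval α (Q j))
    (y : (mixedEmbedding.mixedSpace K)ˣ) (hy : ∀ w, 0 < (y : mixedEmbedding.mixedSpace K).1 w) :
    ∃ x ∈ (Subgroup.closure (Set.range u)).map (Units.map (mixedEmbedding K).toMonoidHom),
      ‖((x / y : (mixedEmbedding.mixedSpace K)ˣ) : mixedEmbedding.mixedSpace K) - 1‖ ≤ 1 / (T : ℝ) ^ κ := by
  classical
  have hT3 : (3 : ℝ) ≤ T := by exact_mod_cast hT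
  have hT0 : (0 : ℝ) < T := by linarith
  set δ : ℝ := 1 / (T : ℝ) ^ (κ + 1) with hδ
  have hδ0 : 0 ≤ δ := by positivity
  have hδ1 : δ ≤ 1 := by
    rw [hδ, div_le_one (by positivity)]
    exact one_le_pow₀ (by linarith)
  have h3δ : 3 * δ ≤ 1 / (T : ℝ) ^ κ := by
    calc 3 * δ ≤ T * δ := mul_le_mul_of_nonneg_right hT3 hδ0
      _ = 1 / (T : ℝ) ^ κ := by
        rw [hδ, pow_succ]
        field_simp
  -- the target
  have hyne : ∀ w (hw : InfinitePlace.IsComplex w), (y : mixedEmbedding.mixedSpace K).2 ⟨w, hw⟩ ≠ 0 := by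
    intro w hw h0
    have h1 := congrArg (fun v : mixedEmbedding.mixedSpace K => v.2 ⟨w, hw⟩) y.mul_inv
    simp only [Prod.snd_mul, Pi.mul_apply, h0, zero_mul, Prod.snd_one, Pi.one_apply] at h1
    exact zero_ne_one h1
  have hz : ∀ w : InfinitePlace K, ∃ z : ℂ, z ≠ 0 ∧ (∀ hw : w.IsReal, z ^ 2 = ((y : mixedEmbedding.mixedSpace K).1 ⟨w, hw⟩ : ℂ)) ∧
      ∀ hw : w.IsComplex, z ^ 2 = (y : mixedEmbedding.mixedSpace K).2 ⟨w, hw⟩ := by
    intro w
    rcases w.isReal_or_isComplex with hw | hw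
    · obtain ⟨z, hz⟩ := IsAlgClosed.exists_pow_nat_eq (((y : mixedEmbedding.mixedSpace K).1 ⟨w, hw⟩ : ℝ) : ℂ) (n := 2)
        (by norm_num)
      refine ⟨z, fun h0 => ?_, fun _ => hz, fun hw' => absurd hw (InfinitePlace.not_isReal_iff_isComplex.2 hw')⟩
      rw [h0, zero_pow two_ne_zero] at hz
      exact (hy ⟨w, hw⟩).ne (by exact_mod_cast hz)
    · obtain ⟨z, hz⟩ := IsAlgClosed.exists_pow_nat_eq ((y : mixedEmbedding.mixedSpace K).2 ⟨w, hw⟩) (n := 2)
        (by norm_num)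
      refine ⟨z, fun h0 => ?_, fun hw' => absurd hw' (InfinitePlace.not_isReal_iff_isComplex.2 hw), fun _ => hz⟩
      rw [h0, zero_pow two_ne_zero] at hz
      exact hyne w hw hz.symm
  choose z hz0 hzr hzc using hz
  obtain ⟨m, hm⟩ := (dens_nf hα hroot P Q h hs).2 z hz0
  set x : Kˣ := ∏ j, u j ^ m j with hx
  have hxK : (x : K) = ∏ j, (aeval α (P j) / aeval α (Q j)) ^ m j := by
    rw [hx, Units.coe_prod]
    refine Finset.prod_congr rfl fun j _ => ?_
    rw [Units.val_zpow_eq_zpow_val, hu]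
  rw [← hxK] at hm
  have hxmem : x ∈ Subgroup.closure (Set.range u) :=
    Subgroup.prod_mem _ fun j _ => Subgroup.zpow_mem _ (Subgroup.subset_closure (Set.mem_range_self j)) _
  have hsq : ∀ v : ℂ, ‖v - 1‖ ≤ δ → ‖v ^ 2 - 1‖ ≤ 3 * δ := by
    intro v hv
    have h1 : v ^ 2 - 1 = (v - 1) * (v - 1 + 2) := by ring
    rw [h1, norm_mul]
    have h2 : ‖v - 1 + 2‖ ≤ 3 := by
      refine (norm_add_le _ _).trans ?_
      have : ‖(2 : ℂ)‖ = 2 := by simp
      rw [this]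
      linarith
    calc ‖v - 1‖ * ‖v - 1 + 2‖ ≤ δ * 3 := mul_le_mul hv h2 (norm_nonneg _) hδ0
      _ = 3 * δ := mul_comm _ _
  have hxm : Units.map (mixedEmbedding K).toMonoidHom (x ^ 2) ∈
      (Subgroup.closure (Set.range u)).map (Units.map (mixedEmbedding K).toMonoidHom) :=
    Subgroup.mem_map_of_mem _ (Subgroup.pow_mem _ hxmem 2)
  refine ⟨_, hxm, ?_⟩
  have hval : ((Units.map (mixedEmbedding K).toMonoidHom (x ^ 2) / y : (mixedEmbedding.mixedSpace K)ˣ) :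
      mixedEmbedding.mixedSpace K) = mixedEmbedding K ((x : K) ^ 2) * ((y⁻¹ : (mixedEmbedding.mixedSpace K)ˣ) :
      mixedEmbedding.mixedSpace K) := by
    rw [div_eq_mul_inv, Units.val_mul]
    rfl
  rw [hval, norm_prod_le_iff]
  have h3δ0 : 0 ≤ 1 / (T : ℝ) ^ κ := by positivity
  constructor
  · rw [pi_norm_le_iff_of_nonneg h3δ0]
    rintro ⟨w, hw⟩
    have hinv : ((y⁻¹ : (mixedEmbedding.mixedSpace K)ˣ) : mixedEmbedding.mixedSpace K).1 ⟨w, hw⟩ =
        ((y : mixedEmbedding.mixedSpace K).1 ⟨w, hw⟩)⁻¹ := by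
      have h1 := congrArg (fun v : mixedEmbedding.mixedSpace K => v.1 ⟨w, hw⟩) y.mul_inv
      simp only [Prod.fst_mul, Pi.mul_apply, Prod.fst_one, Pi.one_apply] at h1
      exact eq_inv_of_mul_eq_one_right h1
    have hyw : (y : mixedEmbedding.mixedSpace K).1 ⟨w, hw⟩ = ‖z w‖ ^ 2 := by
      have h1 := congrArg norm (hzr w hw)
      rw [norm_pow, Complex.norm_real, Real.norm_of_nonneg (hy ⟨w, hw⟩).le] at h1
      exact h1.symm
    have hρ : (InfinitePlace.embedding_of_isReal hw (x : K)) ^ 2 = (w (x : K)) ^ 2 := by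
      rw [← InfinitePlace.norm_embedding_of_isReal hw, Real.norm_eq_abs, sq_abs]
    show ‖(mixedEmbedding K ((x : K) ^ 2)).1 ⟨w, hw⟩ * ((y⁻¹ : (mixedEmbedding.mixedSpace K)ˣ) :
      mixedEmbedding.mixedSpace K).1 ⟨w, hw⟩ - 1‖ ≤ _
    rw [mixedEmbedding.mixedEmbedding_apply_isReal, map_pow, hinv, hyw, hρ]
    have h2 := hsq ((w (x : K) / ‖z w‖ : ℝ) : ℂ) (by
      have h3 : ‖(((w (x : K) / ‖z w‖ : ℝ) : ℂ)) - 1‖ = |w (x : K) / ‖z w‖ - 1| := by
        rw [← Complex.ofReal_one, ← Complex.ofReal_sub, Complex.norm_real, Real.norm_eq_abs]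
      rw [h3]
      exact (hm w).1)
    refine le_trans (le_of_eq ?_) (h2.trans h3δ)
    rw [← Complex.ofReal_one, ← Complex.ofReal_pow, ← Complex.ofReal_sub, Complex.norm_real, div_pow, div_eq_mul_inv]
  · rw [pi_norm_le_iff_of_nonneg h3δ0]
    rintro ⟨w, hw⟩
    have hinv : ((y⁻¹ : (mixedEmbedding.mixedSpace K)ˣ) : mixedEmbedding.mixedSpace K).2 ⟨w, hw⟩ =
        ((y : mixedEmbedding.mixedSpace K).2 ⟨w, hw⟩)⁻¹ := by
      have h1 := congrArg (fun v : mixedEmbedding.mixedSpace K => v.2 ⟨w, hw⟩) y.mul_inv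
      simp only [Prod.snd_mul, Pi.mul_apply, Prod.snd_one, Pi.one_apply] at h1
      exact eq_inv_of_mul_eq_one_right h1
    show ‖(mixedEmbedding K ((x : K) ^ 2)).2 ⟨w, hw⟩ * ((y⁻¹ : (mixedEmbedding.mixedSpace K)ˣ) :
      mixedEmbedding.mixedSpace K).2 ⟨w, hw⟩ - 1‖ ≤ _
    rw [mixedEmbedding.mixedEmbedding_apply_isComplex, map_pow, hinv, ← hzc w hw]
    have h2 := hsq (w.embedding (x : K) / z w) ((hm w).2 hw)
    rw [div_pow, div_eq_mul_inv] at h2
    exact h2.trans h3δ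

end

end Pool.Agent.X255.RH
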