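import Pool.Agent.X255.RH.Den4
import Pool.Agent.X255.RH.Avd3

/-!
# Density with a column of ones
-/

set_option autoImplicit false
set_option linter.unusedSectionVars false

open Polynomial Filter Topology NumberField

namespace Pool.Agent.X255.RH

open Pool.Agent.Y890.SP Pool.Agent.X255.NP

/-- the logarithms of the absolute values -/
noncomputable def EG {g p r : ℕ} (i i' : Fin p → Fin g) (n : Fin p → Fin r → ℤ) (t : Fin p) (j : Fin r) :
    MvPolynomial (Fin g × Fin r) ℂ :=
  MvPolynomial.C (1 / 2) * (MvPolynomial.X (i t, j) + MvPolynomial.X (i' t, j)) + MvPolynomial.C (Real.pi * Complex.I * n t j)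

/-- the angles -/
noncomputable def TG {g p r : ℕ} (i i' : Fin p → Fin g) (n : Fin p → Fin r → ℤ) (t : Fin p) (j : Fin r) :
    MvPolynomial (Fin g × Fin r) ℂ :=
  MvPolynomial.C (1 / (2 * Real.pi * Complex.I)) * (MvPolynomial.X (i t, j) - EG i i' n t j)

theorem exists_pointG {g p r : ℕ} (i i' : Fin p → Fin g) (n : Fin p → Fin r → ℤ)
    (h : ∀ s t, s ≠ t → i s ≠ i t ∧ i s ≠ i' t ∧ i' s ≠ i' t) (E Θ : Fin p → Fin r → ℂ) :
    ∃ x : Fin g × Fin r → ℂ, ∀ t j, MvPolynomial.eval x (EG i i' n t j) = E t j ∧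
      (i t ≠ i' t → MvPolynomial.eval x (TG i i' n t j) = Θ t j) := by
  classical
  have hpi : (2 * Real.pi * Complex.I : ℂ) ≠ 0 := Complex.two_pi_I_ne_zero
  let x : Fin g × Fin r → ℂ := fun u =>
    if hu : ∃ t, u.1 = i t then (if i hu.choose = i' hu.choose then E hu.choose u.2 - Real.pi * Complex.I * n hu.choose u.2
      else E hu.choose u.2 + 2 * Real.pi * Complex.I * Θ hu.choose u.2)
    else if hu : ∃ t, u.1 = i' t then 2 * (E hu.choose u.2 - Real.pi * Complex.I * n hu.choose u.2) -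
      (E hu.choose u.2 + 2 * Real.pi * Complex.I * Θ hu.choose u.2) else 0
  have hx1 : ∀ t j, x (i t, j) = if i t = i' t then E t j - Real.pi * Complex.I * n t j
      else E t j + 2 * Real.pi * Complex.I * Θ t j := by
    intro t j
    have hu : ∃ t', i t = i t' := ⟨t, rfl⟩
    have h1 : hu.choose = t := by
      by_contra hne
      exact (h _ _ hne).1 hu.choose_spec.symm
    show (if hu : ∃ t', i t = i t' then (if i hu.choose = i' hu.choose then E hu.choose j - Real.pi * Complex.I * n hu.choose j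
      else E hu.choose j + 2 * Real.pi * Complex.I * Θ hu.choose j) else _) = _
    rw [dif_pos hu, h1]
  have hx2 : ∀ t j, i t ≠ i' t → x (i' t, j) = 2 * (E t j - Real.pi * Complex.I * n t j) -
      (E t j + 2 * Real.pi * Complex.I * Θ t j) := by
    intro t j hne
    have hu0 : ¬ ∃ t', i' t = i t' := by
      rintro ⟨t', ht'⟩
      by_cases h1 : t' = t
      · subst h1
        exact hne ht'.symm
      · exact (h _ _ h1).2.1 ht'.symm
    have hu : ∃ t', i' t = i' t' := ⟨t, rfl⟩
    have h1 : hu.choose = t := by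
      by_contra hne
      exact (h _ _ hne).2.2 hu.choose_spec.symm
    show (if hu : ∃ t', i' t = i t' then _ else if hu : ∃ t', i' t = i' t' then 2 * (E hu.choose j -
      Real.pi * Complex.I * n hu.choose j) - (E hu.choose j + 2 * Real.pi * Complex.I * Θ hu.choose j) else 0) = _
    rw [dif_neg hu0, dif_pos hu, h1]
  have hE : ∀ t j, MvPolynomial.eval x (EG i i' n t j) = E t j := by
    intro t j
    simp only [EG, map_add, map_mul, MvPolynomial.eval_C, MvPolynomial.eval_X]
    by_cases hne : i t = i' t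
    · rw [← hne, hx1, if_pos hne]
      ring
    · rw [hx1, if_neg hne, hx2 t j hne]
      ring
  refine ⟨x, fun t j => ⟨hE t j, fun hne => ?_⟩⟩
  simp only [TG, map_sub, map_mul, MvPolynomial.eval_C, MvPolynomial.eval_X]
  rw [hE, hx1, if_neg hne]
  field_simp
  ring

/-- the entries with a column of ones -/
noncomputable def E1 {g s : ℕ} (i i' : Fin (s + 1) → Fin g) (n : Fin (s + 1) → Fin (s + 1) → ℤ) (t : Fin (s + 1)) :
    Fin (s + 1 + 1) → MvPolynomial (Fin g × Fin (s + 1)) ℂ :=
  Fin.cons 1 fun j => EG i i' n t j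

noncomputable def T1 {g s : ℕ} (i i' : Fin (s + 1) → Fin g) (n : Fin (s + 1) → Fin (s + 1) → ℤ) (t : Fin (s + 1)) :
    Fin (s + 1 + 1) → MvPolynomial (Fin g × Fin (s + 1)) ℂ :=
  Fin.cons 0 fun j => TG i i' n t j

/-- a unipotent matrix with a column of ones -/
def M1 (s : ℕ) : Matrix (Fin (s + 1)) (Fin (s + 1)) ℂ := fun t => Fin.cons 1 fun j : Fin s => if t = j.succ then 1 else 0

theorem M1_det (s : ℕ) : (M1 s).det = 1 := by
  rw [Matrix.det_of_lowerTriangular]
  · refine Finset.prod_eq_one fun t _ => ?_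
    induction t using Fin.cases with
    | zero => rfl
    | succ j => 
      show (if j.succ = j.succ then (1 : ℂ) else 0) = 1
      rw [if_pos rfl]
  · intro t j htj
    have htj' : t < j := htj
    induction j using Fin.cases with
    | zero => exact absurd htj' (Fin.not_lt_zero t)
    | succ j =>
      show (if t = j.succ then (1 : ℂ) else 0) = 0
      rw [if_neg (ne_of_lt htj')]

theorem PN_ne1 {g s : ℕ} (i i' : Fin (s + 1) → Fin g) (n : Fin (s + 1) → Fin (s + 1) → ℤ)
    (h : ∀ s t, s ≠ t → i s ≠ i t ∧ i s ≠ i' t ∧ i' s ≠ i' t) (c : Unit ⊕ (Fin (s + 1) ⊕ Fin (s + 1)) → ℤ)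
    (hc : ∃ v, c (Sum.inr v) ≠ 0) (hc0 : ∀ t, i t = i' t → c (Sum.inr (Sum.inr t)) = 0) :
    ∑ e, MvPolynomial.C (c e : ℂ) * FF (E1 i i' n) (T1 i i' n) e ≠ 0 := by
  classical
  intro h0
  have key : ∀ q : ℝ, -(c (Sum.inl ()) : ℝ) + q * (∑ j, (c (Sum.inr (Sum.inl j)) : ℝ) ^ 2 +
      ∑ t, (c (Sum.inr (Sum.inr t)) : ℝ) ^ 2) = 0 := by
    intro q
    set β : Fin (s + 1) → ℂ := fun j => -((q : ℂ) * c (Sum.inr (Sum.inl j))) with hβ
    obtain ⟨x, hx⟩ := exists_pointG i i' n h
      (fun t => Fin.snoc (fun j : Fin s => if t = j.succ then (1 : ℂ) else 0) ((M1 s).mulVec β t))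
      (fun t => Fin.snoc (fun _ : Fin s => (0 : ℂ)) (q * c (Sum.inr (Sum.inr t))))
    have h1 := congrArg (MvPolynomial.eval x) h0
    rw [map_zero, map_sum, Fintype.sum_sum_type, Fintype.sum_sum_type] at h1
    simp only [map_mul, MvPolynomial.eval_C, FF_map] at h1
    have hA : (Matrix.of fun t j : Fin (s + 1) => MvPolynomial.eval x (E1 i i' n t j.castSucc)) = M1 s := by
      ext t j
      rw [Matrix.of_apply]
      induction j using Fin.cases with
      | zero => exact map_one _
      | succ j =>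
        show MvPolynomial.eval x (EG i i' n t j.castSucc) = if t = j.succ then (1 : ℂ) else 0
        rw [(hx t j.castSucc).1, Fin.snoc_castSucc]
    have hb : (fun t => MvPolynomial.eval x (E1 i i' n t (Fin.last (s + 1)))) = (M1 s).mulVec β := by
      funext t
      show MvPolynomial.eval x (EG i i' n t (Fin.last s)) = _
      rw [(hx t (Fin.last s)).1, Fin.snoc_last]
    have hadj : (M1 s).adjugate.mulVec ((M1 s).mulVec β) = β := by
      rw [Matrix.mulVec_mulVec, Matrix.adjugate_mul, M1_det, one_smul, Matrix.one_mulVec]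
    have hT0 : ∀ t, i t ≠ i' t → ∀ j : Fin (s + 1), MvPolynomial.eval x (T1 i i' n t j.castSucc) = 0 := by
      intro t hne j
      induction j using Fin.cases with
      | zero => exact map_zero _
      | succ j =>
        show MvPolynomial.eval x (TG i i' n t j.castSucc) = 0
        rw [(hx t j.castSucc).2 hne, Fin.snoc_castSucc]
    have hTl : ∀ t, i t ≠ i' t → MvPolynomial.eval x (T1 i i' n t (Fin.last (s + 1))) = q * c (Sum.inr (Sum.inr t)) := by
      intro t hne
      show MvPolynomial.eval x (TG i i' n t (Fin.last s)) = _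
      rw [(hx t (Fin.last s)).2 hne, Fin.snoc_last]
    simp only [FF, hA, hb, hadj, M1_det, Finset.univ_unique, Finset.sum_singleton] at h1
    have h2 : ∀ t, (c (Sum.inr (Sum.inr t)) : ℂ) * (1 * MvPolynomial.eval x (T1 i i' n t (Fin.last (s + 1))) -
        ∑ j : Fin (s + 1), MvPolynomial.eval x (T1 i i' n t j.castSucc) * β j) =
        q * (c (Sum.inr (Sum.inr t)) : ℂ) ^ 2 := by
      intro t
      by_cases hne : i t = i' t
      · rw [hc0 t hne]
        push_cast
        ring
      · rw [hTl t hne, Finset.sum_eq_zero fun j _ => by rw [hT0 t hne, zero_mul]]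
        ring
    rw [Finset.sum_congr rfl fun t _ => h2 t, ← Finset.mul_sum] at h1
    have h3 : ∑ j : Fin (s + 1), (c (Sum.inr (Sum.inl j)) : ℂ) * -β j =
        q * ∑ j, (c (Sum.inr (Sum.inl j)) : ℂ) ^ 2 := by
      rw [Finset.mul_sum]
      refine Finset.sum_congr rfl fun j _ => ?_
      rw [hβ]
      ring
    rw [h3] at h1
    have h4 : ((-(c (Sum.inl ()) : ℝ) + q * (∑ j, (c (Sum.inr (Sum.inl j)) : ℝ) ^ 2 +
      ∑ t, (c (Sum.inr (Sum.inr t)) : ℝ) ^ 2) : ℝ) : ℂ) = 0 := by
      rw [← h1]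
      push_cast
      have h5 : (default : Unit) = () := rfl
      rw [h5]
      ring
    exact_mod_cast h4
  have k0 := key 0
  have k1 := key 1
  have h1 : 0 ≤ ∑ j, (c (Sum.inr (Sum.inl j)) : ℝ) ^ 2 := Finset.sum_nonneg fun _ _ => sq_nonneg _
  have h2 : 0 ≤ ∑ t, (c (Sum.inr (Sum.inr t)) : ℝ) ^ 2 := Finset.sum_nonneg fun _ _ => sq_nonneg _
  obtain ⟨v, hv⟩ := hc
  rcases v with j | t
  · have h3 : 0 < (c (Sum.inr (Sum.inl j)) : ℝ) ^ 2 := by positivity
    have h4 := Finset.single_le_sum (f := fun j => (c (Sum.inr (Sum.inl j)) : ℝ) ^ 2) (fun _ _ => sq_nonneg _)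
      (Finset.mem_univ j)
    linarith
  · have h3 : 0 < (c (Sum.inr (Sum.inr t)) : ℝ) ^ 2 := by positivity
    have h4 := Finset.single_le_sum (f := fun j => (c (Sum.inr (Sum.inr j)) : ℝ) ^ 2) (fun _ _ => sq_nonneg _)
      (Finset.mem_univ t)
    linarith

end Pool.Agent.X255.RH
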