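import Pool.Agent.X255.RH.Den5

/-!
# Density at almost all conjugates, with a column of ones
-/

set_option autoImplicit false
set_option linter.unusedSectionVars false

open Polynomial Filter Topology NumberField

namespace Pool.Agent.X255.RH

open Pool.Agent.Y890.SP Pool.Agent.X255.NP

theorem D1_ne {g s : ℕ} (i i' : Fin (s + 1) → Fin g) (n : Fin (s + 1) → Fin (s + 1) → ℤ)
    (h : ∀ s t, s ≠ t → i s ≠ i t ∧ i s ≠ i' t ∧ i' s ≠ i' t) : FF (E1 i i' n) (T1 i i' n) (Sum.inl ()) ≠ 0 := by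
  classical
  intro h0
  obtain ⟨x, hx⟩ := exists_pointG i i' n h
    (fun t => Fin.snoc (fun j : Fin s => if t = j.succ then (1 : ℂ) else 0) 0) (fun _ _ => 0)
  have h1 := congrArg (MvPolynomial.eval x) h0
  rw [map_zero, FF_map] at h1
  have hA : (Matrix.of fun t j : Fin (s + 1) => MvPolynomial.eval x (E1 i i' n t j.castSucc)) = M1 s := by
    ext t j
    rw [Matrix.of_apply]
    induction j using Fin.cases with
    | zero => exact map_one _
    | succ j =>
      show MvPolynomial.eval x (EG i i' n t j.castSucc) = if t = j.succ then (1 : ℂ) else 0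
      rw [(hx t j.castSucc).1, Fin.snoc_castSucc]
  simp only [FF, hA, M1_det] at h1
  norm_num at h1

/-- logarithms of absolute values, with a column of ones -/
noncomputable def rowL {s : ℕ} (P Q : Fin (s + 1) → ℤ[X]) (z : ℂ) : Fin (s + 1 + 1) → ℝ :=
  Fin.cons 1 fun j => Real.log ‖((P j).map (Int.castRingHom ℂ)).eval z / ((Q j).map (Int.castRingHom ℂ)).eval z‖

/-- the determinants of the logarithms of the absolute values are not small -/
def OKl1 {g s : ℕ} (P Q : Fin (s + 1) → ℤ[X]) (b T : ℕ) (a : Fin (g + 1) → ℤ) : Prop :=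
  ∀ p : Fin (s + 1) → ℂ, Function.Injective p → (∀ t, (pol a).eval (p t) = 0 ∧ 0 ≤ (p t).im) →
    1 ≤ (T : ℝ) ^ b * |(Matrix.of fun t j : Fin (s + 1) => rowL P Q (p t) j.castSucc).det|

open scoped Classical in
theorem det_low1 {g s : ℕ} (hg : 0 < g) (P Q : Fin (s + 1) → ℤ[X]) (hP : ∀ j, P j ≠ 0) (hQ : ∀ j, Q j ≠ 0)
    (hind : ∀ (m n : Fin (s + 1) → ℕ) (c : ℂ),
      ∏ j, ((P j).map (Int.castRingHom ℂ)) ^ m j * ((Q j).map (Int.castRingHom ℂ)) ^ n j =
      C c * ∏ j, ((P j).map (Int.castRingHom ℂ)) ^ n j * ((Q j).map (Int.castRingHom ℂ)) ^ m j → m = n) (k : ℕ) :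
    ∃ b T₀ : ℕ, ∀ T : ℕ, T₀ ≤ T → (k : ℝ) * ((bx g T).filter fun a => ¬ OKl1 P Q b T a).card ≤ (bx g T).card := by
  have hinjZ : Function.Injective (Int.castRingHom ℂ) := Int.cast_injective
  have hP' : ∀ j, (P j).map (Int.castRingHom ℂ) ≠ 0 := fun j h =>
    hP j ((Polynomial.map_eq_zero_iff hinjZ).1 h)
  have hQ' : ∀ j, (Q j).map (Int.castRingHom ℂ) ≠ 0 := fun j h =>
    hQ j ((Polynomial.map_eq_zero_iff hinjZ).1 h)
  set S : Finset ℂ := (∏ j, (P j).map (Int.castRingHom ℂ) * (Q j).map (Int.castRingHom ℂ)).roots.toFinset with hS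
  have hprod : ∏ j, (P j).map (Int.castRingHom ℂ) * (Q j).map (Int.castRingHom ℂ) ≠ 0 :=
    Finset.prod_ne_zero_iff.2 fun j _ => mul_ne_zero (hP' j) (hQ' j)
  have hSP' : ∀ j c, ((P j).map (Int.castRingHom ℂ)).eval c = 0 → c ∈ S := by
    intro j c hc
    rw [hS, Multiset.mem_toFinset, mem_roots hprod, IsRoot.def, eval_prod]
    exact Finset.prod_eq_zero (Finset.mem_univ j) (by rw [eval_mul, hc, zero_mul])
  have hSQ' : ∀ j c, ((Q j).map (Int.castRingHom ℂ)).eval c = 0 → c ∈ S := by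
    intro j c hc
    rw [hS, Multiset.mem_toFinset, mem_roots hprod, IsRoot.def, eval_prod]
    exact Finset.prod_eq_zero (Finset.mem_univ j) (by rw [eval_mul, hc, mul_zero])
  have hSP : ∀ j, ∀ c ∈ ((P j).map (Int.castRingHom ℂ)).roots, c ∈ S := fun j c hc =>
    hSP' j c ((mem_roots (hP' j)).1 hc)
  have hSQ : ∀ j, ∀ c ∈ ((Q j).map (Int.castRingHom ℂ)).roots, c ∈ S := fun j c hc =>
    hSQ' j c ((mem_roots (hQ' j)).1 hc)
  set f : ℕ → Fin (s + 1) → ℂ → ℂ := fun m j =>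
    lR (dir m) ((P j).map (Int.castRingHom ℂ)) ((Q j).map (Int.castRingHom ℂ)) with hf
  have hfan : ∀ m j, AnalyticOnNhd ℂ (f m j) (Cut S (dir m)) := fun m j => lR_an (hSP j) (hSQ j)
  have hfind : ∀ m, Indep (Cut S (dir m)) (f m) := fun m =>
    logR_indep (cut_pc S (dir_ne m)) (cut_open S _) (cut_nonempty S (dir_ne m)) _ _ hP' hQ' hind (f m) (hfan m)
      fun j x hx => lR_exp (dir_ne m) (hP' j) (hQ' j) (hSP j) (hSQ j) hx
  -- the bound for the integers
  set N : ℕ := ∑ j, (((P j).map (Int.castRingHom ℂ)).roots.card + ((Q j).map (Int.castRingHom ℂ)).roots.card + 2) with hN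
  have hNj : ∀ j, ((P j).map (Int.castRingHom ℂ)).roots.card + ((Q j).map (Int.castRingHom ℂ)).roots.card + 2 ≤ N :=
    fun j => Finset.single_le_sum (f := fun j => ((P j).map (Int.castRingHom ℂ)).roots.card +
      ((Q j).map (Int.castRingHom ℂ)).roots.card + 2) (fun _ _ => Nat.zero_le _) (Finset.mem_univ j)
  set W : Finset (MvPolynomial (Fin g × Fin (s + 1)) ℂ) :=
    ((Finset.univ : Finset ((Fin (s + 1) → Fin g) × (Fin (s + 1) → Fin g) ×
      (Fin (s + 1) → Fin (s + 1) → Fin (2 * N + 1)))).image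
      fun D => FF (E1 D.1 D.2.1 fun t j => ((D.2.2 t j : ℕ) : ℤ) - N)
        (T1 D.1 D.2.1 fun t j => ((D.2.2 t j : ℕ) : ℤ) - N) (Sum.inl ())) with hW
  obtain ⟨ξ, k1, hξ⟩ := exists_xi W
  obtain ⟨c0, hc0, hcoeff⟩ := exists_coeff W
  obtain ⟨K, B, R, η, hkK, hK1, hη, T₀, H⟩ := all_cutB hg S f hfan hfind (max k k1)
  obtain ⟨b0, hb0⟩ := exists_nat_ge B
  refine ⟨b0 + 1, max (max 1 T₀) ⌈1 / c0⌉₊, fun T hT => ?_⟩
  have hT1 : 1 ≤ T := ((le_max_left _ _).trans (le_max_left _ _)).trans hT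
  have hT1' : (1 : ℝ) ≤ T := by exact_mod_cast hT1
  have hTc : 1 / c0 ≤ T := (Nat.le_ceil _).trans (by exact_mod_cast (le_max_right _ _).trans hT)
  have h1 := H T (((le_max_right _ _).trans (le_max_left _ _)).trans hT) ξ
  refine le_trans ?_ h1
  refine mul_le_mul (by exact_mod_cast le_max_left k k1) ?_ (Nat.cast_nonneg _) (Nat.cast_nonneg _)
  refine Nat.cast_le.2 (Finset.card_le_card fun a ha => ?_)
  rw [Finset.mem_filter] at ha ⊢
  refine ⟨ha.1, fun hgood => ha.2 ?_⟩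
  obtain ⟨m, -, z, hz, hinj, hcut, hR, hηz, hmea⟩ := hgood
  have hroot : ∀ x, (pol a).eval x = 0 → x ∈ Cut S (dir m) := by
    intro x hx
    obtain ⟨i, rfl⟩ := (IsRoots.root_iff hz).1 hx
    exact hcut i
  intro p hpinj hp
  have hi : ∀ t, ∃ i, z i = p t := fun t => (IsRoots.root_iff hz).1 (hp t).1
  have hi' : ∀ t, ∃ i, z i = (starRingEnd ℂ) (p t) := fun t => (IsRoots.root_iff hz).1 (pol_conj a _ (hp t).1)
  choose i hi using hi
  choose i' hi' using hi'
  have hn : ∀ t j, ∃ n : ℤ, |(n : ℝ)| ≤ N ∧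
      ((Real.log ‖((P j).map (Int.castRingHom ℂ)).eval (p t) / ((Q j).map (Int.castRingHom ℂ)).eval (p t)‖ : ℝ) : ℂ) =
        1 / 2 * (f m j (p t) + f m j ((starRingEnd ℂ) (p t))) + Real.pi * Complex.I * n := by
    intro t j
    obtain ⟨n, hn1, hn2⟩ := lR_re (dir_ne m) (hP' j) (hQ' j) (hSP j) (hSQ j) (hroot _ (hp t).1)
      (hroot _ (pol_conj a _ (hp t).1))
    refine ⟨n, hn1.trans ?_, hn2⟩
    exact_mod_cast hNj j
  choose n hn1 hn2 using hn
  have hnN : ∀ t j, ∃ u : Fin (2 * N + 1), n t j = ((u : ℕ) : ℤ) - N := by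
    intro t j
    have h2 := abs_le.1 (hn1 t j)
    have h3 : -(N : ℤ) ≤ n t j := by exact_mod_cast h2.1
    have h4 : n t j ≤ (N : ℤ) := by exact_mod_cast h2.2
    refine ⟨⟨(n t j + N).toNat, by omega⟩, ?_⟩
    simp only
    omega
  choose u hu using hnN
  have hsep : ∀ s t, s ≠ t → i s ≠ i t ∧ i s ≠ i' t ∧ i' s ≠ i' t := by
    refine fun s t hst => ⟨fun h => hst (hpinj ?_), fun h => hst (hpinj ?_), fun h => hst (hpinj ?_)⟩
    · rw [← hi s, ← hi t, h]
    · have h2 : p s = (starRingEnd ℂ) (p t) := by rw [← hi s, ← hi' t, h]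
      have h3 := congrArg Complex.im h2
      rw [Complex.conj_im] at h3
      have h4 := (hp s).2
      have h5 := (hp t).2
      have h6 : (p t).im = 0 := by linarith
      rw [h2]
      exact Complex.conj_eq_iff_im.2 h6
    · have h2 : (starRingEnd ℂ) (p s) = (starRingEnd ℂ) (p t) := by rw [← hi' s, ← hi' t, h]
      exact (starRingEnd ℂ).injective h2
  have hne : FF (E1 i i' n) (T1 i i' n) (Sum.inl ()) ≠ 0 := D1_ne i i' n hsep
  have hmem : FF (E1 i i' n) (T1 i i' n) (Sum.inl ()) ∈ W := by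
    rw [hW, Finset.mem_image]
    refine ⟨(i, i', u), Finset.mem_univ _, ?_⟩
    have h2 : (fun t j => ((u t j : ℕ) : ℤ) - N) = n := by
      funext t j
      exact (hu t j).symm
    simp only [h2]
  have hkk : k1 ≤ K := (le_max_right _ _).trans hkK
  obtain ⟨s0, hs0⟩ := hcoeff _ hmem hne
  have key := hmea.lin (K' := 0) (ι := Unit) hT1' (by simpa using hT1') hK1 (fun _ => FF (E1 i i' n) (T1 i i' n) (Sum.inl ()))
    (fun _ v => ((hξ _ hmem).1 v).trans hkk) (fun _ s hs => by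
    obtain ⟨b, hb, hb'⟩ := (hξ _ hmem).2 s hs
    exact ⟨b, hb.trans_le hkk, hb'⟩) (fun _ => 1) (fun _ => by simp) s0
  simp only [Int.cast_one, one_mul, Finset.univ_unique, Finset.sum_singleton] at key
  set v : Fin g × Fin (s + 1) → ℂ := fun q => f m q.2 (z q.1) with hv
  have hevE : ∀ t j, MvPolynomial.eval v (E1 i i' n t j) = (rowL P Q (p t) j : ℂ) := by
    intro t j
    induction j using Fin.cases with
    | zero =>
      show MvPolynomial.eval v 1 = ((1 : ℝ) : ℂ)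
      rw [map_one, Complex.ofReal_one]
    | succ j =>
      show MvPolynomial.eval v (EG i i' n t j) = ((Real.log ‖((P j).map (Int.castRingHom ℂ)).eval (p t) /
        ((Q j).map (Int.castRingHom ℂ)).eval (p t)‖ : ℝ) : ℂ)
      simp only [EG, map_add, map_mul, MvPolynomial.eval_C, MvPolynomial.eval_X]
      have h2 : v (i t, j) = f m j (p t) := by rw [← hi t]
      have h3 : v (i' t, j) = f m j ((starRingEnd ℂ) (p t)) := by rw [← hi' t]
      rw [hn2 t j, h2, h3]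
  have hval : MvPolynomial.aeval v (FF (E1 i i' n) (T1 i i' n) (Sum.inl ())) =
      ((-(Matrix.of fun t j : Fin (s + 1) => rowL P Q (p t) j.castSucc).det : ℝ) : ℂ) := by
    rw [MvPolynomial.aeval_eq_eval, FF_map]
    have h2 : ((-(Matrix.of fun t j : Fin (s + 1) => rowL P Q (p t) j.castSucc).det : ℝ) : ℂ) =
        Complex.ofRealHom (FF (fun t => rowL P Q (p t)) (fun _ _ => 0) (Sum.inl ())) := rfl
    rw [h2, FF_map]
    simp only [FF, hevE]
    rfl
  rw [hval, Complex.norm_real, norm_neg, Real.norm_eq_abs] at key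
  have hT0 : (0 : ℝ) < T := by linarith
  have h4 : (T : ℝ) ^ (-(b0 : ℝ)) * c0 ≤ (T : ℝ) ^ (-B) * ‖(FF (E1 i i' n) (T1 i i' n) (Sum.inl ())).coeff s0‖ :=
    mul_le_mul (Real.rpow_le_rpow_of_exponent_le hT1' (neg_le_neg hb0)) hs0 hc0.le (Real.rpow_nonneg hT0.le _)
  have h5 := h4.trans key
  rw [Real.rpow_neg hT0.le, Real.rpow_natCast] at h5
  have h6 : 1 ≤ (T : ℝ) * c0 := by
    rw [div_le_iff₀ hc0] at hTc
    exact hTc
  calc (1 : ℝ) ≤ T * c0 := h6
    _ = (T : ℝ) ^ (b0 + 1) * (((T : ℝ) ^ b0)⁻¹ * c0) := by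
      rw [pow_succ]
      field_simp
    _ ≤ _ := mul_le_mul_of_nonneg_left h5 (by positivity)

end Pool.Agent.X255.RH
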