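import Pool.Agent.X255.RH.Den6

/-!
# Density at almost all conjugates, with a column of ones
-/

set_option autoImplicit false
set_option linter.unusedSectionVars false

open Polynomial Filter Topology NumberField

namespace Pool.Agent.X255.RH

open Pool.Agent.Y890.SP Pool.Agent.X255.NP

/-- every vector of nonzero complex numbers is approximated, with the help of a power of `e`, absolute values only at
real points -/
def OKden1 {g s : ℕ} (P Q : Fin (s + 1) → ℤ[X]) (κ T : ℕ) (a : Fin (g + 1) → ℤ) : Prop :=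
  a (Fin.last g) ≠ 0 ∧
  (∀ z, (pol a).eval z = 0 → ∀ j, ((P j).map (Int.castRingHom ℂ)).eval z ≠ 0 ∧ ((Q j).map (Int.castRingHom ℂ)).eval z ≠ 0) ∧
  ∀ p : Fin (s + 1) → ℂ, Function.Injective p → (∀ t, (pol a).eval (p t) = 0 ∧ 0 ≤ (p t).im) →
    ∀ y : Fin (s + 1) → ℂ, (∀ t, y t ≠ 0) → ∃ (m₀ : ℤ) (m : Fin (s + 1) → ℤ), ∀ t, ∃ v : ℂ, ‖v‖ ≤ 1 / (T : ℝ) ^ κ ∧
      ‖∏ j, (((P j).map (Int.castRingHom ℂ)).eval (p t) / ((Q j).map (Int.castRingHom ℂ)).eval (p t)) ^ m j‖ *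
        Real.exp m₀ / ‖y t‖ = Real.exp v.re ∧
      ((starRingEnd ℂ) (p t) ≠ p t →
        (∏ j, (((P j).map (Int.castRingHom ℂ)).eval (p t) / ((Q j).map (Int.castRingHom ℂ)).eval (p t)) ^ m j) *
        Complex.exp m₀ / y t = Complex.exp v)

/-- from the logarithms to the numbers -/
theorem exp_close1 {s : ℕ} (f : Fin s → ℂ) (m₀ : ℤ) (m : Fin s → ℤ) (y : ℂ) (hy : y ≠ 0) {ε₁ : ℝ} (J : Prop)
    (h1 : |(m₀ : ℝ) + ∑ j, m j * (f j).re - Real.log ‖y‖| ≤ ε₁)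
    (h2 : J → ∃ k : ℤ, |∑ j, m j * ((f j).im / (2 * Real.pi)) - Complex.arg y / (2 * Real.pi) - k| ≤ ε₁) :
    ∃ v : ℂ, ‖v‖ ≤ 8 * ε₁ ∧ ‖∏ j, Complex.exp (f j) ^ m j‖ * Real.exp m₀ / ‖y‖ = Real.exp v.re ∧
      (J → (∏ j, Complex.exp (f j) ^ m j) * Complex.exp m₀ / y = Complex.exp v) := by
  have hprod : ∏ j, Complex.exp (f j) ^ m j = Complex.exp (∑ j, m j * f j) := by
    rw [Complex.exp_sum]
    refine Finset.prod_congr rfl fun j _ => ?_
    rw [← Complex.exp_int_mul]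
  have hre : (∑ j, (m j : ℂ) * f j).re = ∑ j, (m j : ℝ) * (f j).re := by
    rw [Complex.re_sum]
    refine Finset.sum_congr rfl fun j _ => ?_
    rw [← Complex.ofReal_intCast, Complex.re_ofReal_mul]
  have him : (∑ j, (m j : ℂ) * f j).im = ∑ j, (m j : ℝ) * (f j).im := by
    rw [Complex.im_sum]
    refine Finset.sum_congr rfl fun j _ => ?_
    rw [← Complex.ofReal_intCast, Complex.im_ofReal_mul]
  have hy' : 0 < ‖y‖ := norm_pos_iff.2 hy
  have hε0 : 0 ≤ ε₁ := (abs_nonneg _).trans h1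
  have hnorm : ‖∏ j, Complex.exp (f j) ^ m j‖ * Real.exp m₀ / ‖y‖ =
      Real.exp ((m₀ : ℝ) + ∑ j, m j * (f j).re - Real.log ‖y‖) := by
    rw [hprod, Complex.norm_exp, hre, Real.exp_sub, Real.exp_add, Real.exp_log hy']
    ring
  by_cases hJ : J
  swap
  · refine ⟨(((m₀ : ℝ) + ∑ j, m j * (f j).re - Real.log ‖y‖ : ℝ) : ℂ), ?_, ?_, fun h => absurd h hJ⟩
    · rw [Complex.norm_real, Real.norm_eq_abs]
      linarith
    · rw [hnorm, Complex.ofReal_re]
  obtain ⟨k, hk⟩ := h2 hJ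
  set v : ℂ := (m₀ : ℂ) + ∑ j, (m j : ℂ) * f j - Complex.log y - k * (2 * Real.pi * Complex.I) with hv
  have hvre : v.re = (m₀ : ℝ) + ∑ j, (m j : ℝ) * (f j).re - Real.log ‖y‖ := by
    have h5 : ((k : ℂ) * (2 * Real.pi * Complex.I)).re = 0 := by
      have : (k : ℂ) * (2 * Real.pi * Complex.I) = ((k * (2 * Real.pi) : ℝ) : ℂ) * Complex.I := by push_cast; ring
      rw [this, Complex.re_ofReal_mul, Complex.I_re, mul_zero]
    rw [hv, Complex.sub_re, Complex.sub_re, Complex.add_re, hre, Complex.log_re, h5, sub_zero, Complex.intCast_re]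
  have hvim : v.im = 2 * Real.pi * (∑ j, (m j : ℝ) * ((f j).im / (2 * Real.pi)) - Complex.arg y / (2 * Real.pi) - k) := by
    have h5 : ((k : ℂ) * (2 * Real.pi * Complex.I)).im = k * (2 * Real.pi) := by
      have : (k : ℂ) * (2 * Real.pi * Complex.I) = ((k * (2 * Real.pi) : ℝ) : ℂ) * Complex.I := by push_cast; ring
      rw [this, Complex.im_ofReal_mul, Complex.I_im, mul_one]
    have h6 : ∑ j, (m j : ℝ) * ((f j).im / (2 * Real.pi)) = (∑ j, (m j : ℝ) * (f j).im) / (2 * Real.pi) := by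
      rw [Finset.sum_div]
      refine Finset.sum_congr rfl fun j _ => ?_
      ring
    rw [hv, Complex.sub_im, Complex.sub_im, Complex.add_im, him, Complex.log_im, h5, h6, Complex.intCast_im]
    field_simp
    ring
  refine ⟨v, ?_, ?_, fun _ => ?_⟩
  · refine (Complex.norm_le_abs_re_add_abs_im v).trans ?_
    rw [hvre, hvim, abs_mul, abs_of_pos (by positivity : 0 < 2 * Real.pi)]
    have h7 : 2 * Real.pi ≤ 7 := by linarith [Real.pi_lt_d2]
    have h8 : 2 * Real.pi * |∑ j, (m j : ℝ) * ((f j).im / (2 * Real.pi)) - Complex.arg y / (2 * Real.pi) - k| ≤ 7 * ε₁ :=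
      mul_le_mul h7 hk (abs_nonneg _) (by norm_num)
    linarith
  · rw [hnorm, hvre]
  · rw [hprod, hv, Complex.exp_sub, Complex.exp_sub, Complex.exp_add, Complex.exp_log hy,
      Complex.exp_int_mul_two_pi_mul_I, div_one]
    ring

open scoped Classical in
theorem den_all1 {g s : ℕ} (hg : 0 < g) (P Q : Fin (s + 1) → ℤ[X]) (hP : ∀ j, P j ≠ 0) (hQ : ∀ j, Q j ≠ 0)
    (hind : ∀ (m n : Fin (s + 1) → ℕ) (c : ℂ),
      ∏ j, ((P j).map (Int.castRingHom ℂ)) ^ m j * ((Q j).map (Int.castRingHom ℂ)) ^ n j =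
      C c * ∏ j, ((P j).map (Int.castRingHom ℂ)) ^ n j * ((Q j).map (Int.castRingHom ℂ)) ^ m j → m = n) (b κ k : ℕ) :
    ∃ T₀ : ℕ, ∀ T : ℕ, T₀ ≤ T → (k : ℝ) * ((bx g T).filter fun a =>
      OKl1 P Q b T a ∧ ¬ OKden1 P Q κ T a).card ≤ (bx g T).card := by
  have hinjZ : Function.Injective (Int.castRingHom ℂ) := Int.cast_injective
  have hP' : ∀ j, (P j).map (Int.castRingHom ℂ) ≠ 0 := fun j h =>
    hP j ((Polynomial.map_eq_zero_iff hinjZ).1 h)
  have hQ' : ∀ j, (Q j).map (Int.castRingHom ℂ) ≠ 0 := fun j h =>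
    hQ j ((Polynomial.map_eq_zero_iff hinjZ).1 h)
  set S : Finset ℂ := (∏ j, (P j).map (Int.castRingHom ℂ) * (Q j).map (Int.castRingHom ℂ)).roots.toFinset with hS
  have hprod : ∏ j, (P j).map (Int.castRingHom ℂ) * (Q j).map (Int.castRingHom ℂ) ≠ 0 :=
    Finset.prod_ne_zero_iff.2 fun j _ => mul_ne_zero (hP' j) (hQ' j)
  have hSP' : ∀ j c, ((P j).map (Int.castRingHom ℂ)).eval c = 0 → c ∈ S := by
    intro j c hc
    rw [hS, Multiset.mem_toFinset, mem_roots hprod, IsRoot.def, eval_prod]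
    exact Finset.prod_eq_zero (Finset.mem_univ j) (by rw [eval_mul, hc, zero_mul])
  have hSQ' : ∀ j c, ((Q j).map (Int.castRingHom ℂ)).eval c = 0 → c ∈ S := by
    intro j c hc
    rw [hS, Multiset.mem_toFinset, mem_roots hprod, IsRoot.def, eval_prod]
    exact Finset.prod_eq_zero (Finset.mem_univ j) (by rw [eval_mul, hc, mul_zero])
  have hSP : ∀ j, ∀ c ∈ ((P j).map (Int.castRingHom ℂ)).roots, c ∈ S := fun j c hc =>
    hSP' j c ((mem_roots (hP' j)).1 hc)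
  have hSQ : ∀ j, ∀ c ∈ ((Q j).map (Int.castRingHom ℂ)).roots, c ∈ S := fun j c hc =>
    hSQ' j c ((mem_roots (hQ' j)).1 hc)
  set f : ℕ → Fin (s + 1) → ℂ → ℂ := fun m j =>
    lR (dir m) ((P j).map (Int.castRingHom ℂ)) ((Q j).map (Int.castRingHom ℂ)) with hf
  have hfan : ∀ m j, AnalyticOnNhd ℂ (f m j) (Cut S (dir m)) := fun m j => lR_an (hSP j) (hSQ j)
  have hfind : ∀ m, Indep (Cut S (dir m)) (f m) := fun m =>
    logR_indep (cut_pc S (dir_ne m)) (cut_open S _) (cut_nonempty S (dir_ne m)) _ _ hP' hQ' hind (f m) (hfan m)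
      fun j x hx => lR_exp (dir_ne m) (hP' j) (hQ' j) (hSP j) (hSQ j) hx
  -- the bound for the integers
  set N : ℕ := ∑ j, (((P j).map (Int.castRingHom ℂ)).roots.card + ((Q j).map (Int.castRingHom ℂ)).roots.card + 2) with hN
  have hNj : ∀ j, ((P j).map (Int.castRingHom ℂ)).roots.card + ((Q j).map (Int.castRingHom ℂ)).roots.card + 2 ≤ N :=
    fun j => Finset.single_le_sum (f := fun j => ((P j).map (Int.castRingHom ℂ)).roots.card +
      ((Q j).map (Int.castRingHom ℂ)).roots.card + 2) (fun _ _ => Nat.zero_le _) (Finset.mem_univ j)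
  set W : Finset (MvPolynomial (Fin g × Fin (s + 1)) ℂ) :=
    ((Finset.univ : Finset (((Fin (s + 1) → Fin g) × (Fin (s + 1) → Fin g) × (Fin (s + 1) → Fin (s + 1) → Fin (2 * N + 1))) ×
      (Unit ⊕ (Fin (s + 1) ⊕ Fin (s + 1))))).image
      fun D => FF (E1 D.1.1 D.1.2.1 fun t j => ((D.1.2.2 t j : ℕ) : ℤ) - N)
        (T1 D.1.1 D.1.2.1 fun t j => ((D.1.2.2 t j : ℕ) : ℤ) - N) D.2) with hW
  obtain ⟨ξ, k1, hξ⟩ := exists_xi W
  set K' : ℕ := 2 * κ + 3 + b with hK'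
  obtain ⟨K, B, R, η, hkK, hK1, hη, T₀, H⟩ := all_cutB hg S f hfan hfind (max k (max k1 (K' + 1)))
  -- the bound for the logarithms, independent of the direction
  have hCm : ∀ m j, ∃ C : ℝ, ∀ z : ℂ, ‖z‖ ≤ R → (∀ c ∈ S, η ≤ ‖z - c‖) → ‖f m j z‖ ≤ C := fun m j =>
    lR_bd (dir m) (dir_norm m) _ _ (hSP j) (hSQ j) R η hη
  choose Cm hCm using hCm
  set C0 : ℝ := ∑ m ∈ Finset.range (g * S.card + 1), ∑ j, |Cm m j| with hC0
  have hC0m : ∀ m < g * S.card + 1, ∀ j, ∀ z : ℂ, ‖z‖ ≤ R → (∀ c ∈ S, η ≤ ‖z - c‖) → ‖f m j z‖ ≤ C0 := by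
    intro m hm j z h1 h2
    refine (hCm m j z h1 h2).trans ((le_abs_self _).trans ?_)
    refine (Finset.single_le_sum (f := fun j => |Cm m j|) (fun _ _ => abs_nonneg _) (Finset.mem_univ j)).trans ?_
    exact Finset.single_le_sum (f := fun m => ∑ j, |Cm m j|) (fun _ _ => Finset.sum_nonneg fun _ _ => abs_nonneg _)
      (Finset.mem_range.2 hm)
  have hC00 : 0 ≤ C0 := Finset.sum_nonneg fun _ _ => Finset.sum_nonneg fun _ _ => abs_nonneg _
  obtain ⟨C1, hC10, hC1⟩ := poly_bd W C0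
  obtain ⟨T₁, hT₁⟩ := exists_nat_ge (max (16 * (1 + ((s + 1 : ℕ) : ℝ) * (C0 + 1))) (max (8 * ((s + 1 : ℕ) : ℝ) ^ 3 * C1) (max (4 * ((s + 1 : ℕ) : ℝ) ^ 2) (1 + 2 * ((s + 1 : ℕ) : ℝ)))))
  refine ⟨max (max 1 T₀) T₁, fun T hT => ?_⟩
  have hT1 : 1 ≤ T := ((le_max_left _ _).trans (le_max_left _ _)).trans hT
  have hT1' : (1 : ℝ) ≤ T := by exact_mod_cast hT1
  have hTT : max (16 * (1 + ((s + 1 : ℕ) : ℝ) * (C0 + 1))) (max (8 * ((s + 1 : ℕ) : ℝ) ^ 3 * C1) (max (4 * ((s + 1 : ℕ) : ℝ) ^ 2) (1 + 2 * ((s + 1 : ℕ) : ℝ)))) ≤ T :=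
    hT₁.trans (by exact_mod_cast (le_max_right _ _).trans hT)
  have hTa : 16 * (1 + ((s + 1 : ℕ) : ℝ) * (C0 + 1)) ≤ T := (le_max_left _ _).trans hTT
  have hTb : 8 * ((s + 1 : ℕ) : ℝ) ^ 3 * C1 ≤ T := ((le_max_left _ _).trans (le_max_right _ _)).trans hTT
  have hTc : 4 * ((s + 1 : ℕ) : ℝ) ^ 2 ≤ T :=
    ((le_max_left _ _).trans ((le_max_right _ _).trans (le_max_right _ _))).trans hTT
  have hTd : 1 + 2 * ((s + 1 : ℕ) : ℝ) ≤ T :=
    ((le_max_right _ _).trans ((le_max_right _ _).trans (le_max_right _ _))).trans hTT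
  have h1 := H T (((le_max_right _ _).trans (le_max_left _ _)).trans hT) ξ
  refine le_trans ?_ h1
  refine mul_le_mul (by exact_mod_cast le_max_left k _) ?_ (Nat.cast_nonneg _) (Nat.cast_nonneg _)
  refine Nat.cast_le.2 (Finset.card_le_card fun a ha => ?_)
  rw [Finset.mem_filter] at ha ⊢
  refine ⟨ha.1, fun hgood => ha.2.2 ?_⟩
  have hlow := ha.2.1
  obtain ⟨m, hmM, z, hz, hinj, hcut, hR, hηz, hmea⟩ := hgood
  have hroot : ∀ x, (pol a).eval x = 0 → x ∈ Cut S (dir m) := by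
    intro x hx
    obtain ⟨i, rfl⟩ := (IsRoots.root_iff hz).1 hx
    exact hcut i
  refine ⟨hz.1, fun x hx j => ⟨?_, ?_⟩, fun p hpinj hp y hy => ?_⟩
  · rw [← brl_exp (dir_ne m) (hP' j) (hSP j) (hroot x hx)]
    exact Complex.exp_ne_zero _
  · rw [← brl_exp (dir_ne m) (hQ' j) (hSQ j) (hroot x hx)]
    exact Complex.exp_ne_zero _
  have hi : ∀ t, ∃ i, z i = p t := fun t => (IsRoots.root_iff hz).1 (hp t).1
  have hi' : ∀ t, ∃ i, z i = (starRingEnd ℂ) (p t) := fun t => (IsRoots.root_iff hz).1 (pol_conj a _ (hp t).1)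
  choose i hi using hi
  choose i' hi' using hi'
  have hn : ∀ t j, ∃ n : ℤ, |(n : ℝ)| ≤ N ∧
      ((Real.log ‖((P j).map (Int.castRingHom ℂ)).eval (p t) / ((Q j).map (Int.castRingHom ℂ)).eval (p t)‖ : ℝ) : ℂ) =
        1 / 2 * (f m j (p t) + f m j ((starRingEnd ℂ) (p t))) + Real.pi * Complex.I * n := by
    intro t j
    obtain ⟨n, hn1, hn2⟩ := lR_re (dir_ne m) (hP' j) (hQ' j) (hSP j) (hSQ j) (hroot _ (hp t).1)
      (hroot _ (pol_conj a _ (hp t).1))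
    refine ⟨n, hn1.trans ?_, hn2⟩
    exact_mod_cast hNj j
  choose n hn1 hn2 using hn
  have hnN : ∀ t j, ∃ u : Fin (2 * N + 1), n t j = ((u : ℕ) : ℤ) - N := by
    intro t j
    have h2 := abs_le.1 (hn1 t j)
    have h3 : -(N : ℤ) ≤ n t j := by exact_mod_cast h2.1
    have h4 : n t j ≤ (N : ℤ) := by exact_mod_cast h2.2
    refine ⟨⟨(n t j + N).toNat, by omega⟩, ?_⟩
    simp only
    omega
  choose u hu using hnN
  have hsep : ∀ s t, s ≠ t → i s ≠ i t ∧ i s ≠ i' t ∧ i' s ≠ i' t := by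
    refine fun s t hst => ⟨fun h => hst (hpinj ?_), fun h => hst (hpinj ?_), fun h => hst (hpinj ?_)⟩
    · rw [← hi s, ← hi t, h]
    · have h2 : p s = (starRingEnd ℂ) (p t) := by rw [← hi s, ← hi' t, h]
      have h3 := congrArg Complex.im h2
      rw [Complex.conj_im] at h3
      have h4 := (hp s).2
      have h5 := (hp t).2
      have h6 : (p t).im = 0 := by linarith
      rw [h2]
      exact Complex.conj_eq_iff_im.2 h6
    · have h2 : (starRingEnd ℂ) (p s) = (starRingEnd ℂ) (p t) := by rw [← hi' s, ← hi' t, h]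
      exact (starRingEnd ℂ).injective h2
  have hmem : ∀ e, FF (E1 i i' n) (T1 i i' n) e ∈ W := by
    intro e
    rw [hW, Finset.mem_image]
    refine ⟨((i, i', u), e), Finset.mem_univ _, ?_⟩
    have h2 : (fun t j => ((u t j : ℕ) : ℤ) - N) = n := by
      funext t j
      exact (hu t j).symm
    simp only [h2]
  have hkk : k1 ≤ K := ((le_max_left _ _).trans (le_max_right _ _)).trans hkK
  have hkK' : K' + 1 ≤ K := ((le_max_right _ _).trans (le_max_right _ _)).trans hkK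
  -- the values
  have hfexp : ∀ t j, Complex.exp (f m j (p t)) = ((P j).map (Int.castRingHom ℂ)).eval (p t) /
      ((Q j).map (Int.castRingHom ℂ)).eval (p t) := by
    intro t j
    have h2 := lR_exp (dir_ne m) (hP' j) (hQ' j) (hSP j) (hSQ j) (hroot _ (hp t).1)
    have h3 : ((Q j).map (Int.castRingHom ℂ)).eval (p t) ≠ 0 := by
      rw [← brl_exp (dir_ne m) (hQ' j) (hSQ j) (hroot _ (hp t).1)]
      exact Complex.exp_ne_zero _
    exact (eq_div_iff h3).2 h2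
  set ℓ : Fin (s + 1) → Fin (s + 1 + 1) → ℝ := fun t => Fin.cons 1 fun j => (f m j (p t)).re with hℓ
  set θ : Fin (s + 1) → Fin (s + 1 + 1) → ℝ := fun t => Fin.cons 0 fun j => (f m j (p t)).im / (2 * Real.pi) with hθ
  have hlog : ∀ t j, Real.log ‖((P j).map (Int.castRingHom ℂ)).eval (p t) /
      ((Q j).map (Int.castRingHom ℂ)).eval (p t)‖ = (f m j (p t)).re := by
    intro t j
    rw [← hfexp, Complex.norm_exp, Real.log_exp]
  have hℓlog : ∀ t, rowL P Q (p t) = ℓ t := by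
    intro t
    unfold rowL
    simp only [hlog, hℓ]
  set v : Fin g × Fin (s + 1) → ℂ := fun q => f m q.2 (z q.1) with hv
  have hvb : ∀ q, ‖v q‖ ≤ C0 := fun q => hC0m m hmM q.2 _ (hR q.1) (hηz q.1)
  have hfb : ∀ t j, ‖f m j (p t)‖ ≤ C0 := by
    intro t j
    rw [← hi t]
    exact hvb (i t, j)
  have hℓb : ∀ t j, |ℓ t j| ≤ C0 + 1 := by
    intro t j
    induction j using Fin.cases with
    | zero =>
      show |(1 : ℝ)| ≤ _
      rw [abs_one]
      linarith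
    | succ j =>
      show |(f m j (p t)).re| ≤ _
      have := (Complex.abs_re_le_norm _).trans (hfb t j)
      linarith
  have hθb : ∀ t j, |θ t j| ≤ C0 + 1 := by
    intro t j
    induction j using Fin.cases with
    | zero =>
      show |(0 : ℝ)| ≤ _
      rw [abs_zero]
      linarith
    | succ j =>
      show |(f m j (p t)).im / (2 * Real.pi)| ≤ _
      rw [abs_div, abs_of_pos (by positivity : 0 < 2 * Real.pi)]
      have h2 := (Complex.abs_im_le_norm _).trans (hfb t j)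
      have h3 : |(f m j (p t)).im| / (2 * Real.pi) ≤ C0 := by
        refine (div_le_self (abs_nonneg _) ?_).trans h2
        linarith [Real.two_le_pi]
      linarith
  have hevE0 : ∀ t j, MvPolynomial.eval v (EG i i' n t j) = ((f m j (p t)).re : ℂ) := by
    intro t j
    simp only [EG, map_add, map_mul, MvPolynomial.eval_C, MvPolynomial.eval_X]
    have h2 : v (i t, j) = f m j (p t) := by rw [← hi t]
    have h3 : v (i' t, j) = f m j ((starRingEnd ℂ) (p t)) := by rw [← hi' t]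
    rw [← hlog, hn2 t j, h2, h3]
  have hevE : ∀ t j, MvPolynomial.eval v (E1 i i' n t j) = (ℓ t j : ℂ) := by
    intro t j
    induction j using Fin.cases with
    | zero =>
      show MvPolynomial.eval v 1 = ((1 : ℝ) : ℂ)
      rw [map_one, Complex.ofReal_one]
    | succ j => exact hevE0 t j
  have hevT : ∀ t j, MvPolynomial.eval v (T1 i i' n t j) = (θ t j : ℂ) := by
    intro t j
    induction j using Fin.cases with
    | zero =>
      show MvPolynomial.eval v 0 = ((0 : ℝ) : ℂ)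
      rw [map_zero, Complex.ofReal_zero]
    | succ j =>
      show MvPolynomial.eval v (TG i i' n t j) = (((f m j (p t)).im / (2 * Real.pi) : ℝ) : ℂ)
      simp only [TG, map_sub, map_mul, MvPolynomial.eval_C, MvPolynomial.eval_X, hevE0]
      have h2 : v (i t, j) - ((f m j (p t)).re : ℂ) = ((f m j (p t)).im : ℂ) * Complex.I := by
        have h3 : v (i t, j) = f m j (p t) := by rw [← hi t]
        have h4 := Complex.re_add_im (f m j (p t))
        rw [h3]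
        linear_combination (-1 : ℂ) * h4
      rw [h2]
      push_cast
      have h3 : (Real.pi : ℂ) ≠ 0 := Complex.ofReal_ne_zero.2 Real.pi_ne_zero
      field_simp
  have hFF : ∀ e, MvPolynomial.eval v (FF (E1 i i' n) (T1 i i' n) e) = ((FF ℓ θ e : ℝ) : ℂ) := by
    intro e
    have h2 : ((FF ℓ θ e : ℝ) : ℂ) = Complex.ofRealHom (FF ℓ θ e) := rfl
    rw [FF_map, h2, FF_map]
    simp only [hevE, hevT]
    rfl
  have hFFb : ∀ e, |FF ℓ θ e| ≤ C1 := by
    intro e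
    have h2 := hC1 _ (hmem e) v hvb
    rw [hFF, Complex.norm_real] at h2
    exact h2
  have hdet1 : 1 ≤ (T : ℝ) ^ b * |FF ℓ θ (Sum.inl ())| := by
    have h2 := hlow p hpinj hp
    simp only [hℓlog] at h2
    rw [show FF ℓ θ (Sum.inl ()) = -(Matrix.of fun t j : Fin (s + 1) => ℓ t j.castSucc).det from rfl, abs_neg]
    exact h2
  have hdet : (Matrix.of fun t j : Fin (s + 1) => ℓ t j.castSucc).det ≠ 0 := by
    intro h2
    rw [show FF ℓ θ (Sum.inl ()) = -(Matrix.of fun t j : Fin (s + 1) => ℓ t j.castSucc).det from rfl, h2, neg_zero, abs_zero,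
      mul_zero] at hdet1
    linarith
  have hT0 : (0 : ℝ) < T := by linarith
  have hs : 1 ≤ s + 1 := Nat.le_add_left 1 s
  have hs1 : (1 : ℝ) ≤ ((s + 1 : ℕ) : ℝ) := by exact_mod_cast hs
  have hcardu : (Finset.univ : Finset (Fin (s + 1) ⊕ Fin (s + 1))).card = 2 * (s + 1) := by
    rw [Finset.card_univ, Fintype.card_sum, Fintype.card_fin]
    ring
  have hnz : ∀ c : Unit ⊕ (Fin (s + 1) ⊕ Fin (s + 1)) → ℤ, (∃ v, c (Sum.inr v) ≠ 0) →
      (∀ v, |c (Sum.inr v)| ≤ 2 * ((s + 1 : ℕ) : ℤ) * ((2 * (s + 1) * T ^ (2 * κ + 2) : ℕ) : ℤ)) →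
      (∀ t, ¬ ((starRingEnd ℂ) (p t) ≠ p t) → c (Sum.inr (Sum.inr t)) = 0) → ∑ e, (c e : ℝ) * FF ℓ θ e ≠ 0 := by
    intro c hc hcb hc0 h0
    have hcb' : ∀ v, |(c (Sum.inr v) : ℝ)| ≤ 4 * ((s + 1 : ℕ) : ℝ) ^ 2 * (T : ℝ) ^ (2 * κ + 2) := by
      intro v
      have h2 : ((|c (Sum.inr v)| : ℤ) : ℝ) ≤ ((2 * ((s + 1 : ℕ) : ℤ) * ((2 * (s + 1) * T ^ (2 * κ + 2) : ℕ) : ℤ) : ℤ) : ℝ) := by
        exact_mod_cast hcb v
      rw [Int.cast_abs] at h2
      refine h2.trans (le_of_eq ?_)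
      push_cast
      ring
    have h2 : (c (Sum.inl ()) : ℝ) * FF ℓ θ (Sum.inl ()) = -∑ v, (c (Sum.inr v) : ℝ) * FF ℓ θ (Sum.inr v) := by
      rw [Fintype.sum_sum_type] at h0
      simp only [Finset.univ_unique, Finset.sum_singleton] at h0
      have h5 : (default : Unit) = () := rfl
      rw [h5] at h0
      linarith
    have h3 : |∑ v, (c (Sum.inr v) : ℝ) * FF ℓ θ (Sum.inr v)| ≤ 8 * ((s + 1 : ℕ) : ℝ) ^ 3 * C1 * (T : ℝ) ^ (2 * κ + 2) := by
      refine (Finset.abs_sum_le_sum_abs _ _).trans ?_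
      calc ∑ v, |(c (Sum.inr v) : ℝ) * FF ℓ θ (Sum.inr v)| ≤
          ∑ _v : Fin (s + 1) ⊕ Fin (s + 1), 4 * ((s + 1 : ℕ) : ℝ) ^ 2 * (T : ℝ) ^ (2 * κ + 2) * C1 := Finset.sum_le_sum fun v _ => by
            rw [abs_mul]
            exact mul_le_mul (hcb' v) (hFFb _) (abs_nonneg _) (by positivity)
        _ = _ := by
          rw [Finset.sum_const, hcardu, nsmul_eq_mul]
          push_cast
          ring
    have hb0 : |(c (Sum.inl ()) : ℝ)| ≤ (T : ℝ) ^ K' := by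
      calc |(c (Sum.inl ()) : ℝ)| = |(c (Sum.inl ()) : ℝ)| * 1 := (mul_one _).symm
        _ ≤ |(c (Sum.inl ()) : ℝ)| * ((T : ℝ) ^ b * |FF ℓ θ (Sum.inl ())|) :=
          mul_le_mul_of_nonneg_left hdet1 (abs_nonneg _)
        _ = (T : ℝ) ^ b * |(c (Sum.inl ()) : ℝ) * FF ℓ θ (Sum.inl ())| := by rw [abs_mul]; ring
        _ ≤ (T : ℝ) ^ b * (8 * ((s + 1 : ℕ) : ℝ) ^ 3 * C1 * (T : ℝ) ^ (2 * κ + 2)) := by
          rw [h2, abs_neg]
          exact mul_le_mul_of_nonneg_left h3 (by positivity)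
        _ ≤ (T : ℝ) ^ b * (T * (T : ℝ) ^ (2 * κ + 2)) := by
          refine mul_le_mul_of_nonneg_left (mul_le_mul_of_nonneg_right hTb (by positivity)) (by positivity)
        _ = (T : ℝ) ^ K' := by
          rw [hK']
          ring
    have hball : ∀ e, |(c e : ℝ)| ≤ (T : ℝ) ^ K' := by
      rintro (e | e)
      · exact hb0
      · refine (hcb' e).trans ?_
        calc 4 * ((s + 1 : ℕ) : ℝ) ^ 2 * (T : ℝ) ^ (2 * κ + 2) ≤ T * (T : ℝ) ^ (2 * κ + 2) :=
              mul_le_mul_of_nonneg_right hTc (by positivity)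
          _ = (T : ℝ) ^ (2 * κ + 3) := by ring
          _ ≤ (T : ℝ) ^ K' := pow_le_pow_right₀ hT1' (by omega)
    have hc0' : ∀ t, i t = i' t → c (Sum.inr (Sum.inr t)) = 0 := by
      intro t ht
      refine hc0 t fun hne => hne ?_
      rw [← hi' t, ← hi t, ht]
    obtain ⟨s0, hs0⟩ := MvPolynomial.support_nonempty.2 (PN_ne1 i i' n hsep c hc hc0')
    rw [MvPolynomial.mem_support_iff, MvPolynomial.coeff_sum] at hs0
    simp only [MvPolynomial.coeff_C_mul] at hs0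
    have key := hmea.lin (K' := K') (ι := Unit ⊕ (Fin (s + 1) ⊕ Fin (s + 1))) hT1' (by
      rw [Fintype.card_sum, Fintype.card_sum, Fintype.card_fin, Fintype.card_unit]
      have h9 : ((1 + (s + 1 + (s + 1)) : ℕ) : ℝ) = 1 + 2 * ((s + 1 : ℕ) : ℝ) := by push_cast; ring
      rw [h9]
      exact hTd) hkK' (fun e => FF (E1 i i' n) (T1 i i' n) e)
      (fun e v => ((hξ _ (hmem e)).1 v).trans hkk) (fun e s hs => by
        obtain ⟨b, hb, hb'⟩ := (hξ _ (hmem e)).2 s hs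
        exact ⟨b, hb.trans_le hkk, hb'⟩) c hball s0
    have h4 : ∑ e, (c e : ℂ) * MvPolynomial.aeval v (FF (E1 i i' n) (T1 i i' n) e) =
        ((∑ e, (c e : ℝ) * FF ℓ θ e : ℝ) : ℂ) := by
      push_cast
      refine Finset.sum_congr rfl fun e _ => ?_
      rw [MvPolynomial.aeval_eq_eval, hFF]
    rw [h4, h0, Complex.ofReal_zero, norm_zero] at key
    have h5 : 0 < (T : ℝ) ^ (-B) := Real.rpow_pos_of_pos hT0 _
    have h6 := mul_pos h5 (norm_pos_iff.2 hs0)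
    linarith
  have hεN : (2 * ((s + 1 : ℕ) : ℝ) : ℝ) < 4 * (1 / (T : ℝ) ^ (κ + 1)) ^ 2 * ((2 * (s + 1) * T ^ (2 * κ + 2) : ℕ) : ℝ) := by
    have h2 : 4 * (1 / (T : ℝ) ^ (κ + 1)) ^ 2 * ((2 * (s + 1) * T ^ (2 * κ + 2) : ℕ) : ℝ) = 8 * ((s + 1 : ℕ) : ℝ) := by
      have h3 : (T : ℝ) ^ (2 * κ + 2) = ((T : ℝ) ^ (κ + 1)) ^ 2 := by ring
      push_cast
      rw [h3]
      field_simp
      ring
    rw [h2]
    linarith
  obtain ⟨mm, h2, h3⟩ := dens_core hs (fun t => (starRingEnd ℂ) (p t) ≠ p t) ℓ θ hℓb hθb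
    (ε := 1 / (T : ℝ) ^ (κ + 1)) (by positivity) (N := 2 * (s + 1) * T ^ (2 * κ + 2))
    (Nat.mul_pos (by omega) (Nat.pow_pos (by omega))) hεN hdet hnz (fun t => Real.log ‖y t‖)
    (fun t => Complex.arg (y t) / (2 * Real.pi))
  refine ⟨mm 0, fun j => mm j.succ, fun t => ?_⟩
  have h16 : 16 * ((1 + ((s + 1 : ℕ) : ℝ) * (C0 + 1)) * (1 / (T : ℝ) ^ (κ + 1))) ≤ 1 / (T : ℝ) ^ κ := by
    calc 16 * ((1 + ((s + 1 : ℕ) : ℝ) * (C0 + 1)) * (1 / (T : ℝ) ^ (κ + 1))) =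
          (16 * (1 + ((s + 1 : ℕ) : ℝ) * (C0 + 1))) * (1 / (T : ℝ) ^ (κ + 1)) := by ring
      _ ≤ T * (1 / (T : ℝ) ^ (κ + 1)) := mul_le_mul_of_nonneg_right hTa (by positivity)
      _ = 1 / (T : ℝ) ^ κ := by
        rw [pow_succ]
        field_simp
  have hle : ((s + 1 : ℕ) : ℝ) * (C0 + 1) * (1 / (T : ℝ) ^ (κ + 1)) ≤ (1 + ((s + 1 : ℕ) : ℝ) * (C0 + 1)) * (1 / (T : ℝ) ^ (κ + 1)) :=
    mul_le_mul_of_nonneg_right (by linarith) (by positivity)
  have h5 : ((mm 0 : ℤ) : ℝ) + ∑ j : Fin (s + 1), (mm j.succ : ℝ) * (f m j (p t)).re =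
      ∑ j, (mm j : ℝ) * ℓ t j := by
    rw [Fin.sum_univ_succ (fun j => (mm j : ℝ) * ℓ t j)]
    show _ = (mm 0 : ℝ) * 1 + ∑ j : Fin (s + 1), (mm j.succ : ℝ) * (f m j (p t)).re
    rw [mul_one]
  have h6 : ∑ j : Fin (s + 1), (mm j.succ : ℝ) * ((f m j (p t)).im / (2 * Real.pi)) = ∑ j, (mm j : ℝ) * θ t j := by
    rw [Fin.sum_univ_succ (fun j => (mm j : ℝ) * θ t j)]
    show _ = (mm 0 : ℝ) * 0 + ∑ j : Fin (s + 1), (mm j.succ : ℝ) * ((f m j (p t)).im / (2 * Real.pi))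
    rw [mul_zero, zero_add]
  obtain ⟨w, hw1, hw2, hw3⟩ := exp_close1 (fun j => f m j (p t)) (mm 0) (fun j => mm j.succ) (y t) (hy t)
    (ε₁ := (1 + ((s + 1 : ℕ) : ℝ) * (C0 + 1)) * (1 / (T : ℝ) ^ (κ + 1))) ((starRingEnd ℂ) (p t) ≠ p t) (by rw [h5]; exact (h2 t).trans hle) (fun hJ => by
      obtain ⟨k, hk⟩ := h3 t hJ
      exact ⟨k, by rw [h6]; exact hk⟩)
  simp only [hfexp] at hw2 hw3
  refine ⟨w, hw1.trans ?_, hw2, hw3⟩
  have h7 : 0 ≤ (1 + ((s + 1 : ℕ) : ℝ) * (C0 + 1)) * (1 / (T : ℝ) ^ (κ + 1)) := by positivity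
  linarith

end Pool.Agent.X255.RH
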