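import Pool.Agent.X255.RH.Den7

/-!
# Nearly dense subgroups of norm one tori
-/

set_option autoImplicit false
set_option linter.unusedSectionVars false

open Polynomial Filter Topology NumberField

namespace Pool.Agent.X255.RH

open Pool.Agent.Y890.SP Pool.Agent.X255.NP

open scoped Classical in
theorem den_one1 {g s : ℕ} (hg : 0 < g) (P Q : Fin (s + 1) → ℤ[X]) (hP : ∀ j, P j ≠ 0) (hQ : ∀ j, Q j ≠ 0)
    (hind : ∀ (m n : Fin (s + 1) → ℕ) (c : ℂ),
      ∏ j, ((P j).map (Int.castRingHom ℂ)) ^ m j * ((Q j).map (Int.castRingHom ℂ)) ^ n j =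
      C c * ∏ j, ((P j).map (Int.castRingHom ℂ)) ^ n j * ((Q j).map (Int.castRingHom ℂ)) ^ m j → m = n) (κ k : ℕ) :
    ∃ T₀ : ℕ, ∀ T : ℕ, T₀ ≤ T → (k : ℝ) * ((bx g T).filter fun a => ¬ OKden1 P Q κ T a).card ≤ (bx g T).card := by
  obtain ⟨b, T₁, h1⟩ := det_low1 hg P Q hP hQ hind (2 * k)
  obtain ⟨T₂, h2⟩ := den_all1 hg P Q hP hQ hind b κ (2 * k)
  refine ⟨max T₁ T₂, fun T hT => ?_⟩
  have h3 := h1 T ((le_max_left _ _).trans hT)
  have h4 := h2 T ((le_max_right _ _).trans hT)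
  have h5 : ((bx g T).filter fun a => ¬ OKden1 P Q κ T a).card ≤
      ((bx g T).filter fun a => ¬ OKl1 P Q b T a).card +
      ((bx g T).filter fun a => OKl1 P Q b T a ∧ ¬ OKden1 P Q κ T a).card := by
    refine (Finset.card_le_card fun a ha => ?_).trans (Finset.card_union_le _ _)
    rw [Finset.mem_filter] at ha
    rw [Finset.mem_union, Finset.mem_filter, Finset.mem_filter]
    by_cases h6 : OKl1 P Q b T a
    · exact Or.inr ⟨ha.1, h6, ha.2⟩
    · exact Or.inl ⟨ha.1, h6⟩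
  have h6 : (((bx g T).filter fun a => ¬ OKden1 P Q κ T a).card : ℝ) ≤
      (((bx g T).filter fun a => ¬ OKl1 P Q b T a).card : ℝ) +
      (((bx g T).filter fun a => OKl1 P Q b T a ∧ ¬ OKden1 P Q κ T a).card : ℝ) := by
    exact_mod_cast h5
  push_cast at h3 h4
  have h7 : 0 ≤ (k : ℝ) := Nat.cast_nonneg k
  have h8 := mul_le_mul_of_nonneg_left h6 h7
  linarith

/-- injective families -/
def OKe1 {g r : ℕ} (P Q : Fin r → ℤ[X]) (κ s : ℕ) (e : Fin (s + 1) → Fin r) (T : ℕ) (a : Fin (g + 1) → ℤ) : Prop :=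
  Function.Injective e → OKden1 (fun j => P (e j)) (fun j => Q (e j)) κ T a

def OKs1 {g r : ℕ} (P Q : Fin r → ℤ[X]) (κ : ℕ) (s : Fin r) (T : ℕ) (a : Fin (g + 1) → ℤ) : Prop :=
  AllG (OKe1 P Q κ (s : ℕ)) T a

open scoped Classical in
theorem den_sub1 {g r : ℕ} (hg : 0 < g) (P Q : Fin r → ℤ[X]) (hP : ∀ j, P j ≠ 0) (hQ : ∀ j, Q j ≠ 0)
    (hind : ∀ (m n : Fin r → ℕ) (c : ℂ), ∏ j, ((P j).map (Int.castRingHom ℂ)) ^ m j * ((Q j).map (Int.castRingHom ℂ)) ^ n j =
      C c * ∏ j, ((P j).map (Int.castRingHom ℂ)) ^ n j * ((Q j).map (Int.castRingHom ℂ)) ^ m j → m = n) (κ k : ℕ) :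
    ∃ T₀ : ℕ, ∀ T : ℕ, T₀ ≤ T → (k : ℝ) * ((bx g T).filter fun a => ¬ AllG (OKs1 P Q κ) T a).card ≤ (bx g T).card := by
  refine union_all (OKs1 P Q κ) (fun s k => ?_) k
  refine union_all (OKe1 P Q κ (s : ℕ)) (fun e k => ?_) k
  by_cases he : Function.Injective e
  · obtain ⟨T₀, h⟩ := den_one1 hg (fun j => P (e j)) (fun j => Q (e j)) (fun _ => hP _) (fun _ => hQ _)
      (ind_sub hind e he) κ k
    refine ⟨T₀, fun T hT => le_trans ?_ (h T hT)⟩
    refine mul_le_mul_of_nonneg_left (Nat.cast_le.2 (Finset.card_le_card fun a ha => ?_)) (Nat.cast_nonneg _)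
    rw [Finset.mem_filter] at ha ⊢
    exact ⟨ha.1, fun h1 => ha.2 fun _ => h1⟩
  · refine ⟨0, fun T _ => ?_⟩
    rw [Finset.card_eq_zero.2, Nat.cast_zero, mul_zero]
    · exact Nat.cast_nonneg _
    · rw [Finset.filter_eq_empty_iff]
      intro a _ h1
      exact h1 fun h2 => absurd h2 he

section
variable {K : Type} [Field K] [NumberField K]

theorem dens_nf1 {α : K} (hα : IntermediateField.adjoin ℚ {α} = ⊤) {g s : ℕ} {a : Fin (g + 1) → ℤ}
    (hroot : aeval α (polZ a) = 0) (P Q : Fin (s + 1) → ℤ[X]) {κ T : ℕ} (h : OKden1 P Q κ T a)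
    (hs : Fintype.card (InfinitePlace K) = s + 1) :
    (∀ j, aeval α (P j) ≠ 0 ∧ aeval α (Q j) ≠ 0) ∧ ∀ y : InfinitePlace K → ℂ, (∀ w, y w ≠ 0) →
      ∃ (m₀ : ℤ) (m : Fin (s + 1) → ℤ), ∀ w : InfinitePlace K, ∃ v : ℂ, ‖v‖ ≤ 1 / (T : ℝ) ^ κ ∧
        w (∏ j, (aeval α (P j) / aeval α (Q j)) ^ m j) * Real.exp m₀ / ‖y w‖ = Real.exp v.re ∧
        (w.IsComplex → w.embedding (∏ j, (aeval α (P j) / aeval α (Q j)) ^ m j) * Complex.exp m₀ / y w =
          Complex.exp v) := by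
  classical
  have hw0 : Nonempty (InfinitePlace K) := inferInstance
  have hne : ∀ j, aeval α (P j) ≠ 0 ∧ aeval α (Q j) ≠ 0 := by
    intro j
    obtain ⟨w⟩ := hw0
    have h1 := h.2.1 _ (hom_root hroot w.embedding) j
    rw [← hom_aeval, ← hom_aeval] at h1
    exact ⟨fun h0 => h1.1 (by rw [h0, map_zero]), fun h0 => h1.2 (by rw [h0, map_zero])⟩
  refine ⟨hne, fun y hy => ?_⟩
  let e : InfinitePlace K ≃ Fin (s + 1) := Fintype.equivFinOfCardEq hs
  obtain ⟨m₀, m, hm⟩ := h.2.2 (fun t => up α (e.symm t)) ((up_inj hα).comp e.symm.injective)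
    (fun t => ⟨up_root hroot _, up_im _ _⟩)
    (fun t => if 0 ≤ ((e.symm t).embedding α).im then y (e.symm t) else (starRingEnd ℂ) (y (e.symm t)))
    (fun t => by
      split_ifs
      · exact hy _
      · exact (_root_.map_ne_zero _).2 (hy _))
  refine ⟨m₀, m, fun w => ?_⟩
  obtain ⟨v, hv, h1, h1'⟩ := hm (e w)
  simp only [Equiv.symm_apply_apply] at h1 h1'
  set x : K := ∏ j, (aeval α (P j) / aeval α (Q j)) ^ m j with hx
  have h2 : ∏ j, (((P j).map (Int.castRingHom ℂ)).eval (up α w) / ((Q j).map (Int.castRingHom ℂ)).eval (up α w)) ^ m j =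
      if 0 ≤ (w.embedding α).im then w.embedding x else (starRingEnd ℂ) (w.embedding x) := by
    unfold up
    split_ifs
    · rw [hx, map_prod]
      refine Finset.prod_congr rfl fun j _ => ?_
      rw [map_zpow₀, map_div₀, hom_aeval, hom_aeval]
    · rw [hx, map_prod, map_prod]
      refine Finset.prod_congr rfl fun j _ => ?_
      rw [map_zpow₀, map_div₀, hom_aeval, hom_aeval, map_zpow₀, map_div₀, eval_conj, eval_conj]
  rw [h2] at h1 h1'
  by_cases hc : 0 ≤ (w.embedding α).im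
  · simp only [if_pos hc] at h1 h1'
    refine ⟨v, hv, ?_, fun hw => h1' (up_ne_conj hα hw)⟩
    rw [← InfinitePlace.norm_embedding_eq]
    exact h1
  · simp only [if_neg hc] at h1 h1'
    refine ⟨(starRingEnd ℂ) v, ?_, ?_, fun hw => ?_⟩
    · rw [Complex.norm_conj]
      exact hv
    · rw [← InfinitePlace.norm_embedding_eq, Complex.conj_re, ← h1, Complex.norm_conj, Complex.norm_conj]
    · have h3 := congrArg (starRingEnd ℂ) (h1' (up_ne_conj hα hw))
      rw [map_div₀, map_mul, Complex.conj_conj, Complex.conj_conj, ← Complex.exp_conj, ← Complex.exp_conj,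
        map_intCast] at h3
      exact h3

/-- the homomorphism `u ↦ u ^ d / N(u)` -/
noncomputable def φN (K : Type) [Field K] [NumberField K] : Kˣ →* Kˣ :=
  (powMonoidHom (Module.finrank ℚ K)) / ((Units.map (algebraMap ℚ K).toMonoidHom).comp (Units.map (Algebra.norm ℚ)))

theorem φN_apply (u : Kˣ) : ((φN K u : Kˣ) : K) = (u : K) ^ Module.finrank ℚ K / (Algebra.norm ℚ (u : K) : K) := by
  unfold φN
  rw [MonoidHom.div_apply, Units.val_div_eq_div_val]
  congr 1

open scoped Classical in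
/-- the identity component of the norm one torus is nearly filled by the group -/
theorem dens_norm1 {α : K} (hα : IntermediateField.adjoin ℚ {α} = ⊤) {g s : ℕ} {a : Fin (g + 1) → ℤ}
    (hroot : aeval α (polZ a) = 0) (P Q : Fin (s + 1) → ℤ[X]) {κ T : ℕ} (hT : 8 * Module.finrank ℚ K ≤ T)
    (h : OKden1 P Q (κ + 1) T a) (hs : Fintype.card (InfinitePlace K) = s + 1) (u : Fin (s + 1) → Kˣ)
    (hu : ∀ j, (u j : K) = aeval α (P j) / aeval α (Q j))
    (y : (mixedEmbedding.mixedSpace K)ˣ) (hy : ∀ w, 0 < (y : mixedEmbedding.mixedSpace K).1 w)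
    (hyN : mixedEmbedding.norm (y : mixedEmbedding.mixedSpace K) = 1) :
    ∃ x ∈ (Subgroup.closure (Set.range fun j => φN K (u j))).map (Units.map (mixedEmbedding K).toMonoidHom),
      ‖((x / y : (mixedEmbedding.mixedSpace K)ˣ) : mixedEmbedding.mixedSpace K) - 1‖ ≤ 1 / (T : ℝ) ^ κ := by
  set d : ℕ := Module.finrank ℚ K with hd
  have hd1 : 1 ≤ d := Module.finrank_pos
  have hd1' : (1 : ℝ) ≤ d := by exact_mod_cast hd1
  have hT8 : 8 * (d : ℝ) ≤ T := by exact_mod_cast hT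
  have hT0 : (0 : ℝ) < T := by linarith
  set ε : ℝ := 1 / (T : ℝ) ^ (κ + 1) with hε
  have hε0 : 0 ≤ ε := by positivity
  have h8 : 8 * d * ε ≤ 1 / (T : ℝ) ^ κ := by
    calc 8 * d * ε ≤ T * ε := mul_le_mul_of_nonneg_right hT8 hε0
      _ = 1 / (T : ℝ) ^ κ := by
        rw [hε, pow_succ]
        field_simp
  have hκ1 : 1 / (T : ℝ) ^ κ ≤ 1 := by
    rw [div_le_one (by positivity)]
    exact one_le_pow₀ (by linarith)
  -- the target
  have hyne : ∀ w (hw : InfinitePlace.IsComplex w), (y : mixedEmbedding.mixedSpace K).2 ⟨w, hw⟩ ≠ 0 := by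
    intro w hw h0
    have h1 := congrArg (fun v : mixedEmbedding.mixedSpace K => v.2 ⟨w, hw⟩) y.mul_inv
    simp only [Prod.snd_mul, Pi.mul_apply, h0, zero_mul, Prod.snd_one, Pi.one_apply] at h1
    exact zero_ne_one h1
  have hz : ∀ w : InfinitePlace K, ∃ z : ℂ, z ≠ 0 ∧
      (∀ hw : w.IsReal, z ^ (2 * d) = ((y : mixedEmbedding.mixedSpace K).1 ⟨w, hw⟩ : ℂ)) ∧
      ∀ hw : w.IsComplex, z ^ (2 * d) = (y : mixedEmbedding.mixedSpace K).2 ⟨w, hw⟩ := by
    intro w
    have h2d : 2 * d ≠ 0 := by omega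
    rcases w.isReal_or_isComplex with hw | hw
    · obtain ⟨z, hz⟩ := IsAlgClosed.exists_pow_nat_eq (((y : mixedEmbedding.mixedSpace K).1 ⟨w, hw⟩ : ℝ) : ℂ) (n := 2 * d)
        (by omega)
      refine ⟨z, fun h0 => ?_, fun _ => hz, fun hw' => absurd hw (InfinitePlace.not_isReal_iff_isComplex.2 hw')⟩
      rw [h0, zero_pow h2d] at hz
      exact (hy ⟨w, hw⟩).ne (by exact_mod_cast hz)
    · obtain ⟨z, hz⟩ := IsAlgClosed.exists_pow_nat_eq ((y : mixedEmbedding.mixedSpace K).2 ⟨w, hw⟩) (n := 2 * d)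
        (by omega)
      refine ⟨z, fun h0 => ?_, fun hw' => absurd hw' (InfinitePlace.not_isReal_iff_isComplex.2 hw), fun _ => hz⟩
      rw [h0, zero_pow h2d] at hz
      exact hyne w hw hz.symm
  choose z hz0 hzr hzc using hz
  have hz0' : ∀ w, 0 < ‖z w‖ := fun w => norm_pos_iff.2 (hz0 w)
  obtain ⟨m₀, m, hm⟩ := (dens_nf1 hα hroot P Q h hs).2 z hz0
  choose v hv hm1 hm2 using hm
  set x : Kˣ := ∏ j, u j ^ m j with hx
  have hxK : (x : K) = ∏ j, (aeval α (P j) / aeval α (Q j)) ^ m j := by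
    rw [hx, Units.coe_prod]
    refine Finset.prod_congr rfl fun j _ => ?_
    rw [Units.val_zpow_eq_zpow_val, hu]
  rw [← hxK] at hm1 hm2
  set ρ : ℝ := Real.exp m₀ with hρ
  have hρ0 : 0 < ρ := Real.exp_pos _
  have hρc : Complex.exp (m₀ : ℂ) = (ρ : ℂ) := by
    rw [hρ, Complex.ofReal_exp, Complex.ofReal_intCast]
  set Sm : ℝ := ∑ w : InfinitePlace K, (w.mult : ℝ) * (v w).re with hSm
  have hmult : ∑ w : InfinitePlace K, (w.mult : ℝ) = d := by
    rw [hd, ← InfinitePlace.sum_mult_eq]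
    push_cast
    rfl
  have hSb : |Sm| ≤ d * ε := by
    refine (Finset.abs_sum_le_sum_abs _ _).trans ?_
    rw [← hmult, Finset.sum_mul]
    refine Finset.sum_le_sum fun w _ => ?_
    rw [abs_mul, Nat.abs_cast]
    exact mul_le_mul_of_nonneg_left ((Complex.abs_re_le_norm _).trans (hv w)) (Nat.cast_nonneg _)
  -- the product of the absolute values of the target
  have hzprod : ∏ w : InfinitePlace K, ‖z w‖ ^ w.mult = 1 := by
    have h1 : (∏ w : InfinitePlace K, ‖z w‖ ^ w.mult) ^ (2 * d) = 1 := by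
      rw [← hyN, mixedEmbedding.norm_apply, ← Finset.prod_pow]
      refine Finset.prod_congr rfl fun w _ => ?_
      rw [← pow_mul, mul_comm w.mult, pow_mul]
      congr 1
      rcases w.isReal_or_isComplex with hw | hw
      · rw [mixedEmbedding.normAtPlace_apply_of_isReal hw, ← norm_pow, hzr w hw, Complex.norm_real]
      · rw [mixedEmbedding.normAtPlace_apply_of_isComplex hw, ← norm_pow, hzc w hw]
    exact (pow_eq_one_iff_of_nonneg (Finset.prod_nonneg fun w _ => by positivity) (by omega)).1 h1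
  set Nx : ℚ := Algebra.norm ℚ (x : K) with hNx
  have hNabs : |(Nx : ℝ)| * ρ ^ d = Real.exp Sm := by
    have h1 : ∏ w : InfinitePlace K, (w (x : K) * ρ / ‖z w‖) ^ w.mult = Real.exp Sm := by
      rw [hSm, Real.exp_sum]
      refine Finset.prod_congr rfl fun w _ => ?_
      rw [hm1, ← Real.exp_nat_mul]
    have h2 : ∏ w : InfinitePlace K, (w (x : K) * ρ / ‖z w‖) ^ w.mult =
        (∏ w : InfinitePlace K, w (x : K) ^ w.mult) * (∏ w : InfinitePlace K, ρ ^ w.mult) /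
          ∏ w : InfinitePlace K, ‖z w‖ ^ w.mult := by
      rw [← Finset.prod_mul_distrib, ← Finset.prod_div_distrib]
      refine Finset.prod_congr rfl fun w _ => ?_
      rw [div_pow, mul_pow]
    rw [h2, hzprod, div_one, InfinitePlace.prod_eq_abs_norm, Finset.prod_pow_eq_pow_sum,
      InfinitePlace.sum_mult_eq] at h1
    rw [← h1, ← hd, Rat.cast_abs]
  have hNx0 : (Nx : ℝ) ≠ 0 := by
    intro h0
    rw [h0, abs_zero, zero_mul] at hNabs
    exact (Real.exp_pos Sm).ne hNabs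
  have hNsq : ((Nx : ℝ)) ^ 2 * ρ ^ (2 * d) = Real.exp (2 * Sm) := by
    have h1 : Real.exp (2 * Sm) = Real.exp Sm ^ 2 := by
      rw [← Real.exp_nat_mul]
      norm_num
    rw [h1, ← hNabs, mul_pow, sq_abs, ← pow_mul, mul_comm d 2]
  -- the element
  set Y : Kˣ := φN K x with hY
  have hYmem : Y ∈ Subgroup.closure (Set.range fun j => φN K (u j)) := by
    rw [hY, hx, map_prod]
    refine Subgroup.prod_mem _ fun j _ => ?_
    rw [map_zpow]
    exact Subgroup.zpow_mem _ (Subgroup.subset_closure (Set.mem_range_self j)) _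
  have hYK : (Y : K) = (x : K) ^ d / (Nx : K) := φN_apply x
  have hxm : Units.map (mixedEmbedding K).toMonoidHom (Y ^ 2) ∈
      (Subgroup.closure (Set.range fun j => φN K (u j))).map (Units.map (mixedEmbedding K).toMonoidHom) :=
    Subgroup.mem_map_of_mem _ (Subgroup.pow_mem _ hYmem 2)
  refine ⟨_, hxm, ?_⟩
  have hval : ((Units.map (mixedEmbedding K).toMonoidHom (Y ^ 2) / y : (mixedEmbedding.mixedSpace K)ˣ) :
      mixedEmbedding.mixedSpace K) = mixedEmbedding K ((Y : K) ^ 2) * ((y⁻¹ : (mixedEmbedding.mixedSpace K)ˣ) :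
      mixedEmbedding.mixedSpace K) := by
    rw [div_eq_mul_inv, Units.val_mul]
    rfl
  rw [hval, norm_prod_le_iff]
  have h3δ0 : 0 ≤ 1 / (T : ℝ) ^ κ := by positivity
  have hexp : ∀ c : ℂ, ‖c‖ ≤ ε → ‖Complex.exp (2 * d * c - 2 * Sm) - 1‖ ≤ 1 / (T : ℝ) ^ κ := by
    intro c hc
    have h1 : ‖(2 * d * c - 2 * Sm : ℂ)‖ ≤ 4 * d * ε := by
      refine (norm_sub_le _ _).trans ?_
      have h2 : ‖(2 * d * c : ℂ)‖ ≤ 2 * d * ε := by
        rw [norm_mul, norm_mul, Complex.norm_natCast, Complex.norm_ofNat]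
        exact mul_le_mul_of_nonneg_left hc (by positivity)
      have h3 : ‖(2 * Sm : ℂ)‖ ≤ 2 * (d * ε) := by
        rw [norm_mul, Complex.norm_ofNat, Complex.norm_real]
        exact mul_le_mul_of_nonneg_left hSb (by norm_num)
      linarith
    have h4 : 4 * d * ε ≤ 1 := by
      have : 0 ≤ (d : ℝ) * ε := by positivity
      linarith
    refine (Complex.norm_exp_sub_one_le (h1.trans h4)).trans ?_
    linarith
  constructor
  · rw [pi_norm_le_iff_of_nonneg h3δ0]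
    rintro ⟨w, hw⟩
    have hinv : ((y⁻¹ : (mixedEmbedding.mixedSpace K)ˣ) : mixedEmbedding.mixedSpace K).1 ⟨w, hw⟩ =
        ((y : mixedEmbedding.mixedSpace K).1 ⟨w, hw⟩)⁻¹ := by
      have h1 := congrArg (fun v : mixedEmbedding.mixedSpace K => v.1 ⟨w, hw⟩) y.mul_inv
      simp only [Prod.fst_mul, Pi.mul_apply, Prod.fst_one, Pi.one_apply] at h1
      exact eq_inv_of_mul_eq_one_right h1
    have hyw : (y : mixedEmbedding.mixedSpace K).1 ⟨w, hw⟩ = ‖z w‖ ^ (2 * d) := by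
      have h1 := congrArg norm (hzr w hw)
      rw [norm_pow, Complex.norm_real, Real.norm_of_nonneg (hy ⟨w, hw⟩).le] at h1
      exact h1.symm
    have hρY : (InfinitePlace.embedding_of_isReal hw (Y : K)) ^ 2 = (w (Y : K)) ^ 2 := by
      rw [← InfinitePlace.norm_embedding_of_isReal hw, Real.norm_eq_abs, sq_abs]
    show ‖(mixedEmbedding K ((Y : K) ^ 2)).1 ⟨w, hw⟩ * ((y⁻¹ : (mixedEmbedding.mixedSpace K)ˣ) :
      mixedEmbedding.mixedSpace K).1 ⟨w, hw⟩ - 1‖ ≤ _
    rw [mixedEmbedding.mixedEmbedding_apply_isReal, map_pow, hinv, hyw, hρY]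
    have hwY : w (Y : K) = w (x : K) ^ d / |(Nx : ℝ)| := by
      rw [hYK, map_div₀, map_pow]
      congr 1
      rw [← InfinitePlace.norm_embedding_eq, map_ratCast, Complex.norm_ratCast]
    have hwx : w (x : K) = Real.exp (v w).re * ‖z w‖ / ρ := by
      have h1 := hm1 w
      rw [div_eq_iff (hz0' w).ne'] at h1
      rw [eq_div_iff hρ0.ne', h1]
    have hfin : w (Y : K) ^ 2 * (‖z w‖ ^ (2 * d))⁻¹ = Real.exp (2 * d * (v w).re - 2 * Sm) := by
      rw [hwY, div_pow, sq_abs, ← pow_mul, mul_comm d 2, hwx, div_pow, mul_pow, Real.exp_sub, ← hNsq,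
        ← Real.exp_nat_mul]
      have h1 : ‖z w‖ ^ (2 * d) ≠ 0 := pow_ne_zero _ (hz0' w).ne'
      have h2 : ρ ^ (2 * d) ≠ 0 := pow_ne_zero _ hρ0.ne'
      push_cast
      field_simp
    rw [hfin]
    have h5 := hexp (((v w).re : ℝ) : ℂ) (by
      rw [Complex.norm_real]
      exact (Complex.abs_re_le_norm _).trans (hv w))
    have h6 : Complex.exp (2 * d * (((v w).re : ℝ) : ℂ) - 2 * Sm) - 1 =
        ((Real.exp (2 * d * (v w).re - 2 * Sm) - 1 : ℝ) : ℂ) := by
      push_cast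
      rfl
    rw [h6, Complex.norm_real] at h5
    exact h5
  · rw [pi_norm_le_iff_of_nonneg h3δ0]
    rintro ⟨w, hw⟩
    have hinv : ((y⁻¹ : (mixedEmbedding.mixedSpace K)ˣ) : mixedEmbedding.mixedSpace K).2 ⟨w, hw⟩ =
        ((y : mixedEmbedding.mixedSpace K).2 ⟨w, hw⟩)⁻¹ := by
      have h1 := congrArg (fun v : mixedEmbedding.mixedSpace K => v.2 ⟨w, hw⟩) y.mul_inv
      simp only [Prod.snd_mul, Pi.mul_apply, Prod.snd_one, Pi.one_apply] at h1
      exact eq_inv_of_mul_eq_one_right h1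
    show ‖(mixedEmbedding K ((Y : K) ^ 2)).2 ⟨w, hw⟩ * ((y⁻¹ : (mixedEmbedding.mixedSpace K)ˣ) :
      mixedEmbedding.mixedSpace K).2 ⟨w, hw⟩ - 1‖ ≤ _
    rw [mixedEmbedding.mixedEmbedding_apply_isComplex, map_pow, hinv, ← hzc w hw]
    have hwY : w.embedding (Y : K) = w.embedding (x : K) ^ d / ((Nx : ℝ) : ℂ) := by
      rw [hYK, map_div₀, map_pow, map_ratCast]
      norm_cast
    have hwx : w.embedding (x : K) = Complex.exp (v w) * z w / ρ := by
      have h1 := hm2 w hw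
      rw [hρc, div_eq_iff (hz0 w)] at h1
      rw [eq_div_iff (by exact_mod_cast hρ0.ne'), h1]
    have hNsqc : (((Nx : ℝ) : ℂ)) ^ 2 * (ρ : ℂ) ^ (2 * d) = Complex.exp (2 * Sm) := by
      have h1 := congrArg (fun r : ℝ => (r : ℂ)) hNsq
      push_cast at h1
      push_cast
      exact h1
    have hfin : w.embedding (Y : K) ^ 2 * (z w ^ (2 * d))⁻¹ = Complex.exp (2 * d * v w - 2 * Sm) := by
      rw [hwY, div_pow, ← pow_mul, mul_comm d 2, hwx, div_pow, mul_pow, Complex.exp_sub, ← hNsqc,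
        ← Complex.exp_nat_mul]
      have h1 : z w ^ (2 * d) ≠ 0 := pow_ne_zero _ (hz0 w)
      have h2 : (ρ : ℂ) ^ (2 * d) ≠ 0 := pow_ne_zero _ (by exact_mod_cast hρ0.ne')
      have h3 : ((Nx : ℝ) : ℂ) ≠ 0 := by exact_mod_cast hNx0
      push_cast
      field_simp
    rw [hfin]
    exact hexp _ (hv w)

end

end Pool.Agent.X255.RH
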