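import Pool.Agent.X255.RH.Ind
import Pool.Agent.X255.NP.Count

/-!
# The values of functions at the roots of almost all polynomials
-/

set_option autoImplicit false
set_option linter.unusedSectionVars false

open Polynomial Filter Topology NumberField

namespace Pool.Agent.X255.RH

open Pool.Agent.Y890.SP Pool.Agent.Y890.MV Pool.Agent.X255.NP Pool.Agent.X255.GB
open Pool.Agent.Y124 (Cov)

variable {σ : Type} [Fintype σ] [DecidableEq σ] {V : Set ℂ} {f : σ → ℂ → ℂ} {g : ℕ}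

theorem VS_of_mem {S : Finset (Fin g)} {i : Fin g} (h : i ∈ S) : VS V S i = V := by
  ext x
  simp [VS, h]

theorem VS_of_notMem {S : Finset (Fin g)} {i : Fin g} (h : i ∉ S) : VS V S i = Set.univ := by
  ext x
  simp [VS, h]

theorem VS_open (hV : IsOpen V) (S : Finset (Fin g)) (i : Fin g) : IsOpen (VS V S i) := by
  by_cases h : i ∈ S
  · rw [VS_of_mem h]; exact hV
  · rw [VS_of_notMem h]; exact isOpen_univ

theorem VS_pre (hV : IsPreconnected V) (S : Finset (Fin g)) (i : Fin g) : IsPreconnected (VS V S i) := by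
  by_cases h : i ∈ S
  · rw [VS_of_mem h]; exact hV
  · rw [VS_of_notMem h]; exact isPreconnected_univ

theorem UPi_eq (V : Fin g → Set ℂ) : UPi V = Set.univ.pi V := by
  ext z
  simp [UPi]

theorem PS_an (hf : ∀ v, AnalyticOnNhd ℂ (f v) V) (S : Finset (Fin g)) (a : Unit) (b : {i // i ∈ S} × σ) :
    AnalyticOnNhd ℂ (fun z => PS f S z a b) (UPi (VS V S)) := by
  intro z hz
  have h1 : z b.1 ∈ V := hz b.1 b.1.2
  exact AnalyticAt.comp (g := fun x => f b.2 x) (f := fun z : Fin g → ℂ => z b.1) (hf b.2 _ h1)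
    ((ContinuousLinearMap.proj (R := ℂ) (φ := fun _ : Fin g => ℂ) (b.1 : Fin g)).analyticAt z)

theorem regular_zero (V : Set ℂ) : Regular V fun (_ : σ) (_ : ℂ) => (0 : ℂ) := by
  intro W w P Q R _ hWn _ _ _ hQ hPQ _
  have hev : ∀ x (p : MvPolynomial σ ℂ[X]), evF (fun (_ : σ) (_ : ℂ) => (0 : ℂ)) x p = (MvPolynomial.coeff 0 p).eval x := by
    intro x p
    have h1 : (MvPolynomial.eval₂Hom (Polynomial.evalRingHom x) fun _ : σ => (0 : ℂ)) =
        (Polynomial.evalRingHom x).comp MvPolynomial.constantCoeff := by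
      refine MvPolynomial.ringHom_ext (fun a => ?_) fun t => ?_
      · simp
      · simp
    exact RingHom.congr_fun h1 p
  obtain ⟨x0, hx0⟩ := hWn
  refine ⟨MvPolynomial.coeff 0 P, MvPolynomial.coeff 0 Q, ?_, fun x hx => ?_⟩
  · intro h0
    apply hQ x0 hx0
    rw [hev, h0, eval_zero]
  · rw [← hev, ← hev]
    exact hPQ x hx

theorem PS_reg (hV : IsPreconnected V) (hf : ∀ v, AnalyticOnNhd ℂ (f v) V) (h : Indep V f) (S : Finset (Fin g)) :
    RegularM (UPi (VS V S)) fun (v : Unit × ({i // i ∈ S} × σ)) z => PS f S z v.1 v.2 := by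
  classical
  have h1 : RegularM (UPi (VS V S)) (fun (q : Fin g × σ) z => (if q.1 ∈ S then f q.2 else fun _ => 0) (z q.1)) := by
    refine regM_prod (VS V S) (VS_pre hV S) (fun i v => if i ∈ S then f v else fun _ => 0) (fun i v => ?_) fun i => ?_
    · by_cases hi : i ∈ S
      · rw [VS_of_mem hi, if_pos hi]
        exact hf v
      · rw [if_neg hi]
        exact analyticOnNhd_const
    · by_cases hi : i ∈ S
      · rw [VS_of_mem hi]
        simp only [if_pos hi]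
        exact regular_of_indep hV hf h
      · simp only [if_neg hi]
        exact regular_zero _
  refine regM_poly h1 (fun v => MvPolynomial.X ((v.2.1 : Fin g), v.2.2)) _ ?_
  rintro ⟨_, ⟨i, hi⟩, v⟩ z
  rw [evM_X]
  simp only [if_pos hi]
  rfl

/-- The numbers `x q` satisfy no relation of degree at most `k` in each of them with coefficients `∑ ξ b * c b`, `b < k`,
`c b` integers of size at most `T ^ k` of a number field of degree at most `k`, except the relations all of whose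
coefficients vanish. -/
def NoRel {Q : Type} [Fintype Q] [DecidableEq Q] (ξ : ℕ → ℂ) (k : ℕ) (T : ℝ) (x : Q → ℂ) : Prop :=
  ∀ (F : Type) [Field F] [NumberField F], Module.finrank ℚ F ≤ k → ∀ (io : F →+* ℂ)
    (c : (Q → Fin (k + 1)) → Fin k → 𝓞 F), (∀ l b (φ : F →+* ℂ), ‖φ (c l b : F)‖ ≤ T ^ k) →
    ∑ l, (∑ b : Fin k, ξ b * io (c l b : F)) * ∏ q, x q ^ (l q : ℕ) = 0 → ∀ l, ∑ b : Fin k, ξ b * io (c l b : F) = 0

theorem NoRel.of_equiv {Q Q' : Type} [Fintype Q] [DecidableEq Q] [Fintype Q'] [DecidableEq Q'] {ξ : ℕ → ℂ} {k : ℕ}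
    {T : ℝ} (e : Q ≃ Q') {x : Q' → ℂ} (h : NoRel ξ k T fun q => x (e q)) : NoRel ξ k T x := by
  intro F _ _ hF io c hc hrel
  have key := h F hF io (fun l => c fun q' => l (e.symm q')) (fun l b φ => hc _ _ _) (by
    rw [← hrel]
    refine Fintype.sum_equiv (Equiv.arrowCongr e (Equiv.refl _)) _ _ fun l => ?_
    have h1 : (Equiv.arrowCongr e (Equiv.refl (Fin (k + 1)))) l = fun q' => l (e.symm q') := rfl
    rw [h1]
    congr 1
    refine Fintype.prod_equiv e _ _ fun q => ?_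
    simp)
  intro l
  have h2 := key fun q => l (e q)
  simpa using h2

theorem gen_noRel (h : Indep V f) (S : Finset (Fin g)) {ξ : ℕ → ℂ} {k : ℕ} {T : ℝ} {z : Fin g → ℂ}
    (hz : Gen (UPi (VS V S)) (PS f S) ξ k T z) :
    NoRel ξ k T fun q : Unit × ({i // i ∈ S} × σ) => f q.2.2 (z q.2.1) := by
  intro F _ _ hF io c hc hrel l
  obtain ⟨⟨G, hG1, hG2⟩, -⟩ := hz F hF io c hc hrel
  rw [← hG1 l, prod_indep h S G hG2 l, map_zero]

/-- the roots in `V` -/
noncomputable def rts (V : Set ℂ) (a : Fin (g + 1) → ℤ) : Finset ℂ := by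
  classical exact (pol a).roots.toFinset.filter fun z => z ∈ V

/-- the values of the functions at the roots in `V` -/
noncomputable def vals (V : Set ℂ) (f : σ → ℂ → ℂ) (a : Fin (g + 1) → ℤ) (q : {z // z ∈ rts V a} × σ) : ℂ := f q.2 q.1

theorem pol_ne {a : Fin (g + 1) → ℤ} (ha : a (Fin.last g) ≠ 0) : pol a ≠ 0 := by
  intro h0
  have h1 := pol_coeff a (Fin.last g)
  rw [h0, coeff_zero] at h1
  exact ha (by exact_mod_cast h1.symm)

theorem mem_rts {a : Fin (g + 1) → ℤ} (ha : a (Fin.last g) ≠ 0) {x : ℂ} : x ∈ rts V a ↔ (pol a).eval x = 0 ∧ x ∈ V := by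
  classical
  unfold rts
  rw [Finset.mem_filter, Multiset.mem_toFinset, mem_roots (pol_ne ha)]
  rfl

theorem IsRoots.root_iff {a : Fin (g + 1) → ℤ} {z : Fin g → ℂ} (h : IsRoots a z) {x : ℂ} :
    (pol a).eval x = 0 ↔ ∃ i, z i = x := by
  rw [h.2, eval_mul, eval_C, eval_prod, mul_eq_zero, or_iff_right (by exact_mod_cast h.1), Finset.prod_eq_zero_iff]
  simp only [Finset.mem_univ, true_and, eval_sub, eval_X, eval_C, sub_eq_zero]
  exact ⟨fun ⟨i, hi⟩ => ⟨i, hi.symm⟩, fun ⟨i, hi⟩ => ⟨i, hi.symm⟩⟩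

theorem noRel_vals (h : Indep V f) {K : Set ℂ} {a : Fin (g + 1) → ℤ} {z : Fin g → ℂ} (hz : IsRoots a z)
    (hinj : Function.Injective z) (S : Finset (Fin g)) (hS : ∀ i, i ∈ S ↔ z i ∈ K) {ξ : ℕ → ℂ} {k : ℕ} {T : ℝ}
    (hgen : Gen (UPi (VS V S)) (PS f S) ξ k T z) : NoRel ξ k T (vals K f a) := by
  classical
  have h1 : Function.Bijective (fun i : {i // i ∈ S} => (⟨z i, (mem_rts hz.1).2 ⟨hz.root i, (hS i).1 i.2⟩⟩ :
      {x // x ∈ rts K a})) := by
    constructor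
    · intro i j hij
      exact Subtype.ext (hinj (Subtype.mk.inj hij))
    · rintro ⟨x, hx⟩
      obtain ⟨hx1, hx2⟩ := (mem_rts hz.1).1 hx
      obtain ⟨i, rfl⟩ := (IsRoots.root_iff hz).1 hx1
      exact ⟨⟨i, (hS i).2 hx2⟩, rfl⟩
  let e : {i // i ∈ S} ≃ {x // x ∈ rts K a} := Equiv.ofBijective _ h1
  exact NoRel.of_equiv ((Equiv.punitProd ({i // i ∈ S} × σ)).trans (e.prodCongr (Equiv.refl σ))) (gen_noRel h S hgen)

/-- near arbitrary compact sets -/
theorem excOn_cov (hg : 0 < g) {H J : Type} [Fintype H] [DecidableEq H] [Fintype J] [DecidableEq J]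
    {U : Set (Fin g → ℂ)} (hU : IsPreconnected U) (hUo : IsOpen U)
    {P : (Fin g → ℂ) → Matrix H J ℂ} (hP : ∀ a b, AnalyticOnNhd ℂ (fun x => P x a b) U)
    (hreg : RegularM U fun (v : H × J) (x : Fin g → ℂ) => P x v.1 v.2) (ξ : ℕ → ℂ) (k : ℕ) (𝒦 : Set (Fin g → ℂ))
    (h𝒦 : IsCompact 𝒦) (h𝒦U : 𝒦 ⊆ U) (hinj : ∀ z ∈ 𝒦, Function.Injective z) (ε : ℝ) (hε : 0 < ε) :
    ∃ (D : ℕ) (C T₀ : ℝ), 0 ≤ C ∧ 2 ≤ T₀ ∧ ∀ T : ℝ, T₀ ≤ T → Cov D ⌊C * T ^ ε⌋₊ (quoC '' ExcOn U P ξ k 𝒦 T) := by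
  classical
  choose! Kz hKz1 hKz2 using fun z (hz : z ∈ 𝒦) =>
    exc_near hg hU hUo hP hreg ξ k z (h𝒦U hz) (hinj z hz)
  obtain ⟨t, ht1, ht2⟩ := h𝒦.elim_nhds_subcover Kz fun z hz => hKz1 z hz
  obtain ⟨D, C, T₀, hC, hT₀, HH⟩ := cov_finset ε t (fun z0 T => quoC '' ExcOn U P ξ k (Kz z0) T)
    fun z0 hz0 => hKz2 z0 (ht1 z0 hz0) ε hε
  refine ⟨D, C, T₀, hC, hT₀, fun T hT => (HH T hT).mono le_rfl le_rfl ?_⟩
  rintro _ ⟨a, ⟨ha, z, hz, hr, hgen⟩, rfl⟩
  obtain ⟨z0, hz0, hzz⟩ := Set.mem_iUnion₂.1 (ht2 hz)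
  exact Set.mem_iUnion₂.2 ⟨z0, hz0, a, ⟨ha, z, hzz, hr, hgen⟩, rfl⟩

/-- the roots are of absolute value at most `R`, at distance at least `η` from each other, and the roots in `K` at distance
at least `η` from the complement of `V` -/
def Inn (K V : Set ℂ) (R η : ℝ) (a : Fin (g + 1) → ℤ) : Prop :=
  ∃ z : Fin g → ℂ, IsRoots a z ∧ (∀ i, ‖z i‖ ≤ R) ∧ (∀ i j, i ≠ j → η ≤ ‖z i - z j‖) ∧
    ∀ i, z i ∈ K → Metric.ball (z i) η ⊆ V

/-- the exceptional polynomials -/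
def ExcR (K V : Set ℂ) (f : σ → ℂ → ℂ) (R η : ℝ) (ξ : ℕ → ℂ) (k : ℕ) (T : ℝ) : Set (Fin (g + 1) → ℤ) :=
  {a | (∀ i, |(a i : ℝ)| ≤ T) ∧ Inn K V R η a ∧ ¬ NoRel ξ k T (vals K f a)}

theorem excR_cov (hg : 0 < g) (hV : IsPreconnected V) (hVo : IsOpen V) (hf : ∀ v, AnalyticOnNhd ℂ (f v) V)
    (h : Indep V f) (K : Set ℂ) (R η : ℝ) (hη : 0 < η) (ξ : ℕ → ℂ) (k : ℕ) (ε : ℝ) (hε : 0 < ε) :
    ∃ (D : ℕ) (C T₀ : ℝ), 0 ≤ C ∧ 2 ≤ T₀ ∧ ∀ T : ℝ, T₀ ≤ T →
      Cov D ⌊C * T ^ ε⌋₊ (quoC '' ExcR (g := g) K V f R η ξ k T) := by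
  classical
  let 𝒦 : Finset (Fin g) → Set (Fin g → ℂ) := fun S =>
    {z | (∀ i, ‖z i‖ ≤ R) ∧ (∀ i j, i ≠ j → η ≤ ‖z i - z j‖) ∧ ∀ i ∈ S, Metric.ball (z i) η ⊆ V}
  have hcl : IsClosed {x : ℂ | Metric.ball x η ⊆ V} := by
    rw [← isSeqClosed_iff_isClosed]
    intro x a hx ha y hy
    rw [Metric.mem_ball] at hy
    have h2 : Tendsto (fun i => dist y (x i)) atTop (nhds (dist y a)) := tendsto_const_nhds.dist ha
    obtain ⟨i, hi⟩ := (h2.eventually (gt_mem_nhds hy)).exists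
    exact hx i (Metric.mem_ball.2 hi)
  have hcomp : ∀ S, IsCompact (𝒦 S) := by
    intro S
    have h1 : IsClosed (𝒦 S) := by
      have h2 : 𝒦 S = (⋂ i, {z | ‖z i‖ ≤ R}) ∩ ((⋂ (i : Fin g) (j : Fin g) (_ : i ≠ j), {z | η ≤ ‖z i - z j‖}) ∩
          ⋂ (i : Fin g) (_ : i ∈ S), (fun z : Fin g → ℂ => z i) ⁻¹' {x : ℂ | Metric.ball x η ⊆ V}) := by
        ext z
        simp [𝒦]
      rw [h2]
      refine (isClosed_iInter fun i => isClosed_le (continuous_apply i).norm continuous_const).inter (IsClosed.inter ?_ ?_)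
      · exact isClosed_iInter fun i => isClosed_iInter fun j => isClosed_iInter fun _ =>
          isClosed_le continuous_const (((continuous_apply i).sub (continuous_apply j)).norm)
      · exact isClosed_iInter fun i => isClosed_iInter fun _ => hcl.preimage (continuous_apply i)
    refine Metric.isCompact_of_isClosed_isBounded h1 ((Metric.isBounded_closedBall (x := (0 : Fin g → ℂ))
      (r := max R 0)).subset fun z hz => ?_)
    rw [Metric.mem_closedBall, dist_zero_right, pi_norm_le_iff_of_nonneg (le_max_right _ _)]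
    exact fun i => (hz.1 i).trans (le_max_left _ _)
  have h𝒦U : ∀ S, 𝒦 S ⊆ UPi (VS V S) := by
    intro S z hz i hi
    exact hz.2.2 i hi (Metric.mem_ball_self hη)
  have hinj : ∀ S, ∀ z ∈ 𝒦 S, Function.Injective z := by
    intro S z hz i j hij
    by_contra hne
    have h1 := hz.2.1 i j hne
    rw [hij, sub_self, norm_zero] at h1
    linarith
  obtain ⟨D, C, T₀, hC, hT₀, HH⟩ := cov_finset ε (Finset.univ : Finset (Finset (Fin g)))
    (fun S T => quoC '' ExcOn (UPi (VS V S)) (PS f S) ξ k (𝒦 S) T) fun S _ =>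
      excOn_cov hg (by rw [UPi_eq]; exact isPreconnected_univ_pi (VS_pre hV S))
        (by rw [UPi_eq]; exact isOpen_set_pi Set.finite_univ fun i _ => VS_open hVo S i)
        (PS_an hf S) (PS_reg hV hf h S) ξ k (𝒦 S) (hcomp S) (h𝒦U S) (hinj S) ε hε
  refine ⟨D, C, T₀, hC, hT₀, fun T hT => (HH T hT).mono le_rfl le_rfl ?_⟩
  rintro _ ⟨a, ⟨ha, ⟨z, hz, hz1, hz2, hz3⟩, hno⟩, rfl⟩
  let S : Finset (Fin g) := Finset.univ.filter fun i => z i ∈ K
  have hS : ∀ i, i ∈ S ↔ z i ∈ K := fun i => by simp [S]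
  have hzK : z ∈ 𝒦 S := ⟨hz1, hz2, fun i hi => hz3 i ((hS i).1 hi)⟩
  refine Set.mem_iUnion₂.2 ⟨S, Finset.mem_univ _, a, ⟨ha, z, hzK, hz, fun hgen => hno ?_⟩, rfl⟩
  exact noRel_vals h hz (hinj S z hzK) S hS hgen

end Pool.Agent.X255.RH
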