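import Pool.Agent.X255.RH.Fx
import Pool.Agent.Y776.Cv.Var
import Pool.Agent.TH813.EKPer

/-!
# Families of lattices with algebraic functions among the coordinates
-/

set_option autoImplicit false

open Polynomial Filter Topology

namespace Pool.Agent.X255.RH

open Pool.Agent.Y776.Cv Pool.Agent.Y890.SP

/-- if the names outside of the range of an independent subfamily are as many as the algebraic functions, then the
functions which are not algebraic are independent -/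
theorem sel_full {κ : Type} [Fintype κ] [DecidableEq κ] {U : Set ℂ} (hUo : IsOpen U) (hne : U.Nonempty)
    (y : κ → ℂ → ℂ) {N : ℕ} (e : Fin N → κ) (he : Function.Injective e)
    (hloc : ∀ t ∈ U, Pool.Agent.Y124.LocInd (fun k => y (e k)) t) (A : Finset κ)
    (hcard : Fintype.card κ = N + A.card)
    (hA : ∀ i ∈ A, ∃ Q : ℂ[X][X], Q ≠ 0 ∧ ∀ z ∈ U, Q.evalEval z (y i z) = 0)
    {ι : Type} (j : ι → κ) (hj : Function.Injective j) (hjA : ∀ i, j i ∉ A) :
    Indep U fun i => y (j i) := by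
  have hind := indep_of_loc hUo hne hloc
  have heA : ∀ w, e w ∉ A := by
    intro w hw
    obtain ⟨Q, hQ0, hQ⟩ := hA _ hw
    exact hQ0 (hind.not_alg w Q hQ)
  have hcA : Fintype.card {i : κ // i ∉ A} = N := by
    rw [Fintype.card_subtype_compl, Fintype.card_coe, hcard]
    omega
  let e' : Fin N → {i : κ // i ∉ A} := fun w => ⟨e w, heA w⟩
  have he' : Function.Bijective e' := by
    rw [Fintype.bijective_iff_injective_and_card]
    refine ⟨fun w w' hw => he (Subtype.mk.inj hw), ?_⟩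
    rw [hcA, Fintype.card_fin]
  let E := Equiv.ofBijective e' he'
  refine indep_of_loc hUo hne fun t ht => ?_
  have h1 := Pool.Agent.Y776.Cv.LocInd.comp_inj (hloc t ht) (e := fun i => E.symm ⟨j i, hjA i⟩) (by
    intro i i' hi
    exact hj (Subtype.mk.inj (E.symm.injective hi)))
  have h2 : (fun i => y (e (E.symm ⟨j i, hjA i⟩))) = fun i => y (j i) := by
    funext i
    have h3 : e' (E.symm ⟨j i, hjA i⟩) = ⟨j i, hjA i⟩ := E.apply_symm_apply _
    have h4 : e (E.symm ⟨j i, hjA i⟩) = j i := congrArg Subtype.val h3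
    rw [h4]
  rw [← h2]
  exact h1

/-- the names of the algebraic functions `g₂, g₃`, `℘ (u_i)`, `p_j`, `exp (l_k)` -/
def hA (r m s : ℕ) : Fin 2 ⊕ (Fin r ⊕ (Fin m ⊕ Fin s)) → Nv r (m + s)
  | Sum.inl i => Sum.inl (Fin.natAdd 3 i)
  | Sum.inr (Sum.inl i) => Sum.inr (Sum.inr (Sum.inr (Sum.inl i)))
  | Sum.inr (Sum.inr (Sum.inl j)) => Sum.inr (Sum.inr (Sum.inr (Sum.inr (Sum.inl (Fin.castAdd s j)))))
  | Sum.inr (Sum.inr (Sum.inr k)) => Sum.inr (Sum.inr (Sum.inr (Sum.inr (Sum.inr (Fin.natAdd m k)))))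

/-- the names of the other functions `ω₁, ω₂, η₁`, `u_i`, `ζ (u_i)`, `exp (p_j)`, `l_k` -/
def hB (r m s : ℕ) : Fin 3 ⊕ (Fin r ⊕ (Fin r ⊕ (Fin m ⊕ Fin s))) → Nv r (m + s)
  | Sum.inl i => Sum.inl (Fin.castAdd 2 i)
  | Sum.inr (Sum.inl i) => Sum.inr (Sum.inl i)
  | Sum.inr (Sum.inr (Sum.inl i)) => Sum.inr (Sum.inr (Sum.inl i))
  | Sum.inr (Sum.inr (Sum.inr (Sum.inl j))) => Sum.inr (Sum.inr (Sum.inr (Sum.inr (Sum.inr (Fin.castAdd s j)))))
  | Sum.inr (Sum.inr (Sum.inr (Sum.inr k))) => Sum.inr (Sum.inr (Sum.inr (Sum.inr (Sum.inl (Fin.natAdd m k)))))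

theorem hA_inj (r m s : ℕ) : Function.Injective (hA r m s) := by
  rintro (j | j | j | j) (j' | j' | j' | j') h <;> simp [hA] at h <;>
    first
    | (simp_all; done)
    | rw [Fin.natAdd_injective _ 3 h]

theorem hB_inj (r m s : ℕ) : Function.Injective (hB r m s) := by
  rintro (j | j | j | j | j) (j' | j' | j' | j' | j') h <;> simp [hB] at h <;>
    first
    | (simp_all; done)
    | rw [Fin.castAdd_injective _ 2 h]

theorem hB_ne (r m s : ℕ) (x) (y) : hB r m s x ≠ hA r m s y := by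
  rcases x with (j | j | j | j | j) <;> rcases y with (j' | j' | j' | j') <;> intro h <;> simp only [hA, hB] at h <;>
    first
    | exact ca_ne_na _ _ (Sum.inl_injective h)
    | exact ca_ne_na _ _ (Sum.inl_injective (Sum.inr_injective (Sum.inr_injective (Sum.inr_injective
        (Sum.inr_injective h))))).symm
    | exact ca_ne_na _ _ (Sum.inr_injective (Sum.inr_injective (Sum.inr_injective (Sum.inr_injective
        (Sum.inr_injective h)))))
    | exact absurd h (by simp)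

variable {U : Set ℂ} {Λ : ℂ → PeriodPair} {r m s : ℕ} {u : Fin r → ℂ → ℂ} {p : Fin m → ℂ → ℂ} {l : Fin s → ℂ → ℂ}

/-- periods and quasi-periods, elliptic integrals of the first and second kind, exponentials and logarithms of algebraic
functions -/
theorem fv_mix (h : FxV U Λ u (Fin.append p l)) (hne : U.Nonempty)
    (hg₂ : ∃ Q : ℂ[X][X], Q ≠ 0 ∧ ∀ z ∈ U, Q.evalEval z ((Λ z).g₂) = 0)
    (hg₃ : ∃ Q : ℂ[X][X], Q ≠ 0 ∧ ∀ z ∈ U, Q.evalEval z ((Λ z).g₃) = 0)
    (hp : ∀ j, ∃ Q : ℂ[X][X], Q ≠ 0 ∧ ∀ z ∈ U, Q.evalEval z (p j z) = 0)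
    (hl : ∀ k, ∃ Q : ℂ[X][X], Q ≠ 0 ∧ ∀ z ∈ U, Q.evalEval z (Complex.exp (l k z)) = 0)
    (hu : ∀ i, ∃ Q : ℂ[X][X], Q ≠ 0 ∧ ∀ z ∈ U, Q.evalEval z ((Λ z).weierstrassP (u i z)) = 0) :
    Indep U fun i => yv Λ u (Fin.append p l) (hB r m s i) := by
  classical
  obtain ⟨e, he, hloc⟩ := var_sub h hne
  refine sel_full h.isOpen hne (yv Λ u (Fin.append p l)) e he hloc (Finset.univ.map ⟨hA r m s, hA_inj r m s⟩) ?_ ?_ _
    (hB_inj r m s) ?_
  · rw [Finset.card_map, Finset.card_univ]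
    simp only [Nv, Fintype.card_sum, Fintype.card_fin]
    omega
  · intro i hi
    rw [Finset.mem_map] at hi
    obtain ⟨x, -, rfl⟩ := hi
    rcases x with i | i | j | k
    · fin_cases i
      · exact hg₂
      · exact hg₃
    · obtain ⟨Q, hQ0, hQ⟩ := hu i
      exact ⟨Q, hQ0, fun z hz => hQ z hz⟩
    · obtain ⟨Q, hQ0, hQ⟩ := hp j
      refine ⟨Q, hQ0, fun z hz => ?_⟩
      rw [← hQ z hz]
      simp [hA, yv]
    · obtain ⟨Q, hQ0, hQ⟩ := hl k
      refine ⟨Q, hQ0, fun z hz => ?_⟩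
      rw [← hQ z hz]
      simp [hA, yv]
  · intro i hi
    rw [Finset.mem_map] at hi
    obtain ⟨x, -, hx⟩ := hi
    exact hB_ne r m s i x hx.symm

end Pool.Agent.X255.RH
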