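import Pool.Agent.X255.RH.Fx

/-!
# Exponentials, `℘` and `ζ` of algebraic functions
-/

set_option autoImplicit false

open Polynomial Filter Topology

namespace Pool.Agent.X255.RH

open Pool.Agent.Y776.Cv Pool.Agent.Y890.SP

variable {U : Set ℂ} {n s q : ℕ} {Λ : Fin q → PeriodPair} {ty : Fin n → Fin q}
  {u : Fin n → ℂ → ℂ} {l : Fin s → ℂ → ℂ}

/-- the names of the algebraic functions -/
def gC (n s : ℕ) : Fin s ⊕ Fin n → Nf n s
  | Sum.inl k => Sum.inl k
  | Sum.inr i => Sum.inr (Sum.inr (Sum.inl i))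

/-- the names of the other functions -/
def gD (n s : ℕ) : Fin s ⊕ (Fin n ⊕ Fin n) → Nf n s
  | Sum.inl k => Sum.inr (Sum.inl k)
  | Sum.inr (Sum.inl i) => Sum.inr (Sum.inr (Sum.inr (Sum.inr i)))
  | Sum.inr (Sum.inr i) => Sum.inr (Sum.inr (Sum.inr (Sum.inl i)))

theorem gC_inj (n s : ℕ) : Function.Injective (gC n s) := by
  rintro (j | j) (j' | j') h <;> simp [gC] at h <;> simp_all

theorem gD_inj (n s : ℕ) : Function.Injective (gD n s) := by
  rintro (j | j | j) (j' | j' | j') h <;> simp [gD] at h <;> simp_all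

theorem gD_ne (n s : ℕ) (x) (y) : gD n s x ≠ gC n s y := by
  rcases x with (j | j | j) <;> rcases y with (j' | j') <;> intro h <;> simp [gC, gD] at h

/-- `exp (l_k)`, `℘ (u_i)`, `ζ (u_i)` for algebraic functions `l_k`, `u_i` -/
theorem fx_lw (h : FxM U Λ ty u l) (hns : 0 < s + n) (hne : U.Nonempty)
    (hl : ∀ k, ∃ Q : ℂ[X][X], Q ≠ 0 ∧ ∀ z ∈ U, Q.evalEval z (l k z) = 0)
    (hu : ∀ i, ∃ Q : ℂ[X][X], Q ≠ 0 ∧ ∀ z ∈ U, Q.evalEval z (u i z) = 0) :
    Indep U fun i => yf Λ ty u l (gD n s i) := by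
  classical
  refine fx_full h hns hne (Finset.univ.map ⟨gC n s, gC_inj n s⟩) ?_ ?_ _ (gD_inj n s) ?_
  · rw [Finset.card_map, Finset.card_univ]
    simp only [Fintype.card_sum, Fintype.card_fin]
  · intro i hi
    rw [Finset.mem_map] at hi
    obtain ⟨x, -, rfl⟩ := hi
    rcases x with j | i
    · exact hl j
    · exact hu i
  · intro i hi
    rw [Finset.mem_map] at hi
    obtain ⟨x, -, hx⟩ := hi
    exact gD_ne n s i x hx.symm

end Pool.Agent.X255.RH
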