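import Pool.Agent.X255.RH.Disc
import Pool.Agent.W175.GF.Final
import Pool.Agent.W253.GF.GTD

/-!
# The functions `Γ (y_i (z))`, `y_i` polynomials
-/

set_option autoImplicit false

open Polynomial Filter Topology

namespace Pool.Agent.X255.RH

open Pool.Agent.Y890.SP

variable {n : ℕ}

/-- the preimages of a locally finite set under finitely many nonconstant polynomials -/
theorem discrete_poly (y : Fin n → ℂ[X]) (hy : ∀ i, ∀ v, y i ≠ C v) {S : Set ℂ}
    (hS : ∀ R : ℝ, (S ∩ Metric.closedBall 0 R).Finite) (R : ℝ) :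
    ({z | ∃ i, (y i).eval z ∈ S} ∩ Metric.closedBall 0 R).Finite := by
  have hb : ∀ i, ∃ M : ℝ, ∀ z ∈ Metric.closedBall (0 : ℂ) R, ‖(y i).eval z‖ ≤ M := by
    intro i
    exact (isCompact_closedBall (0 : ℂ) R).exists_bound_of_continuousOn (y i).continuous.continuousOn
  choose M hM using hb
  have h1 : {z | ∃ i, (y i).eval z ∈ S} ∩ Metric.closedBall 0 R ⊆
      ⋃ i, ⋃ s ∈ S ∩ Metric.closedBall 0 (M i), {z | (y i - C s).eval z = 0} := by
    rintro z ⟨⟨i, hi⟩, hz⟩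
    refine Set.mem_iUnion.2 ⟨i, Set.mem_iUnion₂.2 ⟨(y i).eval z, ⟨hi, ?_⟩, ?_⟩⟩
    · rw [Metric.mem_closedBall, dist_zero_right]
      exact hM i z hz
    · simp
  refine (Set.finite_iUnion fun i => (hS _).biUnion fun s _ => ?_).subset h1
  have h2 : y i - C s ≠ 0 := fun h => hy i s (sub_eq_zero.1 h)
  refine ((y i - C s).roots.toFinset.finite_toSet).subset fun z hz => ?_
  rw [Finset.mem_coe, Multiset.mem_toFinset, mem_roots h2]
  exact hz

/-- the complement of the poles of the functions `Γ (y_i (z))` -/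
def offP (y : Fin n → ℂ[X]) : Set ℂ := {z | ∃ i, ∃ m : ℕ, (y i).eval z = -m}ᶜ

theorem offP_fin (y : Fin n → ℂ[X]) (hy : ∀ i, ∀ v, y i ≠ C v) (R : ℝ) :
    ({z | ∃ i, ∃ m : ℕ, (y i).eval z = -m} ∩ Metric.closedBall 0 R).Finite :=
  discrete_poly y hy discrete_neg_nat R

theorem gam_an (y : Fin n → ℂ[X]) (i : Fin n) : AnalyticOnNhd ℂ (fun z => Complex.Gamma ((y i).eval z)) (offP y) := by
  intro t ht
  have h1 : Differentiable ℂ fun t => (Complex.Gamma ((y i).eval t))⁻¹ :=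
    Complex.differentiable_one_div_Gamma.comp (y i).differentiable
  have h2 : AnalyticAt ℂ (fun t => (Complex.Gamma ((y i).eval t))⁻¹) t := h1.analyticAt t
  have h3 := h2.inv (inv_ne_zero (Complex.Gamma_ne_zero fun m hm => ht ⟨i, m, hm⟩))
  have h4 : (fun t => (Complex.Gamma ((y i).eval t))⁻¹)⁻¹ = fun t => Complex.Gamma ((y i).eval t) := by
    funext x
    simp
  rwa [h4] at h3

theorem gam_indep (y : Fin n → ℂ[X]) (hy : ∀ i, ∀ v, y i ≠ C v)
    (hH : ∀ i j, i ≠ j → ∀ p q : ℚ, y i ≠ C (p : ℂ) * y j + C (q : ℂ)) :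
    Indep (offP y) fun i z => Complex.Gamma ((y i).eval z) := by
  intro p hp
  by_contra hp0
  have hinj : Function.Injective (MvPolynomial.map (σ := Fin n)
      (Polynomial.toMvPolynomial (R := ℂ) (0 : Fin 1) : ℂ[X] →+* MvPolynomial (Fin 1) ℂ)) :=
    MvPolynomial.map_injective _ (Polynomial.toMvPolynomial_injective 0)
  have hev : ∀ (q : ℂ[X]) (t : Fin 1 → ℂ), MvPolynomial.eval t (Polynomial.toMvPolynomial (0 : Fin 1) q) = q.eval (t 0) := by
    intro q t
    exact MvPolynomial.eval_toMvPolynomial _ _ _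
  have hfun : ∀ q r : ℂ[X], (∀ t ∈ (Set.univ : Set (Fin 1 → ℂ)), q.eval (t 0) = r.eval (t 0)) → q = r := by
    intro q r h
    exact Polynomial.funext fun x => h (fun _ => x) trivial
  have h1 : ∀ i : Fin n, AnalyticOnNhd ℂ (fun t : Fin 1 → ℂ => (y i).eval (t 0)) Set.univ := by
    intro i t _
    have h1 : AnalyticAt ℂ (fun t : Fin 1 → ℂ => t 0) t :=
      (ContinuousLinearMap.proj (R := ℂ) (φ := fun _ : Fin 1 => ℂ) 0).analyticAt t
    have h2 : AnalyticAt ℂ (fun z => (y i).eval z) ((fun t : Fin 1 → ℂ => t 0) t) := (y i).differentiable.analyticAt _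
    exact AnalyticAt.comp' (f := fun t : Fin 1 → ℂ => t 0) (g := fun z => (y i).eval z) h2 h1
  have h2 : ∀ i : Fin n, ∃ Q : Polynomial (MvPolynomial (Fin 1) ℂ), Q ≠ 0 ∧
      ∀ t ∈ (Set.univ : Set (Fin 1 → ℂ)), (Q.map (MvPolynomial.eval t)).eval ((y i).eval (t 0)) = 0 := by
    intro i
    refine ⟨X - C (Polynomial.toMvPolynomial (0 : Fin 1) (y i)), X_sub_C_ne_zero _, fun t _ => ?_⟩
    rw [Polynomial.map_sub, map_X, map_C, eval_sub, eval_X, eval_C]
    erw [hev]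
    rw [sub_self]
  have h3 : ∀ i : Fin n, ∀ v : ℂ, ¬ ∀ t ∈ (Set.univ : Set (Fin 1 → ℂ)), (y i).eval (t 0) = v := by
    intro i v h
    exact hy i v (hfun _ _ fun t ht => by rw [eval_C]; exact h t ht)
  have h4 : ∀ i j : Fin n, i ≠ j → ∀ a b : ℚ, ¬ ∀ t ∈ (Set.univ : Set (Fin 1 → ℂ)),
      (y i).eval (t 0) = a * (y j).eval (t 0) + b := by
    intro i j hij a b h
    refine hH i j hij a b (hfun _ _ fun t ht => ?_)
    rw [eval_add, eval_mul, eval_C, eval_C]
    exact h t ht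
  obtain ⟨t, -, ht1, ht2⟩ := Pool.Agent.W253.GF.gtd Pool.Agent.W175.GF.gtF 1 n Set.univ (fun i t => (y i).eval (t 0))
    isOpen_univ isPreconnected_univ ⟨0, trivial⟩ h1 h2 h3 h4
    (MvPolynomial.map (Polynomial.toMvPolynomial (R := ℂ) (0 : Fin 1) : ℂ[X] →+* MvPolynomial (Fin 1) ℂ) p)
    (fun h0 => hp0 (hinj (by rw [h0, map_zero])))
  apply ht2
  have h1 := hp (t 0) (fun ⟨i, m, hm⟩ => ht1 i m hm)
  rw [← h1]
  rw [MvPolynomial.map_map, MvPolynomial.eval_map]
  unfold evF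
  congr 1
  refine RingHom.ext fun q => ?_
  exact hev q t

end Pool.Agent.X255.RH
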