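import Pool.Agent.X255.RH.Gam
import Pool.Agent.X255.RH.Loc

/-!
# The functions `Γ (y_i (z))`, `y_i` algebraic functions
-/

set_option autoImplicit false

open Polynomial Filter Topology

namespace Pool.Agent.X255.RH

open Pool.Agent.Y890.SP

variable {n : ℕ}

theorem gam_indep' {V : Set ℂ} (hVo : IsOpen V) (hV : IsPreconnected V) (hne : V.Nonempty) (y : Fin n → ℂ → ℂ)
    (hy : ∀ i, AnalyticOnNhd ℂ (y i) V) (halg : ∀ i, ∃ Q : ℂ[X][X], Q ≠ 0 ∧ ∀ z ∈ V, Q.evalEval z (y i z) = 0)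
    (hnc : ∀ i, ∀ v : ℂ, ¬ ∀ z ∈ V, y i z = v)
    (hH : ∀ i j, i ≠ j → ∀ a b : ℚ, ¬ ∀ z ∈ V, y i z = a * y j z + b) :
    Indep V fun i z => Complex.Gamma (y i z) := by
  intro p hp
  by_contra hp0
  have hinj : Function.Injective (MvPolynomial.map (σ := Fin n)
      (Polynomial.toMvPolynomial (R := ℂ) (0 : Fin 1) : ℂ[X] →+* MvPolynomial (Fin 1) ℂ)) :=
    MvPolynomial.map_injective _ (Polynomial.toMvPolynomial_injective 0)
  have hev : ∀ (q : ℂ[X]) (t : Fin 1 → ℂ), MvPolynomial.eval t (Polynomial.toMvPolynomial (0 : Fin 1) q) = q.eval (t 0) := by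
    intro q t
    exact MvPolynomial.eval_toMvPolynomial _ _ _
  let U : Set (Fin 1 → ℂ) := {t | t 0 ∈ V}
  have hUo : IsOpen U := hVo.preimage (continuous_apply 0)
  have hUV : U = (fun z : ℂ => (fun _ : Fin 1 => z)) '' V := by
    ext t
    constructor
    · intro ht
      exact ⟨t 0, ht, by funext i; rw [Subsingleton.elim i 0]⟩
    · rintro ⟨z, hz, rfl⟩
      exact hz
  have hUp : IsPreconnected U := by
    rw [hUV]
    exact hV.image _ (continuous_pi fun _ => continuous_id).continuousOn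
  obtain ⟨z0, hz0⟩ := hne
  have h1 : ∀ i : Fin n, AnalyticOnNhd ℂ (fun t : Fin 1 → ℂ => y i (t 0)) U := by
    intro i t ht
    have h1 : AnalyticAt ℂ (fun t : Fin 1 → ℂ => t 0) t :=
      (ContinuousLinearMap.proj (R := ℂ) (φ := fun _ : Fin 1 => ℂ) 0).analyticAt t
    exact AnalyticAt.comp' (f := fun t : Fin 1 → ℂ => t 0) (g := fun z => y i z) (hy i _ ht) h1
  have h2 : ∀ i : Fin n, ∃ Q : Polynomial (MvPolynomial (Fin 1) ℂ), Q ≠ 0 ∧
      ∀ t ∈ U, (Q.map (MvPolynomial.eval t)).eval (y i (t 0)) = 0 := by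
    intro i
    obtain ⟨Q, hQ0, hQ⟩ := halg i
    refine ⟨Q.map (Polynomial.toMvPolynomial (R := ℂ) (0 : Fin 1) : ℂ[X] →+* MvPolynomial (Fin 1) ℂ), ?_, fun t ht => ?_⟩
    · intro h0
      refine hQ0 (Polynomial.map_injective _ (Polynomial.toMvPolynomial_injective (R := ℂ) (0 : Fin 1)) (h0.trans ?_))
      rw [Polynomial.map_zero]
    · rw [Polynomial.map_map]
      have h3 : (MvPolynomial.eval t).comp (Polynomial.toMvPolynomial (R := ℂ) (0 : Fin 1) : ℂ[X] →+* MvPolynomial (Fin 1) ℂ) =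
          Polynomial.evalRingHom (t 0) := RingHom.ext fun q => hev q t
      rw [h3]
      have h4 := hQ (t 0) ht
      rw [Polynomial.map_evalRingHom_eval]
      exact h4
  have h3 : ∀ i : Fin n, ∀ v : ℂ, ¬ ∀ t ∈ U, y i (t 0) = v := by
    intro i v h
    exact hnc i v fun z hz => h (fun _ => z) hz
  have h4 : ∀ i j : Fin n, i ≠ j → ∀ a b : ℚ, ¬ ∀ t ∈ U, y i (t 0) = a * y j (t 0) + b := by
    intro i j hij a b h
    exact hH i j hij a b fun z hz => h (fun _ => z) hz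
  obtain ⟨t, ht0, ht1, ht2⟩ := Pool.Agent.W253.GF.gtd Pool.Agent.W175.GF.gtF 1 n U (fun i t => y i (t 0))
    hUo hUp ⟨fun _ => z0, hz0⟩ h1 h2 h3 h4
    (MvPolynomial.map (Polynomial.toMvPolynomial (R := ℂ) (0 : Fin 1) : ℂ[X] →+* MvPolynomial (Fin 1) ℂ) p)
    (fun h0 => hp0 (hinj (by rw [h0, map_zero])))
  apply ht2
  have h1 := hp (t 0) ht0
  rw [← h1]
  rw [MvPolynomial.map_map, MvPolynomial.eval_map]
  unfold evF
  congr 1
  refine RingHom.ext fun q => ?_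
  exact hev q t

end Pool.Agent.X255.RH
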