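import Pool.Agent.X255.RH.Reg
import Pool.Agent.X255.NP.Sym
import Pool.Agent.X255.NP.Prod

/-!
# Independence of functions of different variables
-/

set_option autoImplicit false
set_option linter.unusedSectionVars false

open Polynomial

namespace Pool.Agent.X255.RH

open Pool.Agent.Y890.SP Pool.Agent.X255.NP Pool.Agent.X255.GB

/-- linear functionals which separate linearly independent functions -/
theorem exists_fun {A : Type} [Fintype A] [DecidableEq A] (V : Set ℂ) (m : A → ℂ → ℂ)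
    (hm : ∀ c : A → ℂ, (∀ x ∈ V, ∑ a, c a * m a x = 0) → c = 0) (b : A) :
    ∃ (s : Finset ℂ) (w : ℂ → ℂ), (∀ x ∈ s, x ∈ V) ∧ ∀ a, ∑ x ∈ s, w x * m a x = if a = b then 1 else 0 := by
  classical
  have hspan : Submodule.span ℂ ((fun x => fun a => m a x) '' V) = ⊤ := by
    by_contra hne
    obtain ⟨φ, hφ, hφ2⟩ := Submodule.exists_le_ker_of_lt_top _ (lt_top_iff_ne_top.2 hne)
    apply hφ
    have h1 : ∀ v : A → ℂ, φ v = ∑ a, φ (Pi.single a 1) * v a := by
      intro v
      conv_lhs => rw [← Finset.univ_sum_single v]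
      rw [map_sum]
      refine Finset.sum_congr rfl fun a _ => ?_
      have h2 : (Pi.single a (v a) : A → ℂ) = v a • Pi.single a 1 := by
        rw [← Pi.single_smul, smul_eq_mul, mul_one]
      rw [h2, map_smul, smul_eq_mul, mul_comm]
    have h3 := hm (fun a => φ (Pi.single a 1)) (by
      intro x hx
      rw [← h1 fun a => m a x]
      exact hφ2 (Submodule.subset_span ⟨x, hx, rfl⟩))
    apply LinearMap.ext
    intro v
    rw [h1 v]
    have h4 : ∀ a, φ (Pi.single a 1) = 0 := fun a => congrFun h3 a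
    simp [h4]
  have hb : (Pi.single b 1 : A → ℂ) ∈ Submodule.span ℂ ((fun x => fun a => m a x) '' V) := by
    rw [hspan]
    exact Submodule.mem_top
  rw [Finsupp.mem_span_image_iff_linearCombination] at hb
  obtain ⟨l, hl, hlb⟩ := hb
  refine ⟨l.support, l, fun x hx => ?_, fun a => ?_⟩
  · exact (Finsupp.mem_supported _ _).1 hl hx
  · have h1 := congrFun hlb a
    rw [Finsupp.linearCombination_apply, Finsupp.sum, Finset.sum_apply] at h1
    simp only [Pi.smul_apply, smul_eq_mul] at h1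
    rw [h1, Pi.single_apply]

variable {σ : Type} [Fintype σ] [DecidableEq σ] {V : Set ℂ} {f : σ → ℂ → ℂ}

/-- the monomials in `x` and `f` are linearly independent -/
theorem mono_indep (h : Indep V f) (N k : ℕ) (c : Fin (N + 1) × (σ → Fin (k + 1)) → ℂ)
    (hc : ∀ x ∈ V, ∑ a, c a * (x ^ (a.1 : ℕ) * ∏ v, f v x ^ (a.2 v : ℕ)) = 0) : c = 0 := by
  classical
  let p : MvPolynomial σ ℂ[X] := ∑ a : Fin (N + 1) × (σ → Fin (k + 1)),
    MvPolynomial.monomial (Finsupp.equivFunOnFinite.symm fun v => (a.2 v : ℕ)) (C (c a) * X ^ (a.1 : ℕ))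
  have hp : p = 0 := by
    apply h
    intro x hx
    rw [← evH_apply, map_sum]
    refine Eq.trans ?_ (hc x hx)
    refine Finset.sum_congr rfl fun a _ => ?_
    rw [evH, MvPolynomial.coe_eval₂Hom, MvPolynomial.eval₂_monomial, Finsupp.prod_fintype _ _ (by simp)]
    simp [mul_assoc]
  funext a
  have h1 := congrArg (MvPolynomial.coeff (Finsupp.equivFunOnFinite.symm fun v => (a.2 v : ℕ))) hp
  rw [MvPolynomial.coeff_zero, MvPolynomial.coeff_sum] at h1
  have h2 := congrArg (fun q : ℂ[X] => q.coeff (a.1 : ℕ)) h1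
  simp only [coeff_zero] at h2
  rw [finsetSum_coeff, Finset.sum_eq_single a] at h2
  · simpa [MvPolynomial.coeff_monomial] using h2
  · intro b _ hb
    rw [MvPolynomial.coeff_monomial]
    split_ifs with h3
    · rw [coeff_C_mul, coeff_X_pow, if_neg, mul_zero]
      intro h4
      apply hb
      refine Prod.ext (Fin.ext h4.symm) ?_
      funext v
      have h5 := DFunLike.congr_fun h3 v
      simp only [Finsupp.coe_equivFunOnFinite_symm] at h5
      exact Fin.ext h5
    · rfl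
  · intro h3
    exact absurd (Finset.mem_univ _) h3

theorem pow_indep (N : ℕ) (c : Fin (N + 1) → ℂ) (hc : ∀ x ∈ (Set.univ : Set ℂ), ∑ a, c a * x ^ (a : ℕ) = 0) : c = 0 := by
  let p : ℂ[X] := ∑ a : Fin (N + 1), C (c a) * X ^ (a : ℕ)
  have hp : p = 0 := by
    apply Polynomial.funext
    intro x
    rw [eval_zero, ← hc x (Set.mem_univ x), eval_finsetSum]
    exact Finset.sum_congr rfl fun a _ => by simp
  funext a
  have h1 := congrArg (fun q : ℂ[X] => q.coeff (a : ℕ)) hp
  simp only [coeff_zero, p, finsetSum_coeff] at h1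
  rw [Finset.sum_eq_single a] at h1
  · simpa using h1
  · intro b _ hb
    rw [coeff_C_mul, coeff_X_pow, if_neg, mul_zero]
    intro h4
    exact hb (Fin.ext h4.symm)
  · intro h3
    exact absurd (Finset.mem_univ _) h3

variable {g : ℕ}

/-- the domain: the variables in `S` lie in `V` -/
def VS (V : Set ℂ) (S : Finset (Fin g)) (i : Fin g) : Set ℂ := {x | i ∈ S → x ∈ V}

/-- the values of the functions at the variables in `S` -/
def PS (f : σ → ℂ → ℂ) (S : Finset (Fin g)) (z : Fin g → ℂ) : Matrix Unit ({i // i ∈ S} × σ) ℂ :=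
  Matrix.of fun _ q => f q.2 (z q.1)

/-- one variable -/
noncomputable def tt (f : σ → ℂ → ℂ) (S : Finset (Fin g)) {k : ℕ} (l : Unit × ({i // i ∈ S} × σ) → Fin (k + 1)) (i : Fin g)
    (n : ℕ) (y : ℂ) : ℂ :=
  y ^ n * if hi : i ∈ S then ∏ v, f v y ^ (l ((), (⟨i, hi⟩, v)) : ℕ) else 1

theorem exists_weights (h : Indep V f) (S : Finset (Fin g)) {k : ℕ}
    (l0 : Unit × ({i // i ∈ S} × σ) → Fin (k + 1)) (N : ℕ) (i : Fin g) (n0 : ℕ) (hn0 : n0 ≤ N) :
    ∃ (s : Finset ℂ) (w : ℂ → ℂ), (∀ x ∈ s, x ∈ VS V S i) ∧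
      ∀ (l : Unit × ({i // i ∈ S} × σ) → Fin (k + 1)) (n : ℕ), n ≤ N →
        ∑ y ∈ s, w y * tt f S l i n y =
          if n = n0 ∧ ∀ (hi : i ∈ S) (v : σ), l ((), (⟨i, hi⟩, v)) = l0 ((), (⟨i, hi⟩, v)) then 1 else 0 := by
  classical
  by_cases hi : i ∈ S
  · obtain ⟨s, w, hs, hw⟩ := exists_fun V (fun (a : Fin (N + 1) × (σ → Fin (k + 1))) x =>
      x ^ (a.1 : ℕ) * ∏ v, f v x ^ (a.2 v : ℕ)) (mono_indep h N k)
      ((⟨n0, by omega⟩, fun v => l0 ((), (⟨i, hi⟩, v))) : Fin (N + 1) × (σ → Fin (k + 1)))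
    refine ⟨s, w, fun x hx _ => hs x hx, fun l n hn => ?_⟩
    have h1 := hw ((⟨n, by omega⟩, fun v => l ((), (⟨i, hi⟩, v))) : Fin (N + 1) × (σ → Fin (k + 1)))
    simp only [tt, dif_pos hi]
    rw [h1]
    congr 1
    rw [Prod.mk.injEq, Fin.mk.injEq, funext_iff]
    exact propext ⟨fun h2 => ⟨h2.1, fun _ v => h2.2 v⟩, fun h2 => ⟨h2.1, fun v => h2.2 hi v⟩⟩
  · obtain ⟨s, w, hs, hw⟩ := exists_fun Set.univ (fun (a : Fin (N + 1)) x => x ^ (a : ℕ)) (pow_indep N) ⟨n0, by omega⟩
    refine ⟨s, w, fun x _ h2 => absurd h2 hi, fun l n hn => ?_⟩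
    have h1 := hw ⟨n, by omega⟩
    simp only [tt, dif_neg hi, mul_one]
    rw [h1]
    congr 1
    rw [Fin.mk.injEq]
    exact propext ⟨fun h2 => ⟨h2, fun h3 => absurd h3 hi⟩, fun h2 => h2.1⟩

theorem prod_tt (f : σ → ℂ → ℂ) (S : Finset (Fin g)) {k : ℕ} (l : Unit × ({i // i ∈ S} × σ) → Fin (k + 1)) (d : Fin g → ℕ)
    (x : Fin g → ℂ) : ∏ i, tt f S l i (d i) (x i) = (∏ i, x i ^ d i) * ∏ v, PS f S x v.1 v.2 ^ (l v : ℕ) := by
  classical
  unfold tt
  rw [Finset.prod_mul_distrib]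
  congr 1
  have hR : ∏ v : Unit × ({i // i ∈ S} × σ), PS f S x v.1 v.2 ^ (l v : ℕ) =
      ∏ i : {i // i ∈ S}, ∏ v, f v (x i) ^ (l ((), (i, v)) : ℕ) := by
    have h1 : ∀ v : Unit × ({i // i ∈ S} × σ), PS f S x v.1 v.2 = f v.2.2 (x v.2.1) := fun v => rfl
    simp only [h1]
    rw [Fintype.prod_prod_type]
    change ∏ _u : Unit, ∏ q : {i // i ∈ S} × σ, f q.2 (x q.1) ^ (l ((), q) : ℕ) = _
    rw [Finset.prod_const, Finset.card_univ, Fintype.card_unit, pow_one, Fintype.prod_prod_type]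
  rw [hR, Finset.univ_eq_attach]
  rw [← Finset.prod_subset (Finset.subset_univ S) (by
    intro i _ hi
    rw [dif_neg hi]), ← Finset.prod_attach S]
  refine Finset.prod_congr rfl fun i _ => ?_
  rw [dif_pos i.2]

/-- **Independence of functions of different variables.** -/
theorem prod_indep (h : Indep V f) (S : Finset (Fin g)) {k : ℕ}
    (G : (Unit × ({i // i ∈ S} × σ) → Fin (k + 1)) → MvPolynomial (Fin g) ℂ)
    (hG : ∀ x ∈ UPi (VS V S), relVal (fun l => MvPolynomial.eval x (G l)) (PS f S x) = 0)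
    (l0 : Unit × ({i // i ∈ S} × σ) → Fin (k + 1)) : G l0 = 0 := by
  classical
  set N := Finset.univ.sup fun l => (G l).totalDegree with hN
  have hdeg : ∀ l, ∀ d ∈ (G l).support, ∀ i, d i ≤ N := by
    intro l d hd i
    have h1 := MvPolynomial.le_totalDegree hd
    rw [Finsupp.sum_fintype _ _ fun _ => rfl] at h1
    have h2 : (G l).totalDegree ≤ N := Finset.le_sup (f := fun l => (G l).totalDegree) (Finset.mem_univ l)
    exact (Finset.single_le_sum (fun j _ => Nat.zero_le (d j)) (Finset.mem_univ i)).trans (h1.trans h2)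
  ext d0
  rw [MvPolynomial.coeff_zero]
  by_contra hne
  have hd0 : d0 ∈ (G l0).support := MvPolynomial.mem_support_iff.2 hne
  choose s w hs hw using fun i => exists_weights h S l0 N i (d0 i) (hdeg l0 d0 hd0 i)
  have hx : ∀ x ∈ Fintype.piFinset s, (∏ i, w i (x i)) * relVal (fun l => MvPolynomial.eval x (G l)) (PS f S x) = 0 := by
    intro x hx
    rw [hG x fun i => hs i _ (Fintype.mem_piFinset.1 hx i), mul_zero]
  have hsum := Finset.sum_eq_zero hx
  have h1 : ∀ x : Fin g → ℂ, (∏ i, w i (x i)) * relVal (fun l => MvPolynomial.eval x (G l)) (PS f S x) =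
      ∑ l, ∑ d ∈ (G l).support, (G l).coeff d * ∏ i, (w i (x i) * tt f S l i (d i) (x i)) := by
    intro x
    unfold relVal
    rw [Finset.mul_sum]
    refine Finset.sum_congr rfl fun l _ => ?_
    change (∏ i, w i (x i)) * (MvPolynomial.eval x (G l) * ∏ v, PS f S x v.1 v.2 ^ (l v : ℕ)) = _
    rw [MvPolynomial.eval_eq', Finset.sum_mul, Finset.mul_sum]
    refine Finset.sum_congr rfl fun d _ => ?_
    rw [Finset.prod_mul_distrib, prod_tt]
    ring
  simp only [h1] at hsum
  rw [Finset.sum_comm] at hsum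
  have h2 : ∀ l, ∑ x ∈ Fintype.piFinset s, ∑ d ∈ (G l).support, (G l).coeff d * ∏ i, (w i (x i) * tt f S l i (d i) (x i)) =
      ∑ d ∈ (G l).support, (G l).coeff d * if d = d0 ∧ l = l0 then 1 else 0 := by
    intro l
    rw [Finset.sum_comm]
    refine Finset.sum_congr rfl fun d hd => ?_
    have hpu := Finset.prod_univ_sum s fun i y => w i y * tt f S l i (d i) y
    rw [← Finset.mul_sum, ← hpu]
    congr 1
    rw [Finset.prod_congr rfl fun i _ => hw i l (d i) (hdeg l d hd i)]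
    split_ifs with h3
    · refine Finset.prod_eq_one fun i _ => ?_
      rw [h3.1, h3.2, if_pos ⟨rfl, fun _ _ => rfl⟩]
    · rw [Finset.prod_ite_zero, if_neg]
      intro h4
      apply h3
      refine ⟨Finsupp.ext fun i => (h4 i (Finset.mem_univ i)).1, ?_⟩
      funext q
      obtain ⟨_, ⟨i, hi⟩, v⟩ := q
      exact (h4 i (Finset.mem_univ i)).2 hi v
  simp only [h2] at hsum
  rw [Finset.sum_eq_single l0 (by
    intro l _ hl
    refine Finset.sum_eq_zero fun d _ => ?_
    rw [if_neg (fun h3 => hl h3.2), mul_zero]) (fun h3 => absurd (Finset.mem_univ _) h3),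
    Finset.sum_eq_single d0 (by
      intro d _ hd
      rw [if_neg (fun h3 => hd h3.1), mul_zero]) (fun h3 => absurd hd0 h3), if_pos ⟨rfl, rfl⟩, mul_one] at hsum
  exact hne hsum

end Pool.Agent.X255.RH
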