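import Pool.Agent.X255.RH.Prim

/-!
# Algebraic independence of iterated integrals
-/

set_option autoImplicit false
set_option linter.unusedSectionVars false

open Polynomial Finset

namespace Pool.Agent.X255.RH.Iter

/-- `c ^ i / i!` -/
noncomputable def ew {R : Type} [CommRing R] [Algebra ℚ R] (c : R) (i : ℕ) : R := algebraMap ℚ R (1 / (i.factorial : ℚ)) * c ^ i

theorem ew_zero {R : Type} [CommRing R] [Algebra ℚ R] (c : R) : ew c 0 = 1 := by
  simp [ew]

theorem ew_map {R S : Type} [CommRing R] [Algebra ℚ R] [CommRing S] [Algebra ℚ S] (f : R →+* S) (c : R) (i : ℕ) :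
    f (ew c i) = ew (f c) i := by
  unfold ew
  rw [map_mul, map_pow, RingHom.map_rat_algebraMap]

theorem exp_inv {R : Type} [CommRing R] [Algebra ℚ R] (c : R) (v : ℕ → R) (k : ℕ) :
    ∑ p ∈ antidiagonal k, ew c p.1 * ∑ p' ∈ antidiagonal p.2, ew (-c) p'.1 * v p'.2 = v k := by
  have hA : ∀ c : R, PowerSeries.mk (ew c) = PowerSeries.rescale c (PowerSeries.exp R) := by
    intro c
    ext n
    rw [PowerSeries.coeff_mk, PowerSeries.coeff_rescale, PowerSeries.coeff_exp, ew, mul_comm]
  have h1 : PowerSeries.mk (ew c) * PowerSeries.mk (ew (-c)) = 1 := by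
    rw [hA, hA, PowerSeries.exp_mul_exp_eq_exp_add, add_neg_cancel, PowerSeries.rescale_zero]
    simp
  have h2 : ∀ l, PowerSeries.coeff l (PowerSeries.mk (ew (-c)) * PowerSeries.mk v) =
      ∑ p' ∈ antidiagonal l, ew (-c) p'.1 * v p'.2 := by
    intro l
    rw [PowerSeries.coeff_mul]
    simp only [PowerSeries.coeff_mk]
  have h3 : PowerSeries.coeff k (PowerSeries.mk (ew c) * (PowerSeries.mk (ew (-c)) * PowerSeries.mk v)) =
      ∑ p ∈ antidiagonal k, ew c p.1 * ∑ p' ∈ antidiagonal p.2, ew (-c) p'.1 * v p'.2 := by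
    rw [PowerSeries.coeff_mul]
    simp only [PowerSeries.coeff_mk, h2]
  rw [← h3, ← mul_assoc, h1, one_mul, PowerSeries.coeff_mk]

section
variable {C₀ K₀ E : Type} [Field C₀] [Field K₀] [Field E] [CharZero E] [Algebra C₀ K₀] [Algebra K₀ E] [Algebra C₀ E]
  [IsScalarTower C₀ K₀ E]

/-- the derivation on polynomials -/
noncomputable def dl (D₀ : Derivation C₀ K₀ K₀) (w : K₀) (p : K₀[X]) : K₀[X] :=
  ∑ n ∈ range (p.natDegree + 1), monomial n (D₀ (p.coeff n)) + C w * derivative p

theorem dl_coeff (D₀ : Derivation C₀ K₀ K₀) (w : K₀) (p : K₀[X]) (k : ℕ) :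
    (dl D₀ w p).coeff k = D₀ (p.coeff k) + w * (p.coeff (k + 1) * (k + 1)) := by
  unfold dl
  rw [coeff_add, finsetSum_coeff, coeff_C_mul, coeff_derivative]
  congr 1
  simp only [coeff_monomial]
  rw [Finset.sum_ite_eq' (range (p.natDegree + 1)) k]
  split_ifs with h
  · rfl
  · rw [coeff_eq_zero_of_natDegree_lt (by simpa [Nat.lt_succ_iff] using h), map_zero]

theorem dl_aeval (D₀ : Derivation C₀ K₀ K₀) (D : Derivation C₀ E E)
    (hD : ∀ f : K₀, D (algebraMap K₀ E f) = algebraMap K₀ E (D₀ f)) {L : E} {w : K₀} (hL : D L = algebraMap K₀ E w)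
    (p : K₀[X]) : D (aeval L p) = aeval L (dl D₀ w p) := by
  induction p using Polynomial.induction_on' with
  | add p q hp hq =>
    have h1 : dl D₀ w (p + q) = dl D₀ w p + dl D₀ w q := by
      ext k
      rw [coeff_add, dl_coeff, dl_coeff, dl_coeff, coeff_add, coeff_add, map_add]
      ring
    rw [map_add, map_add, hp, hq, h1, map_add]
  | monomial n c =>
    have h1 : dl D₀ w (monomial n c) = monomial n (D₀ c) + C w * derivative (monomial n c) := by
      ext k
      rw [dl_coeff, coeff_add, coeff_C_mul, coeff_derivative]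
      congr 1
      simp only [coeff_monomial]
      split_ifs
      · rfl
      · exact map_zero D₀
    rw [h1, map_add, map_mul, aeval_C, derivative_monomial, aeval_monomial, aeval_monomial, aeval_monomial,
      Derivation.leibniz, Derivation.leibniz_pow, hD, hL]
    simp only [smul_eq_mul, nsmul_eq_mul, map_mul, map_natCast]
    ring

/-- an element of `K₀(L)` whose derivative is in `K₀[L]` lies in `K₀[L]` -/
theorem pole (D₀ : Derivation C₀ K₀ K₀) (D : Derivation C₀ E E)
    (hD : ∀ f : K₀, D (algebraMap K₀ E f) = algebraMap K₀ E (D₀ f)) {L : E} {w : K₀} (hL : D L = algebraMap K₀ E w)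
    (hconst : ∀ x : E, D x = 0 → ∃ c : C₀, algebraMap C₀ E c = x)
    (hLK : ∀ (n : ℕ) (f : K₀), (n : E) * L = algebraMap K₀ E f → n = 0) {x : E} {r s h : K₀[X]} (hs : s ≠ 0)
    (hx : aeval L s * x = aeval L r) (hDx : D x = aeval L h) : ∃ p : K₀[X], x = aeval L p := by
  classical
  have hex : ∃ n, ∃ s : K₀[X], s ≠ 0 ∧ (∃ r : K₀[X], aeval L s * x = aeval L r) ∧ s.natDegree = n :=
    ⟨_, s, hs, ⟨r, hx⟩, rfl⟩
  obtain ⟨s, hs, ⟨r, hr⟩, hn⟩ := Nat.find_spec hex
  have hmin : ∀ s' : K₀[X], (∃ r : K₀[X], aeval L s' * x = aeval L r) → s'.natDegree < s.natDegree → s' = 0 := by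
    intro s' hs' hlt
    by_contra h0
    rw [hn] at hlt
    exact Nat.find_min hex hlt ⟨s', h0, hs', rfl⟩
  set t : K₀[X] := C s.leadingCoeff⁻¹ * s with ht
  have hlc : s.leadingCoeff ≠ 0 := leadingCoeff_ne_zero.2 hs
  have htm : t.Monic := by
    rw [ht, Monic, leadingCoeff_mul, leadingCoeff_C, inv_mul_cancel₀ hlc]
  have htd : t.natDegree = s.natDegree := by
    rw [ht]
    exact natDegree_C_mul (inv_ne_zero hlc)
  have htr : aeval L t * x = aeval L (C s.leadingCoeff⁻¹ * r) := by
    rw [ht, map_mul, map_mul, mul_assoc, hr]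
  have hd1 : aeval L (dl D₀ w t) * x = aeval L (dl D₀ w (C s.leadingCoeff⁻¹ * r) - t * h) := by
    have h1 : D (aeval L t * x) = D (aeval L (C s.leadingCoeff⁻¹ * r)) := by rw [htr]
    rw [Derivation.leibniz, dl_aeval D₀ D hD hL, dl_aeval D₀ D hD hL, hDx, smul_eq_mul, smul_eq_mul] at h1
    rw [map_sub, map_mul, ← h1]
    ring
  by_cases hn0 : t.natDegree = 0
  · have h1 : t = 1 := htm.natDegree_eq_zero.1 hn0
    rw [h1, map_one, one_mul] at htr
    exact ⟨_, htr⟩
  exfalso
  have hdeg : (dl D₀ w t).natDegree < t.natDegree := by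
    have h1 : (dl D₀ w t).natDegree ≤ t.natDegree - 1 := by
      rw [natDegree_le_iff_coeff_eq_zero]
      intro k hk
      rw [dl_coeff, coeff_eq_zero_of_natDegree_lt (show t.natDegree < k + 1 by omega), zero_mul, mul_zero, add_zero]
      rcases Nat.lt_or_ge t.natDegree k with h2 | h2
      · rw [coeff_eq_zero_of_natDegree_lt h2, map_zero]
      · have h3 : k = t.natDegree := by omega
        rw [h3, show t.coeff t.natDegree = 1 from htm]
        exact D₀.map_one_eq_zero
    omega
  have hd0 : dl D₀ w t = 0 := hmin _ ⟨_, hd1⟩ (by rw [← htd]; exact hdeg)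
  obtain ⟨n, hn⟩ : ∃ n, t.natDegree = n + 1 := Nat.exists_eq_succ_of_ne_zero hn0
  have h1 : D₀ (t.coeff n) + w * (t.coeff (n + 1) * (n + 1)) = 0 := by
    rw [← dl_coeff, hd0, coeff_zero]
  have h2 : t.coeff (n + 1) = 1 := by
    rw [← hn]
    exact htm
  rw [h2, one_mul] at h1
  have h3 : D (algebraMap K₀ E (t.coeff n) + ((n + 1 : ℕ) : E) * L) = 0 := by
    rw [map_add, Derivation.leibniz, hD, hL, Derivation.map_natCast, smul_zero, add_zero, smul_eq_mul]
    have h4 := congrArg (algebraMap K₀ E) h1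
    rw [map_add, map_mul, map_zero] at h4
    rw [← h4]
    push_cast
    ring
  obtain ⟨c, hc⟩ := hconst _ h3
  have h5 := hLK (n + 1) (algebraMap C₀ K₀ c - t.coeff n) (by
    rw [map_sub, ← IsScalarTower.algebraMap_apply, hc]
    ring)
  omega

theorem ew_neg [CharZero K₀] (L : E) (k : ℕ) : ew (-L) k = algebraMap K₀ E (ew (-1) k) * L ^ k := by
  unfold ew
  rw [map_mul, RingHom.map_rat_algebraMap, map_pow, map_neg, map_one, mul_assoc, ← mul_pow, neg_one_mul]

theorem D_ew (D : Derivation C₀ E E) {L w' : E} (hL : D L = w') (i : ℕ) : D (ew (-L) (i + 1)) = -(w' * ew (-L) i) := by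
  unfold ew
  rw [Derivation.leibniz, Derivation.leibniz_pow, map_neg, hL]
  have h1 : D (algebraMap ℚ E (1 / ((i + 1).factorial : ℚ))) = 0 := by
    have h2 : algebraMap ℚ E (1 / ((i + 1).factorial : ℚ)) * ((i + 1).factorial : E) = 1 := by
      rw [eq_ratCast]
      push_cast
      have : ((i + 1).factorial : E) ≠ 0 := by exact_mod_cast (i + 1).factorial_ne_zero
      field_simp
    have h3 := congrArg D h2
    rw [Derivation.leibniz, Derivation.map_natCast, smul_zero, zero_add, D.map_one_eq_zero, smul_eq_mul] at h3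
    have : ((i + 1).factorial : E) ≠ 0 := by exact_mod_cast (i + 1).factorial_ne_zero
    exact (mul_eq_zero.1 h3).resolve_left this
  rw [h1, smul_zero, add_zero]
  have h4 : algebraMap ℚ E (1 / ((i + 1).factorial : ℚ)) * ((i + 1 : ℕ) : E) = algebraMap ℚ E (1 / (i.factorial : ℚ)) := by
    rw [eq_ratCast, eq_ratCast, Nat.factorial_succ]
    push_cast
    have h5 : (i.factorial : E) ≠ 0 := by exact_mod_cast i.factorial_ne_zero
    have h6 : (i : E) + 1 ≠ 0 := by exact_mod_cast Nat.succ_ne_zero i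
    field_simp
  rw [← h4]
  simp only [smul_eq_mul, nsmul_eq_mul, Nat.add_sub_cancel]
  ring

theorem D_y (D : Derivation C₀ E E) {L w' a' : E} (hL : D L = w') {m : ℕ} (X : ℕ → E) (h0 : D (X 0) = a')
    (hs : ∀ k, k < m → D (X (k + 1)) = w' * X k) (k : ℕ) (hk : k ≤ m) :
    D (∑ p ∈ antidiagonal k, ew (-L) p.1 * X p.2) = ew (-L) k * a' := by
  cases k with
  | zero =>
    rw [Finset.Nat.antidiagonal_zero, Finset.sum_singleton]
    simp only [ew_zero, one_mul]
    exact h0
  | succ k =>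
    have h1 : D (∑ p ∈ antidiagonal (k + 1), ew (-L) p.1 * X p.2) =
        ∑ p ∈ antidiagonal (k + 1), ew (-L) p.1 * D (X p.2) + ∑ p ∈ antidiagonal (k + 1), D (ew (-L) p.1) * X p.2 := by
      rw [map_sum, ← Finset.sum_add_distrib]
      refine Finset.sum_congr rfl fun p _ => ?_
      rw [Derivation.leibniz, smul_eq_mul, smul_eq_mul, mul_comm (X p.2)]
    rw [h1, Finset.Nat.sum_antidiagonal_succ' (f := fun p => ew (-L) p.1 * D (X p.2)),
      Finset.Nat.sum_antidiagonal_succ (f := fun p => D (ew (-L) p.1) * X p.2)]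
    simp only [ew_zero, D.map_one_eq_zero, zero_mul, zero_add, h0, D_ew D hL]
    have h2 : ∑ p ∈ antidiagonal k, ew (-L) p.1 * D (X (p.2 + 1)) = ∑ p ∈ antidiagonal k, w' * (ew (-L) p.1 * X p.2) := by
      refine Finset.sum_congr rfl fun p hp => ?_
      rw [hs p.2 (by have := Finset.HasAntidiagonal.mem_antidiagonal.1 hp; omega)]
      ring
    have h3 : ∑ p ∈ antidiagonal k, -(w' * ew (-L) p.1) * X p.2 = -∑ p ∈ antidiagonal k, w' * (ew (-L) p.1 * X p.2) := by
      rw [← Finset.sum_neg_distrib]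
      refine Finset.sum_congr rfl fun p _ => ?_
      ring
    rw [h2, h3]
    ring

/-- the combinatorial part: comparison of coefficients -/
theorem coeffs [CharZero K₀] [CharZero C₀] (D₀ : Derivation C₀ K₀ K₀) (D : Derivation C₀ E E)
    (hD : ∀ f : K₀, D (algebraMap K₀ E f) = algebraMap K₀ E (D₀ f)) {L : E} {w : K₀} (hL : D L = algebraMap K₀ E w)
    (hconst : ∀ x : E, D x = 0 → ∃ c : C₀, algebraMap C₀ E c = x) {r : ℕ} (a : Fin r → K₀) (X : Fin r → E)
    (hX : ∀ j, D (X j) = algebraMap K₀ E (a j))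
    (hlin : ∀ (c₀ : C₀) (c : Fin r → C₀) (f : K₀), algebraMap C₀ E c₀ * L + ∑ j, algebraMap C₀ E (c j) * X j =
      algebraMap K₀ E f → c₀ = 0 ∧ c = 0) (p : K₀[X]) (e : ℕ → Fin r → C₀) (m : ℕ) (he : ∀ k, m < k → e k = 0)
    (h : ∀ k, D₀ (p.coeff k) + w * (p.coeff (k + 1) * (k + 1)) = ∑ j, algebraMap C₀ K₀ (e k j) * (ew (-1) k * a j)) :
    ∀ k, e k = 0 := by
  have hS : ∀ n, (∀ k, n ≤ k → p.coeff (k + 1) = 0 ∧ e k = 0) → ∀ k, p.coeff (k + 1) = 0 ∧ e k = 0 := by
    intro n
    induction n with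
    | zero => exact fun h k => h k (Nat.zero_le k)
    | succ n ih =>
      intro hn
      refine ih fun k hk => ?_
      rcases Nat.lt_or_ge n k with h1 | h1
      · exact hn k h1
      have hkn : k = n := le_antisymm h1 hk
      subst hkn
      -- the coefficient of index k + 1 is constant
      have h2 := h (k + 1)
      rw [(hn (k + 1) le_rfl).1, (hn (k + 1) le_rfl).2, zero_mul, mul_zero, add_zero] at h2
      simp only [Pi.zero_apply, map_zero, zero_mul, Finset.sum_const_zero] at h2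
      obtain ⟨c', hc'⟩ := hconst (algebraMap K₀ E (p.coeff (k + 1))) (by rw [hD, h2, map_zero])
      have hc'' : p.coeff (k + 1) = algebraMap C₀ K₀ c' := by
        apply (algebraMap K₀ E).injective
        rw [← hc', ← IsScalarTower.algebraMap_apply]
      have h3 := h k
      rw [hc''] at h3
      have h4 : D (algebraMap K₀ E (p.coeff k) + (algebraMap C₀ E (c' * (k + 1)) * L +
          ∑ j, algebraMap C₀ E (-(e k j * ew (-1) k)) * X j)) = 0 := by
        have hs : ∀ (c : C₀) (x : E), D (algebraMap C₀ E c * x) = algebraMap C₀ E c * D x := by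
          intro c x
          rw [← Algebra.smul_def, D.map_smul, Algebra.smul_def]
        have he2 : ∀ j, algebraMap C₀ E (-(e k j * ew (-1) k)) * D (X j) =
            -algebraMap K₀ E (algebraMap C₀ K₀ (e k j) * (ew (-1) k * a j)) := by
          intro j
          have h5 : algebraMap C₀ K₀ (ew (-1) k) = ew (-1) k := by
            rw [ew_map, map_neg, map_one]
          rw [hX, IsScalarTower.algebraMap_apply C₀ K₀ E, map_neg, map_mul, h5]
          simp only [map_mul, map_neg]
          ring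
        rw [map_add, map_add, map_sum, hD, hs, hL]
        simp only [hs, he2]
        rw [Finset.sum_neg_distrib, ← map_sum, ← h3, IsScalarTower.algebraMap_apply C₀ K₀ E]
        simp only [map_add, map_mul, map_natCast, map_one]
        ring
      obtain ⟨c3, hc3⟩ := hconst _ h4
      have h5 := hlin (c' * (k + 1)) (fun j => -(e k j * ew (-1) k)) (algebraMap C₀ K₀ c3 - p.coeff k) (by
        rw [map_sub, ← IsScalarTower.algebraMap_apply, hc3]
        ring)
      have h6 : (k : C₀) + 1 ≠ 0 := by exact_mod_cast Nat.succ_ne_zero k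
      have h7 : c' = 0 := (mul_eq_zero.1 h5.1).resolve_right h6
      refine ⟨by rw [hc'', h7, map_zero], ?_⟩
      funext j
      have h8 := congrFun h5.2 j
      simp only [Pi.zero_apply, neg_eq_zero] at h8
      refine (mul_eq_zero.1 h8).resolve_right ?_
      unfold ew
      refine mul_ne_zero ?_ (pow_ne_zero _ (neg_ne_zero.2 one_ne_zero))
      rw [eq_ratCast]
      have : (1 / (k.factorial : ℚ)) ≠ 0 := by positivity
      exact_mod_cast this
  intro k
  refine (hS (max p.natDegree (m + 1)) (fun k hk => ⟨coeff_eq_zero_of_natDegree_lt ?_, he k ?_⟩) k).2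
  · have := (le_max_left p.natDegree (m + 1)).trans hk
    omega
  · have := (le_max_right p.natDegree (m + 1)).trans hk
    omega

end

section
variable {C₀ K₀ E : Type} [Field C₀] [Field K₀] [Field E] [CharZero E] [CharZero K₀] [CharZero C₀] [Algebra C₀ K₀]
  [Algebra K₀ E] [Algebra C₀ E] [IsScalarTower C₀ K₀ E]

/-- the field generated by `L` -/
abbrev FL (K₀ : Type) {E : Type} [Field K₀] [Field E] [Algebra K₀ E] (L : E) : IntermediateField K₀ E :=
  IntermediateField.adjoin K₀ {L}

theorem aeval_mem_FL (L : E) (p : K₀[X]) : aeval L p ∈ FL K₀ L :=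
  (IntermediateField.mem_adjoin_simple_iff K₀ _).2 ⟨p, 1, by simp⟩

theorem FL_rep (L : E) {x : E} (hx : x ∈ FL K₀ L) : ∃ r s : K₀[X], s ≠ 0 ∧ aeval L s ≠ 0 ∧ aeval L s * x = aeval L r := by
  obtain ⟨r, s, h⟩ := (IntermediateField.mem_adjoin_simple_iff K₀ _).1 hx
  by_cases h0 : aeval L s = 0
  · refine ⟨0, 1, one_ne_zero, by simp, ?_⟩
    rw [h, h0, div_zero, mul_zero, map_zero]
  · refine ⟨r, s, fun h1 => h0 (by rw [h1, map_zero]), h0, ?_⟩
    rw [h, mul_div_cancel₀ _ h0]

theorem D_FL (D₀ : Derivation C₀ K₀ K₀) (D : Derivation C₀ E E)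
    (hD : ∀ f : K₀, D (algebraMap K₀ E f) = algebraMap K₀ E (D₀ f)) {L : E} {w : K₀} (hL : D L = algebraMap K₀ E w)
    {x : E} (hx : x ∈ FL K₀ L) : D x ∈ FL K₀ L := by
  obtain ⟨r, s, -, hs, h⟩ := FL_rep L hx
  have h1 := congrArg D h
  rw [Derivation.leibniz, dl_aeval D₀ D hD hL, dl_aeval D₀ D hD hL, smul_eq_mul, smul_eq_mul] at h1
  have h2 : D x = (aeval L (dl D₀ w r) - x * aeval L (dl D₀ w s)) / aeval L s := by
    rw [eq_div_iff hs, ← h1]
    ring
  rw [h2]
  exact div_mem (sub_mem (aeval_mem_FL L _) (mul_mem hx (aeval_mem_FL L _))) (aeval_mem_FL L _)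

noncomputable def DFL (D₀ : Derivation C₀ K₀ K₀) (D : Derivation C₀ E E)
    (hD : ∀ f : K₀, D (algebraMap K₀ E f) = algebraMap K₀ E (D₀ f)) {L : E} {w : K₀} (hL : D L = algebraMap K₀ E w) :
    Derivation C₀ (FL K₀ L) (FL K₀ L) :=
  Derivation.mk' { toFun := fun x => ⟨D x, D_FL D₀ D hD hL x.2⟩
                   map_add' := fun a b => Subtype.ext (by simp)
                   map_smul' := fun c x => Subtype.ext (by simp) }
    (fun a b => Subtype.ext (by simp [Derivation.leibniz]))

omit [CharZero C₀] [CharZero K₀] [CharZero E] in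
/-- a unipotent change of variables -/
theorem unip {F : Type} [Field F] [CharZero F] [CharZero E] [Algebra F E] {r m : ℕ} (L : F) (X : Fin r → ℕ → E)
    (hy : AlgebraicIndependent F (fun jk : Fin r × Fin (m + 1) =>
      ∑ p ∈ antidiagonal (jk.2 : ℕ), ew (-(algebraMap F E L)) p.1 * X jk.1 p.2)) :
    AlgebraicIndependent F (fun jk : Fin r × Fin (m + 1) => X jk.1 jk.2) := by
  classical
  set y : Fin r × Fin (m + 1) → E := fun jk => ∑ p ∈ antidiagonal (jk.2 : ℕ), ew (-(algebraMap F E L)) p.1 * X jk.1 p.2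
    with hydef
  set v : Fin r → ℕ → MvPolynomial (Fin r × Fin (m + 1)) F := fun j l =>
    if h : l < m + 1 then MvPolynomial.X (j, ⟨l, h⟩) else 0 with hv
  set φ : F → (MvPolynomial (Fin r × Fin (m + 1)) F →ₐ[F] MvPolynomial (Fin r × Fin (m + 1)) F) := fun c =>
    MvPolynomial.aeval (fun jk => ∑ p ∈ antidiagonal (jk.2 : ℕ), ew (MvPolynomial.C c) p.1 * v jk.1 p.2) with hφ
  have hvl : ∀ j l (h : l < m + 1), v j l = MvPolynomial.X (j, ⟨l, h⟩) := by
    intro j l h
    rw [hv]
    exact dif_pos h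
  have hA : ∀ jk, MvPolynomial.aeval y (φ L (MvPolynomial.X jk)) = X jk.1 jk.2 := by
    intro jk
    rw [hφ]
    simp only [MvPolynomial.aeval_X]
    rw [map_sum, ← exp_inv (algebraMap F E L) (X jk.1) (jk.2 : ℕ)]
    refine Finset.sum_congr rfl fun p hp => ?_
    have hp2 : p.2 < m + 1 := by
      have h1 := Finset.HasAntidiagonal.mem_antidiagonal.1 hp
      have h2 := jk.2.isLt
      omega
    have h3 := ew_map ((MvPolynomial.aeval y : MvPolynomial (Fin r × Fin (m + 1)) F →ₐ[F] E) : MvPolynomial (Fin r × Fin (m + 1)) F →+* E)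
      (MvPolynomial.C L) p.1
    rw [map_mul, hvl _ _ hp2, MvPolynomial.aeval_X]
    have h4 : (MvPolynomial.aeval y) (ew (MvPolynomial.C L) p.1) = ew (algebraMap F E L) p.1 := by
      refine h3.trans ?_
      congr 1
      exact MvPolynomial.algHom_C (MvPolynomial.aeval y : MvPolynomial (Fin r × Fin (m + 1)) F →ₐ[F] E) L
    rw [h4]
  have hB : ∀ P, φ (-L) (φ L P) = P := by
    intro P
    have h0 : (φ (-L)).comp (φ L) = AlgHom.id F _ := by
      refine MvPolynomial.algHom_ext fun jk => ?_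
      show φ (-L) (φ L (MvPolynomial.X jk)) = MvPolynomial.X jk
      have hL : φ L (MvPolynomial.X jk) = ∑ p ∈ antidiagonal (jk.2 : ℕ), ew (MvPolynomial.C L) p.1 * v jk.1 p.2 := by
        rw [hφ]
        simp only [MvPolynomial.aeval_X]
      rw [hL, map_sum]
      have h5 := exp_inv (MvPolynomial.C L : MvPolynomial (Fin r × Fin (m + 1)) F) (v jk.1) (jk.2 : ℕ)
      rw [hvl _ _ jk.2.isLt] at h5
      refine Eq.trans ?_ h5
      refine Finset.sum_congr rfl fun p hp => ?_
      have hp2 : p.2 < m + 1 := by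
        have h1 := Finset.HasAntidiagonal.mem_antidiagonal.1 hp
        have h2 := jk.2.isLt
        omega
      have h3 := ew_map ((φ (-L) : MvPolynomial (Fin r × Fin (m + 1)) F →ₐ[F] MvPolynomial (Fin r × Fin (m + 1)) F) :
        MvPolynomial (Fin r × Fin (m + 1)) F →+* MvPolynomial (Fin r × Fin (m + 1)) F) (MvPolynomial.C L) p.1
      have h4 : (φ (-L)) (ew (MvPolynomial.C L) p.1) = ew (MvPolynomial.C L) p.1 := by
        refine h3.trans ?_
        congr 1
        exact MvPolynomial.algHom_C (φ (-L)) L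
      have h6 : φ (-L) (v jk.1 p.2) = ∑ p' ∈ antidiagonal p.2, ew (-MvPolynomial.C L) p'.1 * v jk.1 p'.2 := by
        rw [hvl _ _ hp2, hφ]
        simp only [MvPolynomial.aeval_X, map_neg]
      rw [map_mul, h4, h6]
    exact DFunLike.congr_fun h0 P
  rw [AlgebraicIndependent] at hy ⊢
  have hC : (MvPolynomial.aeval (fun jk : Fin r × Fin (m + 1) => X jk.1 jk.2) :
      MvPolynomial (Fin r × Fin (m + 1)) F →ₐ[F] E) = (MvPolynomial.aeval y).comp (φ L) := by
    refine MvPolynomial.algHom_ext fun jk => ?_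
    rw [MvPolynomial.aeval_X]
    exact (hA jk).symm
  rw [hC]
  intro P Q hPQ
  have h1 : φ L P = φ L Q := hy hPQ
  rw [← hB P, h1, hB]

/-- **Iterated integrals.** -/
theorem iter_alg (D₀ : Derivation C₀ K₀ K₀) (D : Derivation C₀ E E)
    (hD : ∀ f : K₀, D (algebraMap K₀ E f) = algebraMap K₀ E (D₀ f)) {L : E} {w : K₀} (hL : D L = algebraMap K₀ E w)
    (hconst : ∀ x : E, D x = 0 → ∃ c : C₀, algebraMap C₀ E c = x) {r m : ℕ} (a : Fin r → K₀) (X : Fin r → ℕ → E)
    (hX0 : ∀ j, D (X j 0) = algebraMap K₀ E (a j)) (hXs : ∀ j k, k < m → D (X j (k + 1)) = algebraMap K₀ E w * X j k)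
    (hlin : ∀ (c₀ : C₀) (c : Fin r → C₀) (f : K₀), algebraMap C₀ E c₀ * L + ∑ j, algebraMap C₀ E (c j) * X j 0 =
      algebraMap K₀ E f → c₀ = 0 ∧ c = 0) :
    AlgebraicIndependent K₀ (Sum.elim (fun jk : Fin r × Fin (m + 1) => X jk.1 jk.2) (fun _ : Unit => L)) := by
  classical
  have hLt : AlgebraicIndependent K₀ (fun _ : Unit => L) := by
    refine Pool.Agent.W253.LF.t_OST C₀ K₀ E D₀ D hD hconst Unit (fun _ => L) (fun _ => w) (fun _ => hL) ?_
    intro c f hcf
    have h1 := hlin (c ()) 0 f (by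
      rw [← hcf]
      simp)
    funext u
    exact h1.1
  have htr : ∀ p : K₀[X], aeval L p = 0 → p = 0 :=
    transcendental_iff.1 (algebraicIndependent_unique_type_iff.1 hLt)
  have hLK : ∀ (n : ℕ) (f : K₀), (n : E) * L = algebraMap K₀ E f → n = 0 := by
    intro n f hnf
    have h1 := hlin n 0 f (by
      rw [← hnf]
      simp)
    exact_mod_cast h1.1
  set y : Fin r × Fin (m + 1) → E := fun jk => ∑ p ∈ antidiagonal (jk.2 : ℕ), ew (-L) p.1 * X jk.1 p.2 with hy
  have hDy : ∀ jk, D (y jk) = algebraMap K₀ E (ew (-1) (jk.2 : ℕ) * a jk.1) * L ^ (jk.2 : ℕ) := by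
    intro jk
    rw [hy, D_y D hL (fun k => X jk.1 k) (hX0 jk.1) (hXs jk.1) _ (Nat.lt_succ_iff.1 jk.2.isLt), ew_neg (K₀ := K₀), map_mul]
    ring
  haveI hst : IsScalarTower C₀ (FL K₀ L) E := IsScalarTower.of_algebraMap_eq fun c => rfl
  have hyind : AlgebraicIndependent (FL K₀ L) y := by
    refine Pool.Agent.W253.LF.t_OST C₀ (FL K₀ L) E (DFL D₀ D hD hL) D (fun x => rfl) hconst _ y
      (fun jk => ⟨aeval L (monomial (jk.2 : ℕ) (ew (-1) (jk.2 : ℕ) * a jk.1)), aeval_mem_FL L _⟩) (fun jk => ?_) ?_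
    · rw [hDy]
      show _ = aeval L (monomial (jk.2 : ℕ) (ew (-1) (jk.2 : ℕ) * a jk.1))
      rw [aeval_monomial]
    · intro c f hcf
      set h : K₀[X] := ∑ jk : Fin r × Fin (m + 1), monomial (jk.2 : ℕ) (algebraMap C₀ K₀ (c jk) *
        (ew (-1) (jk.2 : ℕ) * a jk.1)) with hh
      have hDf : D (f : E) = aeval L h := by
        have h1 := congrArg D hcf
        have h2 : D (algebraMap (FL K₀ L) E f) = D (f : E) := rfl
        rw [h2, map_sum] at h1
        rw [← h1, hh, map_sum]
        refine Finset.sum_congr rfl fun jk _ => ?_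
        rw [← Algebra.smul_def, D.map_smul, Algebra.smul_def, hDy, aeval_monomial, IsScalarTower.algebraMap_apply C₀ K₀ E]
        simp only [map_mul]
        ring
      obtain ⟨r', s', hs', -, hrs⟩ := FL_rep L f.2
      obtain ⟨p, hp⟩ := pole D₀ D hD hL hconst hLK hs' hrs hDf
      have hdl : dl D₀ w p = h := by
        have h1 : aeval L (dl D₀ w p - h) = 0 := by
          rw [map_sub, ← dl_aeval D₀ D hD hL, ← hp, hDf, sub_self]
        exact sub_eq_zero.1 (htr _ h1)
      set e : ℕ → Fin r → C₀ := fun k j => if hk : k < m + 1 then c (j, ⟨k, hk⟩) else 0 with he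
      have hco : ∀ k, h.coeff k = ∑ j, algebraMap C₀ K₀ (e k j) * (ew (-1) k * a j) := by
        intro k
        rw [hh, finsetSum_coeff, Fintype.sum_prod_type]
        refine Finset.sum_congr rfl fun j _ => ?_
        simp only [coeff_monomial]
        by_cases hk : k < m + 1
        · rw [Finset.sum_eq_single (⟨k, hk⟩ : Fin (m + 1))]
          · simp only [he, if_true, dif_pos hk]
          · intro l _ hl
            rw [if_neg]
            intro h1
            exact hl (Fin.ext h1)
          · intro h1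
            exact absurd (Finset.mem_univ _) h1
        · simp only [he, dif_neg hk, map_zero, zero_mul]
          refine Finset.sum_eq_zero fun l _ => ?_
          rw [if_neg]
          intro h1
          exact hk (by rw [← h1]; exact l.isLt)
      have key := coeffs D₀ D hD hL hconst a (fun j => X j 0) hX0 hlin p e m (fun k hk => by
        funext j
        simp only [he, Pi.zero_apply]
        rw [dif_neg (by omega)]) (fun k => by rw [← hco, ← hdl, dl_coeff])
      funext jk
      have h1 := congrFun (key (jk.2 : ℕ)) jk.1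
      simp only [he, dif_pos jk.2.isLt, Pi.zero_apply] at h1
      exact h1
  have hXind : AlgebraicIndependent (FL K₀ L) (fun jk : Fin r × Fin (m + 1) => X jk.1 jk.2) :=
    unip (⟨L, IntermediateField.mem_adjoin_simple_self K₀ L⟩ : FL K₀ L) X hyind
  refine hLt.sumElim_of_tower (S := FL K₀ L) ?_ hXind
  rintro _ ⟨u, rfl⟩
  exact ⟨⟨L, IntermediateField.mem_adjoin_simple_self K₀ L⟩, rfl⟩

end

end Pool.Agent.X255.RH.Iter
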