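import Pool.Agent.X255.RH.Iter

/-!
# Analytic iterated integrals
-/

set_option autoImplicit false
set_option linter.unusedSectionVars false

open Polynomial Filter Topology

namespace Pool.Agent.X255.RH

open Pool.Agent.Y890.SP

/-- the field of germs at a point of `V` -/
theorem germs {V : Set ℂ} (hV : IsPreconnected V) (hVo : IsOpen V) (hne : V.Nonempty) :
    ∃ (E : Type) (_ : Field E) (_ : Algebra ℂ E) (_ : Algebra ℂ[X] E) (_ : IsScalarTower ℂ ℂ[X] E)
      (_ : FaithfulSMul ℂ[X] E) (_ : CharZero E) (D : Derivation ℂ E E) (G : (ℂ → ℂ) → E),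
      D (algebraMap ℂ[X] E X) = 1 ∧ (∀ x, D x = 0 → ∃ c, algebraMap ℂ E c = x) ∧
      (∀ c, G (fun _ => c) = algebraMap ℂ E c) ∧ (∀ p : ℂ[X], G (fun x => p.eval x) = algebraMap ℂ[X] E p) ∧
      (∀ f g, AnalyticOnNhd ℂ f V → AnalyticOnNhd ℂ g V → G (fun x => f x + g x) = G f + G g) ∧
      (∀ f g, AnalyticOnNhd ℂ f V → AnalyticOnNhd ℂ g V → G (fun x => f x * g x) = G f * G g) ∧
      (∀ f, AnalyticOnNhd ℂ f V → G (deriv f) = D (G f)) ∧
      (∀ f, AnalyticOnNhd ℂ f V → G f = 0 → ∀ x ∈ V, f x = 0) ∧ (∀ f g, (∀ x ∈ V, f x = g x) → G f = G g) := by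
  classical
  obtain ⟨x0, hx0⟩ := hne
  obtain ⟨E, _, _, D, T, hconst, hTc, hTa, hTm, hTd, hTz, hTe⟩ := Pool.Agent.W924.LF.t_GERM ℂ
  haveI : CharZero E := charZero_of_injective_algebraMap (algebraMap ℂ E).injective
  have hsh : ∀ g : ℂ → ℂ, AnalyticAt ℂ g x0 → AnalyticAt ℂ (fun s => g (x0 + s)) 0 := by
    intro g hg
    have h1 : AnalyticAt ℂ (fun s : ℂ => x0 + s) 0 := analyticAt_const.add analyticAt_id
    refine AnalyticAt.comp' ?_ h1
    rw [add_zero]
    exact hg
  set τ : E := T (fun s => x0 + s) with hτ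
  have hpow : ∀ (g : ℂ → ℂ), AnalyticAt ℂ g 0 → ∀ n : ℕ, T (fun s => g s ^ n) = T g ^ n := by
    intro g hg n
    induction n with
    | zero =>
      simp only [pow_zero]
      rw [hTc 1, map_one]
    | succ n ih =>
      simp only [pow_succ]
      rw [hTm (fun s => g s ^ n) g (hg.pow n) hg, ih]
  have hid : AnalyticAt ℂ (fun s : ℂ => x0 + s) 0 := analyticAt_const.add analyticAt_id
  have halg0 : ∀ p : ℂ[X], aeval τ p = T (fun s => p.eval (x0 + s)) := by
    intro p
    induction p using Polynomial.induction_on' with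
    | add p q hp hq =>
      simp only [eval_add]
      rw [hTa _ _ (hsh _ (p.differentiable.analyticAt x0)) (hsh _ (q.differentiable.analyticAt x0)), map_add, hp, hq]
    | monomial n a =>
      simp only [eval_monomial]
      rw [hTm (fun _ => a) (fun s => (x0 + s) ^ n) analyticAt_const (hid.pow n), hTc, hpow _ hid, aeval_monomial]
  letI : Algebra ℂ[X] E := (aeval τ : ℂ[X] →ₐ[ℂ] E).toRingHom.toAlgebra
  have halg : ∀ p : ℂ[X], algebraMap ℂ[X] E p = T (fun s => p.eval (x0 + s)) := halg0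
  haveI : IsScalarTower ℂ ℂ[X] E := IsScalarTower.of_algebraMap_eq fun c => by
    show _ = aeval τ (C c)
    rw [aeval_C]
  haveI : FaithfulSMul ℂ[X] E := by
    refine (faithfulSMul_iff_algebraMap_injective ℂ[X] E).2 ?_
    rw [injective_iff_map_eq_zero]
    intro p hp
    rw [halg] at hp
    have h1 := hTz _ (hsh _ (p.differentiable.analyticAt x0)) hp
    have h2 : ∀ᶠ x in 𝓝 x0, p.eval x = 0 := by
      have h3 : Tendsto (fun x => x - x0) (𝓝 x0) (𝓝 0) := by
        have : Tendsto (fun x => x - x0) (𝓝 x0) (𝓝 (x0 - x0)) := tendsto_id.sub tendsto_const_nhds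
        rwa [sub_self] at this
      filter_upwards [h3.eventually h1] with x hx
      rwa [add_sub_cancel] at hx
    have h4 := (show AnalyticOnNhd ℂ (fun x => p.eval x) Set.univ from fun x _ => p.differentiable.analyticAt x).eqOn_zero_of_preconnected_of_eventuallyEq_zero
      isPreconnected_univ (Set.mem_univ x0) h2
    exact Polynomial.funext fun x => by rw [eval_zero]; exact h4 (Set.mem_univ x)
  have hX : D (algebraMap ℂ[X] E X) = 1 := by
    rw [halg]
    simp only [eval_X]
    rw [← hTd _ hid]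
    have h1 : deriv (fun s : ℂ => x0 + s) = fun _ => 1 := by
      funext s
      simp
    rw [h1, hTc, map_one]
  refine ⟨E, inferInstance, inferInstance, inferInstance, inferInstance, inferInstance, inferInstance, D,
    fun f => T (fun s => f (x0 + s)), hX, hconst, hTc, fun p => (halg p).symm,
    fun f g hf hg => hTa _ _ (hsh _ (hf x0 hx0)) (hsh _ (hg x0 hx0)),
    fun f g hf hg => hTm _ _ (hsh _ (hf x0 hx0)) (hsh _ (hg x0 hx0)), fun f hf => ?_, fun f hf h0 => ?_, fun f g hfg => ?_⟩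
  · rw [← hTd _ (hsh _ (hf x0 hx0))]
    show T (fun s => deriv f (x0 + s)) = _
    congr 1
    funext s
    exact (deriv_comp_const_add f x0 s).symm
  · have h1 := hTz _ (hsh _ (hf x0 hx0)) h0
    have h2 : ∀ᶠ x in 𝓝 x0, f x = 0 := by
      have h3 : Tendsto (fun x => x - x0) (𝓝 x0) (𝓝 0) := by
        have : Tendsto (fun x => x - x0) (𝓝 x0) (𝓝 (x0 - x0)) := tendsto_id.sub tendsto_const_nhds
        rwa [sub_self] at this
      filter_upwards [h3.eventually h1] with x hx
      rwa [add_sub_cancel] at hx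
    exact fun x hx => hf.eqOn_zero_of_preconnected_of_eventuallyEq_zero hV hx0 h2 hx
  · refine hTe _ _ ?_
    have h3 : ∀ᶠ s in 𝓝 (0 : ℂ), x0 + s ∈ V := by
      have h4 : Tendsto (fun s => x0 + s) (𝓝 (0 : ℂ)) (𝓝 x0) := by
        have : Tendsto (fun s => x0 + s) (𝓝 (0 : ℂ)) (𝓝 (x0 + 0)) := tendsto_const_nhds.add tendsto_id
        rwa [add_zero] at this
      exact h4.eventually (hVo.mem_nhds hx0)
    filter_upwards [h3] with s hs
    exact hfg _ hs

/-- iterated integrals in a differential field, over an intermediate field which is closed under the derivation -/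
theorem iter_K {E : Type} [Field E] [Algebra ℂ E] [CharZero E] (D : Derivation ℂ E E)
    (hconst : ∀ x : E, D x = 0 → ∃ c : ℂ, algebraMap ℂ E c = x) (K : IntermediateField ℂ E) (hK : ∀ x ∈ K, D x ∈ K)
    {r m : ℕ} (L : E) (X : Fin r → ℕ → E) (hL : D L ∈ K) (hX0 : ∀ j, D (X j 0) ∈ K)
    (hXs : ∀ j k, k < m → D (X j (k + 1)) = D L * X j k)
    (hlin : ∀ (c₀ : ℂ) (c : Fin r → ℂ), algebraMap ℂ E c₀ * L + ∑ j, algebraMap ℂ E (c j) * X j 0 ∈ K → c₀ = 0 ∧ c = 0) :
    AlgebraicIndependent K (Sum.elim (fun jk : Fin r × Fin (m + 1) => X jk.1 jk.2) (fun _ : Unit => L)) := by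
  let D₀ : Derivation ℂ K K := Derivation.mk' { toFun := fun x => ⟨D x, hK x x.2⟩
                                                map_add' := fun a b => Subtype.ext (by simp)
                                                map_smul' := fun c x => Subtype.ext (by simp) }
    (fun a b => Subtype.ext (by simp [Derivation.leibniz]))
  refine Iter.iter_alg D₀ D (fun x => rfl) (w := ⟨D L, hL⟩) rfl hconst (fun j => ⟨D (X j 0), hX0 j⟩) X (fun j => rfl)
    (fun j k hk => hXs j k hk) ?_
  intro c₀ c f hf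
  refine hlin c₀ c ?_
  rw [hf]
  exact f.2

/-- **Iterated integrals.** -/
theorem iter_indep {V : Set ℂ} (hV : IsPreconnected V) (hVo : IsOpen V) (hne : V.Nonempty) {r m : ℕ} {L : ℂ → ℂ}
    {X : Fin r → ℕ → ℂ → ℂ} (hLa : AnalyticOnNhd ℂ L V) (hXa : ∀ j k, k ≤ m → AnalyticOnNhd ℂ (X j k) V)
    (hL : AlgOn V (deriv L)) (hX0 : ∀ j, AlgOn V (deriv (X j 0)))
    (hXs : ∀ j k, k < m → ∀ z ∈ V, deriv (X j (k + 1)) z = deriv L z * X j k z)
    (hlin : ∀ (c₀ : ℂ) (c : Fin r → ℂ), AlgOn V (fun z => c₀ * L z + ∑ j, c j * X j 0 z) → c₀ = 0 ∧ c = 0) :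
    Indep V (Sum.elim (fun jk : Fin r × Fin (m + 1) => X jk.1 jk.2) (fun _ : Unit => L)) := by
  classical
  obtain ⟨E, _, _, _, _, _, _, D, G, hX, hconst, hGc, hGp, hGa, hGm, hGd, hGz, hGe⟩ := germs hV hVo hne
  have hpol : ∀ p : ℂ[X], AnalyticOnNhd ℂ (fun x => p.eval x) V := fun p x _ => p.differentiable.analyticAt x
  have hev1 : ∀ (g : ℂ → ℂ), AnalyticOnNhd ℂ g V → ∀ Q : ℂ[X][X],
      aeval (G g) Q = G (fun x => Q.eval₂ (evalRingHom x) (g x)) := by
    intro g hg Q
    have hpow : ∀ n : ℕ, G (fun s => g s ^ n) = G g ^ n := by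
      intro n
      induction n with
      | zero =>
        simp only [pow_zero]
        rw [hGc 1, map_one]
      | succ n ih =>
        simp only [pow_succ]
        rw [hGm (fun s => g s ^ n) g (hg.pow n) hg, ih]
    induction Q using Polynomial.induction_on' with
    | add p q hp hq =>
      simp only [eval₂_add]
      rw [hGa _ _ (ev2_an hg p) (ev2_an hg q), map_add, hp, hq]
    | monomial n a =>
      simp only [eval₂_monomial, coe_evalRingHom]
      rw [hGm (fun s => a.eval s) (fun s => g s ^ n) (hpol a) (hg.pow n), hGp, hpow, aeval_monomial]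
  have halg : ∀ (g : ℂ → ℂ), AnalyticOnNhd ℂ g V → (AlgOn V g ↔ G g ∈ FA E) := by
    intro g hg
    constructor
    · rintro ⟨Q, hQ, hQx⟩
      refine ⟨Q, hQ, ?_⟩
      rw [hev1 g hg, hGe _ (fun _ => 0) hQx, hGc, map_zero]
    · rintro ⟨Q, hQ, hQ0⟩
      rw [hev1 g hg] at hQ0
      exact ⟨Q, hQ, hGz _ (ev2_an hg Q) hQ0⟩
  have hlin' : ∀ (c₀ : ℂ) (c : Fin r → ℂ), algebraMap ℂ E c₀ * G L + ∑ j, algebraMap ℂ E (c j) * G (X j 0) ∈ FA E →
      c₀ = 0 ∧ c = 0 := by
    intro c₀ c hc
    refine hlin c₀ c ?_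
    have hs : ∀ S : Finset (Fin r), AnalyticOnNhd ℂ (fun z => ∑ j ∈ S, c j * X j 0 z) V ∧
        ∑ j ∈ S, algebraMap ℂ E (c j) * G (X j 0) = G (fun z => ∑ j ∈ S, c j * X j 0 z) := by
      intro S
      induction S using Finset.induction_on with
      | empty =>
        simp only [Finset.sum_empty]
        refine ⟨analyticOnNhd_const, ?_⟩
        rw [hGc, map_zero]
      | insert i S hi ih =>
        simp only [Finset.sum_insert hi]
        have h1 : AnalyticOnNhd ℂ (fun z => c i * X i 0 z) V := analyticOnNhd_const.mul (hXa i 0 (Nat.zero_le m))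
        refine ⟨h1.add ih.1, ?_⟩
        rw [hGa _ _ h1 ih.1, hGm (fun _ => c i) _ analyticOnNhd_const (hXa i 0 (Nat.zero_le m)), hGc, ih.2]
    have h1 : AnalyticOnNhd ℂ (fun z => c₀ * L z) V := analyticOnNhd_const.mul hLa
    rw [halg (fun z => c₀ * L z + ∑ j, c j * X j 0 z) (h1.add (hs Finset.univ).1), hGa _ _ h1 (hs Finset.univ).1, hGm (fun _ => c₀) _ analyticOnNhd_const hLa, hGc,
      ← (hs Finset.univ).2]
    exact hc
  have hder : ∀ g : ℂ → ℂ, AnalyticOnNhd ℂ g V → AlgOn V (deriv g) → D (G g) ∈ FA E := by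
    intro g hg h
    rw [← hGd g hg, ← halg _ hg.deriv]
    exact h
  have key := iter_K D hconst (FA E) (fun x hx => D_mem D hX hx) (m := m) (G L) (fun j k => G (X j k))
    (hder L hLa hL) (fun j => hder _ (hXa j 0 (Nat.zero_le m)) (hX0 j)) (fun j k hk => by
      rw [← hGd _ (hXa j (k + 1) hk), ← hGd _ hLa, ← hGm _ _ hLa.deriv (hXa j k hk.le)]
      exact hGe _ _ (hXs j k hk)) hlin'
  set f : (Fin r × Fin (m + 1)) ⊕ Unit → ℂ → ℂ := Sum.elim (fun jk : Fin r × Fin (m + 1) => X jk.1 jk.2) (fun _ : Unit => L)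
    with hf
  have hfa : ∀ i, AnalyticOnNhd ℂ (f i) V := by
    rintro (jk | _)
    · exact hXa jk.1 jk.2 (Nat.lt_succ_iff.1 jk.2.isLt)
    · exact hLa
  have hy : Sum.elim (fun jk : Fin r × Fin (m + 1) => G (X jk.1 jk.2)) (fun _ : Unit => G L) = fun i => G (f i) := by
    funext i
    rcases i with jk | _ <;> rfl
  rw [hy] at key
  intro P hP
  have hev : ∀ P : MvPolynomial ((Fin r × Fin (m + 1)) ⊕ Unit) ℂ[X],
      MvPolynomial.eval₂ (algebraMap ℂ[X] E) (fun i => G (f i)) P = G (fun s => evF f s P) := by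
    intro P
    induction P using MvPolynomial.induction_on with
    | C a =>
      rw [MvPolynomial.eval₂_C, ← hGp]
      congr 1
      funext s
      simp [evF]
    | add p q hp hq =>
      have h1 : (fun s => evF f s (p + q)) = fun s => evF f s p + evF f s q := by
        funext s
        simp [evF]
      rw [MvPolynomial.eval₂_add, hp, hq, h1, hGa _ _ (evF_an hfa p) (evF_an hfa q)]
    | mul_X p i hp =>
      have h1 : (fun s => evF f s (p * MvPolynomial.X i)) = fun s => evF f s p * f i s := by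
        funext s
        simp [evF]
      rw [MvPolynomial.eval₂_mul, MvPolynomial.eval₂_X, hp, h1, hGm _ _ (evF_an hfa p) (hfa i)]
  let φ : ℂ[X] →+* FA E := (algebraMap ℂ[X] E).codRestrict (FA E).toSubfield.toSubring fun q => isAlgebraic_algebraMap q
  have hφ : Function.Injective φ := by
    intro a b hab
    exact FaithfulSMul.algebraMap_injective ℂ[X] E (congrArg Subtype.val hab)
  have h1 : MvPolynomial.aeval (fun i => G (f i)) (MvPolynomial.map φ P) = 0 := by
    rw [MvPolynomial.aeval_def, MvPolynomial.eval₂_map]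
    refine (hev P).trans ?_
    rw [hGe _ (fun _ => 0) hP, hGc, map_zero]
  exact MvPolynomial.map_injective φ hφ (by rw [key.eq_zero_of_aeval_eq_zero _ h1, map_zero])

end Pool.Agent.X255.RH
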