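import Pool.Agent.X255.RH.Iter2

/-!
# Iterated integrals of several families
-/

set_option autoImplicit false
set_option linter.unusedSectionVars false

open Polynomial Filter Topology

namespace Pool.Agent.X255.RH

open Pool.Agent.Y890.SP

section
variable {E : Type} [Field E] [Algebra ℂ E] [CharZero E]

theorem iter_K' (D : Derivation ℂ E E)
    (hconst : ∀ x : E, D x = 0 → ∃ c : ℂ, algebraMap ℂ E c = x) (K₀ : IntermediateField ℂ E) (K : IntermediateField K₀ E)
    (hK : ∀ x ∈ K, D x ∈ K) {J : Type} [Fintype J] {m : ℕ} (L : E) (X : J → ℕ → E) (hL : D L ∈ K) (hX0 : ∀ j, D (X j 0) ∈ K)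
    (hXs : ∀ j k, k < m → D (X j (k + 1)) = D L * X j k)
    (hlin : ∀ (c₀ : ℂ) (c : J → ℂ), algebraMap ℂ E c₀ * L + ∑ j, algebraMap ℂ E (c j) * X j 0 ∈ K → c₀ = 0 ∧ c = 0) :
    AlgebraicIndependent K (Sum.elim (fun jk : J × Fin (m + 1) => X jk.1 jk.2) (fun _ : Unit => L)) := by
  classical
  let D₀ : Derivation ℂ K K := Derivation.mk' { toFun := fun x => ⟨D x, hK x x.2⟩
                                                map_add' := fun a b => Subtype.ext (by simp)
                                                map_smul' := fun c x => Subtype.ext (by simp) }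
    (fun a b => Subtype.ext (by simp [Derivation.leibniz]))
  haveI : IsScalarTower ℂ K E := IsScalarTower.of_algebraMap_eq fun c => rfl
  let e := Fintype.equivFin J
  have key := Iter.iter_alg D₀ D (fun x => rfl) (w := ⟨D L, hL⟩) rfl hconst (m := m) (fun j => ⟨D (X (e.symm j) 0), hX0 _⟩)
    (fun j => X (e.symm j)) (fun j => rfl) (fun j k hk => hXs _ k hk) (by
      intro c₀ c f hf
      have h1 := hlin c₀ (fun j => c (e j)) (by
        have h2 : ∑ j, algebraMap ℂ E (c (e j)) * X j 0 = ∑ j, algebraMap ℂ E (c j) * X (e.symm j) 0 := by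
          refine Fintype.sum_equiv e _ _ fun j => ?_
          rw [Equiv.symm_apply_apply]
        rw [h2, hf]
        exact f.2)
      refine ⟨h1.1, funext fun j => ?_⟩
      have h3 := congrFun h1.2 (e.symm j)
      rwa [Equiv.apply_symm_apply] at h3)
  have h2 := key.comp (Sum.map (fun jk : J × Fin (m + 1) => (e jk.1, jk.2)) id) (by
    refine Sum.map_injective.2 ⟨?_, Function.injective_id⟩
    rintro ⟨j, k⟩ ⟨j', k'⟩ h
    simp only [Prod.mk.injEq, EmbeddingLike.apply_eq_iff_eq] at h
    exact Prod.ext h.1 h.2)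
  have h3 : (Sum.elim (fun jk : Fin (Fintype.card J) × Fin (m + 1) => X (e.symm jk.1) jk.2) (fun _ : Unit => L)) ∘
      (Sum.map (fun jk : J × Fin (m + 1) => (e jk.1, jk.2)) id) =
      Sum.elim (fun jk : J × Fin (m + 1) => X jk.1 jk.2) (fun _ : Unit => L) := by
    funext i
    rcases i with jk | _
    · show X (e.symm (e jk.1)) jk.2 = X jk.1 jk.2
      rw [Equiv.symm_apply_apply]
    · rfl
  rw [← h3]
  exact h2

open scoped IntermediateField.algebraAdjoinAdjoin in
/-- independence of the first half over the field generated by the second half -/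
theorem ind_field {K₀ : Type} [Field K₀] [Algebra K₀ E] {A B : Type} {y : A → E} {x : B → E}
    (h : AlgebraicIndependent K₀ (Sum.elim y x)) :
    AlgebraicIndependent (IntermediateField.adjoin K₀ (Set.range x)) y := by
  have h1 := (AlgebraicIndependent.sumElim_iff.1 h).2
  exact h1.extendScalars _

theorem lin_of_ind {K : Type} [Field K] [Algebra K E] {A : Type} [Fintype A] {y : A → E} (h : AlgebraicIndependent K y)
    (c : A → K) (v : K) (hv : ∑ a, algebraMap K E (c a) * y a = algebraMap K E v) : c = 0 := by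
  classical
  have h1 : MvPolynomial.aeval y (∑ a, MvPolynomial.C (c a) * MvPolynomial.X a - MvPolynomial.C v) = 0 := by
    rw [map_sub, map_sum]
    simp only [map_mul, MvPolynomial.algHom_C, MvPolynomial.aeval_X]
    rw [hv, sub_self]
  have h2 := h.eq_zero_of_aeval_eq_zero _ h1
  funext b
  have h3 := congrArg (MvPolynomial.pderiv b) h2
  rw [map_sub, map_sum, MvPolynomial.pderiv_C, sub_zero, map_zero] at h3
  rw [Finset.sum_eq_single b] at h3
  · rw [Derivation.leibniz, MvPolynomial.pderiv_C, MvPolynomial.pderiv_X_self, smul_zero, add_zero, smul_eq_mul, mul_one,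
      MvPolynomial.C_eq_zero] at h3
    exact h3
  · intro a _ hab
    rw [Derivation.leibniz, MvPolynomial.pderiv_C, MvPolynomial.pderiv_X_of_ne hab, smul_zero, smul_zero, add_zero]
  · intro hb
    exact absurd (Finset.mem_univ _) hb

theorem reindex {K : Type} [Field K] [Algebra K E] {A W : Type} {Y : A → E} {Z : W → E} (h : AlgebraicIndependent K Z)
    (σ : W → A) (hσ : Function.Surjective σ) (hZ : ∀ w, Z w = Y (σ w)) : AlgebraicIndependent K Y := by
  have h1 : Y = Z ∘ Function.surjInv hσ := funext fun a => by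
    rw [Function.comp_apply, hZ, Function.surjInv_eq hσ]
  rw [h1]
  exact h.comp _ (Function.injective_surjInv hσ)

/-- **Iterated integrals of several families.** -/
theorem multi (D : Derivation ℂ E E) (hconst : ∀ x : E, D x = 0 → ∃ c : ℂ, algebraMap ℂ E c = x)
    (K₀ : IntermediateField ℂ E) (hK₀ : ∀ x ∈ K₀, D x ∈ K₀) {t r m : ℕ} (fam : Fin r → Fin t) (L : Fin t → E)
    (X : Fin r → ℕ → E) (hL : ∀ i, D (L i) ∈ K₀) (hX0 : ∀ j, D (X j 0) ∈ K₀)
    (hXs : ∀ j k, k < m → D (X j (k + 1)) = D (L (fam j)) * X j k)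
    (hlin : ∀ (b : Fin t → ℂ) (c : Fin r → ℂ),
      ∑ i, algebraMap ℂ E (b i) * L i + ∑ j, algebraMap ℂ E (c j) * X j 0 ∈ K₀ → b = 0 ∧ c = 0) :
    AlgebraicIndependent K₀ (Sum.elim (fun jk : Fin r × Fin (m + 1) => X jk.1 jk.2) L) := by
  classical
  set Y : (Fin r × Fin (m + 1)) ⊕ Fin t → E := Sum.elim (fun jk => X jk.1 jk.2) L with hY
  let fm : (Fin r × Fin (m + 1)) ⊕ Fin t → Fin t := Sum.elim (fun jk => fam jk.1) id
  let A : Finset (Fin t) → ((Fin r × Fin (m + 1)) ⊕ Fin t) → Prop := fun S x =>
    Sum.elim (fun jk : Fin r × Fin (m + 1) => jk.2 = 0 ∨ fam jk.1 ∈ S) (fun _ => True) x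
  have base : AlgebraicIndependent K₀ (fun x : {x // A ∅ x} => Y x.1) := by
    let D₀ : Derivation ℂ K₀ K₀ := Derivation.mk' { toFun := fun x => ⟨D x, hK₀ x x.2⟩
                                                    map_add' := fun a b => Subtype.ext (by simp)
                                                    map_smul' := fun c x => Subtype.ext (by simp) }
      (fun a b => Subtype.ext (by simp [Derivation.leibniz]))
    have h1 : AlgebraicIndependent K₀ (Sum.elim (fun j : Fin r => X j 0) L) := by
      refine Pool.Agent.W253.LF.t_OST ℂ K₀ E D₀ D (fun x => rfl) hconst (Fin r ⊕ Fin t) _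
        (Sum.elim (fun j => ⟨_, hX0 j⟩) (fun i => ⟨_, hL i⟩)) (by rintro (j | i) <;> rfl) ?_
      intro c f hf
      rw [Fintype.sum_sum_type] at hf
      simp only [Sum.elim_inl, Sum.elim_inr] at hf
      have h2 := hlin (fun i => c (Sum.inr i)) (fun j => c (Sum.inl j)) (by
        rw [add_comm, hf]
        exact f.2)
      funext x
      rcases x with j | i
      · exact congrFun h2.2 j
      · exact congrFun h2.1 i
    refine reindex h1 (Sum.elim (fun j => ⟨Sum.inl (j, 0), Or.inl rfl⟩) (fun i => ⟨Sum.inr i, trivial⟩)) ?_ ?_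
    · rintro ⟨x, hx⟩
      rcases x with ⟨j, k⟩ | i
      · have hk : k = 0 := by
          rcases hx with h | h
          · exact h
          · exact absurd h (Finset.notMem_empty _)
        subst hk
        exact ⟨Sum.inl j, rfl⟩
      · exact ⟨Sum.inr i, rfl⟩
    · rintro (j | i) <;> rfl
  have step : ∀ (i : Fin t) (S : Finset (Fin t)), i ∉ S → AlgebraicIndependent K₀ (fun x : {x // A S x} => Y x.1) →
      AlgebraicIndependent K₀ (fun x : {x // A (insert i S) x} => Y x.1) := by
    intro i S hi hS
    let yB : {x // A S x ∧ fm x ≠ i} → E := fun x => Y x.1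
    have hB : AlgebraicIndependent K₀ yB := hS.comp (fun x : {x // A S x ∧ fm x ≠ i} => ⟨x.1, x.2.1⟩) (by
      intro x x' h
      exact Subtype.ext (congrArg (fun z : {x // A S x} => z.1) h))
    have hmK : ∀ x : E, x ∈ K₀ → x ∈ IntermediateField.adjoin K₀ (Set.range yB) := fun x hx =>
      (IntermediateField.adjoin K₀ (Set.range yB)).algebraMap_mem ⟨x, hx⟩
    have hgen : ∀ x, x ∈ Set.range yB → D x ∈ IntermediateField.adjoin K₀ (Set.range yB) := by
      rintro _ ⟨⟨x, hx, hne⟩, rfl⟩
      rcases x with ⟨j, k⟩ | i'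
      · obtain ⟨k, hk⟩ := k
        cases k with
        | zero => exact hmK _ (hX0 j)
        | succ k =>
          show D (X j (k + 1)) ∈ _
          rw [hXs j k (by omega)]
          refine mul_mem (hmK _ (hL _)) (IntermediateField.subset_adjoin _ _ ?_)
          have hfS : fam j ∈ S := by
            rcases hx with h | h
            · exact absurd (congrArg Fin.val h) (Nat.succ_ne_zero k)
            · exact h
          exact ⟨⟨Sum.inl (j, ⟨k, by omega⟩), Or.inr hfS, hne⟩, rfl⟩
      · exact hmK _ (hL i')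
    have hK : ∀ x ∈ IntermediateField.adjoin K₀ (Set.range yB), D x ∈ IntermediateField.adjoin K₀ (Set.range yB) := by
      intro x hx
      induction hx using IntermediateField.adjoin_induction with
      | mem x hx => exact hgen x hx
      | algebraMap x => exact hmK _ (hK₀ _ x.2)
      | add x y hx hy h1 h2 =>
        rw [map_add]
        exact add_mem h1 h2
      | inv x hx h =>
        rw [Derivation.leibniz_inv, smul_eq_mul]
        exact mul_mem (neg_mem (pow_mem (inv_mem hx) 2)) h
      | mul x y hx hy h1 h2 =>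
        rw [Derivation.leibniz]
        exact add_mem (mul_mem hx h2) (mul_mem hy h1)
    have h1 : AlgebraicIndependent K₀
        (Sum.elim (Sum.elim (fun j : {j : Fin r // fam j = i} => X j.1 0) (fun _ : Unit => L i)) yB) := by
      have h2 := hS.comp (Sum.elim (Sum.elim (fun j : {j : Fin r // fam j = i} => ⟨Sum.inl (j.1, 0), Or.inl rfl⟩)
        (fun _ : Unit => ⟨Sum.inr i, trivial⟩)) (fun x : {x // A S x ∧ fm x ≠ i} => ⟨x.1, x.2.1⟩)) (by
          rintro ((j | _) | x) ((j' | _) | x') h
          · have h3 := congrArg (fun z : {x // A S x} => z.1) h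
            simp only [Sum.elim_inl, Sum.inl.injEq, Prod.mk.injEq, and_true] at h3
            rw [Subtype.ext h3]
          · exact absurd (congrArg (fun z : {x // A S x} => z.1) h) (by simp)
          · exfalso
            have h3 := congrArg (fun z : {x // A S x} => z.1) h
            exact x'.2.2 (by rw [← (show _ = x'.1 from h3)]; exact j.2)
          · exact absurd (congrArg (fun z : {x // A S x} => z.1) h) (by simp)
          · rfl
          · exfalso
            have h3 := congrArg (fun z : {x // A S x} => z.1) h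
            exact x'.2.2 (by rw [← (show _ = x'.1 from h3)]; rfl)
          · exfalso
            have h3 := congrArg (fun z : {x // A S x} => z.1) h
            exact x.2.2 (by rw [(show x.1 = _ from h3)]; exact j'.2)
          · exfalso
            have h3 := congrArg (fun z : {x // A S x} => z.1) h
            exact x.2.2 (by rw [(show x.1 = _ from h3)]; rfl)
          · have h3 := congrArg (fun z : {x // A S x} => z.1) h
            exact congrArg Sum.inr (Subtype.ext h3))
      have h3 : (fun x : {x // A S x} => Y x.1) ∘ (Sum.elim (Sum.elim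
          (fun j : {j : Fin r // fam j = i} => ⟨Sum.inl (j.1, 0), Or.inl rfl⟩)
          (fun _ : Unit => ⟨Sum.inr i, trivial⟩)) (fun x : {x // A S x ∧ fm x ≠ i} => ⟨x.1, x.2.1⟩)) =
          Sum.elim (Sum.elim (fun j : {j : Fin r // fam j = i} => X j.1 0) (fun _ : Unit => L i)) yB := by
        funext w
        rcases w with (j | _) | x <;> rfl
      rw [← h3]
      exact h2
    have h3 := ind_field h1
    have h4 := iter_K' D hconst K₀ (IntermediateField.adjoin K₀ (Set.range yB)) hK (m := m) (L i)
      (fun j : {j : Fin r // fam j = i} => X j.1) (hmK _ (hL i)) (fun j => hmK _ (hX0 j.1)) (fun j k hk => by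
        rw [hXs j.1 k hk, j.2]) (fun c₀ c hc => by
        have h5 := lin_of_ind h3 (Sum.elim (fun j => ⟨algebraMap ℂ E (c j), hmK _ (K₀.algebraMap_mem _)⟩)
          (fun _ => ⟨algebraMap ℂ E c₀, hmK _ (K₀.algebraMap_mem _)⟩)) ⟨_, hc⟩ (by
            rw [Fintype.sum_sum_type, Fintype.univ_ofSubsingleton, Finset.sum_singleton]
            simp only [Sum.elim_inl, Sum.elim_inr]
            rw [add_comm]
            rfl)
        refine ⟨?_, funext fun j => ?_⟩
        · have h6 := congrArg Subtype.val (congrFun h5 (Sum.inr ()))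
          exact (algebraMap ℂ E).injective (h6.trans (map_zero _).symm)
        · have h6 := congrArg Subtype.val (congrFun h5 (Sum.inl j))
          exact (algebraMap ℂ E).injective (h6.trans (map_zero _).symm))
    have h5 := hB.sumElim_of_tower (S := IntermediateField.adjoin K₀ (Set.range yB)) (by
      rintro _ ⟨w, rfl⟩
      exact ⟨⟨yB w, IntermediateField.subset_adjoin _ _ ⟨w, rfl⟩⟩, rfl⟩) h4
    refine reindex h5 (Sum.elim (Sum.elim (fun jk : {j : Fin r // fam j = i} × Fin (m + 1) =>
      ⟨Sum.inl (jk.1.1, jk.2), Or.inr (by rw [jk.1.2]; exact Finset.mem_insert_self _ _)⟩)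
      (fun _ : Unit => ⟨Sum.inr i, trivial⟩)) (fun x => ⟨x.1, by
        obtain ⟨x, hx, -⟩ := x
        rcases x with ⟨j, k⟩ | i'
        · rcases hx with h | h
          · exact Or.inl h
          · exact Or.inr (Finset.mem_insert_of_mem h)
        · trivial⟩)) ?_ ?_
    · rintro ⟨x, hx⟩
      by_cases hxi : fm x = i
      · rcases x with ⟨j, k⟩ | i'
        · exact ⟨Sum.inl (Sum.inl (⟨j, hxi⟩, k)), rfl⟩
        · refine ⟨Sum.inl (Sum.inr ()), Subtype.ext ?_⟩
          have h6 : i' = i := hxi
          rw [h6]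
          rfl
      · refine ⟨Sum.inr ⟨x, ?_, hxi⟩, rfl⟩
        rcases x with ⟨j, k⟩ | i'
        · rcases hx with h | h
          · exact Or.inl h
          · rcases Finset.mem_insert.1 h with h | h
            · exact absurd h hxi
            · exact Or.inr h
        · trivial
    · rintro ((jk | _) | x) <;> rfl
  have hall : ∀ S : Finset (Fin t), AlgebraicIndependent K₀ (fun x : {x // A S x} => Y x.1) := by
    intro S
    induction S using Finset.induction_on with
    | empty => exact base
    | insert i S hi ih => exact step i S hi ih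
  refine reindex (hall Finset.univ) (fun x => x.1) (fun x => ⟨⟨x, ?_⟩, rfl⟩) fun _ => rfl
  rcases x with ⟨j, k⟩ | i
  · exact Or.inr (Finset.mem_univ _)
  · trivial

end

/-- **Iterated integrals.** -/
theorem multi_indep {V : Set ℂ} (hV : IsPreconnected V) (hVo : IsOpen V) (hne : V.Nonempty) {t r m : ℕ}
    {fam : Fin r → Fin t} {L : Fin t → ℂ → ℂ} {X : Fin r → ℕ → ℂ → ℂ} (hLa : ∀ i, AnalyticOnNhd ℂ (L i) V)
    (hXa : ∀ j k, k ≤ m → AnalyticOnNhd ℂ (X j k) V)
    (hL : ∀ i, AlgOn V (deriv (L i))) (hX0 : ∀ j, AlgOn V (deriv (X j 0)))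
    (hXs : ∀ j k, k < m → ∀ z ∈ V, deriv (X j (k + 1)) z = deriv (L (fam j)) z * X j k z)
    (hlin : ∀ (b : Fin t → ℂ) (c : Fin r → ℂ), AlgOn V (fun z => ∑ i, b i * L i z + ∑ j, c j * X j 0 z) →
      b = 0 ∧ c = 0) :
    Indep V (Sum.elim (fun jk : Fin r × Fin (m + 1) => X jk.1 jk.2) L) := by
  classical
  obtain ⟨E, _, _, _, _, _, _, D, G, hX, hconst, hGc, hGp, hGa, hGm, hGd, hGz, hGe⟩ := germs hV hVo hne
  have hpol : ∀ p : ℂ[X], AnalyticOnNhd ℂ (fun x => p.eval x) V := fun p x _ => p.differentiable.analyticAt x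
  have hev1 : ∀ (g : ℂ → ℂ), AnalyticOnNhd ℂ g V → ∀ Q : ℂ[X][X],
      aeval (G g) Q = G (fun x => Q.eval₂ (evalRingHom x) (g x)) := by
    intro g hg Q
    have hpow : ∀ n : ℕ, G (fun s => g s ^ n) = G g ^ n := by
      intro n
      induction n with
      | zero =>
        simp only [pow_zero]
        rw [hGc 1, map_one]
      | succ n ih =>
        simp only [pow_succ]
        rw [hGm (fun s => g s ^ n) g (hg.pow n) hg, ih]
    induction Q using Polynomial.induction_on' with
    | add p q hp hq =>
      simp only [eval₂_add]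
      rw [hGa _ _ (ev2_an hg p) (ev2_an hg q), map_add, hp, hq]
    | monomial n a =>
      simp only [eval₂_monomial, coe_evalRingHom]
      rw [hGm (fun s => a.eval s) (fun s => g s ^ n) (hpol a) (hg.pow n), hGp, hpow, aeval_monomial]
  have halg : ∀ (g : ℂ → ℂ), AnalyticOnNhd ℂ g V → (AlgOn V g ↔ G g ∈ FA E) := by
    intro g hg
    constructor
    · rintro ⟨Q, hQ, hQx⟩
      refine ⟨Q, hQ, ?_⟩
      rw [hev1 g hg, hGe _ (fun _ => 0) hQx, hGc, map_zero]
    · rintro ⟨Q, hQ, hQ0⟩
      rw [hev1 g hg] at hQ0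
      exact ⟨Q, hQ, hGz _ (ev2_an hg Q) hQ0⟩
  have hs : ∀ {J : Type} (y : J → ℂ → ℂ), (∀ j, AnalyticOnNhd ℂ (y j) V) → ∀ (c : J → ℂ) (S : Finset J),
      AnalyticOnNhd ℂ (fun z => ∑ j ∈ S, c j * y j z) V ∧
      ∑ j ∈ S, algebraMap ℂ E (c j) * G (y j) = G (fun z => ∑ j ∈ S, c j * y j z) := by
    intro J y hya c S
    induction S using Finset.induction_on with
    | empty =>
      simp only [Finset.sum_empty]
      refine ⟨analyticOnNhd_const, ?_⟩
      rw [hGc, map_zero]
    | insert i S hi ih =>
      simp only [Finset.sum_insert hi]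
      have h1 : AnalyticOnNhd ℂ (fun z => c i * y i z) V := analyticOnNhd_const.mul (hya i)
      refine ⟨h1.add ih.1, ?_⟩
      rw [hGa _ _ h1 ih.1, hGm (fun _ => c i) _ analyticOnNhd_const (hya i), hGc, ih.2]
  have hlin' : ∀ (b : Fin t → ℂ) (c : Fin r → ℂ),
      ∑ i, algebraMap ℂ E (b i) * G (L i) + ∑ j, algebraMap ℂ E (c j) * G (X j 0) ∈ FA E → b = 0 ∧ c = 0 := by
    intro b c hc
    refine hlin b c ?_
    have h1 := hs L hLa b Finset.univ
    have h2 := hs (fun j => X j 0) (fun j => hXa j 0 (Nat.zero_le m)) c Finset.univ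
    rw [halg (fun z => ∑ i, b i * L i z + ∑ j, c j * X j 0 z) (h1.1.add h2.1), hGa _ _ h1.1 h2.1, ← h1.2, ← h2.2]
    exact hc
  have hder : ∀ g : ℂ → ℂ, AnalyticOnNhd ℂ g V → AlgOn V (deriv g) → D (G g) ∈ FA E := by
    intro g hg h
    rw [← hGd g hg, ← halg _ hg.deriv]
    exact h
  have key := multi D hconst (FA E) (fun x hx => D_mem D hX hx) (m := m) fam (fun i => G (L i)) (fun j k => G (X j k))
    (fun i => hder _ (hLa i) (hL i)) (fun j => hder _ (hXa j 0 (Nat.zero_le m)) (hX0 j)) (fun j k hk => by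
      rw [← hGd _ (hXa j (k + 1) hk), ← hGd _ (hLa _), ← hGm _ _ (hLa _).deriv (hXa j k hk.le)]
      exact hGe _ _ (hXs j k hk)) hlin'
  set f : (Fin r × Fin (m + 1)) ⊕ Fin t → ℂ → ℂ := Sum.elim (fun jk : Fin r × Fin (m + 1) => X jk.1 jk.2) L with hf
  have hfa : ∀ i, AnalyticOnNhd ℂ (f i) V := by
    rintro (jk | i)
    · exact hXa jk.1 jk.2 (Nat.lt_succ_iff.1 jk.2.isLt)
    · exact hLa i
  have hy : Sum.elim (fun jk : Fin r × Fin (m + 1) => G (X jk.1 jk.2)) (fun i => G (L i)) = fun i => G (f i) := by
    funext i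
    rcases i with jk | _ <;> rfl
  rw [hy] at key
  intro P hP
  have hev : ∀ P : MvPolynomial ((Fin r × Fin (m + 1)) ⊕ Fin t) ℂ[X],
      MvPolynomial.eval₂ (algebraMap ℂ[X] E) (fun i => G (f i)) P = G (fun s => evF f s P) := by
    intro P
    induction P using MvPolynomial.induction_on with
    | C a =>
      rw [MvPolynomial.eval₂_C, ← hGp]
      congr 1
      funext s
      simp [evF]
    | add p q hp hq =>
      have h1 : (fun s => evF f s (p + q)) = fun s => evF f s p + evF f s q := by
        funext s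
        simp [evF]
      rw [MvPolynomial.eval₂_add, hp, hq, h1, hGa _ _ (evF_an hfa p) (evF_an hfa q)]
    | mul_X p i hp =>
      have h1 : (fun s => evF f s (p * MvPolynomial.X i)) = fun s => evF f s p * f i s := by
        funext s
        simp [evF]
      rw [MvPolynomial.eval₂_mul, MvPolynomial.eval₂_X, hp, h1, hGm _ _ (evF_an hfa p) (hfa i)]
  let φ : ℂ[X] →+* FA E := (algebraMap ℂ[X] E).codRestrict (FA E).toSubfield.toSubring fun q => isAlgebraic_algebraMap q
  have hφ : Function.Injective φ := by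
    intro a b hab
    exact FaithfulSMul.algebraMap_injective ℂ[X] E (congrArg Subtype.val hab)
  have h1 : MvPolynomial.aeval (fun i => G (f i)) (MvPolynomial.map φ P) = 0 := by
    rw [MvPolynomial.aeval_def, MvPolynomial.eval₂_map]
    refine (hev P).trans ?_
    rw [hGe _ (fun _ => 0) hP, hGc, map_zero]
  exact MvPolynomial.map_injective φ hφ (by rw [key.eq_zero_of_aeval_eq_zero _ h1, map_zero])

end Pool.Agent.X255.RH
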