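import Pool.Agent.X255.RH.Iter3
import Pool.Agent.X255.RH.Hyp

/-!
# Linear combinations of independent functions, and polylogarithms
-/

set_option autoImplicit false
set_option linter.unusedSectionVars false

open Polynomial Filter Topology

namespace Pool.Agent.X255.RH

open Pool.Agent.Y890.SP

theorem lin_of_ind' {E : Type} [Field E] {K : Type} [CommRing K] [Algebra K E] {A : Type} [Fintype A] {y : A → E}
    (h : AlgebraicIndependent K y) (c : A → K) (v : K) (hv : ∑ a, algebraMap K E (c a) * y a = algebraMap K E v) :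
    c = 0 := by
  classical
  have h1 : MvPolynomial.aeval y (∑ a, MvPolynomial.C (c a) * MvPolynomial.X a - MvPolynomial.C v) = 0 := by
    rw [map_sub, map_sum]
    simp only [map_mul, MvPolynomial.algHom_C, MvPolynomial.aeval_X]
    rw [hv, sub_self]
  have h2 := h.eq_zero_of_aeval_eq_zero _ h1
  funext b
  have h3 := congrArg (MvPolynomial.pderiv b) h2
  rw [map_sub, map_sum, MvPolynomial.pderiv_C, sub_zero, map_zero] at h3
  rw [Finset.sum_eq_single b] at h3
  · rw [Derivation.leibniz, MvPolynomial.pderiv_C, MvPolynomial.pderiv_X_self, smul_zero, add_zero, smul_eq_mul, mul_one,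
      MvPolynomial.C_eq_zero] at h3
    exact h3
  · intro a _ hab
    rw [Derivation.leibniz, MvPolynomial.pderiv_C, MvPolynomial.pderiv_X_of_ne hab, smul_zero, smul_zero, add_zero]
  · intro hb
    exact absurd (Finset.mem_univ _) hb

/-- no nontrivial linear combination of independent functions is algebraic -/
theorem Indep.lin {V : Set ℂ} (hV : IsPreconnected V) (hVo : IsOpen V) (hne : V.Nonempty) {ι : Type} [Fintype ι]
    {f : ι → ℂ → ℂ} (hfa : ∀ i, AnalyticOnNhd ℂ (f i) V) (h : Indep V f) (c : ι → ℂ)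
    (hc : AlgOn V (fun z => ∑ i, c i * f i z)) : c = 0 := by
  classical
  obtain ⟨E, _, _, _, _, _, _, D, G, hX, hconst, hGc, hGp, hGa, hGm, hGd, hGz, hGe⟩ := germs hV hVo hne
  have hpol : ∀ p : ℂ[X], AnalyticOnNhd ℂ (fun x => p.eval x) V := fun p x _ => p.differentiable.analyticAt x
  have hev1 : ∀ (g : ℂ → ℂ), AnalyticOnNhd ℂ g V → ∀ Q : ℂ[X][X],
      aeval (G g) Q = G (fun x => Q.eval₂ (evalRingHom x) (g x)) := by
    intro g hg Q
    have hpow : ∀ n : ℕ, G (fun s => g s ^ n) = G g ^ n := by
      intro n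
      induction n with
      | zero =>
        simp only [pow_zero]
        rw [hGc 1, map_one]
      | succ n ih =>
        simp only [pow_succ]
        rw [hGm (fun s => g s ^ n) g (hg.pow n) hg, ih]
    induction Q using Polynomial.induction_on' with
    | add p q hp hq =>
      simp only [eval₂_add]
      rw [hGa _ _ (ev2_an hg p) (ev2_an hg q), map_add, hp, hq]
    | monomial n a =>
      simp only [eval₂_monomial, coe_evalRingHom]
      rw [hGm (fun s => a.eval s) (fun s => g s ^ n) (hpol a) (hg.pow n), hGp, hpow, aeval_monomial]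
  have halg : ∀ (g : ℂ → ℂ), AnalyticOnNhd ℂ g V → (AlgOn V g ↔ G g ∈ FA E) := by
    intro g hg
    constructor
    · rintro ⟨Q, hQ, hQx⟩
      refine ⟨Q, hQ, ?_⟩
      rw [hev1 g hg, hGe _ (fun _ => 0) hQx, hGc, map_zero]
    · rintro ⟨Q, hQ, hQ0⟩
      rw [hev1 g hg] at hQ0
      exact ⟨Q, hQ, hGz _ (ev2_an hg Q) hQ0⟩
  have hs : ∀ (S : Finset ι), AnalyticOnNhd ℂ (fun z => ∑ j ∈ S, c j * f j z) V ∧
      ∑ j ∈ S, algebraMap ℂ E (c j) * G (f j) = G (fun z => ∑ j ∈ S, c j * f j z) := by
    intro S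
    induction S using Finset.induction_on with
    | empty =>
      simp only [Finset.sum_empty]
      refine ⟨analyticOnNhd_const, ?_⟩
      rw [hGc, map_zero]
    | insert i S hi ih =>
      simp only [Finset.sum_insert hi]
      have h1 : AnalyticOnNhd ℂ (fun z => c i * f i z) V := analyticOnNhd_const.mul (hfa i)
      refine ⟨h1.add ih.1, ?_⟩
      rw [hGa _ _ h1 ih.1, hGm (fun _ => c i) _ analyticOnNhd_const (hfa i), hGc, ih.2]
  have hev : ∀ P : MvPolynomial ι ℂ[X],
      MvPolynomial.eval₂ (algebraMap ℂ[X] E) (fun i => G (f i)) P = G (fun s => evF f s P) := by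
    intro P
    induction P using MvPolynomial.induction_on with
    | C a =>
      rw [MvPolynomial.eval₂_C, ← hGp]
      congr 1
      funext s
      simp [evF]
    | add p q hp hq =>
      have h1 : (fun s => evF f s (p + q)) = fun s => evF f s p + evF f s q := by
        funext s
        simp [evF]
      rw [MvPolynomial.eval₂_add, hp, hq, h1, hGa _ _ (evF_an hfa p) (evF_an hfa q)]
    | mul_X p i hp =>
      have h1 : (fun s => evF f s (p * MvPolynomial.X i)) = fun s => evF f s p * f i s := by
        funext s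
        simp [evF]
      rw [MvPolynomial.eval₂_mul, MvPolynomial.eval₂_X, hp, h1, hGm _ _ (evF_an hfa p) (hfa i)]
  have hind : AlgebraicIndependent ℂ[X] (fun i => G (f i)) := by
    rw [algebraicIndependent_iff]
    intro P hP
    refine h P (hGz _ (evF_an hfa P) ?_)
    rw [← hev]
    exact hP
  have hind2 := hind.subalgebraAlgebraicClosure
  have hc2 : G (fun z => ∑ i, c i * f i z) ∈ FA E := (halg _ (hs Finset.univ).1).1 hc
  have hcs : ∀ x : ℂ, IsAlgebraic ℂ[X] (algebraMap ℂ E x) := fun x => by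
    rw [IsScalarTower.algebraMap_apply ℂ ℂ[X] E]
    exact isAlgebraic_algebraMap _
  have h3 := lin_of_ind' hind2 (fun i => ⟨algebraMap ℂ E (c i), hcs _⟩) ⟨_, hc2⟩ (hs Finset.univ).2
  funext i
  have h4 := congrArg Subtype.val (congrFun h3 i)
  exact (algebraMap ℂ E).injective (h4.trans (map_zero _).symm)

/-- logarithms of different linear factors -/
theorem log_lin {V : Set ℂ} (hV : IsPreconnected V) (hVo : IsOpen V) (hne : V.Nonempty) {r : ℕ} (c : Fin r → ℂ)
    (hc : Function.Injective c) (hc0 : ∀ j, c j ≠ 0) {L : ℂ → ℂ} {X : Fin r → ℂ → ℂ} (hL : AnalyticOnNhd ℂ L V)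
    (hX : ∀ j, AnalyticOnNhd ℂ (X j) V) (hLe : ∀ z ∈ V, Complex.exp (L z) = z)
    (hXe : ∀ j, ∀ z ∈ V, Complex.exp (-X j z) = 1 - z / c j) :
    (∀ z ∈ V, deriv L z * z = 1) ∧ (∀ j, ∀ z ∈ V, deriv (X j) z * (c j - z) = 1) ∧
    ∀ (b : ℂ) (a : Fin r → ℂ), AlgOn V (fun z => b * L z + ∑ j, a j * X j z) → b = 0 ∧ a = 0 := by
  classical
  have hL1 : ∀ z ∈ V, deriv L z * z = 1 := by
    intro z hz
    have h1 : HasDerivAt (fun z => Complex.exp (L z)) (Complex.exp (L z) * deriv L z) z :=
      (hL z hz).differentiableAt.hasDerivAt.cexp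
    have h2 : HasDerivAt (fun z => Complex.exp (L z)) 1 z := by
      refine (hasDerivAt_id z).congr_of_eventuallyEq ?_
      filter_upwards [hVo.mem_nhds hz] with w hw
      exact hLe w hw
    have h3 := h1.unique h2
    rw [hLe z hz] at h3
    rw [mul_comm]
    exact h3
  have hX1 : ∀ j, ∀ z ∈ V, deriv (X j) z * (c j - z) = 1 := by
    intro j z hz
    have h1 : HasDerivAt (fun z => Complex.exp (-X j z)) (Complex.exp (-X j z) * -deriv (X j) z) z :=
      (hX j z hz).differentiableAt.hasDerivAt.neg.cexp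
    have h2 : HasDerivAt (fun z => Complex.exp (-X j z)) (0 - 1 / c j) z := by
      have h0 : HasDerivAt (fun w : ℂ => (1 : ℂ) - w / c j) (0 - 1 / c j) z :=
        (hasDerivAt_const z (1 : ℂ)).sub ((hasDerivAt_id z).div_const (c j))
      refine h0.congr_of_eventuallyEq ?_
      filter_upwards [hVo.mem_nhds hz] with w hw
      exact hXe j w hw
    have h3 := h1.unique h2
    rw [hXe j z hz] at h3
    have h4 := hc0 j
    field_simp at h3
    linear_combination -h3
  refine ⟨hL1, hX1, ?_⟩
  -- the family for `hy_indep`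
  let d : Fin (r + 1) → ℂ := Fin.cons 0 c
  have hd : Function.Injective d := by
    rw [Fin.cons_injective_iff]
    refine ⟨?_, hc⟩
    rintro ⟨j, hj⟩
    exact hc0 j hj
  let Φ : Fin 0 ⊕ Fin (r + 1) → ℂ → ℂ := Sum.elim Fin.elim0 (Fin.cons L (fun j z => -X j z))
  have hΦ : ∀ i, AnalyticOnNhd ℂ (Φ i) V := by
    rintro (i | i)
    · exact Fin.elim0 i
    · refine Fin.cases ?_ (fun j => ?_) i
      · exact hL
      · exact (hX j).neg
  have hS : AnalyticOnNhd ℂ (fun z => Complex.exp (L z / 2)) V := fun z hz => by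
    have h1 : AnalyticAt ℂ (fun z => L z / 2) z := (hL z hz).div analyticAt_const two_ne_zero
    exact h1.cexp
  have hind := hy_indep hV hVo hne Polynomial.X Polynomial.irreducible_X.squarefree (fun z => Complex.exp (L z / 2)) hS
    (fun z hz => by
      rw [← Complex.exp_nat_mul, Polynomial.eval_X]
      rw [show ((2 : ℕ) : ℂ) * (L z / 2) = L z by push_cast; ring]
      exact hLe z hz) (k := 0) (r := r + 1) (by rw [Polynomial.natDegree_X]) d hd Φ hΦ (fun i => Fin.elim0 i) (by
      intro i
      refine Fin.cases ?_ (fun j => ?_) i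
      · intro z hz
        show deriv L z * (z - 0) = 1
        rw [sub_zero]
        exact hL1 z hz
      · intro z hz
        show deriv (fun z => -X j z) z * (z - c j) = 1
        rw [deriv.fun_neg, ← hX1 j z hz]
        ring)
  intro b a hab
  have h5 := hind.lin hV hVo hne hΦ (Sum.elim Fin.elim0 (Fin.cons b (fun j => -a j))) (by
    have h6 : (fun z => ∑ i, (Sum.elim Fin.elim0 (Fin.cons b (fun j => -a j)) : Fin 0 ⊕ Fin (r + 1) → ℂ) i * Φ i z) =
        fun z => b * L z + ∑ j, a j * X j z := by
      funext z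
      rw [Fintype.sum_sum_type, Fin.sum_univ_succ]
      simp [Φ]
    rw [h6]
    exact hab)
  refine ⟨?_, funext fun j => ?_⟩
  · exact congrFun h5 (Sum.inr 0)
  · have h6 := congrFun h5 (Sum.inr j.succ)
    simp only [Sum.elim_inr, Fin.cons_succ, Pi.zero_apply, neg_eq_zero] at h6
    exact h6

end Pool.Agent.X255.RH
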