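import Pool.Agent.X255.RH.Loc
import Pool.Agent.X255.RH.Mea3
import Pool.Agent.Y124.EllInd

/-!
# The Legendre family
-/

set_option autoImplicit false

open Polynomial Filter Topology

namespace Pool.Agent.X255.RH

theorem Tame.one_sub {K V : Set ℂ} (h : Tame K V) : Tame {z | 1 - z ∈ K} {z | 1 - z ∈ V} := by
  obtain ⟨S, c, hc, hS, H⟩ := h
  refine ⟨{p | 1 - p ∈ S}, c, hc, fun R => ?_, fun z hz w hw => ?_⟩
  · refine ((hS (R + 1)).image fun p => 1 - p).subset ?_
    rintro p ⟨hp1, hp2⟩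
    refine ⟨1 - p, ⟨hp1, ?_⟩, by ring⟩
    rw [Metric.mem_closedBall, dist_zero_right] at hp2 ⊢
    have h1 := norm_sub_le (1 : ℂ) p
    rw [norm_one] at h1
    linarith
  · have hzw : ‖(1 - z) - (1 - w)‖ = ‖z - w‖ := by
      rw [show (1 - z) - (1 - w) = -(z - w) by ring, norm_neg]
    rcases H (1 - z) hz (1 - w) hw with ⟨p, hp, h1⟩ | ⟨h1, h2⟩ | h1
    · refine Or.inl ⟨1 - p, ?_, ?_⟩
      · change 1 - (1 - p) ∈ S
        rwa [show 1 - (1 - p) = p by ring]
      · rw [hzw] at h1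
        rwa [show z - (1 - p) = -((1 - z) - p) by ring, norm_neg]
    · refine Or.inr (Or.inl ⟨?_, ?_⟩)
      · intro h3
        apply h1
        simp [h3]
      · rw [hzw] at h2
        have h3 : (1 - z).im = -z.im := by simp
        rwa [h3, abs_neg] at h2
    · rw [hzw] at h1
      exact Or.inr (Or.inr h1)

open Pool.Agent.Y124 in
theorem tame_Dom : Tame Dom Dom := by
  have h1 := tame_slit.inter tame_slit.one_sub
  exact h1

open Pool.Agent.Y124 in
theorem leg_indep : Indep Dom fC := indep_of_loc isOpen_Dom ⟨_, half_mem_Dom⟩ fC_locInd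

end Pool.Agent.X255.RH
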