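import Pool.Agent.X255.RH.Main
import Pool.Agent.Y890.MV.Main

/-!
# Lower bounds for polynomials in the values of functions at the roots of almost all polynomials
-/

set_option autoImplicit false
set_option linter.unusedSectionVars false

open Polynomial Filter Topology NumberField

namespace Pool.Agent.X255.RH

open Pool.Agent.Y890.SP Pool.Agent.Y890.MV Pool.Agent.X255.NP Pool.Agent.X255.GB
open Pool.Agent.Y124 (Cov RelK eval_eq_box sV sV_inj exists_sV')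

variable {σ : Type} [Fintype σ] [DecidableEq σ] {V : Set ℂ} {f : σ → ℂ → ℂ} {g : ℕ}

theorem co_indep (G : MvPolynomial (Fin g) ℂ) (h : ∀ z : Fin g → ℂ, MvPolynomial.eval (co z) G = 0) : G = 0 := by
  apply MvPolynomial.funext
  intro a
  obtain ⟨z, rfl⟩ := Pool.Agent.X255.NH.exists_co a
  rw [h z, map_zero]

noncomputable def eS (g : ℕ) (τ : Type) : MvPolynomial (Fin g ⊕ τ) ℂ ≃ₐ[ℂ] MvPolynomial τ (MvPolynomial (Fin g) ℂ) :=
  (MvPolynomial.renameEquiv ℂ (Equiv.sumComm (Fin g) τ)).trans (MvPolynomial.sumAlgEquiv ℂ τ (Fin g))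

theorem eS_eval {τ : Type} (a : Fin g → ℂ) (y : τ → ℂ) (P : MvPolynomial (Fin g ⊕ τ) ℂ) :
    MvPolynomial.eval (Sum.elim a y) P = MvPolynomial.eval y (MvPolynomial.map (MvPolynomial.eval a) (eS g τ P)) := by
  have h1 : ((MvPolynomial.eval y).comp (MvPolynomial.map (MvPolynomial.eval a))).comp
      ((eS g τ : MvPolynomial (Fin g ⊕ τ) ℂ →ₐ[ℂ] MvPolynomial τ (MvPolynomial (Fin g) ℂ)) :
        MvPolynomial (Fin g ⊕ τ) ℂ →+* MvPolynomial τ (MvPolynomial (Fin g) ℂ)) = MvPolynomial.eval (Sum.elim a y) := by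
    refine MvPolynomial.ringHom_ext (fun r => ?_) fun i => ?_
    · simp [eS]
    · rcases i with i | v <;> simp [eS]
  exact (RingHom.congr_fun h1 P).symm

theorem degreeOf_map_le' {R R' τ : Type} [CommSemiring R] [CommSemiring R'] (φ : R →+* R') (P : MvPolynomial τ R) (i : τ) :
    (MvPolynomial.map φ P).degreeOf i ≤ P.degreeOf i := by
  classical
  rw [MvPolynomial.degreeOf_eq_sup, MvPolynomial.degreeOf_eq_sup]
  exact Finset.sup_mono (MvPolynomial.support_map_subset φ P)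

/-- independence on a chart -/
theorem chart_ind (hV : IsPreconnected V) (hf : ∀ v, AnalyticOnNhd ℂ (f v) V) (h : Indep V f) (S : Finset (Fin g))
    {W N : Set (Fin g → ℂ)} {ζ : (Fin g → ℂ) → Fin g → ℂ} (hch : IsChart (UPi (VS V S)) W N ζ) {a0 : Fin g → ℂ}
    (ha0 : a0 ∈ W) : LocIndM (fun (w : {i // i ∈ S} × σ) a => f w.2 (ζ a w.1)) a0 := by
  classical
  intro P hP
  set Q := eS g ({i // i ∈ S} × σ) P with hQ
  set k := Q.totalDegree with hk
  have hdeg : ∀ i, Q.degreeOf i ≤ k := fun i => MvPolynomial.degreeOf_le_totalDegree _ _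
  let G : (Unit × ({i // i ∈ S} × σ) → Fin (k + 1)) → MvPolynomial (Fin g) ℂ := fun l =>
    MvPolynomial.aeval (coP (g := g)) (Q.coeff (sV fun v => l ((), v)))
  have hG0 : ∀ x l, MvPolynomial.eval x (G l) = MvPolynomial.eval (co x) (Q.coeff (sV fun v => l ((), v))) :=
    fun x l => aeval_coP x _
  have hrel : ∀ x, relVal (fun l => MvPolynomial.eval x (G l)) (PS f S x) =
      MvPolynomial.eval (Sum.elim (co x) fun w : {i // i ∈ S} × σ => f w.2 (x w.1)) P := by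
    intro x
    have h1 := eval_eq_box (d := k) (fun w : {i // i ∈ S} × σ => f w.2 (x w.1))
      (MvPolynomial.map (MvPolynomial.eval (co x)) Q) (fun i => (degreeOf_map_le' _ _ _).trans (hdeg i))
    rw [MvPolynomial.aeval_eq_eval] at h1
    rw [eS_eval, ← hQ]
    refine Eq.trans ?_ h1.symm
    unfold relVal
    refine Fintype.sum_equiv (Equiv.arrowCongr (Equiv.punitProd ({i // i ∈ S} × σ)) (Equiv.refl _)) _ _ fun l => ?_
    have h2 : (Equiv.arrowCongr (Equiv.punitProd ({i // i ∈ S} × σ)) (Equiv.refl (Fin (k + 1)))) l = fun v => l ((), v) := rfl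
    rw [h2, MvPolynomial.coeff_map]
    change MvPolynomial.eval x (G l) * _ = _
    rw [hG0]
    congr 1
    exact Fintype.prod_equiv (Equiv.punitProd ({i // i ∈ S} × σ)) _ _ fun v => rfl
  have han : AnalyticOnNhd ℂ (fun x => relVal (fun l => MvPolynomial.eval x (G l)) (PS f S x)) (UPi (VS V S)) := by
    unfold relVal
    refine Finset.analyticOnNhd_fun_sum _ fun l _ => ?_
    refine (an_evalX (G l) _).mul ?_
    refine Finset.analyticOnNhd_fun_prod _ fun v _ => ?_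
    exact (PS_an hf S v.1 v.2).pow _
  have hz0 := (hch.inv a0 ha0).1
  have hco : co (ζ a0) = a0 := (hch.inv a0 ha0).2
  have hU : IsPreconnected (UPi (VS V S)) := by
    rw [UPi_eq]
    exact isPreconnected_univ_pi (VS_pre hV S)
  have hzero : ∀ x ∈ UPi (VS V S), relVal (fun l => MvPolynomial.eval x (G l)) (PS f S x) = 0 := by
    refine han.eqOn_zero_of_preconnected_of_eventuallyEq_zero hU (hch.sN hz0) ?_
    have h1 : ∀ᶠ x in 𝓝 (ζ a0), MvPolynomial.eval (Sum.elim (co x) fun w : {i // i ∈ S} × σ => f w.2 (ζ (co x) w.1)) P = 0 := by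
      have h2 : Tendsto (co (g := g)) (𝓝 (ζ a0)) (𝓝 a0) := by
        have h3 := (co_cont (g := g)).tendsto (ζ a0)
        rwa [hco] at h3
      exact h2.eventually hP
    filter_upwards [hch.oN.mem_nhds hz0, h1] with x hx h2
    rw [(hch.inv' x hx).2.1] at h2
    rw [hrel]
    exact h2
  have hcoef : ∀ l : {i // i ∈ S} × σ → Fin (k + 1), Q.coeff (sV l) = 0 := by
    intro l
    have h1 := prod_indep h S G hzero fun v => l v.2
    apply co_indep
    intro z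
    have h2 := hG0 z fun v => l v.2
    rw [h1, map_zero] at h2
    exact h2.symm
  have hQ0 : Q = 0 := by
    by_contra hne
    obtain ⟨s, hs⟩ := MvPolynomial.support_nonempty.2 hne
    obtain ⟨l, rfl⟩ := exists_sV' Q hdeg s hs
    exact MvPolynomial.mem_support_iff.1 hs (hcoef l)
  exact (eS g ({i // i ∈ S} × σ)).injective (by rw [← hQ, hQ0, map_zero])

/-- Every polynomial of degree at most `k` in each of the numbers `x q`, with coefficients `∑ ξ b * c b`, `b < k`, `c b`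
integers of absolute value at most `T ^ k`, is at least `T ^ (-B)` times each of its coefficients. -/
def Mea {Q : Type} [Fintype Q] [DecidableEq Q] (ξ : ℕ → ℂ) (k : ℕ) (B T : ℝ) (x : Q → ℂ) : Prop :=
  ∀ c : (Q → Fin (k + 1)) → Fin k → ℤ, (∀ l b, |(c l b : ℝ)| ≤ T ^ k) → ∀ l₀,
    T ^ (-B) * ‖∑ b : Fin k, ξ b * (c l₀ b : ℂ)‖ ≤
      ‖∑ l, (∑ b : Fin k, ξ b * (c l b : ℂ)) * ∏ q, x q ^ (l q : ℕ)‖

theorem Mea.of_equiv {Q Q' : Type} [Fintype Q] [DecidableEq Q] [Fintype Q'] [DecidableEq Q'] {ξ : ℕ → ℂ} {k : ℕ}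
    {B T : ℝ} (e : Q ≃ Q') {x : Q' → ℂ} (h : Mea ξ k B T fun q => x (e q)) : Mea ξ k B T x := by
  intro c hc l₀
  have key := h (fun l => c fun q' => l (e.symm q')) (fun l b => hc _ _) (fun q => l₀ (e q))
  have h1 : (fun q' => (fun q => l₀ (e q)) (e.symm q')) = l₀ := by
    funext q'
    simp
  rw [h1] at key
  refine key.trans (le_of_eq (congrArg _ ?_))
  refine Fintype.sum_equiv (Equiv.arrowCongr e (Equiv.refl _)) _ _ fun l => ?_
  have h1 : (Equiv.arrowCongr e (Equiv.refl (Fin (k + 1)))) l = fun q' => l (e.symm q') := rfl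
  rw [h1]
  congr 1
  refine Fintype.prod_equiv e _ _ fun q => ?_
  simp

theorem Mea.mono {Q : Type} [Fintype Q] [DecidableEq Q] {ξ : ℕ → ℂ} {k : ℕ} {B B' T : ℝ} (hT : 1 ≤ T) (hB : B ≤ B')
    {x : Q → ℂ} (h : Mea ξ k B T x) : Mea ξ k B' T x := by
  intro c hc l₀
  refine le_trans ?_ (h c hc l₀)
  exact mul_le_mul_of_nonneg_right (Real.rpow_le_rpow_of_exponent_le hT (by linarith)) (norm_nonneg _)

/-- the exceptional polynomials with roots in a given set -/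
def ExcMOn (f : σ → ℂ → ℂ) (S : Finset (Fin g)) (ξ : ℕ → ℂ) (k : ℕ) (B : ℝ) (Kz : Set (Fin g → ℂ)) (T : ℝ) :
    Set (Fin (g + 1) → ℤ) :=
  {a | (∀ i, |(a i : ℝ)| ≤ T) ∧ ∃ z ∈ Kz, IsRoots a z ∧ ¬ Mea ξ k B T fun q : {i // i ∈ S} × σ => f q.2 (z q.1)}

theorem ExcMOn.mono {S : Finset (Fin g)} {ξ : ℕ → ℂ} {k : ℕ} {B B' : ℝ} (hB : B ≤ B') {Kz : Set (Fin g → ℂ)} {T : ℝ}
    (hT : 1 ≤ T) : ExcMOn f S ξ k B' Kz T ⊆ ExcMOn f S ξ k B Kz T := by
  rintro a ⟨ha, z, hz, hr, hm⟩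
  exact ⟨ha, z, hz, hr, fun h => hm (h.mono hT hB)⟩

theorem excM_near (hg : 0 < g) (hV : IsPreconnected V) (hVo : IsOpen V) (hf : ∀ v, AnalyticOnNhd ℂ (f v) V)
    (h : Indep V f) (S : Finset (Fin g)) (k : ℕ) (z0 : Fin g → ℂ) (hz0 : z0 ∈ UPi (VS V S))
    (hinj : Function.Injective z0) : ∃ Kz ∈ 𝓝 z0, ∀ ε : ℝ, 0 < ε → ∃ (D : ℕ) (B C T₀ : ℝ), 0 ≤ C ∧ 2 ≤ T₀ ∧
      ∀ T : ℝ, T₀ ≤ T → ∀ ξ : ℕ → ℂ, Cov D ⌊C * T ^ ε⌋₊ (quoC '' ExcMOn f S ξ k B Kz T) := by
  classical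
  have hUo : IsOpen (UPi (VS V S)) := by
    rw [UPi_eq]
    exact isOpen_set_pi Set.finite_univ fun i _ => VS_open hVo S i
  obtain ⟨W, N, ζ, h1, h2, h3, h4, h5, h6, h7, h8, h9⟩ := exists_chart (UPi (VS V S)) hUo z0 hz0 hinj
  have hch : IsChart (UPi (VS V S)) W N ζ := ⟨h1, h2, h3, h4, h6, h7, h8, h9⟩
  obtain ⟨Kz, hK1, hK2, hK3⟩ := exists_compact_subset h4 h5
  refine ⟨Kz, mem_interior_iff_mem_nhds.1 hK2, fun ε hε => ?_⟩
  have : Nonempty (Fin g) := ⟨⟨0, hg⟩⟩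
  have hLW : co '' Kz ⊆ W := by
    rintro _ ⟨z, hz, rfl⟩
    exact (h9 z (hK3 hz)).1
  obtain ⟨D, B, C, T₀, hC, hT₀, HH⟩ := nfM stmZ stmClose stmCharts 1
    (fun (w : {i // i ∈ S} × σ) a => f w.2 (ζ a w.1)) (co '' Kz) (hK1.image co_cont) (fun w a ha => by
      have h10 := hch.an_comp (f := fun z : Fin g → ℂ => f w.2 (z w.1)) (fun z hz => PS_an hf S () w z hz)
      exact h10 a (hLW ha)) (fun a ha => chart_ind hV hf h S hch (hLW ha)) (Fin k) k (k : ℝ) ε hε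
  refine ⟨D, B, C, T₀, hC, hT₀, fun T hT ξ => ?_⟩
  have hT1 : 1 ≤ T := by linarith
  have hcov := HH ℚ (by rw [Module.finrank_self]) (algebraMap ℚ ℂ) (fun b : Fin k => ξ b) T hT
  refine hcov.mono le_rfl le_rfl ?_
  rintro _ ⟨a, ⟨ha, z, hz, hr, hm⟩, rfl⟩
  have hco : quoC a = co z := hr.quo_eq
  have hζz : ζ (co z) = z := (h9 z (hK3 hz)).2.1
  refine ⟨?_, quo a, fun i => HtLe_int _ _ hr.1 (ha _) (ha _), rfl, ?_⟩
  · rw [hco]
    exact ⟨z, hz, rfl⟩
  · unfold Mea at hm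
    push Not at hm
    obtain ⟨c, hc, l₀, hlt⟩ := hm
    have hcast : ∀ n : ℤ, (algebraMap ℚ ℂ) (((n : 𝓞 ℚ)) : ℚ) = (n : ℂ) := by
      intro n
      simp
    refine ⟨fun l b => ((c l b : ℤ) : 𝓞 ℚ), fun l b φ => ?_, l₀, ?_, ?_⟩
    · have h10 : φ ((((c l b : ℤ) : 𝓞 ℚ)) : ℚ) = ((c l b : ℤ) : ℂ) := by simp
      rw [h10, Complex.norm_intCast, Real.rpow_natCast]
      exact hc l b
    · simp only [hcast]
      intro h0
      rw [h0, norm_zero, mul_zero] at hlt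
      exact absurd hlt (not_lt.2 (norm_nonneg _))
    · simp only [hcast]
      rw [hco, hζz]
      exact hlt.le

end Pool.Agent.X255.RH
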