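import Pool.Agent.X255.RH.Mea

/-!
# Lower bounds for polynomials in the values at the roots of almost all polynomials: the main theorems
-/

set_option autoImplicit false
set_option linter.unusedSectionVars false

open Polynomial Filter Topology NumberField

namespace Pool.Agent.X255.RH

open Pool.Agent.Y890.SP Pool.Agent.Y890.MV Pool.Agent.X255.NP Pool.Agent.X255.GB
open Pool.Agent.Y124 (Cov)

variable {σ : Type} [Fintype σ] [DecidableEq σ] {V : Set ℂ} {f : σ → ℂ → ℂ} {g : ℕ}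

theorem cov_finsetB {X κ Ξ : Type} (ε : ℝ) (t : Finset κ) (S : κ → ℝ → Ξ → ℝ → Set (X → ℂ))
    (hS : ∀ x B B' ξ T, (1 : ℝ) ≤ T → B ≤ B' → S x B' ξ T ⊆ S x B ξ T)
    (h : ∀ x ∈ t, ∃ (D : ℕ) (B C T₀ : ℝ), 0 ≤ C ∧ 2 ≤ T₀ ∧ ∀ T : ℝ, T₀ ≤ T → ∀ ξ, Cov D ⌊C * T ^ ε⌋₊ (S x B ξ T)) :
    ∃ (D : ℕ) (B C T₀ : ℝ), 0 ≤ C ∧ 2 ≤ T₀ ∧ ∀ T : ℝ, T₀ ≤ T → ∀ ξ, Cov D ⌊C * T ^ ε⌋₊ (⋃ x ∈ t, S x B ξ T) := by
  classical
  induction t using Finset.induction_on with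
  | empty =>
    refine ⟨0, 0, 0, 2, le_rfl, le_rfl, fun T _ ξ => ⟨∅, by simp, by simp, by simp⟩⟩
  | insert x t hx ih =>
    obtain ⟨D, B, C, T₀, hC, hT₀, H⟩ := ih fun y hy => h y (Finset.mem_insert_of_mem hy)
    obtain ⟨D', B', C', T₀', hC', hT₀', H'⟩ := h x (Finset.mem_insert_self _ _)
    refine ⟨max D' D, max B' B, C' + C, max T₀' T₀, by positivity, le_max_of_le_left hT₀', fun T hT ξ => ?_⟩
    have hT1 : T₀' ≤ T := (le_max_left _ _).trans hT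
    have hT2 : T₀ ≤ T := (le_max_right _ _).trans hT
    have hTp : 0 < T := by linarith
    have h1 := ((H' T hT1 ξ).mono (le_max_left D' D) le_rfl (Set.Subset.refl _)).union
      ((H T hT2 ξ).mono (le_max_right D' D) le_rfl (Set.Subset.refl _))
    refine h1.mono le_rfl ?_ ?_
    · have h2 : 0 ≤ C' * T ^ ε := by positivity
      have h3 : 0 ≤ C * T ^ ε := by positivity
      apply Nat.le_floor
      push_cast
      have h4 := Nat.floor_le h2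
      have h5 := Nat.floor_le h3
      nlinarith
    · rw [Finset.set_biUnion_insert]
      refine Set.union_subset_union (hS x _ _ ξ T (by linarith) (le_max_left _ _)) ?_
      exact Set.iUnion₂_mono fun y _ => hS y _ _ ξ T (by linarith) (le_max_right _ _)

theorem mea_vals {K : Set ℂ} {a : Fin (g + 1) → ℤ} {z : Fin g → ℂ} (hz : IsRoots a z)
    (hinj : Function.Injective z) (S : Finset (Fin g)) (hS : ∀ i, i ∈ S ↔ z i ∈ K) {ξ : ℕ → ℂ} {k : ℕ} {B T : ℝ}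
    (hm : Mea ξ k B T fun q : {i // i ∈ S} × σ => f q.2 (z q.1)) : Mea ξ k B T (vals K f a) := by
  classical
  have h1 : Function.Bijective (fun i : {i // i ∈ S} => (⟨z i, (mem_rts hz.1).2 ⟨hz.root i, (hS i).1 i.2⟩⟩ :
      {x // x ∈ rts K a})) := by
    constructor
    · intro i j hij
      exact Subtype.ext (hinj (Subtype.mk.inj hij))
    · rintro ⟨x, hx⟩
      obtain ⟨hx1, hx2⟩ := (mem_rts hz.1).1 hx
      obtain ⟨i, rfl⟩ := (IsRoots.root_iff hz).1 hx1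
      exact ⟨⟨i, (hS i).2 hx2⟩, rfl⟩
  let e : {i // i ∈ S} ≃ {x // x ∈ rts K a} := Equiv.ofBijective _ h1
  exact Mea.of_equiv (e.prodCongr (Equiv.refl σ)) hm

/-- near arbitrary compact sets -/
theorem excMOn_cov (hg : 0 < g) (hV : IsPreconnected V) (hVo : IsOpen V) (hf : ∀ v, AnalyticOnNhd ℂ (f v) V)
    (h : Indep V f) (S : Finset (Fin g)) (k : ℕ) (𝒦 : Set (Fin g → ℂ))
    (h𝒦 : IsCompact 𝒦) (h𝒦U : 𝒦 ⊆ UPi (VS V S)) (hinj : ∀ z ∈ 𝒦, Function.Injective z) (ε : ℝ) (hε : 0 < ε) :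
    ∃ (D : ℕ) (B C T₀ : ℝ), 0 ≤ C ∧ 2 ≤ T₀ ∧ ∀ T : ℝ, T₀ ≤ T → ∀ ξ : ℕ → ℂ,
      Cov D ⌊C * T ^ ε⌋₊ (quoC '' ExcMOn f S ξ k B 𝒦 T) := by
  classical
  choose! Kz hKz1 hKz2 using fun z (hz : z ∈ 𝒦) =>
    excM_near hg hV hVo hf h S k z (h𝒦U hz) (hinj z hz)
  obtain ⟨t, ht1, ht2⟩ := h𝒦.elim_nhds_subcover Kz fun z hz => hKz1 z hz
  obtain ⟨D, B, C, T₀, hC, hT₀, HH⟩ := cov_finsetB ε t (fun z0 B (ξ : ℕ → ℂ) T => quoC '' ExcMOn f S ξ k B (Kz z0) T)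
    (fun x B B' ξ T hT hB => Set.image_mono (ExcMOn.mono hB hT)) fun z0 hz0 => hKz2 z0 (ht1 z0 hz0) ε hε
  refine ⟨D, B, C, T₀, hC, hT₀, fun T hT ξ => (HH T hT ξ).mono le_rfl le_rfl ?_⟩
  rintro _ ⟨a, ⟨ha, z, hz, hr, hm⟩, rfl⟩
  obtain ⟨z0, hz0, hzz⟩ := Set.mem_iUnion₂.1 (ht2 hz)
  exact Set.mem_iUnion₂.2 ⟨z0, hz0, a, ⟨ha, z, hzz, hr, hm⟩, rfl⟩

/-- the exceptional polynomials -/
def ExcMR (K V : Set ℂ) (f : σ → ℂ → ℂ) (R η : ℝ) (ξ : ℕ → ℂ) (k : ℕ) (B T : ℝ) : Set (Fin (g + 1) → ℤ) :=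
  {a | (∀ i, |(a i : ℝ)| ≤ T) ∧ Inn K V R η a ∧ ¬ Mea ξ k B T (vals K f a)}

theorem excMR_cov (hg : 0 < g) (hV : IsPreconnected V) (hVo : IsOpen V) (hf : ∀ v, AnalyticOnNhd ℂ (f v) V)
    (h : Indep V f) (K : Set ℂ) (R η : ℝ) (hη : 0 < η) (k : ℕ) (ε : ℝ) (hε : 0 < ε) :
    ∃ (D : ℕ) (B C T₀ : ℝ), 0 ≤ C ∧ 2 ≤ T₀ ∧ ∀ T : ℝ, T₀ ≤ T → ∀ ξ : ℕ → ℂ,
      Cov D ⌊C * T ^ ε⌋₊ (quoC '' ExcMR (g := g) K V f R η ξ k B T) := by
  classical
  let 𝒦 : Finset (Fin g) → Set (Fin g → ℂ) := fun S =>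
    {z | (∀ i, ‖z i‖ ≤ R) ∧ (∀ i j, i ≠ j → η ≤ ‖z i - z j‖) ∧ ∀ i ∈ S, Metric.ball (z i) η ⊆ V}
  have hcl : IsClosed {x : ℂ | Metric.ball x η ⊆ V} := by
    rw [← isSeqClosed_iff_isClosed]
    intro x a hx ha y hy
    rw [Metric.mem_ball] at hy
    have h2 : Tendsto (fun i => dist y (x i)) atTop (nhds (dist y a)) := tendsto_const_nhds.dist ha
    obtain ⟨i, hi⟩ := (h2.eventually (gt_mem_nhds hy)).exists
    exact hx i (Metric.mem_ball.2 hi)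
  have hcomp : ∀ S, IsCompact (𝒦 S) := by
    intro S
    have h1 : IsClosed (𝒦 S) := by
      have h2 : 𝒦 S = (⋂ i, {z | ‖z i‖ ≤ R}) ∩ ((⋂ (i : Fin g) (j : Fin g) (_ : i ≠ j), {z | η ≤ ‖z i - z j‖}) ∩
          ⋂ (i : Fin g) (_ : i ∈ S), (fun z : Fin g → ℂ => z i) ⁻¹' {x : ℂ | Metric.ball x η ⊆ V}) := by
        ext z
        simp [𝒦]
      rw [h2]
      refine (isClosed_iInter fun i => isClosed_le (continuous_apply i).norm continuous_const).inter (IsClosed.inter ?_ ?_)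
      · exact isClosed_iInter fun i => isClosed_iInter fun j => isClosed_iInter fun _ =>
          isClosed_le continuous_const (((continuous_apply i).sub (continuous_apply j)).norm)
      · exact isClosed_iInter fun i => isClosed_iInter fun _ => hcl.preimage (continuous_apply i)
    refine Metric.isCompact_of_isClosed_isBounded h1 ((Metric.isBounded_closedBall (x := (0 : Fin g → ℂ))
      (r := max R 0)).subset fun z hz => ?_)
    rw [Metric.mem_closedBall, dist_zero_right, pi_norm_le_iff_of_nonneg (le_max_right _ _)]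
    exact fun i => (hz.1 i).trans (le_max_left _ _)
  have h𝒦U : ∀ S, 𝒦 S ⊆ UPi (VS V S) := by
    intro S z hz i hi
    exact hz.2.2 i hi (Metric.mem_ball_self hη)
  have hinj : ∀ S, ∀ z ∈ 𝒦 S, Function.Injective z := by
    intro S z hz i j hij
    by_contra hne
    have h1 := hz.2.1 i j hne
    rw [hij, sub_self, norm_zero] at h1
    linarith
  obtain ⟨D, B, C, T₀, hC, hT₀, HH⟩ := cov_finsetB ε (Finset.univ : Finset (Finset (Fin g)))
    (fun S B (ξ : ℕ → ℂ) T => quoC '' ExcMOn f S ξ k B (𝒦 S) T)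
    (fun x B B' ξ T hT hB => Set.image_mono (ExcMOn.mono hB hT))
    fun S _ => excMOn_cov hg hV hVo hf h S k (𝒦 S) (hcomp S) (h𝒦U S) (hinj S) ε hε
  refine ⟨D, B, C, T₀, hC, hT₀, fun T hT ξ => (HH T hT ξ).mono le_rfl le_rfl ?_⟩
  rintro _ ⟨a, ⟨ha, ⟨z, hz, hz1, hz2, hz3⟩, hno⟩, rfl⟩
  let S : Finset (Fin g) := Finset.univ.filter fun i => z i ∈ K
  have hS : ∀ i, i ∈ S ↔ z i ∈ K := fun i => by simp [S]
  have hzK : z ∈ 𝒦 S := ⟨hz1, hz2, fun i hi => hz3 i ((hS i).1 hi)⟩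
  refine Set.mem_iUnion₂.2 ⟨S, Finset.mem_univ _, a, ⟨ha, z, hzK, hz, fun hm => hno ?_⟩, rfl⟩
  exact mea_vals hz (hinj S z hzK) S hS hm

/-- `a` is of degree `g`, has simple roots, and the values of the functions at its roots in `K` satisfy the lower bound -/
def GoodM (K : Set ℂ) (f : σ → ℂ → ℂ) (ξ : ℕ → ℂ) (k : ℕ) (B T : ℝ) (a : Fin (g + 1) → ℤ) : Prop :=
  a (Fin.last g) ≠ 0 ∧ (pol a).Separable ∧ Mea ξ k B T (vals K f a)

open scoped Classical in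
/-- **Almost all polynomials.** -/
theorem mea_all (hg : 0 < g) (hV : IsPreconnected V) (hVo : IsOpen V) {K : Set ℂ} (hVt : Tame K V)
    (hf : ∀ v, AnalyticOnNhd ℂ (f v) V) (h : Indep V f) (k : ℕ) (hk : 1 ≤ k) :
    ∃ (B : ℝ) (T₀ : ℕ), ∀ T, T₀ ≤ T → ∀ ξ : ℕ → ℂ,
      (k : ℝ) * ((bx g T).filter fun a => ¬ GoodM K f ξ k B T a).card ≤ (bx g T).card := by
  have hk' : (1 : ℝ) ≤ k := by exact_mod_cast hk
  obtain ⟨R, η, T₁, hη, hinn⟩ := inn_count hg hVt (δ := 1 / (2 * k)) (by positivity)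
  obtain ⟨D, B, C, T₂, hC, hT₂, HH⟩ := excMR_cov hg hV hVo hf h K R η hη k (1 / 2) (by norm_num)
  refine ⟨B, max (max 1 T₁) (max ⌈T₂⌉₊ ⌈(2 * k * (C * D * 3 ^ g)) ^ 2⌉₊), fun T hT ξ => ?_⟩
  simp only [max_le_iff] at hT
  obtain ⟨⟨hT1, hTa⟩, hTb, hTc⟩ := hT
  have hTr : (1 : ℝ) ≤ T := by exact_mod_cast hT1
  have hTp : (0 : ℝ) < T := by linarith
  have hTb' : T₂ ≤ T := Nat.ceil_le.1 hTb
  have hTc' : (2 * k * (C * D * 3 ^ g)) ^ 2 ≤ (T : ℝ) := Nat.ceil_le.1 hTc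
  obtain ⟨h7, h8⟩ := count_of_cov hg (ExcMR (g := g) K V f R η ξ k B T) hTr (by
    rintro a ⟨ha, hi, _⟩
    exact ⟨ha, hi.lead⟩) (HH T hTb' ξ)
  have hsub : ((bx g T).filter fun a => ¬ GoodM K f ξ k B T a) ⊆ ((bx g T).filter fun a => ¬ Inn K V R η a) ∪ h7.toFinset := by
    intro a ha
    rw [Finset.mem_filter] at ha
    rw [Finset.mem_union, Finset.mem_filter, Set.Finite.mem_toFinset]
    by_cases hi : Inn K V R η a
    · right
      refine ⟨fun i => by exact_mod_cast mem_bx.1 ha.1 i, hi, fun hno => ha.2 ⟨hi.lead, hi.sep hη, hno⟩⟩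
    · exact Or.inl ⟨ha.1, hi⟩
  have h1 := (Finset.card_le_card hsub).trans (Finset.card_union_le _ _)
  rw [← Set.ncard_eq_toFinset_card _ h7] at h1
  have h2 : (((bx g T).filter fun a => ¬ GoodM K f ξ k B T a).card : ℝ) ≤
      ((bx g T).filter fun a => ¬ Inn K V R η a).card + (ExcMR (g := g) K V f R η ξ k B T).ncard := by exact_mod_cast h1
  have h3 := hinn T hTa
  set Bx : ℝ := ((bx g T).card : ℝ) with hBx
  have hBx0 : 0 ≤ Bx := Nat.cast_nonneg _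
  -- the second part
  have h4 : 2 * k * ((ExcMR (g := g) K V f R η ξ k B T).ncard : ℝ) ≤ Bx := by
    have hsq : ((T : ℝ)) ^ (1 / 2 : ℝ) = √T := by rw [Real.sqrt_eq_rpow]
    rw [hsq] at h8
    have hs : 2 * k * (C * D * 3 ^ g) ≤ √(T : ℝ) := Real.le_sqrt_of_sq_le hTc'
    have hfl : ((⌊C * √(T : ℝ)⌋₊ : ℕ) : ℝ) ≤ C * √T := Nat.floor_le (by positivity)
    have hTT : √(T : ℝ) * √T = T := Real.mul_self_sqrt (by positivity)
    calc 2 * k * ((ExcMR (g := g) K V f R η ξ k B T).ncard : ℝ)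
        ≤ 2 * k * ((⌊C * √(T : ℝ)⌋₊ : ℝ) * D * (3 * T) ^ g) := mul_le_mul_of_nonneg_left h8 (by positivity)
      _ ≤ 2 * k * ((C * √T) * D * (3 * T) ^ g) := by gcongr
      _ = (2 * k * (C * D * 3 ^ g)) * (√T * T ^ g) := by rw [mul_pow]; ring
      _ ≤ √T * (√T * T ^ g) := mul_le_mul_of_nonneg_right hs (by positivity)
      _ = T ^ (g + 1) := by rw [← mul_assoc, hTT, pow_succ]; ring
      _ ≤ (2 * (T : ℝ) + 1) ^ (g + 1) := pow_le_pow_left₀ (by positivity) (by linarith) _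
      _ = Bx := by rw [hBx, bx_card]
  have h5 : (k : ℝ) * (1 / (2 * k) * Bx) = Bx / 2 := by
    field_simp
  nlinarith

open scoped Classical in
/-- **A power saving for polynomials with roots in a compact position.** -/
theorem mea_eps (hg : 0 < g) (hV : IsPreconnected V) (hVo : IsOpen V) (hf : ∀ v, AnalyticOnNhd ℂ (f v) V)
    (h : Indep V f) (K : Set ℂ) (k : ℕ) (R η ε : ℝ) (hη : 0 < η) (hε : 0 < ε) :
    ∃ B C : ℝ, ∀ T : ℕ, 1 ≤ T → ∀ ξ : ℕ → ℂ,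
      (((bx g T).filter fun a => Pos K V R η a ∧ ¬ Mea ξ k B T (vals K f a)).card : ℝ) ≤ C * (T : ℝ) ^ ((g : ℝ) + ε) := by
  obtain ⟨D, B, C, T₀, hC, hT₀, HH⟩ := excMR_cov hg hV hVo hf h K R η hη k ε hε
  refine ⟨B, max (C * D * 3 ^ g) ((2 * T₀ + 1) ^ (g + 1)), fun T hT ξ => ?_⟩
  have hTr : (1 : ℝ) ≤ T := by exact_mod_cast hT
  have hTp : (0 : ℝ) < T := by linarith
  rcases le_or_gt T₀ (T : ℝ) with hTT | hTT
  · obtain ⟨h7, h8⟩ := count_of_cov hg (ExcMR (g := g) K V f R η ξ k B T) hTr (by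
      rintro a ⟨ha, hi, _⟩
      exact ⟨ha, hi.lead⟩) (HH T hTT ξ)
    have hsub : (((bx g T).filter fun a => Pos K V R η a ∧ ¬ Mea ξ k B T (vals K f a)) : Finset _) ⊆ h7.toFinset := by
      intro a ha
      rw [Finset.mem_filter] at ha
      rw [Set.Finite.mem_toFinset]
      exact ⟨fun i => by exact_mod_cast mem_bx.1 ha.1 i, ha.2.1.inn, ha.2.2⟩
    have h1 := Finset.card_le_card hsub
    rw [← Set.ncard_eq_toFinset_card _ h7] at h1
    have h2 : (((bx g T).filter fun a => Pos K V R η a ∧ ¬ Mea ξ k B T (vals K f a)).card : ℝ) ≤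
        (ExcMR (g := g) K V f R η ξ k B T).ncard := by exact_mod_cast h1
    refine h2.trans (h8.trans ?_)
    have hfl : ((⌊C * (T : ℝ) ^ ε⌋₊ : ℕ) : ℝ) ≤ C * (T : ℝ) ^ ε := Nat.floor_le (by positivity)
    calc (⌊C * (T : ℝ) ^ ε⌋₊ : ℝ) * D * (3 * T) ^ g ≤ (C * (T : ℝ) ^ ε) * D * (3 * T) ^ g := by gcongr
      _ = (C * D * 3 ^ g) * (T : ℝ) ^ ((g : ℝ) + ε) := by
          rw [Real.rpow_add hTp, Real.rpow_natCast, mul_pow]
          ring
      _ ≤ _ := mul_le_mul_of_nonneg_right (le_max_left _ _) (by positivity)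
  · have h1 : (((bx g T).filter fun a => Pos K V R η a ∧ ¬ Mea ξ k B T (vals K f a)).card : ℝ) ≤ (bx g T).card := by
      exact_mod_cast Finset.card_le_card (Finset.filter_subset _ _)
    refine h1.trans ?_
    rw [bx_card]
    have h2 : (2 * (T : ℝ) + 1) ^ (g + 1) ≤ (2 * T₀ + 1) ^ (g + 1) := pow_le_pow_left₀ (by positivity) (by linarith) _
    refine (h2.trans (le_max_right (C * D * 3 ^ g) _)).trans ?_
    refine le_mul_of_one_le_right (le_trans (by positivity) (le_max_right _ ((2 * T₀ + 1) ^ (g + 1)))) ?_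
    exact Real.one_le_rpow hTr (by positivity)

end Pool.Agent.X255.RH
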