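import Pool.Agent.X255.RH.Main
import Pool.Agent.X255.NP.Norm
import Pool.Agent.Y921.SR.Pencil

/-!
# Singular matrices of unrelated numbers
-/

set_option autoImplicit false
set_option linter.unusedSectionVars false

open NumberField Filter

namespace Pool.Agent.X255.RH

open MvPolynomial Pool.Agent.X255.NP

theorem l1_det {τ : Type} {n : ℕ} (M : Matrix (Fin n) (Fin n) (MvPolynomial τ ℂ)) {R : ℝ} (hR : 0 ≤ R)
    (h : ∀ i j, l1 (M i j) ≤ R) : l1 M.det ≤ n.factorial * R ^ n := by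
  rw [Matrix.det_apply']
  refine (l1_sum _ _).trans ?_
  have h1 : ∀ σ ∈ (Finset.univ : Finset (Equiv.Perm (Fin n))),
      l1 (((Equiv.Perm.sign σ : ℤ) : MvPolynomial τ ℂ) * ∏ i, M (σ i) i) ≤ R ^ n := by
    intro σ _
    refine (l1_mul _ _).trans ?_
    have h2 : l1 ((Equiv.Perm.sign σ : ℤ) : MvPolynomial τ ℂ) = 1 := by
      rcases Int.units_eq_one_or (Equiv.Perm.sign σ) with h | h
      · rw [h, Units.val_one, Int.cast_one, l1_one]
      · have h3 : (((-1 : ℤˣ) : ℤ) : MvPolynomial τ ℂ) = monomial 0 (-1) := by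
          rw [Units.val_neg, Units.val_one, Int.cast_neg, Int.cast_one, ← C_apply, C_neg, C_1]
        rw [h, h3, l1_monomial, norm_neg, norm_one]
    rw [h2, one_mul]
    have h3 := l1_prod Finset.univ (fun i => M (σ i) i) R (fun i _ => h _ _) hR
    rwa [Finset.card_univ, Fintype.card_fin] at h3
  refine (Finset.sum_le_sum h1).trans ?_
  rw [Finset.sum_const, nsmul_eq_mul, Finset.card_univ, Fintype.card_perm, Fintype.card_fin]

/-- the degree of a determinant of linear forms (as in `Pool.Agent.Y921.SR.Poly`) -/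
theorem det_degR {R τ : Type*} [CommRing R] {n : ℕ} (M : Matrix (Fin n) (Fin n) (MvPolynomial τ R))
    (h : ∀ i j, (M i j).totalDegree ≤ 1) : M.det.totalDegree ≤ n := by
  rw [Matrix.det_apply]
  refine totalDegree_finsetSum_le fun τ _ => ?_
  have h1 : (∏ i, M (τ i) i).totalDegree ≤ n := by
    refine (totalDegree_finset_prod _ _).trans ?_
    refine (Finset.sum_le_card_nsmul _ _ 1 fun i _ => h _ _).trans ?_
    simp
  rcases Int.units_eq_one_or (Equiv.Perm.sign τ) with h2 | h2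
  · rw [h2, one_smul]; exact h1
  · rw [h2, Units.neg_smul, one_smul, totalDegree_neg]; exact h1

section Box

variable {A Q : Type} [Fintype A] [DecidableEq A] [Fintype Q] [DecidableEq Q]

/-- exponents -/
noncomputable def sV2 {k k' : ℕ} (β : A → Fin (k + 1)) (l : Q → Fin (k' + 1)) : A ⊕ Q →₀ ℕ :=
  Finsupp.equivFunOnFinite.symm (Sum.elim (fun a => (β a : ℕ)) fun q => (l q : ℕ))

theorem sV2_inj {k k' : ℕ} {β β' : A → Fin (k + 1)} {l l' : Q → Fin (k' + 1)} (h : sV2 β l = sV2 β' l') :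
    β = β' ∧ l = l' := by
  constructor
  · funext a
    have h1 := DFunLike.congr_fun h (Sum.inl a)
    exact Fin.ext h1
  · funext q
    have h1 := DFunLike.congr_fun h (Sum.inr q)
    exact Fin.ext h1

theorem eval_box2 {R : Type} [CommRing R] (ψ : R →+* ℂ) (PP : MvPolynomial (A ⊕ Q) R) {k k' : ℕ}
    (hA : ∀ a, PP.degreeOf (Sum.inl a) ≤ k) (hQ : ∀ q, PP.degreeOf (Sum.inr q) ≤ k') (u : A → ℂ) (y : Q → ℂ) :
    eval₂ ψ (Sum.elim u y) PP = ∑ l : Q → Fin (k' + 1), (∑ β : A → Fin (k + 1), (∏ a, u a ^ (β a : ℕ)) *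
      ψ (PP.coeff (sV2 β l))) * ∏ q, y q ^ (l q : ℕ) := by
  classical
  rw [eval₂_eq']
  have h1 : ∑ l : Q → Fin (k' + 1), (∑ β : A → Fin (k + 1), (∏ a, u a ^ (β a : ℕ)) *
      ψ (PP.coeff (sV2 β l))) * ∏ q, y q ^ (l q : ℕ) = ∑ p : (Q → Fin (k' + 1)) × (A → Fin (k + 1)),
        (fun s : A ⊕ Q →₀ ℕ => ψ (PP.coeff s) * ∏ i, Sum.elim u y i ^ s i) (sV2 p.2 p.1) := by
    rw [Fintype.sum_prod_type]
    refine Finset.sum_congr rfl fun l _ => ?_
    rw [Finset.sum_mul]
    refine Finset.sum_congr rfl fun β _ => ?_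
    simp only [Fintype.prod_sum_type, Sum.elim_inl, Sum.elim_inr, sV2, Finsupp.coe_equivFunOnFinite_symm]
    ring
  rw [h1, ← Finset.sum_image (f := fun s : A ⊕ Q →₀ ℕ => ψ (PP.coeff s) * ∏ i, Sum.elim u y i ^ s i)
    (g := fun p : (Q → Fin (k' + 1)) × (A → Fin (k + 1)) => sV2 p.2 p.1) (fun p _ p' _ h => by
      obtain ⟨h2, h3⟩ := sV2_inj h
      exact Prod.ext h3 h2)]
  refine Finset.sum_subset_zero_on_sdiff ?_ ?_ ?_
  · intro s hs
    have hl : ∀ q, s (Sum.inr q) < k' + 1 := fun q => Nat.lt_succ_of_le ((monomial_le_degreeOf _ hs).trans (hQ q))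
    have hb : ∀ a, s (Sum.inl a) < k + 1 := fun a => Nat.lt_succ_of_le ((monomial_le_degreeOf _ hs).trans (hA a))
    refine Finset.mem_image.2 ⟨(fun q => ⟨_, hl q⟩, fun a => ⟨_, hb a⟩), Finset.mem_univ _, ?_⟩
    ext i
    rcases i with a | q <;> rfl
  · intro s hs
    rw [Finset.mem_sdiff] at hs
    rw [notMem_support_iff.1 hs.2]
    simp
  · intro s hs
    rfl

end Box

/-- the monomials in the constants -/
noncomputable def mon {m : ℕ} (ξ : Fin m → ℂ) (k : ℕ) (b : ℕ) : ℂ :=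
  if h : b < Fintype.card (Fin m → Fin (k + 1)) then
    ∏ j, ξ j ^ ((Fintype.equivFin (Fin m → Fin (k + 1))).symm ⟨b, h⟩ j : ℕ) else 0

theorem sum_ext {N k' : ℕ} (h : N ≤ k') (f : Fin N → ℂ) :
    ∑ b : Fin k', (if h : (b : ℕ) < N then f ⟨b, h⟩ else 0) = ∑ b, f b := by
  rw [Finset.sum_fin_eq_sum_range (c := f), Fin.sum_univ_eq_sum_range (fun i => if h : i < N then f ⟨i, h⟩ else 0) k']
  symm
  refine Finset.sum_subset (Finset.range_mono h) fun i _ hi => ?_
  rw [Finset.mem_range] at hi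
  rw [dif_neg hi]

/-- **Singular matrices.** -/
theorem det_of_noRel {m : ℕ} (ξ : Fin m → ℂ) {k k' : ℕ} (hk : k ≤ k') (hk' : Fintype.card (Fin m → Fin (k + 1)) ≤ k')
    {T : ℝ} (hT : 1 ≤ T) {Q : Type} [Fintype Q] [DecidableEq Q]
    (hb : (k.factorial : ℝ) * ((m + Fintype.card Q + 1 : ℕ) * T ^ k) ^ k ≤ T ^ k') {x : Q → ℂ}
    (h : NoRel (mon ξ k) k' T x) (F : Type) [Field F] [NumberField F] (hF : Module.finrank ℚ F ≤ k') (io : F →+* ℂ)
    {n : ℕ} (hn : n ≤ k) (w : Fin n → Fin n → Fin m → 𝓞 F) (c : Fin n → Fin n → Q → 𝓞 F)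
    (hw : ∀ i j b (φ : F →+* ℂ), ‖φ (w i j b : F)‖ ≤ T ^ k) (hc : ∀ i j q (φ : F →+* ℂ), ‖φ (c i j q : F)‖ ≤ T ^ k)
    (hdet : (Matrix.of fun i j => ∑ b, ξ b * io (w i j b : F) + ∑ q, x q * io (c i j q : F)).det = 0) (X : Q → ℂ) :
    (Matrix.of fun i j => ∑ b, ξ b * io (w i j b : F) + ∑ q, X q * io (c i j q : F)).det = 0 := by
  classical
  let MM : Matrix (Fin n) (Fin n) (MvPolynomial (Fin m ⊕ Q) (𝓞 F)) := Matrix.of fun i j =>
    ∑ b, C (w i j b) * MvPolynomial.X (Sum.inl b) + ∑ q, C (c i j q) * MvPolynomial.X (Sum.inr q)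
  set PP := MM.det with hPP
  have hev : ∀ (φ : F →+* ℂ) (u : Fin m → ℂ) (y : Q → ℂ), eval₂ (φ.comp (algebraMap (𝓞 F) F)) (Sum.elim u y) PP =
      (Matrix.of fun i j => ∑ b, u b * φ (w i j b : F) + ∑ q, y q * φ (c i j q : F)).det := by
    intro φ u y
    have h1 := RingHom.map_det (eval₂Hom (φ.comp (algebraMap (𝓞 F) F)) (Sum.elim u y)) MM
    rw [coe_eval₂Hom] at h1
    rw [hPP, h1]
    congr 1
    ext i j
    simp [MM, mul_comm]
  have hdeg : PP.totalDegree ≤ k := by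
    refine (det_degR MM fun i j => ?_).trans hn
    simp only [MM, Matrix.of_apply]
    refine (totalDegree_add _ _).trans (max_le ?_ ?_)
    · refine (totalDegree_finsetSum_le fun b _ => ?_)
      refine (totalDegree_mul _ _).trans ?_
      rw [totalDegree_C, totalDegree_X]
    · refine (totalDegree_finsetSum_le fun b _ => ?_)
      refine (totalDegree_mul _ _).trans ?_
      rw [totalDegree_C, totalDegree_X]
  have hdo : ∀ i, PP.degreeOf i ≤ k := fun i => (degreeOf_le_totalDegree _ _).trans hdeg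
  have hbound : ∀ (s : Fin m ⊕ Q →₀ ℕ) (φ : F →+* ℂ), ‖φ ((PP.coeff s : 𝓞 F) : F)‖ ≤ T ^ k' := by
    intro s φ
    set ψ := φ.comp (algebraMap (𝓞 F) F) with hψ
    have h1 : φ ((PP.coeff s : 𝓞 F) : F) = (MvPolynomial.map ψ PP).coeff s := by
      rw [coeff_map]
      rfl
    have h2 : MvPolynomial.map ψ PP = (MM.map (MvPolynomial.map ψ)).det := by
      rw [hPP, RingHom.map_det]
      rfl
    set R : ℝ := (m + Fintype.card Q + 1 : ℕ) * T ^ k with hR
    have hTk : 1 ≤ T ^ k := one_le_pow₀ hT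
    have hR1 : 1 ≤ R := by
      rw [hR]
      have h3 : (1 : ℝ) ≤ ((m + Fintype.card Q + 1 : ℕ) : ℝ) := by exact_mod_cast Nat.le_add_left 1 _
      nlinarith
    have hent : ∀ i j, l1 ((MM.map (MvPolynomial.map ψ)) i j) ≤ R := by
      intro i j
      have h3 : (MM.map (MvPolynomial.map ψ)) i j = ∑ b, monomial (Finsupp.single (Sum.inl b) 1) (φ (w i j b : F)) +
          ∑ q, monomial (Finsupp.single (Sum.inr q) 1) (φ (c i j q : F)) := by
        simp only [MM, Matrix.map_apply, Matrix.of_apply, map_add, map_sum, map_mul, MvPolynomial.map_C,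
          MvPolynomial.map_X]
        congr 1
        · refine Finset.sum_congr rfl fun b _ => ?_
          rw [MvPolynomial.X, C_mul_monomial, mul_one]
          rfl
        · refine Finset.sum_congr rfl fun b _ => ?_
          rw [MvPolynomial.X, C_mul_monomial, mul_one]
          rfl
      rw [h3]
      refine (l1_add _ _).trans ?_
      have h4 : l1 (∑ b, monomial (Finsupp.single (Sum.inl b : Fin m ⊕ Q) 1) (φ (w i j b : F))) ≤ m * T ^ k := by
        refine (l1_sum _ _).trans ?_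
        simp only [l1_monomial]
        refine (Finset.sum_le_sum fun b _ => hw i j b φ).trans ?_
        rw [Finset.sum_const, nsmul_eq_mul, Finset.card_univ, Fintype.card_fin]
      have h5 : l1 (∑ q, monomial (Finsupp.single (Sum.inr q : Fin m ⊕ Q) 1) (φ (c i j q : F))) ≤ Fintype.card Q * T ^ k := by
        refine (l1_sum _ _).trans ?_
        simp only [l1_monomial]
        refine (Finset.sum_le_sum fun b _ => hc i j b φ).trans ?_
        rw [Finset.sum_const, nsmul_eq_mul, Finset.card_univ]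
      rw [hR]
      push_cast
      nlinarith
    rw [h1, h2]
    refine (coeff_le_l1 _ s).trans ((l1_det _ (by linarith) hent).trans (le_trans ?_ hb))
    have h6 : (n.factorial : ℝ) ≤ k.factorial := by exact_mod_cast Nat.factorial_le hn
    have h7 : R ^ n ≤ R ^ k := pow_le_pow_right₀ hR1 hn
    exact mul_le_mul h6 h7 (by positivity) (by positivity)
  set eqv := Fintype.equivFin (Fin m → Fin (k + 1)) with heqv
  set c' : (Q → Fin (k' + 1)) → Fin k' → 𝓞 F := fun l b =>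
    if h : (b : ℕ) < Fintype.card (Fin m → Fin (k + 1)) then PP.coeff (sV2 (eqv.symm ⟨b, h⟩) l) else 0 with hc'
  have hsum : ∀ l : Q → Fin (k' + 1), ∑ b : Fin k', mon ξ k b * io (c' l b : F) =
      ∑ β : Fin m → Fin (k + 1), (∏ a, ξ a ^ (β a : ℕ)) * io ((PP.coeff (sV2 β l) : 𝓞 F) : F) := by
    intro l
    rw [← (eqv.symm).sum_comp fun β : Fin m → Fin (k + 1) => (∏ a, ξ a ^ (β a : ℕ)) * io ((PP.coeff (sV2 β l) : 𝓞 F) : F),
      ← sum_ext hk']
    refine Finset.sum_congr rfl fun b _ => ?_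
    simp only [hc', mon]
    split_ifs with h1
    · rfl
    · simp
  have hbox := fun y => eval_box2 (io.comp (algebraMap (𝓞 F) F)) PP (k := k) (k' := k') (fun a => hdo _)
    (fun q => (hdo _).trans hk) ξ y
  have hzero := h F hF io c' (fun l b φ => by
    simp only [hc']
    split_ifs with h1
    · exact hbound _ φ
    · simp only [ZeroMemClass.coe_zero, map_zero, norm_zero]
      positivity) (by
    simp only [hsum]
    rw [← hdet, ← hev io ξ x, hbox x]
    rfl)
  rw [← hev io ξ X, hbox X]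
  refine Finset.sum_eq_zero fun l _ => ?_
  have h1 := hzero l
  rw [hsum] at h1
  have h2 : ∑ β : Fin m → Fin (k + 1), (∏ a, ξ a ^ (β a : ℕ)) * (io.comp (algebraMap (𝓞 F) F)) (PP.coeff (sV2 β l)) = 0 := h1
  rw [h2, zero_mul]

/-- Q1 for matrices of bounded complexity -/
theorem zero_of_noRel {m : ℕ} (ξ : Fin m → ℂ) {k k' : ℕ} (hk : k ≤ k') (hk' : Fintype.card (Fin m → Fin (k + 1)) ≤ k')
    {T : ℝ} (hT : 1 ≤ T) {Q : Type} [Fintype Q] [DecidableEq Q]
    (hb : (k.factorial : ℝ) * ((m + Fintype.card Q + 1 : ℕ) * T ^ k) ^ k ≤ T ^ k') {x : Q → ℂ}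
    (h : NoRel (mon ξ k) k' T x) (K : IntermediateField ℚ ℂ) [NumberField K] (hF : Module.finrank ℚ K ≤ k)
    (hV : Pool.Agent.Y921.SR.ZeroProp (Submodule.span K (Set.range ξ)))
    {n : ℕ} (hn : n ≤ k) (w : Fin n → Fin n → Fin m → 𝓞 K) (c : Fin n → Fin n → Q → 𝓞 K)
    (hw : ∀ i j b (φ : K →+* ℂ), ‖φ (w i j b : K)‖ ≤ T ^ k) (hc : ∀ i j q (φ : K →+* ℂ), ‖φ (c i j q : K)‖ ≤ T ^ k)
    (hdet : (Matrix.of fun i j => ∑ b, ξ b * ((w i j b : K) : ℂ) + ∑ q, x q * ((c i j q : K) : ℂ)).det = 0) :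
    ∃ u v : Fin n → K, u ≠ 0 ∧ v ≠ 0 ∧ ∑ i, ∑ j, (u i : ℂ) *
      (∑ b, ξ b * ((w i j b : K) : ℂ) + ∑ q, x q * ((c i j q : K) : ℂ)) * (v j : ℂ) = 0 := by
  classical
  have hall := det_of_noRel ξ hk hk' hT hb h K (hF.trans hk) (algebraMap K ℂ) hn w c hw hc hdet
  let W : Matrix (Fin n) (Fin n) ℂ := Matrix.of fun i j => ∑ b, ξ b * ((w i j b : K) : ℂ)
  let Cm : Q → Matrix (Fin n) (Fin n) K := fun q => Matrix.of fun i j => (c i j q : K)
  obtain ⟨u, v, hu, hv, huv, hC⟩ := Pool.Agent.Y921.SR.family (σ := Q) hV W (fun i j => by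
    change (∑ b, ξ b * ((w i j b : K) : ℂ)) ∈ Submodule.span K (Set.range ξ)
    refine Submodule.sum_mem _ fun b _ => ?_
    have h1 : ξ b * ((w i j b : K) : ℂ) = (w i j b : K) • ξ b := by
      rw [Algebra.smul_def, mul_comm]
      rfl
    rw [h1]
    exact Submodule.smul_mem _ _ (Submodule.subset_span ⟨b, rfl⟩)) Cm (fun X => by
    rw [← hall X]
    congr 1
    ext i j
    simp only [W, Cm, Matrix.add_apply, Matrix.sum_apply, Matrix.smul_apply, Matrix.map_apply, Matrix.of_apply,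
      smul_eq_mul]
    rfl)
  refine ⟨u, v, hu, hv, ?_⟩
  have h1 : ∀ i j, (u i : ℂ) * (∑ b, ξ b * ((w i j b : K) : ℂ) + ∑ q, x q * ((c i j q : K) : ℂ)) * (v j : ℂ) =
      (u i * v j) • W i j + ∑ q, x q * (((u i * ((c i j q : K) * v j) : K)) : ℂ) := by
    intro i j
    rw [Algebra.smul_def, mul_add, add_mul, Finset.mul_sum Finset.univ (fun q => x q * ((c i j q : K) : ℂ)), Finset.sum_mul]
    congr 1
    · simp only [W, Matrix.of_apply, map_mul, IntermediateField.algebraMap_apply]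
      ring
    · refine Finset.sum_congr rfl fun q _ => ?_
      push_cast
      ring
  simp only [h1, Finset.sum_add_distrib]
  have h2 : ∑ i : Fin n, ∑ j : Fin n, (u i * v j) • W i j = (0 : ℂ) := huv
  rw [h2, zero_add]
  have h3 : ∑ i : Fin n, ∑ j : Fin n, ∑ q : Q, x q * (((u i * ((c i j q : K) * v j) : K)) : ℂ) =
      ∑ q : Q, x q * ((dotProduct u (Matrix.mulVec (Cm q) v) : K) : ℂ) := by
    have h4 : ∀ q, x q * ((dotProduct u (Matrix.mulVec (Cm q) v) : K) : ℂ) =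
        ∑ i, ∑ j, x q * (((u i * ((c i j q : K) * v j) : K)) : ℂ) := by
      intro q
      simp only [dotProduct, Matrix.mulVec, Cm, Matrix.of_apply, Finset.mul_sum]
      push_cast
      simp only [Finset.mul_sum]
    simp only [h4]
    rw [Finset.sum_comm (s := (Finset.univ : Finset Q))]
    exact Finset.sum_congr rfl fun i _ => Finset.sum_comm
  rw [h3]
  refine Finset.sum_eq_zero fun q _ => ?_
  rw [hC q]
  simp

end Pool.Agent.X255.RH
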