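import Pool.Agent.X255.RH.Sing

/-!
# Singular matrices of the values at the roots of almost all polynomials
-/

set_option autoImplicit false
set_option linter.unusedSectionVars false

open Polynomial Filter Topology NumberField

namespace Pool.Agent.X255.RH

open Pool.Agent.Y890.SP Pool.Agent.X255.NP Pool.Agent.Y921.SR

variable {σ : Type} [Fintype σ] [DecidableEq σ] {V : Set ℂ} {f : σ → ℂ → ℂ} {g : ℕ}

/-- For every number field `K` of degree at most `k` such that Q1 holds over `K` for the `K`-space spanned by the `ξ b`: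
every singular matrix of size at most `k` with entries `∑ w b * ξ b + ∑ c q * x q`, `w b`, `c q` integers of `K` of size at
most `T ^ k`, has a zero coefficient after a change of bases over `K`. -/
def SingProp {m : ℕ} (ξ : Fin m → ℂ) (k : ℕ) (T : ℝ) {Q : Type} [Fintype Q] (x : Q → ℂ) : Prop :=
  ∀ (K : IntermediateField ℚ ℂ) [NumberField K], Module.finrank ℚ K ≤ k → ZeroProp (Submodule.span K (Set.range ξ)) →
    ∀ n : ℕ, n ≤ k → ∀ (w : Fin n → Fin n → Fin m → 𝓞 K) (c : Fin n → Fin n → Q → 𝓞 K),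
      (∀ i j b (φ : K →+* ℂ), ‖φ (w i j b : K)‖ ≤ T ^ k) → (∀ i j q (φ : K →+* ℂ), ‖φ (c i j q : K)‖ ≤ T ^ k) →
      (Matrix.of fun i j => ∑ b, ξ b * ((w i j b : K) : ℂ) + ∑ q, x q * ((c i j q : K) : ℂ)).det = 0 →
      ∃ u v : Fin n → K, u ≠ 0 ∧ v ≠ 0 ∧ ∑ i, ∑ j, (u i : ℂ) *
        (∑ b, ξ b * ((w i j b : K) : ℂ) + ∑ q, x q * ((c i j q : K) : ℂ)) * (v j : ℂ) = 0

theorem exists_level {m : ℕ} (ξ : Fin m → ℂ) (k N : ℕ) : ∃ (k' : ℕ) (T₁ : ℕ), k ≤ k' ∧ 1 ≤ T₁ ∧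
    ∀ (T : ℝ), (T₁ : ℝ) ≤ T → ∀ (Q : Type) [Fintype Q] [DecidableEq Q], Fintype.card Q ≤ N → ∀ x : Q → ℂ,
      NoRel (mon ξ k) k' T x → SingProp ξ k T x := by
  classical
  set M : ℕ := k.factorial * (m + N + 1) ^ k with hM
  refine ⟨max (max k (Fintype.card (Fin m → Fin (k + 1)))) (k * k + 1), max 1 M,
    (le_max_left _ _).trans (le_max_left _ _), le_max_left _ _, ?_⟩
  intro T hT Q _ _ hQ x h K _ hK hV n hn w c hw hc hdet
  have hT1 : (1 : ℝ) ≤ T := le_trans (by exact_mod_cast le_max_left 1 M) hT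
  have hTM : (M : ℝ) ≤ T := le_trans (by exact_mod_cast le_max_right 1 M) hT
  refine zero_of_noRel ξ ((le_max_left _ _).trans (le_max_left _ _)) ((le_max_right _ _).trans (le_max_left _ _)) hT1 ?_
    h K hK hV hn w c hw hc hdet
  have h1 : ((m + Fintype.card Q + 1 : ℕ) : ℝ) ≤ ((m + N + 1 : ℕ) : ℝ) := by
    exact_mod_cast Nat.add_le_add_right (Nat.add_le_add_left hQ _) _
  calc (k.factorial : ℝ) * ((m + Fintype.card Q + 1 : ℕ) * T ^ k) ^ k
      ≤ (k.factorial : ℝ) * (((m + N + 1 : ℕ) : ℝ) * T ^ k) ^ k := by gcongr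
    _ = (M : ℝ) * T ^ (k * k) := by
        rw [hM, mul_pow, ← pow_mul]
        push_cast
        ring
    _ ≤ T * T ^ (k * k) := by gcongr
    _ = T ^ (k * k + 1) := by rw [pow_succ, mul_comm]
    _ ≤ _ := pow_le_pow_right₀ hT1 (le_max_right _ _)

/-- `a` is of degree `g`, has simple roots, and `SingProp` holds for the values of the functions at its roots in `K` -/
def GoodS (K : Set ℂ) (f : σ → ℂ → ℂ) {m : ℕ} (ξ : Fin m → ℂ) (k : ℕ) (T : ℝ) (a : Fin (g + 1) → ℤ) : Prop :=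
  a (Fin.last g) ≠ 0 ∧ (pol a).Separable ∧ SingProp ξ k T (vals K f a)

theorem card_rts (K : Set ℂ) (a : Fin (g + 1) → ℤ) : Fintype.card ({z // z ∈ rts K a} × σ) ≤ g * Fintype.card σ := by
  classical
  rw [Fintype.card_prod, Fintype.card_coe]
  refine Nat.mul_le_mul_right _ ?_
  unfold rts
  refine (Finset.card_filter_le _ _).trans ((Multiset.toFinset_card_le _).trans ((card_roots' _).trans (pol_degree_le a)))

open scoped Classical in
/-- **Almost all polynomials.** -/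
theorem sing_all (hg : 0 < g) (hV : IsPreconnected V) (hVo : IsOpen V) {K : Set ℂ} (hVt : Tame K V)
    (hf : ∀ v, AnalyticOnNhd ℂ (f v) V) (h : Indep V f) {m : ℕ} (ξ : Fin m → ℂ) (k : ℕ) (hk : 1 ≤ k) :
    ∃ T₀ : ℕ, ∀ T, T₀ ≤ T → (k : ℝ) * ((bx g T).filter fun a => ¬ GoodS K f ξ k T a).card ≤ (bx g T).card := by
  obtain ⟨k', T₁, hkk, hT₁, H⟩ := exists_level ξ k (g * Fintype.card σ)
  obtain ⟨T₂, h2⟩ := count_k hg hV hVo hVt hf h (mon ξ k) k' (hk.trans hkk)
  refine ⟨max T₁ T₂, fun T hT => ?_⟩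
  have h3 := h2 T ((le_max_right _ _).trans hT)
  refine le_trans ?_ h3
  have hkk' : (k : ℝ) ≤ k' := by exact_mod_cast hkk
  refine mul_le_mul hkk' ?_ (Nat.cast_nonneg _) (Nat.cast_nonneg _)
  refine Nat.cast_le.2 (Finset.card_le_card fun a ha => ?_)
  rw [Finset.mem_filter] at ha ⊢
  refine ⟨ha.1, fun hgood => ha.2 ⟨hgood.1, hgood.2.1, ?_⟩⟩
  exact H T (by exact_mod_cast (le_max_left _ _).trans hT) _ (card_rts K a) _ hgood.2.2

open scoped Classical in
/-- **A power saving for polynomials with roots in a compact position.** -/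
theorem sing_eps (hg : 0 < g) (hV : IsPreconnected V) (hVo : IsOpen V) (hf : ∀ v, AnalyticOnNhd ℂ (f v) V)
    (h : Indep V f) (K : Set ℂ) {m : ℕ} (ξ : Fin m → ℂ) (k : ℕ) (R η ε : ℝ) (hη : 0 < η) (hε : 0 < ε) :
    ∃ C : ℝ, ∀ T : ℕ, 1 ≤ T →
      (((bx g T).filter fun a => Pos K V R η a ∧ ¬ SingProp ξ k T (vals K f a)).card : ℝ) ≤
        C * (T : ℝ) ^ ((g : ℝ) + ε) := by
  obtain ⟨k', T₁, hkk, hT₁, H⟩ := exists_level ξ k (g * Fintype.card σ)
  obtain ⟨C, hC⟩ := main_eps hg hV hVo hf h K (mon ξ k) k' R η ε hη hε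
  refine ⟨max C ((2 * T₁ + 1) ^ (g + 1)), fun T hT => ?_⟩
  have hTr : (1 : ℝ) ≤ T := by exact_mod_cast hT
  have hpos : (0 : ℝ) ≤ (T : ℝ) ^ ((g : ℝ) + ε) := by positivity
  rcases le_or_gt T₁ T with hTT | hTT
  · refine le_trans ?_ ((hC T hT).trans (mul_le_mul_of_nonneg_right (le_max_left _ _) hpos))
    refine Nat.cast_le.2 (Finset.card_le_card fun a ha => ?_)
    rw [Finset.mem_filter] at ha ⊢
    refine ⟨ha.1, ha.2.1, fun hno => ha.2.2 ?_⟩
    exact H T (by exact_mod_cast hTT) _ (card_rts K a) _ hno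
  · have h1 : (((bx g T).filter fun a => Pos K V R η a ∧ ¬ SingProp ξ k T (vals K f a)).card : ℝ) ≤ (bx g T).card := by
      exact_mod_cast Finset.card_le_card (Finset.filter_subset _ _)
    refine h1.trans ?_
    rw [bx_card]
    have hTT' : (T : ℝ) ≤ T₁ := by exact_mod_cast hTT.le
    have h2 : (2 * (T : ℝ) + 1) ^ (g + 1) ≤ (2 * (T₁ : ℝ) + 1) ^ (g + 1) := pow_le_pow_left₀ (by positivity) (by linarith) _
    refine (h2.trans (le_max_right C _)).trans ?_
    refine le_mul_of_one_le_right (le_trans (by positivity) (le_max_right C ((2 * (T₁ : ℝ) + 1) ^ (g + 1)))) ?_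
    exact Real.one_le_rpow hTr (by positivity)

end Pool.Agent.X255.RH
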