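import Pool.Agent.X255.RH.Hyp

/-!
# Towers of exponentials: algebra
-/

set_option autoImplicit false
set_option linter.unusedSectionVars false

open Polynomial

namespace Pool.Agent.X255.RH.Tow

section Field

variable {E : Type} [Field E] [Algebra ℂ E] [CharZero E] (D : Derivation ℂ E E)

/-- the field is stable under the derivation -/
def Stab (K : IntermediateField ℂ E) : Prop := ∀ x ∈ K, D x ∈ K

/-- `t` is transcendental over `K` -/
def Tr (K : IntermediateField ℂ E) (t : E) : Prop := ∀ P : K[X], aeval t P = 0 → P = 0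

variable {D}

theorem D_pow (t : E) (i : ℕ) : D (t ^ i) = i * t ^ (i - 1) * D t := by
  rw [Derivation.leibniz_pow, nsmul_eq_mul, smul_eq_mul, mul_assoc]

theorem star {K : IntermediateField ℂ E} (hK : Stab D K) {t a a' : E} (ha : a ∈ K) (ha' : a' ∈ K)
    (ht : D t = a * t + a') (P : K[X]) :
    ∃ P' : K[X], P'.natDegree ≤ P.natDegree ∧ D (aeval t P) = aeval t P' := by
  let δ : K → K := fun x => ⟨D x, hK x x.2⟩
  let A : K := ⟨a, ha⟩
  let A' : K := ⟨a', ha'⟩
  let P' : K[X] := ∑ i ∈ Finset.range (P.natDegree + 1),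
    (C (δ (P.coeff i)) * X ^ i + C (P.coeff i * (i : K)) * X ^ (i - 1) * (C A * X + C A'))
  refine ⟨P', ?_, ?_⟩
  · refine natDegree_sum_le_of_forall_le _ _ fun i hi => ?_
    rw [Finset.mem_range] at hi
    refine (natDegree_add_le _ _).trans (max_le ?_ ?_)
    · exact (natDegree_C_mul_X_pow_le _ _).trans (by omega)
    · rcases Nat.eq_zero_or_pos i with h0 | h0
      · subst h0
        simp
      · refine natDegree_mul_le.trans ?_
        have h1 : (C (P.coeff i * (i : K)) * X ^ (i - 1) : K[X]).natDegree ≤ i - 1 := natDegree_C_mul_X_pow_le _ _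
        have h2 : (C A * X + C A' : K[X]).natDegree ≤ 1 := natDegree_linear_le
        omega
  · have h1 : aeval t P = ∑ i ∈ Finset.range (P.natDegree + 1), ((P.coeff i : K) : E) * t ^ i := by
      rw [aeval_eq_sum_range]
      exact Finset.sum_congr rfl fun i _ => by rw [Algebra.smul_def]; rfl
    rw [h1, map_sum, map_sum]
    refine Finset.sum_congr rfl fun i _ => ?_
    rw [Derivation.leibniz, D_pow, ht]
    simp only [map_add, map_mul, aeval_C, aeval_X, map_pow, smul_eq_mul, map_natCast]
    have h2 : algebraMap K E (δ (P.coeff i)) = D ((P.coeff i : K) : E) := rfl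
    have h3 : algebraMap K E (P.coeff i) = ((P.coeff i : K) : E) := rfl
    have h4 : algebraMap K E A = a := rfl
    have h5 : algebraMap K E A' = a' := rfl
    rw [h2, h3, h4, h5]
    ring

/-- explicit form for exponentials -/
theorem star0 {K : IntermediateField ℂ E} (hK : Stab D K) {t a : E} (ha : a ∈ K)
    (ht : D t = a * t) (P : K[X]) :
    ∃ P' : K[X], (∀ i, ((P'.coeff i : K) : E) = D (P.coeff i : K) + i * a * (P.coeff i : K)) ∧
      D (aeval t P) = aeval t P' := by
  let δ : K → K := fun x => ⟨D x, hK x x.2⟩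
  let A : K := ⟨a, ha⟩
  let P' : K[X] := ∑ i ∈ Finset.range (P.natDegree + 1), C (δ (P.coeff i) + (i : K) * A * P.coeff i) * X ^ i
  have hcoeff : ∀ i, ((P'.coeff i : K) : E) = D (P.coeff i : K) + i * a * (P.coeff i : K) := by
    intro i
    have h1 : P'.coeff i = if i ∈ Finset.range (P.natDegree + 1) then δ (P.coeff i) + (i : K) * A * P.coeff i else 0 := by
      simp only [P', finsetSum_coeff, coeff_C_mul_X_pow]
      rw [Finset.sum_ite_eq]
    rw [h1]
    split_ifs with h2
    · push_cast
      rfl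
    · rw [Finset.mem_range, not_lt] at h2
      have h3 : P.coeff i = 0 := coeff_eq_zero_of_natDegree_lt (by omega)
      rw [h3]
      simp
  refine ⟨P', hcoeff, ?_⟩
  have h1 : aeval t P = ∑ i ∈ Finset.range (P.natDegree + 1), ((P.coeff i : K) : E) * t ^ i := by
    rw [aeval_eq_sum_range]
    exact Finset.sum_congr rfl fun i _ => by rw [Algebra.smul_def]; rfl
  rw [h1, map_sum, map_sum]
  refine Finset.sum_congr rfl fun i _ => ?_
  rw [Derivation.leibniz, D_pow, ht]
  simp only [map_add, map_mul, aeval_C, aeval_X, map_pow, smul_eq_mul, map_natCast]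
  have h2 : algebraMap K E (δ (P.coeff i)) = D ((P.coeff i : K) : E) := rfl
  have h3 : algebraMap K E (P.coeff i) = ((P.coeff i : K) : E) := rfl
  have h4 : algebraMap K E A = a := rfl
  rw [h2, h3, h4]
  rcases Nat.eq_zero_or_pos i with h0 | h0
  · subst h0
    simp
  · have h5 : t ^ i = t ^ (i - 1) * t := by
      rw [← pow_succ, Nat.sub_add_cancel h0]
    rw [h5]
    ring

/-- no solutions of `D c = (b t + b₀) c` in `K(t)` -/
theorem no_exp {K : IntermediateField ℂ E} (hK : Stab D K) {t a a' : E} (htr : Tr K t) (ha : a ∈ K) (ha' : a' ∈ K)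
    (ht : D t = a * t + a') {b b0 : E} (hb : b ∈ K) (hb0 : b0 ∈ K) (hbne : b ≠ 0) {c : E} (hc0 : c ≠ 0)
    {p q : K[X]} (hc : c * aeval t q = aeval t p) (hq : q ≠ 0) : D c ≠ (b * t + b0) * c := by
  intro hD
  have hqt : aeval t q ≠ 0 := fun h => hq (htr q h)
  have hp : p ≠ 0 := by
    rintro rfl
    rw [map_zero] at hc
    exact (mul_ne_zero hc0 hqt) hc
  obtain ⟨p', hp', hDp⟩ := star hK ha ha' ht p
  obtain ⟨q', hq', hDq⟩ := star hK ha ha' ht q
  have h1 := congrArg D hc
  rw [Derivation.leibniz, hDp, hDq, hD, smul_eq_mul, smul_eq_mul] at h1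
  let B : K := ⟨b, hb⟩
  let B0 : K := ⟨b0, hb0⟩
  have h2 : aeval t ((C B * X + C B0) * (p * q) - (p' * q - p * q')) = 0 := by
    simp only [map_sub, map_mul, map_add, aeval_C, aeval_X]
    have h4 : algebraMap K E B = b := rfl
    have h5 : algebraMap K E B0 = b0 := rfl
    rw [h4, h5, ← hc]
    linear_combination (aeval t q) * h1
  have h3 := htr _ h2
  rw [sub_eq_zero] at h3
  have hBne : B ≠ 0 := fun h => hbne (congrArg Subtype.val h)
  have h4 : ((C B * X + C B0) * (p * q) : K[X]).natDegree = 1 + (p.natDegree + q.natDegree) := by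
    rw [natDegree_mul (by
      intro h
      have h5 := natDegree_linear (b := B0) hBne
      rw [h, natDegree_zero] at h5
      exact absurd h5 (by norm_num)) (mul_ne_zero hp hq), natDegree_linear hBne, natDegree_mul hp hq]
  have h5 : (p' * q - p * q' : K[X]).natDegree ≤ p.natDegree + q.natDegree := by
    refine (natDegree_sub_le _ _).trans (max_le ?_ ?_)
    · exact natDegree_mul_le.trans (Nat.add_le_add_right hp' _)
    · exact natDegree_mul_le.trans (Nat.add_le_add_left hq' _)
  rw [h3] at h4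
  omega

/-- exponentials -/
theorem exp_tr {K : IntermediateField ℂ E} (hK : Stab D K) {w β : E} (hw : w ≠ 0) (hβ : β ∈ K) (hD : D w = β * w)
    (hno : ∀ c ∈ K, c ≠ 0 → ∀ m : ℕ, 0 < m → D c ≠ m * β * c) : Tr K w := by
  intro P hP
  by_contra hP0
  have halg : IsAlgebraic K w := ⟨P, hP0, hP⟩
  have hint : IsIntegral K w := halg.isIntegral
  set M := minpoly K w with hM
  have hmon : M.Monic := minpoly.monic hint
  have hn : 0 < M.natDegree := minpoly.natDegree_pos hint
  obtain ⟨M', hM'c, hM'⟩ := star0 hK hβ hD M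
  rw [minpoly.aeval, map_zero] at hM'
  let B : K := ⟨β, hβ⟩
  set N : K[X] := M' - C ((M.natDegree : K) * B) * M with hN
  have hN0 : aeval w N = 0 := by
    rw [hN, map_sub, map_mul, minpoly.aeval, mul_zero, ← hM', sub_zero]
  have hcM' : ∀ i, M.natDegree < i → M'.coeff i = 0 := by
    intro i hi
    have h1 := hM'c i
    rw [coeff_eq_zero_of_natDegree_lt hi] at h1
    apply Subtype.ext
    rw [h1]
    simp
  have hNdeg : N.degree < M.degree := by
    rw [degree_eq_natDegree hmon.ne_zero, degree_lt_iff_coeff_zero]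
    intro i hi
    rw [hN, coeff_sub, coeff_C_mul]
    rcases hi.eq_or_lt with h1 | h1
    · rw [← h1]
      apply Subtype.ext
      have h2 := hM'c M.natDegree
      rw [hmon.coeff_natDegree] at h2 ⊢
      push_cast
      rw [h2]
      have h3 : D ((1 : K) : E) = 0 := by
        rw [OneMemClass.coe_one]
        exact Derivation.map_one_eq_zero D
      rw [h3]
      push_cast
      ring
    · rw [hcM' i h1, coeff_eq_zero_of_natDegree_lt h1]
      simp
  have hNz : N = 0 := by
    by_contra hne
    exact absurd (minpoly.degree_le_of_ne_zero K w hne hN0) (not_le.2 hNdeg)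
  have h0 : N.coeff 0 = 0 := by rw [hNz, coeff_zero]
  rw [hN, coeff_sub, coeff_C_mul, sub_eq_zero] at h0
  have h1 : ((M'.coeff 0 : K) : E) = (((M.natDegree : K) * B * M.coeff 0 : K) : E) := congrArg Subtype.val h0
  rw [hM'c 0] at h1
  push_cast at h1
  refine hno (M.coeff 0 : K) (M.coeff 0).2 ?_ M.natDegree hn ?_
  · have h2 := minpoly.coeff_zero_ne_zero hint hw
    exact fun h => h2 (Subtype.ext h)
  · have h2 : ((M.natDegree : K) : E) = (M.natDegree : E) := by push_cast; rfl
    have h3 : D (M.coeff 0 : K) = (M.natDegree : E) * β * (M.coeff 0 : K) := by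
      simpa using h1
    exact h3

/-- the fields of the tower -/
noncomputable def F (v : ℕ → E) (n : ℕ) : IntermediateField ℂ E := IntermediateField.adjoin ℂ (v '' Set.Iio n)

theorem F_mono (v : ℕ → E) {m n : ℕ} (h : m ≤ n) : F v m ≤ F v n :=
  IntermediateField.adjoin.mono _ _ _ (Set.image_mono fun _ hi => lt_of_lt_of_le hi h)

theorem mem_F (v : ℕ → E) {m n : ℕ} (h : m < n) : v m ∈ F v n :=
  IntermediateField.subset_adjoin _ _ ⟨m, h, rfl⟩

theorem F_succ (v : ℕ → E) (n : ℕ) {x : E} (hx : x ∈ F v (n + 1)) :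
    ∃ p q : (F v n)[X], x * aeval (v n) q = aeval (v n) p ∧ q ≠ 0 := by
  have h1 : F v (n + 1) = (IntermediateField.adjoin (F v n) {v n}).restrictScalars ℂ := by
    rw [F, F, IntermediateField.adjoin_adjoin_left]
    congr 1
    ext y
    constructor
    · rintro ⟨i, hi, rfl⟩
      rcases (Nat.lt_succ_iff.1 hi).eq_or_lt with h | h
      · right
        rw [h]
        exact Set.mem_singleton _
      · exact Or.inl ⟨i, h, rfl⟩
    · rintro (⟨i, hi, rfl⟩ | hy)
      · exact ⟨i, (show i < n from hi).trans (Nat.lt_succ_self n), rfl⟩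
      · rw [Set.mem_singleton_iff] at hy
        exact ⟨n, Nat.lt_succ_self n, hy.symm⟩
  rw [h1, IntermediateField.mem_restrictScalars, IntermediateField.mem_adjoin_simple_iff] at hx
  obtain ⟨r, s, hrs⟩ := hx
  by_cases hs : aeval (v n) s = 0
  · refine ⟨0, 1, ?_, one_ne_zero⟩
    rw [hs, div_zero] at hrs
    rw [hrs, zero_mul, map_zero]
  · refine ⟨r, s, ?_, fun h => hs (by rw [h, map_zero])⟩
    rw [hrs, div_mul_cancel₀ _ hs]

theorem stab_adjoin {S : Set E} (h : ∀ s ∈ S, D s ∈ IntermediateField.adjoin ℂ S) : Stab D (IntermediateField.adjoin ℂ S) := by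
  intro x hx
  induction hx using IntermediateField.adjoin_induction with
  | mem x hx => exact h x hx
  | algebraMap x => rw [Derivation.map_algebraMap]; exact zero_mem _
  | add x y hx hy ihx ihy => rw [map_add]; exact add_mem ihx ihy
  | inv x hx ihx =>
    rw [Derivation.leibniz_inv, smul_eq_mul]
    exact mul_mem (neg_mem (pow_mem (inv_mem hx) _)) ihx
  | mul x y hx hy ihx ihy =>
    rw [Derivation.leibniz, smul_eq_mul, smul_eq_mul]
    exact add_mem (mul_mem hx ihy) (mul_mem hy ihx)

/-- chains of transcendental elements -/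
theorem chain (v : ℕ → E) (N : ℕ) (h : ∀ n < N, Tr (F v n) (v n)) : AlgebraicIndepOn ℂ v (Set.Iio N) := by
  induction N with
  | zero =>
    have h1 : Set.Iio 0 = (∅ : Set ℕ) := by simp
    rw [h1]
    unfold AlgebraicIndepOn
    rw [algebraicIndependent_empty_type_iff]
    exact (algebraMap ℂ E).injective
  | succ N ih =>
    have h1 : Set.Iio (N + 1) = insert N (Set.Iio N) := by
      ext i
      simp only [Set.mem_Iio, Set.mem_insert_iff]
      omega
    rw [h1]
    refine (ih fun n hn => h n (hn.trans (Nat.lt_succ_self N))).insert ?_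
    rw [transcendental_iff]
    intro P hP
    let ι : Algebra.adjoin ℂ (v '' Set.Iio N) →+* F v N :=
      (Subalgebra.inclusion (IntermediateField.algebra_adjoin_le_adjoin ℂ (v '' Set.Iio N))).toRingHom
    have hι : Function.Injective ι := by
      intro a b hab
      exact Subtype.ext (congrArg (fun x : F v N => (x : E)) hab)
    have h2 : aeval (v N) (P.map ι) = 0 := by
      rw [aeval_def, eval₂_map, ← hP, aeval_def]
      rfl
    exact (Polynomial.map_eq_zero_iff hι).1 (h N (Nat.lt_succ_self N) _ h2)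

/-- **Towers.** -/
theorem tower (v : ℕ → E) (k N : ℕ) (hk : 1 ≤ k) (hbase : ∀ n < k, Tr (F v n) (v n)) (a a' : ℕ → E)
    (ha : ∀ n < N, a n ∈ F v n) (ha' : ∀ n < N, a' n ∈ F v n) (hD : ∀ n < N, D (v n) = a n * v n + a' n)
    (hexp : ∀ n, k ≤ n → n < N → (∀ m < n, Tr (F v m) (v m)) → v n ≠ 0 ∧ a' n = 0 ∧
      ∃ b b0, b ∈ F v (n - 1) ∧ b0 ∈ F v (n - 1) ∧ b ≠ 0 ∧
      a n = b * v (n - 1) + b0) : ∀ n < N, Tr (F v n) (v n) := by
  have hstab : ∀ n ≤ N, Stab D (F v n) := by
    intro n hn
    refine stab_adjoin ?_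
    rintro _ ⟨i, hi, rfl⟩
    have hi' : i < n := hi
    rw [hD i (by omega)]
    exact add_mem (mul_mem (F_mono v hi'.le (ha i (by omega))) (mem_F v hi')) (F_mono v hi'.le (ha' i (by omega)))
  intro n
  induction n using Nat.strong_induction_on with
  | _ n ih =>
    intro hn
    rcases Nat.lt_or_ge n k with h1 | h1
    · exact hbase _ h1
    · obtain ⟨n, rfl⟩ : ∃ m, n = m + 1 := ⟨n - 1, by omega⟩
      obtain ⟨hv, ha0, b, b0, hb, hb0, hbne, hab⟩ := hexp (n + 1) h1 hn fun m hm => ih m hm (by omega)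
      rw [Nat.add_sub_cancel] at hb hb0 hab
      refine exp_tr (hstab (n + 1) (by omega)) hv (ha (n + 1) hn) (by rw [hD (n + 1) hn, ha0, add_zero]) ?_
      intro c hc hc0 m hm hDc
      obtain ⟨p, q, hpq, hq⟩ := F_succ v n hc
      refine no_exp (hstab n (by omega)) (ih n (by omega) (by omega)) (ha n (by omega)) (ha' n (by omega)) (hD n (by omega))
        (b := m * b) (b0 := m * b0) (mul_mem (natCast_mem _ m) hb) (mul_mem (natCast_mem _ m) hb0)
        (mul_ne_zero (by exact_mod_cast hm.ne') hbne) hc0 hpq hq ?_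
      rw [hDc, hab]
      ring

end Field

end Pool.Agent.X255.RH.Tow
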