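import Pool.Agent.X255.RH.Tow

/-!
# Exponentials over a differential field: algebra, second part
-/

set_option autoImplicit false
set_option linter.unusedSectionVars false

open Polynomial

namespace Pool.Agent.X255.RH.Tow

section Field

variable {E : Type} [Field E] [Algebra ℂ E] [CharZero E] {D : Derivation ℂ E E}

/-- derivation of a polynomial -/
theorem dstar {K : IntermediateField ℂ E} (hK : Stab D K) (t : E) (P : K[X]) :
    ∃ Pδ : K[X], (∀ i, ((Pδ.coeff i : K) : E) = D (P.coeff i : K)) ∧
      D (aeval t P) = aeval t Pδ + aeval t (derivative P) * D t := by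
  induction P using Polynomial.induction_on' with
  | add P Q hP hQ =>
    obtain ⟨A, hA, hA'⟩ := hP
    obtain ⟨B, hB, hB'⟩ := hQ
    refine ⟨A + B, fun i => ?_, ?_⟩
    · rw [coeff_add, coeff_add]
      push_cast
      rw [hA, hB, map_add]
    · rw [map_add, map_add, hA', hB', map_add, map_add, map_add]
      ring
  | monomial n a =>
    refine ⟨monomial n ⟨D a, hK a a.2⟩, fun i => ?_, ?_⟩
    · rw [coeff_monomial, coeff_monomial]
      split_ifs
      · rfl
      · simp
    · rw [aeval_monomial, Derivation.leibniz, D_pow, aeval_monomial, derivative_monomial, aeval_monomial, smul_eq_mul,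
        smul_eq_mul]
      have h1 : algebraMap K E ⟨D a, hK a a.2⟩ = D (a : E) := rfl
      have h2 : algebraMap K E a = (a : E) := rfl
      rw [h1, map_mul, h2, map_natCast]
      ring

/-- with the leading coefficient -/
theorem star2 {K : IntermediateField ℂ E} (hK : Stab D K) {t a a' : E} (ha : a ∈ K) (ha' : a' ∈ K)
    (ht : D t = a * t + a') (P : K[X]) :
    ∃ P' : K[X], P'.natDegree ≤ P.natDegree ∧
      ((P'.coeff P.natDegree : K) : E) = D (P.leadingCoeff : K) + P.natDegree * a * (P.leadingCoeff : K) ∧
      D (aeval t P) = aeval t P' := by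
  obtain ⟨Pδ, hPδ, hD⟩ := dstar hK t P
  let A : K := ⟨a, ha⟩
  let A' : K := ⟨a', ha'⟩
  have hδ0 : ∀ i, P.natDegree < i → Pδ.coeff i = 0 := by
    intro i hi
    apply Subtype.ext
    rw [hPδ, coeff_eq_zero_of_natDegree_lt hi]
    simp
  refine ⟨Pδ + derivative P * (C A * X + C A'), ?_, ?_, ?_⟩
  · refine (natDegree_add_le _ _).trans (max_le ?_ ?_)
    · exact natDegree_le_iff_coeff_eq_zero.2 fun i hi => hδ0 i hi
    · rcases Nat.eq_zero_or_pos P.natDegree with h0 | h0
      · rw [derivative_of_natDegree_zero h0]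
        simp
      · refine natDegree_mul_le.trans ?_
        have h1 := natDegree_derivative_lt h0.ne'
        have h2 : (C A * X + C A' : K[X]).natDegree ≤ 1 := natDegree_linear_le
        omega
  · rw [coeff_add, mul_add, ← mul_assoc, coeff_add, coeff_mul_C]
    have h1 : (derivative P).coeff P.natDegree = 0 := by
      rw [coeff_derivative, coeff_eq_zero_of_natDegree_lt (Nat.lt_succ_self _), zero_mul]
    have h2 : (derivative P * C A * X).coeff P.natDegree = (P.natDegree : K) * A * P.leadingCoeff := by
      rcases Nat.eq_zero_or_pos P.natDegree with h0 | h0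
      · rw [h0]
        simp
      · obtain ⟨n, hn⟩ : ∃ n, P.natDegree = n + 1 := ⟨P.natDegree - 1, by omega⟩
        rw [leadingCoeff, hn, coeff_mul_X, coeff_mul_C, coeff_derivative]
        push_cast
        ring
    rw [h1, h2, zero_mul, add_zero]
    push_cast
    rw [hPδ]
    rfl
  · rw [hD, ht, map_add, map_mul, map_add, map_mul, aeval_C, aeval_C, aeval_X]
    rfl

/-- reduction to the smaller field -/
theorem lead {K : IntermediateField ℂ E} (hK : Stab D K) {t a a' : E} (htr : Tr K t) (ha : a ∈ K) (ha' : a' ∈ K)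
    (ht : D t = a * t + a') {b0 : E} (hb0 : b0 ∈ K) {c : E} (hc0 : c ≠ 0)
    {p q : K[X]} (hc : c * aeval t q = aeval t p) (hq : q ≠ 0) (hD : D c = b0 * c) :
    ∃ (j : ℤ) (c' : E), c' ∈ K ∧ c' ≠ 0 ∧ D c' = (b0 - j * a) * c' := by
  have hqt : aeval t q ≠ 0 := fun h => hq (htr q h)
  have hp : p ≠ 0 := by
    rintro rfl
    rw [map_zero] at hc
    exact (mul_ne_zero hc0 hqt) hc
  obtain ⟨p', hp', hpl, hDp⟩ := star2 hK ha ha' ht p
  obtain ⟨q', hq', hql, hDq⟩ := star2 hK ha ha' ht q
  have h1 := congrArg D hc
  rw [Derivation.leibniz, hDp, hDq, hD, smul_eq_mul, smul_eq_mul] at h1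
  let B0 : K := ⟨b0, hb0⟩
  have h2 : aeval t (C B0 * (p * q) - (p' * q - p * q')) = 0 := by
    simp only [map_sub, map_mul, aeval_C]
    have h5 : algebraMap K E B0 = b0 := rfl
    rw [h5, ← hc]
    linear_combination (aeval t q) * h1
  have h3 := htr _ h2
  rw [sub_eq_zero] at h3
  have h4 := congrArg (fun P : K[X] => ((P.coeff (p.natDegree + q.natDegree) : K) : E)) h3
  simp only [coeff_C_mul, coeff_sub, coeff_mul_add_eq_of_natDegree_le le_rfl le_rfl, coeff_mul_add_eq_of_natDegree_le hp' le_rfl,
    coeff_mul_add_eq_of_natDegree_le le_rfl hq'] at h4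
  push_cast at h4
  rw [hpl, hql] at h4
  have hlp : ((p.leadingCoeff : K) : E) ≠ 0 := fun h => leadingCoeff_ne_zero.2 hp (Subtype.ext h)
  have hlq : ((q.leadingCoeff : K) : E) ≠ 0 := fun h => leadingCoeff_ne_zero.2 hq (Subtype.ext h)
  have h5 : ((B0 : K) : E) = b0 := rfl
  rw [h5] at h4
  change b0 * ((p.leadingCoeff : K) * (q.leadingCoeff : K)) = _ * ((q.leadingCoeff : K) : E) - ((p.leadingCoeff : K) : E) * _ at h4
  refine ⟨(p.natDegree : ℤ) - q.natDegree, (p.leadingCoeff : K) / (q.leadingCoeff : K),
    div_mem p.leadingCoeff.2 q.leadingCoeff.2, div_ne_zero hlp hlq, ?_⟩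
  have h6 : ((p.leadingCoeff : K) / (q.leadingCoeff : K) : E) * (q.leadingCoeff : K) = (p.leadingCoeff : K) :=
    div_mul_cancel₀ _ hlq
  have h7 := congrArg D h6
  rw [Derivation.leibniz, smul_eq_mul, smul_eq_mul] at h7
  apply mul_right_cancel₀ (mul_ne_zero hlq hlq)
  generalize ((p.leadingCoeff : K) / (q.leadingCoeff : K) : E) = z at h6 h7 ⊢
  push_cast
  have h8 : (q.leadingCoeff : E) * D z = D (p.leadingCoeff : K) - z * D (q.leadingCoeff : K) := by
    linear_combination h7
  linear_combination (q.leadingCoeff : E) * h8 - h4 - (b0 * (q.leadingCoeff : E)  - (p.natDegree - q.natDegree : E) * a * (q.leadingCoeff : E) + D (q.leadingCoeff : K)) * h6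

/-- exponentials whose exponents are independent -/
theorem expI {K : IntermediateField ℂ E} (hK : Stab D K) {σ : Type} [Fintype σ] (w β : σ → E) (hw : ∀ i, w i ≠ 0)
    (hβ : ∀ i, β i ∈ K) (hD : ∀ i, D (w i) = β i * w i)
    (hno : ∀ n : σ → ℤ, n ≠ 0 → ∀ c ∈ K, c ≠ 0 → D c ≠ (∑ i, (n i : E) * β i) * c) :
    AlgebraicIndependent K w := by
  classical
  rw [algebraicIndependent_iff]
  -- derivative of a monomial
  have hmon : ∀ (m : σ →₀ ℕ), D (∏ i, w i ^ m i) = (∑ i, (m i : E) * β i) * ∏ i, w i ^ m i := by
    intro m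
    have h1 : ∀ s : Finset σ, D (∏ i ∈ s, w i ^ m i) = (∑ i ∈ s, (m i : E) * β i) * ∏ i ∈ s, w i ^ m i := by
      intro s
      induction s using Finset.induction_on with
      | empty => simp
      | insert i s hi ih =>
        rw [Finset.prod_insert hi, Finset.sum_insert hi, Derivation.leibniz, ih, D_pow, hD, smul_eq_mul, smul_eq_mul]
        rcases Nat.eq_zero_or_pos (m i) with h0 | h0
        · rw [h0]
          push_cast
          ring
        · have h5 : w i ^ m i = w i ^ (m i - 1) * w i := by
            rw [← pow_succ, Nat.sub_add_cancel h0]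
          rw [h5]
          ring
    exact h1 Finset.univ
  -- the derived polynomial
  have hder : ∀ P : MvPolynomial σ K, ∃ P' : MvPolynomial σ K,
      (∀ m, ((P'.coeff m : K) : E) = D (P.coeff m : K) + (∑ i, (m i : E) * β i) * (P.coeff m : K)) ∧
      D (MvPolynomial.aeval w P) = MvPolynomial.aeval w P' := by
    intro P
    induction P using MvPolynomial.induction_on' with
    | monomial m a =>
      let B : K := ⟨D a + (∑ i, (m i : E) * β i) * a, add_mem (hK a a.2) (mul_mem (sum_mem fun i _ =>
        mul_mem (natCast_mem _ _) (hβ i)) a.2)⟩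
      refine ⟨MvPolynomial.monomial m B, fun m' => ?_, ?_⟩
      · rw [MvPolynomial.coeff_monomial, MvPolynomial.coeff_monomial]
        split_ifs with h
        · rw [← h]
        · simp
      · rw [MvPolynomial.aeval_monomial, MvPolynomial.aeval_monomial, Finsupp.prod_fintype _ _ (fun _ => pow_zero _),
          Derivation.leibniz, hmon, smul_eq_mul, smul_eq_mul]
        have h1 : algebraMap K E a = (a : E) := rfl
        have h2 : algebraMap K E B = D a + (∑ i, (m i : E) * β i) * a := rfl
        rw [h1, h2]
        ring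
    | add P Q hP hQ =>
      obtain ⟨A, hA, hA'⟩ := hP
      obtain ⟨B, hB, hB'⟩ := hQ
      refine ⟨A + B, fun i => ?_, ?_⟩
      · rw [MvPolynomial.coeff_add, MvPolynomial.coeff_add]
        push_cast
        rw [hA, hB, map_add]
        ring
      · rw [map_add, map_add, hA', hB', map_add]
  -- minimal support
  have hind : ∀ (k : ℕ) (P : MvPolynomial σ K), P.support.card ≤ k → MvPolynomial.aeval w P = 0 → P = 0 := by
    intro k
    induction k with
    | zero =>
      intro P hk _
      rw [Nat.le_zero, Finset.card_eq_zero, MvPolynomial.support_eq_empty] at hk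
      exact hk
    | succ k ih =>
      intro P hk hP
      by_contra hP0
      obtain ⟨m0, hm0⟩ := MvPolynomial.support_nonempty.2 hP0
      have ha0 : P.coeff m0 ≠ 0 := MvPolynomial.mem_support_iff.1 hm0
      set P1 := MvPolynomial.C (P.coeff m0)⁻¹ * P with hP1
      have h1 : P1.coeff m0 = 1 := by
        rw [hP1, MvPolynomial.coeff_C_mul, inv_mul_cancel₀ ha0]
      have h1s : ∀ m, P.coeff m = 0 → P1.coeff m = 0 := fun m hm => by
        rw [hP1, MvPolynomial.coeff_C_mul, hm, mul_zero]
      have h1n : ∀ m, P.coeff m ≠ 0 → P1.coeff m ≠ 0 := fun m hm => by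
        rw [hP1, MvPolynomial.coeff_C_mul]
        exact mul_ne_zero (inv_ne_zero ha0) hm
      have h1e : MvPolynomial.aeval w P1 = 0 := by rw [hP1, map_mul, hP, mul_zero]
      obtain ⟨P', hP'c, hP'⟩ := hder P1
      rw [h1e, map_zero] at hP'
      let B : K := ⟨∑ i, (m0 i : E) * β i, sum_mem fun i _ => mul_mem (natCast_mem _ _) (hβ i)⟩
      set Q := P' - MvPolynomial.C B * P1 with hQ
      have hQe : MvPolynomial.aeval w Q = 0 := by rw [hQ, map_sub, ← hP', map_mul, h1e, mul_zero, sub_zero]
      have hQc : ∀ m, ((Q.coeff m : K) : E) = D (P1.coeff m : K) + (∑ i, ((m i : E) - m0 i) * β i) * (P1.coeff m : K) := by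
        intro m
        rw [hQ, MvPolynomial.coeff_sub, MvPolynomial.coeff_C_mul]
        push_cast
        rw [hP'c]
        have h2 : ((B : K) : E) = ∑ i, (m0 i : E) * β i := rfl
        rw [h2]
        simp only [sub_mul, Finset.sum_sub_distrib]
        ring
      have hQs : Q.support ⊆ P.support.erase m0 := by
        intro m hm
        rw [MvPolynomial.mem_support_iff] at hm
        rw [Finset.mem_erase, MvPolynomial.mem_support_iff]
        constructor
        · rintro rfl
          apply hm
          apply Subtype.ext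
          rw [hQc, h1]
          have h3 : D ((1 : K) : E) = 0 := by
            rw [OneMemClass.coe_one]
            exact Derivation.map_one_eq_zero D
          rw [h3]
          simp
        · intro h0
          apply hm
          apply Subtype.ext
          rw [hQc, h1s m h0]
          simp
      have hQ0 : Q = 0 := ih Q (by
        have h2 := Finset.card_le_card hQs
        rw [Finset.card_erase_of_mem hm0] at h2
        omega) hQe
      by_cases hone : ∃ m ∈ P.support, m ≠ m0
      · obtain ⟨m, hm, hmm⟩ := hone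
        have hm' := h1n m (MvPolynomial.mem_support_iff.1 hm)
        have h2 := hQc m
        rw [hQ0, MvPolynomial.coeff_zero] at h2
        refine hno (fun i => (m0 i : ℤ) - m i) ?_ (P1.coeff m : K) (P1.coeff m).2 (fun h => hm' (Subtype.ext h)) ?_
        · intro h3
          apply hmm
          ext i
          have h4 := congrFun h3 i
          simp only [Pi.zero_apply] at h4
          omega
        · have h3 : (∑ i, (((m0 i : ℤ) - m i : ℤ) : E) * β i) = - ∑ i, ((m i : E) - m0 i) * β i := by
            rw [← Finset.sum_neg_distrib]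
            refine Finset.sum_congr rfl fun i _ => ?_
            push_cast
            ring
          rw [h3]
          rw [ZeroMemClass.coe_zero] at h2
          linear_combination -h2
      · push Not at hone
        have h2 : P = MvPolynomial.monomial m0 (P.coeff m0) := by
          ext m
          rw [MvPolynomial.coeff_monomial]
          split_ifs with h
          · rw [h]
          · by_contra hne
            refine h (hone m ?_).symm
            rw [MvPolynomial.mem_support_iff]
            exact fun h0 => hne (by rw [h0])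
        rw [h2, MvPolynomial.aeval_monomial, Finsupp.prod_fintype _ _ (fun _ => pow_zero _)] at hP
        rcases mul_eq_zero.1 hP with h3 | h3
        · exact ha0 (Subtype.ext h3)
        · obtain ⟨i, _, hi⟩ := Finset.prod_eq_zero_iff.1 h3
          exact pow_ne_zero _ (hw i) hi
  exact fun P hP => hind _ P le_rfl hP

/-- primitives -/
theorem prim_tr (hconst : ∀ x : E, D x = 0 → ∃ c : ℂ, algebraMap ℂ E c = x) {K : IntermediateField ℂ E} (hK : Stab D K)
    {t a' : E} (ha' : a' ∈ K) (ht : D t = a') (hno : ∀ c ∈ K, D c ≠ a') : Tr K t := by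
  intro P hP
  by_contra hP0
  have halg : IsAlgebraic K t := ⟨P, hP0, hP⟩
  have hint : IsIntegral K t := halg.isIntegral
  set M := minpoly K t with hM
  have hmon : M.Monic := minpoly.monic hint
  have hn : 0 < M.natDegree := minpoly.natDegree_pos hint
  obtain ⟨Mδ, hMδ, hD⟩ := dstar hK t M
  let A' : K := ⟨a', ha'⟩
  set N : K[X] := Mδ + derivative M * C A' with hN
  have hN0 : aeval t N = 0 := by
    rw [hN, map_add, map_mul, aeval_C]
    rw [minpoly.aeval, map_zero, ht] at hD
    exact hD.symm
  have hNdeg : N.degree < M.degree := by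
    rw [degree_eq_natDegree hmon.ne_zero, degree_lt_iff_coeff_zero]
    intro i hi
    rw [hN, coeff_add, coeff_mul_C, coeff_derivative, coeff_eq_zero_of_natDegree_lt (Nat.lt_succ_of_le hi), zero_mul,
      zero_mul, add_zero]
    apply Subtype.ext
    rw [hMδ]
    rcases hi.eq_or_lt with h1 | h1
    · rw [← h1, hmon.coeff_natDegree, OneMemClass.coe_one, ZeroMemClass.coe_zero]
      exact Derivation.map_one_eq_zero D
    · rw [coeff_eq_zero_of_natDegree_lt h1]
      simp
  have hNz : N = 0 := by
    by_contra hne
    exact absurd (minpoly.degree_le_of_ne_zero K t hne hN0) (not_le.2 hNdeg)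
  obtain ⟨n, hn'⟩ : ∃ n, M.natDegree = n + 1 := ⟨M.natDegree - 1, by omega⟩
  have h0 : N.coeff n = 0 := by rw [hNz, coeff_zero]
  rw [hN, coeff_add, coeff_mul_C, coeff_derivative, ← hn', hmon.coeff_natDegree] at h0
  have h1 := congrArg (Subtype.val : K → E) h0
  push_cast at h1
  rw [hMδ] at h1
  have hA : ((A' : K) : E) = a' := rfl
  rw [hA] at h1
  have hn1 : ((n : E) + 1) ≠ 0 := by exact_mod_cast Nat.succ_ne_zero n
  refine hno (-((M.coeff n : K) : E) / (n + 1)) (div_mem (neg_mem (M.coeff n).2) (add_mem (natCast_mem _ n) (one_mem _))) ?_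
  have h2 : (-((M.coeff n : K) : E) / (n + 1)) * ((n + 1 : ℕ) : E) = -((M.coeff n : K) : E) := by
    push_cast
    exact div_mul_cancel₀ _ hn1
  have h3 := congrArg D h2
  rw [Derivation.leibniz, Derivation.map_natCast, smul_zero, zero_add, smul_eq_mul, map_neg] at h3
  apply mul_left_cancel₀ hn1
  push_cast at h3
  rw [h3]
  linear_combination -h1

/-- rational functions: `τ Dc = s(τ) c` -/
theorem rat1 {τ : E} (hτ : ∀ p : ℂ[X], aeval τ p = 0 → p = 0) (hD : D τ = 1) {c : E}
    (hc : c ∈ IntermediateField.adjoin ℂ {τ}) (hc0 : c ≠ 0) (s : ℂ[X]) (h : τ * D c = aeval τ s * c) :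
    ∃ j : ℤ, s = C (j : ℂ) := by
  rw [IntermediateField.mem_adjoin_simple_iff] at hc
  obtain ⟨p, q, hpq⟩ := hc
  have hq : aeval τ q ≠ 0 := by
    intro h0
    rw [h0, div_zero] at hpq
    exact hc0 hpq
  have hq0 : q ≠ 0 := by
    rintro rfl
    exact hq (map_zero _)
  have hp0 : p ≠ 0 := by
    rintro rfl
    rw [map_zero, zero_div] at hpq
    exact hc0 hpq
  have h1 : c * aeval τ q = aeval τ p := by rw [hpq, div_mul_cancel₀ _ hq]
  have h2 := congrArg D h1
  rw [Derivation.leibniz, Derivation.map_aeval, Derivation.map_aeval, hD, smul_eq_mul, smul_eq_mul, smul_eq_mul,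
    smul_eq_mul, mul_one, mul_one] at h2
  have h3 : aeval τ (X * derivative p * q - p * (X * derivative q) - s * (p * q)) = 0 := by
    simp only [map_sub, map_mul, aeval_X]
    rw [← h1]
    linear_combination (-(τ * aeval τ q)) * h2 + (aeval τ q) ^ 2 * h
  have h4 := hτ _ h3
  rw [sub_eq_zero] at h4
  have hdeg : ∀ p : ℂ[X], (X * derivative p).natDegree ≤ p.natDegree := by
    intro p
    rcases Nat.eq_zero_or_pos p.natDegree with h0 | h0
    · rw [derivative_of_natDegree_zero h0]
      simp
    · refine natDegree_mul_le.trans ?_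
      have h5 := natDegree_derivative_lt h0.ne'
      rw [natDegree_X]
      omega
  have hco : ∀ p : ℂ[X], (X * derivative p).coeff p.natDegree = p.natDegree * p.leadingCoeff := by
    intro p
    rcases Nat.eq_zero_or_pos p.natDegree with h0 | h0
    · rw [h0, derivative_of_natDegree_zero h0]
      simp
    · obtain ⟨n, hn⟩ : ∃ n, p.natDegree = n + 1 := ⟨p.natDegree - 1, by omega⟩
      rw [leadingCoeff, hn, coeff_X_mul, coeff_derivative]
      push_cast
      ring
  by_cases hs : s = 0
  · exact ⟨0, by rw [hs]; simp⟩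
  have h5 : (s * (p * q)).natDegree ≤ p.natDegree + q.natDegree := by
    rw [← h4]
    refine (natDegree_sub_le _ _).trans (max_le ?_ ?_)
    · exact natDegree_mul_le.trans (Nat.add_le_add_right (hdeg p) _)
    · exact natDegree_mul_le.trans (Nat.add_le_add_left (hdeg q) _)
  rw [natDegree_mul hs (mul_ne_zero hp0 hq0), natDegree_mul hp0 hq0] at h5
  have hs0 : s.natDegree = 0 := by omega
  obtain ⟨r, hr⟩ : ∃ r, s = C r := ⟨s.coeff 0, eq_C_of_natDegree_eq_zero hs0⟩
  have h6 := congrArg (fun P : ℂ[X] => P.coeff (p.natDegree + q.natDegree)) h4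
  simp only [coeff_sub, hr, coeff_C_mul, coeff_mul_add_eq_of_natDegree_le le_rfl le_rfl,
    coeff_mul_add_eq_of_natDegree_le (hdeg p) le_rfl, coeff_mul_add_eq_of_natDegree_le le_rfl (hdeg q), hco] at h6
  change p.natDegree * p.leadingCoeff * q.leadingCoeff - p.leadingCoeff * (q.natDegree * q.leadingCoeff) =
    r * (p.leadingCoeff * q.leadingCoeff) at h6
  refine ⟨(p.natDegree : ℤ) - q.natDegree, ?_⟩
  rw [hr]
  congr 1
  apply mul_right_cancel₀ (mul_ne_zero (leadingCoeff_ne_zero.2 hp0) (leadingCoeff_ne_zero.2 hq0))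
  push_cast
  rw [← h6]
  ring

/-- `log x` is not a rational function -/
theorem rat2 {τ : E} (hτ : ∀ p : ℂ[X], aeval τ p = 0 → p = 0) (hD : D τ = 1) {c : E}
    (hc : c ∈ IntermediateField.adjoin ℂ {τ}) : τ * D c ≠ 1 := by
  intro h
  rw [IntermediateField.mem_adjoin_simple_iff] at hc
  obtain ⟨p, q, hpq⟩ := hc
  by_cases hq : aeval τ q = 0
  · rw [hq, div_zero] at hpq
    rw [hpq, map_zero, mul_zero] at h
    exact zero_ne_one h
  have hq0 : q ≠ 0 := by
    rintro rfl
    exact hq (map_zero _)
  have h1 : c * aeval τ q = aeval τ p := by rw [hpq, div_mul_cancel₀ _ hq]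
  have h2 := congrArg D h1
  rw [Derivation.leibniz, Derivation.map_aeval, Derivation.map_aeval, hD, smul_eq_mul, smul_eq_mul, smul_eq_mul,
    smul_eq_mul, mul_one, mul_one] at h2
  have h3 : aeval τ (X * (derivative p * q - p * derivative q) - q * q) = 0 := by
    simp only [map_sub, map_mul, aeval_X]
    rw [← h1]
    linear_combination (-(τ * aeval τ q)) * h2 + (aeval τ q) ^ 2 * h
  have h4 := hτ _ h3
  rw [sub_eq_zero] at h4
  set d := p / q with hd
  set r := p % q with hr
  have h5 : p = q * d + r := (EuclideanDomain.div_add_mod p q).symm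
  have h6 : X * (derivative r * q - r * derivative q) = q * q * (1 - X * derivative d) := by
    rw [h5] at h4
    simp only [derivative_add, derivative_mul] at h4
    linear_combination h4
  have h7 : (1 - X * derivative d : ℂ[X]) ≠ 0 := by
    intro h0
    have h8 := congrArg (fun P : ℂ[X] => P.coeff 0) h0
    simp at h8
  by_cases hr0 : r = 0
  · rw [hr0, derivative_zero, zero_mul, zero_mul, sub_zero, mul_zero] at h6
    exact (mul_ne_zero (mul_ne_zero hq0 hq0) h7) h6.symm
  have h8 : r.degree < q.degree := EuclideanDomain.mod_lt p hq0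
  have h9 : r.natDegree < q.natDegree := natDegree_lt_natDegree hr0 h8
  have h10 : (X * (derivative r * q - r * derivative q)).natDegree ≤ r.natDegree + q.natDegree := by
    have h11 : X * (derivative r * q - r * derivative q) = (X * derivative r) * q - r * (X * derivative q) := by ring
    have hdeg : ∀ p : ℂ[X], (X * derivative p).natDegree ≤ p.natDegree := by
      intro p
      rcases Nat.eq_zero_or_pos p.natDegree with h0 | h0
      · rw [derivative_of_natDegree_zero h0]
        simp
      · refine natDegree_mul_le.trans ?_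
        have h5 := natDegree_derivative_lt h0.ne'
        rw [natDegree_X]
        omega
    rw [h11]
    refine (natDegree_sub_le _ _).trans (max_le ?_ ?_)
    · exact natDegree_mul_le.trans (Nat.add_le_add_right (hdeg r) _)
    · exact natDegree_mul_le.trans (Nat.add_le_add_left (hdeg q) _)
  rw [h6, natDegree_mul (mul_ne_zero hq0 hq0) h7, natDegree_mul hq0 hq0] at h10
  omega

end Field

end Pool.Agent.X255.RH.Tow
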