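import Pool.Agent.X255.RH.Tow2

/-!
# Exponentials and towers of exponentials: functions
-/

set_option autoImplicit false
set_option linter.unusedSectionVars false

open Polynomial Filter Topology

namespace Pool.Agent.X255.RH.Tow

open Pool.Agent.Y890.SP

/-- germs at `x0` -/
structure Germ (x0 : ℂ) {E : Type} [Field E] [Algebra ℂ E] (D : Derivation ℂ E E) (T : (ℂ → ℂ) → E) : Prop where
  const : ∀ x : E, D x = 0 → ∃ c : ℂ, algebraMap ℂ E c = x
  cst : ∀ c : ℂ, T (fun _ => c) = algebraMap ℂ E c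
  add : ∀ f g : ℂ → ℂ, AnalyticAt ℂ f x0 → AnalyticAt ℂ g x0 → T (fun s => f s + g s) = T f + T g
  mul : ∀ f g : ℂ → ℂ, AnalyticAt ℂ f x0 → AnalyticAt ℂ g x0 → T (fun s => f s * g s) = T f * T g
  der : ∀ f : ℂ → ℂ, AnalyticAt ℂ f x0 → T (deriv f) = D (T f)
  zero : ∀ f : ℂ → ℂ, AnalyticAt ℂ f x0 → T f = 0 → ∀ᶠ s in 𝓝 x0, f s = 0
  congr : ∀ f g : ℂ → ℂ, (∀ᶠ s in 𝓝 x0, f s = g s) → T f = T g

theorem germ (x0 : ℂ) : ∃ (E : Type) (_ : Field E) (_ : Algebra ℂ E) (D : Derivation ℂ E E) (T : (ℂ → ℂ) → E),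
    Germ x0 D T := by
  obtain ⟨E, h1, h2, D, T, hconst, hTc, hTa, hTm, hTd, hTz, hTe⟩ := germ_at x0
  exact ⟨E, h1, h2, D, T, hconst, hTc, hTa, hTm, hTd, hTz, hTe⟩

namespace Germ

variable {x0 : ℂ} {E : Type} [Field E] [Algebra ℂ E] {D : Derivation ℂ E E} {T : (ℂ → ℂ) → E} (G : Germ x0 D T)
include G

theorem aev (p : ℂ[X]) : aeval (T fun s => s) p = T (fun s => p.eval s) := by
  have hid : AnalyticAt ℂ (fun s : ℂ => s) x0 := analyticAt_id
  have hpow : ∀ n : ℕ, T (fun s => s ^ n) = (T fun s => s) ^ n := by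
    intro n
    induction n with
    | zero =>
      simp only [pow_zero]
      rw [G.cst 1, map_one]
    | succ n ih =>
      simp only [pow_succ]
      rw [G.mul (fun s => s ^ n) (fun s => s) (hid.pow n) hid, ih]
  induction p using Polynomial.induction_on' with
  | add p q hp hq =>
    simp only [eval_add]
    rw [G.add _ _ (p.differentiable.analyticAt x0) (q.differentiable.analyticAt x0), map_add, hp, hq]
  | monomial n a =>
    simp only [eval_monomial]
    rw [G.mul (fun _ => a) (fun s => s ^ n) analyticAt_const (hid.pow n), G.cst, hpow, aeval_monomial]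

theorem tr (p : ℂ[X]) (hp : aeval (T fun s => s) p = 0) : p = 0 := by
  rw [G.aev] at hp
  have h2 := G.zero _ (p.differentiable.analyticAt x0) hp
  have h4 := (show AnalyticOnNhd ℂ (fun x => p.eval x) Set.univ from fun x _ => p.differentiable.analyticAt x).eqOn_zero_of_preconnected_of_eventuallyEq_zero
    isPreconnected_univ (Set.mem_univ x0) h2
  exact Polynomial.funext fun x => by rw [eval_zero]; exact h4 (Set.mem_univ x)

theorem D1 : D (T fun s => s) = 1 := by
  have hid : AnalyticAt ℂ (fun s : ℂ => s) x0 := analyticAt_id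
  rw [← G.der _ hid]
  have h1 : deriv (fun s : ℂ => s) = fun _ => 1 := by
    funext s
    simp
  rw [h1, G.cst, map_one]

theorem ne {f : ℂ → ℂ} (hf : AnalyticAt ℂ f x0) (h : f x0 ≠ 0) : T f ≠ 0 := fun h0 =>
  h (G.zero f hf h0).self_of_nhds

theorem dexp {f : ℂ → ℂ} (hf : AnalyticAt ℂ f x0) :
    D (T fun s => Complex.exp (f s)) = D (T f) * T (fun s => Complex.exp (f s)) := by
  have hfe : AnalyticAt ℂ (fun s => Complex.exp (f s)) x0 := hf.cexp
  rw [← G.der _ hfe, ← G.der _ hf, ← G.mul _ _ hf.deriv hfe]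
  refine G.congr _ _ ?_
  filter_upwards [hf.eventually_analyticAt] with s hs
  rw [mul_comm]
  exact (hs.differentiableAt.hasDerivAt.cexp).deriv

theorem indep {V : Set ℂ} (hVo : IsOpen V) (hx0 : x0 ∈ V) {κ : Type} {f : κ → ℂ → ℂ} (hf : ∀ i, AnalyticOnNhd ℂ (f i) V)
    (h : AlgebraicIndependent ℂ (fun o : Option κ => o.elim (T fun s => s) fun i => T (f i))) : Indep V f := by
  intro P hP
  have hid : AnalyticAt ℂ (fun s : ℂ => s) x0 := analyticAt_id
  have hev : ∀ Q : MvPolynomial (Option κ) ℂ,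
      MvPolynomial.aeval (fun o : Option κ => o.elim (T fun s => s) fun i => T (f i)) Q =
        T (fun s => evF f s (MvPolynomial.optionEquivRight ℂ κ Q)) := by
    intro Q
    induction Q using MvPolynomial.induction_on with
    | C a =>
      rw [MvPolynomial.algHom_C, MvPolynomial.optionEquivRight_C, ← G.cst]
      congr 1
      funext s
      simp [evF]
    | add p q hp hq =>
      have h1 : (fun s => evF f s (MvPolynomial.optionEquivRight ℂ κ (p + q))) =
          fun s => evF f s (MvPolynomial.optionEquivRight ℂ κ p) + evF f s (MvPolynomial.optionEquivRight ℂ κ q) := by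
        funext s
        simp [evF]
      rw [map_add, hp, hq, h1, G.add _ _ (evF_an hf _ x0 hx0) (evF_an hf _ x0 hx0)]
    | mul_X p i hp =>
      rcases i with _ | i
      · have h1 : (fun s => evF f s (MvPolynomial.optionEquivRight ℂ κ (p * MvPolynomial.X none))) =
            fun s => evF f s (MvPolynomial.optionEquivRight ℂ κ p) * s := by
          funext s
          rw [map_mul, MvPolynomial.optionEquivRight_X_none]
          simp [evF]
        rw [map_mul, hp, h1, G.mul _ _ (evF_an hf _ x0 hx0) hid, MvPolynomial.aeval_X]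
        rfl
      · have h1 : (fun s => evF f s (MvPolynomial.optionEquivRight ℂ κ (p * MvPolynomial.X (some i)))) =
            fun s => evF f s (MvPolynomial.optionEquivRight ℂ κ p) * f i s := by
          funext s
          rw [map_mul, MvPolynomial.optionEquivRight_X_some]
          simp [evF]
        rw [map_mul, hp, h1, G.mul _ _ (evF_an hf _ x0 hx0) (hf i x0 hx0), MvPolynomial.aeval_X]
        rfl
  have h1 := hev ((MvPolynomial.optionEquivRight ℂ κ).symm P)
  have h0 : T (fun s => evF f s P) = T (fun _ => 0) := G.congr _ _ (by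
    filter_upwards [hVo.mem_nhds hx0] with x hx using hP x hx)
  rw [AlgEquiv.apply_symm_apply, h0, G.cst, map_zero] at h1
  have h2 := h.eq_zero_of_aeval_eq_zero _ h1
  exact (EmbeddingLike.map_eq_zero_iff).1 h2

end Germ

section

variable {E : Type} [Field E] [Algebra ℂ E] {D : Derivation ℂ E E}

theorem F_zero_tr {v : ℕ → E} (h : ∀ p : ℂ[X], aeval (v 0) p = 0 → p = 0) : Tr (F v 0) (v 0) := by
  intro P hP
  have hsur : Function.Surjective (algebraMap ℂ (F v 0)) := by
    rintro ⟨y, hy⟩
    have h1 : F v 0 = ⊥ := by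
      rw [F]
      have h2 : Set.Iio 0 = (∅ : Set ℕ) := by simp
      rw [h2, Set.image_empty, IntermediateField.adjoin_empty]
    have h2 : y ∈ (⊥ : IntermediateField ℂ E) := h1 ▸ hy
    rw [IntermediateField.mem_bot] at h2
    obtain ⟨c, hc⟩ := h2
    exact ⟨c, Subtype.ext hc⟩
  obtain ⟨Q, hQ⟩ := Polynomial.map_surjective _ hsur P
  rw [← hQ, aeval_map_algebraMap] at hP
  rw [← hQ, h Q hP, Polynomial.map_zero]

theorem F_one (v : ℕ → E) : F v 1 = IntermediateField.adjoin ℂ {v 0} := by
  rw [F]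
  congr 1
  ext y
  constructor
  · rintro ⟨i, hi, rfl⟩
    have : i = 0 := Nat.lt_one_iff.1 hi
    rw [this]
    rfl
  · intro hy
    rw [Set.mem_singleton_iff] at hy
    exact ⟨0, Nat.zero_lt_one, hy.symm⟩

/-- `log x` over `ℂ(x)` -/
theorem log_tr [CharZero E] {v : ℕ → E} (hconst : ∀ x : E, D x = 0 → ∃ c : ℂ, algebraMap ℂ E c = x)
    (h : ∀ p : ℂ[X], aeval (v 0) p = 0 → p = 0) (h0 : D (v 0) = 1) (h1 : D (v 1) = (v 0)⁻¹) : Tr (F v 1) (v 1) := by
  have hv0 : v 0 ≠ 0 := by
    intro h2
    have h3 := h X (by rw [aeval_X, h2])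
    exact X_ne_zero h3
  have hst : Stab D (F v 1) := by
    refine stab_adjoin ?_
    rintro _ ⟨i, hi, rfl⟩
    have : i = 0 := Nat.lt_one_iff.1 hi
    rw [this, h0]
    exact one_mem _
  refine prim_tr hconst hst (inv_mem (mem_F v Nat.zero_lt_one)) h1 ?_
  intro c hc h2
  rw [F_one] at hc
  exact rat2 h h0 hc (by rw [h2, mul_inv_cancel₀ hv0])

/-- exponentials of `λ log x + μ x + ν x log x` -/
theorem gexp_alg [CharZero E] {τ ℓ : E} (hconst : ∀ x : E, D x = 0 → ∃ c : ℂ, algebraMap ℂ E c = x)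
    (hτ : ∀ p : ℂ[X], aeval τ p = 0 → p = 0) (h0 : D τ = 1) (h1 : D ℓ = τ⁻¹) {J : Type} [Fintype J] (lam mu nu : J → ℂ)
    (hind : ∀ n : J → ℤ, n ≠ 0 → ∑ j, (n j : ℂ) * nu j = 0 → ∑ j, (n j : ℂ) * mu j = 0 → ∀ k : ℤ, ∑ j, (n j : ℂ) * lam j ≠ k)
    (w : J → E) (hw : ∀ j, w j ≠ 0)
    (hD : ∀ j, D (w j) = (algebraMap ℂ E (lam j) * τ⁻¹ + algebraMap ℂ E (mu j) + algebraMap ℂ E (nu j) * (ℓ + 1)) * w j) :
    AlgebraicIndependent ℂ (fun o : Option (Option J) => o.elim τ fun o => o.elim ℓ w) := by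
  classical
  set v : ℕ → E := fun n => if n = 0 then τ else ℓ with hv
  have hv0 : v 0 = τ := rfl
  have hv1 : v 1 = ℓ := rfl
  have hτ0 : τ ≠ 0 := by
    intro h2
    have h3 := hτ X (by rw [aeval_X, h2])
    exact X_ne_zero h3
  have htr0 : Tr (F v 0) (v 0) := F_zero_tr hτ
  have htr1 : Tr (F v 1) (v 1) := log_tr hconst hτ h0 h1
  have hst1 : Stab D (F v 1) := by
    refine stab_adjoin ?_
    rintro _ ⟨i, hi, rfl⟩
    have : i = 0 := Nat.lt_one_iff.1 hi
    rw [this, hv0, h0]
    exact one_mem _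
  have hτm : τ⁻¹ ∈ F v 1 := inv_mem (mem_F v Nat.zero_lt_one)
  have hst2 : Stab D (F v 2) := by
    refine stab_adjoin ?_
    rintro _ ⟨i, hi, rfl⟩
    have hi' : i < 2 := hi
    interval_cases i
    · rw [hv0, h0]
      exact one_mem _
    · rw [hv1, h1]
      exact F_mono v one_le_two hτm
  have hcm : ∀ (n : ℕ) (c : ℂ), algebraMap ℂ E c ∈ F v n := fun n c => IntermediateField.algebraMap_mem _ c
  have hexp : AlgebraicIndependent (F v 2) w := by
    refine expI hst2 w _ hw (fun j => ?_) hD ?_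
    · refine add_mem (add_mem (mul_mem (hcm _ _) (F_mono v one_le_two hτm)) (hcm _ _)) (mul_mem (hcm _ _) (add_mem ?_ (one_mem _)))
      exact mem_F v one_lt_two
    · intro n hn c hc hc0 hDc
      set Λ := ∑ j, (n j : ℂ) * lam j with hΛ
      set M := ∑ j, (n j : ℂ) * mu j with hM
      set N := ∑ j, (n j : ℂ) * nu j with hN
      have hsum : ∑ j, (n j : E) * (algebraMap ℂ E (lam j) * τ⁻¹ + algebraMap ℂ E (mu j) + algebraMap ℂ E (nu j) * (ℓ + 1)) =
          algebraMap ℂ E Λ * τ⁻¹ + algebraMap ℂ E M + algebraMap ℂ E N * (ℓ + 1) := by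
        rw [hΛ, hM, hN, map_sum, map_sum, map_sum, Finset.sum_mul, Finset.sum_mul, ← Finset.sum_add_distrib,
          ← Finset.sum_add_distrib]
        refine Finset.sum_congr rfl fun j _ => ?_
        rw [map_mul, map_mul, map_mul, map_intCast]
        ring
      rw [hsum] at hDc
      obtain ⟨p, q, hpq, hq⟩ := F_succ v 1 hc
      rw [hv1] at hpq
      have hT : D ℓ = 0 * ℓ + τ⁻¹ := by rw [h1, zero_mul, zero_add]
      by_cases hN0 : N = 0
      · rw [hN0, map_zero, zero_mul, add_zero] at hDc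
        obtain ⟨j, c', hc', hc'0, hDc'⟩ := lead hst1 htr1 (zero_mem _) hτm hT
          (add_mem (mul_mem (hcm _ _) hτm) (hcm _ _)) hc0 hpq hq hDc
        rw [mul_zero, sub_zero] at hDc'
        rw [F_one] at hc'
        obtain ⟨k, hk⟩ := rat1 hτ h0 hc' hc'0 (C Λ + C M * X) (by
          rw [map_add, map_mul, aeval_C, aeval_C, aeval_X, hDc']
          field_simp)
        have h3 := congrArg (fun P : ℂ[X] => P.coeff 1) hk
        have h4 := congrArg (fun P : ℂ[X] => P.coeff 0) hk
        simp only [coeff_add, coeff_C_mul, coeff_X_one, mul_one, coeff_C_ne_zero one_ne_zero, zero_add] at h3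
        simp only [coeff_add, coeff_C_zero, coeff_C_mul, coeff_X_zero, mul_zero, add_zero] at h4
        exact hind n hn hN0 h3 k h4
      · refine no_exp hst1 htr1 (zero_mem _) hτm hT (b := algebraMap ℂ E N)
          (b0 := algebraMap ℂ E Λ * τ⁻¹ + algebraMap ℂ E M + algebraMap ℂ E N) (hcm _ _)
          (add_mem (add_mem (mul_mem (hcm _ _) hτm) (hcm _ _)) (hcm _ _))
          (fun h => hN0 ((map_eq_zero _).1 h)) hc0 hpq hq ?_
        rw [hDc]
        change _ = (algebraMap ℂ E N * ℓ + _) * c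
        ring
  have hch := chain v 2 fun n hn => by
    interval_cases n
    · exact htr0
    · exact htr1
  have h5 : AlgebraicIndependent ℂ (Sum.elim w fun i : Set.Iio 2 => v i) := by
    refine AlgebraicIndependent.sumElim_of_tower (S := F v 2) hch ?_ hexp
    rintro _ ⟨i, rfl⟩
    exact ⟨⟨v i, mem_F v i.2⟩, rfl⟩
  let em : Option (Option J) → J ⊕ Set.Iio 2 := fun o => match o with
    | none => Sum.inr ⟨0, Nat.zero_lt_two⟩
    | some none => Sum.inr ⟨1, Nat.one_lt_two⟩
    | some (some j) => Sum.inl j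
  have h6 := h5.comp em (by
    rintro (_ | _ | i) (_ | _ | j) hij
    · rfl
    · exact absurd (congrArg Subtype.val (Sum.inr_injective hij)) (by norm_num)
    · exact absurd hij (by simp [em])
    · exact absurd (congrArg Subtype.val (Sum.inr_injective hij)) (by norm_num)
    · rfl
    · exact absurd hij (by simp [em])
    · exact absurd hij (by simp [em])
    · exact absurd hij (by simp [em])
    · simpa [em] using hij)
  convert h6 using 1
  funext o
  rcases o with _ | _ | j
  · rfl
  · rfl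
  · rfl

end

/-- **`log x` and the functions `exp (λ log x + μ x + ν x log x + κ)`**. -/
theorem gexp_indep {V : Set ℂ} (hVo : IsOpen V) (hne : V.Nonempty) {L : ℂ → ℂ} (hL : AnalyticOnNhd ℂ L V)
    (hexp : ∀ x ∈ V, Complex.exp (L x) = x) {J : Type} [Fintype J] (lam mu nu kap : J → ℂ)
    (hind : ∀ n : J → ℤ, n ≠ 0 → ∑ j, (n j : ℂ) * nu j = 0 → ∑ j, (n j : ℂ) * mu j = 0 → ∀ k : ℤ, ∑ j, (n j : ℂ) * lam j ≠ k) :
    Indep V (fun (o : Option J) => o.elim L fun j x => Complex.exp (lam j * L x + mu j * x + nu j * (x * L x) + kap j)) := by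
  obtain ⟨x0, hx0⟩ := hne
  obtain ⟨E, _, _, D, T, G⟩ := germ x0
  haveI : CharZero E := charZero_of_injective_algebraMap (algebraMap ℂ E).injective
  have hid : AnalyticAt ℂ (fun s : ℂ => s) x0 := analyticAt_id
  have hτ0 : (T fun s => s) ≠ 0 := by
    intro h2
    have h3 := G.tr X (by rw [aeval_X, h2])
    exact X_ne_zero h3
  have hDL : D (T L) = (T fun s => s)⁻¹ := by
    apply mul_right_cancel₀ hτ0
    rw [inv_mul_cancel₀ hτ0, ← G.der _ (hL x0 hx0), ← G.mul _ _ (hL x0 hx0).deriv hid, ← map_one (algebraMap ℂ E), ← G.cst 1]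
    refine G.congr _ _ ?_
    filter_upwards [hVo.mem_nhds hx0] with x hx
    have h1 : HasDerivAt L (deriv L x) x := (hL x hx).differentiableAt.hasDerivAt
    have h2 : HasDerivAt (fun x => Complex.exp (L x)) 1 x := by
      refine (hasDerivAt_id x).congr_of_eventuallyEq ?_
      filter_upwards [hVo.mem_nhds hx] with y hy using hexp y hy
    have h3 := h1.cexp.unique h2
    rw [hexp x hx] at h3
    rw [mul_comm]
    exact h3
  have hexpan : ∀ j, AnalyticOnNhd ℂ (fun x => lam j * L x + mu j * x + nu j * (x * L x) + kap j) V := fun j x hx =>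
    (((analyticAt_const.mul (hL x hx)).add (analyticAt_const.mul analyticAt_id)).add
      (analyticAt_const.mul (analyticAt_id.mul (hL x hx)))).add analyticAt_const
  refine G.indep hVo hx0 (fun o => ?_) ?_
  · rcases o with _ | j
    · exact hL
    · exact fun x hx => (hexpan j x hx).cexp
  · have key := gexp_alg G.const G.tr G.D1 hDL lam mu nu hind
      (fun j => T fun x => Complex.exp (lam j * L x + mu j * x + nu j * (x * L x) + kap j)) (fun j => ?_) (fun j => ?_)
    · convert key using 1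
      funext o
      rcases o with _ | _ | j
      · rfl
      · rfl
      · rfl
    · exact G.ne ((hexpan j x0 hx0).cexp) (Complex.exp_ne_zero _)
    · rw [G.dexp (hexpan j x0 hx0)]
      congr 1
      have hLx := hL x0 hx0
      rw [G.add (fun x => lam j * L x + mu j * x + nu j * (x * L x)) (fun _ => kap j)
        (((analyticAt_const.mul hLx).add (analyticAt_const.mul analyticAt_id)).add
          (analyticAt_const.mul (analyticAt_id.mul hLx))) analyticAt_const,
        G.add (fun x => lam j * L x + mu j * x) (fun x => nu j * (x * L x))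
          ((analyticAt_const.mul hLx).add (analyticAt_const.mul analyticAt_id)) (analyticAt_const.mul (analyticAt_id.mul hLx)),
        G.add (fun x => lam j * L x) (fun x => mu j * x) (analyticAt_const.mul hLx) (analyticAt_const.mul analyticAt_id),
        G.mul (fun _ => lam j) L analyticAt_const hLx, G.mul (fun _ => mu j) (fun x => x) analyticAt_const analyticAt_id,
        G.mul (fun _ => nu j) (fun x => x * L x) analyticAt_const (analyticAt_id.mul hLx),
        G.mul (fun x => x) L analyticAt_id hLx, G.cst, G.cst, G.cst, G.cst]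
      simp only [map_add, Derivation.leibniz, Derivation.map_algebraMap, smul_eq_mul, mul_zero, add_zero, hDL]
      have hD1 := G.D1
      rw [hD1, mul_inv_cancel₀ hτ0]
      ring

end Pool.Agent.X255.RH.Tow
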