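import Pool.Agent.X255.RH.Tow4

/-!
# Exponentials of polynomials in `x, log x` and in `x, exp x`
-/

set_option autoImplicit false
set_option linter.unusedSectionVars false

open Polynomial Filter Topology

namespace Pool.Agent.X255.RH.Tow

open Pool.Agent.Y890.SP

section Field

variable {E : Type} [Field E] [Algebra ℂ E] [CharZero E] {D : Derivation ℂ E E}

/-- `D c = Q(t) c` in `K(t)` implies that `Q` is constant -/
theorem noexp_poly {K : IntermediateField ℂ E} (hK : Stab D K) {t a a' : E} (htr : Tr K t) (ha : a ∈ K) (ha' : a' ∈ K)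
    (ht : D t = a * t + a') (Q : K[X]) {c : E} (hc0 : c ≠ 0)
    {p q : K[X]} (hc : c * aeval t q = aeval t p) (hq : q ≠ 0) (hD : D c = aeval t Q * c) : Q.natDegree = 0 := by
  have hqt : aeval t q ≠ 0 := fun h => hq (htr q h)
  have hp : p ≠ 0 := by
    rintro rfl
    rw [map_zero] at hc
    exact (mul_ne_zero hc0 hqt) hc
  by_cases hQ : Q = 0
  · rw [hQ, natDegree_zero]
  obtain ⟨p', hp', hDp⟩ := star hK ha ha' ht p
  obtain ⟨q', hq', hDq⟩ := star hK ha ha' ht q
  have h1 := congrArg D hc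
  rw [Derivation.leibniz, hDp, hDq, hD, smul_eq_mul, smul_eq_mul] at h1
  have h2 : aeval t (Q * (p * q) - (p' * q - p * q')) = 0 := by
    simp only [map_sub, map_mul]
    rw [← hc]
    linear_combination (aeval t q) * h1
  have h3 := htr _ h2
  rw [sub_eq_zero] at h3
  have h4 := natDegree_mul hQ (mul_ne_zero hp hq)
  rw [natDegree_mul hp hq, h3] at h4
  have h5 : (p' * q - p * q' : K[X]).natDegree ≤ p.natDegree + q.natDegree := by
    refine (natDegree_sub_le _ _).trans (max_le ?_ ?_)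
    · exact natDegree_mul_le.trans (Nat.add_le_add_right hp' _)
    · exact natDegree_mul_le.trans (Nat.add_le_add_left hq' _)
  omega

theorem aeval_mem {τ : E} {K : IntermediateField ℂ E} (h : τ ∈ K) (p : ℂ[X]) : aeval τ p ∈ K := by
  have h2 : aeval τ p = ((aeval (⟨τ, h⟩ : K) p : K) : E) := Polynomial.aeval_algebraMap_apply E (⟨τ, h⟩ : K) p
  rw [h2]
  exact Subtype.property _

/-- `ℂ[X] → K` -/
noncomputable def toK {τ : E} {K : IntermediateField ℂ E} (h : τ ∈ K) : ℂ[X] →+* K :=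
  (aeval (⟨τ, h⟩ : K) : ℂ[X] →ₐ[ℂ] K).toRingHom

theorem toK_val {τ : E} {K : IntermediateField ℂ E} (h : τ ∈ K) (p : ℂ[X]) : ((toK h p : K) : E) = aeval τ p :=
  (Polynomial.aeval_algebraMap_apply E (⟨τ, h⟩ : K) p).symm

/-- value of a polynomial in two variables -/
noncomputable def ev2 (τ t : E) (S : ℂ[X][X]) : E := S.eval₂ (aeval τ : ℂ[X] →ₐ[ℂ] E).toRingHom t

theorem ev2_eq {τ t : E} {K : IntermediateField ℂ E} (h : τ ∈ K) (S : ℂ[X][X]) : ev2 τ t S = aeval t (S.map (toK h)) := by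
  rw [ev2, aeval_def, eval₂_map]
  congr 1
  ext x
  · exact (toK_val h _).symm
  · exact (toK_val h _).symm

/-- the derivative of `S(τ, t)` -/
theorem D_ev2 {τ t a a' : E} (hD : D τ = 1) {K : IntermediateField ℂ E} (h : τ ∈ K) (hK : Stab D K)
    (ha : a ∈ K) (ha' : a' ∈ K) (ht : D t = a * t + a') (S : ℂ[X][X]) :
    ∃ Q : K[X], D (ev2 τ t S) = aeval t Q ∧ ∀ i, ((Q.coeff i : K) : E) =
      aeval τ (derivative (S.coeff i)) + i * a * aeval τ (S.coeff i) + (i + 1) * a' * aeval τ (S.coeff (i + 1)) := by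
  obtain ⟨Pδ, hPδ, hD'⟩ := dstar hK t (S.map (toK h))
  let A : K := ⟨a, ha⟩
  let A' : K := ⟨a', ha'⟩
  refine ⟨Pδ + derivative (S.map (toK h)) * (C A * X + C A'), ?_, fun i => ?_⟩
  · rw [ev2_eq h, hD', ht, map_add, map_mul, map_add, map_mul, aeval_C, aeval_C, aeval_X]
    rfl
  · rw [coeff_add, mul_add, ← mul_assoc, coeff_add, coeff_mul_C]
    have h2 : (derivative (S.map (toK h)) * C A * X).coeff i = (i : K) * A * toK h (S.coeff i) := by
      rcases i with _ | i
      · simp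
      · rw [coeff_mul_X, coeff_mul_C, coeff_derivative, coeff_map]
        push_cast
        ring
    rw [h2, coeff_derivative, coeff_map]
    push_cast
    rw [hPδ, coeff_map, toK_val, toK_val, Derivation.map_aeval, hD, smul_eq_mul, mul_one]
    change _ + (_ * a * _ + _ * a') = _
    ring

/-- polynomials in `x`, `log x` -/
theorem plog {τ ℓ : E} (hτ : ∀ p : ℂ[X], aeval τ p = 0 → p = 0) (hD : D τ = 1) {K : IntermediateField ℂ E}
    (hKe : K = IntermediateField.adjoin ℂ {τ}) (hK : Stab D K) (h : τ ∈ K) (htr : Tr K ℓ) (hDℓ : D ℓ = τ⁻¹) (S : ℂ[X][X])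
    {c : E} (hc0 : c ≠ 0) {p q : K[X]} (hc : c * aeval ℓ q = aeval ℓ p) (hq : q ≠ 0) (hDc : D c = D (ev2 τ ℓ S) * c) :
    ∃ (c₀ : ℂ) (k : ℤ), S = C (C c₀) + C (C (k : ℂ)) * X := by
  have hτ0 : τ ≠ 0 := by
    intro h2
    have h3 := hτ X (by rw [aeval_X, h2])
    exact X_ne_zero h3
  have ht : D ℓ = 0 * ℓ + τ⁻¹ := by rw [hDℓ, zero_mul, zero_add]
  obtain ⟨Q, hQ, hQc⟩ := D_ev2 hD h hK (zero_mem _) (inv_mem h) ht S
  rw [hQ] at hDc
  have hQ0 := noexp_poly hK htr (zero_mem _) (inv_mem h) ht Q hc0 hc hq hDc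
  -- the coefficients of `S`
  have hco : ∀ i, 1 ≤ i → X * derivative (S.coeff i) + C ((i : ℂ) + 1) * S.coeff (i + 1) = 0 := by
    intro i hi
    apply hτ
    have h1 := hQc i
    rw [coeff_eq_zero_of_natDegree_lt (by omega), ZeroMemClass.coe_zero, mul_zero, zero_mul, add_zero] at h1
    rw [map_add, map_mul, map_mul, aeval_X, aeval_C, map_add, map_natCast, map_one]
    have h2 : τ * (aeval τ (derivative (S.coeff i)) + (i + 1) * τ⁻¹ * aeval τ (S.coeff (i + 1))) = 0 := by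
      rw [← h1, mul_zero]
    rw [← h2]
    field_simp
  have hc0' : ∀ i, 1 ≤ i → (S.coeff (i + 1)).coeff 0 = 0 := by
    intro i hi
    have h1 := congrArg (fun P : ℂ[X] => P.coeff 0) (hco i hi)
    simp only [coeff_add, coeff_X_mul_zero, coeff_C_mul, zero_add, coeff_zero] at h1
    have h2 : ((i : ℂ) + 1) ≠ 0 := by exact_mod_cast Nat.succ_ne_zero i
    exact (mul_eq_zero.1 h1).resolve_left h2
  have hN : S.natDegree ≤ 1 := by
    by_contra hcon
    push Not at hcon
    obtain ⟨n, hn⟩ : ∃ n, S.natDegree = n + 2 := ⟨S.natDegree - 2, by omega⟩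
    have h1 := hco (n + 2) (by omega)
    rw [coeff_eq_zero_of_natDegree_lt (by omega : S.natDegree < n + 2 + 1), mul_zero, add_zero] at h1
    have h2 : derivative (S.coeff (n + 2)) = 0 := (mul_eq_zero.1 h1).resolve_left X_ne_zero
    have h3 := eq_C_of_derivative_eq_zero h2
    have h4 := hc0' (n + 1) (by omega)
    rw [show n + 1 + 1 = n + 2 from rfl] at h4
    rw [h4, map_zero] at h3
    have h5 : S.leadingCoeff = 0 := by rw [leadingCoeff, hn]; exact h3
    rw [leadingCoeff_eq_zero] at h5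
    rw [h5, natDegree_zero] at hn
    omega
  have hS1 : S = C (S.coeff 0) + C (S.coeff 1) * X := by
    rw [add_comm]
    exact eq_X_add_C_of_natDegree_le_one hN
  have h1 := hco 1 le_rfl
  rw [coeff_eq_zero_of_natDegree_lt (by omega : S.natDegree < 1 + 1), mul_zero, add_zero] at h1
  obtain ⟨c1, hc1⟩ : ∃ c1 : ℂ, S.coeff 1 = C c1 :=
    ⟨_, eq_C_of_derivative_eq_zero ((mul_eq_zero.1 h1).resolve_left X_ne_zero)⟩
  -- the smaller field
  have hQC : Q = C (Q.coeff 0) := eq_C_of_natDegree_eq_zero hQ0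
  rw [hQC, aeval_C] at hDc
  obtain ⟨j, c', hc', hc'0, hDc'⟩ := lead hK htr (zero_mem _) (inv_mem h) ht (b0 := ((Q.coeff 0 : K) : E)) (Subtype.property _)
    hc0 hc hq hDc
  rw [mul_zero, sub_zero, hQc 0] at hDc'
  rw [hKe] at hc'
  obtain ⟨k, hk⟩ := rat1 hτ hD hc' hc'0 (X * derivative (S.coeff 0) + C c1) (by
    rw [hDc', map_add, map_mul, aeval_X, aeval_C, hc1, aeval_C]
    push_cast
    field_simp
    ring)
  have h3 := congrArg (fun P : ℂ[X] => P.coeff 0) hk
  simp only [coeff_add, coeff_X_mul_zero, coeff_C_zero, zero_add] at h3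
  rw [h3] at hk
  have h4 : X * derivative (S.coeff 0) = 0 := by
    have h5 : X * derivative (S.coeff 0) + C (k : ℂ) = 0 + C (k : ℂ) := by rw [hk, zero_add]
    exact add_right_cancel h5
  obtain ⟨c2, hc2⟩ : ∃ c2 : ℂ, S.coeff 0 = C c2 :=
    ⟨_, eq_C_of_derivative_eq_zero ((mul_eq_zero.1 h4).resolve_left X_ne_zero)⟩
  exact ⟨c2, k, by rw [hS1, hc1, hc2, h3]⟩

/-- polynomials in `x`, `exp x` -/
theorem pexp {τ t : E} (hτ : ∀ p : ℂ[X], aeval τ p = 0 → p = 0) (hD : D τ = 1) {K : IntermediateField ℂ E}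
    (hKe : K = IntermediateField.adjoin ℂ {τ}) (hK : Stab D K) (h : τ ∈ K) (htr : Tr K t) (hDt : D t = t) (S : ℂ[X][X])
    {c : E} (hc0 : c ≠ 0) {p q : K[X]} (hc : c * aeval t q = aeval t p) (hq : q ≠ 0) (hDc : D c = D (ev2 τ t S) * c) :
    ∃ (c₀ : ℂ) (k : ℤ), S = C (C c₀ + C (k : ℂ) * X) := by
  have ht : D t = 1 * t + 0 := by rw [hDt, one_mul, add_zero]
  obtain ⟨Q, hQ, hQc⟩ := D_ev2 hD h hK (one_mem _) (zero_mem _) ht S
  rw [hQ] at hDc
  have hQ0 := noexp_poly hK htr (one_mem _) (zero_mem _) ht Q hc0 hc hq hDc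
  have hco : ∀ i, 1 ≤ i → S.coeff i = 0 := by
    intro i hi
    have h0 : derivative (S.coeff i) + C (i : ℂ) * S.coeff i = 0 := by
      apply hτ
      have h1 := hQc i
      rw [coeff_eq_zero_of_natDegree_lt (by omega), ZeroMemClass.coe_zero, mul_zero, zero_mul, add_zero, mul_one] at h1
      rw [map_add, map_mul, aeval_C, map_natCast]
      exact h1.symm
    by_contra hne
    have hi0 : (i : ℂ) ≠ 0 := by exact_mod_cast (by omega : i ≠ 0)
    have h1 : (C (i : ℂ) * S.coeff i).degree = (S.coeff i).degree := degree_C_mul hi0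
    have h2 : (derivative (S.coeff i)).degree < (S.coeff i).degree := degree_derivative_lt hne
    have h3 : derivative (S.coeff i) = -(C (i : ℂ) * S.coeff i) := eq_neg_of_add_eq_zero_left h0
    rw [h3, degree_neg, h1] at h2
    exact lt_irrefl _ h2
  have hS : S = C (S.coeff 0) := by
    ext1 i
    rcases i with _ | i
    · rw [coeff_C_zero]
    · rw [hco (i + 1) (by omega), coeff_C_succ]
  have hQC : Q = C (Q.coeff 0) := eq_C_of_natDegree_eq_zero hQ0
  rw [hQC, aeval_C] at hDc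
  obtain ⟨j, c', hc', hc'0, hDc'⟩ := lead hK htr (one_mem _) (zero_mem _) ht (b0 := ((Q.coeff 0 : K) : E)) (Subtype.property _)
    hc0 hc hq hDc
  rw [hQc 0] at hDc'
  rw [hKe] at hc'
  obtain ⟨k, hk⟩ := rat1 hτ hD hc' hc'0 (X * (derivative (S.coeff 0) - C (j : ℂ))) (by
    rw [hDc', map_mul, aeval_X, map_sub, aeval_C, map_intCast]
    push_cast
    ring)
  have h3 := congrArg (fun P : ℂ[X] => P.coeff 0) hk
  simp only [coeff_X_mul_zero, coeff_C_zero] at h3
  rw [← h3, map_zero] at hk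
  have h4 := (mul_eq_zero.1 hk).resolve_left X_ne_zero
  have h5 : derivative (S.coeff 0 - C (j : ℂ) * X) = 0 := by
    rw [derivative_sub, derivative_C_mul, derivative_X, mul_one, h4]
  obtain ⟨c2, hc2⟩ : ∃ c2 : ℂ, S.coeff 0 - C (j : ℂ) * X = C c2 := ⟨_, eq_C_of_derivative_eq_zero h5⟩
  refine ⟨c2, j, ?_⟩
  rw [hS]
  congr 1
  rw [← hc2]
  ring

end Field

end Pool.Agent.X255.RH.Tow
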