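import Pool.Agent.X255.RH.Tow6
import Pool.Agent.X255.RH.LogR

/-!
# Exponentials of polynomials in logarithms: algebra
-/

set_option autoImplicit false
set_option linter.unusedSectionVars false

open Polynomial Filter Topology

namespace Pool.Agent.X255.RH.Tow

open Pool.Agent.Y890.SP

section

variable {E : Type} [Field E] [Algebra ℂ E] [CharZero E] {D : Derivation ℂ E E}

open scoped IntermediateField.algebraAdjoinAdjoin in
theorem tr_of_indep {v : ℕ → E} {N : ℕ} (h : AlgebraicIndepOn ℂ v (Set.Iio N)) {n : ℕ} (hn : n < N) : Tr (F v n) (v n) := by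
  intro P hP
  by_contra hP0
  have halg : IsAlgebraic (IntermediateField.adjoin ℂ (v '' Set.Iio n)) (v n) := ⟨P, hP0, hP⟩
  have h1 := AlgebraicIndependent.transcendental_adjoin h (s := {i : Set.Iio N | (i : ℕ) < n}) (i := ⟨n, hn⟩) (by simp)
  have himg : (fun i : Set.Iio N => v i) '' {i : Set.Iio N | (i : ℕ) < n} = v '' Set.Iio n := by
    ext y
    constructor
    · rintro ⟨i, hi, rfl⟩
      exact ⟨i, hi, rfl⟩
    · rintro ⟨i, hi, rfl⟩
      exact ⟨⟨i, lt_trans hi hn⟩, hi, rfl⟩
  rw [himg] at h1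
  exact h1 ((IsFractionRing.isAlgebraic_iff (Algebra.adjoin ℂ (v '' Set.Iio n))
    (IntermediateField.adjoin ℂ (v '' Set.Iio n)) E).2 halg)

/-- residues -/
theorem res {τ : E} (hτ : ∀ p : ℂ[X], aeval τ p = 0 → p = 0) (hD : D τ = 1) {c : E}
    (hc : c ∈ IntermediateField.adjoin ℂ {τ}) (hc0 : c ≠ 0) (x0 η : ℂ) (A B : ℂ[X]) (hA : A.eval x0 ≠ 0)
    (h : aeval τ ((X - C x0) * A) * D c = aeval τ (C η * A + (X - C x0) * B) * c) : ∃ m : ℤ, η = m := by
  rw [IntermediateField.mem_adjoin_simple_iff] at hc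
  obtain ⟨p, q, hpq⟩ := hc
  have hq : aeval τ q ≠ 0 := by
    intro h0
    rw [h0, div_zero] at hpq
    exact hc0 hpq
  have hq0 : q ≠ 0 := by
    rintro rfl
    exact hq (map_zero _)
  have hp0 : p ≠ 0 := by
    rintro rfl
    rw [map_zero, zero_div] at hpq
    exact hc0 hpq
  have h1 : c * aeval τ q = aeval τ p := by rw [hpq, div_mul_cancel₀ _ hq]
  have h2 := congrArg D h1
  rw [Derivation.leibniz, Derivation.map_aeval, Derivation.map_aeval, hD, smul_eq_mul, smul_eq_mul, smul_eq_mul,
    smul_eq_mul, mul_one, mul_one] at h2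
  have h3 : aeval τ ((X - C x0) * A * (derivative p * q - p * derivative q) - (C η * A + (X - C x0) * B) * (p * q)) = 0 := by
    generalize (X - C x0) * A = U at h ⊢
    generalize C η * A + (X - C x0) * B = U' at h ⊢
    simp only [map_sub, map_mul]
    rw [← h1]
    linear_combination (-(aeval τ U * aeval τ q)) * h2 + (aeval τ q) ^ 2 * h
  have h4 := hτ _ h3
  rw [sub_eq_zero] at h4
  obtain ⟨p1, hp1, hp1'⟩ := exists_eq_pow_rootMultiplicity_mul_and_not_dvd p hp0 x0
  obtain ⟨q1, hq1, hq1'⟩ := exists_eq_pow_rootMultiplicity_mul_and_not_dvd q hq0 x0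
  set m := p.rootMultiplicity x0 with hm
  set n := q.rootMultiplicity x0 with hn
  have hp1e : p1.eval x0 ≠ 0 := fun h0 => hp1' (dvd_iff_isRoot.2 h0)
  have hq1e : q1.eval x0 ≠ 0 := fun h0 => hq1' (dvd_iff_isRoot.2 h0)
  have hdp : ∀ (p p1 : ℂ[X]) (m : ℕ), p = (X - C x0) ^ m * p1 →
      (X - C x0) * derivative p = (m : ℂ[X]) * p + (X - C x0) ^ (m + 1) * derivative p1 := by
    rintro p p1 m rfl
    rw [derivative_mul, derivative_X_sub_C_pow]
    rcases m with _ | m
    · simp
    · rw [Nat.add_sub_cancel]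
      simp only [map_natCast]
      push_cast
      ring
  have h5 : (X - C x0) ^ (m + n) * (A * (((m : ℂ[X]) - (n : ℂ[X])) * (p1 * q1) + (X - C x0) * (derivative p1 * q1 - p1 * derivative q1))) =
      (X - C x0) ^ (m + n) * ((C η * A + (X - C x0) * B) * (p1 * q1)) := by
    have h6 := hdp p p1 m hp1
    have h7 := hdp q q1 n hq1
    have h8 : (X - C x0) * A * (derivative p * q - p * derivative q) =
        A * (((X - C x0) * derivative p) * q - p * ((X - C x0) * derivative q)) := by ring
    rw [h8, h6, h7] at h4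
    have h9 : (X - C x0) ^ (m + n) * ((C η * A + (X - C x0) * B) * (p1 * q1)) = (C η * A + (X - C x0) * B) * (p * q) := by
      rw [pow_add]
      conv_rhs => rw [hp1, hq1]
      ring
    rw [h9, ← h4]
    have e1 : (X - C x0) ^ (m + n) * (p1 * q1) = p * q := by
      rw [pow_add]
      conv_rhs => rw [hp1, hq1]
      ring
    have e2 : (X - C x0) ^ (m + n) * (derivative p1 * q1) = (X - C x0) ^ m * derivative p1 * q := by
      rw [pow_add]
      conv_rhs => rw [hq1]
      ring
    have e3 : (X - C x0) ^ (m + n) * (p1 * derivative q1) = p * ((X - C x0) ^ n * derivative q1) := by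
      rw [pow_add]
      conv_rhs => rw [hp1]
      ring
    rw [pow_succ, pow_succ]
    linear_combination (A * ((m : ℂ[X]) - (n : ℂ[X]))) * e1 + (A * (X - C x0)) * e2 - (A * (X - C x0)) * e3
  have h6 := mul_left_cancel₀ (pow_ne_zero _ (X_sub_C_ne_zero x0)) h5
  have h7 := congrArg (fun P : ℂ[X] => P.eval x0) h6
  simp only [eval_mul, eval_add, eval_sub, eval_X, eval_C, sub_self, zero_mul, add_zero, eval_natCast] at h7
  refine ⟨(m : ℤ) - n, ?_⟩
  push_cast
  apply mul_right_cancel₀ (mul_ne_zero hA (mul_ne_zero hp1e hq1e))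
  linear_combination -h7

/-- degrees -/
theorem rat3 {τ : E} (hτ : ∀ p : ℂ[X], aeval τ p = 0 → p = 0) (hD : D τ = 1) {c : E}
    (hc : c ∈ IntermediateField.adjoin ℂ {τ}) (hc0 : c ≠ 0) (W M : ℂ[X]) (hW : W ≠ 0)
    (h : aeval τ W * D c = aeval τ M * c) : M.degree < W.degree := by
  rw [IntermediateField.mem_adjoin_simple_iff] at hc
  obtain ⟨p, q, hpq⟩ := hc
  have hq : aeval τ q ≠ 0 := by
    intro h0
    rw [h0, div_zero] at hpq
    exact hc0 hpq
  have hq0 : q ≠ 0 := by
    rintro rfl
    exact hq (map_zero _)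
  have hp0 : p ≠ 0 := by
    rintro rfl
    rw [map_zero, zero_div] at hpq
    exact hc0 hpq
  have h1 : c * aeval τ q = aeval τ p := by rw [hpq, div_mul_cancel₀ _ hq]
  have h2 := congrArg D h1
  rw [Derivation.leibniz, Derivation.map_aeval, Derivation.map_aeval, hD, smul_eq_mul, smul_eq_mul, smul_eq_mul,
    smul_eq_mul, mul_one, mul_one] at h2
  have h3 : aeval τ (W * (derivative p * q - p * derivative q) - M * (p * q)) = 0 := by
    simp only [map_sub, map_mul]
    rw [← h1]
    linear_combination (-(aeval τ W * aeval τ q)) * h2 + (aeval τ q) ^ 2 * h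
  have h4 := hτ _ h3
  rw [sub_eq_zero] at h4
  have hdeg : (derivative p * q - p * derivative q).degree < (p * q).degree := by
    have hpd : p.degree ≠ ⊥ := degree_ne_bot.2 hp0
    have hqd : q.degree ≠ ⊥ := degree_ne_bot.2 hq0
    refine (degree_sub_le _ _).trans_lt (max_lt ?_ ?_)
    · rw [degree_mul, degree_mul]
      exact WithBot.add_lt_add_right hqd (degree_derivative_lt hp0)
    · rw [degree_mul, degree_mul]
      exact WithBot.add_lt_add_left hpd (degree_derivative_lt hq0)
  by_contra hcon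
  push Not at hcon
  have h5 := congrArg degree h4
  rw [degree_mul, degree_mul] at h5
  have hWd : W.degree ≠ ⊥ := degree_ne_bot.2 hW
  have h6 : W.degree + (derivative p * q - p * derivative q).degree < W.degree + (p * q).degree :=
    WithBot.add_lt_add_left hWd hdeg
  rw [h5] at h6
  exact absurd h6 (not_lt.2 (add_le_add hcon le_rfl))

/-- the ring of polynomials in the first elements -/
noncomputable def Bn (v : ℕ → E) (n : ℕ) : Subalgebra ℂ E := Algebra.adjoin ℂ (v '' Set.Iio n)

theorem Bn_le (v : ℕ → E) (n : ℕ) {x : E} (h : x ∈ Bn v n) : x ∈ F v n :=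
  IntermediateField.algebra_adjoin_le_adjoin ℂ _ h

theorem Bn_succ (v : ℕ → E) (n : ℕ) {x : E} (hx : x ∈ Bn v (n + 1)) : ∃ S : (F v n)[X],
    x = aeval (v n) S ∧ ∀ i, ((S.coeff i : F v n) : E) ∈ Bn v n := by
  have h1 : v '' Set.Iio (n + 1) = v '' Set.Iio n ∪ {v n} := by
    ext y
    constructor
    · rintro ⟨i, hi, rfl⟩
      rcases (Nat.lt_succ_iff.1 hi).eq_or_lt with h | h
      · right
        rw [h]
        exact Set.mem_singleton _
      · exact Or.inl ⟨i, h, rfl⟩
    · rintro (⟨i, hi, rfl⟩ | hy)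
      · exact ⟨i, (show i < n from hi).trans (Nat.lt_succ_self n), rfl⟩
      · rw [Set.mem_singleton_iff] at hy
        exact ⟨n, Nat.lt_succ_self n, hy.symm⟩
  rw [Bn, h1, Algebra.adjoin_union_eq_adjoin_adjoin, Subalgebra.mem_restrictScalars,
    Algebra.adjoin_singleton_eq_range_aeval] at hx
  obtain ⟨S, hS⟩ := hx
  let ι : Algebra.adjoin ℂ (v '' Set.Iio n) →+* F v n :=
    (Subalgebra.inclusion (IntermediateField.algebra_adjoin_le_adjoin ℂ (v '' Set.Iio n))).toRingHom
  refine ⟨S.map ι, ?_, fun i => ?_⟩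
  · rw [← hS, aeval_def, eval₂_map]
    change aeval (v n) S = _
    rw [aeval_def]
    rfl
  · rw [coeff_map]
    exact (S.coeff i).2

/-- **The tower of logarithms.** -/
theorem logtower {v : ℕ → E} (hconst : ∀ x : E, D x = 0 → ∃ c : ℂ, algebraMap ℂ E c = x) {r : ℕ} (c : ℕ → ℂ)
    (hc : ∀ i < r, ∀ j < r, c i = c j → i = j)
    (hτ : ∀ p : ℂ[X], aeval (v 0) p = 0 → p = 0) (h0 : D (v 0) = 1)
    (hl : ∀ j < r, D (v (j + 1)) = (v 0 - algebraMap ℂ E (c j))⁻¹) (htr : ∀ n ≤ r, Tr (F v n) (v n)) :
    ∀ n ≤ r, ∀ s ∈ Bn v (n + 1), ∀ a : ℕ → ℂ, ∀ z ∈ F v (n + 1), z ≠ 0 →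
      D z = (D s + ∑ j ∈ Finset.Ico n r, algebraMap ℂ E (a j) * D (v (j + 1))) * z →
      ∃ (c0 : ℂ) (k : ℕ → ℤ), s = algebraMap ℂ E c0 + ∑ j ∈ Finset.range n, (k j : E) * v (j + 1) ∧
        ∀ j ∈ Finset.Ico n r, a j = k j := by
  classical
  have hvc : ∀ j, v 0 - algebraMap ℂ E (c j) ≠ 0 := by
    intro j h1
    have h2 := hτ (X - C (c j)) (by rw [map_sub, aeval_X, aeval_C, h1])
    exact X_sub_C_ne_zero _ h2
  have hDm : ∀ n, 1 ≤ n → ∀ j < r, D (v (j + 1)) ∈ F v n := by
    intro n hn j hj
    rw [hl j hj]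
    exact inv_mem (sub_mem (mem_F v hn) (IntermediateField.algebraMap_mem _ _))
  have hst : ∀ n ≤ r + 1, Stab D (F v n) := by
    intro n hn
    refine stab_adjoin ?_
    rintro _ ⟨i, hi, rfl⟩
    have hi' : i < n := hi
    rcases i with _ | i
    · rw [h0]
      exact one_mem _
    · exact hDm n (by omega) i (by omega)
  intro n
  induction n with
  | zero =>
    intro _ s hs a z hz hz0 hDz
    -- the element `s`
    obtain ⟨S, hS⟩ : ∃ S : ℂ[X], s = aeval (v 0) S := by
      rw [Bn] at hs
      have h1 : v '' Set.Iio (0 + 1) = {v 0} := by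
        ext y
        constructor
        · rintro ⟨i, hi, rfl⟩
          have : i = 0 := Nat.lt_one_iff.1 hi
          rw [this]
          rfl
        · intro hy
          rw [Set.mem_singleton_iff] at hy
          exact ⟨0, Nat.zero_lt_one, hy.symm⟩
      rw [h1, Algebra.adjoin_singleton_eq_range_aeval] at hs
      obtain ⟨S, hS⟩ := hs
      exact ⟨S, hS.symm⟩
    rw [zero_add, F_one] at hz
    have hDs : D s = aeval (v 0) (derivative S) := by
      rw [hS, Derivation.map_aeval, h0, smul_eq_mul, mul_one]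
    set W : ℂ[X] := ∏ j ∈ Finset.range r, (X - C (c j)) with hW
    have hWe : aeval (v 0) W = ∏ j ∈ Finset.range r, (v 0 - algebraMap ℂ E (c j)) := by
      rw [hW, map_prod]
      exact Finset.prod_congr rfl fun j _ => by rw [map_sub, aeval_X, aeval_C]
    set Wj : ℕ → ℂ[X] := fun j => ∏ i ∈ (Finset.range r).erase j, (X - C (c i)) with hWj
    have hWjW : ∀ j < r, (X - C (c j)) * Wj j = W := fun j hj =>
      Finset.mul_prod_erase (Finset.range r) (fun j => X - C (c j)) (Finset.mem_range.2 hj)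
    have hWjD : ∀ j < r, aeval (v 0) W * D (v (j + 1)) = aeval (v 0) (Wj j) := by
      intro j hj
      rw [hl j hj, ← hWjW j hj, map_mul, map_sub, aeval_X, aeval_C]
      field_simp [hvc j]
    have hmain : aeval (v 0) W * D z = aeval (v 0) (W * derivative S + ∑ j ∈ Finset.range r, C (a j) * Wj j) * z := by
      rw [hDz, ← mul_assoc, mul_add, hDs, Finset.mul_sum, map_add, map_mul, map_sum]
      congr 2
      rw [Nat.Ico_zero_eq_range]
      refine Finset.sum_congr rfl fun j hj => ?_
      rw [map_mul, aeval_C, ← hWjD j (Finset.mem_range.1 hj)]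
      ring
    have hint : ∀ j < r, ∃ m : ℤ, a j = m := by
      intro j hj
      have hjm : j ∈ Finset.range r := Finset.mem_range.2 hj
      -- the other terms
      have hoth : ∃ B : ℂ[X], W * derivative S + ∑ i ∈ Finset.range r, C (a i) * Wj i = C (a j) * Wj j + (X - C (c j)) * B := by
        refine ⟨Wj j * derivative S + ∑ i ∈ (Finset.range r).erase j, C (a i) *
          ∏ l ∈ ((Finset.range r).erase i).erase j, (X - C (c l)), ?_⟩
        rw [← Finset.add_sum_erase _ _ hjm, ← hWjW j hj, mul_add, Finset.mul_sum]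
        have h1 : ∀ i ∈ (Finset.range r).erase j, C (a i) * Wj i = (X - C (c j)) * (C (a i) *
            ∏ l ∈ ((Finset.range r).erase i).erase j, (X - C (c l))) := by
          intro i hi
          have hij : j ∈ (Finset.range r).erase i := Finset.mem_erase.2 ⟨(Finset.ne_of_mem_erase hi).symm, hjm⟩
          rw [hWj]
          simp only
          rw [← Finset.mul_prod_erase _ (fun l => (X : ℂ[X]) - C (c l)) hij]
          ring
        rw [Finset.sum_congr rfl h1]
        ring
      obtain ⟨B, hB⟩ := hoth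
      refine res hτ h0 hz hz0 (c j) (a j) (Wj j) B ?_ ?_
      · rw [hWj]
        simp only
        rw [eval_prod, Finset.prod_ne_zero_iff]
        intro i hi
        rw [eval_sub, eval_X, eval_C]
        intro h1
        exact (Finset.ne_of_mem_erase hi) (hc i (Finset.mem_range.1 (Finset.mem_of_mem_erase hi)) j hj (sub_eq_zero.1 h1).symm)
      · rw [hWjW j hj, ← hB]
        exact hmain
    choose! k hk using hint
    have hW0 : W ≠ 0 := Finset.prod_ne_zero_iff.2 fun j _ => X_sub_C_ne_zero _
    have hS' : derivative S = 0 := by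
      by_contra hne
      have h1 := rat3 hτ h0 hz hz0 W _ hW0 hmain
      have h2 : (∑ j ∈ Finset.range r, C (a j) * Wj j).degree < W.degree := by
        refine (degree_sum_le _ _).trans_lt ((Finset.sup_lt_iff (by
          rw [bot_lt_iff_ne_bot]; exact degree_ne_bot.2 hW0)).2 fun j hj => ?_)
        have hj' := Finset.mem_range.1 hj
        have hcm : (C (a j) * Wj j).degree ≤ (Wj j).degree := by
          rw [degree_mul]
          exact (add_le_add degree_C_le le_rfl).trans (zero_add _).le
        refine hcm.trans_lt ?_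
        rw [← hWjW j hj', degree_mul, degree_X_sub_C]
        have hWj0 : Wj j ≠ 0 := Finset.prod_ne_zero_iff.2 fun i _ => X_sub_C_ne_zero _
        rw [degree_eq_natDegree hWj0]
        norm_cast
        omega
      have h3 : W.degree ≤ (W * derivative S).degree := by
        rw [degree_mul]
        exact le_add_of_nonneg_right (zero_le_degree_iff.2 hne)
      have h4 : (W * derivative S + ∑ j ∈ Finset.range r, C (a j) * Wj j).degree = (W * derivative S).degree :=
        degree_add_eq_left_of_degree_lt (h2.trans_le h3)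
      rw [h4] at h1
      exact absurd h1 (not_lt.2 h3)
    refine ⟨S.coeff 0, k, ?_, fun j hj => hk j (by
      rw [Finset.mem_Ico] at hj
      exact hj.2)⟩
    rw [Finset.sum_range_zero, add_zero, hS]
    conv_lhs => rw [eq_C_of_derivative_eq_zero hS', aeval_C]
  | succ n ih =>
    intro hnr s hs a z hz hz0 hDz
    have hnr' : n < r := hnr
    have hK := hst (n + 1) (by omega)
    have htr1 := htr (n + 1) hnr
    obtain ⟨S, hsS, hScoef⟩ := Bn_succ v (n + 1) hs
    set t := v (n + 1) with ht
    have hDt : D t ∈ F v (n + 1) := hDm _ (by omega) n hnr'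
    have ht' : D t = 0 * t + D t := by rw [zero_mul, zero_add]
    have hrest : ∑ j ∈ Finset.Ico (n + 1) r, algebraMap ℂ E (a j) * D (v (j + 1)) ∈ F v (n + 1) :=
      sum_mem fun j hj => mul_mem (IntermediateField.algebraMap_mem _ _) (hDm _ (by omega) j (by
        rw [Finset.mem_Ico] at hj
        exact hj.2))
    obtain ⟨Sδ, hSδ, hDS⟩ := dstar hK t S
    let A' : F v (n + 1) := ⟨D t, hDt⟩
    let R : F v (n + 1) := ⟨_, hrest⟩
    set Q : (F v (n + 1))[X] := Sδ + derivative S * C A' + C R with hQ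
    have hQe : aeval t Q = D s + ∑ j ∈ Finset.Ico (n + 1) r, algebraMap ℂ E (a j) * D (v (j + 1)) := by
      rw [hQ, map_add, map_add, map_mul, aeval_C, aeval_C, hsS, hDS]
      rfl
    rw [← hQe] at hDz
    obtain ⟨p, q, hpq, hq⟩ := F_succ v (n + 1) hz
    have hQ0 := noexp_poly hK htr1 (zero_mem _) hDt ht' Q hz0 hpq hq hDz
    have hco : ∀ i, 1 ≤ i → D ((S.coeff i : F v (n + 1)) : E) + (S.coeff (i + 1) : F v (n + 1)) * (i + 1) * D t = 0 := by
      intro i hi
      have h1 : Q.coeff i = 0 := coeff_eq_zero_of_natDegree_lt (by omega)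
      rw [hQ, coeff_add, coeff_add, coeff_mul_C, coeff_derivative, coeff_C_ne_zero (by omega), add_zero] at h1
      have h2 := congrArg (Subtype.val : F v (n + 1) → E) h1
      push_cast at h2
      rw [hSδ] at h2
      exact h2
    have hN : S.natDegree ≤ 1 := by
      by_contra hcon
      push Not at hcon
      obtain ⟨N, hN⟩ : ∃ N, S.natDegree = N + 2 := ⟨S.natDegree - 2, by omega⟩
      have h1 := hco (N + 2) (by omega)
      rw [coeff_eq_zero_of_natDegree_lt (by omega : S.natDegree < N + 2 + 1)] at h1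
      push_cast at h1
      rw [zero_mul, zero_mul, add_zero] at h1
      obtain ⟨κ, hκ⟩ := hconst _ h1
      have h2 := hco (N + 1) (by omega)
      rw [show N + 1 + 1 = N + 2 from rfl, ← hκ] at h2
      have h3 : D (((S.coeff (N + 1) : F v (n + 1)) : E) + algebraMap ℂ E (κ * (N + 2)) * t) = 0 := by
        rw [map_add, Derivation.leibniz, Derivation.map_algebraMap, smul_zero, add_zero, smul_eq_mul, map_mul]
        rw [← h2]
        push_cast
        simp only [map_add, map_natCast, map_ofNat]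
        ring
      obtain ⟨c1, hc1⟩ := hconst _ h3
      have h4 := htr1 (C (S.coeff (N + 1) - algebraMap ℂ _ c1) + C (algebraMap ℂ _ (κ * (N + 2))) * X) (by
        rw [map_add, map_mul, aeval_C, aeval_C, aeval_X]
        change (((S.coeff (N + 1) : F v (n + 1)) : E) - algebraMap ℂ E c1) + algebraMap ℂ E (κ * (N + 2)) * t = 0
        rw [hc1]
        ring)
      have h5 := congrArg (fun P : (F v (n + 1))[X] => P.coeff 1) h4
      simp only [coeff_add, coeff_C_mul, coeff_X_one, mul_one, coeff_C_ne_zero one_ne_zero, zero_add, coeff_zero] at h5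
      rw [map_eq_zero] at h5
      have h6 : ((N : ℂ) + 2) ≠ 0 := by exact_mod_cast Nat.succ_ne_zero (N + 1)
      have h7 : κ = 0 := (mul_eq_zero.1 h5).resolve_right h6
      rw [h7, map_zero] at hκ
      have h8 : S.leadingCoeff = 0 := by
        rw [leadingCoeff, hN]
        exact Subtype.ext hκ.symm
      rw [leadingCoeff_eq_zero] at h8
      rw [h8, natDegree_zero] at hN
      omega
    have h1 := hco 1 le_rfl
    rw [coeff_eq_zero_of_natDegree_lt (by omega : S.natDegree < 1 + 1)] at h1
    push_cast at h1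
    rw [zero_mul, zero_mul, add_zero] at h1
    obtain ⟨κ, hκ⟩ := hconst _ h1
    have hse : s = (S.coeff 0 : F v (n + 1)) + algebraMap ℂ E κ * t := by
      rw [hsS]
      conv_lhs => rw [eq_X_add_C_of_natDegree_le_one hN]
      rw [map_add, map_mul, aeval_C, aeval_C, aeval_X, hκ, add_comm]
      rfl
    have hQC : Q = C (Q.coeff 0) := eq_C_of_natDegree_eq_zero hQ0
    rw [hQC, aeval_C] at hDz
    obtain ⟨j, z', hz', hz'0, hDz'⟩ := lead hK htr1 (zero_mem _) hDt ht' (b0 := ((Q.coeff 0 : F v (n + 1)) : E))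
      (Subtype.property _) hz0 hpq hq hDz
    rw [mul_zero, sub_zero] at hDz'
    have hQc0 : ((Q.coeff 0 : F v (n + 1)) : E) = D ((S.coeff 0 : F v (n + 1)) : E) +
        ∑ j ∈ Finset.Ico n r, algebraMap ℂ E (Function.update a n κ j) * D (v (j + 1)) := by
      rw [hQ, coeff_add, coeff_add, coeff_mul_C, coeff_derivative, coeff_C_zero]
      push_cast
      rw [hSδ, ← Finset.insert_Ico_add_one_left_eq_Ico hnr', Finset.sum_insert (by simp), Function.update_self]
      have h3 : ∑ j ∈ Finset.Ico (n + 1) r, algebraMap ℂ E (Function.update a n κ j) * D (v (j + 1)) =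
          ∑ j ∈ Finset.Ico (n + 1) r, algebraMap ℂ E (a j) * D (v (j + 1)) := by
        refine Finset.sum_congr rfl fun j hj => ?_
        rw [Finset.mem_Ico] at hj
        rw [Function.update_of_ne (by omega)]
      rw [h3, hκ, ← ht]
      change _ + (_ * (0 + 1) * D t) + (∑ j ∈ Finset.Ico (n + 1) r, algebraMap ℂ E (a j) * D (v (j + 1))) = _
      ring
    rw [hQc0] at hDz'
    obtain ⟨c0, k, hk1, hk2⟩ := ih (by omega) _ (hScoef 0) (Function.update a n κ) z' hz' hz'0 hDz'
    have hkn := hk2 n (Finset.mem_Ico.2 ⟨le_rfl, hnr'⟩)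
    rw [Function.update_self] at hkn
    refine ⟨c0, k, ?_, fun j hj => ?_⟩
    · rw [hse, hk1, Finset.sum_range_succ, hkn, map_intCast, ht]
      ring
    · rw [Finset.mem_Ico] at hj
      have h3 := hk2 j (Finset.mem_Ico.2 ⟨by omega, hj.2⟩)
      rwa [Function.update_of_ne (by omega)] at h3

end

end Pool.Agent.X255.RH.Tow
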