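import Pool.Agent.X255.RH.Tow4

/-!
# Towers of exponentials with arbitrary bases
-/

set_option autoImplicit false

open Polynomial Filter Topology

namespace Pool.Agent.X255.RH.Tow

open Pool.Agent.Y890.SP

/-- `y(x)`, `exp (c_0 y(x))`, `exp (c_1 exp (c_0 y(x)))`, … -/
noncomputable def ct (y : ℂ[X]) (c : ℕ → ℂ) : ℕ → ℂ → ℂ
  | 0 => fun x => y.eval x
  | n + 1 => fun x => Complex.exp (c n * ct y c n x)

theorem ct_an (y : ℂ[X]) (c : ℕ → ℂ) (n : ℕ) (V : Set ℂ) : AnalyticOnNhd ℂ (ct y c n) V := by
  induction n with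
  | zero => exact fun x _ => y.differentiable.analyticAt x
  | succ n ih => exact fun x hx => (analyticAt_const.mul (ih x hx)).cexp

/-- **`β_0 ^ y(x)`, `β_1 ^ (β_0 ^ y(x))`, …** -/
theorem ct_indep {V : Set ℂ} (hVo : IsOpen V) (hne : V.Nonempty) (y : ℂ[X]) (hy : 0 < y.natDegree) (c : ℕ → ℂ)
    (hc : ∀ n, c n ≠ 0) (h : ℕ) : Indep V (fun (i : Fin h) => ct y c (i + 1)) := by
  obtain ⟨x0, hx0⟩ := hne
  obtain ⟨E, _, _, D, T, G⟩ := germ x0
  haveI : CharZero E := charZero_of_injective_algebraMap (algebraMap ℂ E).injective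
  have hid : AnalyticAt ℂ (fun s : ℂ => s) x0 := analyticAt_id
  set τ : E := T fun s => s with hτ
  let φ : ℕ → ℂ → ℂ := fun n => match n with
    | 0 => fun x => x
    | n + 1 => ct y c (n + 1)
  set v : ℕ → E := fun n => T (φ n) with hv
  have hv0 : v 0 = τ := rfl
  have hDv : ∀ n, D (v (n + 1)) = algebraMap ℂ E (c n) * D (T (ct y c n)) * v (n + 1) := by
    intro n
    have han : AnalyticAt ℂ (fun x => c n * ct y c n x) x0 := analyticAt_const.mul (ct_an y c n V x0 hx0)
    have h1 := G.dexp han
    rw [G.mul _ _ analyticAt_const (ct_an y c n V x0 hx0), G.cst, Derivation.leibniz, Derivation.map_algebraMap,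
      smul_zero, add_zero, smul_eq_mul] at h1
    exact h1
  let a : ℕ → E := fun n => match n with
    | 0 => 0
    | n + 1 => algebraMap ℂ E (c n) * D (T (ct y c n))
  let a' : ℕ → E := fun n => match n with
    | 0 => 1
    | _ + 1 => 0
  have hD : ∀ n, D (v n) = a n * v n + a' n := by
    intro n
    match n with
    | 0 =>
      change D τ = 0 * v 0 + 1
      rw [zero_mul, zero_add]
      exact G.D1
    | n + 1 =>
      change D (v (n + 1)) = _ * v (n + 1) + 0
      rw [add_zero]
      exact hDv n
  have ha1 : a 1 = algebraMap ℂ E (c 0) * aeval τ (derivative y) := by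
    change algebraMap ℂ E (c 0) * D (T fun x => y.eval x) = _
    rw [← G.aev, Derivation.map_aeval, show D (T fun s => s) = 1 from G.D1, smul_eq_mul, mul_one]
  have ha2 : ∀ n, a (n + 2) = algebraMap ℂ E (c (n + 1)) * a (n + 1) * v (n + 1) + 0 := by
    intro n
    change algebraMap ℂ E (c (n + 1)) * D (v (n + 1)) = _
    rw [hD (n + 1)]
    change algebraMap ℂ E (c (n + 1)) * (a (n + 1) * v (n + 1) + 0) = _
    ring
  have hpoly : ∀ (p : ℂ[X]) (n : ℕ), 0 < n → aeval τ p ∈ F v n := by
    intro p n hn
    have h1 : τ ∈ F v n := mem_F v hn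
    have h2 : aeval τ p = ((aeval (⟨τ, h1⟩ : F v n) p : F v n) : E) := by
      have h3 := Polynomial.aeval_algebraMap_apply E (⟨τ, h1⟩ : F v n) p
      exact h3
    rw [h2]
    exact Subtype.property _
  have ham : ∀ n, a n ∈ F v n := by
    intro n
    induction n using Nat.strong_induction_on with
    | _ n ih =>
      match n with
      | 0 => exact zero_mem _
      | 1 =>
        rw [ha1]
        exact mul_mem (IntermediateField.algebraMap_mem _ _) (hpoly _ 1 Nat.zero_lt_one)
      | n + 2 =>
        rw [ha2]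
        exact add_mem (mul_mem (mul_mem (IntermediateField.algebraMap_mem _ _)
          (F_mono v (show n + 1 ≤ n + 2 by omega) (ih (n + 1) (by omega))))
          (mem_F v (show n + 1 < n + 2 by omega))) (zero_mem _)
  have ham' : ∀ n, a' n ∈ F v n := by
    intro n
    match n with
    | 0 => exact one_mem _
    | n + 1 => exact zero_mem _
  have hvne : ∀ n, v (n + 1) ≠ 0 := fun n => G.ne (ct_an y c (n + 1) V x0 hx0) (Complex.exp_ne_zero _)
  have hy' : derivative y ≠ 0 := by
    intro h0
    have h1 := natDegree_eq_zero_of_derivative_eq_zero h0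
    omega
  have htr0 : Tr (F v 0) (v 0) := F_zero_tr G.tr
  have hst : Stab D (F v 1) := by
    refine stab_adjoin ?_
    rintro _ ⟨i, hi, rfl⟩
    have : i = 0 := Nat.lt_one_iff.1 hi
    rw [this]
    have h1 : D (v 0) = 1 := G.D1
    rw [h1]
    exact one_mem _
  have htr1 : Tr (F v 1) (v 1) := by
    refine exp_tr hst (hvne 0) (ham 1) (by rw [hD 1]; exact add_zero _) fun b hb hb0 m hm hDb => ?_
    rw [F_one] at hb
    obtain ⟨j, hj⟩ := rat1 G.tr G.D1 hb hb0 (C ((m : ℂ) * c 0) * (derivative y * X)) (by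
      rw [hDb, ha1, map_mul, aeval_C, map_mul (aeval _) (derivative y) X, aeval_X, map_mul (algebraMap ℂ E), map_natCast]
      change τ * _ = (m * algebraMap ℂ E (c 0) * (_ * τ)) * b
      ring)
    have hm0 : (m : ℂ) * c 0 ≠ 0 := mul_ne_zero (by exact_mod_cast hm.ne') (hc 0)
    have h1 := congrArg natDegree hj
    rw [natDegree_C, natDegree_C_mul hm0, natDegree_mul_X hy'] at h1
    omega
  have htower : ∀ n < h + 1, Tr (F v n) (v n) := by
    refine tower v 2 (h + 1) one_le_two (fun n hn => ?_) a a' (fun n _ => ham n) (fun n _ => ham' n) (fun n _ => hD n)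
      fun n hn _ ih => ?_
    · interval_cases n
      · exact htr0
      · exact htr1
    · obtain ⟨n, rfl⟩ : ∃ m, n = m + 2 := ⟨n - 2, by omega⟩
      refine ⟨hvne (n + 1), rfl, algebraMap ℂ E (c (n + 1)) * a (n + 1), 0,
        mul_mem (IntermediateField.algebraMap_mem _ _) (ham (n + 1)), zero_mem _, fun h00 => ?_, ha2 n⟩
      have h0 : a (n + 1) = 0 := (mul_eq_zero.1 h00).resolve_left
        ((_root_.map_ne_zero (algebraMap ℂ E)).2 (hc (n + 1)))
      have h1 := hD (n + 1)
      rw [h0, zero_mul] at h1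
      change D (v (n + 1)) = 0 + 0 at h1
      rw [add_zero] at h1
      obtain ⟨d, hd⟩ := G.const _ h1
      have h3 := ih (n + 1) (by omega) (X - C (algebraMap ℂ _ d)) (by
        rw [map_sub, aeval_C, aeval_X]
        change v (n + 1) - algebraMap ℂ E d = 0
        rw [hd, sub_self])
      exact X_sub_C_ne_zero _ h3
  have hch := chain v (h + 1) htower
  refine G.indep hVo hx0 (fun i => ct_an y c _ V) ?_
  · let em : Option (Fin h) → Set.Iio (h + 1) := fun o => match o with
      | none => ⟨0, (by omega : 0 < h + 1)⟩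
      | some i => ⟨i + 1, by have := i.2; exact (by omega : (i : ℕ) + 1 < h + 1)⟩
    have h6 := AlgebraicIndependent.comp hch em (by
      intro o o' hij
      have h7 := congrArg Subtype.val hij
      rcases o with _ | i <;> rcases o' with _ | j <;> simp only [em] at h7 <;> try rfl
      all_goals first | omega | skip
      congr 1
      exact Fin.ext (by omega))
    convert h6 using 1
    funext o
    rcases o with _ | i <;> rfl

end Pool.Agent.X255.RH.Tow
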